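import Pool.Agent.Lib.MP_e43fce_nt_nat.MMs

/-! From the odd numbers to all numbers: `n = 2^j m`. -/

set_option autoImplicit false

namespace Pool.Agent.Lib.MP_e43fce_nt_nat

open Finset Filter Topology

theorem floor_div_pow (X j : ℕ) : ⌊(X : ℝ) / 2 ^ j⌋₊ = X / 2 ^ j := by
  have h : ((2 : ℝ) ^ j) = ((2 ^ j : ℕ) : ℝ) := by push_cast; rfl
  rw [h, Nat.floor_div_natCast, Nat.floor_natCast]

theorem oddS_div (X j : ℕ) : oddS ((X : ℝ) / 2 ^ j) =
    (Icc 1 (X / 2 ^ j)).filter (fun n => n % 2 = 1) := by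
  unfold oddS
  rw [floor_div_pow]

theorem sum_even_odd (p : ℕ → ℝ) (X : ℕ) : ∑ n ∈ Icc 1 X, p n =
    ∑ n ∈ (Icc 1 X).filter (fun n => n % 2 = 1), p n + ∑ m ∈ Icc 1 (X / 2), p (2 * m) := by
  rw [← Finset.sum_filter_add_sum_filter_not (Icc 1 X) (fun n => n % 2 = 1)]
  congr 1
  symm
  refine Finset.sum_bij (fun m _ => 2 * m) ?_ ?_ ?_ ?_
  · intro m hm
    simp only [mem_Icc, mem_filter] at hm ⊢
    omega
  · intro a _ b _ h
    have h' : 2 * a = 2 * b := h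
    omega
  · intro b hb
    simp only [mem_Icc, mem_filter] at hb
    refine ⟨b / 2, ?_, ?_⟩
    · simp only [mem_Icc]; omega
    · show 2 * (b / 2) = b
      omega
  · intro m _; rfl

/-- the decomposition by the power of two -/
theorem sum_decomp (J : ℕ) : ∀ (p : ℕ → ℝ) (X : ℕ), X < 2 ^ J → ∑ n ∈ Icc 1 X, p n =
    ∑ j ∈ range J, ∑ m ∈ oddS ((X : ℝ) / 2 ^ j), p (2 ^ j * m) := by
  induction J with
  | zero =>
    intro p X hX
    have : X = 0 := by simpa using hX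
    subst this
    simp
  | succ J ih =>
    intro p X hX
    rw [sum_even_odd, Finset.sum_range_succ', add_comm]
    have h2 : X / 2 < 2 ^ J := by
      rw [pow_succ] at hX
      omega
    congr 1
    · rw [ih (fun m => p (2 * m)) (X / 2) h2]
      apply Finset.sum_congr rfl
      intro j _
      rw [oddS_div, oddS_div, Nat.div_div_eq_div_mul, ← pow_succ']
      apply Finset.sum_congr rfl
      intro m _
      show p (2 * (2 ^ j * m)) = p (2 ^ (j + 1) * m)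
      congr 1
      ring
    · rw [oddS_div]
      simp

theorem DD_log {p : ℕ → ℝ} {Y : ℝ} (hY : 0 < Y) :
    DD 0 p (Real.log Y) = (∑ m ∈ oddS Y, p m) / Y := by
  unfold DD NN
  rw [Real.exp_log hY]
  simp [MM_zero]

theorem DD0_abs_le {p : ℕ → ℝ} (hp : Unit01 p) (x : ℝ) : ‖DD 0 p x‖ ≤ 1 := by
  rw [Real.norm_eq_abs, abs_of_nonneg (DD_nonneg hp x)]
  exact DD0_le_one hp x

theorem mean_eq_tsum (p : ℕ → ℝ) {X : ℕ} (hX : 1 ≤ X) :
    (∑ n ∈ Icc 1 X, p n) / X =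
      ∑' j : ℕ, (1 / 2 : ℝ) ^ j * DD 0 (fun m => p (2 ^ j * m)) (Real.log ((X : ℝ) / 2 ^ j)) := by
  have hX0 : (0 : ℝ) < X := by exact_mod_cast hX
  have hterm : ∀ j : ℕ, (1 / 2 : ℝ) ^ j * DD 0 (fun m => p (2 ^ j * m))
      (Real.log ((X : ℝ) / 2 ^ j)) = (∑ m ∈ oddS ((X : ℝ) / 2 ^ j), p (2 ^ j * m)) / X := by
    intro j
    rw [DD_log (by positivity)]
    have h2 : (2 : ℝ) ^ j ≠ 0 := by positivity
    have h3 : (1 / 2 : ℝ) ^ j = 1 / 2 ^ j := by rw [div_pow, one_pow]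
    rw [h3]
    field_simp
  rw [tsum_congr hterm]
  have hlt : X < 2 ^ X := Nat.lt_two_pow_self
  rw [tsum_eq_sum (s := range X), sum_decomp X p X hlt, Finset.sum_div]
  intro j hj
  have hj' : X ≤ j := by simpa using hj
  have hz : X / 2 ^ j = 0 := Nat.div_eq_of_lt (lt_of_lt_of_le hlt (Nat.pow_le_pow_right (by norm_num) hj'))
  rw [oddS_div, hz]
  simp

/-- From odd numbers to all numbers. -/
theorem all_of_odd (p : ℕ → ℝ) (hp : Unit01 p) (d : ℕ → ℝ)
    (h : ∀ j : ℕ, Tendsto (DD 0 (fun m => p (2 ^ j * m))) atTop (𝓝 (d j))) :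
    Tendsto (fun X : ℕ => (∑ n ∈ Icc 1 X, p n) / X) atTop (𝓝 (∑' j : ℕ, (1 / 2 : ℝ) ^ j * d j)) := by
  have hbound : Summable (fun j : ℕ => (1 / 2 : ℝ) ^ j) :=
    summable_geometric_of_lt_one (by norm_num) (by norm_num)
  have key : Tendsto (fun X : ℕ => ∑' j : ℕ, (1 / 2 : ℝ) ^ j *
      DD 0 (fun m => p (2 ^ j * m)) (Real.log ((X : ℝ) / 2 ^ j))) atTop
      (𝓝 (∑' j : ℕ, (1 / 2 : ℝ) ^ j * d j)) := by
    refine tendsto_tsum_of_dominated_convergence hbound ?_ ?_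
    · intro j
      refine Tendsto.const_mul _ ((h j).comp ?_)
      refine Real.tendsto_log_atTop.comp ?_
      exact tendsto_natCast_atTop_atTop.atTop_div_const (by positivity)
    · filter_upwards with X j
      rw [norm_mul, Real.norm_of_nonneg (by positivity : (0:ℝ) ≤ (1/2) ^ j)]
      have := DD0_abs_le (p := fun m => p (2 ^ j * m)) (fun n => hp _) (Real.log ((X : ℝ) / 2 ^ j))
      have h0 : (0 : ℝ) ≤ (1 / 2) ^ j := by positivity
      nlinarith
  refine key.congr' ?_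
  filter_upwards [eventually_ge_atTop 1] with X hX
  rw [mean_eq_tsum p hX]

end Pool.Agent.Lib.MP_e43fce_nt_nat
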