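import Pool.Agent.Lib.MP_e43fce_nt_nat.TV

set_option autoImplicit false

namespace Pool.Agent.Lib.MP_e43fce_nt_nat

open Finset

variable {D : ℝ → ℝ} {C x0 : ℝ}

theorem rho_eq_zero_of_lt {K A : ℕ} (h : A < K) : rho K A = 0 := by
  unfold rho
  rw [if_neg (by omega)]
  split_ifs with h1
  · rfl
  · rw [Nat.choose_eq_zero_of_lt (by omega)]; simp

theorem Ren.abs_le (h : Ren D C x0) (x : ℝ) : |D x| ≤ 1 :=
  _root_.abs_le.2 ⟨by linarith [h.nonneg x], h.le_one x⟩

theorem Ren.weaken (h : Ren D C x0) {C' x0' : ℝ} (hC : C ≤ C') (hx : x0 ≤ x0') (hx1 : 0 ≤ x0') :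
    Ren D C' x0' :=
  { nonneg := h.nonneg
    le_one := h.le_one
    mono := h.mono
    lip := h.lip
    ren := fun x hx' K N h1 h2 h3 => (h.ren x (hx.trans hx') K N h1 h2 h3).trans
      (mul_le_mul_of_nonneg_right hC (Real.rpow_nonneg (hx1.trans hx') _)) }

theorem sum_diff_le {a b g : ℕ → ℝ} {B : ℝ} (N : ℕ) (hg : ∀ A, |g A| ≤ 1)
    (hB : ∑ A ∈ range N, |a A - b A| ≤ B) :
    |∑ A ∈ range N, a A * g A - ∑ A ∈ range N, b A * g A| ≤ B := by
  rw [← Finset.sum_sub_distrib]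
  refine (Finset.abs_sum_le_sum_abs _ _).trans ((Finset.sum_le_sum (fun A _ => ?_)).trans hB)
  rw [← sub_mul, abs_mul]
  exact mul_le_of_le_one_right (abs_nonneg _) (hg A)

/-- the shift lemma: common source of F1, F2, F3 -/
theorem soft_shift (h : Ren D C x0) {x y : ℝ} {K K' m : ℕ} (hx : x0 ≤ x) (hy : x0 ≤ y)
    (hK1 : x / 10 ≤ K) (hK2 : (K : ℝ) ≤ 3 * x / 10)
    (hK1' : y / 10 ≤ K') (hK2' : (K' : ℝ) ≤ 3 * y / 10) (hm : m ≤ K')
    (hxy : y + K' * Real.log 3 - m * Real.log 2 = x + K * Real.log 3) {B : ℝ}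
    (hB : ∀ N, ∑ A ∈ range N, |rho K' (A + m) - rho K A| ≤ B) :
    |D y - D x| ≤ C * y ^ (-(1 / 4) : ℝ) + C * x ^ (-(1 / 4) : ℝ) + B := by
  set N := 3 * K + 3 * K' with hN
  have h1 := h.ren x hx K N hK1 hK2 (by omega)
  have h2 := h.ren y hy K' (m + N) hK1' hK2' (by omega)
  have h3 : ∑ A ∈ range (m + N), rho K' A * D (y + K' * Real.log 3 - A * Real.log 2) =
      ∑ A ∈ range N, rho K' (A + m) * D (x + K * Real.log 3 - A * Real.log 2) := by
    rw [Finset.sum_range_add, Finset.sum_eq_zero (fun A hA => ?_), zero_add]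
    · refine Finset.sum_congr rfl (fun A _ => ?_)
      rw [add_comm m A]
      congr 2
      push_cast
      linarith
    · rw [rho_eq_zero_of_lt (lt_of_lt_of_le (Finset.mem_range.1 hA) hm), zero_mul]
  have h4 := sum_diff_le (g := fun A : ℕ => D (x + K * Real.log 3 - A * Real.log 2)) N
    (fun A => h.abs_le _) (hB N)
  rw [h3] at h2
  rw [_root_.abs_le] at h1 h2 h4 ⊢
  constructor <;> linarith [h1.1, h1.2, h2.1, h2.2, h4.1, h4.2]

theorem rpow_quarter_mono {x y : ℝ} (hx : 0 < x) (hxy : x ≤ y) :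
    y ^ (-(1 / 4) : ℝ) ≤ x ^ (-(1 / 4) : ℝ) :=
  Real.rpow_le_rpow_of_nonpos hx hxy (by norm_num)

theorem inv_sqrt_le {x : ℝ} {K : ℕ} (hx : 1 ≤ x) (hK : x / 10 ≤ K) :
    1 / √(K : ℝ) ≤ 4 * x ^ (-(1 / 4) : ℝ) := by
  have h0 : 0 < x := by linarith
  have h1 : √x / 4 ≤ √(K : ℝ) := by
    rw [div_le_iff₀ (by norm_num)]
    have : √x ≤ √((K : ℝ) * 16) := Real.sqrt_le_sqrt (by linarith)
    rwa [Real.sqrt_mul (by positivity), show (16 : ℝ) = 4 ^ 2 by norm_num,
      Real.sqrt_sq (by norm_num)] at this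
  have h2 : 0 < √x := Real.sqrt_pos.2 h0
  have h3 : 1 / √(K : ℝ) ≤ 4 / √x := by
    rw [div_le_div_iff₀ (by linarith) h2]
    linarith
  have h4 : 1 / √x ≤ x ^ (-(1 / 4) : ℝ) := by
    rw [Real.sqrt_eq_rpow, one_div, ← Real.rpow_neg h0.le]
    exact Real.rpow_le_rpow_of_exponent_le hx (by norm_num)
  calc 1 / √(K : ℝ) ≤ 4 / √x := h3
    _ = 4 * (1 / √x) := by ring
    _ ≤ _ := by linarith

theorem log2_lt : Real.log 2 < 7 / 10 := by linarith [Real.log_two_lt_d9]
theorem log2_gt : 69 / 100 < Real.log 2 := by linarith [Real.log_two_gt_d9]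

theorem log3_bd : 1.0985 < Real.log 3 ∧ Real.log 3 < 1.0989 := by
  have h2 := Real.log_two_gt_d9
  have h2' := Real.log_two_lt_d9
  constructor
  · have h : Real.log ((2 : ℝ) ^ 84) < Real.log ((3 : ℝ) ^ 53) :=
      Real.log_lt_log (by positivity) (by norm_num)
    rw [Real.log_pow, Real.log_pow] at h
    push_cast at h
    linarith
  · have h : Real.log ((3 : ℝ) ^ 41) < Real.log ((2 : ℝ) ^ 65) :=
      Real.log_lt_log (by positivity) (by norm_num)
    rw [Real.log_pow, Real.log_pow] at h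
    push_cast at h
    linarith

theorem floor_fifth {x : ℝ} (hx : 100 ≤ x) :
    x / 5 - 1 ≤ (⌊x / 5⌋₊ : ℝ) ∧ (⌊x / 5⌋₊ : ℝ) ≤ x / 5 := by
  constructor
  · have := Nat.lt_floor_add_one (x / 5)
    linarith
  · exact Nat.floor_le (by linarith)

theorem soft_F1' (h : Ren D C x0) (hC : 0 ≤ C) (hx0 : 100 ≤ x0) : ∀ x, x0 ≤ x →
    |D (x + Real.log 2) - D x| ≤ (2 * C + 8) * x ^ (-(1 / 4) : ℝ) := by
  intro x hx
  have hx1 : 100 ≤ x := hx0.trans hx
  obtain ⟨hf1, hf2⟩ := floor_fifth hx1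
  set K := ⌊x / 5⌋₊ with hKdef
  have hl := log2_lt
  have hl' := log2_gt
  have hK1 : x / 10 ≤ K := by linarith
  have hKpos : 1 ≤ K := by
    have : (0 : ℝ) < K := by linarith
    exact_mod_cast this
  have h1 := soft_shift h (x := x) (y := x + Real.log 2) (K := K) (K' := K) (m := 1) hx
    (by linarith) hK1 (by linarith) (by linarith) (by linarith) hKpos (by push_cast; ring)
    (B := 2 / √(K : ℝ)) (fun N => TV1 hKpos N)
  have h2 := inv_sqrt_le (x := x) (K := K) (by linarith) hK1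
  have h3 : (x + Real.log 2) ^ (-(1 / 4) : ℝ) ≤ x ^ (-(1 / 4) : ℝ) :=
    rpow_quarter_mono (by linarith) (by linarith)
  have h4 := mul_le_mul_of_nonneg_left h3 hC
  have h5 : 2 / √(K : ℝ) = 2 * (1 / √(K : ℝ)) := by ring
  rw [h5] at h1
  linarith

/-- partial sums of the geometric law -/
theorem rho_one (a : ℕ) : rho 1 (a + 1) = 1 / 2 ^ (a + 1) := by
  unfold rho
  simp

theorem rho_one_zero : rho 1 0 = 0 := by
  unfold rho
  simp

theorem rho_one_sum (M : ℕ) : ∑ a ∈ range (M + 1), rho 1 a = 1 - 1 / 2 ^ M := by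
  induction M with
  | zero => simp [rho_one_zero]
  | succ n ih =>
    rw [Finset.sum_range_succ, ih, rho_one]
    rw [pow_succ]
    field_simp
    ring

theorem rho_le_one (K A : ℕ) : rho K A ≤ 1 := by
  have h1 := rho_sum_le K (A + 1)
  have h2 : rho K A ≤ ∑ A ∈ range (A + 1), rho K A :=
    Finset.single_le_sum (f := fun A => rho K A) (fun i _ => rho_nonneg K i)
      (Finset.self_mem_range_succ A)
  linarith

theorem TV_one {K : ℕ} (hK : 1 ≤ K) (N : ℕ) :
    ∑ A ∈ range N, |rho K (A + 0) - rho (K + 1) A| ≤ 8 / √(K : ℝ) := by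
  have hKr : (0 : ℝ) < √(K : ℝ) := Real.sqrt_pos.2 (by exact_mod_cast hK)
  -- for every large M
  have key : ∀ M, N ≤ M → ∑ A ∈ range N, |rho K (A + 0) - rho (K + 1) A| ≤
      7 / √(K : ℝ) + 1 / 2 ^ M := by
    intro M hM
    have hterm : ∀ A ∈ range N, |rho K (A + 0) - rho (K + 1) A| ≤
        (∑ a ∈ range (M + 1), rho 1 a * |rho K (A - 0) - rho K (A - a)|) +
          1 / 2 ^ M * rho K A := by
      intro A hA
      have hA' : A < N := Finset.mem_range.1 hA
      have e1 : rho (K + 1) A = ∑ a ∈ range (M + 1), rho 1 a * rho K (A - a) := by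
        rw [add_comm K 1, rho_conv]
        refine Finset.sum_subset (Finset.range_mono (by omega)) (fun a _ ha => ?_)
        have : A - a = 0 := by
          have := Finset.mem_range.not.1 ha
          omega
        rw [this, rho_eq_zero_of_lt (K := K) (A := 0) (by omega), mul_zero]
      have e2 : rho K (A + 0) = ∑ a ∈ range (M + 1), rho 1 a * rho K (A - 0) +
          1 / 2 ^ M * rho K A := by
        rw [← Finset.sum_mul, rho_one_sum, add_zero, Nat.sub_zero]
        ring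
      rw [e1, e2, add_sub_right_comm, ← Finset.sum_sub_distrib]
      refine (abs_add_le _ _).trans (add_le_add ?_ ?_)
      · refine (Finset.abs_sum_le_sum_abs _ _).trans (Finset.sum_le_sum (fun a _ => ?_))
        rw [← mul_sub, abs_mul, abs_of_nonneg (rho_nonneg 1 a)]
      · rw [abs_of_nonneg (mul_nonneg (by positivity) (rho_nonneg K A))]
    refine (Finset.sum_le_sum hterm).trans ?_
    rw [Finset.sum_add_distrib, Finset.sum_comm, ← Finset.mul_sum]
    refine add_le_add ?_ ?_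
    · have h1 : ∀ a ∈ range (M + 1), ∑ A ∈ range N, rho 1 a * |rho K (A - 0) - rho K (A - a)| ≤
          rho 1 a * (2 * ((|(a : ℝ) - 2 * ((1 : ℕ) : ℝ)|) + 2) / √(K : ℝ)) := by
        intro a _
        rw [← Finset.mul_sum]
        refine mul_le_mul_of_nonneg_left ((TV2 hK N 0 a).trans ?_) (rho_nonneg 1 a)
        refine div_le_div_of_nonneg_right (mul_le_mul_of_nonneg_left ?_ (by norm_num)) hKr.le
        rw [Nat.cast_zero, zero_sub, abs_neg]
        have := abs_add_le ((a : ℝ) - 2 * ((1 : ℕ) : ℝ)) 2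
        rw [Nat.cast_one, mul_one, sub_add_cancel] at this
        rw [Nat.cast_one, mul_one]
        calc |(a : ℝ)| ≤ |(a : ℝ) - 2| + |2| := this
          _ = _ := by norm_num
      refine (Finset.sum_le_sum h1).trans ?_
      have h2 : ∑ a ∈ range (M + 1), rho 1 a * (2 * ((|(a : ℝ) - 2 * ((1 : ℕ) : ℝ)|) + 2) / √(K : ℝ)) =
          2 / √(K : ℝ) * (∑ a ∈ range (M + 1), rho 1 a * |(a : ℝ) - 2 * ((1 : ℕ) : ℝ)|) +
          4 / √(K : ℝ) * ∑ a ∈ range (M + 1), rho 1 a := by
        rw [Finset.mul_sum, Finset.mul_sum, ← Finset.sum_add_distrib]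
        refine Finset.sum_congr rfl (fun a _ => ?_)
        ring
      rw [h2]
      have h3 := rho_abs 1 (M + 1)
      have h4 := rho_sum_le 1 (M + 1)
      have h5 : √(2 * ((1 : ℕ) : ℝ)) ≤ 3 / 2 := by
        rw [Real.sqrt_le_left (by norm_num)]
        norm_num
      have h6 := mul_le_mul_of_nonneg_left (h3.trans h5) (div_nonneg (by norm_num : (0:ℝ) ≤ 2) hKr.le)
      have h7 := mul_le_mul_of_nonneg_left h4 (div_nonneg (by norm_num : (0:ℝ) ≤ 4) hKr.le)
      have h8 : 2 / √(K : ℝ) * (3 / 2) + 4 / √(K : ℝ) * 1 = 7 / √(K : ℝ) := by ring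
      linarith
    · have := rho_sum_le K N
      have h2 : (0 : ℝ) ≤ 1 / 2 ^ M := by positivity
      nlinarith
  obtain ⟨M0, hM0⟩ := exists_nat_gt (√(K : ℝ))
  have h1 := key (max N M0) (le_max_left _ _)
  have h2 : (1 : ℝ) / 2 ^ (max N M0) ≤ 1 / √(K : ℝ) := by
    refine one_div_le_one_div_of_le hKr ?_
    have h3 : ((max N M0 : ℕ) : ℝ) < 2 ^ (max N M0) := by exact_mod_cast Nat.lt_two_pow_self
    have h4 : (M0 : ℝ) ≤ ((max N M0 : ℕ) : ℝ) := by exact_mod_cast le_max_right _ _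
    linarith
  have h5 : 7 / √(K : ℝ) + 1 / √(K : ℝ) = 8 / √(K : ℝ) := by ring
  linarith

theorem soft_F2' (h : Ren D C x0) (hC : 0 ≤ C) (hx0 : 100 ≤ x0) : ∀ x, x0 ≤ x →
    |D (x + Real.log 3) - D x| ≤ (2 * C + 32) * x ^ (-(1 / 4) : ℝ) := by
  intro x hx
  have hx1 : 100 ≤ x := hx0.trans hx
  obtain ⟨hf1, hf2⟩ := floor_fifth hx1
  set K := ⌊x / 5⌋₊ with hKdef
  obtain ⟨hl, hl'⟩ := log3_bd
  have hK1 : x / 10 ≤ K := by linarith
  have hKpos : 1 ≤ K := by
    have : (0 : ℝ) < K := by linarith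
    exact_mod_cast this
  have h1 := soft_shift h (x := x) (y := x + Real.log 3) (K := K + 1) (K' := K) (m := 0) hx
    (by linarith) (by push_cast; linarith) (by push_cast; linarith) (by linarith) (by linarith)
    (Nat.zero_le _) (by push_cast; ring) (B := 8 / √(K : ℝ)) (fun N => TV_one hKpos N)
  have h2 := inv_sqrt_le (x := x) (K := K) (by linarith) hK1
  have h3 : (x + Real.log 3) ^ (-(1 / 4) : ℝ) ≤ x ^ (-(1 / 4) : ℝ) :=
    rpow_quarter_mono (by linarith) (by linarith)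
  have h4 := mul_le_mul_of_nonneg_left h3 hC
  have h5 : 8 / √(K : ℝ) = 8 * (1 / √(K : ℝ)) := by ring
  rw [h5] at h1
  linarith

theorem soft_F3' (h : Ren D C x0) (hC : 0 ≤ C) (hx0 : 100 ≤ x0) : ∀ x, x0 ≤ x → ∀ d : ℕ,
    (d : ℝ) ≤ x / 10 → |D (x + d * (2 * Real.log 2 - Real.log 3)) - D x|
      ≤ (2 * C + 12) * (x ^ (-(1 / 4) : ℝ) + Real.sqrt (d / x)) := by
  intro x hx d hd
  have hx1 : 100 ≤ x := hx0.trans hx
  obtain ⟨hf1, hf2⟩ := floor_fifth hx1
  set K := ⌊x / 5⌋₊ with hKdef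
  obtain ⟨hl3, hl3'⟩ := log3_bd
  have hl := log2_lt
  have hl' := log2_gt
  have hK1 : x / 10 ≤ K := by linarith
  have hKpos : 1 ≤ K := by
    have : (0 : ℝ) < K := by linarith
    exact_mod_cast this
  have hd0 : (0 : ℝ) ≤ d := Nat.cast_nonneg d
  have hc0 : 0 ≤ (d : ℝ) * (2 * Real.log 2 - Real.log 3) := mul_nonneg hd0 (by linarith)
  have hc1 : (d : ℝ) * (2 * Real.log 2 - Real.log 3) ≤ x / 10 * (1 / 2) :=
    mul_le_mul hd (by linarith) (by linarith) (by linarith)
  have hdK : d ≤ K := by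
    have : (d : ℝ) ≤ K := by linarith
    exact_mod_cast this
  have h1 := soft_shift h (x := x) (y := x + d * (2 * Real.log 2 - Real.log 3)) (K := K)
    (K' := K + d) (m := 2 * d) hx
    (by linarith) (by linarith) (by linarith) (by push_cast; linarith) (by push_cast; linarith)
    (by omega) (by push_cast; ring) (B := 2 * Real.sqrt (2 * d) / Real.sqrt K)
    (fun N => TV4 hKpos N)
  have h3 : (x + d * (2 * Real.log 2 - Real.log 3)) ^ (-(1 / 4) : ℝ) ≤ x ^ (-(1 / 4) : ℝ) :=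
    rpow_quarter_mono (by linarith) (by linarith)
  have h4 := mul_le_mul_of_nonneg_left h3 hC
  have hr := Real.rpow_nonneg (by linarith : (0 : ℝ) ≤ x) (-(1 / 4) : ℝ)
  have h5 : 2 * Real.sqrt (2 * d) / Real.sqrt K ≤ 12 * Real.sqrt (d / x) := by
    rw [mul_div_assoc, ← Real.sqrt_div' _ (by positivity)]
    have : √(2 * (d : ℝ) / K) ≤ √(36 * (d / x)) := by
      refine Real.sqrt_le_sqrt ?_
      rw [mul_div_assoc', div_le_div_iff₀ (by linarith) (by linarith)]
      nlinarith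
    rw [Real.sqrt_mul (by norm_num), show (36 : ℝ) = 6 ^ 2 by norm_num,
      Real.sqrt_sq (by norm_num)] at this
    linarith
  have h6 : 0 ≤ √((d : ℝ) / x) := Real.sqrt_nonneg _
  have h7 : 0 ≤ C * √((d : ℝ) / x) := mul_nonneg hC h6
  nlinarith


/-! ### the octave average -/

theorem Ren.measurable (h : Ren D C x0) : Measurable D := by
  have h1 : Monotone (fun x => Real.exp x * D x) := by
    intro x y hxy
    have := h.mono x (y - x) (by linarith)
    rwa [add_sub_cancel] at this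
  have h2 : D = fun x => Real.exp (-x) * (Real.exp x * D x) := by
    funext x
    rw [← mul_assoc, ← Real.exp_add, neg_add_cancel, Real.exp_zero, one_mul]
  rw [h2]
  exact (Real.measurable_exp.comp measurable_neg).mul h1.measurable

theorem Ren.intble (h : Ren D C x0) (x a b : ℝ) :
    IntervalIntegrable (fun t => D (x + t)) MeasureTheory.volume a b := by
  refine (intervalIntegrable_const (c := (1 : ℝ))).mono_fun
    ((h.measurable.comp (measurable_const_add x)).aestronglyMeasurable) ?_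
  exact Filter.Eventually.of_forall (fun t => by simpa using h.abs_le (x + t))

/-- octave average -/
noncomputable def U (D : ℝ → ℝ) (x : ℝ) : ℝ := (1 / Real.log 2) * ∫ t in (0:ℝ)..(Real.log 2), D (x + t)

theorem log2_pos : 0 < Real.log 2 := Real.log_pos (by norm_num)

theorem scale_le {J B : ℝ} (hJ : |J| ≤ B * |Real.log 2 - 0|) : |(1 / Real.log 2) * J| ≤ B := by
  have hl := log2_pos
  rw [abs_mul, abs_of_pos (by positivity : (0 : ℝ) < 1 / Real.log 2), one_div,
    inv_mul_le_iff₀ hl, mul_comm]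
  rwa [sub_zero, abs_of_pos hl] at hJ

theorem U_abs_le (h : Ren D C x0) (x : ℝ) : |U D x| ≤ 1 := by
  unfold U
  refine scale_le ?_
  have := intervalIntegral.norm_integral_le_of_norm_le_const (a := (0:ℝ)) (b := Real.log 2)
    (f := fun t => D (x + t)) (C := 1) (fun t _ => by simpa using h.abs_le (x + t))
  simpa using this

theorem U_sub_le (h : Ren D C x0) {x y B : ℝ}
    (hB : ∀ t, 0 ≤ t → t ≤ Real.log 2 → |D (x + t) - D (y + t)| ≤ B) : |U D x - U D y| ≤ B := by
  unfold U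
  rw [← mul_sub, ← intervalIntegral.integral_sub (h.intble x _ _) (h.intble y _ _)]
  refine scale_le ?_
  have := intervalIntegral.norm_integral_le_of_norm_le_const (a := (0:ℝ)) (b := Real.log 2)
    (f := fun t => D (x + t) - D (y + t)) (C := B) (fun t ht => by
      rw [Set.uIoc_of_le log2_pos.le] at ht
      simpa using hB t ht.1.le ht.2)
  simpa using this

theorem U_small_shift (h : Ren D C x0) {x r B : ℝ} (hr : 0 ≤ r) (hr2 : r ≤ Real.log 2)
    (hB0 : 0 ≤ B)
    (hB : ∀ t, 0 ≤ t → t ≤ r → |D (x + t + Real.log 2) - D (x + t)| ≤ B) :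
    |U D (x + r) - U D x| ≤ B := by
  unfold U
  rw [← mul_sub]
  refine scale_le ?_
  set E : ℝ → ℝ := fun t => D (x + t) with hE
  have e1 : ∫ t in (0:ℝ)..(Real.log 2), D (x + r + t) = ∫ t in r..(r + Real.log 2), E t := by
    have := intervalIntegral.integral_comp_add_left (a := (0:ℝ)) (b := Real.log 2) E r
    rw [add_zero] at this
    rw [← this]
    refine intervalIntegral.integral_congr (fun t _ => ?_)
    simp only [hE]
    rw [add_assoc]
  have e2 : ∫ t in (0:ℝ)..r, D (x + t + Real.log 2) = ∫ t in (Real.log 2)..(r + Real.log 2), E t := by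
    have := intervalIntegral.integral_comp_add_right (a := (0:ℝ)) (b := r) E (Real.log 2)
    rw [zero_add] at this
    rw [← this]
    refine intervalIntegral.integral_congr (fun t _ => ?_)
    simp only [hE]
    rw [add_assoc]
  have i1 := h.intble x 0 r
  have i2 := h.intble x r (Real.log 2)
  have i3 := h.intble x (Real.log 2) (r + Real.log 2)
  have a1 := intervalIntegral.integral_add_adjacent_intervals i1 i2
  have a2 := intervalIntegral.integral_add_adjacent_intervals i2 i3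
  have i4 : IntervalIntegrable (fun t => D (x + t + Real.log 2)) MeasureTheory.volume 0 r := by
    have := h.intble (x + Real.log 2) 0 r
    refine this.congr (fun t _ => ?_)
    show D (x + Real.log 2 + t) = D (x + t + Real.log 2)
    congr 1
    ring
  have e3 : (∫ t in (0:ℝ)..(Real.log 2), D (x + r + t)) - ∫ t in (0:ℝ)..(Real.log 2), D (x + t) =
      ∫ t in (0:ℝ)..r, (D (x + t + Real.log 2) - D (x + t)) := by
    rw [intervalIntegral.integral_sub i4 i1, e1, e2]
    simp only [hE]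
    linarith
  rw [e3]
  have h5 := intervalIntegral.norm_integral_le_of_norm_le_const (a := (0:ℝ)) (b := r)
    (f := fun t => D (x + t + Real.log 2) - D (x + t)) (C := B) (fun t ht => by
      rw [Set.uIoc_of_le hr] at ht
      simpa using hB t ht.1.le ht.2)
  rw [Real.norm_eq_abs] at h5
  refine h5.trans (mul_le_mul_of_nonneg_left ?_ hB0)
  rw [sub_zero, sub_zero, abs_of_nonneg hr, abs_of_pos log2_pos]
  exact hr2

theorem soft_F4' (h : Ren D C x0) (hC : 0 ≤ C) (hx0 : 100 ≤ x0) : ∀ x, x0 ≤ x → ∀ t : ℝ, 0 ≤ t →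
    t ≤ x / 40 → |U D (x + t) - U D x| ≤
      (4 * C + 20) * (x ^ (-(1 / 4) : ℝ) + 2 * Real.sqrt (t / x)) := by
  intro x hx t ht ht2
  have hx1 : 100 ≤ x := hx0.trans hx
  obtain ⟨hl3, hl3'⟩ := log3_bd
  have hl := Real.log_two_lt_d9
  have hl' := Real.log_two_gt_d9
  set c : ℝ := 2 * Real.log 2 - Real.log 3 with hc
  have hc0 : 0.287 < c := by rw [hc]; linarith
  have hc1 : c < 0.289 := by rw [hc]; linarith
  set d := ⌊t / c⌋₊ with hd
  have hd1 : (d : ℝ) ≤ t / c := Nat.floor_le (div_nonneg ht (by linarith))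
  have hd2 : t / c < d + 1 := Nat.lt_floor_add_one _
  rw [le_div_iff₀ (by linarith)] at hd1
  rw [div_lt_iff₀ (by linarith)] at hd2
  set r := t - d * c with hr
  have hr0 : 0 ≤ r := by rw [hr]; linarith
  have hr1 : r ≤ Real.log 2 := by rw [hr]; linarith
  have hd0 : (0 : ℝ) ≤ d := Nat.cast_nonneg d
  have hdx : (d : ℝ) ≤ x / 10 := by nlinarith
  have hdt : (d : ℝ) ≤ 4 * t := by nlinarith
  have hdc0 : 0 ≤ (d : ℝ) * c := mul_nonneg hd0 (by linarith)
  have e : x + t = x + d * c + r := by rw [hr]; ring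
  have h1 : |U D (x + t) - U D (x + d * c)| ≤ (2 * C + 8) * x ^ (-(1 / 4) : ℝ) := by
    rw [e]
    refine U_small_shift h hr0 hr1 (mul_nonneg (by linarith) (Real.rpow_nonneg (by linarith) _)) ?_
    intro s hs0 hs1
    refine (soft_F1' h hC hx0 _ (by linarith)).trans (mul_le_mul_of_nonneg_left ?_ (by linarith))
    exact rpow_quarter_mono (by linarith) (by linarith)
  have h2 : |U D (x + d * c) - U D x| ≤
      (2 * C + 12) * (x ^ (-(1 / 4) : ℝ) + Real.sqrt (d / x)) := by
    refine U_sub_le h (fun s hs0 hs1 => ?_)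
    have := soft_F3' h hC hx0 (x + s) (by linarith) d (by linarith)
    rw [add_right_comm]
    refine this.trans (mul_le_mul_of_nonneg_left (add_le_add ?_ ?_) (by linarith))
    · exact rpow_quarter_mono (by linarith) (by linarith)
    · exact Real.sqrt_le_sqrt (div_le_div_of_nonneg_left hd0 (by linarith) (by linarith))
  have h3 : Real.sqrt (d / x) ≤ 2 * Real.sqrt (t / x) := by
    have : √((d : ℝ) / x) ≤ √(4 * (t / x)) := by
      refine Real.sqrt_le_sqrt ?_
      rw [mul_div_assoc']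
      exact div_le_div_of_nonneg_right hdt (by linarith)
    rwa [Real.sqrt_mul (by norm_num), show (4 : ℝ) = 2 ^ 2 by norm_num,
      Real.sqrt_sq (by norm_num)] at this
  have h4 := abs_sub_le (U D (x + t)) (U D (x + d * c)) (U D x)
  have h5 := mul_le_mul_of_nonneg_left h3 (by linarith : (0 : ℝ) ≤ 2 * C + 12)
  have h6 : 0 ≤ √(t / x) := Real.sqrt_nonneg _
  have h7 : 0 ≤ C * √(t / x) := mul_nonneg hC h6
  linarith

theorem U_ren (h : Ren D C x0) (hC : 0 ≤ C) (hx0 : 100 ≤ x0) {x : ℝ} (hx : x0 ≤ x) {K : ℕ}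
    (hK1 : x / 9 ≤ K) (hK2 : (K : ℝ) ≤ 3 * x / 10) {N : ℕ} (hN : 3 * K ≤ N) :
    |U D x - ∑ A ∈ range N, rho K A * U D (x + K * Real.log 3 - A * Real.log 2)| ≤
      C * x ^ (-(1 / 4) : ℝ) := by
  have hx1 : 100 ≤ x := hx0.trans hx
  have hl := log2_lt
  have hl' := log2_gt
  have e1 : ∀ A : ℕ, rho K A * U D (x + K * Real.log 3 - A * Real.log 2) =
      (1 / Real.log 2) * ∫ t in (0:ℝ)..(Real.log 2),
        rho K A * D (x + K * Real.log 3 - A * Real.log 2 + t) := by
    intro A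
    unfold U
    rw [intervalIntegral.integral_const_mul]
    ring
  rw [Finset.sum_congr rfl (fun A _ => e1 A), ← Finset.mul_sum,
    ← intervalIntegral.integral_finsetSum (fun A _ => (h.intble _ _ _).const_mul _)]
  unfold U
  rw [← mul_sub, ← intervalIntegral.integral_sub (h.intble _ _ _) ?_]
  · refine scale_le ?_
    refine (intervalIntegral.norm_integral_le_of_norm_le_const (a := (0:ℝ)) (b := Real.log 2)
      (f := fun t => D (x + t) - ∑ A ∈ range N,
        rho K A * D (x + K * Real.log 3 - A * Real.log 2 + t))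
      (C := C * x ^ (-(1 / 4) : ℝ)) (fun t ht => ?_))
    rw [Set.uIoc_of_le log2_pos.le] at ht
    have h1 := h.ren (x + t) (by linarith [ht.1]) K N (by linarith [ht.2]) (by linarith [ht.1]) hN
    have h2 : C * (x + t) ^ (-(1 / 4) : ℝ) ≤ C * x ^ (-(1 / 4) : ℝ) :=
      mul_le_mul_of_nonneg_left (rpow_quarter_mono (by linarith) (by linarith [ht.1])) hC
    rw [Real.norm_eq_abs]
    refine le_trans (le_of_eq ?_) (h1.trans h2)
    congr 2
    refine Finset.sum_congr rfl (fun A _ => ?_)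
    congr 2
    ring
  · have e2 : (fun t : ℝ => ∑ A ∈ range N, rho K A * D (x + K * Real.log 3 - A * Real.log 2 + t)) =
        ∑ A ∈ range N, (fun t : ℝ => rho K A * D (x + K * Real.log 3 - A * Real.log 2 + t)) := by
      funext t
      rw [Finset.sum_apply]
    rw [e2]
    exact IntervalIntegrable.sum _ (fun A _ => (h.intble _ _ _).const_mul _)

/-- the quarter power `q = x^(-1/4)` -/
theorem quarter {x : ℝ} (hx : 100 ≤ x) : ∃ q : ℝ, x ^ (-(1 / 4) : ℝ) = q ∧ 0 < q ∧ q ≤ 1 ∧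
    1 / x = q ^ 4 ∧ √x = 1 / q ^ 2 := by
  have h0 : 0 < x := by linarith
  refine ⟨_, rfl, Real.rpow_pos_of_pos h0 _, ?_, ?_, ?_⟩
  · exact Real.rpow_le_one_of_one_le_of_nonpos (by linarith) (by norm_num)
  · rw [← Real.rpow_natCast, ← Real.rpow_mul h0.le, one_div, ← Real.rpow_neg_one]
    norm_num
  · rw [← Real.rpow_natCast, ← Real.rpow_mul h0.le, one_div, ← Real.rpow_neg h0.le,
      Real.sqrt_eq_rpow]
    norm_num

theorem half_quarter {x w : ℝ} (hx : 0 < x) (hw : x / 2 ≤ w) :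
    w ^ (-(1 / 4) : ℝ) ≤ 2 * x ^ (-(1 / 4) : ℝ) := by
  refine (rpow_quarter_mono (by linarith) hw).trans ?_
  rw [Real.div_rpow hx.le (by norm_num), div_eq_mul_inv, mul_comm]
  refine mul_le_mul_of_nonneg_right ?_ (Real.rpow_nonneg hx.le _)
  rw [← Real.rpow_neg (by norm_num), neg_neg]
  calc (2 : ℝ) ^ (1 / 4 : ℝ) ≤ 2 ^ (1 : ℝ) :=
        Real.rpow_le_rpow_of_exponent_le (by norm_num) (by norm_num)
    _ = 2 := Real.rpow_one 2

theorem U_near (h : Ren D C x0) (hC : 0 ≤ C) (hx0 : 100 ≤ x0) {x z Y : ℝ} (hx : 2 * x0 ≤ x)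
    (hz : 0.9133 * x ≤ z) (hY : |Y| ≤ 0.021 * x) :
    |U D (z - Y) - U D z| ≤
      (4 * C + 20) * (2 * x ^ (-(1 / 4) : ℝ) + 3 * Real.sqrt (|Y| / x)) := by
  have hx1 : 200 ≤ x := by linarith
  have key : ∀ w t : ℝ, x / 2 ≤ w → 0 ≤ t → t ≤ w / 40 → |U D (w + t) - U D w| ≤
      (4 * C + 20) * (2 * x ^ (-(1 / 4) : ℝ) + 3 * Real.sqrt (t / x)) := by
    intro w t hw ht0 ht
    refine (soft_F4' h hC hx0 w (by linarith) t ht0 ht).trans
      (mul_le_mul_of_nonneg_left (add_le_add (half_quarter (by linarith) hw) ?_) (by linarith))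
    have : √(t / w) ≤ √((3 / 2) ^ 2 * (t / x)) := by
      refine Real.sqrt_le_sqrt ?_
      rw [mul_div_assoc', div_le_div_iff₀ (by linarith) (by linarith)]
      nlinarith
    rw [Real.sqrt_mul (by norm_num), Real.sqrt_sq (by norm_num)] at this
    linarith
  rw [abs_le] at hY
  rcases le_or_gt 0 Y with hY0 | hY0
  · have := key (z - Y) Y (by linarith) hY0 (by linarith)
    rw [sub_add_cancel] at this
    rw [abs_of_nonneg hY0, abs_sub_comm]
    exact this
  · have := key z (-Y) (by linarith) (by linarith) (by linarith)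
    rw [abs_of_neg hY0]
    rwa [← sub_eq_add_neg] at this

theorem U_step (h : Ren D C x0) (hC : 0 ≤ C) (hx0 : 100 ≤ x0) {x : ℝ} (hx : 2 * x0 ≤ x) {K : ℕ}
    (hK1 : x / 9 ≤ K) (hK2 : (K : ℝ) ≤ 3 * x / 10) :
    |U D x - U D (x - K * (2 * Real.log 2 - Real.log 3))| ≤
      (C + 6 * (4 * C + 20) + 3800) * x ^ (-(1 / 4) : ℝ) := by
  have hx1 : 200 ≤ x := by linarith
  obtain ⟨hl3, hl3'⟩ := log3_bd
  have hl := Real.log_two_lt_d9
  have hl' := Real.log_two_gt_d9
  set c : ℝ := 2 * Real.log 2 - Real.log 3 with hc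
  have hc0 : 0.287 < c := by rw [hc]; linarith
  have hc1 : c < 0.289 := by rw [hc]; linarith
  have hK0 : (0 : ℝ) < K := by linarith
  set z := x - K * c with hz
  have hz1 : 0.9133 * x ≤ z := by rw [hz]; nlinarith
  set M := 4 * C + 20 with hM
  have hM0 : 0 ≤ M := by linarith
  set N := 3 * K with hN
  have h1 := U_ren h hC hx0 (x := x) (by linarith) hK1 hK2 (N := N) le_rfl
  obtain ⟨q, hq, hq0, hq1, hq4, hqs⟩ := quarter (x := x) (by linarith)
  rw [hq] at h1 ⊢
  -- the pointwise bound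
  have hpt : ∀ A : ℕ, |U D (x + K * Real.log 3 - A * Real.log 2) - U D z| ≤
      M * (2 * q + 3 * ((q + |(A : ℝ) - 2 * K| * q ^ 3) / 2)) +
        200 / (K : ℝ) ^ 2 * ((A : ℝ) - 2 * K) ^ 2 := by
    intro A
    have e : x + K * Real.log 3 - A * Real.log 2 = z - ((A : ℝ) - 2 * K) * Real.log 2 := by
      rw [hz, hc]; ring
    rcases le_or_gt |(A : ℝ) - 2 * K| (K / 10) with hA | hA
    · have h2 := U_near h hC hx0 hx hz1 (Y := ((A : ℝ) - 2 * K) * Real.log 2) (by
        rw [abs_mul, abs_of_pos log2_pos]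
        nlinarith [abs_nonneg ((A : ℝ) - 2 * K)])
      rw [← e, hq] at h2
      have h3 : √(|((A : ℝ) - 2 * K) * Real.log 2| / x) ≤ (q + |(A : ℝ) - 2 * K| * q ^ 3) / 2 := by
        have h4 : |((A : ℝ) - 2 * K) * Real.log 2| / x ≤ |(A : ℝ) - 2 * K| * q ^ 4 := by
          rw [← hq4, mul_one_div]
          refine div_le_div_of_nonneg_right ?_ (by linarith)
          rw [abs_mul, abs_of_pos log2_pos]
          exact mul_le_of_le_one_right (abs_nonneg _) (by linarith)
        refine (Real.sqrt_le_sqrt h4).trans ?_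
        rw [Real.sqrt_mul (abs_nonneg _), show q ^ 4 = (q ^ 2) ^ 2 by ring,
          Real.sqrt_sq (by positivity)]
        have h5 := Real.sq_sqrt (abs_nonneg ((A : ℝ) - 2 * K))
        set s := √|(A : ℝ) - 2 * K|
        rw [← h5]
        nlinarith [mul_nonneg hq0.le (sq_nonneg (1 - s * q))]
      have h6 : 0 ≤ 200 / (K : ℝ) ^ 2 * ((A : ℝ) - 2 * K) ^ 2 := by positivity
      refine h2.trans ((mul_le_mul_of_nonneg_left (add_le_add_right
        (mul_le_mul_of_nonneg_left h3 (by norm_num)) _) hM0).trans ?_)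
      linarith
    · have h2 : |U D (x + K * Real.log 3 - A * Real.log 2) - U D z| ≤ 2 := by
        have a1 := U_abs_le h (x + K * Real.log 3 - A * Real.log 2)
        have a2 := U_abs_le h z
        rw [abs_le] at a1 a2 ⊢
        constructor <;> linarith
      have h3 : 2 ≤ 200 / (K : ℝ) ^ 2 * ((A : ℝ) - 2 * K) ^ 2 := by
        rw [div_mul_eq_mul_div, le_div_iff₀ (by positivity)]
        have : (K / 10 : ℝ) ^ 2 ≤ |(A : ℝ) - 2 * K| ^ 2 :=
          pow_le_pow_left₀ (by positivity) hA.le 2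
        rw [sq_abs] at this
        linarith
      have h4 : 0 ≤ M * (2 * q + 3 * ((q + |(A : ℝ) - 2 * K| * q ^ 3) / 2)) := by positivity
      linarith
  have hsum : |∑ A ∈ range N, rho K A * U D (x + K * Real.log 3 - A * Real.log 2) -
      ∑ A ∈ range N, rho K A * U D z| ≤ M * (5 * q) + 3600 * q := by
    rw [← Finset.sum_sub_distrib]
    refine (Finset.abs_sum_le_sum_abs _ _).trans ?_
    have h2 : ∀ A ∈ range N, |rho K A * U D (x + K * Real.log 3 - A * Real.log 2) -
        rho K A * U D z| ≤ M * (7 / 2 * q) * rho K A +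
          M * (3 / 2 * q ^ 3) * (rho K A * |(A : ℝ) - 2 * K|) +
          200 / (K : ℝ) ^ 2 * (rho K A * ((A : ℝ) - 2 * K) ^ 2) := by
      intro A _
      rw [← mul_sub, abs_mul, abs_of_nonneg (rho_nonneg K A)]
      refine (mul_le_mul_of_nonneg_left (hpt A) (rho_nonneg K A)).trans (le_of_eq ?_)
      ring
    refine (Finset.sum_le_sum h2).trans ?_
    rw [Finset.sum_add_distrib, Finset.sum_add_distrib, ← Finset.mul_sum, ← Finset.mul_sum,
      ← Finset.mul_sum]
    have b1 := mul_le_mul_of_nonneg_left (rho_sum_le K N) (by positivity : 0 ≤ M * (7 / 2 * q))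
    have b2 : ∑ A ∈ range N, rho K A * |(A : ℝ) - 2 * K| ≤ 1 / q ^ 2 := by
      refine (rho_abs K N).trans ?_
      rw [← hqs]
      exact Real.sqrt_le_sqrt (by linarith)
    have b3 := mul_le_mul_of_nonneg_left b2 (by positivity : 0 ≤ M * (3 / 2 * q ^ 3))
    have b4 := mul_le_mul_of_nonneg_left (rho_var K N) (by positivity : 0 ≤ 200 / (K : ℝ) ^ 2)
    have b5 : M * (3 / 2 * q ^ 3) * (1 / q ^ 2) = M * (3 / 2 * q) := by
      field_simp
    have b6 : 200 / (K : ℝ) ^ 2 * (2 * K) ≤ 3600 * q := by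
      have : 200 / (K : ℝ) ^ 2 * (2 * K) = 400 / K := by field_simp; ring
      rw [this]
      have h7 : 400 / (K : ℝ) ≤ 400 / (x / 9) :=
        div_le_div_of_nonneg_left (by norm_num) (by linarith) hK1
      have h8 : 400 / (x / 9) = 3600 * (1 / x) := by field_simp; ring
      have h9 : q ^ 4 ≤ q := by
        calc q ^ 4 = q * q ^ 3 := by ring
          _ ≤ q * 1 := mul_le_mul_of_nonneg_left (pow_le_one₀ hq0.le hq1) hq0.le
          _ = q := mul_one q
      rw [h8, hq4] at h7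
      linarith
    rw [b5] at b3
    linarith
  have hmass : |∑ A ∈ range N, rho K A * U D z - U D z| ≤ 198 * q := by
    rw [← Finset.sum_mul]
    have m1 := rho_total (K := K) (N := N) le_rfl
    have m2 := rho_sum_le K N
    have m3 : Real.exp (-(K / 11 : ℝ)) ≤ 11 / K := by
      rw [Real.exp_neg, inv_le_comm₀ (Real.exp_pos _) (by positivity), inv_div]
      linarith [Real.add_one_le_exp ((K : ℝ) / 11)]
    have m4 : 11 / (K : ℝ) ≤ 11 / (x / 9) :=
      div_le_div_of_nonneg_left (by norm_num) (by linarith) hK1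
    have m5 : 11 / (x / 9) = 99 * (1 / x) := by field_simp; ring
    have h9 : q ^ 4 ≤ q := by
      calc q ^ 4 = q * q ^ 3 := by ring
        _ ≤ q * 1 := mul_le_mul_of_nonneg_left (pow_le_one₀ hq0.le hq1) hq0.le
        _ = q := mul_one q
    rw [m5, hq4] at m4
    have m6 : (∑ A ∈ range N, rho K A) * U D z - U D z =
      -((1 - ∑ A ∈ range N, rho K A) * U D z) := by ring
    rw [m6, abs_neg, abs_mul, abs_of_nonneg (by linarith)]
    have m7 : (1 - ∑ A ∈ range N, rho K A) * |U D z| ≤ (1 - ∑ A ∈ range N, rho K A) * 1 :=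
      mul_le_mul_of_nonneg_left (U_abs_le h z) (by linarith)
    linarith
  have t1 := abs_sub_le (U D x) (∑ A ∈ range N, rho K A * U D (x + K * Real.log 3 - A * Real.log 2))
    (U D z)
  have t2 := abs_sub_le (∑ A ∈ range N, rho K A * U D (x + K * Real.log 3 - A * Real.log 2))
    (∑ A ∈ range N, rho K A * U D z) (U D z)
  have t3 : 0 ≤ M * q := by positivity
  linarith

theorem U_y (h : Ren D C x0) (hC : 0 ≤ C) (hx0 : 100 ≤ x0) {x y : ℝ} (hx : 2 * x0 ≤ x)
    (hy1 : 0.93 * x ≤ y) (hy2 : y ≤ 0.96 * x) :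
    |U D x - U D y| ≤ (C + 10 * (4 * C + 20) + 3800) * x ^ (-(1 / 4) : ℝ) := by
  have hx1 : 200 ≤ x := by linarith
  obtain ⟨hl3, hl3'⟩ := log3_bd
  have hl := Real.log_two_lt_d9
  have hl' := Real.log_two_gt_d9
  set c : ℝ := 2 * Real.log 2 - Real.log 3 with hc
  have hc0 : 0.287 < c := by rw [hc]; linarith
  have hc1 : c < 0.289 := by rw [hc]; linarith
  set K := ⌊(x - y) / c⌋₊ with hK
  have hK1 : (K : ℝ) ≤ (x - y) / c := Nat.floor_le (div_nonneg (by linarith) (by linarith))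
  have hK2 : (x - y) / c < K + 1 := Nat.lt_floor_add_one _
  rw [le_div_iff₀ (by linarith)] at hK1
  rw [div_lt_iff₀ (by linarith)] at hK2
  have hKa : x / 9 ≤ K := by
    by_contra hcon
    push Not at hcon
    nlinarith
  have hKb : (K : ℝ) ≤ 3 * x / 10 := by
    by_contra hcon
    push Not at hcon
    nlinarith
  have h1 := U_step h hC hx0 hx hKa hKb
  rw [← hc] at h1
  set r := x - K * c - y with hr
  have hr0 : 0 ≤ r := by rw [hr]; linarith
  have hr1 : r ≤ c := by rw [hr]; linarith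
  have h2 := soft_F4' h hC hx0 y (by linarith) r hr0 (by linarith)
  have e : y + r = x - K * c := by rw [hr]; ring
  rw [e] at h2
  have h3 : y ^ (-(1 / 4) : ℝ) ≤ 2 * x ^ (-(1 / 4) : ℝ) := half_quarter (by linarith) (by linarith)
  obtain ⟨q, hq, hq0, hq1, hq4, hqs⟩ := quarter (x := x) (by linarith)
  rw [hq] at h1 h3 ⊢
  have h4 : √(r / y) ≤ q := by
    have h5 : r / y ≤ (q ^ 2) ^ 2 := by
      rw [← pow_mul, ← hq4, div_le_div_iff₀ (by linarith) (by linarith)]
      nlinarith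
    refine (Real.sqrt_le_sqrt h5).trans ?_
    rw [Real.sqrt_sq (by positivity)]
    nlinarith
  have hM0 : 0 ≤ 4 * C + 20 := by linarith
  have h5 := mul_le_mul_of_nonneg_left (add_le_add h3 (mul_le_mul_of_nonneg_left h4
    (by norm_num : (0 : ℝ) ≤ 2))) hM0
  have h6 := abs_sub_le (U D x) (U D (x - K * c)) (U D y)
  linarith

theorem U_close (h : Ren D C x0) (hC : 0 ≤ C) (hx0 : 100 ≤ x0) {x x' : ℝ} (hx : 2 * x0 ≤ x)
    (hx' : x ≤ x') (hx2 : x' ≤ 1.03 * x) :
    |U D x - U D x'| ≤ 2 * (C + 10 * (4 * C + 20) + 3800) * x ^ (-(1 / 4) : ℝ) := by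
  have h1 := U_y h hC hx0 (x := x) (y := 0.93 * x') hx (by linarith) (by linarith)
  have h2 := U_y h hC hx0 (x := x') (y := 0.93 * x') (by linarith) (by linarith) (by linarith)
  have h3 : x' ^ (-(1 / 4) : ℝ) ≤ x ^ (-(1 / 4) : ℝ) := rpow_quarter_mono (by linarith) hx'
  have h4 := mul_le_mul_of_nonneg_left h3 (by linarith : 0 ≤ C + 10 * (4 * C + 20) + 3800)
  have h5 := abs_sub_le (U D x) (U D (0.93 * x')) (U D x')
  rw [abs_sub_comm (U D (0.93 * x'))] at h5
  linarith

theorem quarter_103 : (1.03 : ℝ) ^ (-(1 / 4) : ℝ) ≤ 0.993 := by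
  have h1 : (1.03 : ℝ)⁻¹ ≤ 0.993 ^ (4 : ℕ) := by norm_num
  rw [Real.rpow_neg (by norm_num), ← Real.inv_rpow (by norm_num)]
  calc ((1.03 : ℝ)⁻¹) ^ (1 / 4 : ℝ) ≤ ((0.993 : ℝ) ^ (4 : ℕ)) ^ (1 / 4 : ℝ) :=
        Real.rpow_le_rpow (by norm_num) h1 (by norm_num)
    _ = 0.993 := by
        rw [← Real.rpow_natCast, ← Real.rpow_mul (by norm_num)]
        norm_num

theorem U_far (h : Ren D C x0) (hC : 0 ≤ C) (hx0 : 100 ≤ x0) (n : ℕ) :
    ∀ {x x' : ℝ}, 2 * x0 ≤ x → x ≤ x' → x' ≤ 1.03 ^ n * x →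
    |U D x - U D x'| ≤ 300 * (C + 10 * (4 * C + 20) + 3800) * x ^ (-(1 / 4) : ℝ) := by
  induction n with
  | zero =>
    intro x x' hx hx' hx2
    have hxx : x' = x := by
      rw [pow_zero, one_mul] at hx2
      exact le_antisymm hx2 hx'
    rw [hxx, sub_self, abs_zero]
    exact mul_nonneg (by linarith) (Real.rpow_nonneg (by linarith) _)
  | succ n ih =>
    intro x x' hx hx' hx2
    have hq0 := Real.rpow_nonneg (by linarith : (0 : ℝ) ≤ x) (-(1 / 4) : ℝ)
    rcases le_or_gt x' (1.03 * x) with h1 | h1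
    · refine (U_close h hC hx0 hx hx' h1).trans (mul_le_mul_of_nonneg_right ?_ hq0)
      linarith
    · have h2 := U_close h hC hx0 (x := x) (x' := 1.03 * x) hx (by linarith) le_rfl
      have h3 := ih (x := 1.03 * x) (x' := x') (by linarith) h1.le (by
        rw [pow_succ] at hx2
        linarith)
      have h4 : (1.03 * x) ^ (-(1 / 4) : ℝ) ≤ 0.993 * x ^ (-(1 / 4) : ℝ) := by
        rw [Real.mul_rpow (by norm_num) (by linarith)]
        exact mul_le_mul_of_nonneg_right quarter_103 hq0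
      have h5 := abs_sub_le (U D x) (U D (1.03 * x)) (U D x')
      have h6 := mul_le_mul_of_nonneg_left h4
        (by linarith : 0 ≤ 300 * (C + 10 * (4 * C + 20) + 3800))
      have h7 : 0 ≤ (C + 10 * (4 * C + 20) + 3800) * x ^ (-(1 / 4) : ℝ) :=
        mul_nonneg (by linarith) hq0
      linarith

theorem U_cauchy (h : Ren D C x0) (hC : 0 ≤ C) (hx0 : 100 ≤ x0) {x x' : ℝ} (hx : 2 * x0 ≤ x)
    (hx' : x ≤ x') :
    |U D x - U D x'| ≤ 300 * (C + 10 * (4 * C + 20) + 3800) * x ^ (-(1 / 4) : ℝ) := by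
  obtain ⟨n, hn⟩ := pow_unbounded_of_one_lt (x' / x) (by norm_num : (1 : ℝ) < 1.03)
  refine U_far h hC hx0 n hx hx' ?_
  rw [div_lt_iff₀ (by linarith)] at hn
  exact hn.le

theorem quarter_tendsto : Filter.Tendsto (fun x : ℝ => x ^ (-(1 / 4) : ℝ)) Filter.atTop (nhds 0) :=
  tendsto_rpow_neg_atTop (by norm_num)

theorem soft_F5' (h : Ren D C x0) (hC : 0 ≤ C) (hx0 : 100 ≤ x0) : ∃ δ : ℝ, ∀ x, 2 * x0 ≤ x →
    |U D x - δ| ≤ 300 * (C + 10 * (4 * C + 20) + 3800) * x ^ (-(1 / 4) : ℝ) := by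
  set C7 := 300 * (C + 10 * (4 * C + 20) + 3800) with hC7
  have ht : Filter.Tendsto (fun x : ℝ => C7 * x ^ (-(1 / 4) : ℝ)) Filter.atTop (nhds 0) := by
    have := quarter_tendsto.const_mul C7
    rwa [mul_zero] at this
  have hcs : CauchySeq (U D) := by
    rw [Metric.cauchySeq_iff']
    intro ε hε
    have h1 := (ht.eventually (gt_mem_nhds hε)).and (Filter.eventually_ge_atTop (2 * x0))
    obtain ⟨N, hN1, hN2⟩ := h1.exists
    refine ⟨N, fun n hn => ?_⟩
    rw [dist_comm, Real.dist_eq]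
    exact (U_cauchy h hC hx0 hN2 hn).trans_lt hN1
  obtain ⟨δ, hδ⟩ := cauchySeq_tendsto_of_complete hcs
  refine ⟨δ, fun x hx => ?_⟩
  have h2 : Filter.Tendsto (fun x' => |U D x - U D x'|) Filter.atTop (nhds |U D x - δ|) :=
    (tendsto_const_nhds.sub hδ).abs
  refine le_of_tendsto h2 ?_
  filter_upwards [Filter.eventually_ge_atTop x] with x' hx'
  exact U_cauchy h hC hx0 hx hx'

/-! ### from the octave average to `D` -/

theorem log_ratio_irrational : Irrational (Real.log 2 / Real.log 3) := by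
  rw [irrational_iff_ne_rational]
  intro a b hb heq
  have h2 := log2_pos
  have h3 : 0 < Real.log 3 := Real.log_pos (by norm_num)
  have hb' : (b : ℝ) ≠ 0 := by exact_mod_cast hb
  rw [div_eq_div_iff h3.ne' hb'] at heq
  -- heq : log 2 * b = a * log 3
  have key : ∀ p q : ℕ, (p : ℝ) * Real.log 2 = q * Real.log 3 → p = 0 := by
    intro p q hpq
    by_contra hp
    have h4 : Real.log ((2 : ℝ) ^ p) = Real.log ((3 : ℝ) ^ q) := by
      rw [Real.log_pow, Real.log_pow, hpq]
    have h5 : ((2 : ℝ) ^ p) = (3 : ℝ) ^ q :=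
      Real.log_injOn_pos (Set.mem_Ioi.2 (by positivity)) (Set.mem_Ioi.2 (by positivity)) h4
    have h6 : (2 : ℕ) ^ p = 3 ^ q := by exact_mod_cast h5
    have h7 : Even ((3 : ℕ) ^ q) := by
      rw [← h6]
      exact (Nat.even_pow.2 ⟨even_two, hp⟩)
    exact (Nat.not_even_iff_odd.2 (Odd.pow (by decide : Odd 3))) h7
  have h8 : ((b.natAbs : ℕ) : ℝ) * Real.log 2 = ((a.natAbs : ℕ) : ℝ) * Real.log 3 := by
    rw [Nat.cast_natAbs, Nat.cast_natAbs, Int.cast_abs, Int.cast_abs]
    have h9 : |Real.log 2 * (b : ℝ)| = |(a : ℝ) * Real.log 3| := by rw [heq]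
    rw [abs_mul, abs_mul, abs_of_pos h2, abs_of_pos h3] at h9
    linarith
  have := key _ _ h8
  exact hb (Int.natAbs_eq_zero.1 this)

theorem shift_tendsto (h : Ren D C x0) (hC : 0 ≤ C) (hx0 : 100 ≤ x0) {τ : ℝ}
    (hτ : τ ∈ AddSubgroup.closure ({Real.log 2, Real.log 3} : Set ℝ)) :
    Filter.Tendsto (fun x => D (x + τ) - D x) Filter.atTop (nhds 0) := by
  induction hτ using AddSubgroup.closure_induction with
  | mem x hx =>
    rw [tendsto_zero_iff_abs_tendsto_zero]
    rcases hx with rfl | hx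
    · refine squeeze_zero' (Filter.Eventually.of_forall (fun x => abs_nonneg _))
        ((Filter.eventually_ge_atTop x0).mono (fun x hx => soft_F1' h hC hx0 x hx)) ?_
      have := quarter_tendsto.const_mul (2 * C + 8)
      rwa [mul_zero] at this
    · rw [Set.mem_singleton_iff] at hx
      subst hx
      refine squeeze_zero' (Filter.Eventually.of_forall (fun x => abs_nonneg _))
        ((Filter.eventually_ge_atTop x0).mono (fun x hx => soft_F2' h hC hx0 x hx)) ?_
      have := quarter_tendsto.const_mul (2 * C + 32)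
      rwa [mul_zero] at this
  | zero => simp
  | add a b _ _ ha hb =>
    have h1 : Filter.Tendsto (fun x => D (x + a + b) - D (x + a)) Filter.atTop (nhds 0) :=
      hb.comp (Filter.tendsto_atTop_add_const_right _ a Filter.tendsto_id)
    have := h1.add ha
    rw [zero_add] at this
    refine this.congr (fun x => ?_)
    rw [add_assoc]
    ring
  | neg a _ ha =>
    have h1 : Filter.Tendsto (fun x => D (x + -a + a) - D (x + -a)) Filter.atTop (nhds 0) :=
      ha.comp (Filter.tendsto_atTop_add_const_right _ (-a) Filter.tendsto_id)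
    have := h1.neg
    rw [neg_zero] at this
    refine this.congr (fun x => ?_)
    rw [neg_add_cancel_right]
    ring

theorem shift_all (h : Ren D C x0) (hC : 0 ≤ C) (hx0 : 100 ≤ x0) (t : ℝ) :
    Filter.Tendsto (fun x => D (x + t) - D x) Filter.atTop (nhds 0) := by
  have hd : Dense ((AddSubgroup.closure ({Real.log 2, Real.log 3} : Set ℝ) : AddSubgroup ℝ) : Set ℝ) :=
    dense_addSubgroupClosure_pair_iff.2 log_ratio_irrational
  -- e^(-s) >= 1 - s
  have hmono : ∀ x a b : ℝ, a ≤ b → D (x + a) ≤ D (x + b) + (b - a) := by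
    intro x a b hab
    have h1 := h.mono (x + a) (b - a) (by linarith)
    have e1 : x + a + (b - a) = x + b := by ring
    rw [e1] at h1
    have h2 : Real.exp (x + b) = Real.exp (x + a) * Real.exp (b - a) := by
      rw [← Real.exp_add]; congr 1; ring
    rw [h2] at h1
    have h3 := Real.exp_pos (x + a)
    have h4 : D (x + a) ≤ Real.exp (b - a) * D (x + b) := by
      have : Real.exp (x + a) * D (x + a) ≤ Real.exp (x + a) * (Real.exp (b - a) * D (x + b)) := by
        linarith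
      exact le_of_mul_le_mul_left this h3
    -- D(x+b) >= exp(a-b) D(x+a) >= (1-(b-a)) D(x+a)
    have h5 : Real.exp (a - b) * D (x + a) ≤ D (x + b) := by
      have h6 := mul_le_mul_of_nonneg_left h4 (Real.exp_pos (a - b)).le
      rw [← mul_assoc, ← Real.exp_add] at h6
      have e2 : a - b + (b - a) = 0 := by ring
      rwa [e2, Real.exp_zero, one_mul] at h6
    have h7 := Real.add_one_le_exp (a - b)
    have h8 := h.nonneg (x + a)
    have h9 := h.le_one (x + a)
    nlinarith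
  rw [Metric.tendsto_atTop]
  intro ε hε
  obtain ⟨τ1, hτ1, hτ1a, hτ1b⟩ := hd.exists_between (by linarith : t - ε / 3 < t)
  obtain ⟨τ2, hτ2, hτ2a, hτ2b⟩ := hd.exists_between (by linarith : t < t + ε / 3)
  have c1 := shift_tendsto h hC hx0 hτ1
  have c2 := shift_tendsto h hC hx0 hτ2
  rw [Metric.tendsto_atTop] at c1 c2
  obtain ⟨N1, hN1⟩ := c1 (ε / 3) (by linarith)
  obtain ⟨N2, hN2⟩ := c2 (ε / 3) (by linarith)
  refine ⟨max N1 N2, fun x hx => ?_⟩
  have d1 := hN1 x (le_trans (le_max_left _ _) hx)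
  have d2 := hN2 x (le_trans (le_max_right _ _) hx)
  rw [Real.dist_eq, sub_zero] at d1 d2 ⊢
  rw [abs_lt] at d1 d2 ⊢
  have m1 := hmono x τ1 t hτ1b.le
  have m2 := hmono x t τ2 hτ2a.le
  constructor <;> linarith [d1.1, d1.2, d2.1, d2.2]

theorem U_sub_D (h : Ren D C x0) (hC : 0 ≤ C) (hx0 : 100 ≤ x0) :
    Filter.Tendsto (fun x => U D x - D x) Filter.atTop (nhds 0) := by
  have h1 : Filter.Tendsto (fun x => ∫ t in (0:ℝ)..(Real.log 2), (D (x + t) - D x)) Filter.atTop
      (nhds (∫ t in (0:ℝ)..(Real.log 2), (0 : ℝ))) := by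
    refine intervalIntegral.tendsto_integral_filter_of_dominated_convergence (fun _ => (2 : ℝ))
      ?_ ?_ intervalIntegrable_const ?_
    · refine Filter.Eventually.of_forall (fun x => ?_)
      exact ((h.measurable.comp (measurable_const_add x)).sub measurable_const).aestronglyMeasurable
    · refine Filter.Eventually.of_forall (fun x => Filter.Eventually.of_forall (fun t _ => ?_))
      rw [Real.norm_eq_abs]
      have a1 := h.abs_le (x + t)
      have a2 := h.abs_le x
      rw [_root_.abs_le] at a1 a2 ⊢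
      constructor <;> linarith
    · exact Filter.Eventually.of_forall (fun t _ => shift_all h hC hx0 t)
  have h2 := h1.const_mul (1 / Real.log 2)
  rw [intervalIntegral.integral_zero, mul_zero] at h2
  refine h2.congr (fun x => ?_)
  rw [intervalIntegral.integral_sub (h.intble _ _ _) intervalIntegrable_const,
    intervalIntegral.integral_const, sub_zero, smul_eq_mul, mul_sub]
  unfold U
  have := log2_pos.ne'
  field_simp

theorem soft_main' (h : Ren D C x0) (hC : 0 ≤ C) (hx0 : 100 ≤ x0) :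
    ∃ δ : ℝ, Filter.Tendsto D Filter.atTop (nhds δ) := by
  obtain ⟨δ, hδ⟩ := soft_F5' h hC hx0
  refine ⟨δ, ?_⟩
  have h1 : Filter.Tendsto (fun x => U D x - δ) Filter.atTop (nhds 0) := by
    rw [tendsto_zero_iff_abs_tendsto_zero]
    refine squeeze_zero' (Filter.Eventually.of_forall (fun x => abs_nonneg _))
      ((Filter.eventually_ge_atTop (2 * x0)).mono (fun x hx => hδ x hx)) ?_
    have := quarter_tendsto.const_mul (300 * (C + 10 * (4 * C + 20) + 3800))
    rwa [mul_zero] at this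
  have h2 := h1.sub (U_sub_D h hC hx0)
  rw [sub_zero] at h2
  have h3 := h2.add_const δ
  rw [zero_add] at h3
  refine h3.congr (fun x => ?_)
  ring

/-! ### the official statements -/

theorem Ren.norm (h : Ren D C x0) : Ren D (max C 0) (max x0 100) :=
  h.weaken (le_max_left _ _) (le_max_left _ _) ((by norm_num : (0 : ℝ) ≤ 100).trans (le_max_right _ _))

theorem soft_F1 (h : Ren D C x0) : ∃ C1 x1 : ℝ, ∀ x, x1 ≤ x →
    |D (x + Real.log 2) - D x| ≤ C1 * x ^ (-(1 / 4) : ℝ) :=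
  ⟨_, _, soft_F1' h.norm (le_max_right _ _) (le_max_right _ _)⟩

theorem soft_F2 (h : Ren D C x0) : ∃ C1 x1 : ℝ, ∀ x, x1 ≤ x →
    |D (x + Real.log 3) - D x| ≤ C1 * x ^ (-(1 / 4) : ℝ) :=
  ⟨_, _, soft_F2' h.norm (le_max_right _ _) (le_max_right _ _)⟩

theorem soft_F3 (h : Ren D C x0) : ∃ C1 x1 : ℝ, ∀ x, x1 ≤ x → ∀ d : ℕ, (d : ℝ) ≤ x / 10 →
    |D (x + d * (2 * Real.log 2 - Real.log 3)) - D x|
      ≤ C1 * (x ^ (-(1 / 4) : ℝ) + Real.sqrt (d / x)) :=
  ⟨_, _, soft_F3' h.norm (le_max_right _ _) (le_max_right _ _)⟩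

theorem soft_F4 (h : Ren D C x0) : ∃ C1 x1 : ℝ, ∀ x, x1 ≤ x → ∀ t : ℝ, 0 ≤ t → t ≤ x / 40 →
    |U D (x + t) - U D x| ≤ C1 * (x ^ (-(1 / 4) : ℝ) + Real.sqrt (t / x)) := by
  refine ⟨2 * (4 * max C 0 + 20), max x0 100, fun x hx t ht ht2 => ?_⟩
  refine (soft_F4' h.norm (le_max_right _ _) (le_max_right _ _) x hx t ht ht2).trans ?_
  have h0 : 0 ≤ 4 * max C 0 + 20 := by linarith [le_max_right C 0]
  have hx1 : 100 ≤ x := (le_max_right _ _).trans hx
  have h1 := Real.rpow_nonneg (by linarith : (0 : ℝ) ≤ x) (-(1 / 4) : ℝ)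
  have h2 := mul_nonneg h0 h1
  linarith

theorem soft_F5 (h : Ren D C x0) : ∃ δ C1 x1 : ℝ, ∀ x, x1 ≤ x →
    |U D x - δ| ≤ C1 * x ^ (-(1 / 4) : ℝ) := by
  obtain ⟨δ, hδ⟩ := soft_F5' h.norm (le_max_right _ _) (le_max_right _ _)
  exact ⟨δ, _, _, hδ⟩

/-- F6, the final statement of section 7 -/
theorem soft_main (h : Ren D C x0) : ∃ δ : ℝ, Filter.Tendsto D Filter.atTop (nhds δ) :=
  soft_main' h.norm (le_max_right _ _) (le_max_right _ _)

end Pool.Agent.Lib.MP_e43fce_nt_nat
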