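import Pool.Agent.Lib.MP_e43fce_nt_nat.REN
import Pool.Agent.Lib.MP_e43fce_nt_nat.Soft
import Pool.Agent.Lib.MP_e43fce_nt_nat.AllOdd

/-! Natural density of invariant sets. -/

set_option autoImplicit false

namespace Pool.Agent.Lib.MP_e43fce_nt_nat

open Finset

theorem h34_col_two_pow_mul (j m : ℕ) : col (2 ^ (j + 1) * m) = 2 ^ j * m := by
  unfold col
  have h : 2 ^ (j + 1) * m = 2 * (2 ^ j * m) := by ring
  rw [h]
  simp

theorem h34_ind_unit (E : Set ℕ) : Unit01 (ind E) := by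
  intro n
  unfold ind
  split <;> norm_num

theorem h34_ind_congr {E : Set ℕ} {a b : ℕ} (h : a ∈ E ↔ b ∈ E) : ind E a = ind E b := by
  unfold ind
  by_cases hb : b ∈ E
  · have ha := h.2 hb
    simp [ha, hb]
  · have ha : a ∉ E := fun h1 => hb (h.1 h1)
    simp [ha, hb]

theorem h34_inv_two_pow {E : Set ℕ} (hE : IsInv E) {m : ℕ} (hm : 0 < m) (j : ℕ) :
    2 ^ j * m ∈ E ↔ m ∈ E := by
  induction j with
  | zero => simp
  | succ j ih =>
    rw [hE (2 ^ (j + 1) * m) (by positivity), h34_col_two_pow_mul, ih]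

theorem h34_DD_ind_two_pow {E : Set ℕ} (hE : IsInv E) (j : ℕ) :
    DD 0 (fun m => ind E (2 ^ j * m)) = DD 0 (ind E) := by
  funext x
  unfold DD NN
  congr 1
  apply Finset.sum_congr rfl
  intro m hm
  have hm1 : 1 ≤ m := by
    unfold oddS at hm
    simp only [mem_filter, mem_Icc] at hm
    exact hm.1.1
  show ind E (2 ^ j * m) * MM 0 m = ind E m * MM 0 m
  rw [h34_ind_congr (h34_inv_two_pow hE hm1 j)]

/-- every completely invariant set has a natural density -/
theorem inv_density (E : Set ℕ) (hE : IsInv E) : ∃ δ : ℝ,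
    Filter.Tendsto (fun X : ℕ => (∑ n ∈ Icc 1 X, ind E n) / X) Filter.atTop (nhds δ) := by
  obtain ⟨C, x0, h⟩ := ren_of_inv
  obtain ⟨δ, hδ⟩ := soft_main (h E hE)
  refine ⟨_, all_of_odd (ind E) (h34_ind_unit E) (fun _ => δ) ?_⟩
  intro j
  rw [h34_DD_ind_two_pow hE j]
  exact hδ

end Pool.Agent.Lib.MP_e43fce_nt_nat
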