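import Mathlib

/-! KL3 (MP_e43fce_nt): words, nodes, averages. -/

set_option autoImplicit false

namespace Pool.Agent.Lib.MP_e43fce_nt_nat

open Finset

/-- the Collatz map -/
def col (n : ℕ) : ℕ := if n % 2 = 0 then n / 2 else 3 * n + 1

/-- words of length `k` in the letters `1..L` -/
def words (L : ℕ) : ℕ → Finset (List ℕ)
  | 0 => {[]}
  | k + 1 => (Icc 1 L ×ˢ words L k).image (fun p : ℕ × List ℕ => p.1 :: p.2)

/-- `F [] = 0`, `F (j :: w) = 2 ^ (sum w) + 3 * F w` -/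
def F : List ℕ → ℕ
  | [] => 0
  | _ :: w => 2 ^ w.sum + 3 * F w

/-- the node of `w` over the root `m` is an integer -/
def adm (m : ℤ) (w : List ℕ) : Prop := (3 : ℤ) ^ w.length ∣ 2 ^ w.sum * m - (F w : ℤ)

instance (m : ℤ) (w : List ℕ) : Decidable (adm m w) := by unfold adm; infer_instance

/-- the node of `w` over the root `m` -/
def nd (m : ℤ) (w : List ℕ) : ℤ := (2 ^ w.sum * m - (F w : ℤ)) / 3 ^ w.length

/-- the weight `3^k / 2^A` of a word -/
noncomputable def wt (w : List ℕ) : ℝ := 3 ^ w.length / 2 ^ w.sum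

/-- the probability `2^-A` of a word -/
noncomputable def pr (w : List ℕ) : ℝ := 1 / 2 ^ w.sum

/-- `f` has period `3 ^ m` -/
def Per {α : Type} (m : ℕ) (f : ℤ → α) : Prop := ∀ v z : ℤ, f (v + 3 ^ m * z) = f v

/-- average over one period `3 ^ m` -/
noncomputable def Av (m : ℕ) (f : ℤ → ℝ) : ℝ := (∑ x ∈ range (3 ^ m), f (x : ℤ)) / 3 ^ m

end Pool.Agent.Lib.MP_e43fce_nt_nat
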