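import Pool.Agent.Lib.MP_e43fce_nt_nat.MIXF

/-! KL3, module INCg (helper50): telescoping of MIXF over the length of the words. -/

set_option autoImplicit false

namespace Pool.Agent.Lib.MP_e43fce_nt_nat

open Finset

namespace IG

/-- `tau^(j)` -/
noncomputable def tj (L j : ℕ) (τ : ℕ → ℝ) (a : ℕ) : ℝ := ∑ v ∈ words L j, pr v * τ (a + v.sum)

theorem tj_nonneg {L j : ℕ} {τ : ℕ → ℝ} (h : Unit01 τ) (a : ℕ) : 0 ≤ tj L j τ a :=
  Finset.sum_nonneg (fun v _ => mul_nonneg (MX.pr_nonneg v) (h _).1)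

theorem tj_le {L j : ℕ} {τ : ℕ → ℝ} (h : Unit01 τ) (a : ℕ) : tj L j τ a ≤ 1 := by
  refine le_trans (Finset.sum_le_sum (fun v _ => ?_)) (MX.sum_pr_le L j)
  have := mul_le_mul_of_nonneg_left (h (a + v.sum)).2 (MX.pr_nonneg v)
  linarith

theorem tj_succ (L j : ℕ) (τ : ℕ → ℝ) (a : ℕ) :
    tj L (j + 1) τ a = ∑ b ∈ Icc 1 L, 1 / 2 ^ b * tj L j τ (a + b) := by
  unfold tj
  rw [MX.sum_words_succ]
  refine Finset.sum_congr rfl (fun b _ => ?_)
  rw [Finset.mul_sum]
  refine Finset.sum_congr rfl (fun v _ => ?_)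
  rw [List.sum_cons, ← add_assoc]
  unfold pr
  rw [List.sum_cons, pow_add]
  field_simp

theorem sum_words_snoc (L n : ℕ) (g : List ℕ → ℝ) :
    ∑ w ∈ words L (n + 1), g w = ∑ w ∈ words L n, ∑ b ∈ Icc 1 L, g (w ++ [b]) := by
  rw [sum_words_append]
  refine Finset.sum_congr rfl (fun w _ => ?_)
  rw [show (1:ℕ) = 0 + 1 from rfl, MX.sum_words_succ]
  simp [words]

/-- the increment -/
noncomputable def De (L j : ℕ) (τ : ℕ → ℝ) (A : ℕ) (x : ℤ) : ℝ :=
  ∑ b ∈ Icc 1 L, 1 / 2 ^ b * tj L j τ (A + b) * ((if (3:ℤ) ∣ 2 ^ b * x - 1 then 3 else 0) - 1)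

theorem two_pow_mod (b : ℕ) : (2:ℤ) ^ b % 3 = 1 ∨ (2:ℤ) ^ b % 3 = 2 := by
  induction b with
  | zero => left; norm_num
  | succ b ih => rw [pow_succ]; omega

theorem De_per (L j : ℕ) (τ : ℕ → ℝ) (A : ℕ) : Per 1 (De L j τ A) := by
  intro v z
  unfold De
  refine Finset.sum_congr rfl (fun b _ => ?_)
  have h : ((3:ℤ) ∣ 2 ^ b * (v + 3 ^ 1 * z) - 1) ↔ ((3:ℤ) ∣ 2 ^ b * v - 1) := by
    rw [show (2:ℤ) ^ b * (v + 3 ^ 1 * z) - 1 = (2 ^ b * v - 1) + 3 * (2 ^ b * z) by ring]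
    exact (dvd_add_left (Dvd.intro _ rfl))
  simp only [h]

theorem three_sum (g : ℤ → ℝ) : ∑ x ∈ range (3 ^ 1), g (x : ℤ) = g 0 + g 1 + g 2 := by
  simp [Finset.sum_range_succ]

theorem De_av (L j : ℕ) (τ : ℕ → ℝ) (A : ℕ) : Av 1 (De L j τ A) = 0 := by
  unfold Av
  rw [three_sum]
  unfold De
  rw [← Finset.sum_add_distrib, ← Finset.sum_add_distrib, div_eq_zero_iff]
  left
  refine Finset.sum_eq_zero (fun b _ => ?_)
  rcases two_pow_mod b with h | h
  · have h0 : ¬ (3:ℤ) ∣ 2 ^ b * 0 - 1 := by omega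
    have h1 : (3:ℤ) ∣ 2 ^ b * 1 - 1 := by omega
    have h2 : ¬ (3:ℤ) ∣ 2 ^ b * 2 - 1 := by omega
    rw [if_neg h0, if_pos h1, if_neg h2]; ring
  · have h0 : ¬ (3:ℤ) ∣ 2 ^ b * 0 - 1 := by omega
    have h1 : ¬ (3:ℤ) ∣ 2 ^ b * 1 - 1 := by omega
    have h2 : (3:ℤ) ∣ 2 ^ b * 2 - 1 := by omega
    rw [if_neg h0, if_neg h1, if_pos h2]; ring

theorem De_abs {L j : ℕ} {τ : ℕ → ℝ} (h : Unit01 τ) (A : ℕ) (x : ℤ) : |De L j τ A x| ≤ 2 := by
  unfold De
  refine (Finset.abs_sum_le_sum_abs _ _).trans ?_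
  have h1 : ∀ b ∈ Icc 1 L, |1 / 2 ^ b * tj L j τ (A + b) *
      ((if (3:ℤ) ∣ 2 ^ b * x - 1 then (3:ℝ) else 0) - 1)| ≤ 2 * (1 / 2) ^ b := by
    intro b _
    rw [abs_mul, abs_mul, abs_of_nonneg (tj_nonneg h _), abs_of_nonneg (by positivity)]
    have h2 : |((if (3:ℤ) ∣ 2 ^ b * x - 1 then (3:ℝ) else 0) - 1)| ≤ 2 := by
      split_ifs
      · rw [abs_of_nonneg] <;> norm_num
      · rw [abs_of_nonpos] <;> norm_num
    have h3 := tj_le (L := L) (j := j) h (A + b)
    have h4 := tj_nonneg (L := L) (j := j) h (A + b)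
    calc 1 / 2 ^ b * tj L j τ (A + b) * |((if (3:ℤ) ∣ 2 ^ b * x - 1 then (3:ℝ) else 0) - 1)|
        ≤ 1 / 2 ^ b * 1 * 2 := by
          refine mul_le_mul (mul_le_mul_of_nonneg_left h3 (by positivity)) h2 (abs_nonneg _) (by positivity)
      _ = 2 * (1 / 2) ^ b := by rw [one_div_pow]; ring
  refine (Finset.sum_le_sum h1).trans ?_
  rw [← Finset.mul_sum]
  have := MX.geom_le (x := (1/2:ℝ)) (by norm_num) (by norm_num) L
  norm_num at this ⊢
  linarith

/-- the intermediate sums -/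
noncomputable def V (L J : ℕ) (τ : ℕ → ℝ) (n : ℕ) (m : ℤ) : ℝ :=
  ∑ w ∈ words L n, if adm m w then wt w * tj L (J - n) τ w.sum else 0

theorem adm_single (x : ℤ) (b : ℕ) : adm x [b] ↔ (3:ℤ) ∣ 2 ^ b * x - 1 := by
  unfold adm
  simp [F]

theorem V_step {L J n : ℕ} (τ : ℕ → ℝ) (hn : n < J) (m : ℤ) :
    V L J τ (n + 1) m - V L J τ n m
      = ∑ w ∈ words L n, if adm m w then wt w * De L (J - (n + 1)) τ w.sum (nd m w) else 0 := by
  unfold V
  rw [sum_words_snoc, ← Finset.sum_sub_distrib]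
  refine Finset.sum_congr rfl (fun w _ => ?_)
  have hJ : J - n = (J - (n + 1)) + 1 := by omega
  rw [hJ, tj_succ]
  by_cases h : adm m w
  · simp only [if_pos h]
    unfold De
    rw [Finset.mul_sum, Finset.mul_sum, ← Finset.sum_sub_distrib]
    refine Finset.sum_congr rfl (fun b _ => ?_)
    have h2 : adm m (w ++ [b]) ↔ (3:ℤ) ∣ 2 ^ b * nd m w - 1 := by
      rw [adm_append, adm_single]
      exact ⟨fun h' => h'.2, fun h' => ⟨h, h'⟩⟩
    have h3 : wt (w ++ [b]) = wt w * (3 / 2 ^ b) := by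
      rw [MX.wt_append]; simp [wt]
    by_cases h4 : (3:ℤ) ∣ 2 ^ b * nd m w - 1
    · rw [if_pos (h2.2 h4), if_pos h4, h3]
      simp only [List.sum_append, List.sum_cons, List.sum_nil, add_zero]
      ring
    · rw [if_neg (fun h' => h4 (h2.1 h')), if_neg h4]
      ring
  · simp only [if_neg h, sub_zero]
    refine Finset.sum_eq_zero (fun b _ => ?_)
    rw [if_neg]
    rw [adm_append]
    exact fun h' => h h'.1

end IG

open IG in
/-- (INCg) -/
theorem INCg (B : ℕ) : ∃ C : ℝ, 0 < C ∧ ∀ i J L : ℕ, 1 ≤ i → i ≤ J → 2 ≤ L →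
    ∀ τ : ℕ → ℝ, Unit01 τ →
      Av J (fun m => |(∑ w ∈ words L J, if adm m w then wt w * τ w.sum else 0)
          - ∑ w ∈ words L i, if adm m w then
              wt w * ∑ v ∈ words L (J - i), pr v * τ (w.sum + v.sum) else 0|)
        ≤ C / (i : ℝ) ^ B := by
  obtain ⟨C, hC, H⟩ := MIXF (B + 2)
  refine ⟨4 * C, by positivity, ?_⟩
  intro i J L hi hiJ hL τ hτ
  -- one step
  have hstep : ∀ n ∈ Ico i J, Av J (fun m => |V L J τ n m - V L J τ (n + 1) m|)
      ≤ 2 * C / (n : ℝ) ^ (B + 2) := by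
    intro n hn
    rw [Finset.mem_Ico] at hn
    have h1 := H n 1 L le_rfl (by omega) hL
      (fun A x => 1 / 2 * De L (J - (n + 1)) τ A x)
      (fun A v z => by simp only [De_per L (J - (n + 1)) τ A v z])
      (fun A => by rw [Av_const_mul, De_av, mul_zero])
      (fun A => by
        have h2 : Av 1 (fun x => |1 / 2 * De L (J - (n + 1)) τ A x|) ≤ Av 1 (fun _ => (1:ℝ)) := by
          refine Av_mono (fun x => ?_)
          rw [abs_mul, abs_of_pos (by norm_num : (0:ℝ) < 1/2)]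
          have := De_abs (L := L) (j := J - (n + 1)) hτ A x
          linarith
        refine h2.trans (le_of_eq ?_)
        unfold Av; simp)
    have e1 : ∀ m : ℤ, |V L J τ n m - V L J τ (n + 1) m|
        = 2 * |∑ w ∈ words L n, if adm m w then
            wt w * (1 / 2 * De L (J - (n + 1)) τ w.sum (nd m w)) else 0| := by
      intro m
      rw [abs_sub_comm, V_step τ hn.2]
      rw [← abs_of_pos (by norm_num : (0:ℝ) < 2), ← abs_mul, Finset.mul_sum]
      rw [abs_of_pos (by norm_num : (0:ℝ) < 2)]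
      congr 1
      refine Finset.sum_congr rfl (fun w _ => ?_)
      split_ifs <;> ring
    have hper : Per (n + 1) (fun m => |V L J τ n m - V L J τ (n + 1) m|) := by
      intro v z
      simp only
      rw [abs_sub_comm, abs_sub_comm (V L J τ n v), V_step τ hn.2, V_step τ hn.2]
      congr 1
      refine Finset.sum_congr rfl (fun w hw => ?_)
      have h3 := node_per w 1 _ (De_per L (J - (n + 1)) τ w.sum)
      rw [MX.len_words hw] at h3
      exact h3 v z
    have e2 : Av J (fun m => |V L J τ n m - V L J τ (n + 1) m|)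
        = Av (n + 1) (fun m => |V L J τ n m - V L J τ (n + 1) m|) := by
      have := Av_of_per (J - (n + 1)) hper
      rwa [show n + 1 + (J - (n + 1)) = J by omega] at this
    rw [e2]
    have e3 : Av (n + 1) (fun m => |V L J τ n m - V L J τ (n + 1) m|)
        = 2 * Av (n + 1) (fun m => |∑ w ∈ words L n, if adm m w then
            wt w * (1 / 2 * De L (J - (n + 1)) τ w.sum (nd m w)) else 0|) := by
      rw [← Av_const_mul]
      congr 1
      funext m
      exact e1 m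
    rw [e3]
    have := mul_le_mul_of_nonneg_left h1 (by norm_num : (0:ℝ) ≤ 2)
    refine this.trans (le_of_eq ?_)
    ring
  -- the ends
  have eJ : ∀ m : ℤ, (∑ w ∈ words L J, if adm m w then wt w * τ w.sum else 0) = V L J τ J m := by
    intro m
    unfold V
    refine Finset.sum_congr rfl (fun w _ => ?_)
    have : tj L (J - J) τ w.sum = τ w.sum := by simp [tj, words, pr]
    rw [this]
  have hmain : Av J (fun m => |(∑ w ∈ words L J, if adm m w then wt w * τ w.sum else 0)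
          - ∑ w ∈ words L i, if adm m w then
              wt w * ∑ v ∈ words L (J - i), pr v * τ (w.sum + v.sum) else 0|)
      ≤ ∑ n ∈ Ico i J, Av J (fun m => |V L J τ n m - V L J τ (n + 1) m|) := by
    rw [← Av_sum]
    refine Av_mono (fun m => ?_)
    rw [eJ m, abs_sub_comm]
    have h := dist_le_Ico_sum_dist (fun n => V L J τ n m) hiJ
    simp only [Real.dist_eq] at h
    exact h
  have hsum : ∑ n ∈ Ico i J, 2 * C / (n : ℝ) ^ (B + 2) ≤ 4 * C / (i : ℝ) ^ B := by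
    have h1 : ∀ n ∈ Ico i J, 2 * C / (n : ℝ) ^ (B + 2) ≤ 2 * C / (i:ℝ) ^ B * ((n:ℝ) ^ 2)⁻¹ := by
      intro n hn
      rw [Finset.mem_Ico] at hn
      have hi0 : (0:ℝ) < i := by exact_mod_cast hi
      have hn0 : (0:ℝ) < n := lt_of_lt_of_le hi0 (by exact_mod_cast hn.1)
      rw [pow_add, ← div_eq_mul_inv, div_div]
      refine div_le_div_of_nonneg_left (by positivity) (by positivity) ?_
      refine mul_le_mul_of_nonneg_right ?_ (by positivity)
      exact pow_le_pow_left₀ hi0.le (by exact_mod_cast hn.1) B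
    refine (Finset.sum_le_sum h1).trans ?_
    rw [← Finset.mul_sum]
    have h2 : Ico i J = Ioo (i - 1) J := by
      ext x; simp only [Finset.mem_Ico, Finset.mem_Ioo]; omega
    have h3 : ∑ n ∈ Ico i J, ((n:ℝ) ^ 2)⁻¹ ≤ 2 := by
      rw [h2]
      refine (sum_Ioo_inv_sq_le (α := ℝ) (i - 1) J).trans ?_
      rw [div_le_iff₀ (by positivity)]
      have : (0:ℝ) ≤ ((i - 1 : ℕ) : ℝ) := by positivity
      linarith
    calc 2 * C / (i:ℝ) ^ B * ∑ n ∈ Ico i J, ((n:ℝ) ^ 2)⁻¹ ≤ 2 * C / (i:ℝ) ^ B * 2 :=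
          mul_le_mul_of_nonneg_left h3 (by positivity)
      _ = 4 * C / (i : ℝ) ^ B := by ring
  exact hmain.trans ((Finset.sum_le_sum hstep).trans hsum)

end Pool.Agent.Lib.MP_e43fce_nt_nat
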