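import Mathlib

/-! KL3 (MP_e43fce_nt, natural density): the law `rho K` of a sum of `K` geometric letters,
and the abstract renewal data `Ren`. -/

set_option autoImplicit false

namespace Pool.Agent.Lib.MP_e43fce_nt_nat

open Finset

/-- `rho K A = C(A-1,K-1) / 2^A`: the law of a sum of `K` geometric letters (`P(a) = 2^-a`, `a >= 1`). -/
noncomputable def rho (K A : ℕ) : ℝ :=
  if K = 0 then (if A = 0 then 1 else 0)
  else if A = 0 then 0 else ((A - 1).choose (K - 1) : ℝ) / 2 ^ A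

/-- Abstract renewal data: a function `D` with values in `[0,1]` such that `exp x * D x` is
a counting function and `D` satisfies the renewal equation with error `C x^(-1/4)`. -/
structure Ren (D : ℝ → ℝ) (C x0 : ℝ) : Prop where
  nonneg : ∀ x, 0 ≤ D x
  le_one : ∀ x, D x ≤ 1
  mono : ∀ x t, 0 ≤ t → Real.exp x * D x ≤ Real.exp (x + t) * D (x + t)
  lip : ∀ x t, 0 ≤ t →
    Real.exp (x + t) * D (x + t) ≤ Real.exp x * D x + (Real.exp (x + t) - Real.exp x) + 1
  ren : ∀ x, x0 ≤ x → ∀ K N : ℕ, x / 10 ≤ (K : ℝ) → (K : ℝ) ≤ 3 * x / 10 → 3 * K ≤ N →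
    |D x - ∑ A ∈ range N, rho K A * D (x + K * Real.log 3 - A * Real.log 2)|
      ≤ C * x ^ (-(1 / 4) : ℝ)

end Pool.Agent.Lib.MP_e43fce_nt_nat
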