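import Pool.Agent.Lib.MP_e43fce_nt_nat.Words
import Pool.Agent.Lib.MP_e43fce_nt_nat.Rho

/-! KL3: words of length `K` and sum `A` have total probability `rho K A`. -/

set_option autoImplicit false

namespace Pool.Agent.Lib.MP_e43fce_nt_nat

open Finset

theorem WB2_sum_cons (L k : ℕ) (g : List ℕ → ℝ) :
    ∑ w ∈ words L (k + 1), g w = ∑ a ∈ Icc 1 L, ∑ w ∈ words L k, g (a :: w) := by
  rw [words, Finset.sum_image, Finset.sum_product]
  rintro ⟨a, w⟩ _ ⟨a', w'⟩ _ h
  simpa using h

theorem WB2_rho_nonneg (K A : ℕ) : 0 ≤ rho K A := by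
  unfold rho
  split_ifs <;> positivity

theorem WB2_rho_pascal (K A : ℕ) :
    rho (K + 1) (A + 1) = (rho K A + rho (K + 1) A) / 2 := by
  unfold rho
  rcases Nat.eq_zero_or_pos A with rfl | hA
  · rcases Nat.eq_zero_or_pos K with rfl | hK
    · norm_num
    · have e1 : (0 + 1 - 1).choose (K + 1 - 1) = 0 := by
        rw [Nat.choose_eq_zero_iff]
        omega
      have e2 : K ≠ 0 := by omega
      simp only [if_neg (Nat.succ_ne_zero _), if_neg e2, if_true, e1]
      norm_num
  · obtain ⟨A, rfl⟩ : ∃ A', A = A' + 1 := ⟨A - 1, by omega⟩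
    rcases Nat.eq_zero_or_pos K with rfl | hK
    · simp only [if_neg (Nat.succ_ne_zero _), if_true]
      norm_num
      rw [pow_succ, pow_succ]
      field_simp
    · obtain ⟨K, rfl⟩ : ∃ K', K = K' + 1 := ⟨K - 1, by omega⟩
      simp only [if_neg (Nat.succ_ne_zero _), Nat.add_sub_cancel]
      rw [Nat.choose_succ_succ]
      push_cast
      rw [pow_succ (2 : ℝ) (A + 1)]
      field_simp

theorem WB2_rho_succ (K A : ℕ) :
    rho (K + 1) A = ∑ a ∈ Icc 1 A, (1 / 2 ^ a : ℝ) * rho K (A - a) := by
  induction A with
  | zero => simp [rho]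
  | succ A ih =>
    rw [WB2_rho_pascal, ih]
    have h1 : Icc 1 (A + 1) = insert 1 ((Icc 1 A).image (fun a => a + 1)) := by
      ext a
      simp only [Finset.mem_insert, Finset.mem_image, Finset.mem_Icc]
      constructor
      · rintro ⟨h1, h2⟩
        rcases Nat.lt_or_ge 1 a with h | h
        · exact Or.inr ⟨a - 1, by omega, by omega⟩
        · left; omega
      · rintro (rfl | ⟨b, hb, rfl⟩) <;> omega
    rw [h1, Finset.sum_insert, Finset.sum_image]
    · have h2 : ∑ a ∈ Icc 1 A, (1 / 2 ^ (a + 1) : ℝ) * rho K (A + 1 - (a + 1)) =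
          (∑ a ∈ Icc 1 A, (1 / 2 ^ a : ℝ) * rho K (A - a)) / 2 := by
        rw [Finset.sum_div]
        apply Finset.sum_congr rfl
        intro a _
        rw [show A + 1 - (a + 1) = A - a by omega, pow_succ]
        field_simp
      rw [h2]
      norm_num
      ring
    · intro a _ b _ h
      simpa using h
    · simp only [Finset.mem_image, Finset.mem_Icc, not_exists, not_and]
      intro a ha h
      omega

theorem WB2_rec (L K A : ℕ) :
    ∑ w ∈ (words L (K + 1)).filter (fun w => w.sum = A), pr w =
      ∑ a ∈ (Icc 1 L).filter (fun a => a ≤ A), (1 / 2 ^ a : ℝ) *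
        ∑ w ∈ (words L K).filter (fun w => w.sum = A - a), pr w := by
  rw [Finset.sum_filter, WB2_sum_cons, Finset.sum_filter]
  apply Finset.sum_congr rfl
  intro a _
  split_ifs with h
  · rw [Finset.mul_sum, Finset.sum_filter]
    apply Finset.sum_congr rfl
    intro w _
    by_cases h2 : w.sum = A - a
    · have h3 : (a :: w).sum = A := by rw [List.sum_cons]; omega
      rw [if_pos h3, if_pos h2]
      unfold pr
      rw [List.sum_cons, pow_add]
      field_simp
    · have h3 : ¬ (a :: w).sum = A := by rw [List.sum_cons]; omega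
      rw [if_neg h3, if_neg h2]
  · apply Finset.sum_eq_zero
    intro w _
    have h3 : ¬ (a :: w).sum = A := by rw [List.sum_cons]; omega
    rw [if_neg h3]

theorem WB2_zero (L A : ℕ) :
    ∑ w ∈ (words L 0).filter (fun w => w.sum = A), pr w = rho 0 A := by
  unfold words rho
  rw [Finset.sum_filter, Finset.sum_singleton]
  by_cases h : A = 0
  · subst h
    simp [pr]
  · rw [if_neg (by simpa using fun h' : 0 = A => h h'.symm), if_pos rfl, if_neg h]

/-- words of length `K` and sum `A <= L` have total probability `rho K A` -/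
theorem rho_words {L K A : ℕ} (hA : A ≤ L) :
    ∑ w ∈ (words L K).filter (fun w => w.sum = A), pr w = rho K A := by
  induction K generalizing A with
  | zero => exact WB2_zero L A
  | succ K ih =>
    rw [WB2_rec, WB2_rho_succ]
    have h1 : (Icc 1 L).filter (fun a => a ≤ A) = Icc 1 A := by
      ext a
      simp only [Finset.mem_filter, Finset.mem_Icc]
      omega
    rw [h1]
    apply Finset.sum_congr rfl
    intro a _
    rw [ih (by omega)]

theorem rho_words_le (L K A : ℕ) :
    ∑ w ∈ (words L K).filter (fun w => w.sum = A), pr w ≤ rho K A := by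
  induction K generalizing A with
  | zero => exact (WB2_zero L A).le
  | succ K ih =>
    rw [WB2_rec, WB2_rho_succ]
    calc _ ≤ ∑ a ∈ (Icc 1 L).filter (fun a => a ≤ A), (1 / 2 ^ a : ℝ) * rho K (A - a) := by
          apply Finset.sum_le_sum
          intro a _
          exact mul_le_mul_of_nonneg_left (ih _) (by positivity)
      _ ≤ _ := by
          apply Finset.sum_le_sum_of_subset_of_nonneg
          · intro a ha
            simp only [Finset.mem_filter, Finset.mem_Icc] at ha ⊢
            omega
          · intro a _ _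
            exact mul_nonneg (by positivity) (WB2_rho_nonneg _ _)

end Pool.Agent.Lib.MP_e43fce_nt_nat
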