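import Pool.Agent.Lib.MP_e43fce_nt_nat.WB1
import Pool.Agent.Lib.MP_e43fce_nt_nat.WB2
import Pool.Agent.Lib.MP_e43fce_kd.BR
import Pool.Agent.Lib.MP_e43fce_kd.C07
import Pool.Agent.Lib.MP_e43fce_kd.D03
import Pool.Agent.Lib.MP_e43fce_kd.D07
import Pool.Agent.Lib.MP_e43fce_kd.E03

/-!
Interface between the block construction (KL2, section 3) and the count (KL2, section 4).
-/

set_option autoImplicit false

namespace Pool.Agent.Lib.MP_e43fce_nt_nat

open Finset

lemma blk_wt_append (u v : List ℕ) : wt (u ++ v) = wt u * wt v := by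
  unfold wt
  rw [List.length_append, List.sum_append, pow_add, pow_add]
  field_simp

lemma blk_le_sum {w : List ℕ} {a : ℕ} (h : a ∈ w) : a ≤ w.sum := List.le_sum_of_mem h

/-- words of a given sum: the cutoff of the letters is irrelevant -/
lemma blk_filter {L At J s : ℕ} (hL : At ≤ L) :
    (words L J).filter (fun b => s + b.sum = At) = (words At J).filter (fun b => s + b.sum = At) := by
  ext b
  simp only [Finset.mem_filter, mem_words]
  constructor
  · rintro ⟨⟨h1, h2⟩, h3⟩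
    refine ⟨⟨h1, fun a ha => ⟨(h2 a ha).1, ?_⟩⟩, h3⟩
    have := blk_le_sum ha
    omega
  · rintro ⟨⟨h1, h2⟩, h3⟩
    exact ⟨⟨h1, fun a ha => ⟨(h2 a ha).1, (h2 a ha).2.trans hL⟩⟩, h3⟩

lemma blk_tauI {L At J s : ℕ} (hL : At ≤ L) (hJ : 1 ≤ J) :
    MP_e43fce_kd.tauI L (fun x => if x = At then 1 else 0) J s = rho J (At - s) := by
  rw [MP_e43fce_kd.tauI_eq_sum, MP_e43fce_kd.W_eq]
  rcases Nat.lt_or_ge At s with h | h
  · rw [Finset.sum_eq_zero]
    · have h0 : At - s = 0 := by omega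
      rw [h0]
      unfold rho
      rw [if_neg (by omega), if_pos rfl]
    · intro v _
      rw [if_neg (by omega), mul_zero]
  · rw [← rho_words (L := L) (K := J) (A := At - s) (by omega), Finset.sum_filter]
    refine Finset.sum_congr rfl fun v _ => ?_
    by_cases hv : v.sum = At - s
    · rw [if_pos (by omega), if_pos hv, mul_one]
      rfl
    · rw [if_neg (by omega), if_neg hv, mul_zero]

lemma blk_term {L At J : ℕ} (hL : At ≤ L) (m : ℤ) (p : List ℕ) :
    (if MP_e43fce_kd.adm m p then MP_e43fce_kd.wt p * MP_e43fce_kd.Sm (MP_e43fce_kd.W L J)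
      (fun b _ => if p.sum + b.sum = At then 1 else 0) (MP_e43fce_kd.nd m p) else 0) =
    ∑ b ∈ (words At J).filter (fun b => p.sum + b.sum = At),
      if adm m (p ++ b) then wt (p ++ b) else 0 := by
  by_cases hp : adm m p
  · rw [if_pos ((MP_e43fce_kd.adm_iff m p).2 hp), MP_e43fce_kd.Sm_eq, MP_e43fce_kd.nd_eq,
      MP_e43fce_kd.wt_eq_nat, Finset.mul_sum, ← blk_filter hL, Finset.sum_filter]
    refine Finset.sum_congr rfl fun b _ => ?_
    by_cases hs : p.sum + b.sum = At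
    · rw [if_pos hs, if_pos hs, mul_one]
      by_cases hb : adm (nd m p) b
      · rw [if_pos hb, if_pos ((adm_append m p b).2 ⟨hp, hb⟩), blk_wt_append]
      · rw [if_neg hb, if_neg (fun h => hb ((adm_append m p b).1 h).2), mul_zero]
    · rw [if_neg hs, if_neg hs, mul_zero, ite_self, mul_zero]
  · rw [if_neg (fun h => hp ((MP_e43fce_kd.adm_iff m p).1 h))]
    symm
    refine Finset.sum_eq_zero fun b _ => ?_
    rw [if_neg (fun h => hp ((adm_append m p b).1 h).1)]

theorem blocks (g : ℕ) (hg : 100 ≤ g) : ∃ (I : ℕ → ℕ) (P : ℕ → Finset (List ℕ)) (Ts q : ℕ)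
    (r0 : ℤ) (gam : ℕ → ℝ),
    0 < q ∧ 450 ≤ I 0 ∧ (∀ k, I k < I (k + 1)) ∧ (∀ k, I (k + 1) ≤ I k + I k / 50 + 1) ∧
    (∀ k, ∀ w ∈ P k, w.length = I k ∧ (∀ a ∈ w, 1 ≤ a) ∧
      |(w.sum : ℝ) - 2 * I k| ≤ I k / g ∧ F w ≤ Ts * 2 ^ w.sum) ∧
    (∀ k, ∀ m : ℤ, (q : ℤ) ∣ m - r0 → 1 / 2 ≤ ∑ w ∈ P k, if adm m w then wt w else 0) ∧
    (∀ k, ∀ m : ℤ, ∀ K A : ℕ, I k < K → K ≤ 57 * I k / 50 →
      (∑ p ∈ P k, if adm m p then wt p * rho (K - I k) (A - p.sum) else 0) - gam k ≤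
      ∑ p ∈ P k, ∑ b ∈ (words A (K - I k)).filter (fun b => p.sum + b.sum = A),
        if adm m (p ++ b) then wt (p ++ b) else 0) ∧
    Filter.Tendsto (fun k => (I k : ℝ) * gam k) Filter.atTop (nhds 0) := by
  obtain ⟨N0, hN0, hml⟩ := MP_e43fce_kd.mass_lower hg
  obtain ⟨m0, hm0⟩ := hml (max N0 450) (le_max_left _ _)
  obtain ⟨C, hC, herr⟩ := MP_e43fce_kd.replace_err hg 2
  set n0 := max N0 450 with hn0
  have hn450 : 450 ≤ n0 := le_max_right _ _
  have hn100 : 100 ≤ n0 := by omega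
  have hstep : ∀ k, MP_e43fce_kd.II n0 (k + 1) =
      MP_e43fce_kd.II n0 k + (MP_e43fce_kd.II n0 k / 50 + 1) := fun k => rfl
  have hbig : ∀ k, 100 + k ≤ MP_e43fce_kd.II n0 k := MP_e43fce_kd.II_pos hn100
  have hgpos : (0 : ℝ) < g := by
    have : 0 < g := by omega
    exact_mod_cast this
  refine ⟨fun k => MP_e43fce_kd.II n0 (k + 1), fun k => MP_e43fce_kd.PP g n0 (k + 1), 10001,
    3 ^ MP_e43fce_kd.II n0 1, m0, fun k => C / (MP_e43fce_kd.II n0 k : ℝ) ^ 2, by positivity,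
    ?_, ?_, ?_, ?_, ?_, ?_, ?_⟩
  · show 450 ≤ MP_e43fce_kd.II n0 1
    rw [hstep 0]
    have : MP_e43fce_kd.II n0 0 = n0 := rfl
    omega
  · intro k
    show MP_e43fce_kd.II n0 (k + 1) < MP_e43fce_kd.II n0 (k + 1 + 1)
    rw [hstep (k + 1)]
    omega
  · intro k
    show MP_e43fce_kd.II n0 (k + 1 + 1) ≤ MP_e43fce_kd.II n0 (k + 1) +
      MP_e43fce_kd.II n0 (k + 1) / 50 + 1
    rw [hstep (k + 1)]
    omega
  · intro k w hw
    refine ⟨MP_e43fce_kd.PP_length hw, fun a ha => (MP_e43fce_kd.PP_letters hw a ha).1, ?_, ?_⟩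
    · obtain ⟨h1, h2⟩ := MP_e43fce_kd.PP_window hw
      have h1' : (2 * (g : ℝ) - 1) * MP_e43fce_kd.II n0 (k + 1) ≤ g * w.sum := by
        have : (((2 * g - 1 : ℕ) : ℝ)) * MP_e43fce_kd.II n0 (k + 1) ≤ g * w.sum := by
          exact_mod_cast h1
        rwa [Nat.cast_sub (by omega), Nat.cast_mul, Nat.cast_ofNat, Nat.cast_one] at this
      have h2' : (g : ℝ) * w.sum ≤ (2 * g + 1) * MP_e43fce_kd.II n0 (k + 1) := by
        exact_mod_cast h2
      rw [abs_le]
      constructor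
      · rw [neg_le_iff_add_nonneg, ← mul_le_mul_iff_right₀ hgpos]
        field_simp
        nlinarith
      · rw [le_div_iff₀ hgpos]
        nlinarith
    · have h := MP_e43fce_kd.PP_F hg hn100 hw
      rw [MP_e43fce_kd.F_eq] at h
      exact_mod_cast h
  · intro k m hm
    have h := hm0 m (by exact_mod_cast hm) k
    unfold MP_e43fce_kd.MM MP_e43fce_kd.Sm at h
    refine h.trans (le_of_eq ?_)
    refine Finset.sum_congr rfl fun w _ => ?_
    rw [mul_one]
    by_cases hw : adm m w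
    · rw [if_pos hw, if_pos ((MP_e43fce_kd.adm_iff m w).2 hw)]
      rfl
    · rw [if_neg hw, if_neg (fun h => hw ((MP_e43fce_kd.adm_iff m w).1 h))]
  · intro k m K A hK1 hK2
    have hK3 : 100 * K ≤ 114 * MP_e43fce_kd.II n0 (k + 1) := by
      have : K ≤ 57 * MP_e43fce_kd.II n0 (k + 1) / 50 := hK2
      omega
    have hK1' : MP_e43fce_kd.II n0 (k + 1) < K := hK1
    have hL : A ≤ max A (3 * MP_e43fce_kd.II n0 (k + 1)) := le_max_left _ _
    have h := herr n0 hn100 k K (max A (3 * MP_e43fce_kd.II n0 (k + 1))) hK1'.le hK3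
      (le_max_right _ _) A m
    have h1 := (abs_le.1 h).1
    unfold MP_e43fce_kd.Sm at h1
    have h2 : (∑ w ∈ MP_e43fce_kd.PP g n0 (k + 1), if MP_e43fce_kd.adm m w then
        MP_e43fce_kd.wt w * (MP_e43fce_kd.Sm (MP_e43fce_kd.W (max A (3 * MP_e43fce_kd.II n0 (k + 1)))
          (K - MP_e43fce_kd.II n0 (k + 1))) (fun b _ => if w.sum + b.sum = A then 1 else 0)
          (MP_e43fce_kd.nd m w) - MP_e43fce_kd.tauI (max A (3 * MP_e43fce_kd.II n0 (k + 1)))
          (fun x => if x = A then 1 else 0) (K - MP_e43fce_kd.II n0 (k + 1)) w.sum) else 0) =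
        (∑ p ∈ MP_e43fce_kd.PP g n0 (k + 1),
          ∑ b ∈ (words A (K - MP_e43fce_kd.II n0 (k + 1))).filter (fun b => p.sum + b.sum = A),
            if adm m (p ++ b) then wt (p ++ b) else 0) -
        ∑ p ∈ MP_e43fce_kd.PP g n0 (k + 1), if adm m p then
          wt p * rho (K - MP_e43fce_kd.II n0 (k + 1)) (A - p.sum) else 0 := by
      rw [← Finset.sum_sub_distrib]
      refine Finset.sum_congr rfl fun p _ => ?_
      rw [← blk_term hL m p, blk_tauI hL (by omega)]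
      by_cases hp : adm m p
      · rw [if_pos ((MP_e43fce_kd.adm_iff m p).2 hp), if_pos ((MP_e43fce_kd.adm_iff m p).2 hp),
          if_pos hp, mul_sub]
        rfl
      · rw [if_neg (fun h => hp ((MP_e43fce_kd.adm_iff m p).1 h)),
          if_neg (fun h => hp ((MP_e43fce_kd.adm_iff m p).1 h)), if_neg hp, sub_zero]
    have h3 : -(C / (MP_e43fce_kd.II n0 k : ℝ) ^ 2) ≤ (∑ p ∈ MP_e43fce_kd.PP g n0 (k + 1),
          ∑ b ∈ (words A (K - MP_e43fce_kd.II n0 (k + 1))).filter (fun b => p.sum + b.sum = A),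
            if adm m (p ++ b) then wt (p ++ b) else 0) -
        ∑ p ∈ MP_e43fce_kd.PP g n0 (k + 1), if adm m p then
          wt p * rho (K - MP_e43fce_kd.II n0 (k + 1)) (A - p.sum) else 0 := by
      rw [← h2]
      exact h1
    show (∑ p ∈ MP_e43fce_kd.PP g n0 (k + 1), if adm m p then
          wt p * rho (K - MP_e43fce_kd.II n0 (k + 1)) (A - p.sum) else 0) -
        C / (MP_e43fce_kd.II n0 k : ℝ) ^ 2 ≤ _
    linarith
  · have hlim : Filter.Tendsto (fun k : ℕ => 2 * C * ((k : ℝ))⁻¹) Filter.atTop (nhds 0) := by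
      have := (tendsto_inv_atTop_nhds_zero_nat (𝕜 := ℝ)).const_mul (2 * C)
      simpa using this
    refine squeeze_zero' (Filter.Eventually.of_forall fun k => by positivity) ?_ hlim
    filter_upwards [Filter.eventually_ge_atTop 1] with k hk
    have hI : (0 : ℝ) < MP_e43fce_kd.II n0 k := by
      have := hbig k
      have : 0 < MP_e43fce_kd.II n0 k := by omega
      exact_mod_cast this
    have hkr : (0 : ℝ) < k := by exact_mod_cast hk
    have hkI : (k : ℝ) ≤ MP_e43fce_kd.II n0 k := by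
      have := hbig k
      have : k ≤ MP_e43fce_kd.II n0 k := by omega
      exact_mod_cast this
    have h2I : (MP_e43fce_kd.II n0 (k + 1) : ℝ) ≤ 2 * MP_e43fce_kd.II n0 k := by
      have h := hstep k
      have h' := hbig k
      have : MP_e43fce_kd.II n0 (k + 1) ≤ 2 * MP_e43fce_kd.II n0 k := by omega
      exact_mod_cast this
    calc (MP_e43fce_kd.II n0 (k + 1) : ℝ) * (C / (MP_e43fce_kd.II n0 k : ℝ) ^ 2)
        ≤ (2 * MP_e43fce_kd.II n0 k) * (C / (MP_e43fce_kd.II n0 k : ℝ) ^ 2) :=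
          mul_le_mul_of_nonneg_right h2I (by positivity)
      _ = 2 * C * (MP_e43fce_kd.II n0 k : ℝ)⁻¹ := by
          field_simp
      _ ≤ 2 * C * (k : ℝ)⁻¹ := by
          apply mul_le_mul_of_nonneg_left _ (by positivity)
          exact inv_anti₀ hkr hkI

end Pool.Agent.Lib.MP_e43fce_nt_nat
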