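import Pool.Agent.Lib.MP_e43fce_nt_nat.Sec4
import Pool.Agent.Lib.MP_e43fce_nt_nat.Blocks

/-!
Assembly of KL2: uniform positive density of the ancestors of every integer not divisible by 3,
with sharp first hitting times; runs of consecutive integers in residue classes.
-/

set_option autoImplicit false

open Finset Filter

namespace Pool.Agent.Lib.MP_e43fce_nt_nat

open Pool.Agent.Lib.MP_e43fce_nt_one (cstar)
open Pool.Agent.Lib.MP_e43fce_nt.KL (CG DG DR class_to_all runs_dens_of)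

theorem count_class {ε : ℝ} (hε : 0 < ε) : ∃ q r0 m1 x0 : ℕ, 0 < q ∧ ∀ m : ℕ, m1 ≤ m →
    m % q = r0 % q → (∀ p : ℕ, 0 < p → col^[p] m ≠ m) → ∀ X : ℕ, x0 * m ≤ X →
      1 / 256 * ((X : ℝ) / m) ≤ ((CG cstar ε 4 m X).card : ℝ) := by
  obtain ⟨g, hg⟩ := exists_nat_ge (max 100 (100 / ε))
  have hg1 : 100 ≤ g := by
    have : (100 : ℝ) ≤ g := (le_max_left _ _).trans hg
    exact_mod_cast this
  obtain ⟨I, P, Ts, q, r0, gam, h1, h2, h3, h4, h5, h6, h7, h8⟩ := blocks g hg1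
  have hB : Blocks g I P Ts q r0 gam := ⟨h1, h2, h3, h4, h5, h6, h7, h8⟩
  obtain ⟨x0, hx0⟩ := count_of_blocks hε hg1 ((le_max_right _ _).trans hg) hB
  refine ⟨q, (r0 % q).toNat, 2 * (Ts + 1), x0, h1, fun m hm hmq hnp X hX => ?_⟩
  refine hx0 m hm ?_ hnp X hX
  have hq : (0 : ℤ) < q := by exact_mod_cast h1
  have e1 : ((r0 % q).toNat : ℤ) = r0 % q := Int.toNat_of_nonneg (Int.emod_nonneg _ hq.ne')
  have e2 : (m : ℤ) % q = r0 % q := by
    have : ((m % q : ℕ) : ℤ) = (((r0 % q).toNat % q : ℕ) : ℤ) := by rw [hmq]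
    push_cast at this
    rw [Int.toNat_of_nonneg (Int.emod_nonneg _ hq.ne'),
      Int.emod_emod_of_dvd _ (dvd_refl (q : ℤ))] at this
    exact this
  exact Int.ModEq.dvd (show r0 ≡ (m : ℤ) [ZMOD (q : ℤ)] from e2.symm)

/-- positive density of ancestors, uniformly in `a`, with sharp first hitting time -/
theorem uniform_density {ε : ℝ} (hε : 0 < ε) : ∃ c : ℝ, 0 < c ∧ ∃ K0 x0 : ℕ, ∀ a : ℕ, ¬ 3 ∣ a →
    ∀ x : ℕ, x0 ≤ x → c * (x : ℝ) ≤ ((DG cstar ε K0 a x).card : ℝ) := by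
  have hcs : 0 < cstar := by
    unfold cstar
    have : 0 < Real.log (4 / 3) := Real.log_pos (by norm_num)
    positivity
  obtain ⟨q, r0, m1, x0, hq, h⟩ := count_class (ε := ε / 2) (by linarith)
  obtain ⟨c, hc, K0, x1, h1⟩ := class_to_all (cs := cstar) (ε := ε / 2) (c := 1 / 256) hcs
    (by linarith) (by norm_num) (q := q) (r0 := r0) (m1 := m1) (K0 := 4) (x0 := x0) hq h
  refine ⟨c, hc, K0, x1, fun a ha x hx => ?_⟩
  have := h1 a ha x hx
  rwa [show 2 * (ε / 2) = ε by ring] at this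

/-- runs of consecutive integers in residue classes -/
theorem uniform_runs {ε : ℝ} (hε : 0 < ε) (Lr M r : ℕ) (hM : 0 < M) : ∃ c : ℝ, 0 < c ∧
    ∃ K1 x1 : ℕ, ∀ a : ℕ, ¬ 3 ∣ a → ∀ x : ℕ, x1 ≤ x →
      c * (x : ℝ) ≤ ((DR cstar ε K1 Lr a M r x).card : ℝ) := by
  have hcs : 0 < cstar := by
    unfold cstar
    have : 0 < Real.log (4 / 3) := Real.log_pos (by norm_num)
    positivity
  obtain ⟨c, hc, K0, x0, h⟩ := uniform_density (ε := ε / 2) (by linarith)
  exact runs_dens_of hcs hε hc h Lr M r hM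

end Pool.Agent.Lib.MP_e43fce_nt_nat
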