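import Pool.Agent.Lib.MP_e43fce_nt_nat.Defs4
import Pool.Agent.Lib.MP_e43fce_nt_nat.PosDens

/-! POS: uniform positive predecessor density (KL2, helper15), in the form used here. -/

set_option autoImplicit false

namespace Pool.Agent.Lib.MP_e43fce_nt_nat

open Finset

open Classical in
theorem pos_dens : ∃ c : ℝ, 0 < c ∧ ∀ a : ℕ, 0 < a → ¬ 3 ∣ a → ∃ X0 : ℕ, ∀ X : ℕ, X0 ≤ X →
    c / a * X ≤ (((Icc 1 X).filter (fun n : ℕ => ∃ k : ℕ, col^[k] n = a)).card : ℝ) := by
  obtain ⟨c, hc, K0, x0, h⟩ := uniform_density (ε := 1) one_pos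
  refine ⟨c / 2, by positivity, fun a ha h3 => ⟨a * (x0 + 1), fun X hX => ?_⟩⟩
  have har : (0 : ℝ) < a := by exact_mod_cast ha
  set x : ℕ := X / a with hx
  have hx0 : x0 + 1 ≤ x := by
    rw [hx, Nat.le_div_iff_mul_le ha, mul_comm]
    exact hX
  have hxX : a * x ≤ X := Nat.mul_div_le _ _
  have hX2 : X ≤ 2 * (a * x) := by
    have h1 : X < a * (x + 1) := Nat.lt_mul_div_succ X ha
    have h2 : a * (x + 1) ≤ a * (2 * x) := Nat.mul_le_mul_left _ (by omega)
    have h3 : a * (2 * x) = 2 * (a * x) := by ring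
    omega
  have hX2r : (X : ℝ) ≤ 2 * (a * x) := by exact_mod_cast hX2
  have h4 := h a h3 x (by omega)
  calc c / 2 / a * X ≤ c / 2 / a * (2 * (a * x)) := mul_le_mul_of_nonneg_left hX2r (by positivity)
    _ = c * x := by field_simp
    _ ≤ _ := h4
    _ ≤ _ := by
        apply Nat.cast_le.2
        apply card_le_card
        intro n hn
        unfold Pool.Agent.Lib.MP_e43fce_nt.KL.DG at hn
        rw [mem_filter, mem_Icc] at hn
        obtain ⟨⟨n1, n2⟩, n3, n4, k, n5, -⟩ := hn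
        rw [mem_filter, mem_Icc]
        exact ⟨⟨n1, n2.trans hxX⟩, k, n5⟩

end Pool.Agent.Lib.MP_e43fce_nt_nat
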