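import Pool.Agent.Lib.MP_e43fce_nt_nat.T1ODD

/-! T1, all numbers: Tao's theorem with natural density, rate and number of steps. -/

set_option autoImplicit false

namespace Pool.Agent.Lib.MP_e43fce_nt_nat

open Finset

theorem t1all_col (j m : ℕ) : col^[j] (2 ^ j * m) = m := by
  induction j with
  | zero => simp
  | succ j ih =>
    rw [Function.iterate_succ_apply]
    have h : col (2 ^ (j + 1) * m) = 2 ^ j * m := by
      have h2 : 2 ^ (j + 1) * m = 2 * (2 ^ j * m) := by ring
      unfold col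
      rw [h2, if_pos (by omega)]
      omega
    rw [h]
    exact ih

theorem t1all_card (N0 T : ℕ) (x : ℝ) :
    (((oddS (Real.exp x)).filter (fun m => pT N0 T m = 1)).card : ℝ)
      ≤ DD 0 (pT N0 T) x * Real.exp x := by
  unfold DD NN
  rw [div_mul_cancel₀ _ (Real.exp_pos x).ne']
  rw [Finset.card_eq_sum_ones]
  push_cast
  calc ∑ _m ∈ (oddS (Real.exp x)).filter (fun m => pT N0 T m = 1), (1 : ℝ)
      = ∑ m ∈ (oddS (Real.exp x)).filter (fun m => pT N0 T m = 1), pT N0 T m * MM 0 m := by
        apply Finset.sum_congr rfl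
        intro m hm
        rw [(Finset.mem_filter.1 hm).2, MM_zero, one_mul]
    _ ≤ ∑ m ∈ oddS (Real.exp x), pT N0 T m * MM 0 m := by
        apply Finset.sum_le_sum_of_subset_of_nonneg (Finset.filter_subset _ _)
        intro m _ _
        exact mul_nonneg (t1odd_unit N0 T m).1 (MM_nonneg 0 m)

open Classical in
/-- all numbers -/
theorem T1_all {e0 : ℝ} (he : 0 < e0) : ∃ C : ℝ, 0 < C ∧ ∀ N0 X : ℕ, 2 ≤ N0 → 1 ≤ X →
    (((Icc 1 X).filter (fun n => ∀ k : ℕ, (k : ℝ) ≤ (3 / Real.log (4 / 3) + e0) * Real.log X + C →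
        N0 < col^[k] n)).card : ℝ) ≤ C * (Real.log N0) ^ (-(1 / 4) : ℝ) * X := by
  obtain ⟨C1, hC1, hodd⟩ := T1_odd he
  refine ⟨2 * C1 + 1, by positivity, ?_⟩
  intro N0 X hN0 hX
  set c1 := 3 / Real.log (4 / 3) + e0 with hc1
  have hN0' : (2 : ℝ) ≤ N0 := by exact_mod_cast hN0
  have hX' : (1 : ℝ) ≤ X := by exact_mod_cast hX
  have hLpos : 0 < Real.log N0 := Real.log_pos (by linarith)
  set g := (Real.log N0) ^ (-(1 / 4) : ℝ) with hg
  have hg0 : 0 < g := Real.rpow_pos_of_pos hLpos _
  have hc1ge : 9 ≤ c1 := by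
    have h1 := t1odd_c_upper
    have h2 := t1odd_c_lower
    have h3 : (9 : ℝ) ≤ 3 / Real.log (4 / 3) := by
      rw [le_div_iff₀ (by linarith)]
      linarith
    linarith
  have hl2 : (0.6 : ℝ) ≤ Real.log 2 := by
    have := Real.log_two_gt_d9
    norm_num at this ⊢
    linarith
  -- heights
  set y : ℕ → ℝ := fun j => Real.log X - j * Real.log 2 with hy
  have hey : ∀ j, Real.exp (y j) = X / 2 ^ j := by
    intro j
    rw [hy]
    simp only
    rw [Real.exp_sub, Real.exp_log (by linarith), mul_comm, Real.exp_mul, Real.exp_log (by norm_num),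
      Real.rpow_natCast]
  set T : ℕ → ℕ := fun j => ⌈c1 * y j⌉₊ with hT
  set O : ℕ → Finset ℕ := fun j => (oddS (Real.exp (y j))).filter (fun m => pT N0 (T j) m = 1)
    with hO
  set S := (Icc 1 X).filter (fun n => ∀ k : ℕ, (k : ℝ) ≤ c1 * Real.log X + (2 * C1 + 1) →
        N0 < col^[k] n) with hS
  -- covering
  have hcov : S ⊆ (range (X + 1)).biUnion (fun j => (O j).image (fun m => 2 ^ j * m)) := by
    intro n hn
    obtain ⟨hn1, hn2⟩ := Finset.mem_filter.1 hn
    obtain ⟨hn3, hn4⟩ := Finset.mem_Icc.1 hn1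
    obtain ⟨j, m, hm, hnm⟩ := Nat.exists_eq_two_pow_mul_odd (show n ≠ 0 by omega)
    have hmpos : 1 ≤ m := hm.pos
    have hjX : j < X + 1 := by
      have h1 : j < 2 ^ j := Nat.lt_two_pow_self
      have h2 : 2 ^ j * 1 ≤ 2 ^ j * m := Nat.mul_le_mul_left _ hmpos
      omega
    have hmX : (m : ℝ) ≤ X / 2 ^ j := by
      rw [le_div_iff₀ (by positivity)]
      have h3 : m * 2 ^ j ≤ X := by
        rw [mul_comm, ← hnm]
        exact hn4
      exact_mod_cast h3
    have hyj : 0 ≤ y j := by
      have h4 : (1 : ℝ) ≤ Real.exp (y j) := by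
        rw [hey]
        have : (1 : ℝ) ≤ m := by exact_mod_cast hmpos
        linarith
      by_contra hcon
      push Not at hcon
      have := (Real.exp_lt_exp.2 hcon).trans_eq Real.exp_zero
      linarith
    rw [Finset.mem_biUnion]
    refine ⟨j, Finset.mem_range.2 hjX, ?_⟩
    rw [Finset.mem_image]
    refine ⟨m, ?_, hnm.symm⟩
    rw [hO]
    simp only
    rw [Finset.mem_filter]
    refine ⟨?_, ?_⟩
    · unfold oddS
      rw [Finset.mem_filter, Finset.mem_Icc]
      refine ⟨⟨hmpos, ?_⟩, Nat.odd_iff.1 hm⟩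
      apply Nat.le_floor
      rw [hey]
      exact hmX
    · unfold pT
      rw [if_pos]
      intro k hk
      have h5 : col^[k] m = col^[k + j] n := by
        rw [Function.iterate_add_apply, hnm, t1all_col]
      rw [h5]
      apply hn2
      have h6 : (k : ℝ) ≤ T j := by exact_mod_cast hk
      have h7 : ((T j : ℕ) : ℝ) < c1 * y j + 1 := Nat.ceil_lt_add_one (by positivity)
      have h8 : y j = Real.log X - j * Real.log 2 := rfl
      have h9 : (0 : ℝ) ≤ j := Nat.cast_nonneg j
      have h10 : (1 : ℝ) ≤ c1 * Real.log 2 := by nlinarith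
      have h11 : (j : ℝ) * 1 ≤ j * (c1 * Real.log 2) := mul_le_mul_of_nonneg_left h10 h9
      push_cast
      rw [h8] at h7
      nlinarith
  -- each piece
  have hpiece : ∀ j, ((O j).card : ℝ) ≤ C1 * g * (X / 2 ^ j) := by
    intro j
    by_cases hyj : 0 ≤ y j
    · have h1 := t1all_card N0 (T j) (y j)
      have h2 := hodd N0 hN0 (y j) hyj (T j) (Nat.le_ceil _)
      rw [← hey]
      exact le_trans h1 (mul_le_mul_of_nonneg_right h2 (Real.exp_pos _).le)
    · push Not at hyj
      have h3 : O j = ∅ := by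
        rw [hO]
        simp only
        unfold oddS
        have h4 : ⌊Real.exp (y j)⌋₊ = 0 := Nat.floor_eq_zero.2 ((Real.exp_lt_exp.2 hyj).trans_eq Real.exp_zero)
        rw [h4]
        rfl
      rw [h3]
      simp only [Finset.card_empty, Nat.cast_zero]
      positivity
  have hgeo : ∑ j ∈ range (X + 1), (1 : ℝ) / 2 ^ j ≤ 2 := by
    have h1 : ∀ n : ℕ, ∑ j ∈ range n, (1 : ℝ) / 2 ^ j = 2 - 2 / 2 ^ n := by
      intro n
      induction n with
      | zero => simp
      | succ n ih =>
        rw [Finset.sum_range_succ, ih, pow_succ]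
        field_simp
        ring
    rw [h1]
    have : (0 : ℝ) < 2 / 2 ^ (X + 1) := by positivity
    linarith
  calc ((S.card : ℕ) : ℝ) ≤ (((range (X + 1)).biUnion
          (fun j => (O j).image (fun m => 2 ^ j * m))).card : ℝ) := by
        exact_mod_cast Finset.card_le_card hcov
    _ ≤ ((∑ j ∈ range (X + 1), ((O j).image (fun m => 2 ^ j * m)).card : ℕ) : ℝ) := by
        exact_mod_cast Finset.card_biUnion_le
    _ ≤ ((∑ j ∈ range (X + 1), (O j).card : ℕ) : ℝ) := by
        have : ∑ j ∈ range (X + 1), ((O j).image (fun m => 2 ^ j * m)).card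
            ≤ ∑ j ∈ range (X + 1), (O j).card :=
          Finset.sum_le_sum fun j _ => Finset.card_image_le
        exact_mod_cast this
    _ = ∑ j ∈ range (X + 1), ((O j).card : ℝ) := by push_cast; rfl
    _ ≤ ∑ j ∈ range (X + 1), C1 * g * (X / 2 ^ j) := Finset.sum_le_sum fun j _ => hpiece j
    _ = C1 * g * X * ∑ j ∈ range (X + 1), (1 : ℝ) / 2 ^ j := by
        rw [Finset.mul_sum]
        apply Finset.sum_congr rfl
        intro j _
        ring
    _ ≤ C1 * g * X * 2 := by
        apply mul_le_mul_of_nonneg_left hgeo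
        positivity
    _ ≤ (2 * C1 + 1) * g * X := by
        have : 0 ≤ g * X := by positivity
        nlinarith

end Pool.Agent.Lib.MP_e43fce_nt_nat
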