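import Pool.Agent.Lib.MP_e43fce_nt_nat.Defs4

/-! DensAlg: natural densities, invariant sets, total stopping time: elementary facts. -/

set_option autoImplicit false

namespace Pool.Agent.Lib.MP_e43fce_nt_nat

open Finset

/-- number of elements of `S` in `[1, X]` -/
noncomputable def cnt (S : Set ℕ) (X : ℕ) : ℝ := ((S ∩ Set.Icc 1 X).ncard : ℝ)

/-- natural density -/
def HasDens (S : Set ℕ) (δ : ℝ) : Prop :=
  Filter.Tendsto (fun X : ℕ => cnt S X / X) Filter.atTop (nhds δ)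

/-- total stopping time, `⊤` if `1` is never reached -/
noncomputable def tst (n : ℕ) : ℕ∞ := sInf {k : ℕ∞ | ∃ j : ℕ, k = j ∧ col^[j] n = 1}

theorem fin_inter (S : Set ℕ) (X : ℕ) : (S ∩ Set.Icc 1 X).Finite :=
  (Set.finite_Icc 1 X).subset Set.inter_subset_right

theorem cnt_nonneg (S : Set ℕ) (X : ℕ) : 0 ≤ cnt S X := Nat.cast_nonneg _

theorem cnt_mono {S T : Set ℕ} {X : ℕ} (h : ∀ n, 0 < n → n ≤ X → n ∈ S → n ∈ T) :
    cnt S X ≤ cnt T X := by
  unfold cnt
  have hsub : S ∩ Set.Icc 1 X ⊆ T ∩ Set.Icc 1 X :=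
    fun n hn => ⟨h n hn.2.1 hn.2.2 hn.1, hn.2⟩
  exact_mod_cast Set.ncard_le_ncard hsub (fin_inter T X)

theorem cnt_union_le (S T : Set ℕ) (X : ℕ) : cnt (S ∪ T) X ≤ cnt S X + cnt T X := by
  unfold cnt
  rw [Set.union_inter_distrib_right]
  exact_mod_cast Set.ncard_union_le _ _

theorem cnt_univ (X : ℕ) : cnt Set.univ X = X := by
  unfold cnt
  rw [Set.univ_inter, ← Finset.coe_Icc, Set.ncard_coe_finset]
  simp

theorem cnt_compl (S : Set ℕ) (X : ℕ) : cnt Sᶜ X = X - cnt S X := by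
  have h : cnt S X + cnt Sᶜ X = X := by
    rw [← cnt_univ X]
    unfold cnt
    rw [← Set.union_compl_self S, Set.union_inter_distrib_right]
    norm_cast
    rw [Set.ncard_union_eq _ (fin_inter _ _) (fin_inter _ _)]
    exact (Set.disjoint_left.mpr (fun n h1 h2 => h2.1 h1.1))
  linarith

theorem cnt_filter (S : Set ℕ) (X : ℕ) (s : Finset ℕ)
    (h : ∀ n, n ∈ s ↔ n ∈ S ∧ 1 ≤ n ∧ n ≤ X) : cnt S X = (s.card : ℝ) := by
  unfold cnt
  rw [← Set.ncard_coe_finset]
  congr 2
  ext n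
  simp only [Set.mem_inter_iff, Set.mem_Icc, Finset.mem_coe]
  exact (h n).symm

theorem cnt_le (S : Set ℕ) (X : ℕ) : cnt S X ≤ X := by
  rw [← cnt_univ X]
  exact cnt_mono (fun n _ _ _ => Set.mem_univ n)

theorem HasDens.compl {S : Set ℕ} {δ : ℝ} (h : HasDens S δ) : HasDens Sᶜ (1 - δ) := by
  unfold HasDens at *
  have h1 : Filter.Tendsto (fun X : ℕ => 1 - cnt S X / X) Filter.atTop (nhds (1 - δ)) :=
    tendsto_const_nhds.sub h
  refine h1.congr' ?_
  filter_upwards [Filter.eventually_gt_atTop 0] with X hX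
  rw [cnt_compl]
  have : (X : ℝ) ≠ 0 := by positivity
  field_simp

theorem HasDens.unique {S : Set ℕ} {δ δ' : ℝ} (h : HasDens S δ) (h' : HasDens S δ') : δ = δ' :=
  tendsto_nhds_unique h h'

theorem HasDens.le {S T : Set ℕ} {δ δ' : ℝ} (h : HasDens S δ) (h' : HasDens T δ')
    (hST : ∀ n, 0 < n → n ∈ S → n ∈ T) : δ ≤ δ' := by
  refine le_of_tendsto_of_tendsto' h h' (fun X => ?_)
  exact div_le_div_of_nonneg_right (cnt_mono (fun n hn _ hS => hST n hn hS)) (Nat.cast_nonneg _)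

theorem HasDens.ge {S T : Set ℕ} {c δ : ℝ} {X0 : ℕ} (h : ∀ X : ℕ, X0 ≤ X → c * X ≤ cnt S X)
    (hST : ∀ n, 0 < n → n ∈ S → n ∈ T) (hT : HasDens T δ) : c ≤ δ := by
  refine ge_of_tendsto hT ?_
  filter_upwards [Filter.eventually_ge_atTop X0, Filter.eventually_gt_atTop 0] with X hX hX0
  have hpos : (0 : ℝ) < X := by exact_mod_cast hX0
  rw [le_div_iff₀ hpos]
  exact (h X hX).trans (cnt_mono (fun n hn _ hS => hST n hn hS))

theorem HasDens.zero_of_le {S T : Set ℕ} (hT : HasDens T 0)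
    (hST : ∀ n, 0 < n → n ∈ S → n ∈ T) : HasDens S 0 := by
  refine squeeze_zero (fun X => div_nonneg (cnt_nonneg _ _) (Nat.cast_nonneg _)) (fun X => ?_) hT
  exact div_le_div_of_nonneg_right (cnt_mono (fun n hn _ hS => hST n hn hS)) (Nat.cast_nonneg _)

theorem HasDens.zero_union {S T : Set ℕ} (hS : HasDens S 0) (hT : HasDens T 0) :
    HasDens (S ∪ T) 0 := by
  have h := hS.add hT
  rw [add_zero] at h
  refine squeeze_zero (fun X => div_nonneg (cnt_nonneg _ _) (Nat.cast_nonneg _)) (fun X => ?_) h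
  rw [← add_div]
  exact div_le_div_of_nonneg_right (cnt_union_le S T X) (Nat.cast_nonneg _)

/-- change by a null set -/
theorem HasDens.change {S T N : Set ℕ} {δ : ℝ} (hS : HasDens S δ) (hN : HasDens N 0)
    (h1 : ∀ n, 0 < n → n ∈ S → n ∈ T ∨ n ∈ N) (h2 : ∀ n, 0 < n → n ∈ T → n ∈ S ∨ n ∈ N) :
    HasDens T δ := by
  have hup : Filter.Tendsto (fun X : ℕ => cnt S X / X + cnt N X / X) Filter.atTop (nhds δ) := by
    have := hS.add hN
    rwa [add_zero] at this
  have hlo : Filter.Tendsto (fun X : ℕ => cnt S X / X - cnt N X / X) Filter.atTop (nhds δ) := by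
    have := hS.sub hN
    rwa [sub_zero] at this
  refine tendsto_of_tendsto_of_tendsto_of_le_of_le hlo hup (fun X => ?_) (fun X => ?_)
  · have : cnt S X ≤ cnt T X + cnt N X :=
      (cnt_mono (T := T ∪ N) (fun n hn _ hs => h1 n hn hs)).trans (cnt_union_le T N X)
    show cnt S X / X - cnt N X / X ≤ cnt T X / X
    rw [← sub_div]
    exact div_le_div_of_nonneg_right (by linarith) (Nat.cast_nonneg _)
  · have : cnt T X ≤ cnt S X + cnt N X :=
      (cnt_mono (T := S ∪ N) (fun n hn _ hs => h2 n hn hs)).trans (cnt_union_le S N X)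
    show cnt T X / X ≤ cnt S X / X + cnt N X / X
    rw [← add_div]
    exact div_le_div_of_nonneg_right (by linarith) (Nat.cast_nonneg _)

theorem hasDens_bounded (S : Set ℕ) (M : ℕ) (h : ∀ n ∈ S, n ≤ M) : HasDens S 0 := by
  have h1 : Filter.Tendsto (fun X : ℕ => (M : ℝ) / X) Filter.atTop (nhds 0) :=
    tendsto_const_div_atTop_nhds_zero_nat _
  refine squeeze_zero (fun X => div_nonneg (cnt_nonneg _ _) (Nat.cast_nonneg _)) (fun X => ?_) h1
  refine div_le_div_of_nonneg_right ?_ (Nat.cast_nonneg _)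
  unfold cnt
  have : (S ∩ Set.Icc 1 X).ncard ≤ (Set.Icc 1 M).ncard :=
    Set.ncard_le_ncard (fun n hn => ⟨hn.2.1, h n hn.1⟩) (Set.finite_Icc 1 M)
  have h2 : (Set.Icc 1 M).ncard = M := by
    rw [← Finset.coe_Icc, Set.ncard_coe_finset]; simp
  rw [h2] at this
  exact_mod_cast this

/-! orbits -/

theorem col_pos {n : ℕ} (hn : 0 < n) : 0 < col n := by
  unfold col
  split_ifs with h
  · omega
  · omega

theorem iter_pos {n : ℕ} (hn : 0 < n) (k : ℕ) : 0 < col^[k] n := by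
  induction k with
  | zero => simpa using hn
  | succ k ih => rw [Function.iterate_succ_apply']; exact col_pos ih

theorem inv_iter {E : Set ℕ} (hE : IsInv E) {n : ℕ} (hn : 0 < n) (k : ℕ) :
    n ∈ E ↔ col^[k] n ∈ E := by
  induction k with
  | zero => simp
  | succ k ih =>
    rw [ih, Function.iterate_succ_apply']
    exact hE _ (iter_pos hn k)

/-- a positive element of an invariant set yields one prime to `3` -/
theorem inv_nonempty {E : Set ℕ} (hE : IsInv E) {n : ℕ} (hn : 0 < n) (h : n ∈ E) :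
    ∃ a ∈ E, 0 < a ∧ ¬ 3 ∣ a := by
  induction n using Nat.strong_induction_on with
  | _ n ih =>
    rcases Nat.even_or_odd' n with ⟨m, hm | hm⟩
    · have hm0 : 0 < m := by omega
      refine ih m (by omega) hm0 ?_
      have := (hE n hn).mp h
      unfold col at this
      rw [if_pos (by omega), hm] at this
      simpa using this
    · refine ⟨3 * n + 1, ?_, by omega, by omega⟩
      have := (hE n hn).mp h
      unfold col at this
      rwa [if_neg (by omega)] at this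

/-- the set of all `n` whose orbit meets `1` -/
def Rone : Set ℕ := {n | ∃ k : ℕ, col^[k] n = 1}

theorem Rone_inv : IsInv Rone := by
  intro n hn
  constructor
  · rintro ⟨k, hk⟩
    cases k with
    | zero =>
      have h1 : n = 1 := hk
      subst h1
      exact ⟨2, by decide⟩
    | succ k => exact ⟨k, by rwa [Function.iterate_succ_apply] at hk⟩
  · rintro ⟨k, hk⟩
    exact ⟨k + 1, by rwa [Function.iterate_succ_apply]⟩

theorem compl_inv {E : Set ℕ} (hE : IsInv E) : IsInv Eᶜ := by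
  intro n hn
  simp only [Set.mem_compl_iff]
  exact not_congr (hE n hn)

theorem tst_le_iff {n m : ℕ} : tst n ≤ (m : ℕ∞) ↔ ∃ k : ℕ, k ≤ m ∧ col^[k] n = 1 := by
  unfold tst
  constructor
  · intro h
    by_contra hcon
    push Not at hcon
    have : ((m + 1 : ℕ) : ℕ∞) ≤ sInf {k : ℕ∞ | ∃ j : ℕ, k = j ∧ col^[j] n = 1} := by
      refine le_sInf ?_
      rintro k ⟨j, rfl, hj⟩
      by_contra hlt
      push Not at hlt
      have h1 : j < m + 1 := by exact_mod_cast hlt
      exact hcon j (by omega) hj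
    have h2 := this.trans h
    have h3 : m + 1 ≤ m := by exact_mod_cast h2
    omega
  · rintro ⟨k, hk, hk1⟩
    refine (sInf_le (show ((k : ℕ) : ℕ∞) ∈ {k : ℕ∞ | ∃ j : ℕ, k = j ∧ col^[j] n = 1} from
      ⟨k, rfl, hk1⟩)).trans ?_
    exact_mod_cast hk

theorem tst_ne_top_iff {n : ℕ} : tst n ≠ ⊤ ↔ n ∈ Rone := by
  constructor
  · intro h
    obtain ⟨m, hm⟩ := ENat.ne_top_iff_exists.mp h
    obtain ⟨k, _, hk⟩ := tst_le_iff.mp (le_of_eq hm.symm)
    exact ⟨k, hk⟩
  · rintro ⟨k, hk⟩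
    have : tst n ≤ (k : ℕ∞) := tst_le_iff.mpr ⟨k, le_refl _, hk⟩
    exact ne_top_of_le_ne_top (ENat.natCast_ne_top k) this

/-- minimality -/
theorem tst_eq_min {n k : ℕ} (h : tst n = (k : ℕ∞)) : col^[k] n = 1 ∧ ∀ j, col^[j] n = 1 → k ≤ j := by
  obtain ⟨j, hj, hj1⟩ := tst_le_iff.mp (le_of_eq h)
  have hmin : ∀ i, col^[i] n = 1 → k ≤ i := by
    intro i hi
    have := tst_le_iff.mpr ⟨i, le_refl _, hi⟩
    rw [h] at this
    exact_mod_cast this
  have : k ≤ j := hmin j hj1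
  have hjk : j = k := le_antisymm hj this
  exact ⟨hjk ▸ hj1, hmin⟩

end Pool.Agent.Lib.MP_e43fce_nt_nat
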