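import Pool.Agent.Lib.MP_e43fce_nt_nat.Defs3

/-! PAR: odd numbers as nodes over their Syracuse iterates. -/

set_option autoImplicit false

namespace Pool.Agent.Lib.MP_e43fce_nt_nat

open Finset

private theorem syr_mul (n : ℕ) : 2 ^ vl n * syr n = 3 * n + 1 := by
  unfold syr vl
  exact Nat.mul_div_cancel' pow_padicValNat_dvd

private theorem syr_odd (n : ℕ) : syr n % 2 = 1 := by
  have h : ¬ 2 ∣ syr n := by
    unfold syr vl
    have h1 : (3 * n + 1) ≠ 0 := by omega
    exact Nat.not_dvd_ordCompl (p := 2) Nat.prime_two h1 |> fun h => by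
      simpa [Nat.factorization_def _ Nat.prime_two] using h
  omega

private theorem vl_pos (n : ℕ) (hn : n % 2 = 1) : 1 ≤ vl n := by
  unfold vl
  exact one_le_padicValNat_of_dvd (by omega) (by omega)

theorem root_odd (K n : ℕ) (hn : n % 2 = 1) : root K n % 2 = 1 := by
  cases K with
  | zero => exact hn
  | succ K => exact syr_odd _

theorem vw_length (K n : ℕ) : (vw K n).length = K := by
  induction K with
  | zero => rfl
  | succ K ih => simp [vw, ih]

theorem vw_pos (K n : ℕ) (hn : n % 2 = 1) : ∀ a ∈ vw K n, 1 ≤ a := by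
  induction K with
  | zero => intro a ha; simp [vw] at ha
  | succ K ih =>
    intro a ha
    simp only [vw, List.mem_cons] at ha
    rcases ha with rfl | ha
    · exact vl_pos _ (root_odd K n hn)
    · exact ih a ha

private theorem vw_eq (K n : ℕ) :
    (2 : ℤ) ^ (vw K n).sum * (root K n : ℤ) - (F (vw K n) : ℤ) = 3 ^ K * n := by
  induction K with
  | zero => simp [vw, root, F]
  | succ K ih =>
    have h := syr_mul (root K n)
    have h' : (2 : ℤ) ^ vl (root K n) * (syr (root K n) : ℤ) = 3 * (root K n : ℤ) + 1 := by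
      exact_mod_cast h
    simp only [vw, root, F, List.sum_cons]
    push_cast
    rw [pow_add, pow_succ]
    linear_combination (2 : ℤ) ^ (vw K n).sum * h' + 3 * ih

theorem vw_adm (K n : ℕ) (hn : n % 2 = 1) : adm (root K n) (vw K n) := by
  unfold adm
  rw [vw_eq, vw_length]
  exact Dvd.intro _ rfl

theorem vw_nd (K n : ℕ) (hn : n % 2 = 1) : nd (root K n) (vw K n) = n := by
  unfold nd
  rw [vw_eq, vw_length]
  exact Int.mul_ediv_cancel_left _ (by positivity)

private theorem col_two_mul (a s : ℕ) : col^[a] (2 ^ a * s) = s := by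
  induction a with
  | zero => simp
  | succ a ih =>
    rw [Function.iterate_succ_apply]
    have : col (2 ^ (a + 1) * s) = 2 ^ a * s := by
      unfold col
      have h : 2 ^ (a + 1) * s = 2 * (2 ^ a * s) := by ring
      rw [h, if_pos (by omega)]
      omega
    rw [this, ih]

private theorem col_syr (n : ℕ) (hn : n % 2 = 1) : col^[1 + vl n] n = syr n := by
  rw [add_comm, Function.iterate_add_apply, Function.iterate_one]
  have : col n = 2 ^ vl n * syr n := by
    rw [syr_mul]
    unfold col
    rw [if_neg (by omega)]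
  rw [this, col_two_mul]

theorem vw_col (K n : ℕ) (hn : n % 2 = 1) : col^[K + (vw K n).sum] n = root K n := by
  induction K with
  | zero => simp [vw, root]
  | succ K ih =>
    have h : K + 1 + (vw (K + 1) n).sum = (1 + vl (root K n)) + (K + (vw K n).sum) := by
      simp only [vw, List.sum_cons]; ring
    rw [h, Function.iterate_add_apply, ih, col_syr _ (root_odd K n hn)]
    rfl

/-- uniqueness -/
theorem vw_unique {s : ℕ} (hs : s % 2 = 1) {w : List ℕ} (hw : ∀ a ∈ w, 1 ≤ a) (had : adm s w) :
    ∃ n : ℕ, n % 2 = 1 ∧ nd s w = n ∧ root w.length n = s ∧ vw w.length n = w := by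
  induction w generalizing s with
  | nil => exact ⟨s, hs, by simp [nd, F], rfl, rfl⟩
  | cons a w ih =>
    have ha : 1 ≤ a := hw a (by simp)
    have hw' : ∀ b ∈ w, 1 ≤ b := fun b hb => hw b (by simp [hb])
    unfold adm at had
    simp only [List.length_cons, List.sum_cons, F] at had
    obtain ⟨z, hz⟩ := had
    push_cast at hz
    rw [pow_add, pow_succ] at hz
    -- `3 ∣ 2^a s - 1`
    have h3 : (3 : ℤ) ∣ 2 ^ a * (s : ℤ) - 1 := by
      have h1 : (3 : ℤ) ∣ 2 ^ w.sum * (2 ^ a * (s : ℤ) - 1) := by
        refine ⟨(F w : ℤ) + 3 ^ w.length * z, ?_⟩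
        linear_combination hz
      have h2 : IsCoprime (3 : ℤ) (2 ^ w.sum) := by
        apply IsCoprime.pow_right
        exact ⟨1, -1, by norm_num⟩
      exact h2.dvd_of_dvd_mul_left h1
    have h3' : 3 ∣ 2 ^ a * s - 1 := by
      have hpos : 1 ≤ 2 ^ a * s := Nat.one_le_iff_ne_zero.mpr (by
        have : s ≠ 0 := by omega
        positivity)
      have : ((2 ^ a * s - 1 : ℕ) : ℤ) = 2 ^ a * (s : ℤ) - 1 := by
        push_cast [Nat.cast_sub hpos]; ring
      rw [← this] at h3
      exact_mod_cast h3
    obtain ⟨r, hr⟩ := h3'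
    have hpos : 1 ≤ 2 ^ a * s := Nat.one_le_iff_ne_zero.mpr (by
        have : s ≠ 0 := by omega
        positivity)
    have hr' : 2 ^ a * s = 3 * r + 1 := by omega
    have heven : 2 ^ a * s % 2 = 0 := by
      obtain ⟨b, rfl⟩ : ∃ b, a = b + 1 := ⟨a - 1, by omega⟩
      rw [show 2 ^ (b + 1) * s = 2 * (2 ^ b * s) by ring]
      omega
    have hrodd : r % 2 = 1 := by omega
    have hrz : (2 : ℤ) ^ a * (s : ℤ) = 3 * (r : ℤ) + 1 := by exact_mod_cast hr'
    have hadr : adm r w := by
      unfold adm
      refine ⟨z, ?_⟩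
      have h : (3 : ℤ) * (2 ^ w.sum * (r : ℤ) - (F w : ℤ)) = 3 * (3 ^ w.length * z) := by
        linear_combination hz - 2 ^ w.sum * hrz
      linarith
    obtain ⟨n, hn, hnd, hroot, hvw⟩ := ih hrodd hw' hadr
    have hvl : vl r = a := by
      unfold vl
      rw [← hr', padicValNat.mul (by positivity) (by omega), padicValNat.prime_pow]
      have : padicValNat 2 s = 0 := padicValNat.eq_zero_of_not_dvd (by omega)
      omega
    have hsyr : syr r = s := by
      have h := syr_mul r
      rw [hvl, ← hr'] at h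
      exact Nat.eq_of_mul_eq_mul_left (by positivity) h
    refine ⟨n, hn, ?_, ?_, ?_⟩
    · rw [← hnd]
      unfold nd
      simp only [List.length_cons, List.sum_cons, F]
      push_cast
      rw [pow_add, pow_succ]
      rw [show (2 : ℤ) ^ a * 2 ^ w.sum * (s : ℤ) - (2 ^ w.sum + 3 * (F w : ℤ))
        = (2 ^ w.sum * (r : ℤ) - (F w : ℤ)) * 3 by linear_combination 2 ^ w.sum * hrz]
      exact Int.mul_ediv_mul_of_pos_left _ _ (by norm_num)
    · simp only [List.length_cons, root, hroot, hsyr]
    · simp only [List.length_cons, vw, hroot, hvl, hvw]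

/-- the node is reached back: `n = nd s w` goes to `s` in `length + sum` steps -/
theorem nd_col {s n : ℕ} (hs : s % 2 = 1) {w : List ℕ} (hw : ∀ a ∈ w, 1 ≤ a) (had : adm s w)
    (hn : nd s w = n) : col^[w.length + w.sum] n = s := by
  obtain ⟨m, hm, hnd, hroot, hvw⟩ := vw_unique hs hw had
  have hmn : m = n := by
    rw [hn] at hnd
    exact_mod_cast hnd.symm
  subst hmn
  have h := vw_col w.length m hm
  rw [hvw, hroot] at h
  exact h

end Pool.Agent.Lib.MP_e43fce_nt_nat
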