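import Pool.Agent.Lib.MP_e43fce_nt_nat.Defs3

/-! KL3: indicator functions. -/

set_option autoImplicit false

namespace Pool.Agent.Lib.MP_e43fce_nt_nat

open Finset

/-- `pT N0 T n = 1` if the orbit of `n` stays above `N0` during `T` steps -/
noncomputable def pT (N0 T n : ℕ) : ℝ := by
  classical exact if ∀ k ≤ T, N0 < col^[k] n then 1 else 0

/-- `pL T n = 1` if `n` reaches `1` within `T` steps -/
noncomputable def pL (T n : ℕ) : ℝ := by
  classical exact if ∃ k ≤ T, col^[k] n = 1 then 1 else 0

/-- `E` is completely invariant on the positive integers -/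
def IsInv (E : Set ℕ) : Prop := ∀ n : ℕ, 0 < n → (n ∈ E ↔ col n ∈ E)

/-- indicator -/
noncomputable def ind (E : Set ℕ) (n : ℕ) : ℝ := by classical exact if n ∈ E then 1 else 0

end Pool.Agent.Lib.MP_e43fce_nt_nat
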