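import Pool.Agent.Lib.MP_e43fce_nt_nat.WB

/-! M: the weights `M_i`, the densities `D^i`. -/

set_option autoImplicit false

namespace Pool.Agent.Lib.MP_e43fce_nt_nat

open Finset

private theorem wt_nonneg' (w : List ℕ) : 0 ≤ wt w := by unfold wt; positivity

theorem MM_zero (s : ℤ) : MM 0 s = 1 := by
  simp [MM, words, adm, F, wt]

theorem MM_nonneg (i : ℕ) (s : ℤ) : 0 ≤ MM i s := by
  unfold MM
  refine Finset.sum_nonneg fun u _ => ?_
  split_ifs
  · exact wt_nonneg' u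
  · exact le_rfl

private theorem per_one : Per 0 (fun _ : ℤ => (1 : ℝ)) := fun _ _ => rfl

theorem MM_per (i : ℕ) : Per i (MM i) := by
  intro v z
  unfold MM
  refine Finset.sum_congr rfl fun u hu => ?_
  have hl : u.length = i := ((mem_words i i u).1 hu).1
  have h := node_per u 0 (fun _ => (1 : ℝ)) per_one v z
  simpa [hl] using h

private theorem av_one : Av 0 (fun _ : ℤ => (1 : ℝ)) = 1 := by
  simp [Av]

theorem MM_av (i : ℕ) : Av i (MM i) = mm i := by
  have h1 : MM i = fun s : ℤ => ∑ u ∈ words i i, if adm s u then wt u else 0 := by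
    funext s; rfl
  rw [h1, Av_sum i (words i i) (fun u s => if adm s u then wt u else 0)]
  have h2 : ∀ u ∈ words i i, Av i (fun s => if adm s u then wt u else 0) = pr u := by
    intro u hu
    have hl : u.length = i := ((mem_words i i u).1 hu).1
    have h := Av_node u 0 (fun _ => (1 : ℝ)) per_one
    rw [av_one, mul_one, add_zero, hl] at h
    simpa using h
  rw [Finset.sum_congr rfl h2, sum_pr]
  rfl

theorem mm_nonneg (i : ℕ) : 0 ≤ mm i := by
  unfold mm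
  apply pow_nonneg
  have : (1 : ℝ) / 2 ^ i ≤ 1 := by
    rw [div_le_one (by positivity)]
    exact one_le_pow₀ (by norm_num)
  linarith

theorem mm_le_one (i : ℕ) : mm i ≤ 1 := by
  unfold mm
  have h0 : (1 : ℝ) / 2 ^ i ≤ 1 := by
    rw [div_le_one (by positivity)]
    exact one_le_pow₀ (by norm_num)
  have h1 : (0 : ℝ) < 1 / 2 ^ i := by positivity
  exact pow_le_one₀ (by linarith) (by linarith)

theorem mm_ge (i : ℕ) : 1 - i / 2 ^ i ≤ mm i := by
  unfold mm
  have h0 : (1 : ℝ) / 2 ^ i ≤ 1 := by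
    rw [div_le_one (by positivity)]
    exact one_le_pow₀ (by norm_num)
  have h := one_add_mul_le_pow (a := -((1 : ℝ) / 2 ^ i)) (by linarith) i
  calc (1 : ℝ) - i / 2 ^ i = 1 + i * (-(1 / 2 ^ i)) := by ring
    _ ≤ (1 + -(1 / 2 ^ i)) ^ i := h
    _ = _ := by rw [← sub_eq_add_neg]

theorem MM_le (i : ℕ) (s : ℤ) : MM i s ≤ 3 ^ i := by
  have h1 : MM i s ≤ ∑ u ∈ words i i, 3 ^ i * pr u := by
    unfold MM
    refine Finset.sum_le_sum fun u hu => ?_
    have hl : u.length = i := ((mem_words i i u).1 hu).1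
    have hw : wt u = 3 ^ i * pr u := by unfold wt pr; rw [hl]; ring
    have hn : 0 ≤ pr u := by unfold pr; positivity
    split_ifs
    · exact hw.le
    · positivity
  rw [← Finset.mul_sum, sum_pr] at h1
  have h2 : (1 - 1 / 2 ^ i : ℝ) ^ i ≤ 1 := mm_le_one i
  calc MM i s ≤ 3 ^ i * (1 - 1 / 2 ^ i : ℝ) ^ i := h1
    _ ≤ 3 ^ i * 1 := by gcongr
    _ = 3 ^ i := mul_one _

theorem NN_nonneg {i : ℕ} {p : ℕ → ℝ} (hp : Unit01 p) (Y : ℝ) : 0 ≤ NN i p Y := by
  unfold NN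
  exact Finset.sum_nonneg fun n _ => mul_nonneg (hp n).1 (MM_nonneg i n)

theorem NN_mono {i : ℕ} {p q : ℕ → ℝ} (h : ∀ n, p n ≤ q n) (Y : ℝ) : NN i p Y ≤ NN i q Y := by
  unfold NN
  exact Finset.sum_le_sum fun n _ => mul_le_mul_of_nonneg_right (h n) (MM_nonneg i n)

theorem DD_nonneg {i : ℕ} {p : ℕ → ℝ} (hp : Unit01 p) (x : ℝ) : 0 ≤ DD i p x := by
  unfold DD
  exact div_nonneg (NN_nonneg hp _) (Real.exp_pos x).le

theorem DD_mono {i : ℕ} {p q : ℕ → ℝ} (h : ∀ n, p n ≤ q n) (x : ℝ) : DD i p x ≤ DD i q x := by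
  unfold DD
  exact div_le_div_of_nonneg_right (NN_mono h _) (Real.exp_pos x).le

private theorem unit_one : Unit01 (fun _ => (1 : ℝ)) := fun _ => ⟨zero_le_one, le_rfl⟩

private theorem NN_one_abs (i : ℕ) (Y : ℝ) (hY : 0 ≤ Y) :
    |NN i (fun _ => 1) Y - Y / 2 * mm i| ≤ 3 ^ i * mm i := by
  have h := odd_sum i (MM i) (MM_nonneg i) (MM_per i) Y hY
  rw [MM_av] at h
  simpa [NN] using h

/-- the total: `D^i_1(x) = m_i/2` up to `3^i/e^x` -/
theorem DD_one (i : ℕ) (x : ℝ) (hx : 0 ≤ x) :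
    |DD i (fun _ => 1) x - mm i / 2| ≤ 3 ^ i / Real.exp x := by
  have hE := Real.exp_pos x
  have h := NN_one_abs i (Real.exp x) hE.le
  have h1 : DD i (fun _ => 1) x - mm i / 2
      = (NN i (fun _ => 1) (Real.exp x) - Real.exp x / 2 * mm i) / Real.exp x := by
    unfold DD
    field_simp
  rw [h1, abs_div, abs_of_pos hE]
  refine div_le_div_of_nonneg_right (h.trans ?_) hE.le
  calc (3 : ℝ) ^ i * mm i ≤ 3 ^ i * 1 := by gcongr; exact mm_le_one i
    _ = 3 ^ i := mul_one _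

/-- `D^i_p <= 1` as soon as `2 * 3^i <= e^x` -/
theorem DD_le_one {i : ℕ} {p : ℕ → ℝ} (hp : Unit01 p) {x : ℝ} (hx : 2 * 3 ^ i ≤ Real.exp x) :
    DD i p x ≤ 1 := by
  have hE := Real.exp_pos x
  have h1 : DD i p x ≤ DD i (fun _ => 1) x := DD_mono (fun n => (hp n).2) x
  have h := abs_le.1 (NN_one_abs i (Real.exp x) hE.le)
  have h2 : NN i (fun _ => 1) (Real.exp x) ≤ Real.exp x := by
    have h3 := h.2
    have h4 : (3 : ℝ) ^ i * mm i ≤ Real.exp x / 2 * 1 := by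
      apply mul_le_mul (by linarith) (mm_le_one i) (mm_nonneg i) (by positivity)
    have h5 : Real.exp x / 2 * mm i ≤ Real.exp x / 2 * 1 := by
      gcongr; exact mm_le_one i
    linarith
  refine h1.trans ?_
  unfold DD
  rw [div_le_one hE]
  exact h2

private theorem NN_zero_eq (p : ℕ → ℝ) (Y : ℝ) : NN 0 p Y = ∑ n ∈ oddS Y, p n := by
  unfold NN
  refine Finset.sum_congr rfl fun n _ => ?_
  rw [MM_zero, mul_one]

/-- for `i = 0` the bound holds for all `x` -/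
theorem DD0_le_one {p : ℕ → ℝ} (hp : Unit01 p) (x : ℝ) : DD 0 p x ≤ 1 := by
  have hE := Real.exp_pos x
  unfold DD
  rw [div_le_one hE, NN_zero_eq]
  calc ∑ n ∈ oddS (Real.exp x), p n ≤ ∑ n ∈ oddS (Real.exp x), (1 : ℝ) :=
        Finset.sum_le_sum fun n _ => (hp n).2
    _ = ((oddS (Real.exp x)).card : ℝ) := by simp
    _ ≤ ((Icc 1 ⌊Real.exp x⌋₊).card : ℝ) := by
        exact_mod_cast Finset.card_le_card (Finset.filter_subset _ _)
    _ = (⌊Real.exp x⌋₊ : ℝ) := by simp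
    _ ≤ Real.exp x := Nat.floor_le hE.le

/-- `DD` of `1 - p` -/
theorem DD_compl (i : ℕ) (p : ℕ → ℝ) (x : ℝ) :
    DD i (fun n => 1 - p n) x = DD i (fun _ => 1) x - DD i p x := by
  unfold DD NN
  rw [← sub_div, ← Finset.sum_sub_distrib]
  congr 1
  exact Finset.sum_congr rfl fun n _ => by ring

/-- a point mass is negligible -/
theorem DD_point (i m : ℕ) (x : ℝ) :
    DD i (fun n => if n = m then 1 else 0) x ≤ 3 ^ i / Real.exp x := by
  have hE := Real.exp_pos x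
  unfold DD NN
  refine div_le_div_of_nonneg_right ?_ hE.le
  simp only [ite_mul, one_mul, zero_mul]
  rw [Finset.sum_ite_eq']
  split_ifs
  · exact MM_le i m
  · positivity

theorem DD_add (i : ℕ) (p q : ℕ → ℝ) (x : ℝ) :
    DD i (fun n => p n + q n) x = DD i p x + DD i q x := by
  unfold DD NN
  rw [← add_div, ← Finset.sum_add_distrib]
  congr 1
  exact Finset.sum_congr rfl fun n _ => by ring

/-- zero if `p` vanishes up to `e^x` -/
theorem DD_zero {i : ℕ} {p : ℕ → ℝ} {x : ℝ} (h : ∀ n : ℕ, (n : ℝ) ≤ Real.exp x → p n = 0) :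
    DD i p x = 0 := by
  unfold DD NN
  have : ∑ n ∈ oddS (Real.exp x), p n * MM i n = 0 := by
    refine Finset.sum_eq_zero fun n hn => ?_
    have h1 : n ≤ ⌊Real.exp x⌋₊ := by
      unfold oddS at hn
      exact (Finset.mem_Icc.1 (Finset.mem_filter.1 hn).1).2
    have h2 : (n : ℝ) ≤ Real.exp x := (Nat.le_floor_iff (Real.exp_pos x).le).1 h1
    rw [h n h2, zero_mul]
  rw [this, zero_div]

private theorem exp_mul_DD (i : ℕ) (p : ℕ → ℝ) (x : ℝ) :
    Real.exp x * DD i p x = NN i p (Real.exp x) := by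
  unfold DD
  field_simp

private theorem oddS_mono {Y Z : ℝ} (h : Y ≤ Z) : oddS Y ⊆ oddS Z := by
  unfold oddS
  apply Finset.filter_subset_filter
  exact Finset.Icc_subset_Icc le_rfl (Nat.floor_mono h)

/-- monotonicity and Lipschitz bound of the counting function (used for `Ren`) -/
theorem DD0_mono {p : ℕ → ℝ} (hp : Unit01 p) (x t : ℝ) (ht : 0 ≤ t) :
    Real.exp x * DD 0 p x ≤ Real.exp (x + t) * DD 0 p (x + t) := by
  rw [exp_mul_DD, exp_mul_DD, NN_zero_eq, NN_zero_eq]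
  exact Finset.sum_le_sum_of_subset_of_nonneg
    (oddS_mono (Real.exp_le_exp.2 (by linarith))) (fun n _ _ => (hp n).1)

theorem DD0_lip {p : ℕ → ℝ} (hp : Unit01 p) (x t : ℝ) (ht : 0 ≤ t) :
    Real.exp (x + t) * DD 0 p (x + t)
      ≤ Real.exp x * DD 0 p x + (Real.exp (x + t) - Real.exp x) + 1 := by
  rw [exp_mul_DD, exp_mul_DD, NN_zero_eq, NN_zero_eq]
  have hle : Real.exp x ≤ Real.exp (x + t) := Real.exp_le_exp.2 (by linarith)
  have hsub := oddS_mono hle
  rw [← Finset.sum_sdiff hsub]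
  have h1 : ∑ n ∈ oddS (Real.exp (x + t)) \ oddS (Real.exp x), p n
      ≤ ((oddS (Real.exp (x + t)) \ oddS (Real.exp x)).card : ℝ) := by
    calc _ ≤ ∑ n ∈ oddS (Real.exp (x + t)) \ oddS (Real.exp x), (1 : ℝ) :=
          Finset.sum_le_sum fun n _ => (hp n).2
      _ = _ := by simp
  have h2 : oddS (Real.exp (x + t)) \ oddS (Real.exp x)
      ⊆ Ioc ⌊Real.exp x⌋₊ ⌊Real.exp (x + t)⌋₊ := by
    intro n hn
    unfold oddS at hn
    simp only [Finset.mem_sdiff, Finset.mem_filter, Finset.mem_Icc, Finset.mem_Ioc] at hn ⊢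
    constructor
    · by_contra hcon
      exact hn.2 ⟨⟨hn.1.1.1, by omega⟩, hn.1.2⟩
    · exact hn.1.1.2
  have h3 : ((oddS (Real.exp (x + t)) \ oddS (Real.exp x)).card : ℝ)
      ≤ (⌊Real.exp (x + t)⌋₊ : ℝ) - ⌊Real.exp x⌋₊ := by
    have h4 := Finset.card_le_card h2
    rw [Nat.card_Ioc] at h4
    have h5 : ⌊Real.exp x⌋₊ ≤ ⌊Real.exp (x + t)⌋₊ := Nat.floor_mono hle
    calc _ ≤ ((⌊Real.exp (x + t)⌋₊ - ⌊Real.exp x⌋₊ : ℕ) : ℝ) := by exact_mod_cast h4
      _ = _ := by rw [Nat.cast_sub h5]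
  have h6 : (⌊Real.exp (x + t)⌋₊ : ℝ) ≤ Real.exp (x + t) := Nat.floor_le (Real.exp_pos _).le
  have h7 : Real.exp x < ⌊Real.exp x⌋₊ + 1 := Nat.lt_floor_add_one _
  linarith

end Pool.Agent.Lib.MP_e43fce_nt_nat
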