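import Pool.Agent.Lib.MP_e43fce_nt_nat.Rho

set_option autoImplicit false

namespace Pool.Agent.Lib.MP_e43fce_nt_nat

open Finset

theorem rho_nonneg (K A : ℕ) : 0 ≤ rho K A := by
  unfold rho
  split_ifs <;> positivity

theorem rho_zero_zero : rho 0 0 = 1 := by simp [rho]

theorem rho_zero_succ (A : ℕ) : rho 0 (A + 1) = 0 := by simp [rho]

theorem rho_succ_zero (K : ℕ) : rho (K + 1) 0 = 0 := by simp [rho]

theorem rho_pos_zero {K : ℕ} (hK : 1 ≤ K) : rho K 0 = 0 := by
  obtain ⟨k, rfl⟩ := Nat.exists_eq_add_of_le' hK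
  exact rho_succ_zero k

theorem rho_half (K A : ℕ) : rho (K + 1) (A + 1) = (rho (K + 1) A + rho K A) / 2 := by
  rcases K with _ | K
  · rcases A with _ | A
    · simp [rho]
    · simp [rho, pow_succ]
      ring
  · rcases A with _ | A
    · simp [rho]
    · have h := Nat.choose_succ_succ A K
      simp only [rho, Nat.add_eq_zero_iff, one_ne_zero, and_false, if_false, Nat.add_sub_cancel]
      rw [h]
      push_cast
      rw [pow_succ (2 : ℝ) (A + 1)]
      field_simp
      ring

theorem rho_conv (K J A : ℕ) :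
    rho (K + J) A = ∑ a ∈ range (A + 1), rho K a * rho J (A - a) := by
  induction K generalizing A with
  | zero =>
    rw [Finset.sum_range_succ']
    have : ∑ k ∈ range A, rho 0 (k + 1) * rho J (A - (k + 1)) = 0 := by
      apply Finset.sum_eq_zero
      intro k _
      rw [rho_zero_succ, zero_mul]
    rw [this, rho_zero_zero]
    simp
  | succ K ihK =>
    induction A with
    | zero =>
      rw [show K + 1 + J = (K + J) + 1 by ring, rho_succ_zero]
      simp [rho_succ_zero]
    | succ A ihA =>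
      rw [Finset.sum_range_succ', rho_succ_zero, zero_mul, add_zero]
      have h1 : ∀ a ∈ range (A + 1), rho (K + 1) (a + 1) * rho J (A + 1 - (a + 1)) =
          (rho (K + 1) a * rho J (A - a) + rho K a * rho J (A - a)) / 2 := by
        intro a _
        rw [rho_half, Nat.add_sub_add_right]
        ring
      rw [Finset.sum_congr rfl h1, ← Finset.sum_div, Finset.sum_add_distrib, ← ihA, ← ihK A,
        show K + 1 + J = (K + J) + 1 by ring, rho_half]

theorem rho_sum_half (K N : ℕ) : ∑ A ∈ range (N + 1), rho (K + 1) A =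
    (∑ A ∈ range N, rho (K + 1) A + ∑ A ∈ range N, rho K A) / 2 := by
  rw [Finset.sum_range_succ', rho_succ_zero, add_zero, ← Finset.sum_add_distrib, Finset.sum_div]
  exact Finset.sum_congr rfl (fun A _ => rho_half K A)

theorem rho_sum_le (K N : ℕ) : ∑ A ∈ range N, rho K A ≤ 1 := by
  induction K generalizing N with
  | zero =>
    rcases N with _ | N
    · simp
    · rw [Finset.sum_range_succ', rho_zero_zero]
      have : ∑ k ∈ range N, rho 0 (k + 1) = 0 :=
        Finset.sum_eq_zero (fun k _ => rho_zero_succ k)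
      rw [this]
      norm_num
  | succ K ihK =>
    induction N with
    | zero => simp
    | succ N ihN =>
      rw [rho_sum_half]
      have := ihK N
      linarith

theorem rho_sum_mono (K : ℕ) : Monotone (fun N => ∑ A ∈ range N, rho K A) := by
  apply monotone_nat_of_le_succ
  intro N
  rw [Finset.sum_range_succ]
  have := rho_nonneg K N
  linarith

theorem rho_sum_tendsto (K : ℕ) :
    Filter.Tendsto (fun N => ∑ A ∈ range N, rho K A) Filter.atTop (nhds 1) := by
  induction K with
  | zero =>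
    apply tendsto_const_nhds.congr'
    filter_upwards [Filter.eventually_ge_atTop 1] with N hN
    obtain ⟨n, rfl⟩ := Nat.exists_eq_add_of_le' hN
    rw [Finset.sum_range_succ', rho_zero_zero]
    have : ∑ k ∈ range n, rho 0 (k + 1) = 0 :=
      Finset.sum_eq_zero (fun k _ => rho_zero_succ k)
    rw [this]
    norm_num
  | succ K ih =>
    have hb : BddAbove (Set.range (fun N => ∑ A ∈ range N, rho (K + 1) A)) :=
      ⟨1, by rintro _ ⟨N, rfl⟩; exact rho_sum_le _ N⟩
    have h1 := tendsto_atTop_ciSup (rho_sum_mono (K + 1)) hb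
    set s := ⨆ N, ∑ A ∈ range N, rho (K + 1) A with hs
    have h2 : Filter.Tendsto (fun N => ∑ A ∈ range (N + 1), rho (K + 1) A) Filter.atTop (nhds s) :=
      h1.comp (Filter.tendsto_add_atTop_nat 1)
    have h3 : Filter.Tendsto (fun N => (∑ A ∈ range N, rho (K + 1) A +
        ∑ A ∈ range N, rho K A) / 2) Filter.atTop (nhds ((s + 1) / 2)) :=
      (h1.add ih).div_const 2
    have h4 : (fun N => ∑ A ∈ range (N + 1), rho (K + 1) A) =
        (fun N => (∑ A ∈ range N, rho (K + 1) A + ∑ A ∈ range N, rho K A) / 2) :=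
      funext (rho_sum_half K)
    rw [h4] at h2
    have h5 := tendsto_nhds_unique h2 h3
    have h6 : s = 1 := by linarith
    rw [h6] at h1
    exact h1

/-- generating function -/
theorem rho_gen {z : ℝ} (hz0 : 0 ≤ z) (hz2 : z < 2) (K N : ℕ) :
    ∑ A ∈ range N, rho K A * z ^ A ≤ (z / (2 - z)) ^ K := by
  have h2z : 0 < 2 - z := by linarith
  induction K generalizing N with
  | zero =>
    rcases N with _ | N
    · simp
    · rw [Finset.sum_range_succ', rho_zero_zero]
      have : ∑ k ∈ range N, rho 0 (k + 1) * z ^ (k + 1) = 0 :=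
        Finset.sum_eq_zero (fun k _ => by rw [rho_zero_succ, zero_mul])
      rw [this]
      norm_num
  | succ K ihK =>
    have hpos : 0 ≤ (z / (2 - z)) ^ (K + 1) := by positivity
    induction N with
    | zero => simpa using hpos
    | succ N ihN =>
      rw [Finset.sum_range_succ', rho_succ_zero, zero_mul, add_zero]
      have h1 : ∀ A ∈ range N, rho (K + 1) (A + 1) * z ^ (A + 1) =
          (rho (K + 1) A * z ^ A + rho K A * z ^ A) * (z / 2) := by
        intro A _
        rw [rho_half, pow_succ]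
        ring
      rw [Finset.sum_congr rfl h1, ← Finset.sum_mul, Finset.sum_add_distrib]
      have h3 := ihK N
      calc _ ≤ ((z / (2 - z)) ^ (K + 1) + (z / (2 - z)) ^ K) * (z / 2) := by
            apply mul_le_mul_of_nonneg_right _ (by linarith)
            linarith
        _ = (z / (2 - z)) ^ (K + 1) := by
            rw [pow_succ]
            field_simp
            ring

theorem lower_aux {s : ℝ} (h0 : 0 ≤ s) (h1 : s ≤ 1 / 2) :
    Real.exp (s - s ^ 2) + Real.exp (-s) ≤ 2 := by
  have hmono : AntitoneOn (fun s : ℝ => Real.exp (s - s ^ 2) + Real.exp (-s)) (Set.Icc 0 (1 / 2)) := by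
    apply antitoneOn_of_deriv_nonpos (convex_Icc _ _)
    · fun_prop
    · fun_prop
    · intro x hx
      rw [interior_Icc, Set.mem_Ioo] at hx
      have hd : HasDerivAt (fun s : ℝ => Real.exp (s - s ^ 2) + Real.exp (-s))
          (Real.exp (x - x ^ 2) * (1 - 2 * x) + Real.exp (-x) * (-1)) x := by
        have ha : HasDerivAt (fun s : ℝ => s - s ^ 2) (1 - 2 * x) x := by
          simpa using (hasDerivAt_id' x).fun_sub (hasDerivAt_pow 2 x)
        exact ha.exp.add ((hasDerivAt_neg x).exp)
      rw [hd.deriv]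
      have h3 : 1 - 2 * x ≤ Real.exp (-(2 * x)) := by
        have := Real.add_one_le_exp (-(2 * x))
        linarith
      have h4 : Real.exp (x - x ^ 2) * (1 - 2 * x) ≤ Real.exp (-x) := by
        calc _ ≤ Real.exp (x - x ^ 2) * Real.exp (-(2 * x)) :=
              mul_le_mul_of_nonneg_left h3 (Real.exp_pos _).le
          _ = Real.exp (-x - x ^ 2) := by rw [← Real.exp_add]; congr 1; ring
          _ ≤ Real.exp (-x) := Real.exp_le_exp.mpr (by nlinarith)
      linarith
  have := hmono (Set.left_mem_Icc.mpr (by norm_num)) (Set.mem_Icc.mpr ⟨h0, h1⟩) h0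
  simp only at this
  norm_num at this
  linarith

theorem upper_aux {s : ℝ} (h0 : 0 ≤ s) (h1 : s ≤ 1 / 4) :
    Real.exp s + Real.exp (-s - 5 / 2 * s ^ 2) ≤ 2 := by
  have hmono : AntitoneOn (fun s : ℝ => Real.exp s + Real.exp (-s - 5 / 2 * s ^ 2))
      (Set.Icc 0 (1 / 4)) := by
    apply antitoneOn_of_deriv_nonpos (convex_Icc _ _)
    · fun_prop
    · fun_prop
    · intro x hx
      rw [interior_Icc, Set.mem_Ioo] at hx
      obtain ⟨hx0, hx1⟩ := hx
      have hd : HasDerivAt (fun s : ℝ => Real.exp s + Real.exp (-s - 5 / 2 * s ^ 2))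
          (Real.exp x + Real.exp (-x - 5 / 2 * x ^ 2) * (-1 - 5 / 2 * (2 * x))) x := by
        have ha : HasDerivAt (fun s : ℝ => -s - 5 / 2 * s ^ 2) (-1 - 5 / 2 * (2 * x)) x := by
          have := (hasDerivAt_neg' x).fun_sub ((hasDerivAt_pow 2 x).const_mul (5 / 2))
          simpa using this
        exact (Real.hasDerivAt_exp x).add ha.exp
      rw [hd.deriv]
      have h3 : Real.exp (2 * x + 5 / 2 * x ^ 2) ≤ 1 + 5 * x := by
        have hy : |2 * x + 5 / 2 * x ^ 2| ≤ 1 := by
          rw [abs_of_nonneg (by positivity)]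
          nlinarith
        have := (abs_le.mp (Real.abs_exp_sub_one_sub_id_le hy)).2
        have h8 : 2 * x + 5 / 2 * x ^ 2 ≤ 21 / 8 * x := by nlinarith
        have h9 : (2 * x + 5 / 2 * x ^ 2) ^ 2 ≤ (21 / 8 * x) ^ 2 :=
          pow_le_pow_left₀ (by positivity) h8 2
        nlinarith
      have h4 : Real.exp x ≤ Real.exp (-x - 5 / 2 * x ^ 2) * (1 + 5 * x) := by
        calc Real.exp x = Real.exp (-x - 5 / 2 * x ^ 2) * Real.exp (2 * x + 5 / 2 * x ^ 2) := by
              rw [← Real.exp_add]; congr 1; ring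
          _ ≤ _ := mul_le_mul_of_nonneg_left h3 (Real.exp_pos _).le
      nlinarith
  have := hmono (Set.left_mem_Icc.mpr (by norm_num)) (Set.mem_Icc.mpr ⟨h0, h1⟩) h0
  simp only at this
  norm_num at this
  linarith

/-- Chernoff, lower tail -/
theorem rho_lower {e : ℝ} (h0 : 0 < e) (h1 : e ≤ 1) (K N : ℕ) :
    ∑ A ∈ (range N).filter (fun A : ℕ => (A : ℝ) ≤ (2 - e) * K), rho K A
      ≤ Real.exp (-(e ^ 2 * K / 4)) := by
  set s : ℝ := e / 2 with hs
  set z : ℝ := Real.exp (-s) with hz
  have hz0 : 0 < z := Real.exp_pos _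
  have hz1 : z < 2 := by
    have : z ≤ 1 := Real.exp_le_one_iff.mpr (by rw [hs]; linarith)
    linarith
  have h2 := rho_gen hz0.le hz1 K N
  have h3 : ∑ A ∈ (range N).filter (fun A : ℕ => (A : ℝ) ≤ (2 - e) * K), rho K A ≤
      Real.exp (s * ((2 - e) * K)) * ∑ A ∈ range N, rho K A * z ^ A := by
    rw [Finset.mul_sum]
    calc _ ≤ ∑ A ∈ (range N).filter (fun A : ℕ => (A : ℝ) ≤ (2 - e) * K),
          Real.exp (s * ((2 - e) * K)) * (rho K A * z ^ A) := by
          apply Finset.sum_le_sum
          intro A hA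
          rw [Finset.mem_filter] at hA
          have e1 : Real.exp (s * ((2 - e) * K)) * (rho K A * z ^ A) =
              rho K A * Real.exp (s * ((2 - e) * K - A)) := by
            rw [hz, ← Real.exp_nat_mul]
            rw [show s * ((2 - e) * K - A) = s * ((2 - e) * K) + A * (-s) by ring, Real.exp_add]
            ring
          rw [e1]
          have e2 : (1 : ℝ) ≤ Real.exp (s * ((2 - e) * K - A)) := by
            rw [Real.one_le_exp_iff]
            apply mul_nonneg (by rw [hs]; linarith)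
            linarith [hA.2]
          have := rho_nonneg K A
          nlinarith
      _ ≤ _ := by
          apply Finset.sum_le_sum_of_subset_of_nonneg (Finset.filter_subset _ _)
          intro A _ _
          have := rho_nonneg K A
          positivity
  refine h3.trans ?_
  have h4 : Real.exp (s * ((2 - e) * K)) * ∑ A ∈ range N, rho K A * z ^ A ≤
      Real.exp (s * ((2 - e) * K)) * (z / (2 - z)) ^ K :=
    mul_le_mul_of_nonneg_left h2 (Real.exp_pos _).le
  refine h4.trans ?_
  have e3 : Real.exp (s * ((2 - e) * K)) = (Real.exp (s * (2 - e))) ^ K := by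
    rw [← Real.exp_nat_mul]; congr 1; ring
  have e4 : Real.exp (-(e ^ 2 * K / 4)) = (Real.exp (-(e ^ 2 / 4))) ^ K := by
    rw [← Real.exp_nat_mul]; congr 1; ring
  rw [e3, e4, ← mul_pow]
  apply pow_le_pow_left₀ (by have : 0 < 2 - z := by linarith
                             positivity)
  have h2z : 0 < 2 - z := by linarith
  rw [← mul_div_assoc, div_le_iff₀ h2z]
  have h5 := lower_aux (s := s) (by rw [hs]; linarith) (by rw [hs]; linarith)
  have h6 : Real.exp (s - s ^ 2) ≤ 2 - z := by rw [hz]; linarith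
  calc Real.exp (s * (2 - e)) * z = Real.exp (-(e ^ 2 / 4)) * Real.exp (s - s ^ 2) := by
        rw [hz, ← Real.exp_add, ← Real.exp_add, hs]
        congr 1
        ring
    _ ≤ _ := mul_le_mul_of_nonneg_left h6 (Real.exp_pos _).le

/-- Chernoff, upper tail -/
theorem rho_upper {e : ℝ} (h0 : 0 < e) (h1 : e ≤ 1) (K N : ℕ) :
    ∑ A ∈ (range N).filter (fun A : ℕ => (2 + e) * K ≤ (A : ℝ)), rho K A
      ≤ Real.exp (-(e ^ 2 * K / 11)) := by
  set s : ℝ := e / 4 with hs
  set z : ℝ := Real.exp s with hz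
  have hz0 : 0 < z := Real.exp_pos _
  have hs0 : 0 ≤ s := by rw [hs]; linarith
  have hs1 : s ≤ 1 / 4 := by rw [hs]; linarith
  have h5 := upper_aux hs0 hs1
  have h6 : Real.exp (-s - 5 / 2 * s ^ 2) ≤ 2 - z := by rw [hz]; linarith
  have h2z : 0 < 2 - z := lt_of_lt_of_le (Real.exp_pos _) h6
  have hz1 : z < 2 := by linarith
  have h2 := rho_gen hz0.le hz1 K N
  have h3 : ∑ A ∈ (range N).filter (fun A : ℕ => (2 + e) * K ≤ (A : ℝ)), rho K A ≤
      Real.exp (-(s * ((2 + e) * K))) * ∑ A ∈ range N, rho K A * z ^ A := by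
    rw [Finset.mul_sum]
    calc _ ≤ ∑ A ∈ (range N).filter (fun A : ℕ => (2 + e) * K ≤ (A : ℝ)),
          Real.exp (-(s * ((2 + e) * K))) * (rho K A * z ^ A) := by
          apply Finset.sum_le_sum
          intro A hA
          rw [Finset.mem_filter] at hA
          have e1 : Real.exp (-(s * ((2 + e) * K))) * (rho K A * z ^ A) =
              rho K A * Real.exp (s * (A - (2 + e) * K)) := by
            rw [hz, ← Real.exp_nat_mul]
            rw [show s * (A - (2 + e) * K) = -(s * ((2 + e) * K)) + A * s by ring, Real.exp_add]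
            ring
          rw [e1]
          have e2 : (1 : ℝ) ≤ Real.exp (s * (A - (2 + e) * K)) := by
            rw [Real.one_le_exp_iff]
            apply mul_nonneg hs0
            linarith [hA.2]
          have := rho_nonneg K A
          nlinarith
      _ ≤ _ := by
          apply Finset.sum_le_sum_of_subset_of_nonneg (Finset.filter_subset _ _)
          intro A _ _
          have := rho_nonneg K A
          positivity
  refine h3.trans ?_
  have h4 : Real.exp (-(s * ((2 + e) * K))) * ∑ A ∈ range N, rho K A * z ^ A ≤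
      Real.exp (-(s * ((2 + e) * K))) * (z / (2 - z)) ^ K :=
    mul_le_mul_of_nonneg_left h2 (Real.exp_pos _).le
  refine h4.trans ?_
  have e3 : Real.exp (-(s * ((2 + e) * K))) = (Real.exp (-(s * (2 + e)))) ^ K := by
    rw [← Real.exp_nat_mul]; congr 1; ring
  have e4 : Real.exp (-(e ^ 2 * K / 11)) = (Real.exp (-(e ^ 2 / 11))) ^ K := by
    rw [← Real.exp_nat_mul]; congr 1; ring
  rw [e3, e4, ← mul_pow]
  apply pow_le_pow_left₀ (by positivity)
  rw [← mul_div_assoc, div_le_iff₀ h2z]
  calc Real.exp (-(s * (2 + e))) * z ≤ Real.exp (-(e ^ 2 / 11)) * Real.exp (-s - 5 / 2 * s ^ 2) := by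
        rw [hz, ← Real.exp_add, ← Real.exp_add, hs]
        apply Real.exp_le_exp.mpr
        nlinarith [sq_nonneg e]
    _ ≤ _ := mul_le_mul_of_nonneg_left h6 (Real.exp_pos _).le

/-- total mass: sum over A < N, N >= 3K -/
theorem rho_total {K N : ℕ} (hN : 3 * K ≤ N) :
    1 - 2 * Real.exp (-(K / 11 : ℝ)) ≤ ∑ A ∈ range N, rho K A := by
  have h1 : ∀ M : ℕ, ∑ A ∈ range M, rho K A ≤
      ∑ A ∈ range N, rho K A + Real.exp (-(K / 11 : ℝ)) := by
    intro M
    have h2 := rho_upper (e := 1) one_pos le_rfl K M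
    have h3 : ∑ A ∈ range M, rho K A = ∑ A ∈ (range M).filter (fun A : ℕ => (2 + (1:ℝ)) * K ≤ (A : ℝ)), rho K A
        + ∑ A ∈ (range M).filter (fun A : ℕ => ¬ (2 + (1:ℝ)) * K ≤ (A : ℝ)), rho K A :=
      (Finset.sum_filter_add_sum_filter_not _ _ _).symm
    have h4 : ∑ A ∈ (range M).filter (fun A : ℕ => ¬ (2 + (1:ℝ)) * K ≤ (A : ℝ)), rho K A ≤
        ∑ A ∈ range N, rho K A := by
      apply Finset.sum_le_sum_of_subset_of_nonneg
      · intro A hA
        rw [Finset.mem_filter, not_le] at hA
        rw [Finset.mem_range]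
        have h5 : (A : ℝ) < ((3 * K : ℕ) : ℝ) := by push_cast; linarith [hA.2]
        have h6 : A < 3 * K := by exact_mod_cast h5
        omega
      · intro A _ _
        exact rho_nonneg K A
    have h7 : Real.exp (-((1:ℝ) ^ 2 * K / 11)) = Real.exp (-(K / 11 : ℝ)) := by congr 1; ring
    rw [h7] at h2
    calc _ = _ := h3
      _ ≤ Real.exp (-(K / 11 : ℝ)) + ∑ A ∈ range N, rho K A := add_le_add h2 h4
      _ = _ := add_comm _ _
  have h8 := le_of_tendsto (rho_sum_tendsto K) (Filter.Eventually.of_forall h1)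
  have := Real.exp_pos (-(K / 11 : ℝ))
  linarith

theorem rho_mul_self (K A : ℕ) : rho K A * A = 2 * K * rho (K + 1) (A + 1) := by
  rcases K with _ | K
  · rcases A with _ | A
    · simp
    · simp [rho]
  · rcases A with _ | A
    · simp [rho]
    · have h : (A + 1) * A.choose K = (A + 1).choose (K + 1) * (K + 1) :=
        Nat.add_one_mul_choose_eq A K
      have h' : ((A : ℝ) + 1) * (A.choose K : ℝ) = ((A + 1).choose (K + 1) : ℝ) * (K + 1) := by
        exact_mod_cast h
      simp only [rho, Nat.add_eq_zero_iff, one_ne_zero, and_false, if_false, Nat.add_sub_cancel]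
      push_cast
      rw [pow_succ (2 : ℝ) (A + 1)]
      field_simp
      linarith

theorem rho_var_eq (K N : ℕ) : ∑ A ∈ range N, rho K A * ((A : ℝ) - 2 * (K : ℝ)) ^ 2 =
    4 * K * (K + 1) * ∑ A ∈ range N, rho (K + 2) (A + 2) -
      (4 * K + 1) * (2 * K) * ∑ A ∈ range N, rho (K + 1) (A + 1) +
      4 * K ^ 2 * ∑ A ∈ range N, rho K A := by
  rw [Finset.mul_sum, Finset.mul_sum, Finset.mul_sum, ← Finset.sum_sub_distrib,
    ← Finset.sum_add_distrib]
  apply Finset.sum_congr rfl
  intro A _
  have h1 := rho_mul_self K A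
  have h2 := rho_mul_self (K + 1) (A + 1)
  push_cast at h2
  have h3 : rho K A * ((A : ℝ) - 2 * K) ^ 2 = (rho K A * A) * (A + 1) -
      (4 * K + 1) * (rho K A * A) + 4 * K ^ 2 * rho K A := by ring
  rw [h3, h1]
  have h4 : 2 * (K : ℝ) * rho (K + 1) (A + 1) * (A + 1) =
      4 * K * (K + 1) * rho (K + 2) (A + 2) := by
    have : rho (K + 1) (A + 1) * ((A : ℝ) + 1) = 2 * (K + 1) * rho (K + 2) (A + 2) := h2
    linear_combination (2 * (K : ℝ)) * this
  rw [h4]
  ring

/-- variance -/
theorem rho_var (K N : ℕ) : ∑ A ∈ range N, rho K A * ((A : ℝ) - 2 * (K : ℝ)) ^ 2 ≤ 2 * (K : ℝ) := by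
  have hmono : Monotone (fun N => ∑ A ∈ range N, rho K A * ((A : ℝ) - 2 * (K : ℝ)) ^ 2) := by
    apply monotone_nat_of_le_succ
    intro N
    rw [Finset.sum_range_succ]
    have := mul_nonneg (rho_nonneg K N) (sq_nonneg ((N : ℝ) - 2 * (K : ℝ)))
    linarith
  have h1 : ∀ (K j : ℕ), Filter.Tendsto (fun N => ∑ A ∈ range N, rho (K + j) (A + j))
      Filter.atTop (nhds 1) := by
    intro K j
    have h2 := (rho_sum_tendsto (K + j)).comp (Filter.tendsto_add_atTop_nat j)
    have h3 : (fun N => ∑ A ∈ range N, rho (K + j) (A + j)) =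
        (fun N => ∑ A ∈ range N, rho (K + j) A) ∘ fun n => n + j := by
      funext N
      simp only [Function.comp]
      rw [add_comm N j, Finset.sum_range_add]
      have : ∑ x ∈ range j, rho (K + j) x = 0 := by
        apply Finset.sum_eq_zero
        intro x hx
        rw [Finset.mem_range] at hx
        unfold rho
        rw [if_neg (by omega)]
        split_ifs with h
        · rfl
        · rw [Nat.choose_eq_zero_of_lt (by omega)]
          simp
      rw [this, zero_add]
      exact Finset.sum_congr rfl (fun x _ => by rw [add_comm x j])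
    rw [h3]
    exact h2
  have h4 : Filter.Tendsto (fun N => ∑ A ∈ range N, rho K A * ((A : ℝ) - 2 * (K : ℝ)) ^ 2)
      Filter.atTop (nhds (2 * (K : ℝ))) := by
    have h5 := (((h1 K 2).const_mul (4 * (K : ℝ) * (K + 1))).sub
      ((h1 K 1).const_mul ((4 * (K : ℝ) + 1) * (2 * K)))).add
      ((rho_sum_tendsto K).const_mul (4 * (K : ℝ) ^ 2))
    have h6 : 4 * (K : ℝ) * (K + 1) * 1 - (4 * (K : ℝ) + 1) * (2 * K) * 1 + 4 * (K : ℝ) ^ 2 * 1 =
        2 * (K : ℝ) := by ring
    rw [h6] at h5
    refine h5.congr (fun N => ?_)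
    rw [rho_var_eq]
  exact hmono.ge_of_tendsto h4 N

theorem rho_abs (K N : ℕ) : ∑ A ∈ range N, rho K A * |(A : ℝ) - 2 * (K : ℝ)| ≤ Real.sqrt (2 * (K : ℝ)) := by
  rcases Nat.eq_zero_or_pos K with h | h
  · subst h
    have : ∑ A ∈ range N, rho 0 A * |(A : ℝ) - 2 * ((0 : ℕ) : ℝ)| = 0 := by
      apply Finset.sum_eq_zero
      intro A _
      rcases A with _ | A
      · simp
      · rw [rho_zero_succ, zero_mul]
    rw [this]
    exact Real.sqrt_nonneg _
  · set t := Real.sqrt (2 * (K : ℝ)) with ht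
    have hK : (0 : ℝ) < K := by exact_mod_cast h
    have ht0 : 0 < t := Real.sqrt_pos.mpr (by positivity)
    have ht2 : t ^ 2 = 2 * K := Real.sq_sqrt (by positivity)
    have h1 : ∀ A ∈ range N, rho K A * |(A : ℝ) - 2 * (K : ℝ)| ≤
        (t / 2) * rho K A + (1 / (2 * t)) * (rho K A * ((A : ℝ) - 2 * (K : ℝ)) ^ 2) := by
      intro A _
      have h2 : |(A : ℝ) - 2 * (K : ℝ)| ≤ t / 2 + (1 / (2 * t)) * ((A : ℝ) - 2 * (K : ℝ)) ^ 2 := by
        rw [← sq_abs ((A : ℝ) - 2 * (K : ℝ))]
        set y := |(A : ℝ) - 2 * (K : ℝ)|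
        have : t / 2 + 1 / (2 * t) * y ^ 2 - y = (t - y) ^ 2 / (2 * t) := by
          field_simp
          ring
        have h3 : 0 ≤ (t - y) ^ 2 / (2 * t) := by positivity
        linarith
      have := mul_le_mul_of_nonneg_left h2 (rho_nonneg K A)
      linarith
    refine (Finset.sum_le_sum h1).trans ?_
    rw [Finset.sum_add_distrib, ← Finset.mul_sum, ← Finset.mul_sum]
    have h4 := rho_sum_le K N
    have h5 := rho_var K N
    have h6 : (t / 2) * ∑ A ∈ range N, rho K A ≤ t / 2 * 1 :=
      mul_le_mul_of_nonneg_left h4 (by positivity)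
    have h7 : (1 / (2 * t)) * ∑ A ∈ range N, rho K A * ((A : ℝ) - 2 * (K : ℝ)) ^ 2 ≤
        (1 / (2 * t)) * (2 * K) := mul_le_mul_of_nonneg_left h5 (by positivity)
    have h8 : (1 / (2 * t)) * (2 * (K : ℝ)) = t / 2 := by
      rw [← ht2]; field_simp
    linarith

theorem centralBinom_sq (n : ℕ) : (Nat.centralBinom n) ^ 2 * (2 * n + 1) ≤ 16 ^ n := by
  induction n with
  | zero => simp
  | succ n ih =>
    have h := Nat.succ_mul_centralBinom_succ n
    have h1 : (n + 1) ^ 2 * ((Nat.centralBinom (n + 1)) ^ 2 * (2 * (n + 1) + 1)) ≤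
        (n + 1) ^ 2 * 16 ^ (n + 1) := by
      calc (n + 1) ^ 2 * ((Nat.centralBinom (n + 1)) ^ 2 * (2 * (n + 1) + 1))
          = ((n + 1) * Nat.centralBinom (n + 1)) ^ 2 * (2 * n + 3) := by ring
        _ = (2 * (2 * n + 1) * Nat.centralBinom n) ^ 2 * (2 * n + 3) := by rw [h]
        _ = 4 * (2 * n + 1) * (2 * n + 3) * ((Nat.centralBinom n) ^ 2 * (2 * n + 1)) := by ring
        _ ≤ 4 * (2 * n + 1) * (2 * n + 3) * 16 ^ n := Nat.mul_le_mul_left _ ih
        _ ≤ (16 * (n + 1) ^ 2) * 16 ^ n := by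
            apply Nat.mul_le_mul_right
            nlinarith
        _ = _ := by ring
    exact Nat.le_of_mul_le_mul_left h1 (by positivity)

theorem rho_peak {K : ℕ} (hK : 1 ≤ K) : rho K (2 * K - 1) ≤ 1 / Real.sqrt K := by
  obtain ⟨k, rfl⟩ := Nat.exists_eq_add_of_le' hK
  have e1 : rho (k + 1) (2 * (k + 1) - 1) = (Nat.centralBinom k : ℝ) / 2 ^ (2 * k + 1) := by
    unfold rho
    rw [if_neg (by omega), if_neg (by omega), Nat.centralBinom_eq_two_mul_choose]
    congr 3
  rw [e1]
  have h1 : ((Nat.centralBinom k : ℝ)) ^ 2 * (2 * k + 1) ≤ 16 ^ k := by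
    exact_mod_cast centralBinom_sq k
  have hs : 0 < Real.sqrt ((k + 1 : ℕ) : ℝ) := Real.sqrt_pos.mpr (by positivity)
  rw [div_le_div_iff₀ (by positivity) hs, one_mul]
  apply le_of_sq_le_sq _ (by positivity)
  rw [mul_pow, Real.sq_sqrt (by positivity)]
  have e2 : ((2 : ℝ) ^ (2 * k + 1)) ^ 2 = 4 * 16 ^ k := by
    rw [← pow_mul, show (2 * k + 1) * 2 = 4 * k + 2 by ring, pow_add, pow_mul]
    norm_num
    ring
  rw [e2]
  push_cast
  nlinarith [sq_nonneg (Nat.centralBinom k : ℝ)]

theorem rho_ratio {K A : ℕ} (hK : 1 ≤ K) (hA : K ≤ A) :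
    rho K (A + 1) * (2 * ((A : ℝ) - K + 1)) = rho K A * A := by
  obtain ⟨k, rfl⟩ := Nat.exists_eq_add_of_le' hK
  obtain ⟨a, rfl⟩ := Nat.exists_eq_add_of_le hA
  simp only [rho]
  rw [if_neg (by omega), if_neg (by omega), if_neg (by omega), if_neg (by omega)]
  have e1 : k + 1 + a + 1 - 1 = k + a + 1 := by omega
  have e2 : k + 1 - 1 = k := by omega
  have e3 : k + 1 + a - 1 = k + a := by omega
  rw [e1, e2, e3]
  have h : (k + a + 1).choose k * (k + a + 1 - k) = (k + a).choose k * (k + a + 1) :=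
    Nat.choose_mul_succ_eq (k + a) k |>.symm
  have h' : ((k + a + 1).choose k : ℝ) * (a + 1) = ((k + a).choose k : ℝ) * (k + a + 1) := by
    have e : k + a + 1 - k = a + 1 := by omega
    rw [e] at h
    exact_mod_cast h
  push_cast
  rw [show k + 1 + a + 1 = (k + 1 + a) + 1 by ring, pow_succ (2 : ℝ) (k + 1 + a)]
  field_simp
  linarith

theorem rho_lt {K A : ℕ} (h : A < K) : rho K A = 0 := by
  unfold rho
  rw [if_neg (by omega)]
  split_ifs with h
  · rfl
  · rw [Nat.choose_eq_zero_of_lt (by omega)]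
    simp

theorem rho_up {K A : ℕ} (hK : 1 ≤ K) (hA : A < 2 * K - 1) : rho K A ≤ rho K (A + 1) := by
  rcases Nat.lt_or_ge A K with h | h
  · rw [rho_lt h]
    exact rho_nonneg _ _
  · have h1 := rho_ratio hK h
    have h2 : (0 : ℝ) < 2 * ((A : ℝ) - K + 1) := by
      have : (K : ℝ) ≤ A := by exact_mod_cast h
      linarith
    have h3 : 2 * ((A : ℝ) - K + 1) ≤ A := by
      have : A + 2 ≤ 2 * K := by omega
      have : (A : ℝ) + 2 ≤ 2 * K := by exact_mod_cast this
      linarith
    have h4 := rho_nonneg K A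
    have h5 := rho_nonneg K (A + 1)
    by_contra hc
    rw [not_le] at hc
    have hA0 : (0 : ℝ) < A := by linarith
    nlinarith

theorem rho_down {K A : ℕ} (hK : 1 ≤ K) (hA : 2 * K - 1 ≤ A) : rho K (A + 1) ≤ rho K A := by
  have h1 := rho_ratio hK (by omega : K ≤ A)
  have hA' : (2 * (K : ℝ)) ≤ A + 1 := by
    have : 2 * K ≤ A + 1 := by omega
    exact_mod_cast this
  have h3 : (A : ℝ) ≤ 2 * ((A : ℝ) - K + 1) := by linarith
  have h4 := rho_nonneg K A
  have h5 := rho_nonneg K (A + 1)
  have hK' : (1 : ℝ) ≤ K := by exact_mod_cast hK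
  by_contra hc
  rw [not_le] at hc
  have hA0 : (0 : ℝ) < A := by linarith
  nlinarith

/-- (TV1) unimodality -/
theorem TV1 {K : ℕ} (hK : 1 ≤ K) (N : ℕ) :
    ∑ A ∈ range N, |rho K (A + 1) - rho K A| ≤ 2 / Real.sqrt K := by
  have h0 := rho_pos_zero hK
  have hup : ∀ n, n ≤ 2 * K - 1 → ∑ A ∈ range n, |rho K (A + 1) - rho K A| = rho K n := by
    intro n
    induction n with
    | zero => intro _; simp [h0]
    | succ n ih =>
      intro hn
      rw [Finset.sum_range_succ, ih (by omega), abs_of_nonneg]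
      · ring
      · have := rho_up hK (by omega : n < 2 * K - 1)
        linarith
  have hdown : ∀ n, ∑ A ∈ range (2 * K - 1 + n), |rho K (A + 1) - rho K A| =
      2 * rho K (2 * K - 1) - rho K (2 * K - 1 + n) := by
    intro n
    induction n with
    | zero =>
      rw [add_zero, hup _ le_rfl]
      ring
    | succ n ih =>
      rw [← add_assoc, Finset.sum_range_succ, ih, abs_of_nonpos]
      · ring
      · have := rho_down hK (by omega : 2 * K - 1 ≤ 2 * K - 1 + n)
        linarith
  have h1 : ∑ A ∈ range N, |rho K (A + 1) - rho K A| ≤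
      ∑ A ∈ range (2 * K - 1 + N), |rho K (A + 1) - rho K A| := by
    apply Finset.sum_le_sum_of_subset_of_nonneg
    · intro A hA
      rw [Finset.mem_range] at hA ⊢
      omega
    · intro A _ _
      exact abs_nonneg _
  rw [hdown N] at h1
  have h2 := rho_peak hK
  have h3 := rho_nonneg K (2 * K - 1 + N)
  have h4 : 2 / Real.sqrt K = 2 * (1 / Real.sqrt K) := by ring
  rw [h4]
  linarith

theorem TV2_aux {K : ℕ} (hK : 1 ≤ K) (N a d : ℕ) :
    ∑ A ∈ range N, |rho K (A - a) - rho K (A - (a + d))| ≤ 2 * d / Real.sqrt K := by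
  induction d with
  | zero => simp
  | succ d ih =>
    have h1 : ∀ A ∈ range N, |rho K (A - a) - rho K (A - (a + (d + 1)))| ≤
        |rho K (A - a) - rho K (A - (a + d))| + |rho K (A - (a + d)) - rho K (A - (a + d + 1))| :=
      fun A _ => abs_sub_le _ _ _
    refine (Finset.sum_le_sum h1).trans ?_
    rw [Finset.sum_add_distrib]
    have h2 : ∑ A ∈ range N, |rho K (A - (a + d)) - rho K (A - (a + d + 1))| ≤
        ∑ A ∈ range N, |rho K (A + 1) - rho K A| := by
      set c := a + d with hc
      rcases Nat.lt_or_ge N (c + 1) with h | h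
      · have : ∑ A ∈ range N, |rho K (A - c) - rho K (A - (c + 1))| = 0 := by
          apply Finset.sum_eq_zero
          intro A hA
          rw [Finset.mem_range] at hA
          rw [show A - c = 0 by omega, show A - (c + 1) = 0 by omega]
          simp
        rw [this]
        exact Finset.sum_nonneg (fun _ _ => abs_nonneg _)
      · obtain ⟨n, rfl⟩ := Nat.exists_eq_add_of_le h
        rw [Finset.sum_range_add]
        have h3 : ∑ A ∈ range (c + 1), |rho K (A - c) - rho K (A - (c + 1))| = 0 := by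
          apply Finset.sum_eq_zero
          intro A hA
          rw [Finset.mem_range] at hA
          rw [show A - c = 0 by omega, show A - (c + 1) = 0 by omega]
          simp
        rw [h3, zero_add]
        have h4 : ∀ x ∈ range n, |rho K (c + 1 + x - c) - rho K (c + 1 + x - (c + 1))| =
            |rho K (x + 1) - rho K x| := by
          intro x _
          rw [show c + 1 + x - c = x + 1 by omega, show c + 1 + x - (c + 1) = x by omega]
        rw [Finset.sum_congr rfl h4]
        apply Finset.sum_le_sum_of_subset_of_nonneg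
        · intro A hA
          rw [Finset.mem_range] at hA ⊢
          omega
        · intro A _ _
          exact abs_nonneg _
    have h5 := TV1 hK N
    have h6 : 2 * ((d + 1 : ℕ) : ℝ) / Real.sqrt K = 2 * d / Real.sqrt K + 2 / Real.sqrt K := by
      push_cast; ring
    rw [h6]
    linarith

theorem TV2 {K : ℕ} (hK : 1 ≤ K) (N a b : ℕ) :
    ∑ A ∈ range N, |rho K (A - a) - rho K (A - b)| ≤ 2 * |(a : ℝ) - b| / Real.sqrt K := by
  rcases le_total a b with h | h
  · obtain ⟨d, rfl⟩ := Nat.exists_eq_add_of_le h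
    have := TV2_aux hK N a d
    have e : |(a : ℝ) - ((a + d : ℕ) : ℝ)| = d := by
      push_cast
      rw [show (a : ℝ) - (a + d) = -d by ring, abs_neg, abs_of_nonneg (Nat.cast_nonneg d)]
    rw [e]
    exact this
  · obtain ⟨d, rfl⟩ := Nat.exists_eq_add_of_le h
    have := TV2_aux hK N b d
    have e : |((b + d : ℕ) : ℝ) - (b : ℝ)| = d := by
      push_cast
      rw [show ((b : ℝ) + d) - b = d by ring, abs_of_nonneg (Nat.cast_nonneg d)]
    rw [e]
    refine le_trans (le_of_eq ?_) this
    exact Finset.sum_congr rfl (fun A _ => abs_sub_comm _ _)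

/-- comparison of a shifted law with a convolution -/
theorem TV_conv {J d : ℕ} (hJ : 1 ≤ J) (N c : ℕ) :
    ∑ A ∈ range N, |rho J (A - c) - rho (d + J) A| ≤
      2 * (|(c : ℝ) - 2 * d| + Real.sqrt (2 * d)) / Real.sqrt J := by
  have hsJ : 0 < Real.sqrt J := Real.sqrt_pos.mpr (by exact_mod_cast hJ)
  have key : ∀ M : ℕ, N ≤ M → ∑ A ∈ range N, |rho J (A - c) - rho (d + J) A| ≤
      2 * (|(c : ℝ) - 2 * d| + Real.sqrt (2 * d)) / Real.sqrt J +
        (1 - ∑ b ∈ range M, rho d b) := by
    intro M hM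
    have htail : 0 ≤ 1 - ∑ b ∈ range M, rho d b := by linarith [rho_sum_le d M]
    have h1 : ∀ A ∈ range N, |rho J (A - c) - rho (d + J) A| ≤
        ∑ b ∈ range M, rho d b * |rho J (A - c) - rho J (A - b)| +
          (1 - ∑ b ∈ range M, rho d b) * rho J (A - c) := by
      intro A hA
      rw [Finset.mem_range] at hA
      have h2 : rho (d + J) A = ∑ b ∈ range M, rho d b * rho J (A - b) := by
        rw [rho_conv]
        obtain ⟨m, rfl⟩ := Nat.exists_eq_add_of_le (by omega : A + 1 ≤ M)
        rw [Finset.sum_range_add (fun b => rho d b * rho J (A - b)) (A + 1) m]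
        have : ∑ x ∈ range m, rho d (A + 1 + x) * rho J (A - (A + 1 + x)) = 0 := by
          apply Finset.sum_eq_zero
          intro x _
          rw [show A - (A + 1 + x) = 0 by omega, rho_pos_zero hJ, mul_zero]
        rw [this, add_zero]
      have h3 : rho J (A - c) - rho (d + J) A =
          ∑ b ∈ range M, rho d b * (rho J (A - c) - rho J (A - b)) +
          (1 - ∑ b ∈ range M, rho d b) * rho J (A - c) := by
        rw [h2]
        simp only [mul_sub, Finset.sum_sub_distrib]
        rw [← Finset.sum_mul]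
        ring
      rw [h3]
      refine (abs_add_le _ _).trans ?_
      apply add_le_add
      · refine (Finset.abs_sum_le_sum_abs _ _).trans (le_of_eq ?_)
        apply Finset.sum_congr rfl
        intro b _
        rw [abs_mul, abs_of_nonneg (rho_nonneg d b)]
      · rw [abs_of_nonneg (mul_nonneg htail (rho_nonneg _ _))]
    refine (Finset.sum_le_sum h1).trans ?_
    rw [Finset.sum_add_distrib]
    apply add_le_add
    · rw [Finset.sum_comm]
      calc ∑ b ∈ range M, ∑ A ∈ range N, rho d b * |rho J (A - c) - rho J (A - b)|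
          = ∑ b ∈ range M, rho d b * ∑ A ∈ range N, |rho J (A - c) - rho J (A - b)| := by
            apply Finset.sum_congr rfl
            intro b _
            rw [Finset.mul_sum]
        _ ≤ ∑ b ∈ range M, rho d b * (2 * |(c : ℝ) - b| / Real.sqrt J) := by
            apply Finset.sum_le_sum
            intro b _
            exact mul_le_mul_of_nonneg_left (TV2 hJ N c b) (rho_nonneg d b)
        _ ≤ ∑ b ∈ range M, (rho d b * (2 * |(c : ℝ) - 2 * d| / Real.sqrt J) +
              (2 / Real.sqrt J) * (rho d b * |(b : ℝ) - 2 * d|)) := by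
            apply Finset.sum_le_sum
            intro b _
            have h4 : |(c : ℝ) - b| ≤ |(c : ℝ) - 2 * d| + |(b : ℝ) - 2 * d| := by
              rw [abs_sub_comm (b : ℝ)]
              exact abs_sub_le _ _ _
            have h5 : 2 * |(c : ℝ) - b| / Real.sqrt J ≤
                2 * |(c : ℝ) - 2 * d| / Real.sqrt J + (2 / Real.sqrt J) * |(b : ℝ) - 2 * d| := by
              rw [div_mul_eq_mul_div, ← add_div]
              apply div_le_div_of_nonneg_right _ hsJ.le
              linarith
            have := mul_le_mul_of_nonneg_left h5 (rho_nonneg d b)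
            linarith
        _ = (∑ b ∈ range M, rho d b) * (2 * |(c : ℝ) - 2 * d| / Real.sqrt J) +
              (2 / Real.sqrt J) * ∑ b ∈ range M, rho d b * |(b : ℝ) - 2 * d| := by
            rw [Finset.sum_add_distrib, Finset.sum_mul, Finset.mul_sum]
        _ ≤ 1 * (2 * |(c : ℝ) - 2 * d| / Real.sqrt J) +
              (2 / Real.sqrt J) * Real.sqrt (2 * d) := by
            apply add_le_add
            · exact mul_le_mul_of_nonneg_right (rho_sum_le d M) (by positivity)
            · exact mul_le_mul_of_nonneg_left (rho_abs d M) (by positivity)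
        _ = _ := by ring
    · rw [← Finset.mul_sum]
      have h6 : ∑ A ∈ range N, rho J (A - c) ≤ 1 := by
        rcases Nat.lt_or_ge N c with h | h
        · have : ∑ A ∈ range N, rho J (A - c) = 0 := by
            apply Finset.sum_eq_zero
            intro A hA
            rw [Finset.mem_range] at hA
            rw [show A - c = 0 by omega, rho_pos_zero hJ]
          rw [this]
          norm_num
        · obtain ⟨n, rfl⟩ := Nat.exists_eq_add_of_le h
          rw [Finset.sum_range_add]
          have h7 : ∑ A ∈ range c, rho J (A - c) = 0 := by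
            apply Finset.sum_eq_zero
            intro A hA
            rw [Finset.mem_range] at hA
            rw [show A - c = 0 by omega, rho_pos_zero hJ]
          rw [h7, zero_add]
          refine le_trans (le_of_eq ?_) (rho_sum_le J n)
          apply Finset.sum_congr rfl
          intro x _
          rw [Nat.add_sub_cancel_left]
      calc _ ≤ (1 - ∑ b ∈ range M, rho d b) * 1 := mul_le_mul_of_nonneg_left h6 htail
        _ = _ := mul_one _
  have h8 : Filter.Tendsto (fun M => 2 * (|(c : ℝ) - 2 * d| + Real.sqrt (2 * d)) / Real.sqrt J +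
        (1 - ∑ b ∈ range M, rho d b)) Filter.atTop
        (nhds (2 * (|(c : ℝ) - 2 * d| + Real.sqrt (2 * d)) / Real.sqrt J + (1 - 1))) :=
    tendsto_const_nhds.add (tendsto_const_nhds.sub (rho_sum_tendsto d))
  have h9 := ge_of_tendsto h8 (Filter.eventually_atTop.mpr ⟨N, fun M hM => key M hM⟩)
  linarith

theorem TV3 {K i : ℕ} (hK : i < K) (N N' : ℕ) :
    ∑ a ∈ range N', rho i a * ∑ A ∈ range N, |rho (K - i) (A - a) - rho K A|
      ≤ 8 * i / Real.sqrt ((K - i : ℕ) : ℝ) := by
  obtain ⟨J, rfl⟩ := Nat.exists_eq_add_of_lt hK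
  have e1 : i + J + 1 - i = J + 1 := by omega
  rw [e1]
  have hsJ : 0 < Real.sqrt ((J + 1 : ℕ) : ℝ) := Real.sqrt_pos.mpr (by positivity)
  have h1 : ∀ a ∈ range N', rho i a * ∑ A ∈ range N, |rho (J + 1) (A - a) - rho (i + J + 1) A| ≤
      rho i a * (2 * (|(a : ℝ) - 2 * i| + Real.sqrt (2 * i)) / Real.sqrt ((J + 1 : ℕ) : ℝ)) := by
    intro a _
    apply mul_le_mul_of_nonneg_left _ (rho_nonneg i a)
    rw [show i + J + 1 = i + (J + 1) by ring]
    exact TV_conv (by omega) N a
  refine (Finset.sum_le_sum h1).trans ?_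
  have h2 : ∀ a ∈ range N', rho i a * (2 * (|(a : ℝ) - 2 * i| + Real.sqrt (2 * i)) /
      Real.sqrt ((J + 1 : ℕ) : ℝ)) = (2 / Real.sqrt ((J + 1 : ℕ) : ℝ)) *
      (rho i a * |(a : ℝ) - 2 * i|) + (2 / Real.sqrt ((J + 1 : ℕ) : ℝ)) * Real.sqrt (2 * i) *
      rho i a := by
    intro a _
    ring
  rw [Finset.sum_congr rfl h2, Finset.sum_add_distrib, ← Finset.mul_sum, ← Finset.mul_sum]
  have h3 := rho_abs i N'
  have h4 := rho_sum_le i N'
  have h5 : (2 / Real.sqrt ((J + 1 : ℕ) : ℝ)) * ∑ a ∈ range N', rho i a * |(a : ℝ) - 2 * i| ≤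
      (2 / Real.sqrt ((J + 1 : ℕ) : ℝ)) * Real.sqrt (2 * i) :=
    mul_le_mul_of_nonneg_left h3 (by positivity)
  have h6 : (2 / Real.sqrt ((J + 1 : ℕ) : ℝ)) * Real.sqrt (2 * i) * ∑ a ∈ range N', rho i a ≤
      (2 / Real.sqrt ((J + 1 : ℕ) : ℝ)) * Real.sqrt (2 * i) * 1 :=
    mul_le_mul_of_nonneg_left h4 (by positivity)
  have h7 : Real.sqrt (2 * i) ≤ 2 * i := by
    rcases Nat.eq_zero_or_pos i with h | h
    · subst h; simp
    · have hi : (1 : ℝ) ≤ i := by exact_mod_cast h
      rw [Real.sqrt_le_left (by positivity)]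
      nlinarith
  calc _ ≤ (2 / Real.sqrt ((J + 1 : ℕ) : ℝ)) * (2 * Real.sqrt (2 * i)) := by linarith
    _ ≤ (2 / Real.sqrt ((J + 1 : ℕ) : ℝ)) * (2 * (2 * i)) := by
        apply mul_le_mul_of_nonneg_left _ (by positivity)
        linarith
    _ = _ := by ring

theorem TV4 {K d : ℕ} (hK : 1 ≤ K) (N : ℕ) :
    ∑ A ∈ range N, |rho (K + d) (A + 2 * d) - rho K A|
      ≤ 2 * Real.sqrt (2 * d) / Real.sqrt K := by
  have h1 := TV_conv (J := K) (d := d) hK (2 * d + N) (2 * d)
  rw [Finset.sum_range_add] at h1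
  have h2 : 0 ≤ ∑ x ∈ range (2 * d), |rho K (x - 2 * d) - rho (d + K) x| :=
    Finset.sum_nonneg (fun _ _ => abs_nonneg _)
  have h3 : ∑ x ∈ range N, |rho K (2 * d + x - 2 * d) - rho (d + K) (2 * d + x)| =
      ∑ A ∈ range N, |rho (K + d) (A + 2 * d) - rho K A| := by
    apply Finset.sum_congr rfl
    intro x _
    rw [Nat.add_sub_cancel_left, abs_sub_comm, add_comm d K, add_comm (2 * d) x]
  rw [h3] at h1
  have h4 : |(((2 * d : ℕ)) : ℝ) - 2 * d| = 0 := by
    push_cast
    simp
  rw [h4, zero_add] at h1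
  linarith

end Pool.Agent.Lib.MP_e43fce_nt_nat
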