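import Pool.Agent.Lib.MP_e43fce_nt_nat.LemR
import Pool.Agent.Lib.MP_e43fce_nt_nat.Defs4
import Pool.Agent.Lib.MP_e43fce_nt_nat.MMs
import Pool.Agent.Lib.MP_e43fce_nt_nat.PAR
import Pool.Agent.Lib.MP_e43fce_nt_nat.TV

/-! T5, lower half, odd numbers. -/

set_option autoImplicit false

namespace Pool.Agent.Lib.MP_e43fce_nt_nat

open Finset

namespace T5

open Classical in
/-- the majorant after `K` odd steps -/
noncomputable def qL (K T A s : ℕ) : ℝ :=
  if (K + A ≤ T ∧ ∃ k ≤ T - K - A, col^[k] s = 1) ∨ s = 1 then 1 else 0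

lemma pL_unit (T : ℕ) : Unit01 (pL T) := by
  intro n
  unfold pL
  split_ifs <;> norm_num

lemma qL_unit (K T A : ℕ) : Unit01 (qL K T A) := by
  intro n
  unfold qL
  split_ifs <;> norm_num

lemma col_cycle (m : ℕ) : col^[m] 1 = 1 ∨ col^[m] 1 = 4 ∨ col^[m] 1 = 2 := by
  induction m with
  | zero => left; rfl
  | succ m ih =>
    rw [Function.iterate_succ_apply']
    rcases ih with h | h | h <;> rw [h] <;> simp [col]

lemma hyp {e : ℝ} (K T : ℕ) : RHyp e K (pL T) (qL K T) := by
  intro s n hs w hw had hn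
  have hw' := (mem_words (3 * K) K w).1 (mem_filter.1 hw).1
  have hpos : ∀ a ∈ w, 1 ≤ a := fun a ha => (hw'.2 a ha).1
  have hcol := nd_col hs hpos had hn
  rw [hw'.1] at hcol
  by_cases h : ∃ k ≤ T, col^[k] n = 1
  · have h1 : pL T n = 1 := by unfold pL; rw [if_pos h]
    have h2 : qL K T w.sum s = 1 := by
      unfold qL
      rw [if_pos]
      obtain ⟨k, hk, hk1⟩ := h
      rcases le_or_gt (K + w.sum) k with h3 | h3
      · left
        refine ⟨by omega, k - (K + w.sum), by omega, ?_⟩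
        rw [← hcol, ← Function.iterate_add_apply]
        rw [show k - (K + w.sum) + (K + w.sum) = k by omega]
        exact hk1
      · right
        have h4 : col^[K + w.sum] n = col^[K + w.sum - k] 1 := by
          rw [← hk1, ← Function.iterate_add_apply]
          rw [show K + w.sum - k + k = K + w.sum by omega]
        rw [hcol] at h4
        rcases col_cycle (K + w.sum - k) with h5 | h5 | h5 <;> omega
    rw [h1, h2]
  · have h1 : pL T n = 0 := by unfold pL; rw [if_neg h]
    rw [h1]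
    exact (qL_unit K T w.sum s).1

lemma qL_le {K T A : ℕ} (s : ℕ) : qL K T A s ≤ pL (T - K - A) s + (if s = 1 then 1 else 0) := by
  unfold qL pL
  by_cases h1 : s = 1
  · rw [if_pos (Or.inr h1), if_pos h1]
    split_ifs <;> norm_num
  · rw [if_neg h1]
    by_cases h2 : ∃ k ≤ T - K - A, col^[k] s = 1
    · rw [if_pos h2]
      split_ifs <;> norm_num
    · rw [if_neg h2, if_neg]
      · norm_num
      · rintro (h | h)
        · exact h2 h.2
        · exact h1 h

lemma qL_le' {K T A : ℕ} (h : ¬ (K + A ≤ T)) (s : ℕ) : qL K T A s ≤ (if s = 1 then 1 else 0) := by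
  unfold qL
  by_cases h1 : s = 1
  · rw [if_pos (Or.inr h1), if_pos h1]
  · rw [if_neg h1, if_neg]
    rintro (h2 | h2)
    · exact h h2.1
    · exact h1 h2

/-- the small depth is harmless -/
lemma small {x z : ℝ} {K : ℕ} (hx : 100 ≤ x) (hK : (K : ℝ) ≤ x / 5) (hz : 9 / 10 * x ≤ z) :
    ((i1 K : ℕ) : ℝ) ^ 2 ≤ z / 10 ∧ 3 ^ (i1 K) / Real.exp z ≤ x ^ (-(1 / 4) : ℝ) := by
  set m := Nat.sqrt (Nat.sqrt K) with hm
  have h1 : m ^ 4 ≤ K := by
    calc m ^ 4 = (m ^ 2) ^ 2 := by ring
      _ ≤ (Nat.sqrt K) ^ 2 := by gcongr; exact Nat.sqrt_le' _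
      _ ≤ K := Nat.sqrt_le' _
  have h2 : (i1 K) ^ 2 ≤ m := Nat.sqrt_le' _
  have h3 : (m : ℝ) ≤ 9 / 100 * x := by
    by_contra hcon
    push Not at hcon
    have h4 : (9 : ℝ) ≤ m := by linarith
    have h5 : ((m : ℝ)) ^ 4 ≤ x / 5 := le_trans (by exact_mod_cast h1) hK
    have h6 : (9 : ℝ) ^ 3 * m ≤ (m : ℝ) ^ 4 := by
      have : (9 : ℝ) ^ 3 ≤ (m : ℝ) ^ 3 := by gcongr
      calc (9 : ℝ) ^ 3 * m ≤ (m : ℝ) ^ 3 * m := by gcongr
        _ = _ := by ring
    nlinarith
  have h4 : ((i1 K : ℕ) : ℝ) ^ 2 ≤ m := by exact_mod_cast h2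
  have h5 : ((i1 K : ℕ) : ℝ) ^ 2 ≤ z / 10 := by linarith
  refine ⟨h5, ?_⟩
  have h6 : ((i1 K : ℕ) : ℝ) ≤ z / 10 := by
    refine le_trans ?_ h5
    have : i1 K ≤ (i1 K) ^ 2 := by nlinarith [Nat.zero_le (i1 K), sq_nonneg (i1 K : ℤ), Nat.le_self_pow (n := 2) (by norm_num) (i1 K)]
    exact_mod_cast this
  have h7 : (3 : ℝ) ^ (i1 K) ≤ Real.exp (2 * (i1 K : ℕ)) := by
    have : (3 : ℝ) ≤ Real.exp 2 := by
      have := Real.add_one_le_exp (2 : ℝ)
      linarith
    calc (3 : ℝ) ^ (i1 K) ≤ (Real.exp 2) ^ (i1 K) := by gcongr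
      _ = _ := by rw [← Real.exp_nat_mul]; ring_nf
  have h8 : (3 : ℝ) ^ (i1 K) / Real.exp z ≤ Real.exp (-(72 / 100 * x)) := by
    rw [div_le_iff₀ (Real.exp_pos z), ← Real.exp_add]
    refine le_trans h7 (Real.exp_le_exp.2 ?_)
    linarith
  have h9 : x ≤ Real.exp (72 / 100 * x) := by
    have h10 := Real.add_one_le_exp (36 / 100 * x)
    have h11 : Real.exp (72 / 100 * x) = Real.exp (36 / 100 * x) ^ 2 := by
      rw [← Real.exp_nat_mul]; congr 1; push_cast; ring
    rw [h11]
    nlinarith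
  calc (3 : ℝ) ^ (i1 K) / Real.exp z ≤ Real.exp (-(72 / 100 * x)) := h8
    _ ≤ x⁻¹ := by
        rw [Real.exp_neg]
        exact inv_anti₀ (by linarith) h9
    _ = x ^ (-1 : ℝ) := by rw [Real.rpow_neg_one]
    _ ≤ x ^ (-(1 / 4) : ℝ) := Real.rpow_le_rpow_of_exponent_le (by linarith) (by norm_num)

lemma log43 : Real.log (4 / 3) = 2 * Real.log 2 - Real.log 3 := by
  rw [Real.log_div (by norm_num) (by norm_num), show (4 : ℝ) = 2 ^ 2 by norm_num, Real.log_pow]
  push_cast; ring

lemma log43_lo : 1 / 4 ≤ Real.log (4 / 3) := by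
  have := Real.one_sub_inv_le_log_of_pos (x := 4 / 3) (by norm_num)
  norm_num at this ⊢
  linarith

lemma log43_hi : Real.log (4 / 3) ≤ 1 / 3 := by
  have := Real.log_le_sub_one_of_pos (x := 4 / 3) (by norm_num)
  norm_num at this ⊢
  linarith

/-- position of the next height -/
lemma heights {e x : ℝ} {K A : ℕ} (_he0 : 0 < e) (he : e ≤ 1 / 10) (hx : 100 ≤ x)
    (hK1 : x / 5 - 1 ≤ (K : ℝ)) (hK2 : (K : ℝ) ≤ x / 5) (hA : |(A : ℝ) - 2 * K| ≤ e * K) :
    9 / 10 * x ≤ zz x K A ∧ zz x K A ≤ 97 / 100 * x := by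
  have h2a := Real.log_two_gt_d9
  have h2b := Real.log_two_lt_d9
  have hc := log43
  have hc1 := log43_lo
  have hc2 := log43_hi
  have hz : zz x K A = x - K * Real.log (4 / 3) - ((A : ℝ) - 2 * K) * Real.log 2 := by
    unfold zz; rw [hc]; ring
  obtain ⟨ha1, ha2⟩ := abs_le.1 hA
  have hK0 : (0 : ℝ) ≤ K := Nat.cast_nonneg K
  have heK : e * K ≤ 1 / 10 * K := by gcongr
  set a := (A : ℝ) - 2 * K with ha
  have h3 : a * Real.log 2 ≤ (1 / 10 * K) * (7 / 10) := by
    calc a * Real.log 2 ≤ (1 / 10 * K) * Real.log 2 := by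
          apply mul_le_mul_of_nonneg_right (by linarith) (by linarith)
      _ ≤ (1 / 10 * K) * (7 / 10) := by
          apply mul_le_mul_of_nonneg_left (by linarith) (by positivity)
  have h4 : -((1 / 10 * K) * (7 / 10)) ≤ a * Real.log 2 := by
    have : -(1 / 10 * K) * Real.log 2 ≤ a * Real.log 2 := by
      apply mul_le_mul_of_nonneg_right (by linarith) (by linarith)
    have h5 : (1 / 10 * K) * Real.log 2 ≤ (1 / 10 * K) * (7 / 10) := by
      apply mul_le_mul_of_nonneg_left (by linarith) (by positivity)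
    nlinarith
  have h5 : K * Real.log (4 / 3) ≤ K * (1 / 3) := by gcongr
  have h6 : (K : ℝ) * (1 / 4) ≤ K * Real.log (4 / 3) := by gcongr
  constructor
  · rw [hz]; linarith
  · rw [hz]; linarith

/-- the budget is inherited -/
lemma budget {e e0 c2 : ℝ} {K A : ℕ} (hc2 : c2 = 3 / Real.log (4 / 3) - e0)
    (h20 : 0 ≤ c2) (h0 : 0 ≤ e0)
    (he : e * (1 + 3 / Real.log (4 / 3) * Real.log 2) ≤ e0 * Real.log (4 / 3))
    (hA : |(A : ℝ) - 2 * K| ≤ e * K) (x : ℝ) :
    c2 * x - (K + A) ≤ c2 * zz x K A := by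
  have hc := log43
  have hc1 := log43_lo
  have h2a := Real.log_two_gt_d9
  have hz : zz x K A = x - K * Real.log (4 / 3) - ((A : ℝ) - 2 * K) * Real.log 2 := by
    unfold zz; rw [hc]; ring
  have hK0 : (0 : ℝ) ≤ K := Nat.cast_nonneg K
  set a := (A : ℝ) - 2 * K with ha
  set c := Real.log (4 / 3) with hcdef
  set l := Real.log 2 with hl
  have hcc : c2 * c = 3 - e0 * c := by
    rw [hc2]; field_simp
  have hlc : 0 ≤ 3 / c := by positivity
  have h1 : a * (c2 * l - 1) ≤ e0 * c * K := by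
    have h2 : a * (c2 * l - 1) ≤ |a| * |c2 * l - 1| := by
      rw [← abs_mul]; exact le_abs_self _
    have h3 : |c2 * l - 1| ≤ 1 + 3 / c * l := by
      rw [abs_le]
      have h4 : c2 * l ≤ 3 / c * l := by
        apply mul_le_mul_of_nonneg_right _ (by linarith)
        rw [hc2]; linarith
      have h5 : 0 ≤ c2 * l := mul_nonneg h20 (by linarith)
      constructor <;> linarith
    calc a * (c2 * l - 1) ≤ |a| * |c2 * l - 1| := h2
      _ ≤ (e * K) * (1 + 3 / c * l) := by
          apply mul_le_mul hA h3 (abs_nonneg _) (le_trans (abs_nonneg _) hA)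
      _ = (e * (1 + 3 / c * l)) * K := by ring
      _ ≤ e0 * c * K := by gcongr
  have hAa : (A : ℝ) = a + 2 * K := by rw [ha]; ring
  rw [hz, hAa]
  have h6 : c2 * (x - K * c - a * l) = c2 * x - (c2 * c) * K - c2 * a * l := by ring
  rw [h6, hcc]
  nlinarith

end T5

open T5 in
/-- odd numbers: budget `(c0 - e0) x - b` -/
theorem T5_odd {e0 : ℝ} (he : 0 < e0) : ∃ C b0 : ℝ, 0 < C ∧ 0 < b0 ∧ ∀ b : ℝ, b0 ≤ b →
    ∀ x : ℝ, 0 ≤ x → ∀ T : ℕ, (T : ℝ) ≤ (3 / Real.log (4 / 3) - e0) * x - b →
      DD 0 (pL T) x ≤ C * b ^ (-(1 / 4) : ℝ) := by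
  have hc1 := log43_lo
  have hc2 := log43_hi
  have h2a := Real.log_two_gt_d9
  set c := Real.log (4 / 3) with hcdef
  set c0 := 3 / c with hc0
  have hc0pos : 0 < c0 := by rw [hc0]; positivity
  set l := Real.log 2 with hl
  have hlpos : 0 < l := by linarith
  set e := min (1 / 10) (e0 * c / (1 + c0 * l)) with hedef
  have hepos : 0 < e := lt_min (by norm_num) (by positivity)
  have he1 : e ≤ 1 / 10 := min_le_left _ _
  have he2 : e * (1 + c0 * l) ≤ e0 * c := by
    have : e ≤ e0 * c / (1 + c0 * l) := min_le_right _ _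
    rwa [le_div_iff₀ (by positivity)] at this
  obtain ⟨C, x1, hC, hx1, hR⟩ := lemR hepos he1
  set κ := (97 / 100 : ℝ) ^ (-(1 / 4) : ℝ) - 1 with hκ
  have hκpos : 0 < κ := by
    have := Real.one_lt_rpow_of_pos_of_lt_one_of_neg (x := (97 / 100 : ℝ)) (z := -(1 / 4))
      (by norm_num) (by norm_num) (by norm_num)
    rw [hκ]; linarith
  set D := (C + 1) / κ with hD
  have hDpos : 0 < D := by rw [hD]; positivity
  set x2 := max x1 100 with hx2
  have hx2a : x1 ≤ x2 := le_max_left _ _
  have hx2b : 100 ≤ x2 := le_max_right _ _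
  refine ⟨D * (9 / 10 / c0) ^ (-(1 / 4) : ℝ), c0 * x2, by positivity, by positivity, ?_⟩
  intro b hb
  have hbpos : 0 < b := lt_of_lt_of_le (by positivity) hb
  set Λ := D * (9 / 10 * (b / c0)) ^ (-(1 / 4) : ℝ) with hΛ
  set c2 := c0 - e0 with hc2def
  have key : ∀ n : ℕ, ∀ x : ℝ, 0 ≤ x → x ≤ n → ∀ T i : ℕ, (T : ℝ) ≤ c2 * x - b →
      (i : ℝ) ^ 2 ≤ x / 10 → DD i (pL T) x ≤ Λ - D * x ^ (-(1 / 4) : ℝ) := by
    intro n
    induction n with
    | zero =>
      intro x hx0 hxn T i hT hi
      exfalso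
      have : x = 0 := le_antisymm (by simpa using hxn) hx0
      rw [this] at hT
      have hT0 : (0 : ℝ) ≤ T := Nat.cast_nonneg T
      linarith
    | succ n ih =>
      intro x hx0 hxn T i hT hi
      have hT0 : (0 : ℝ) ≤ T := Nat.cast_nonneg T
      have hbx : b ≤ c2 * x := by linarith
      have hbx0 : b ≤ c0 * x := by
        have : c2 * x ≤ c0 * x := by
          apply mul_le_mul_of_nonneg_right _ hx0
          rw [hc2def]; linarith
        linarith
      have hbc : b / c0 ≤ x := by rw [div_le_iff₀ hc0pos]; linarith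
      have hxx2 : x2 ≤ x := by
        have : c0 * x2 ≤ c0 * x := by linarith
        exact le_of_mul_le_mul_left this hc0pos
      have hx100 : 100 ≤ x := by linarith
      have hxpos : 0 < x := by linarith
      have hc2pos : 0 ≤ c2 := by
        by_contra hcon
        push Not at hcon
        nlinarith
      set K := ⌊x / 5⌋₊ with hK
      have hK2 : (K : ℝ) ≤ x / 5 := Nat.floor_le (by positivity)
      have hK1 : x / 5 - 1 ≤ (K : ℝ) := by
        have := Nat.lt_floor_add_one (x / 5)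
        rw [← hK] at this
        linarith
      have hiK : i ^ 2 ≤ K := by
        have : ((i : ℝ)) ^ 2 ≤ K := by linarith
        exact_mod_cast this
      have hR' := hR x (by linarith) K i (by linarith) (by linarith) hiK (pL T) (qL K T)
        (pL_unit T) (fun A => qL_unit K T A) (hyp K T)
      set y := x ^ (-(1 / 4) : ℝ) with hy
      have hypos : 0 < y := Real.rpow_pos_of_pos hxpos _
      set y' := (97 / 100 * x) ^ (-(1 / 4) : ℝ) with hy'
      have hyy : y' = (κ + 1) * y := by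
        rw [hy', Real.mul_rpow (by norm_num) hx0, hκ, hy]; ring
      have hΛy : D * y' ≤ Λ := by
        rw [hΛ]
        apply mul_le_mul_of_nonneg_left _ hDpos.le
        rw [hy']
        apply Real.rpow_le_rpow_of_nonpos (by positivity) _ (by norm_num)
        nlinarith
      set M := Λ - D * y' + y with hM
      have hMpos : 0 ≤ M := by rw [hM]; linarith
      have hterm : ∀ A ∈ win e K, rho K A * DD (i1 K) (qL K T A) (zz x K A) ≤ rho K A * M := by
        intro A hA
        apply mul_le_mul_of_nonneg_left _ (rho_nonneg K A)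
        have hA' : |(A : ℝ) - 2 * K| ≤ e * K := (mem_filter.1 hA).2
        obtain ⟨hz1, hz2⟩ := heights hepos he1 hx100 hK1 hK2 hA'
        set z := zz x K A with hz
        obtain ⟨hs1, hs2⟩ := small hx100 hK2 hz1
        by_cases hKA : K + A ≤ T
        · have h1 : DD (i1 K) (qL K T A) z ≤ DD (i1 K) (pL (T - K - A)) z
              + DD (i1 K) (fun s => if s = 1 then 1 else 0) z := by
            rw [← DD_add]
            exact DD_mono (fun s => qL_le s) z
          have h2 := DD_point (i1 K) 1 z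
          have h3 : DD (i1 K) (pL (T - K - A)) z ≤ Λ - D * z ^ (-(1 / 4) : ℝ) := by
            apply ih z (by linarith) _ _ _ _ hs1
            · push_cast at hxn
              linarith
            · have h4 : ((T - K - A : ℕ) : ℝ) = T - (K + A) := by
                have : T - K - A = T - (K + A) := by omega
                rw [this, Nat.cast_sub hKA]; push_cast; ring
              rw [h4]
              have h5 := budget (e := e) (e0 := e0) (c2 := c2) (K := K) (A := A) rfl hc2pos he.le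
                he2 hA' x
              linarith
          have h4 : y' ≤ z ^ (-(1 / 4) : ℝ) := by
            rw [hy']
            exact Real.rpow_le_rpow_of_nonpos (by linarith) hz2 (by norm_num)
          have h5 : D * y' ≤ D * z ^ (-(1 / 4) : ℝ) := mul_le_mul_of_nonneg_left h4 hDpos.le
          rw [hM]
          linarith
        · have h1 : DD (i1 K) (qL K T A) z
              ≤ DD (i1 K) (fun s => if s = 1 then 1 else 0) z :=
            DD_mono (fun s => qL_le' hKA s) z
          have h2 := DD_point (i1 K) 1 z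
          rw [hM]
          linarith
      have hsum : ∑ A ∈ win e K, rho K A * DD (i1 K) (qL K T A) (zz x K A) ≤ M := by
        calc ∑ A ∈ win e K, rho K A * DD (i1 K) (qL K T A) (zz x K A)
            ≤ ∑ A ∈ win e K, rho K A * M := Finset.sum_le_sum hterm
          _ = (∑ A ∈ win e K, rho K A) * M := by rw [Finset.sum_mul]
          _ ≤ 1 * M := by
              apply mul_le_mul_of_nonneg_right _ hMpos
              refine le_trans (Finset.sum_le_sum_of_subset_of_nonneg (filter_subset _ _) ?_)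
                (rho_sum_le K (3 * K + 1))
              intro A _ _
              exact rho_nonneg K A
          _ = M := one_mul _
      have hDκ : D * κ = C + 1 := by rw [hD]; field_simp
      have hfin : M + C * y = Λ - D * y := by
        rw [hM, hyy]
        have : D * ((κ + 1) * y) = (D * κ) * y + D * y := by ring
        rw [this, hDκ]; ring
      calc DD i (pL T) x ≤ _ := hR'
        _ ≤ M + C * y := by linarith
        _ = Λ - D * y := hfin
  intro x hx T hT
  obtain ⟨n, hn⟩ := exists_nat_ge x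
  have h1 := key n x hx hn T 0 hT (by simp; positivity)
  have h2 : 0 ≤ D * x ^ (-(1 / 4) : ℝ) := by positivity
  have h3 : Λ = D * (9 / 10 / c0) ^ (-(1 / 4) : ℝ) * b ^ (-(1 / 4) : ℝ) := by
    rw [hΛ, mul_assoc, ← Real.mul_rpow (by positivity) hbpos.le]
    congr 2
    field_simp
  rw [← h3]
  linarith

end Pool.Agent.Lib.MP_e43fce_nt_nat
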