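import Pool.Agent.Lib.MP_e43fce_nt_nat.Mix
import Pool.Agent.Lib.MP_e43fce_nt_nat.MMs

/-! S3 of Lemma R. -/

set_option autoImplicit false

namespace Pool.Agent.Lib.MP_e43fce_nt_nat

open Finset

theorem S3_wt_nonneg (w : List ℕ) : 0 ≤ wt w := by
  unfold wt
  positivity

theorem S3_per_sum {α : Type} {k : ℕ} (s : Finset α) (f : α → ℤ → ℝ) (h : ∀ a ∈ s, Per k (f a)) :
    Per k (fun x => ∑ a ∈ s, f a x) := by
  intro v z
  exact Finset.sum_congr rfl (fun a ha => h a ha v z)

/-- S3: the weight `M_i` at the top is removed -/
theorem step_S3 (B : ℕ) : ∃ C : ℝ, 0 < C ∧ ∀ K i A : ℕ, i ^ 2 ≤ K → 1 ≤ K → ∀ Z : ℝ,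
    2 * 3 ^ (K + i) ≤ Z → ∀ q : ℕ → ℝ, Unit01 q →
    ∑ s ∈ oddS Z, q s * ∑ w ∈ (words (3 * K) K).filter (fun w => w.sum = A),
        (if adm s w then wt w * MM i (nd s w) else 0)
      ≤ ∑ s ∈ oddS Z, q s * ∑ w ∈ (words (3 * K) K).filter (fun w => w.sum = A),
          (if adm s w then wt w else 0) + C * Z / (K : ℝ) ^ B := by
  obtain ⟨C, hC, hmix⟩ := MIXF B
  refine ⟨2 * C, by positivity, ?_⟩
  intro K i A hiK hK Z hZ q hq
  have hZ0 : 0 ≤ Z := le_trans (by positivity) hZ
  rcases Nat.eq_zero_or_pos i with hi | hi
  · subst hi
    have h1 : 0 ≤ 2 * C * Z / (K : ℝ) ^ B := by positivity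
    have h2 : ∑ s ∈ oddS Z, q s * ∑ w ∈ (words (3 * K) K).filter (fun w => w.sum = A),
        (if adm s w then wt w * MM 0 (nd s w) else 0) =
        ∑ s ∈ oddS Z, q s * ∑ w ∈ (words (3 * K) K).filter (fun w => w.sum = A),
          (if adm s w then wt w else 0) := by
      refine Finset.sum_congr rfl (fun s _ => ?_)
      congr 1
      refine Finset.sum_congr rfl (fun w _ => ?_)
      rw [MM_zero, mul_one]
    rw [h2]
    linarith
  · set f : ℕ → ℤ → ℝ := fun A' x => if A' = A then (MM i x - mm i) / 2 else 0 with hf
    have fper : ∀ A', Per i (f A') := by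
      intro A' v z
      simp only [hf]
      rw [MM_per i v z]
    have fav : ∀ A', Av i (f A') = 0 := by
      intro A'
      by_cases h : A' = A
      · have h1 : f A' = fun x => ∑ b ∈ (Finset.univ : Finset Bool),
            (if b then (1 / 2) * MM i x else -(mm i) / 2) := by
          funext x
          simp only [hf, if_pos h]
          simp
          ring
        have h2 : Av i (fun _ : ℤ => -(mm i) / 2) = -(mm i) / 2 := by
          unfold Av
          rw [Finset.sum_const, Finset.card_range, nsmul_eq_mul]
          push_cast
          field_simp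
        rw [h1, Av_sum]
        rw [Fintype.sum_bool]
        simp only [if_true, Bool.false_eq_true, if_false]
        rw [Av_const_mul, h2, MM_av]
        ring
      · have h1 : f A' = fun _ => 0 := by
          funext x
          simp only [hf, if_neg h]
        rw [h1]
        unfold Av
        simp
    have fabs : ∀ A', Av i (fun x => |f A' x|) ≤ 1 := by
      intro A'
      have h0 : ∀ x, |f A' x| ≤ ∑ b ∈ (Finset.univ : Finset Bool),
            (if b then (1 / 2) * MM i x else (mm i) / 2) := by
        intro x
        have h3 := MM_nonneg i x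
        have h4 := mm_nonneg i
        simp only [hf]
        rw [Fintype.sum_bool]
        simp only [if_true, Bool.false_eq_true, if_false]
        split_ifs with h
        · rw [abs_le]
          constructor
          · linarith
          · linarith
        · rw [abs_zero]
          linarith
      have h2 : Av i (fun _ : ℤ => (mm i) / 2) = (mm i) / 2 := by
        unfold Av
        rw [Finset.sum_const, Finset.card_range, nsmul_eq_mul]
        push_cast
        field_simp
      refine (Av_mono h0).trans ?_
      rw [Av_sum, Fintype.sum_bool]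
      simp only [if_true, Bool.false_eq_true, if_false]
      rw [Av_const_mul, h2, MM_av]
      have := mm_le_one i
      linarith
    set g : ℤ → ℝ := fun m => |∑ w ∈ words (3 * K) K,
      if adm m w then wt w * f w.sum (nd m w) else 0| with hg
    have gper : Per (K + i) g := by
      intro v z
      simp only [hg]
      congr 1
      refine S3_per_sum (k := K + i) (words (3 * K) K)
        (fun w m => if adm m w then wt w * f w.sum (nd m w) else 0) ?_ v z
      intro w hw
      have hl : w.length = K := ((mem_words _ _ _).1 hw).1
      have := node_per w i (f w.sum) (fper _)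
      rw [hl] at this
      exact this
    have gnn : ∀ m, 0 ≤ g m := fun m => abs_nonneg _
    have hAv : Av (K + i) g ≤ C / (K : ℝ) ^ B :=
      hmix K i (3 * K) hi hiK (by omega) f fper fav fabs
    have hsum : ∑ s ∈ oddS Z, g (s : ℤ) ≤ Z * (C / (K : ℝ) ^ B) :=
      (odd_sum_le (K + i) g gnn gper Z hZ).trans (mul_le_mul_of_nonneg_left hAv hZ0)
    have hpt : ∀ s ∈ oddS Z, q s * ∑ w ∈ (words (3 * K) K).filter (fun w => w.sum = A),
        (if adm s w then wt w * MM i (nd s w) else 0) ≤
        q s * ∑ w ∈ (words (3 * K) K).filter (fun w => w.sum = A),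
          (if adm s w then wt w else 0) + 2 * g (s : ℤ) := by
      intro s _
      have e1 : ∑ w ∈ (words (3 * K) K).filter (fun w => w.sum = A),
          (if adm s w then wt w * MM i (nd s w) else 0) ≤
          ∑ w ∈ (words (3 * K) K).filter (fun w => w.sum = A),
          (if adm s w then wt w else 0) + 2 * ∑ w ∈ words (3 * K) K,
            (if adm s w then wt w * f w.sum (nd s w) else 0) := by
        have e2 : ∑ w ∈ words (3 * K) K, (if adm s w then wt w * f w.sum (nd s w) else 0) =
            ∑ w ∈ (words (3 * K) K).filter (fun w => w.sum = A),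
              (if adm s w then wt w * ((MM i (nd s w) - mm i) / 2) else 0) := by
          rw [Finset.sum_filter]
          refine Finset.sum_congr rfl (fun w _ => ?_)
          simp only [hf]
          by_cases h : w.sum = A
          · simp [h]
          · simp [h]
        rw [e2, Finset.mul_sum, ← Finset.sum_add_distrib]
        refine Finset.sum_le_sum (fun w _ => ?_)
        split_ifs with h
        · have h3 := S3_wt_nonneg w
          have h4 := mm_le_one i
          nlinarith
        · simp
      have e3 : ∑ w ∈ words (3 * K) K, (if adm s w then wt w * f w.sum (nd s w) else 0) ≤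
          g (s : ℤ) := le_abs_self _
      have hq0 := (hq s).1
      have hq1 := (hq s).2
      have hg0 := gnn (s : ℤ)
      calc q s * ∑ w ∈ (words (3 * K) K).filter (fun w => w.sum = A),
          (if adm s w then wt w * MM i (nd s w) else 0)
          ≤ q s * (∑ w ∈ (words (3 * K) K).filter (fun w => w.sum = A),
          (if adm s w then wt w else 0) + 2 * g (s : ℤ)) := by
            apply mul_le_mul_of_nonneg_left _ hq0
            linarith
        _ = q s * ∑ w ∈ (words (3 * K) K).filter (fun w => w.sum = A),
          (if adm s w then wt w else 0) + q s * (2 * g (s : ℤ)) := by ring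
        _ ≤ _ := by
            have : q s * (2 * g (s : ℤ)) ≤ 1 * (2 * g (s : ℤ)) :=
              mul_le_mul_of_nonneg_right hq1 (by linarith)
            linarith
    refine (Finset.sum_le_sum hpt).trans ?_
    rw [Finset.sum_add_distrib, ← Finset.mul_sum]
    have : 2 * C * Z / (K : ℝ) ^ B = 2 * (Z * (C / (K : ℝ) ^ B)) := by ring
    rw [this]
    linarith

end Pool.Agent.Lib.MP_e43fce_nt_nat
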