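import Pool.Agent.Lib.MP_e43fce_nt_nat.Words

/-! WB1: words, composition, injectivity. -/

set_option autoImplicit false

namespace Pool.Agent.Lib.MP_e43fce_nt_nat

open Finset

theorem wb1_mem_succ (L k : ℕ) (w : List ℕ) :
    w ∈ words L (k + 1) ↔ ∃ j u, j ∈ Icc 1 L ∧ u ∈ words L k ∧ w = j :: u := by
  simp only [words, mem_image, mem_product, Prod.exists]
  constructor
  · rintro ⟨j, u, ⟨h1, h2⟩, rfl⟩
    exact ⟨j, u, h1, h2, rfl⟩
  · rintro ⟨j, u, h1, h2, rfl⟩
    exact ⟨j, u, ⟨h1, h2⟩, rfl⟩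

theorem wb1_sum_succ (L k : ℕ) (g : List ℕ → ℝ) :
    ∑ w ∈ words L (k + 1), g w = ∑ j ∈ Icc 1 L, ∑ w ∈ words L k, g (j :: w) := by
  rw [words, sum_image, sum_product]
  rintro ⟨a, u⟩ _ ⟨b, v⟩ _ h
  simp only [List.cons.injEq] at h
  exact Prod.ext h.1 h.2

theorem mem_words (L k : ℕ) (w : List ℕ) :
    w ∈ words L k ↔ w.length = k ∧ ∀ a ∈ w, 1 ≤ a ∧ a ≤ L := by
  induction k generalizing w with
  | zero =>
    simp only [words, mem_singleton]
    constructor
    · rintro rfl
      exact ⟨rfl, fun a ha => absurd ha (List.not_mem_nil)⟩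
    · rintro ⟨h, -⟩
      exact List.length_eq_zero_iff.1 h
  | succ k ih =>
    rw [wb1_mem_succ]
    constructor
    · rintro ⟨j, u, hj, hu, rfl⟩
      have h1 := (ih u).1 hu
      rw [mem_Icc] at hj
      refine ⟨by rw [List.length_cons, h1.1], fun a ha => ?_⟩
      rcases List.mem_cons.1 ha with rfl | ha
      · exact hj
      · exact h1.2 a ha
    · rintro ⟨h1, h2⟩
      cases w with
      | nil => simp at h1
      | cons j u =>
        refine ⟨j, u, mem_Icc.2 (h2 j List.mem_cons_self), (ih u).2 ⟨?_, fun a ha => ?_⟩, rfl⟩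
        · rw [List.length_cons] at h1
          omega
        · exact h2 a (List.mem_cons_of_mem _ ha)

theorem F_append (u v : List ℕ) : F (u ++ v) = 2 ^ v.sum * F u + 3 ^ u.length * F v := by
  induction u with
  | nil => simp [F]
  | cons j u ih =>
    rw [List.cons_append, F, ih, F, List.sum_append, List.length_cons]
    ring

theorem wb1_key (m : ℤ) (u v : List ℕ) :
    (2 : ℤ) ^ (u ++ v).sum * m - (F (u ++ v) : ℤ) =
      2 ^ v.sum * (2 ^ u.sum * m - (F u : ℤ)) - 3 ^ u.length * (F v : ℤ) := by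
  rw [F_append, List.sum_append]
  push_cast
  ring

theorem wb1_key2 {m : ℤ} {u : List ℕ} (h : adm m u) (v : List ℕ) :
    (2 : ℤ) ^ (u ++ v).sum * m - (F (u ++ v) : ℤ) =
      3 ^ u.length * (2 ^ v.sum * nd m u - (F v : ℤ)) := by
  rw [wb1_key]
  have h1 : (2 : ℤ) ^ u.sum * m - (F u : ℤ) = 3 ^ u.length * nd m u := by
    unfold nd
    rw [Int.mul_ediv_cancel' h]
  rw [h1]
  ring

theorem adm_append (m : ℤ) (u v : List ℕ) : adm m (u ++ v) ↔ adm m u ∧ adm (nd m u) v := by
  have h3 : (3 : ℤ) ^ u.length ≠ 0 := pow_ne_zero _ (by norm_num)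
  have hlen : (3 : ℤ) ^ (u ++ v).length = 3 ^ u.length * 3 ^ v.length := by
    rw [List.length_append, pow_add]
  constructor
  · intro h
    have hu : adm m u := by
      unfold adm at h ⊢
      rw [wb1_key, hlen] at h
      have h1 : (3 : ℤ) ^ u.length ∣ 2 ^ v.sum * (2 ^ u.sum * m - (F u : ℤ)) := by
        have h2 := (Dvd.intro _ rfl : (3 : ℤ) ^ u.length ∣ 3 ^ u.length * 3 ^ v.length).trans h
        have h4 := dvd_add h2 (Dvd.intro _ rfl : (3 : ℤ) ^ u.length ∣ 3 ^ u.length * (F v : ℤ))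
        rwa [sub_add_cancel] at h4
      have h5 : IsCoprime ((3 : ℤ) ^ u.length) (2 ^ v.sum) :=
        IsCoprime.pow (by norm_num)
      exact h5.dvd_of_dvd_mul_left h1
    refine ⟨hu, ?_⟩
    unfold adm at h ⊢
    rw [wb1_key2 hu, hlen] at h
    exact (mul_dvd_mul_iff_left h3).1 h
  · rintro ⟨hu, hv⟩
    unfold adm at hv ⊢
    rw [wb1_key2 hu, hlen]
    exact mul_dvd_mul_left _ hv

theorem nd_append {m : ℤ} {u v : List ℕ} (h : adm m (u ++ v)) :
    nd m (u ++ v) = nd (nd m u) v := by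
  have hu := ((adm_append m u v).1 h).1
  have h3 : (0 : ℤ) < 3 ^ u.length := pow_pos (by norm_num) _
  conv_lhs => unfold nd
  rw [wb1_key2 hu, List.length_append, pow_add, Int.mul_ediv_mul_of_pos _ _ h3]
  rfl

theorem wb1_F_single (a : ℕ) : F [a] = 1 := by
  simp [F]

theorem wb1_F_concat (u : List ℕ) (a : ℕ) : F (u ++ [a]) = 2 ^ a * F u + 3 ^ u.length := by
  rw [F_append, wb1_F_single]
  simp

theorem wb1_F_odd {w : List ℕ} (hw : w ≠ []) (h : ∀ a ∈ w, 1 ≤ a) : F w % 2 = 1 := by
  rcases List.eq_nil_or_concat w with rfl | ⟨u, a, rfl⟩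
  · exact absurd rfl hw
  · rw [List.concat_eq_append, wb1_F_concat]
    have ha : 1 ≤ a := h a (by simp)
    obtain ⟨b, rfl⟩ : ∃ b, a = b + 1 := ⟨a - 1, by omega⟩
    have h3 : (3 : ℕ) ^ u.length % 2 = 1 := by
      rw [Nat.pow_mod]
      norm_num
    have h4 : 2 ^ (b + 1) * F u = 2 * (2 ^ b * F u) := by ring
    omega

theorem wb1_two_pow {a b x y : ℕ} (hx : x % 2 = 1) (hy : y % 2 = 1) (h : 2 ^ a * x = 2 ^ b * y) :
    a = b := by
  by_contra hne
  rcases Nat.lt_or_gt_of_ne hne with hab | hab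
  · obtain ⟨c, rfl⟩ : ∃ c, b = a + (c + 1) := ⟨b - a - 1, by omega⟩
    rw [pow_add, mul_assoc] at h
    have h1 := Nat.eq_of_mul_eq_mul_left (pow_pos (by norm_num) a) h
    have h2 : 2 ^ (c + 1) * y = 2 * (2 ^ c * y) := by ring
    omega
  · obtain ⟨c, rfl⟩ : ∃ c, a = b + (c + 1) := ⟨a - b - 1, by omega⟩
    rw [pow_add, mul_assoc] at h
    have h1 := Nat.eq_of_mul_eq_mul_left (pow_pos (by norm_num) b) h
    have h2 : 2 ^ (c + 1) * x = 2 * (2 ^ c * x) := by ring
    omega

/-- injectivity -/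
theorem F_inj {u v : List ℕ} (hl : u.length = v.length) (hs : u.sum = v.sum)
    (hu : ∀ a ∈ u, 1 ≤ a) (hv : ∀ a ∈ v, 1 ≤ a) (hF : F u = F v) : u = v := by
  induction u using List.reverseRecOn generalizing v with
  | nil =>
    rw [List.length_nil] at hl
    exact (List.length_eq_zero_iff.1 hl.symm).symm
  | append_singleton u a ih =>
    rcases List.eq_nil_or_concat v with rfl | ⟨v', b, rfl⟩
    · simp at hl
    · rw [List.concat_eq_append] at *
      have hl' : u.length = v'.length := by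
        rw [List.length_append, List.length_append] at hl
        simpa using hl
      rw [wb1_F_concat, wb1_F_concat, hl'] at hF
      have hF' : 2 ^ a * F u = 2 ^ b * F v' := Nat.add_right_cancel hF
      have hs' : u.sum + a = v'.sum + b := by
        rw [List.sum_append, List.sum_append] at hs
        simpa using hs
      have hu' : ∀ c ∈ u, 1 ≤ c := fun c hc => hu c (List.mem_append_left _ hc)
      have hv' : ∀ c ∈ v', 1 ≤ c := fun c hc => hv c (List.mem_append_left _ hc)
      by_cases hn : u = []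
      · subst hn
        have hv0 : v' = [] := List.length_eq_zero_iff.1 hl'.symm
        subst hv0
        simp at hs'
        rw [hs']
      · have hn' : v' ≠ [] := by
          intro h0
          rw [h0, List.length_nil] at hl'
          exact hn (List.length_eq_zero_iff.1 hl')
        have hab : a = b := wb1_two_pow (wb1_F_odd hn hu') (wb1_F_odd hn' hv') hF'
        subst hab
        have hFF : F u = F v' := Nat.eq_of_mul_eq_mul_left (pow_pos (by norm_num) a) hF'
        rw [ih hl' (by omega) hu' hv' hFF]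

theorem sum_words_append (L k l : ℕ) (g : List ℕ → ℝ) :
    ∑ w ∈ words L (k + l), g w = ∑ u ∈ words L k, ∑ v ∈ words L l, g (u ++ v) := by
  induction k generalizing g with
  | zero =>
    rw [Nat.zero_add]
    simp [words]
  | succ k ih =>
    rw [Nat.add_right_comm, wb1_sum_succ, wb1_sum_succ]
    refine sum_congr rfl fun j _ => ?_
    rw [ih]
    rfl

theorem wb1_geom (L : ℕ) : ∑ j ∈ Icc 1 L, (1 : ℝ) / 2 ^ j = 1 - 1 / 2 ^ L := by
  induction L with
  | zero => simp
  | succ L ih =>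
    rw [sum_Icc_succ_top (by omega), ih, pow_succ]
    field_simp
    ring

theorem sum_pr (L k : ℕ) : ∑ w ∈ words L k, pr w = (1 - 1 / 2 ^ L) ^ k := by
  induction k with
  | zero => simp [words, pr]
  | succ k ih =>
    rw [wb1_sum_succ, pow_succ', ← wb1_geom, sum_mul]
    refine sum_congr rfl fun j _ => ?_
    rw [wb1_geom, ← ih, mul_sum]
    refine sum_congr rfl fun w _ => ?_
    unfold pr
    rw [List.sum_cons, pow_add]
    field_simp

end Pool.Agent.Lib.MP_e43fce_nt_nat
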