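import Pool.Agent.Lib.MP_e43fce_nt_nat.Words

/-! WB4: averages over one period. -/

set_option autoImplicit false

namespace Pool.Agent.Lib.MP_e43fce_nt_nat

open Finset

theorem Av_nonneg {k : ℕ} {f : ℤ → ℝ} (h : ∀ x, 0 ≤ f x) : 0 ≤ Av k f :=
  div_nonneg (Finset.sum_nonneg fun _ _ => h _) (by positivity)

theorem Av_mono {k : ℕ} {f g : ℤ → ℝ} (h : ∀ x, f x ≤ g x) : Av k f ≤ Av k g :=
  div_le_div_of_nonneg_right (Finset.sum_le_sum fun _ _ => h _) (by positivity)

theorem Av_sum {α : Type} (k : ℕ) (s : Finset α) (f : α → ℤ → ℝ) :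
    Av k (fun x => ∑ a ∈ s, f a x) = ∑ a ∈ s, Av k (f a) := by
  unfold Av
  rw [Finset.sum_comm, Finset.sum_div]

theorem Av_const_mul (k : ℕ) (c : ℝ) (f : ℤ → ℝ) : Av k (fun x => c * f x) = c * Av k f := by
  unfold Av
  rw [← Finset.mul_sum, mul_div_assoc]

/-- splitting a range of length `a * b` -/
theorem wb4_range_mul (a b : ℕ) (h : ℕ → ℝ) :
    ∑ x ∈ range (a * b), h x = ∑ r ∈ range a, ∑ t ∈ range b, h (r + a * t) := by
  induction b with
  | zero => simp
  | succ b ih =>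
    rw [Nat.mul_succ, Finset.sum_range_add, ih]
    simp only [Finset.sum_range_succ, Finset.sum_add_distrib]
    congr 1
    refine Finset.sum_congr rfl fun r _ => ?_
    rw [add_comm]

theorem Av_of_per {k : ℕ} (j : ℕ) {f : ℤ → ℝ} (h : Per k f) : Av (k + j) f = Av k f := by
  unfold Av
  rw [pow_add, wb4_range_mul (3 ^ k) (3 ^ j) (fun x => f (x : ℤ))]
  have h1 : ∀ r ∈ range (3 ^ k), ∑ t ∈ range (3 ^ j), f (((r + 3 ^ k * t : ℕ)) : ℤ)
      = 3 ^ j * f (r : ℤ) := by
    intro r _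
    have h2 : ∀ t ∈ range (3 ^ j), f (((r + 3 ^ k * t : ℕ)) : ℤ) = f (r : ℤ) := by
      intro t _
      push_cast
      exact h _ _
    rw [Finset.sum_congr rfl h2]
    simp
  rw [Finset.sum_congr rfl h1, ← Finset.mul_sum]
  have h3 : (3 : ℝ) ^ j ≠ 0 := by positivity
  have h4 : (3 : ℝ) ^ k ≠ 0 := by positivity
  field_simp
  ring

/-- an affine map with invertible leading coefficient permutes the classes -/
theorem wb4_affine (s : ℕ) (f : ℤ → ℝ) (hf : Per s f) (A : ℕ) (b : ℤ) :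
    ∑ t ∈ range (3 ^ s), f (b + 2 ^ A * (t : ℤ)) = ∑ t ∈ range (3 ^ s), f (t : ℤ) := by
  have : NeZero (3 ^ s) := ⟨by positivity⟩
  have key : ∀ x y : ℤ, (x : ZMod (3 ^ s)) = (y : ZMod (3 ^ s)) → f x = f y := by
    intro x y hxy
    have h1 : ((3 ^ s : ℕ) : ℤ) ∣ y - x := (ZMod.intCast_eq_intCast_iff_dvd_sub x y (3 ^ s)).1 hxy
    obtain ⟨z, hz⟩ := h1
    have h2 : y = x + 3 ^ s * z := by
      push_cast at hz
      linarith
    rw [h2, hf]
  have hsum : ∀ g : ℤ → ℝ, (∀ x y : ℤ, (x : ZMod (3 ^ s)) = (y : ZMod (3 ^ s)) → g x = g y) →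
      ∑ t ∈ range (3 ^ s), g (t : ℤ) = ∑ y : ZMod (3 ^ s), g ((y.val : ℕ) : ℤ) := by
    intro g hg
    symm
    refine Finset.sum_bij (fun y _ => y.val) ?_ ?_ ?_ ?_
    · intro y _
      exact Finset.mem_range.2 (ZMod.val_lt y)
    · intro y _ z _ h
      exact ZMod.val_injective _ h
    · intro t ht
      refine ⟨(t : ZMod (3 ^ s)), Finset.mem_univ _, ?_⟩
      exact ZMod.val_cast_of_lt (Finset.mem_range.1 ht)
    · intro y _
      rfl
  rw [hsum f key]
  rw [hsum (fun x => f (b + 2 ^ A * x)) (by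
    intro x y hxy
    apply key
    push_cast
    rw [hxy])]
  have hu : IsUnit ((2 : ZMod (3 ^ s)) ^ A) := by
    apply IsUnit.pow
    have : IsUnit ((2 : ℕ) : ZMod (3 ^ s)) := by
      rw [ZMod.isUnit_iff_coprime]
      exact Nat.Coprime.pow_right _ (by decide)
    simpa using this
  obtain ⟨u, hu⟩ := hu
  have hb : Function.Bijective (fun y : ZMod (3 ^ s) => (b : ZMod (3 ^ s)) + 2 ^ A * y) := by
    rw [← hu]
    exact (Equiv.addLeft (b : ZMod (3 ^ s))).bijective.comp (Units.mulLeft u).bijective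
  rw [← Function.Bijective.sum_comp hb (fun y : ZMod (3 ^ s) => f ((y.val : ℕ) : ℤ))]
  refine Finset.sum_congr rfl fun y _ => ?_
  apply key
  push_cast
  simp

/-- exactly one class modulo `3 ^ k` is admissible -/
theorem wb4_unique (w : List ℕ) : ∃ r0 ∈ range (3 ^ w.length), ∀ r : ℕ, r ∈ range (3 ^ w.length) →
    (adm (r : ℤ) w ↔ r = r0) := by
  have hc : IsCoprime ((2 : ℤ) ^ w.sum) (3 ^ w.length) :=
    IsCoprime.pow (by norm_num : IsCoprime (2 : ℤ) 3)
  obtain ⟨a, b, hab⟩ := hc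
  have h3 : (0 : ℤ) < 3 ^ w.length := by positivity
  have hr0 : 0 ≤ (a * F w) % 3 ^ w.length := Int.emod_nonneg _ h3.ne'
  have hr1 : (a * F w) % 3 ^ w.length < 3 ^ w.length := Int.emod_lt_of_pos _ h3
  obtain ⟨r0, hr0'⟩ := Int.eq_ofNat_of_zero_le hr0
  have hlt : r0 < 3 ^ w.length := by
    rw [hr0'] at hr1
    exact_mod_cast hr1
  refine ⟨r0, Finset.mem_range.2 hlt, fun r hr => ?_⟩
  have hdiv : (3 : ℤ) ^ w.length ∣ a * F w - r0 := by
    rw [← hr0']
    exact Int.dvd_self_sub_emod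
  have h1 : adm (r : ℤ) w ↔ (3 : ℤ) ^ w.length ∣ (r : ℤ) - a * F w := by
    unfold adm
    constructor
    · intro h
      have h2 : (r : ℤ) - a * F w = a * (2 ^ w.sum * r - F w) + 3 ^ w.length * (b * r) := by
        linear_combination (-(r : ℤ)) * hab
      rw [h2]
      exact dvd_add (Dvd.dvd.mul_left h _) (dvd_mul_right _ _)
    · intro h
      have h2 : 2 ^ w.sum * (r : ℤ) - F w
          = 2 ^ w.sum * (r - a * F w) - 3 ^ w.length * (b * F w) := by
        linear_combination (F w : ℤ) * hab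
      rw [h2]
      exact dvd_sub (Dvd.dvd.mul_left h _) (dvd_mul_right _ _)
  rw [h1]
  constructor
  · intro h
    have h2 : (3 : ℤ) ^ w.length ∣ (r : ℤ) - r0 := by
      have := dvd_add h hdiv
      simpa using this
    have h4 : r ≡ r0 [MOD 3 ^ w.length] := by
      rw [Nat.modEq_iff_dvd]
      push_cast
      rw [← dvd_neg]
      simpa using h2
    exact Nat.ModEq.eq_of_lt_of_lt h4 (Finset.mem_range.1 hr) hlt
  · intro h
    rw [h, ← dvd_neg]
    simpa using hdiv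

theorem wb4_adm_add (w : List ℕ) (m t : ℤ) : adm (m + 3 ^ w.length * t) w ↔ adm m w := by
  unfold adm
  have h : 2 ^ w.sum * (m + 3 ^ w.length * t) - (F w : ℤ)
      = (2 ^ w.sum * m - F w) + 3 ^ w.length * (2 ^ w.sum * t) := by ring
  rw [h]
  exact (dvd_add_left (dvd_mul_right _ _))

theorem wb4_nd_add (w : List ℕ) (m t : ℤ) :
    nd (m + 3 ^ w.length * t) w = nd m w + 2 ^ w.sum * t := by
  unfold nd
  have h : 2 ^ w.sum * (m + 3 ^ w.length * t) - (F w : ℤ)
      = (2 ^ w.sum * m - F w) + 3 ^ w.length * (2 ^ w.sum * t) := by ring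
  rw [h, Int.add_mul_ediv_left _ _ (by positivity)]

/-- (EQ) -/
theorem Av_node (w : List ℕ) (s : ℕ) (f : ℤ → ℝ) (hf : Per s f) :
    Av (w.length + s) (fun m => if adm m w then wt w * f (nd m w) else 0) = pr w * Av s f := by
  unfold Av
  rw [pow_add, wb4_range_mul (3 ^ w.length) (3 ^ s)
    (fun x => if adm (x : ℤ) w then wt w * f (nd (x : ℤ) w) else 0)]
  have h1 : ∀ r ∈ range (3 ^ w.length),
      ∑ t ∈ range (3 ^ s), (if adm (((r + 3 ^ w.length * t : ℕ)) : ℤ) w then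
        wt w * f (nd (((r + 3 ^ w.length * t : ℕ)) : ℤ) w) else 0)
      = if adm (r : ℤ) w then wt w * ∑ t ∈ range (3 ^ s), f (t : ℤ) else 0 := by
    intro r _
    have h2 : ∀ t ∈ range (3 ^ s), (if adm (((r + 3 ^ w.length * t : ℕ)) : ℤ) w then
        wt w * f (nd (((r + 3 ^ w.length * t : ℕ)) : ℤ) w) else 0)
        = if adm (r : ℤ) w then wt w * f (nd (r : ℤ) w + 2 ^ w.sum * (t : ℤ)) else 0 := by
      intro t _
      push_cast
      rw [wb4_nd_add]
      simp only [wb4_adm_add]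
    rw [Finset.sum_congr rfl h2]
    by_cases h : adm (r : ℤ) w
    · simp only [h, if_true]
      rw [← Finset.mul_sum, wb4_affine s f hf]
    · simp [h]
  rw [Finset.sum_congr rfl h1]
  obtain ⟨r0, hr0, hr⟩ := wb4_unique w
  have h3 : ∀ r ∈ range (3 ^ w.length),
      (if adm (r : ℤ) w then wt w * ∑ t ∈ range (3 ^ s), f (t : ℤ) else 0)
      = if r = r0 then wt w * ∑ t ∈ range (3 ^ s), f (t : ℤ) else 0 := by
    intro r hr'
    simp only [hr r hr']
  rw [Finset.sum_congr rfl h3, Finset.sum_ite_eq' , if_pos hr0]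
  unfold wt pr
  field_simp
  ring

theorem node_per (w : List ℕ) (s : ℕ) (f : ℤ → ℝ) (hf : Per s f) :
    Per (w.length + s) (fun m => if adm m w then wt w * f (nd m w) else 0) := by
  intro v z
  have h : v + 3 ^ (w.length + s) * z = v + 3 ^ w.length * (3 ^ s * z) := by ring
  simp only [h, wb4_adm_add, wb4_nd_add]
  have h2 : nd v w + 2 ^ w.sum * (3 ^ s * z) = nd v w + 3 ^ s * (2 ^ w.sum * z) := by ring
  rw [h2, hf]

end Pool.Agent.Lib.MP_e43fce_nt_nat
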