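import Pool.Agent.Lib.MP_e43fce_nt_nat.Words
import Pool.Agent.Lib.MP_e43fce_nt_nat.Rho

/-! KL3: definitions for the renewal inequality. -/

set_option autoImplicit false

namespace Pool.Agent.Lib.MP_e43fce_nt_nat

open Finset

/-- valuation of the next odd step -/
def vl (n : ℕ) : ℕ := padicValNat 2 (3 * n + 1)

/-- Syracuse map -/
def syr (n : ℕ) : ℕ := (3 * n + 1) / 2 ^ vl n

/-- `K`-th Syracuse iterate -/
def root : ℕ → ℕ → ℕ
  | 0, n => n
  | K + 1, n => syr (root K n)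

/-- the word of the first `K` odd steps of `n`, last valuation first: `n = nd (root K n) (vw K n)` -/
def vw : ℕ → ℕ → List ℕ
  | 0, _ => []
  | K + 1, n => vl (root K n) :: vw K n

/-- odd numbers up to `Y` -/
noncomputable def oddS (Y : ℝ) : Finset ℕ := (Icc 1 ⌊Y⌋₊).filter (fun n => n % 2 = 1)

/-- the weight `M_i` -/
noncomputable def MM (i : ℕ) (s : ℤ) : ℝ := ∑ u ∈ words i i, if adm s u then wt u else 0

/-- its mean -/
noncomputable def mm (i : ℕ) : ℝ := (1 - 1 / 2 ^ i) ^ i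

/-- weighted counting function over the odd numbers -/
noncomputable def NN (i : ℕ) (p : ℕ → ℝ) (Y : ℝ) : ℝ := ∑ n ∈ oddS Y, p n * MM i n

/-- weighted density at height `x` (log scale) -/
noncomputable def DD (i : ℕ) (p : ℕ → ℝ) (x : ℝ) : ℝ := NN i p (Real.exp x) / Real.exp x

/-- the window `|A - 2K| <= e K` -/
noncomputable def win (e : ℝ) (K : ℕ) : Finset ℕ :=
  (range (3 * K + 1)).filter (fun A : ℕ => |(A : ℝ) - 2 * K| ≤ e * K)

/-- good words of length `K` -/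
noncomputable def Good (e : ℝ) (K : ℕ) : Finset (List ℕ) :=
  (words (3 * K) K).filter (fun w => w.sum ∈ win e K ∧ F w ≤ K ^ 2 * 2 ^ w.sum)

/-- the small depth `floor (K^(1/8))` -/
def i1 (K : ℕ) : ℕ := Nat.sqrt (Nat.sqrt (Nat.sqrt K))

/-- `0 <= p <= 1` -/
def Unit01 (p : ℕ → ℝ) : Prop := ∀ n, 0 ≤ p n ∧ p n ≤ 1

/-- `log Z_A` for `X = exp x`: `x + K log 3 - A log 2` -/
noncomputable def zz (x : ℝ) (K A : ℕ) : ℝ := x + K * Real.log 3 - A * Real.log 2

/-- hypothesis of Lemma R -/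
def RHyp (e : ℝ) (K : ℕ) (p : ℕ → ℝ) (q : ℕ → ℕ → ℝ) : Prop :=
  ∀ s n : ℕ, s % 2 = 1 → ∀ w ∈ Good e K, adm s w → nd s w = (n : ℤ) → p n ≤ q w.sum s

end Pool.Agent.Lib.MP_e43fce_nt_nat
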