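import Pool.Agent.Lib.MP_e43fce_nt_nat.Words
import Pool.Agent.Lib.MP_e43fce_nt_nat.Defs3

/-! WB5: odd numbers of an interval of length `2 * 3 ^ k` meet each class modulo `3 ^ k` once. -/

set_option autoImplicit false

namespace Pool.Agent.Lib.MP_e43fce_nt_nat

open Finset

/-- `f` depends on the residue -/
theorem wb5_mod {k : ℕ} {f : ℤ → ℝ} (hper : Per k f) (n : ℕ) :
    f ((n % 3 ^ k : ℕ) : ℤ) = f (n : ℤ) := by
  have h := hper ((n % 3 ^ k : ℕ) : ℤ) ((n / 3 ^ k : ℕ) : ℤ)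
  rw [← h]
  congr 1
  have h2 := Nat.mod_add_div n (3 ^ k)
  exact_mod_cast h2

theorem wb5_inj {k c t t' : ℕ} (ht : t < 3 ^ k) (ht' : t' < 3 ^ k)
    (h : (2 * (t + c) + 1) % 3 ^ k = (2 * (t' + c) + 1) % 3 ^ k) : t = t' := by
  have h1 : 2 * (t + c) + 1 ≡ 2 * (t' + c) + 1 [MOD 3 ^ k] := h
  have h2 : 2 * (t + c) ≡ 2 * (t' + c) [MOD 3 ^ k] := Nat.ModEq.add_right_cancel' 1 h1
  have hc : Nat.gcd (3 ^ k) 2 = 1 := by
    apply Nat.Coprime.pow_left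
    norm_num
  have h3 : t + c ≡ t' + c [MOD 3 ^ k] := Nat.ModEq.cancel_left_of_coprime hc h2
  have h4 : t ≡ t' [MOD 3 ^ k] := Nat.ModEq.add_right_cancel' c h3
  exact Nat.ModEq.eq_of_lt_of_lt h4 ht ht'

/-- a block of `3 ^ k` odd numbers -/
theorem wb5_block {k : ℕ} {f : ℤ → ℝ} (hper : Per k f) (c : ℕ) :
    ∑ t ∈ range (3 ^ k), f ((2 * (t + c) + 1 : ℕ) : ℤ) = ∑ x ∈ range (3 ^ k), f (x : ℤ) := by
  have himg : (range (3 ^ k)).image (fun t => (2 * (t + c) + 1) % 3 ^ k) = range (3 ^ k) := by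
    apply Finset.eq_of_subset_of_card_le
    · intro x hx
      rw [mem_image] at hx
      obtain ⟨t, -, rfl⟩ := hx
      rw [mem_range]
      exact Nat.mod_lt _ (by positivity)
    · rw [card_image_of_injOn]
      intro t ht t' ht' h
      exact wb5_inj (mem_range.1 ht) (mem_range.1 ht') h
  conv_rhs => rw [← himg]
  rw [sum_image]
  · apply sum_congr rfl
    intro t _
    exact (wb5_mod hper _).symm
  · intro t ht t' ht' h
    exact wb5_inj (mem_range.1 ht) (mem_range.1 ht') h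

theorem wb5_part {k : ℕ} {f : ℤ → ℝ} (hf : ∀ x, 0 ≤ f x) (hper : Per k f) (c r : ℕ)
    (hr : r ≤ 3 ^ k) :
    ∑ t ∈ range r, f ((2 * (t + c) + 1 : ℕ) : ℤ) ≤ ∑ x ∈ range (3 ^ k), f (x : ℤ) := by
  rw [← wb5_block hper c]
  apply sum_le_sum_of_subset_of_nonneg
  · intro x hx
    rw [mem_range] at hx ⊢
    omega
  · intro x _ _
    exact hf _

theorem wb5_full {k : ℕ} {f : ℤ → ℝ} (hper : Per k f) (q : ℕ) :
    ∑ t ∈ range (q * 3 ^ k), f ((2 * t + 1 : ℕ) : ℤ) = q * ∑ x ∈ range (3 ^ k), f (x : ℤ) := by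
  induction q with
  | zero => simp
  | succ q ih =>
    rw [Nat.succ_mul, Finset.sum_range_add, ih]
    have h := wb5_block hper (q * 3 ^ k)
    have h2 : ∑ x ∈ range (3 ^ k), f ((2 * (q * 3 ^ k + x) + 1 : ℕ) : ℤ) =
        ∑ x ∈ range (3 ^ k), f (x : ℤ) := by
      rw [← h]
      apply sum_congr rfl
      intro x _
      rw [add_comm (q * 3 ^ k) x]
    rw [h2]
    push_cast
    ring

theorem wb5_oddS (Y : ℝ) (f : ℤ → ℝ) :
    ∑ n ∈ oddS Y, f n = ∑ t ∈ range ((⌊Y⌋₊ + 1) / 2), f ((2 * t + 1 : ℕ) : ℤ) := by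
  have himg : oddS Y = (range ((⌊Y⌋₊ + 1) / 2)).image (fun t => 2 * t + 1) := by
    ext n
    simp only [oddS, mem_filter, mem_Icc, mem_image, mem_range]
    constructor
    · rintro ⟨⟨h1, h2⟩, h3⟩
      exact ⟨n / 2, by omega, by omega⟩
    · rintro ⟨t, ht, rfl⟩
      omega
  rw [himg, sum_image]
  intro a _ b _ h
  simpa using h

/-- every class modulo `3^k` is met once by the odd numbers of an interval of length `2 * 3^k` -/
theorem odd_sum (k : ℕ) (f : ℤ → ℝ) (hf : ∀ x, 0 ≤ f x) (hper : Per k f) (Y : ℝ) (hY : 0 ≤ Y) :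
    |∑ n ∈ oddS Y, f n - Y / 2 * Av k f| ≤ 3 ^ k * Av k f := by
  set S : ℝ := ∑ x ∈ range (3 ^ k), f (x : ℤ) with hS
  have hS0 : 0 ≤ S := sum_nonneg fun x _ => hf _
  have h3 : (0 : ℝ) < 3 ^ k := by positivity
  have hAv : Av k f = S / 3 ^ k := rfl
  set m := (⌊Y⌋₊ + 1) / 2 with hm
  set q := m / 3 ^ k with hq
  set r := m % 3 ^ k with hr
  have hmq : m = q * 3 ^ k + r := by
    rw [mul_comm]; exact (Nat.div_add_mod m (3 ^ k)).symm
  have hrlt : r < 3 ^ k := Nat.mod_lt _ (by positivity)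
  have hsum : ∑ n ∈ oddS Y, f n = q * S + ∑ t ∈ range r, f ((2 * (q * 3 ^ k + t) + 1 : ℕ) : ℤ) := by
    rw [wb5_oddS, ← hm, hmq, Finset.sum_range_add, wb5_full hper q]
  have hp0 : 0 ≤ ∑ t ∈ range r, f ((2 * (q * 3 ^ k + t) + 1 : ℕ) : ℤ) := sum_nonneg fun x _ => hf _
  have hp1 : ∑ t ∈ range r, f ((2 * (q * 3 ^ k + t) + 1 : ℕ) : ℤ) ≤ S := by
    have h := wb5_part hf hper (q * 3 ^ k) r hrlt.le
    refine le_trans (le_of_eq ?_) h
    apply sum_congr rfl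
    intro x _
    rw [add_comm (q * 3 ^ k) x]
  have hfl1 : (⌊Y⌋₊ : ℝ) ≤ Y := Nat.floor_le hY
  have hfl2 : Y < (⌊Y⌋₊ : ℝ) + 1 := Nat.lt_floor_add_one Y
  have hm1 : (m : ℝ) ≤ (Y + 1) / 2 := by
    have : 2 * m ≤ ⌊Y⌋₊ + 1 := by omega
    have h : (2 : ℝ) * m ≤ (⌊Y⌋₊ : ℝ) + 1 := by exact_mod_cast this
    linarith
  have hm2 : Y / 2 - 1 / 2 < m := by
    have : ⌊Y⌋₊ ≤ 2 * m := by omega
    have h : (⌊Y⌋₊ : ℝ) ≤ 2 * m := by exact_mod_cast this
    linarith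
  have hmq' : (m : ℝ) = q * 3 ^ k + r := by exact_mod_cast hmq
  have hr1 : (r : ℝ) + 1 ≤ 3 ^ k := by exact_mod_cast hrlt
  have hr0 : (0 : ℝ) ≤ r := Nat.cast_nonneg r
  have h3one : (1 : ℝ) ≤ 3 ^ k := one_le_pow₀ (by norm_num)
  rw [hAv, hsum, abs_le]
  have e1 : (3 : ℝ) ^ k * (S / 3 ^ k) = S := by field_simp
  have e2 : Y / 2 * (S / 3 ^ k) = (Y / (2 * 3 ^ k)) * S := by field_simp
  rw [e1, e2]
  constructor
  · -- lower bound: `q ≥ Y / (2 * 3 ^ k) - 1`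
    have h5 : Y / (2 * 3 ^ k) ≤ q + 1 := by
      rw [div_le_iff₀ (by positivity)]
      nlinarith
    have h6 := mul_le_mul_of_nonneg_right h5 hS0
    nlinarith
  · rcases Nat.eq_zero_or_pos r with h0 | h0
    · have hz : ∑ t ∈ range r, f ((2 * (q * 3 ^ k + t) + 1 : ℕ) : ℤ) = 0 := by
        rw [h0]; simp
      rw [hz]
      have h5 : (q : ℝ) ≤ Y / (2 * 3 ^ k) + 1 := by
        have h7 : (q : ℝ) ≤ (Y + 2 * 3 ^ k) / (2 * 3 ^ k) := by
          rw [le_div_iff₀ (by positivity)]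
          rw [h0] at hmq'
          push_cast at hmq'
          nlinarith
        have h8 : (Y + 2 * 3 ^ k) / (2 * 3 ^ k) = Y / (2 * 3 ^ k) + 1 := by field_simp
        rwa [h8] at h7
      have h6 := mul_le_mul_of_nonneg_right h5 hS0
      nlinarith
    · have h0' : (1 : ℝ) ≤ r := by exact_mod_cast h0
      have h5 : (q : ℝ) ≤ Y / (2 * 3 ^ k) := by
        rw [le_div_iff₀ (by positivity)]
        nlinarith
      have h6 := mul_le_mul_of_nonneg_right h5 hS0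
      nlinarith

theorem odd_sum_le (k : ℕ) (f : ℤ → ℝ) (hf : ∀ x, 0 ≤ f x) (hper : Per k f) (Y : ℝ)
    (hY : 2 * 3 ^ k ≤ Y) : ∑ n ∈ oddS Y, f n ≤ Y * Av k f := by
  have h3 : (0 : ℝ) < 3 ^ k := by positivity
  have h := odd_sum k f hf hper Y (by linarith)
  rw [abs_le] at h
  have hA : 0 ≤ Av k f := by
    unfold Av
    apply div_nonneg _ h3.le
    exact sum_nonneg fun x _ => hf _
  nlinarith [h.2]

end Pool.Agent.Lib.MP_e43fce_nt_nat
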