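import Pool.Agent.Lib.MP_e43fce_nt_nat.INCg
import Pool.Agent.Lib.MP_e43fce_nt_nat.WB1
import Pool.Agent.Lib.MP_e43fce_nt_nat.WB2
import Pool.Agent.Lib.MP_e43fce_nt_nat.WB4
import Pool.Agent.Lib.MP_e43fce_nt_nat.WB5

/-! S4 of Lemma R: only the first `j` letters are kept. -/

set_option autoImplicit false

namespace Pool.Agent.Lib.MP_e43fce_nt_nat

open Finset

theorem s4_per_mono {j K : ℕ} (h : j ≤ K) {f : ℤ → ℝ} (hf : Per j f) : Per K f := by
  intro v z
  have h1 : (3 : ℤ) ^ K * z = 3 ^ j * (3 ^ (K - j) * z) := by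
    rw [← mul_assoc, ← pow_add, Nat.add_sub_cancel' h]
  rw [h1]
  exact hf _ _

theorem s4_per_sum {α : Type} {K : ℕ} (s : Finset α) (f : α → ℤ → ℝ) (h : ∀ a ∈ s, Per K (f a)) :
    Per K (fun m => ∑ a ∈ s, f a m) := by
  intro v z
  exact sum_congr rfl fun a ha => h a ha v z

theorem s4_per_word (w : List ℕ) (c : ℝ) :
    Per w.length (fun m => if adm m w then wt w * c else 0) := by
  have h := node_per w 0 (fun _ => c) (fun _ _ => rfl)
  simpa using h

/-- S4: only the first `j` letters are kept -/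
theorem step_S4 (B : ℕ) : ∃ C : ℝ, 0 < C ∧ ∀ K j A : ℕ, 1 ≤ j → j < K → A ≤ 3 * K → ∀ Z : ℝ,
    2 * 3 ^ K ≤ Z → ∀ q : ℕ → ℝ, Unit01 q →
    ∑ s ∈ oddS Z, q s * ∑ w ∈ (words (3 * K) K).filter (fun w => w.sum = A),
        (if adm s w then wt w else 0)
      ≤ ∑ s ∈ oddS Z, q s * ∑ u ∈ words (3 * K) j,
          (if adm s u then wt u * rho (K - j) (A - u.sum) else 0) + C * Z / (j : ℝ) ^ B := by
  obtain ⟨C, hC, hinc⟩ := INCg B
  refine ⟨C, hC, ?_⟩
  intro K j A hj hjK hA Z hZ q hq
  set τ : ℕ → ℝ := fun a => if a = A then 1 else 0 with hτ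
  have hτ01 : Unit01 τ := by
    intro a
    simp only [hτ]
    split_ifs <;> norm_num
  set G1 : ℤ → ℝ := fun m => ∑ w ∈ words (3 * K) K, if adm m w then wt w * τ w.sum else 0 with hG1
  set G2 : ℤ → ℝ := fun m => ∑ w ∈ words (3 * K) j, if adm m w then
      wt w * ∑ v ∈ words (3 * K) (K - j), pr v * τ (w.sum + v.sum) else 0 with hG2
  have hI : Av K (fun m => |G1 m - G2 m|) ≤ C / (j : ℝ) ^ B :=
    hinc j K (3 * K) hj hjK.le (by omega) τ hτ01
  have e1 : ∀ s : ℕ, (∑ w ∈ (words (3 * K) K).filter (fun w => w.sum = A),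
      (if adm s w then wt w else 0)) = G1 s := by
    intro s
    simp only [hG1, sum_filter]
    apply sum_congr rfl
    intro w _
    simp only [hτ]
    split_ifs <;> simp
  have hrho : ∀ u : List ℕ, ∑ v ∈ words (3 * K) (K - j), pr v * τ (u.sum + v.sum) =
      rho (K - j) (A - u.sum) := by
    intro u
    by_cases hu : u.sum ≤ A
    · rw [← rho_words (L := 3 * K) (K := K - j) (A := A - u.sum) (by omega), sum_filter]
      apply sum_congr rfl
      intro v _
      simp only [hτ]
      by_cases hv : v.sum = A - u.sum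
      · rw [if_pos hv, if_pos (by omega), mul_one]
      · rw [if_neg hv, if_neg (by omega), mul_zero]
    · have h0 : A - u.sum = 0 := by omega
      rw [h0]
      have h1 : rho (K - j) 0 = 0 := by
        unfold rho
        rw [if_neg (by omega), if_pos rfl]
      rw [h1]
      apply sum_eq_zero
      intro v _
      simp only [hτ]
      rw [if_neg (by omega), mul_zero]
  have e2 : ∀ s : ℕ, (∑ u ∈ words (3 * K) j,
      (if adm s u then wt u * rho (K - j) (A - u.sum) else 0)) = G2 s := by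
    intro s
    simp only [hG2]
    apply sum_congr rfl
    intro u _
    rw [hrho u]
  have hp1 : Per K G1 := by
    apply s4_per_sum
    intro w hw
    have hl := ((mem_words _ _ _).1 hw).1
    have h := s4_per_word w (τ w.sum)
    rwa [hl] at h
  have hp2 : Per K G2 := by
    apply s4_per_sum
    intro w hw
    have hl := ((mem_words _ _ _).1 hw).1
    have h := s4_per_word w (∑ v ∈ words (3 * K) (K - j), pr v * τ (w.sum + v.sum))
    rw [hl] at h
    exact s4_per_mono hjK.le h
  have hper : Per K (fun m => |G1 m - G2 m|) := by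
    intro v z
    simp only [hp1 v z, hp2 v z]
  have hsum := odd_sum_le K (fun m => |G1 m - G2 m|) (fun x => abs_nonneg _) hper Z hZ
  have hZ0 : 0 ≤ Z := le_trans (by positivity) hZ
  have hfin : ∑ s ∈ oddS Z, q s * G1 s - ∑ s ∈ oddS Z, q s * G2 s ≤
      ∑ s ∈ oddS Z, |G1 s - G2 s| := by
    rw [← sum_sub_distrib]
    apply sum_le_sum
    intro s _
    have h1 := (hq s).1
    have h2 := (hq s).2
    have h3 : q s * G1 s - q s * G2 s = q s * (G1 s - G2 s) := by ring
    rw [h3]
    calc q s * (G1 s - G2 s) ≤ q s * |G1 s - G2 s| :=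
          mul_le_mul_of_nonneg_left (le_abs_self _) h1
      _ ≤ 1 * |G1 s - G2 s| := mul_le_mul_of_nonneg_right h2 (abs_nonneg _)
      _ = _ := one_mul _
  have hlast : Z * Av K (fun m => |G1 m - G2 m|) ≤ C * Z / (j : ℝ) ^ B := by
    calc Z * Av K (fun m => |G1 m - G2 m|) ≤ Z * (C / (j : ℝ) ^ B) :=
          mul_le_mul_of_nonneg_left hI hZ0
      _ = _ := by ring
  simp only [e1, e2]
  linarith

end Pool.Agent.Lib.MP_e43fce_nt_nat
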