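import Pool.Agent.Lib.MP_e43fce_nt_nat.MMs
import Pool.Agent.Lib.MP_e43fce_nt_nat.TV

/-! S5 of Lemma R. -/

set_option autoImplicit false

namespace Pool.Agent.Lib.MP_e43fce_nt_nat

open Finset

theorem S5_wt_nonneg (w : List ℕ) : 0 ≤ wt w := by
  unfold wt
  positivity

theorem S5_pr_nonneg (w : List ℕ) : 0 ≤ pr w := by
  unfold pr
  positivity

theorem S5_sub {L L' k : ℕ} (h : L ≤ L') : words L k ⊆ words L' k := by
  intro w hw
  rw [mem_words] at hw ⊢
  exact ⟨hw.1, fun a ha => ⟨(hw.2 a ha).1, (hw.2 a ha).2.trans h⟩⟩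

/-- the sum over the odd numbers of one node weight -/
theorem S5_node {j : ℕ} {Z : ℝ} (hZ : 2 * 3 ^ j ≤ Z) (u : List ℕ) (hu : u.length = j) :
    ∑ s ∈ oddS Z, (if adm (s : ℤ) u then wt u else 0) ≤ Z * pr u := by
  have h1 : Per 0 (fun _ : ℤ => (1 : ℝ)) := fun _ _ => rfl
  have h2 := node_per u 0 (fun _ => 1) h1
  have h3 := Av_node u 0 (fun _ => 1) h1
  rw [hu, add_zero] at h2 h3
  have h4 := odd_sum_le j (fun m => if adm m u then wt u * 1 else 0) (by
    intro x
    show 0 ≤ (if adm x u then wt u * 1 else 0)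
    split_ifs
    · have := S5_wt_nonneg u
      linarith
    · exact le_rfl) h2 Z hZ
  rw [h3] at h4
  have h5 : Av 0 (fun _ : ℤ => (1 : ℝ)) = 1 := by
    unfold Av
    simp
  rw [h5, mul_one] at h4
  simpa using h4

/-- S5: the kernel is replaced by `rho K A`, letters `> j` dropped -/
theorem step_S5 {K j : ℕ} (hj : 1 ≤ j) (hjK : j < K) {X : ℝ} (hX : 0 ≤ X) (W : Finset ℕ)
    (hZ : ∀ A ∈ W, 2 * 3 ^ j ≤ 3 ^ K * X / 2 ^ A) {q : ℕ → ℕ → ℝ} (hq : ∀ A, Unit01 (q A)) :
    ∑ A ∈ W, (2 : ℝ) ^ A / 3 ^ K * ∑ s ∈ oddS (3 ^ K * X / 2 ^ A), q A s *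
        ∑ u ∈ words (3 * K) j, (if adm s u then wt u * rho (K - j) (A - u.sum) else 0)
      ≤ ∑ A ∈ W, rho K A * ((2 : ℝ) ^ A / 3 ^ K * NN j (q A) (3 ^ K * X / 2 ^ A))
        + X * (8 * j / Real.sqrt ((K - j : ℕ) : ℝ) + j / 2 ^ j) := by
  have hsub : words j j ⊆ words (3 * K) j := S5_sub (by omega)
  -- pointwise bound of the kernel
  have hker : ∀ (A : ℕ) (s : ℤ), ∑ u ∈ words (3 * K) j,
      (if adm s u then wt u * rho (K - j) (A - u.sum) else 0) ≤
      rho K A * MM j s + (∑ u ∈ words (3 * K) j, |rho (K - j) (A - u.sum) - rho K A| *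
        (if adm s u then wt u else 0) +
        ∑ u ∈ words (3 * K) j \ words j j, rho K A * (if adm s u then wt u else 0)) := by
    intro A s
    have e1 : ∑ u ∈ words (3 * K) j,
        (if adm s u then wt u * rho (K - j) (A - u.sum) else 0) ≤
        ∑ u ∈ words (3 * K) j, |rho (K - j) (A - u.sum) - rho K A| *
        (if adm s u then wt u else 0) +
        ∑ u ∈ words (3 * K) j, rho K A * (if adm s u then wt u else 0) := by
      rw [← Finset.sum_add_distrib]
      refine Finset.sum_le_sum (fun u _ => ?_)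
      split_ifs with h
      · have h1 := S5_wt_nonneg u
        have h2 := le_abs_self (rho (K - j) (A - u.sum) - rho K A)
        nlinarith
      · simp
    have e2 : ∑ u ∈ words (3 * K) j, rho K A * (if adm s u then wt u else 0) =
        rho K A * MM j s + ∑ u ∈ words (3 * K) j \ words j j,
          rho K A * (if adm s u then wt u else 0) := by
      unfold MM
      rw [Finset.mul_sum, add_comm, Finset.sum_sdiff hsub]
    rw [e2] at e1
    linarith
  -- bound for every `A`
  have hA : ∀ A ∈ W, (2 : ℝ) ^ A / 3 ^ K * ∑ s ∈ oddS (3 ^ K * X / 2 ^ A), q A s *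
        ∑ u ∈ words (3 * K) j, (if adm s u then wt u * rho (K - j) (A - u.sum) else 0) ≤
      rho K A * ((2 : ℝ) ^ A / 3 ^ K * NN j (q A) (3 ^ K * X / 2 ^ A)) +
      X * (∑ u ∈ words (3 * K) j, pr u * |rho (K - j) (A - u.sum) - rho K A| +
        rho K A * ∑ u ∈ words (3 * K) j \ words j j, pr u) := by
    intro A hAW
    set Z : ℝ := 3 ^ K * X / 2 ^ A with hZdef
    have hZ1 := hZ A hAW
    have hr := rho_nonneg K A
    have h1 : ∑ s ∈ oddS Z, q A s *
        ∑ u ∈ words (3 * K) j, (if adm s u then wt u * rho (K - j) (A - u.sum) else 0) ≤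
        rho K A * NN j (q A) Z + Z * (∑ u ∈ words (3 * K) j,
          pr u * |rho (K - j) (A - u.sum) - rho K A| +
        rho K A * ∑ u ∈ words (3 * K) j \ words j j, pr u) := by
      have h2 : ∀ s ∈ oddS Z, q A s *
          ∑ u ∈ words (3 * K) j, (if adm s u then wt u * rho (K - j) (A - u.sum) else 0) ≤
          rho K A * (q A s * MM j s) + (∑ u ∈ words (3 * K) j,
            |rho (K - j) (A - u.sum) - rho K A| * (if adm (s : ℤ) u then wt u else 0) +
            ∑ u ∈ words (3 * K) j \ words j j,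
              rho K A * (if adm (s : ℤ) u then wt u else 0)) := by
        intro s _
        have hq0 := (hq A s).1
        have hq1 := (hq A s).2
        have hnn : 0 ≤ ∑ u ∈ words (3 * K) j,
            |rho (K - j) (A - u.sum) - rho K A| * (if adm (s : ℤ) u then wt u else 0) +
            ∑ u ∈ words (3 * K) j \ words j j,
              rho K A * (if adm (s : ℤ) u then wt u else 0) := by
          apply add_nonneg
          · refine Finset.sum_nonneg (fun u _ => mul_nonneg (abs_nonneg _) ?_)
            split_ifs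
            · exact S5_wt_nonneg u
            · exact le_rfl
          · refine Finset.sum_nonneg (fun u _ => mul_nonneg hr ?_)
            split_ifs
            · exact S5_wt_nonneg u
            · exact le_rfl
        calc q A s * ∑ u ∈ words (3 * K) j,
              (if adm s u then wt u * rho (K - j) (A - u.sum) else 0)
            ≤ q A s * (rho K A * MM j s + (∑ u ∈ words (3 * K) j,
              |rho (K - j) (A - u.sum) - rho K A| * (if adm (s : ℤ) u then wt u else 0) +
              ∑ u ∈ words (3 * K) j \ words j j,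
                rho K A * (if adm (s : ℤ) u then wt u else 0))) :=
              mul_le_mul_of_nonneg_left (hker A s) hq0
          _ = rho K A * (q A s * MM j s) + q A s * (∑ u ∈ words (3 * K) j,
              |rho (K - j) (A - u.sum) - rho K A| * (if adm (s : ℤ) u then wt u else 0) +
              ∑ u ∈ words (3 * K) j \ words j j,
                rho K A * (if adm (s : ℤ) u then wt u else 0)) := by ring
          _ ≤ _ := by
              have := mul_le_mul_of_nonneg_right hq1 hnn
              linarith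
      refine (Finset.sum_le_sum h2).trans ?_
      rw [Finset.sum_add_distrib, ← Finset.mul_sum, Finset.sum_add_distrib]
      have h3 : ∑ s ∈ oddS Z, ∑ u ∈ words (3 * K) j,
          |rho (K - j) (A - u.sum) - rho K A| * (if adm (s : ℤ) u then wt u else 0) ≤
          Z * ∑ u ∈ words (3 * K) j, pr u * |rho (K - j) (A - u.sum) - rho K A| := by
        rw [Finset.sum_comm, Finset.mul_sum]
        refine Finset.sum_le_sum (fun u hu => ?_)
        rw [← Finset.mul_sum]
        have h4 := S5_node hZ1 u ((mem_words _ _ _).1 hu).1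
        have h5 := mul_le_mul_of_nonneg_left h4 (abs_nonneg (rho (K - j) (A - u.sum) - rho K A))
        calc _ ≤ _ := h5
          _ = _ := by ring
      have h6 : ∑ s ∈ oddS Z, ∑ u ∈ words (3 * K) j \ words j j,
          rho K A * (if adm (s : ℤ) u then wt u else 0) ≤
          Z * (rho K A * ∑ u ∈ words (3 * K) j \ words j j, pr u) := by
        rw [Finset.sum_comm, Finset.mul_sum, Finset.mul_sum]
        refine Finset.sum_le_sum (fun u hu => ?_)
        rw [← Finset.mul_sum]
        have h4 := S5_node hZ1 u ((mem_words _ _ _).1 (Finset.mem_sdiff.1 hu).1).1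
        have h5 := mul_le_mul_of_nonneg_left h4 hr
        calc _ ≤ _ := h5
          _ = _ := by ring
      have h7 : ∑ s ∈ oddS Z, q A s * MM j s = NN j (q A) Z := rfl
      rw [h7, mul_add]
      linarith
    have hc : 0 ≤ (2 : ℝ) ^ A / 3 ^ K := by positivity
    have h8 : (2 : ℝ) ^ A / 3 ^ K * Z = X := by
      rw [hZdef]
      field_simp
    calc _ ≤ (2 : ℝ) ^ A / 3 ^ K * (rho K A * NN j (q A) Z + Z * (∑ u ∈ words (3 * K) j,
          pr u * |rho (K - j) (A - u.sum) - rho K A| +
        rho K A * ∑ u ∈ words (3 * K) j \ words j j, pr u)) := mul_le_mul_of_nonneg_left h1 hc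
      _ = rho K A * ((2 : ℝ) ^ A / 3 ^ K * NN j (q A) Z) +
        (2 : ℝ) ^ A / 3 ^ K * Z * (∑ u ∈ words (3 * K) j,
          pr u * |rho (K - j) (A - u.sum) - rho K A| +
        rho K A * ∑ u ∈ words (3 * K) j \ words j j, pr u) := by ring
      _ = _ := by rw [h8]
  refine (Finset.sum_le_sum hA).trans ?_
  rw [Finset.sum_add_distrib, ← Finset.mul_sum]
  have hfin : ∑ A ∈ W, (∑ u ∈ words (3 * K) j, pr u * |rho (K - j) (A - u.sum) - rho K A| +
        rho K A * ∑ u ∈ words (3 * K) j \ words j j, pr u) ≤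
      8 * j / Real.sqrt ((K - j : ℕ) : ℝ) + j / 2 ^ j := by
    obtain ⟨N, hN⟩ : ∃ N, W ⊆ range N := by
      refine ⟨W.sup id + 1, ?_⟩
      intro A hA
      rw [Finset.mem_range, Nat.lt_succ_iff]
      exact Finset.le_sup (f := id) hA
    rw [Finset.sum_add_distrib]
    have t1 : ∑ A ∈ W, ∑ u ∈ words (3 * K) j, pr u * |rho (K - j) (A - u.sum) - rho K A| ≤
        8 * j / Real.sqrt ((K - j : ℕ) : ℝ) := by
      have t2 : ∑ A ∈ W, ∑ u ∈ words (3 * K) j, pr u * |rho (K - j) (A - u.sum) - rho K A| ≤
          ∑ A ∈ range N, ∑ u ∈ words (3 * K) j,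
            pr u * |rho (K - j) (A - u.sum) - rho K A| :=
        Finset.sum_le_sum_of_subset_of_nonneg hN (fun A _ _ =>
          Finset.sum_nonneg (fun u _ => mul_nonneg (S5_pr_nonneg u) (abs_nonneg _)))
      refine t2.trans ?_
      rw [Finset.sum_comm]
      have t3 : ∀ u ∈ words (3 * K) j, u.sum ∈ range (3 * K * j + 1) := by
        intro u hu
        rw [mem_words] at hu
        rw [Finset.mem_range, Nat.lt_succ_iff]
        have := List.sum_le_card_nsmul u (3 * K) (fun a ha => (hu.2 a ha).2)
        rw [hu.1, smul_eq_mul] at this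
        calc u.sum ≤ j * (3 * K) := this
          _ = 3 * K * j := by ring
      have t4 : ∑ u ∈ words (3 * K) j, ∑ A ∈ range N,
          pr u * |rho (K - j) (A - u.sum) - rho K A| =
          ∑ a ∈ range (3 * K * j + 1), ∑ u ∈ (words (3 * K) j).filter (fun u => u.sum = a),
            ∑ A ∈ range N, pr u * |rho (K - j) (A - u.sum) - rho K A| :=
        (Finset.sum_fiberwise_of_maps_to t3 _).symm
      rw [t4]
      refine le_trans (Finset.sum_le_sum (fun a _ => ?_)) (TV3 hjK N (3 * K * j + 1))
      have t5 : ∑ u ∈ (words (3 * K) j).filter (fun u => u.sum = a),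
            ∑ A ∈ range N, pr u * |rho (K - j) (A - u.sum) - rho K A| =
          (∑ u ∈ (words (3 * K) j).filter (fun u => u.sum = a), pr u) *
            ∑ A ∈ range N, |rho (K - j) (A - a) - rho K A| := by
        rw [Finset.sum_mul]
        refine Finset.sum_congr rfl (fun u hu => ?_)
        rw [(Finset.mem_filter.1 hu).2, Finset.mul_sum]
      rw [t5]
      exact mul_le_mul_of_nonneg_right (rho_words_le _ _ _)
        (Finset.sum_nonneg (fun A _ => abs_nonneg _))
    have t6 : ∑ A ∈ W, rho K A * ∑ u ∈ words (3 * K) j \ words j j, pr u ≤ j / 2 ^ j := by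
      rw [← Finset.sum_mul]
      have t7 : ∑ A ∈ W, rho K A ≤ 1 :=
        (Finset.sum_le_sum_of_subset_of_nonneg hN (fun A _ _ => rho_nonneg K A)).trans
          (rho_sum_le K N)
      have t8 : 0 ≤ ∑ u ∈ words (3 * K) j \ words j j, pr u :=
        Finset.sum_nonneg (fun u _ => S5_pr_nonneg u)
      have t9 : ∑ u ∈ words (3 * K) j \ words j j, pr u ≤ j / 2 ^ j := by
        have u1 := Finset.sum_sdiff (f := pr) hsub
        rw [sum_pr, sum_pr] at u1
        have u2 : (1 - 1 / 2 ^ (3 * K) : ℝ) ^ j ≤ 1 := by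
          apply pow_le_one₀
          · rw [sub_nonneg, div_le_one (by positivity)]
            exact one_le_pow₀ (by norm_num)
          · have : (0 : ℝ) ≤ 1 / 2 ^ (3 * K) := by positivity
            linarith
        have u3 := mm_ge j
        unfold mm at u3
        linarith
      calc _ ≤ 1 * ∑ u ∈ words (3 * K) j \ words j j, pr u := mul_le_mul_of_nonneg_right t7 t8
        _ ≤ _ := by rw [one_mul]; exact t9
    exact add_le_add t1 t6
  have := mul_le_mul_of_nonneg_left hfin hX
  linarith

end Pool.Agent.Lib.MP_e43fce_nt_nat
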