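import Pool.Agent.Lib.MP_e43fce_nt_nat.Count
import Pool.Agent.Lib.MP_e43fce_nt_nat.S3
import Pool.Agent.Lib.MP_e43fce_nt_nat.S4
import Pool.Agent.Lib.MP_e43fce_nt_nat.S5

/-! Lemma R, the renewal inequality. -/

set_option autoImplicit false

namespace Pool.Agent.Lib.MP_e43fce_nt_nat

open Finset

theorem lemR_i1_pow (K : ℕ) : i1 K ^ 8 ≤ K := by
  have h1 := Nat.sqrt_le' K
  have h2 := Nat.sqrt_le' (Nat.sqrt K)
  have h3 := Nat.sqrt_le' (Nat.sqrt (Nat.sqrt K))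
  calc i1 K ^ 8 = ((i1 K ^ 2) ^ 2) ^ 2 := by ring
    _ ≤ (Nat.sqrt (Nat.sqrt K) ^ 2) ^ 2 :=
        Nat.pow_le_pow_left (Nat.pow_le_pow_left h3 2) 2
    _ ≤ Nat.sqrt K ^ 2 := Nat.pow_le_pow_left h2 2
    _ ≤ K := h1

theorem lemR_lt_i1 (K : ℕ) : K < (i1 K + 1) ^ 8 := by
  have h1 := Nat.lt_succ_sqrt' K
  have h2 := Nat.lt_succ_sqrt' (Nat.sqrt K)
  have h3 := Nat.lt_succ_sqrt' (Nat.sqrt (Nat.sqrt K))
  have h2' : Nat.sqrt K + 1 ≤ (Nat.sqrt (Nat.sqrt K) + 1) ^ 2 := h2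
  have h3' : Nat.sqrt (Nat.sqrt K) + 1 ≤ (i1 K + 1) ^ 2 := h3
  calc K < (Nat.sqrt K + 1) ^ 2 := h1
    _ ≤ ((Nat.sqrt (Nat.sqrt K) + 1) ^ 2) ^ 2 := Nat.pow_le_pow_left h2' 2
    _ ≤ (((i1 K + 1) ^ 2) ^ 2) ^ 2 := Nat.pow_le_pow_left (Nat.pow_le_pow_left h3' 2) 2
    _ = (i1 K + 1) ^ 8 := by ring

theorem lemR_poly : ∀ j : ℕ, j * (j + 1) ^ 2 ≤ 8 * 2 ^ j
  | 0 => by norm_num
  | 1 => by norm_num
  | 2 => by norm_num
  | 3 => by norm_num
  | 4 => by norm_num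
  | j + 5 => by
    have ih := lemR_poly (j + 4)
    rw [pow_succ 2 (j + 4)]
    nlinarith [ih]

theorem lemR_win {e : ℝ} (_h1 : e ≤ 1 / 10) {K A : ℕ} (hA : A ∈ win e K) :
    A ≤ 3 * K ∧ (A : ℝ) ≤ (2 + e) * K := by
  rw [win, mem_filter, mem_range] at hA
  refine ⟨by omega, ?_⟩
  have := (abs_le.1 hA.2).2
  linarith

theorem lemR_size {e : ℝ} (h1 : e ≤ 1 / 10) {x : ℝ} (hx : 0 ≤ x) {K i : ℕ}
    (hK : (K : ℝ) ≤ 3 * x / 10) (hi : i ^ 2 ≤ K) :
    (3 : ℝ) ^ i * (2 : ℝ) ^ ((2 + e) * (K : ℝ)) ≤ Real.exp (0.47 * x + 3.03) := by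
  have hi' : (i : ℝ) ^ 2 ≤ 3 * x / 10 := by
    have : ((i ^ 2 : ℕ) : ℝ) ≤ K := by exact_mod_cast hi
    push_cast at this
    linarith
  have hl2 := Real.log_two_lt_d9
  have hl2' := Real.log_two_gt_d9
  have hl3 : Real.log 3 < 1.1 := by
    rw [Real.log_lt_iff_lt_exp (by norm_num)]
    have h := Real.exp_one_gt_d9
    have h4 : Real.exp 1.1 = Real.exp 1 * Real.exp 0.1 := by
      rw [← Real.exp_add]
      norm_num
    have h5 : (1.105 : ℝ) ≤ Real.exp 0.1 := by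
      have := Real.quadratic_le_exp_of_nonneg (show (0 : ℝ) ≤ 0.1 by norm_num)
      linarith
    rw [h4]
    nlinarith
  have h2 : (3 : ℝ) ^ i = Real.exp (i * Real.log 3) := by
    rw [Real.exp_nat_mul, Real.exp_log (by norm_num)]
  have h3 : (2 : ℝ) ^ ((2 + e) * (K : ℝ)) = Real.exp (Real.log 2 * ((2 + e) * K)) := by
    rw [Real.rpow_def_of_pos (by norm_num)]
  rw [h2, h3, ← Real.exp_add]
  apply Real.exp_le_exp.2
  have hi0 : (0 : ℝ) ≤ i := Nat.cast_nonneg i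
  have hK0 : (0 : ℝ) ≤ K := Nat.cast_nonneg K
  have h4 : (i : ℝ) * Real.log 3 ≤ 0.03 * x + 3.03 := by
    have : (i : ℝ) * Real.log 3 ≤ i * 1.1 := by nlinarith
    nlinarith [sq_nonneg ((i : ℝ) - 5.5)]
  have h5 : (2 + e) * (K : ℝ) ≤ 2.1 * (3 * x / 10) := by nlinarith
  have h6 : Real.log 2 * ((2 + e) * K) ≤ Real.log 2 * (2.1 * (3 * x / 10)) :=
    mul_le_mul_of_nonneg_left h5 (by linarith)
  have h7 : Real.log 2 * (2.1 * (3 * x / 10)) ≤ 0.44 * x := by nlinarith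
  linarith

theorem lemR_exp {x : ℝ} (hx : 0 < x) : x ^ 2 * Real.exp (-(x / 2)) ≤ 48 / x := by
  have h1 : (x / 2) ^ 3 / 6 ≤ Real.exp (x / 2) := by
    have := Real.pow_div_factorial_le_exp (x / 2) (by positivity) 3
    simpa [Nat.factorial] using this
  rw [le_div_iff₀ hx]
  have h2 : Real.exp (x / 2) * Real.exp (-(x / 2)) = 1 := by
    rw [← Real.exp_add]
    simp
  have h3 : 0 < Real.exp (-(x / 2)) := Real.exp_pos _
  have h4 := mul_le_mul_of_nonneg_right h1 h3.le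
  rw [h2] at h4
  nlinarith

theorem lemR_zz (x : ℝ) (K A : ℕ) : Real.exp (zz x K A) = 3 ^ K * Real.exp x / 2 ^ A := by
  rw [zz, Real.exp_sub, Real.exp_add, Real.exp_nat_mul, Real.exp_nat_mul, Real.exp_log (by norm_num),
    Real.exp_log (by norm_num)]
  ring

/-- the errors which depend on `j = i1 K` -/
theorem lemR_err {x u : ℝ} (hu : 1 ≤ u) (hux : u ^ 4 = x) {K j : ℕ} (hj1 : 1 ≤ j)
    (hj : j ^ 8 ≤ K) (hj' : K < (j + 1) ^ 8) (hK : 2 ≤ K) (hKx : x / 10 ≤ (K : ℝ))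
    (hKx' : (K : ℝ) ≤ x) :
    8 * (j : ℝ) / Real.sqrt ((K - j : ℕ) : ℝ) + (j : ℝ) / 2 ^ j ≤ 56 * (1 / u) ∧
      (3 * (K : ℝ) + 1) / (j : ℝ) ^ 16 ≤ 2621440 * (1 / u) := by
  have hu0 : 0 < u := by linarith
  have hj0 : (0 : ℝ) < j := by exact_mod_cast hj1
  have hj2 : 2 * j ≤ K := by
    rcases Nat.lt_or_ge j 2 with h | h
    · omega
    · have h2 : 2 * j ≤ j ^ 8 := by
        calc 2 * j ≤ j * j := Nat.mul_le_mul_right j h
          _ = j ^ 2 := by ring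
          _ ≤ j ^ 8 := Nat.pow_le_pow_right hj1 (by norm_num)
      omega
  have hju : (j : ℝ) ≤ u := by
    have h1 : (j : ℝ) ^ 4 ≤ u ^ 4 := by
      rw [hux]
      have h2 : j ^ 4 ≤ K := (Nat.pow_le_pow_right hj1 (by norm_num)).trans hj
      have h3 : ((j ^ 4 : ℕ) : ℝ) ≤ K := by exact_mod_cast h2
      push_cast at h3
      linarith
    exact le_of_pow_le_pow_left₀ (by norm_num) hu0.le h1
  have hx0 : 0 < x := by
    rw [← hux]
    positivity
  constructor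
  · have h1 : u ^ 2 / 5 ≤ Real.sqrt ((K - j : ℕ) : ℝ) := by
      apply Real.le_sqrt_of_sq_le
      have h2 : (u ^ 2 / 5) ^ 2 = x / 25 := by
        rw [← hux]
        ring
      rw [h2, Nat.cast_sub (by omega)]
      have h3 : (2 : ℝ) * j ≤ K := by exact_mod_cast hj2
      linarith
    have h2 : 8 * (j : ℝ) / Real.sqrt ((K - j : ℕ) : ℝ) ≤ 40 * (1 / u) := by
      calc 8 * (j : ℝ) / Real.sqrt ((K - j : ℕ) : ℝ) ≤ 8 * u / (u ^ 2 / 5) := by
            apply div_le_div₀ (by positivity) (by linarith) (by positivity) h1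
        _ = 40 * (1 / u) := by
            field_simp
            ring
    have h3 : (j : ℝ) / 2 ^ j ≤ 16 * (1 / u) := by
      have h4 : u ≤ 2 * ((j : ℝ) + 1) ^ 2 := by
        have h5 : u ^ 4 ≤ (2 * ((j : ℝ) + 1) ^ 2) ^ 4 := by
          rw [hux]
          have h6 : (K : ℝ) ≤ ((j : ℝ) + 1) ^ 8 := by exact_mod_cast hj'.le
          have h7 : (2 * ((j : ℝ) + 1) ^ 2) ^ 4 = 16 * ((j : ℝ) + 1) ^ 8 := by ring
          rw [h7]
          linarith
        exact le_of_pow_le_pow_left₀ (by norm_num) (by positivity) h5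
      have h5 : (j : ℝ) * ((j : ℝ) + 1) ^ 2 ≤ 8 * 2 ^ j := by exact_mod_cast lemR_poly j
      have h6 : (j : ℝ) * u ≤ 16 * 2 ^ j := by
        calc (j : ℝ) * u ≤ j * (2 * ((j : ℝ) + 1) ^ 2) := mul_le_mul_of_nonneg_left h4 hj0.le
          _ = 2 * ((j : ℝ) * ((j : ℝ) + 1) ^ 2) := by ring
          _ ≤ 2 * (8 * 2 ^ j) := by linarith
          _ = 16 * 2 ^ j := by ring
      rw [div_le_iff₀ (by positivity)]
      calc (j : ℝ) = ((j : ℝ) * u) * (1 / u) := by field_simp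
        _ ≤ (16 * 2 ^ j) * (1 / u) := mul_le_mul_of_nonneg_right h6 (by positivity)
        _ = 16 * (1 / u) * 2 ^ j := by ring
    linarith
  · have h1 : (K : ℝ) ^ 2 ≤ 65536 * (j : ℝ) ^ 16 := by
      have h2 : K ≤ 256 * j ^ 8 := by
        calc K ≤ (j + 1) ^ 8 := hj'.le
          _ ≤ (2 * j) ^ 8 := Nat.pow_le_pow_left (by omega) 8
          _ = 256 * j ^ 8 := by ring
      have h3 : (K : ℝ) ≤ 256 * (j : ℝ) ^ 8 := by exact_mod_cast h2
      calc (K : ℝ) ^ 2 ≤ (256 * (j : ℝ) ^ 8) ^ 2 := pow_le_pow_left₀ (by positivity) h3 2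
        _ = 65536 * (j : ℝ) ^ 16 := by ring
    have hK2 : (2 : ℝ) ≤ K := by exact_mod_cast hK
    have hxu : u ≤ x := by
      rw [← hux]
      nlinarith [pow_le_pow_right₀ hu (show 1 ≤ 4 by norm_num)]
    rw [div_le_iff₀ (by positivity)]
    have h4 : 3 * (K : ℝ) + 1 ≤ 4 * K := by linarith
    have h5 : (K : ℝ) * u ≤ 10 * (K : ℝ) ^ 2 := by nlinarith
    have h6 : (3 * (K : ℝ) + 1) * u ≤ 2621440 * (j : ℝ) ^ 16 := by nlinarith
    calc 3 * (K : ℝ) + 1 = ((3 * (K : ℝ) + 1) * u) * (1 / u) := by field_simp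
      _ ≤ (2621440 * (j : ℝ) ^ 16) * (1 / u) :=
          mul_le_mul_of_nonneg_right h6 (by positivity)
      _ = 2621440 * (1 / u) * (j : ℝ) ^ 16 := by ring

/-- the errors which come from the number of good words -/
theorem lemR_B {x u X R t c k : ℝ} (hx : 20 ≤ x) (hu0 : 0 < u) (hux : 1 / x ≤ 1 / u)
    (hX : X = Real.exp x) (ht : 1 ≤ t) (hR : 1 ≤ R) (hk0 : 0 ≤ k) (hk : k ≤ 3 * x / 10)
    (hc : c ≤ R) (hs : t * R ≤ Real.exp (0.47 * x + 3.03)) :
    t * (1 + c) + (k ^ 2 + 1) * c * t ≤ X * (1100 * (1 / u)) := by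
  have hx0 : 0 < x := by linarith
  have hX0 : 0 < X := by
    rw [hX]
    exact Real.exp_pos x
  have h5 : t * (1 + c) + (k ^ 2 + 1) * c * t ≤ (k ^ 2 + 3) * (t * R) := by
    have h6 : t * c ≤ t * R := mul_le_mul_of_nonneg_left hc (by linarith)
    have h7 : t ≤ t * R := by nlinarith
    have h8 : (k ^ 2 + 1) * (t * c) ≤ (k ^ 2 + 1) * (t * R) :=
      mul_le_mul_of_nonneg_left h6 (by positivity)
    calc t * (1 + c) + (k ^ 2 + 1) * c * t = t + t * c + (k ^ 2 + 1) * (t * c) := by ring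
      _ ≤ t * R + t * R + (k ^ 2 + 1) * (t * R) := by linarith
      _ = (k ^ 2 + 3) * (t * R) := by ring
  have h6 : k ^ 2 + 3 ≤ x ^ 2 := by nlinarith
  have h7 : t * R ≤ X * (21 * Real.exp (-(x / 2))) := by
    have h8 : Real.exp 3.03 ≤ 21 := by
      have h9 : Real.exp 3.03 = Real.exp 1 ^ 3 * Real.exp 0.03 := by
        rw [← Real.exp_nat_mul, ← Real.exp_add]
        norm_num
      have h10 : Real.exp 0.03 ≤ 1 / (1 - 0.03) := by
        have := Real.exp_bound_div_one_sub_of_interval (show (0 : ℝ) ≤ 0.03 by norm_num)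
          (show (0.03 : ℝ) < 1 by norm_num)
        exact this
      have h11 : Real.exp 1 ^ 3 ≤ 2.7182818286 ^ 3 :=
        pow_le_pow_left₀ (Real.exp_pos 1).le Real.exp_one_lt_d9.le 3
      rw [h9]
      calc Real.exp 1 ^ 3 * Real.exp 0.03 ≤ 2.7182818286 ^ 3 * (1 / (1 - 0.03)) :=
            mul_le_mul h11 h10 (Real.exp_pos _).le (by norm_num)
        _ ≤ 21 := by norm_num
    calc t * R ≤ Real.exp (0.47 * x + 3.03) := hs
      _ ≤ Real.exp (x + (3.03 + -(x / 2))) := Real.exp_le_exp.2 (by linarith)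
      _ = X * (Real.exp 3.03 * Real.exp (-(x / 2))) := by
          rw [Real.exp_add, Real.exp_add, hX]
      _ ≤ X * (21 * Real.exp (-(x / 2))) := by
          apply mul_le_mul_of_nonneg_left _ hX0.le
          exact mul_le_mul_of_nonneg_right h8 (Real.exp_pos _).le
  have h8 := lemR_exp hx0
  calc _ ≤ (k ^ 2 + 3) * (t * R) := h5
    _ ≤ x ^ 2 * (X * (21 * Real.exp (-(x / 2)))) :=
        mul_le_mul h6 h7 (by positivity) (by positivity)
    _ = X * (21 * (x ^ 2 * Real.exp (-(x / 2)))) := by ring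
    _ ≤ X * (1100 * (1 / u)) := by
        apply mul_le_mul_of_nonneg_left _ hX0.le
        have h9 : 48 / x = 48 * (1 / x) := by ring
        have h10 : 0 < 1 / u := by positivity
        linarith

theorem lemR_asm {N a b b' S S' w M X c1 c2 c3 c4 v D : ℝ} (h : N ≤ a + b + b' + S)
    (h1 : S ≤ S' + w) (h2 : S' ≤ M + X * v) (ha : a ≤ X * (c1 * D)) (hb : b + b' ≤ X * (c2 * D))
    (hw : w ≤ X * (c3 * D)) (hv : X * v ≤ X * (c4 * D)) :
    N ≤ M + X * ((c1 + c2 + c3 + c4) * D) := by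
  have : X * ((c1 + c2 + c3 + c4) * D) =
      X * (c1 * D) + X * (c2 * D) + X * (c3 * D) + X * (c4 * D) := by ring
  rw [this]
  linarith

theorem lemR {e : ℝ} (h0 : 0 < e) (h1 : e ≤ 1 / 10) : ∃ C x0 : ℝ, 0 < C ∧ 1 ≤ x0 ∧
    ∀ x : ℝ, x0 ≤ x → ∀ K i : ℕ, x / 10 ≤ (K : ℝ) → (K : ℝ) ≤ 3 * x / 10 → i ^ 2 ≤ K →
    ∀ (p : ℕ → ℝ) (q : ℕ → ℕ → ℝ), Unit01 p → (∀ A, Unit01 (q A)) → RHyp e K p q →
      DD i p x ≤ ∑ A ∈ win e K, rho K A * DD (i1 K) (q A) (zz x K A)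
        + C * x ^ (-(1 / 4) : ℝ) := by
  obtain ⟨Cb, hCb, hbad⟩ := bad_prob h0 h1
  obtain ⟨C3, hC3, h3⟩ := step_S3 16
  obtain ⟨C4, hC4, h4⟩ := step_S4 16
  refine ⟨5 * Cb + 1100 + 2621440 * (C3 + C4) + 56, 20, by positivity, by norm_num, ?_⟩
  intro x hx K i hK1 hK2 hi p q hp hq hR
  have hx0 : (0 : ℝ) < x := by linarith
  set u : ℝ := x ^ (1 / 4 : ℝ) with hu
  have hu4 : u ^ 4 = x := by
    rw [hu, ← Real.rpow_natCast, ← Real.rpow_mul hx0.le]
    norm_num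
  have hu1 : 1 ≤ u := Real.one_le_rpow (by linarith) (by norm_num)
  have hu0 : 0 < u := by linarith
  have huy : x ^ (-(1 / 4) : ℝ) = 1 / u := by
    rw [Real.rpow_neg hx0.le]
    exact (one_div _).symm
  rw [huy]
  have hKr : (2 : ℝ) ≤ K := by linarith
  have hK : 2 ≤ K := by exact_mod_cast hKr
  have hKx : (K : ℝ) ≤ x := by linarith
  have hxu : u ≤ x := by
    rw [← hu4]
    calc u = u ^ 1 := (pow_one u).symm
      _ ≤ u ^ 4 := pow_le_pow_right₀ hu1 (by norm_num)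
  have hxinv : 1 / x ≤ 1 / u := one_div_le_one_div_of_le hu0 hxu
  have hj8 := lemR_i1_pow K
  have hj8' := lemR_lt_i1 K
  set j := i1 K with hj
  have hj1 : 1 ≤ j := by
    rcases Nat.eq_zero_or_pos j with h | h
    · rw [h] at hj8'
      norm_num at hj8'
      omega
    · exact h
  have hjK : j < K := by
    rcases Nat.lt_or_ge j 2 with h | h
    · omega
    · have h2 : 2 * j ≤ j ^ 8 := by
        calc 2 * j ≤ j * j := Nat.mul_le_mul_right j h
          _ = j ^ 2 := by ring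
          _ ≤ j ^ 8 := Nat.pow_le_pow_right hj1 (by norm_num)
      omega
  obtain ⟨herr1, herr2⟩ := lemR_err hu1 hu4 hj1 hj8 hj8' hK hK1 hKx
  set X : ℝ := Real.exp x with hX
  have hX0 : 0 < X := Real.exp_pos x
  have hsize := lemR_size h1 hx0.le hK2 hi
  set R : ℝ := (2 : ℝ) ^ ((2 + e) * (K : ℝ)) with hRdef
  have hR1 : 1 ≤ R := Real.one_le_rpow (by norm_num) (by positivity)
  have hG : ((Good e K).card : ℝ) ≤ R := good_card h0 h1 K
  have h3i : (1 : ℝ) ≤ 3 ^ i := one_le_pow₀ (by norm_num)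
  -- the window: sizes
  have hZ : ∀ A ∈ win e K, 2 * (3 : ℝ) ^ (K + i) ≤ 3 ^ K * X / 2 ^ A := by
    intro A hA
    obtain ⟨-, hA2⟩ := lemR_win h1 hA
    rw [le_div_iff₀ (by positivity), pow_add]
    have h5 : (2 : ℝ) ^ A ≤ R := by
      rw [hRdef, ← Real.rpow_natCast]
      exact Real.rpow_le_rpow_of_exponent_le (by norm_num) hA2
    have h6 : 2 * ((3 : ℝ) ^ i * R) ≤ X := by
      have h7 : Real.exp (0.47 * x + 3.03) * 2 ≤ X := by
        have h8 : (2 : ℝ) ≤ Real.exp 1 := by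
          have := Real.exp_one_gt_d9
          linarith
        calc Real.exp (0.47 * x + 3.03) * 2 ≤ Real.exp (0.47 * x + 3.03) * Real.exp 1 :=
              mul_le_mul_of_nonneg_left h8 (Real.exp_pos _).le
          _ = Real.exp (0.47 * x + 3.03 + 1) := (Real.exp_add _ _).symm
          _ ≤ X := Real.exp_le_exp.2 (by linarith)
      linarith
    have h7 : (3 : ℝ) ^ i * 2 ^ A ≤ 3 ^ i * R := mul_le_mul_of_nonneg_left h5 (by positivity)
    have h8 : 2 * ((3 : ℝ) ^ i * 2 ^ A) ≤ X := by linarith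
    calc 2 * ((3 : ℝ) ^ K * 3 ^ i) * 2 ^ A = 3 ^ K * (2 * (3 ^ i * 2 ^ A)) := by ring
      _ ≤ 3 ^ K * X := mul_le_mul_of_nonneg_left h8 (by positivity)
  have hZK : ∀ A ∈ win e K, 2 * (3 : ℝ) ^ K ≤ 3 ^ K * X / 2 ^ A := by
    intro A hA
    refine le_trans ?_ (hZ A hA)
    rw [pow_add]
    nlinarith [pow_pos (show (0 : ℝ) < 3 by norm_num) K]
  have hZj : ∀ A ∈ win e K, 2 * (3 : ℝ) ^ j ≤ 3 ^ K * X / 2 ^ A := by
    intro A hA
    refine le_trans ?_ (hZK A hA)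
    have : (3 : ℝ) ^ j ≤ 3 ^ K := pow_le_pow_right₀ (by norm_num) hjK.le
    linarith
  have hXA : ∀ A : ℕ, (2 : ℝ) ^ A / 3 ^ K * (3 ^ K * X / 2 ^ A) = X := by
    intro A
    field_simp
  have hcount := count_S12 h0 h1 (i := i) (show 1 ≤ K by omega) hX0 hp hq hR
  have hS5 := step_S5 hj1 hjK hX0.le (win e K) hZj hq
  have hsum : ∑ A ∈ win e K, (2 : ℝ) ^ A / 3 ^ K *
          ∑ s ∈ oddS (3 ^ K * X / 2 ^ A), q A s *
            ∑ w ∈ (words (3 * K) K).filter (fun w => w.sum = A),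
              (if adm s w then wt w * MM i (nd s w) else 0) ≤
      ∑ A ∈ win e K, ((2 : ℝ) ^ A / 3 ^ K * ∑ s ∈ oddS (3 ^ K * X / 2 ^ A), q A s *
        ∑ u ∈ words (3 * K) j, (if adm s u then wt u * rho (K - j) (A - u.sum) else 0) +
          X * (C3 / (K : ℝ) ^ 16 + C4 / (j : ℝ) ^ 16)) := by
    apply sum_le_sum
    intro A hA
    have h5 := h3 K i A hi (by omega) (3 ^ K * X / 2 ^ A) (hZ A hA) (q A) (hq A)
    have h6 := h4 K j A hj1 hjK (lemR_win h1 hA).1 (3 ^ K * X / 2 ^ A) (hZK A hA) (q A) (hq A)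
    have h7 := h5.trans (add_le_add_left h6 _)
    have h8 := mul_le_mul_of_nonneg_left h7 (show (0 : ℝ) ≤ 2 ^ A / 3 ^ K by positivity)
    refine h8.trans (le_of_eq ?_)
    have h9 := hXA A
    set Z : ℝ := 3 ^ K * X / 2 ^ A with hZdef
    set c : ℝ := (2 : ℝ) ^ A / 3 ^ K with hc
    rw [mul_add, mul_add]
    have h10 : c * (C4 * Z / (j : ℝ) ^ 16) = X * (C4 / (j : ℝ) ^ 16) := by
      rw [← h9]
      ring
    have h11 : c * (C3 * Z / (K : ℝ) ^ 16) = X * (C3 / (K : ℝ) ^ 16) := by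
      rw [← h9]
      ring
    rw [h10, h11]
    ring
  rw [sum_add_distrib, sum_const, nsmul_eq_mul] at hsum
  have hcard : ((win e K).card : ℝ) ≤ 3 * K + 1 := by
    have : (win e K).card ≤ 3 * K + 1 := by
      refine (card_filter_le _ _).trans ?_
      rw [card_range]
    exact_mod_cast this
  have herrC : ((win e K).card : ℝ) * (X * (C3 / (K : ℝ) ^ 16 + C4 / (j : ℝ) ^ 16)) ≤
      X * (2621440 * (C3 + C4) * (1 / u)) := by
    have hj0 : (0 : ℝ) < j := by exact_mod_cast hj1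
    have h5 : C3 / (K : ℝ) ^ 16 ≤ C3 / (j : ℝ) ^ 16 := by
      apply div_le_div_of_nonneg_left hC3.le (by positivity)
      apply pow_le_pow_left₀ hj0.le
      exact_mod_cast hjK.le
    calc ((win e K).card : ℝ) * (X * (C3 / (K : ℝ) ^ 16 + C4 / (j : ℝ) ^ 16))
        ≤ (3 * K + 1) * (X * (C3 / (j : ℝ) ^ 16 + C4 / (j : ℝ) ^ 16)) := by
          apply mul_le_mul hcard _ (by positivity) (by positivity)
          apply mul_le_mul_of_nonneg_left _ hX0.le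
          linarith
      _ = X * ((C3 + C4) * ((3 * (K : ℝ) + 1) / (j : ℝ) ^ 16)) := by ring
      _ ≤ X * ((C3 + C4) * (2621440 * (1 / u))) := by
          apply mul_le_mul_of_nonneg_left _ hX0.le
          apply mul_le_mul_of_nonneg_left herr2 (by positivity)
      _ = X * (2621440 * (C3 + C4) * (1 / u)) := by ring
  have herrB : 3 ^ i * (1 + ((Good e K).card : ℝ)) + ((K : ℝ) ^ 2 + 1) * (Good e K).card * 3 ^ i ≤
      X * (1100 * (1 / u)) := by
    exact lemR_B hx hu0 hxinv hX h3i hR1 (by positivity) hK2 hG hsize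
  have herrA : X / 2 * (1 - ∑ w ∈ Good e K, pr w) ≤ X * (5 * Cb * (1 / u)) := by
    have h5 := hbad K (by omega)
    have h6 : Cb / K ≤ 10 * Cb * (1 / u) := by
      calc Cb / K ≤ Cb / (x / 10) :=
            div_le_div_of_nonneg_left hCb.le (by positivity) hK1
        _ = 10 * Cb * (1 / x) := by
            field_simp
        _ ≤ 10 * Cb * (1 / u) := mul_le_mul_of_nonneg_left hxinv (by positivity)
    calc X / 2 * (1 - ∑ w ∈ Good e K, pr w) ≤ X / 2 * (10 * Cb * (1 / u)) :=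
          mul_le_mul_of_nonneg_left (h5.trans h6) (by positivity)
      _ = X * (5 * Cb * (1 / u)) := by ring
  have hmain : NN i p X ≤ X * (∑ A ∈ win e K, rho K A * DD j (q A) (zz x K A)) +
      X * ((5 * Cb + 1100 + 2621440 * (C3 + C4) + 56) * (1 / u)) := by
    have h5 : ∑ A ∈ win e K, rho K A * ((2 : ℝ) ^ A / 3 ^ K * NN j (q A) (3 ^ K * X / 2 ^ A)) =
        X * (∑ A ∈ win e K, rho K A * DD j (q A) (zz x K A)) := by
      rw [mul_sum]
      apply sum_congr rfl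
      intro A _
      rw [DD, lemR_zz, ← hX]
      have h6 : (2 : ℝ) ^ A / 3 ^ K * NN j (q A) (3 ^ K * X / 2 ^ A) =
          X * (NN j (q A) (3 ^ K * X / 2 ^ A) / (3 ^ K * X / 2 ^ A)) := by
        have h7 : (3 ^ K * X / 2 ^ A : ℝ) ≠ 0 := by positivity
        rw [← mul_div_assoc, eq_div_iff h7]
        calc (2 : ℝ) ^ A / 3 ^ K * NN j (q A) (3 ^ K * X / 2 ^ A) * (3 ^ K * X / 2 ^ A) =
            ((2 : ℝ) ^ A / 3 ^ K * (3 ^ K * X / 2 ^ A)) * NN j (q A) (3 ^ K * X / 2 ^ A) := by ring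
          _ = X * NN j (q A) (3 ^ K * X / 2 ^ A) := by rw [hXA]
      rw [h6]
      ring
    have h6 : X * (8 * (j : ℝ) / Real.sqrt ((K - j : ℕ) : ℝ) + (j : ℝ) / 2 ^ j) ≤
        X * (56 * (1 / u)) := mul_le_mul_of_nonneg_left herr1 hX0.le
    rw [h5] at hS5
    exact lemR_asm hcount hsum hS5 herrA herrB herrC h6
  rw [DD, ← hX, div_le_iff₀ hX0]
  calc NN i p X ≤ _ := hmain
    _ = _ := by ring

end Pool.Agent.Lib.MP_e43fce_nt_nat
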