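import Pool.Agent.Lib.MP_e43fce_nt_nat.Words

/-! KL3: Markov bound for the square root of `F w / 2 ^ A(w)`. -/

set_option autoImplicit false

namespace Pool.Agent.Lib.MP_e43fce_nt_nat

open Finset

theorem WB3_sum_succ (L k : ℕ) (g : List ℕ → ℝ) :
    ∑ w ∈ words L (k + 1), g w = ∑ j ∈ Icc 1 L, ∑ w ∈ words L k, g (j :: w) := by
  simp only [words]
  rw [Finset.sum_image]
  · rw [Finset.sum_product]
  · rintro ⟨a, u⟩ _ ⟨b, v⟩ _ h
    simp only [List.cons.injEq] at h
    exact Prod.ext h.1 h.2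

theorem WB3_pr_cons (j : ℕ) (w : List ℕ) : pr (j :: w) = (1 / 2) ^ j * pr w := by
  unfold pr
  rw [List.sum_cons, pow_add, one_div_pow]
  field_simp

theorem WB3_pr_pos (w : List ℕ) : 0 < pr w := by unfold pr; positivity

theorem WB3_geom (L : ℕ) (r : ℝ) (h0 : 0 ≤ r) (h1 : r < 1) :
    ∑ j ∈ Icc 1 L, r ^ j ≤ r / (1 - r) := by
  have hpos : 0 < 1 - r := by linarith
  rw [le_div_iff₀ hpos]
  induction L with
  | zero => simp [h0]
  | succ n ih =>
      have key : ∀ n : ℕ, (∑ j ∈ Icc 1 n, r ^ j) * (1 - r) = r - r ^ (n + 1) := by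
        intro n
        induction n with
        | zero => simp
        | succ m ihm =>
            rw [Finset.sum_Icc_succ_top (by omega), add_mul, ihm]
            ring
      rw [key]
      have : 0 ≤ r ^ (n + 1 + 1) := pow_nonneg h0 _
      linarith

theorem WB3_mass (L k : ℕ) : ∑ w ∈ words L k, pr w ≤ 1 := by
  induction k with
  | zero => simp [words, pr]
  | succ k ih =>
      rw [WB3_sum_succ]
      have h : ∀ j ∈ Icc 1 L, ∑ w ∈ words L k, pr (j :: w) ≤ (1 / 2 : ℝ) ^ j := by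
        intro j _
        have : ∑ w ∈ words L k, pr (j :: w) = (1 / 2 : ℝ) ^ j * ∑ w ∈ words L k, pr w := by
          rw [Finset.mul_sum]
          exact Finset.sum_congr rfl (fun w _ => WB3_pr_cons j w)
        rw [this]
        exact mul_le_of_le_one_right (by positivity) ih
      refine (Finset.sum_le_sum h).trans ?_
      have := WB3_geom L (1 / 2) (by norm_num) (by norm_num)
      norm_num at this ⊢
      exact this

/-- `phi w = F w / 2 ^ A(w)` -/
noncomputable def WB3phi (w : List ℕ) : ℝ := (F w : ℝ) / 2 ^ w.sum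

theorem WB3phi_nonneg (w : List ℕ) : 0 ≤ WB3phi w := by unfold WB3phi; positivity

theorem WB3phi_cons (j : ℕ) (w : List ℕ) :
    WB3phi (j :: w) = (1 / 2) ^ j * (1 + 3 * WB3phi w) := by
  unfold WB3phi
  rw [List.sum_cons, pow_add, one_div_pow]
  simp only [F]
  push_cast
  field_simp

/-- the constant `1 / sqrt 2` -/
noncomputable def WB3c : ℝ := Real.sqrt (1 / 2)

theorem WB3c_sq : WB3c ^ 2 = 1 / 2 := Real.sq_sqrt (by norm_num)

theorem WB3c_nonneg : 0 ≤ WB3c := Real.sqrt_nonneg _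

theorem WB3c_le : WB3c ≤ 0.70711 := by
  unfold WB3c
  rw [show (0.70711 : ℝ) = Real.sqrt (0.70711 ^ 2) by
    rw [Real.sqrt_sq (by norm_num)]]
  exact Real.sqrt_le_sqrt (by norm_num)

theorem WB3_sqrt3 : Real.sqrt 3 ≤ 1.73206 := by
  rw [show (1.73206 : ℝ) = Real.sqrt (1.73206 ^ 2) by
    rw [Real.sqrt_sq (by norm_num)]]
  exact Real.sqrt_le_sqrt (by norm_num)

theorem WB3_sqrt_cons (j : ℕ) (w : List ℕ) :
    Real.sqrt (WB3phi (j :: w)) ≤ WB3c ^ j * (1 + Real.sqrt 3 * Real.sqrt (WB3phi w)) := by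
  have hc : Real.sqrt ((1 / 2 : ℝ) ^ j) = WB3c ^ j := by
    rw [← WB3c_sq, ← pow_mul, mul_comm 2 j, pow_mul, Real.sqrt_sq (pow_nonneg WB3c_nonneg _)]
  rw [WB3phi_cons, Real.sqrt_mul (by positivity), hc]
  refine mul_le_mul_of_nonneg_left ?_ (pow_nonneg WB3c_nonneg _)
  have h0 := WB3phi_nonneg w
  rw [Real.sqrt_le_iff]
  constructor
  · positivity
  · have e1 : Real.sqrt 3 ^ 2 = 3 := Real.sq_sqrt (by norm_num)
    have e2 : Real.sqrt (WB3phi w) ^ 2 = WB3phi w := Real.sq_sqrt h0
    have h3 : 0 ≤ Real.sqrt 3 * Real.sqrt (WB3phi w) := by positivity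
    nlinarith [h3, e1, e2]

theorem WB3_E (L k : ℕ) : ∑ w ∈ words L k, pr w * Real.sqrt (WB3phi w) ≤ 11 := by
  induction k with
  | zero => simp [words, pr, WB3phi, F]
  | succ k ih =>
      rw [WB3_sum_succ]
      have h : ∀ j ∈ Icc 1 L, ∑ w ∈ words L k, pr (j :: w) * Real.sqrt (WB3phi (j :: w))
          ≤ (WB3c / 2) ^ j * (1 + 1.73206 * 11) := by
        intro j _
        have hterm : ∀ w ∈ words L k, pr (j :: w) * Real.sqrt (WB3phi (j :: w))
            ≤ (WB3c / 2) ^ j * (pr w + 1.73206 * (pr w * Real.sqrt (WB3phi w))) := by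
          intro w _
          rw [WB3_pr_cons]
          have hp := WB3_pr_pos w
          have hs : 0 ≤ Real.sqrt (WB3phi w) := Real.sqrt_nonneg _
          have h1 := WB3_sqrt_cons j w
          have h2 : (1 + Real.sqrt 3 * Real.sqrt (WB3phi w))
              ≤ 1 + 1.73206 * Real.sqrt (WB3phi w) := by
            have := mul_le_mul_of_nonneg_right WB3_sqrt3 hs
            linarith
          have h3 : Real.sqrt (WB3phi (j :: w))
              ≤ WB3c ^ j * (1 + 1.73206 * Real.sqrt (WB3phi w)) :=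
            h1.trans (mul_le_mul_of_nonneg_left h2 (pow_nonneg WB3c_nonneg _))
          have h4 : (1 / 2 : ℝ) ^ j * pr w * Real.sqrt (WB3phi (j :: w))
              ≤ (1 / 2 : ℝ) ^ j * pr w * (WB3c ^ j * (1 + 1.73206 * Real.sqrt (WB3phi w))) :=
            mul_le_mul_of_nonneg_left h3 (by positivity)
          refine h4.trans (le_of_eq ?_)
          rw [div_pow, div_pow, one_pow]
          ring
        refine (Finset.sum_le_sum hterm).trans ?_
        rw [← Finset.mul_sum, Finset.sum_add_distrib, ← Finset.mul_sum]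
        refine mul_le_mul_of_nonneg_left ?_ (pow_nonneg (by have := WB3c_nonneg; positivity) _)
        have := WB3_mass L k
        linarith
      refine (Finset.sum_le_sum h).trans ?_
      rw [← Finset.sum_mul]
      have hc0 := WB3c_nonneg
      have hc1 := WB3c_le
      have hg := WB3_geom L (WB3c / 2) (by positivity) (by linarith)
      have hb : WB3c / 2 / (1 - WB3c / 2) ≤ 0.54693 := by
        rw [div_le_iff₀ (by linarith)]
        linarith
      have : ∑ j ∈ Icc 1 L, (WB3c / 2) ^ j ≤ 0.54693 := hg.trans hb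
      have h20 : (∑ j ∈ Icc 1 L, (WB3c / 2) ^ j) * (1 + 1.73206 * 11)
          ≤ 0.54693 * (1 + 1.73206 * 11) := mul_le_mul_of_nonneg_right this (by norm_num)
      refine h20.trans (by norm_num)

/-- Markov for `sqrt (F / 2^A)` -/
theorem phi_markov (L K T : ℕ) (hT : 1 ≤ T) :
    ∑ w ∈ (words L K).filter (fun w => T * 2 ^ w.sum < F w), pr w ≤ 11 / Real.sqrt T := by
  have hT0 : (0 : ℝ) < T := by exact_mod_cast hT
  have hsT : 0 < Real.sqrt (T : ℝ) := Real.sqrt_pos.mpr hT0
  rw [le_div_iff₀ hsT, Finset.sum_mul]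
  refine le_trans ?_ (WB3_E L K)
  refine le_trans (Finset.sum_le_sum (g := fun w => pr w * Real.sqrt (WB3phi w)) ?_) ?_
  · intro w hw
    have hlt := (Finset.mem_filter.mp hw).2
    refine mul_le_mul_of_nonneg_left (Real.sqrt_le_sqrt ?_) (WB3_pr_pos w).le
    unfold WB3phi
    rw [le_div_iff₀ (by positivity)]
    have : ((T * 2 ^ w.sum : ℕ) : ℝ) ≤ (F w : ℕ) := by exact_mod_cast hlt.le
    push_cast at this
    exact this
  · exact Finset.sum_le_sum_of_subset_of_nonneg (Finset.filter_subset _ _)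
      (fun w _ _ => mul_nonneg (WB3_pr_pos w).le (Real.sqrt_nonneg _))

end Pool.Agent.Lib.MP_e43fce_nt_nat
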