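import Pool.Agent.Lib.MP_e43fce_nt_nat.WB1
import Pool.Agent.Lib.MP_e43fce_nt_nat.WB2
import Pool.Agent.Lib.MP_e43fce_nt_nat.WB3
import Pool.Agent.Lib.MP_e43fce_nt_nat.TV
import Pool.Agent.Lib.MP_e43fce_nt_nat.Defs3

/-! BAD: probability of bad words, number of good words. -/

set_option autoImplicit false

namespace Pool.Agent.Lib.MP_e43fce_nt_nat

open Finset

theorem BAD_pr_pos (w : List ℕ) : 0 < pr w := by unfold pr; positivity

theorem BAD_mass (L k : ℕ) : ∑ w ∈ words L k, pr w ≤ 1 := by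
  rw [sum_pr]
  refine pow_le_one₀ ?_ ?_
  · have : (1 : ℝ) / 2 ^ L ≤ 1 := by
      rw [div_le_one (by positivity)]
      exact one_le_pow₀ (by norm_num)
    linarith
  · have : (0 : ℝ) ≤ 1 / 2 ^ L := by positivity
    linarith

theorem good_sum_le (e : ℝ) (K : ℕ) : ∑ w ∈ Good e K, pr w ≤ 1 := by
  refine le_trans ?_ (BAD_mass (3 * K) K)
  unfold Good
  exact Finset.sum_le_sum_of_subset_of_nonneg (Finset.filter_subset _ _)
    (fun w _ _ => (BAD_pr_pos w).le)

theorem good_card {e : ℝ} (h0 : 0 < e) (h1 : e ≤ 1 / 10) (K : ℕ) :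
    ((Good e K).card : ℝ) ≤ (2 : ℝ) ^ ((2 + e) * (K : ℝ)) := by
  have hlow : ∀ w ∈ Good e K, (2 : ℝ) ^ (-((2 + e) * (K : ℝ))) ≤ pr w := by
    intro w hw
    unfold Good at hw
    have hwin := (Finset.mem_filter.mp hw).2.1
    unfold win at hwin
    have habs := (Finset.mem_filter.mp hwin).2
    have hle : ((w.sum : ℕ) : ℝ) ≤ (2 + e) * K := by
      have := (abs_le.mp habs).2
      linarith
    unfold pr
    rw [one_div, ← Real.rpow_natCast, ← Real.rpow_neg (by norm_num)]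
    exact Real.rpow_le_rpow_of_exponent_le (by norm_num) (by linarith)
  have hsum : ((Good e K).card : ℝ) * (2 : ℝ) ^ (-((2 + e) * (K : ℝ))) ≤ 1 := by
    have h := Finset.sum_le_sum hlow
    rw [Finset.sum_const, nsmul_eq_mul] at h
    exact h.trans (good_sum_le e K)
  have hp : (0 : ℝ) < (2 : ℝ) ^ ((2 + e) * (K : ℝ)) := by positivity
  rw [Real.rpow_neg (by norm_num), ← div_eq_mul_inv, div_le_one hp] at hsum
  exact hsum

theorem bad_prob {e : ℝ} (h0 : 0 < e) (h1 : e ≤ 1 / 10) : ∃ C : ℝ, 0 < C ∧ ∀ K : ℕ, 1 ≤ K →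
    1 - ∑ w ∈ Good e K, pr w ≤ C / K := by
  refine ⟨22 + 11 + 2 / e ^ 2, by positivity, fun K hK => ?_⟩
  have hK0 : (0 : ℝ) < K := by exact_mod_cast hK
  -- total mass on the window
  have htot := rho_total (K := K) (N := 3 * K + 1) (by omega)
  have hexp : Real.exp (-(K / 11 : ℝ)) ≤ 11 / K := by
    rw [Real.exp_neg, inv_le_comm₀ (Real.exp_pos _) (by positivity), inv_div]
    have := Real.add_one_le_exp ((K : ℝ) / 11)
    linarith
  -- Chebyshev
  have hvar := rho_var K (3 * K + 1)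
  have hcheb : ∑ A ∈ (range (3 * K + 1)).filter (fun A : ℕ => ¬ |(A : ℝ) - 2 * K| ≤ e * K), rho K A
      ≤ 2 / (e ^ 2 * K) := by
    have hstep : ∀ A ∈ (range (3 * K + 1)).filter (fun A : ℕ => ¬ |(A : ℝ) - 2 * K| ≤ e * K),
        rho K A * (e * K) ^ 2 ≤ rho K A * ((A : ℝ) - 2 * (K : ℝ)) ^ 2 := by
      intro A hA
      have h := (Finset.mem_filter.mp hA).2
      push Not at h
      refine mul_le_mul_of_nonneg_left ?_ (rho_nonneg K A)
      have h2 : (e * K) ^ 2 ≤ |(A : ℝ) - 2 * K| ^ 2 :=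
        pow_le_pow_left₀ (by positivity) h.le 2
      rwa [sq_abs] at h2
    have hsum := Finset.sum_le_sum hstep
    rw [← Finset.sum_mul] at hsum
    have hsub : ∑ A ∈ (range (3 * K + 1)).filter (fun A : ℕ => ¬ |(A : ℝ) - 2 * K| ≤ e * K),
        rho K A * ((A : ℝ) - 2 * (K : ℝ)) ^ 2
        ≤ ∑ A ∈ range (3 * K + 1), rho K A * ((A : ℝ) - 2 * (K : ℝ)) ^ 2 :=
      Finset.sum_le_sum_of_subset_of_nonneg (Finset.filter_subset _ _)
        (fun A _ _ => mul_nonneg (rho_nonneg K A) (sq_nonneg _))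
    have h3 := (hsum.trans hsub).trans hvar
    rw [le_div_iff₀ (by positivity)]
    have h4 : (∑ A ∈ (range (3 * K + 1)).filter (fun A : ℕ => ¬ |(A : ℝ) - 2 * K| ≤ e * K),
        rho K A) * (e ^ 2 * K) * K ≤ 2 * K := by
      calc _ = (∑ A ∈ (range (3 * K + 1)).filter (fun A : ℕ => ¬ |(A : ℝ) - 2 * K| ≤ e * K),
        rho K A) * (e * K) ^ 2 := by ring
        _ ≤ 2 * K := h3
    exact le_of_mul_le_mul_right h4 hK0
  have hwin : ∑ A ∈ win e K, rho K A = ∑ A ∈ range (3 * K + 1), rho K A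
      - ∑ A ∈ (range (3 * K + 1)).filter (fun A : ℕ => ¬ |(A : ℝ) - 2 * K| ≤ e * K), rho K A := by
    unfold win
    rw [← Finset.sum_filter_add_sum_filter_not (range (3 * K + 1))
      (fun A : ℕ => |(A : ℝ) - 2 * K| ≤ e * K) (fun A => rho K A)]
    ring
  -- words with sum in the window
  have hwords : ∑ w ∈ (words (3 * K) K).filter (fun w => w.sum ∈ win e K), pr w
      = ∑ A ∈ win e K, rho K A := by
    rw [← Finset.sum_fiberwise_of_maps_to (s := (words (3 * K) K).filter (fun w => w.sum ∈ win e K))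
      (t := win e K) (g := fun w => w.sum) (fun w hw => (Finset.mem_filter.mp hw).2)]
    refine Finset.sum_congr rfl (fun A hA => ?_)
    have hA3 : A ≤ 3 * K := by
      unfold win at hA
      have := Finset.mem_range.mp (Finset.mem_filter.mp hA).1
      omega
    rw [← rho_words (L := 3 * K) (K := K) hA3, Finset.filter_filter]
    refine Finset.sum_congr ?_ (fun _ _ => rfl)
    ext w
    simp only [Finset.mem_filter]
    constructor
    · rintro ⟨h1, _, h2⟩
      exact ⟨h1, h2⟩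
    · rintro ⟨h1, h2⟩
      exact ⟨h1, by rw [h2]; exact hA, h2⟩
  -- Markov
  have hmark := phi_markov (3 * K) K (K ^ 2) (Nat.one_le_pow _ _ (by omega))
  have hsq : Real.sqrt ((K ^ 2 : ℕ) : ℝ) = K := by
    push_cast
    exact Real.sqrt_sq hK0.le
  rw [hsq] at hmark
  have hsplit : ∑ w ∈ (words (3 * K) K).filter (fun w => w.sum ∈ win e K), pr w
      ≤ ∑ w ∈ Good e K, pr w
        + ∑ w ∈ (words (3 * K) K).filter (fun w => K ^ 2 * 2 ^ w.sum < F w), pr w := by
    rw [← Finset.sum_filter_add_sum_filter_not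
      ((words (3 * K) K).filter (fun w => w.sum ∈ win e K))
      (fun w => F w ≤ K ^ 2 * 2 ^ w.sum) pr]
    refine add_le_add (le_of_eq ?_) ?_
    · unfold Good
      rw [Finset.filter_filter]
    · refine Finset.sum_le_sum_of_subset_of_nonneg ?_ (fun w _ _ => (BAD_pr_pos w).le)
      intro w hw
      simp only [Finset.mem_filter] at hw ⊢
      exact ⟨hw.1.1, not_le.mp hw.2⟩
  rw [hwords, hwin] at hsplit
  have hgoal : (22 + 11 + 2 / e ^ 2) / (K : ℝ) = 2 * (11 / K) + 11 / K + 2 / (e ^ 2 * K) := by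
    field_simp
    ring
  rw [hgoal]
  linarith

end Pool.Agent.Lib.MP_e43fce_nt_nat
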