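import Pool.Agent.Lib.MP_e43fce_nt_nat.QALL

/-! QALLR: the rate version of QALL for all `X >= 2`. -/

set_option autoImplicit false

namespace Pool.Agent.Lib.MP_e43fce_nt_nat

open Finset Filter Topology

/-- equidistribution of an invariant set modulo odd `Q` with a rate, for all `X >= 2` -/
theorem equi_Q_rate' {Q : ℕ} (hQ : Q % 2 = 1) : ∃ C : ℝ, 0 ≤ C ∧ ∀ E : Set ℕ, IsInv E →
    ∀ X : ℕ, 2 ≤ X → ∀ r : ℕ,
      |(∑ n ∈ (Icc 1 X).filter (fun n => n % Q = r % Q), ind E n)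
        - (1 / Q) * (∑ n ∈ Icc 1 X, ind E n)| ≤ C * X / (Real.log X) ^ (1 / 4 : ℝ) := by
  obtain ⟨C, X0, hmain⟩ := equi_Q_rate hQ
  have hQ0 : 0 < Q := by omega
  have hQR : (1 : ℝ) ≤ Q := by exact_mod_cast hQ0
  have hQinv : (1 / (Q : ℝ)) ≤ 1 := by
    rw [div_le_one (by positivity)]; exact hQR
  have hQinv0 : 0 ≤ (1 / (Q : ℝ)) := by positivity
  refine ⟨max |C| ((Real.log (max X0 2 : ℕ)) ^ (1 / 4 : ℝ)), le_trans (abs_nonneg C) (le_max_left _ _), ?_⟩
  intro E hE X hX2 r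
  have hXpos : (0 : ℝ) < X := by
    have : 0 < X := by omega
    exact_mod_cast this
  have hX1R : (1 : ℝ) < X := by
    have : 1 < X := by omega
    exact_mod_cast this
  have hlogpos : 0 < Real.log X := Real.log_pos hX1R
  have hpow : 0 < (Real.log X) ^ (1 / 4 : ℝ) := Real.rpow_pos_of_pos hlogpos _
  rw [le_div_iff₀ hpow]
  by_cases hX : X0 ≤ X
  · have h := hmain E hE X hX r
    have e : (∑ n ∈ (Icc 1 X).filter (fun n => n % Q = r % Q), ind E n)
        - (1 / Q) * (∑ n ∈ Icc 1 X, ind E n) =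
        X * ((∑ n ∈ (Icc 1 X).filter (fun n => n % Q = r % Q), ind E n) / X
        - (1 / Q) * ((∑ n ∈ Icc 1 X, ind E n) / X)) := by
      field_simp
    rw [e, abs_mul, abs_of_pos hXpos]
    have h2 : (Real.log X) ^ (-(1 / 4) : ℝ) * (Real.log X) ^ (1 / 4 : ℝ) = 1 := by
      rw [← Real.rpow_add hlogpos]; norm_num
    have h3 := mul_le_mul_of_nonneg_right h hpow.le
    rw [mul_assoc C, h2, mul_one] at h3
    calc _ = X * (|(∑ n ∈ (Icc 1 X).filter (fun n => n % Q = r % Q), ind E n) / X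
        - (1 / Q) * ((∑ n ∈ Icc 1 X, ind E n) / X)| * (Real.log X) ^ (1 / 4 : ℝ)) := by ring
      _ ≤ X * C := mul_le_mul_of_nonneg_left h3 hXpos.le
      _ ≤ X * max |C| ((Real.log (max X0 2 : ℕ)) ^ (1 / 4 : ℝ)) :=
          mul_le_mul_of_nonneg_left (le_trans (le_abs_self C) (le_max_left _ _)) hXpos.le
      _ = _ := by ring
  · have hle : X ≤ max X0 2 := by omega
    have hnn : ∀ n, 0 ≤ ind E n ∧ ind E n ≤ 1 := by
      intro n
      unfold ind
      split <;> norm_num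
    have hS1 : ∑ n ∈ Icc 1 X, ind E n ≤ X := by
      refine le_trans (Finset.sum_le_sum (fun n _ => (hnn n).2)) ?_
      simp
    have hS0 : 0 ≤ ∑ n ∈ Icc 1 X, ind E n := Finset.sum_nonneg (fun n _ => (hnn n).1)
    have hT0 : 0 ≤ ∑ n ∈ (Icc 1 X).filter (fun n => n % Q = r % Q), ind E n :=
      Finset.sum_nonneg (fun n _ => (hnn n).1)
    have hT1 : ∑ n ∈ (Icc 1 X).filter (fun n => n % Q = r % Q), ind E n ≤ X := by
      refine le_trans ?_ hS1
      exact Finset.sum_le_sum_of_subset_of_nonneg (Finset.filter_subset _ _)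
        (fun n _ _ => (hnn n).1)
    have habs : |(∑ n ∈ (Icc 1 X).filter (fun n => n % Q = r % Q), ind E n)
        - (1 / Q) * (∑ n ∈ Icc 1 X, ind E n)| ≤ X := by
      rw [abs_le]
      constructor
      · nlinarith [mul_nonneg hQinv0 hS0]
      · nlinarith [mul_nonneg hQinv0 hS0]
    have hmono : (Real.log X) ^ (1 / 4 : ℝ) ≤ (Real.log (max X0 2 : ℕ)) ^ (1 / 4 : ℝ) := by
      apply Real.rpow_le_rpow hlogpos.le _ (by norm_num)
      apply Real.log_le_log hXpos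
      exact_mod_cast hle
    calc _ ≤ (X : ℝ) * (Real.log (max X0 2 : ℕ)) ^ (1 / 4 : ℝ) :=
          mul_le_mul habs hmono hpow.le hXpos.le
      _ ≤ X * max |C| ((Real.log (max X0 2 : ℕ)) ^ (1 / 4 : ℝ)) :=
          mul_le_mul_of_nonneg_left (le_max_right _ _) hXpos.le
      _ = _ := by ring

end Pool.Agent.Lib.MP_e43fce_nt_nat
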