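import Pool.Agent.Lib.MP_e43fce_nt_nat.ACnt
import Pool.Agent.Lib.MP_e43fce_nt_nat.QALLR

/-! AAll: QALL and QALLR for almost invariant sets (`ainv_two`: error `B (j+1)` per power `2^j`,
`j < J`, so `B (j+1) / exp x` in the mean). -/

set_option autoImplicit false

namespace Pool.Agent.Lib.MP_e43fce_nt_nat

open Finset Filter Topology

theorem aall_sum_diff {B : ℕ} {E : Set ℕ} (hE : AInv B E) (j : ℕ) (Y : ℝ) (g : ℕ → ℝ)
    (hg : ∀ n, 0 ≤ g n ∧ g n ≤ 1) :
    |∑ n ∈ oddS Y, ind E (2 ^ j * n) * g n - ∑ n ∈ oddS Y, ind E n * g n| ≤ B * (j + 1) := by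
  obtain ⟨S, hS, h⟩ := ainv_two hE j
  rw [← Finset.sum_sub_distrib]
  refine (Finset.abs_sum_le_sum_abs _ _).trans ?_
  have h1 : ∀ n ∈ oddS Y, |ind E (2 ^ j * n) * g n - ind E n * g n| ≤
      if n ∈ S then (1 : ℝ) else 0 := by
    intro n hn
    have hn1 : 0 < n := by
      unfold oddS at hn
      simp only [mem_filter, mem_Icc] at hn
      omega
    split
    · have a := h34_ind_unit E (2 ^ j * n)
      have b := h34_ind_unit E n
      have c := hg n
      rw [abs_le]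
      constructor <;> nlinarith [mul_nonneg a.1 c.1, mul_nonneg b.1 c.1,
        mul_nonneg (sub_nonneg.2 a.2) c.1, mul_nonneg (sub_nonneg.2 b.2) c.1]
    · rename_i hs
      rw [h n hn1 hs]
      simp
  refine (Finset.sum_le_sum h1).trans ?_
  rw [Finset.sum_boole]
  have h2 : ((oddS Y).filter (fun n => n ∈ S)).card ≤ S.card :=
    Finset.card_le_card (fun n hn => (Finset.mem_filter.1 hn).2)
  exact_mod_cast h2.trans hS

/-- the quantitative core: cut the powers of two at `J` -/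
theorem equi_QA_core {Q : ℕ} (hQ : Q % 2 = 1) (B0 : ℕ) : ∃ C x0 : ℝ, 0 ≤ C ∧ 1 ≤ x0 ∧
    ∀ E : Set ℕ, AInv B0 E → ∀ X : ℕ, 1 ≤ X → ∀ J : ℕ, x0 ≤ Real.log ((X : ℝ) / 2 ^ J) → ∀ r : ℕ,
      |(∑ n ∈ (Icc 1 X).filter (fun n => n % Q = r % Q), ind E n) / X
        - (1 / Q) * ((∑ n ∈ Icc 1 X, ind E n) / X)| ≤
      2 * (C * (Real.log ((X : ℝ) / 2 ^ J)) ^ (-(1 / 4) : ℝ)) + (1 / 2) ^ J * 2
        + 2 * B0 * J ^ 2 / X := by
  obtain ⟨C, x0, hmain⟩ := equi_oddA hQ B0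
  have hQ0 : 0 < Q := by omega
  have hQR : (1 : ℝ) ≤ Q := by exact_mod_cast hQ0
  refine ⟨|C|, max x0 1, abs_nonneg C, le_max_right _ _, ?_⟩
  intro E hE X hX1' J hlogX r
  have hXpos : (0 : ℝ) < X := by exact_mod_cast hX1'
  -- the weight
  set p : ℕ → ℝ := fun n => if n % Q = r % Q then ind E n else 0 with hp
  have hpu : Unit01 p := by
    intro n
    have := h34_ind_unit E n
    simp only [hp]
    split
    · exact this
    · norm_num
  have hsum : ∑ n ∈ (Icc 1 X).filter (fun n => n % Q = r % Q), ind E n = ∑ n ∈ Icc 1 X, p n := by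
    rw [Finset.sum_filter]
  rw [hsum, mean_eq_tsum p hX1', mean_eq_tsum (ind E) hX1']
  -- termwise comparison
  set A : ℕ → ℝ := fun j => DD 0 (fun m => p (2 ^ j * m)) (Real.log ((X : ℝ) / 2 ^ j)) with hA
  set B : ℕ → ℝ := fun j => DD 0 (fun m => ind E (2 ^ j * m)) (Real.log ((X : ℝ) / 2 ^ j)) with hB
  have hA01 : ∀ j, 0 ≤ A j ∧ A j ≤ 1 := fun j =>
    ⟨DD_nonneg (fun n => hpu _) _, DD0_le_one (fun n => hpu _) _⟩
  have hB01 : ∀ j, 0 ≤ B j ∧ B j ≤ 1 := fun j =>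
    ⟨DD_nonneg (fun n => h34_ind_unit E _) _, DD0_le_one (fun n => h34_ind_unit E _) _⟩
  have hgeo : Summable (fun j : ℕ => (1 / 2 : ℝ) ^ j) :=
    summable_geometric_of_lt_one (by norm_num) (by norm_num)
  have hsA : Summable (fun j : ℕ => (1 / 2 : ℝ) ^ j * A j) := by
    refine Summable.of_nonneg_of_le (fun j => ?_) (fun j => ?_) hgeo
    · exact mul_nonneg (by positivity) (hA01 j).1
    · have := (hA01 j).2
      have h0 : (0 : ℝ) ≤ (1 / 2) ^ j := by positivity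
      nlinarith
  have hsB : Summable (fun j : ℕ => (1 / 2 : ℝ) ^ j * B j) := by
    refine Summable.of_nonneg_of_le (fun j => ?_) (fun j => ?_) hgeo
    · exact mul_nonneg (by positivity) (hB01 j).1
    · have := (hB01 j).2
      have h0 : (0 : ℝ) ≤ (1 / 2) ^ j := by positivity
      nlinarith
  have hdiff : (∑' j : ℕ, (1 / 2 : ℝ) ^ j * A j) - (1 / Q) * (∑' j : ℕ, (1 / 2 : ℝ) ^ j * B j)
      = ∑' j : ℕ, (1 / 2 : ℝ) ^ j * (A j - (1 / Q) * B j) := by
    rw [← tsum_mul_left, ← Summable.tsum_sub hsA (hsB.mul_left _)]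
    apply tsum_congr
    intro j
    ring
  rw [hdiff]
  -- bounds
  have hQinv : (1 / (Q : ℝ)) ≤ 1 := by
    rw [div_le_one (by positivity)]; exact hQR
  have hQinv0 : 0 ≤ (1 / (Q : ℝ)) := by positivity
  have hb1 : ∀ j, |A j - (1 / Q) * B j| ≤ 1 := by
    intro j
    rw [abs_le]
    constructor
    · have h1 := (hA01 j).1
      have h2 := (hB01 j).2
      have h3 := (hB01 j).1
      nlinarith
    · have h1 := (hA01 j).2
      have h3 := (hB01 j).1
      nlinarith [mul_nonneg hQinv0 h3]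
  set T : ℝ := |C| * (Real.log ((X : ℝ) / 2 ^ J)) ^ (-(1 / 4) : ℝ) with hT
  have hxJ : (1 : ℝ) ≤ Real.log ((X : ℝ) / 2 ^ J) := le_trans (le_max_right _ _) hlogX
  have hT0 : 0 ≤ T := mul_nonneg (abs_nonneg C) (Real.rpow_nonneg (by linarith) _)
  have hb2 : ∀ j ∈ range J, |A j - (1 / Q) * B j| ≤ T + 2 * (B0 * (j + 1)) / ((X : ℝ) / 2 ^ j) := by
    intro j hj
    have hj' : j < J := mem_range.1 hj
    have hlog : Real.log ((X : ℝ) / 2 ^ J) ≤ Real.log ((X : ℝ) / 2 ^ j) := by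
      apply Real.log_le_log (by positivity)
      apply div_le_div_of_nonneg_left hXpos.le (by positivity)
      exact pow_le_pow_right₀ (by norm_num) hj'.le
    have hx0 : x0 ≤ Real.log ((X : ℝ) / 2 ^ j) := le_trans (le_trans (le_max_left _ _) hlogX) hlog
    have h1 := hmain (fQ Q r j) (fQ_per Q r j) (fQ_unit Q r j) E hE _ hx0
    have hY : (0 : ℝ) < (X : ℝ) / 2 ^ j := by positivity
    have hAj : |A j - (∑ n ∈ oddS (Real.exp (Real.log ((X : ℝ) / 2 ^ j))), ind E n * fQ Q r j n) /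
        Real.exp (Real.log ((X : ℝ) / 2 ^ j))| ≤ (B0 * (j + 1)) / ((X : ℝ) / 2 ^ j) := by
      simp only [hA]
      rw [DD_log hY, Real.exp_log hY]
      have e : ∑ m ∈ oddS ((X : ℝ) / 2 ^ j), p (2 ^ j * m) =
          ∑ m ∈ oddS ((X : ℝ) / 2 ^ j), ind E (2 ^ j * m) * fQ Q r j m := by
        apply Finset.sum_congr rfl
        intro m hm
        rw [fQ_nat]
        simp only [hp]
        split <;> simp
      rw [e, ← sub_div, abs_div, abs_of_pos hY]
      exact div_le_div_of_nonneg_right (aall_sum_diff hE j _ _ (fun n => fQ_unit Q r j n)) hY.le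
    have hBj : |B j - DD 0 (ind E) (Real.log ((X : ℝ) / 2 ^ j))| ≤
        (B0 * (j + 1)) / ((X : ℝ) / 2 ^ j) := by
      simp only [hB]
      rw [DD_log hY, DD_log hY, ← sub_div, abs_div, abs_of_pos hY]
      refine div_le_div_of_nonneg_right ?_ hY.le
      have := aall_sum_diff hE j ((X : ℝ) / 2 ^ j) (fun _ => 1) (fun n => by norm_num)
      simpa using this
    rw [fQ_av hQ] at h1
    have hmono : (Real.log ((X : ℝ) / 2 ^ j)) ^ (-(1 / 4) : ℝ) ≤
        (Real.log ((X : ℝ) / 2 ^ J)) ^ (-(1 / 4) : ℝ) :=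
      Real.rpow_le_rpow_of_nonpos (by linarith) hlog (by norm_num)
    have h0 : 0 ≤ (Real.log ((X : ℝ) / 2 ^ j)) ^ (-(1 / 4) : ℝ) :=
      Real.rpow_nonneg (by linarith) _
    have hT1 : C * (Real.log ((X : ℝ) / 2 ^ j)) ^ (-(1 / 4) : ℝ) ≤ T := by
      refine le_trans (mul_le_mul_of_nonneg_right (le_abs_self C) h0) ?_
      exact mul_le_mul_of_nonneg_left hmono (abs_nonneg C)
    have hW0 : 0 ≤ (B0 * ((j : ℝ) + 1)) / ((X : ℝ) / 2 ^ j) := by positivity
    have hBQ : |(1 / (Q : ℝ)) * B j - (1 / Q) * DD 0 (ind E) (Real.log ((X : ℝ) / 2 ^ j))| ≤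
        (B0 * (j + 1)) / ((X : ℝ) / 2 ^ j) := by
      rw [← mul_sub, abs_mul, abs_of_nonneg hQinv0]
      calc _ ≤ 1 * |B j - DD 0 (ind E) (Real.log ((X : ℝ) / 2 ^ j))| :=
            mul_le_mul_of_nonneg_right hQinv (abs_nonneg _)
        _ ≤ _ := by rw [one_mul]; exact hBj
    have e2 : 2 * (B0 * ((j : ℝ) + 1)) / ((X : ℝ) / 2 ^ j) =
        (B0 * (j + 1)) / ((X : ℝ) / 2 ^ j) + (B0 * (j + 1)) / ((X : ℝ) / 2 ^ j) := by ring
    rw [e2]
    rw [abs_le] at hAj hBQ h1 ⊢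
    constructor
    · linarith [hAj.1, hBQ.2, h1.1]
    · linarith [hAj.2, hBQ.1, h1.2]
  -- final estimate
  have hsd : Summable (fun j : ℕ => (1 / 2 : ℝ) ^ j * (A j - (1 / Q) * B j)) := by
    have : (fun j : ℕ => (1 / 2 : ℝ) ^ j * (A j - (1 / Q) * B j)) =
        fun j => (1 / 2 : ℝ) ^ j * A j - (1 / Q) * ((1 / 2 : ℝ) ^ j * B j) := by
      funext j; ring
    rw [this]
    exact hsA.sub (hsB.mul_left _)
  rw [← Summable.sum_add_tsum_nat_add J hsd]
  have hfirst : |∑ j ∈ range J, (1 / 2 : ℝ) ^ j * (A j - (1 / Q) * B j)| ≤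
      2 * T + 2 * B0 * J ^ 2 / X := by
    refine le_trans (Finset.abs_sum_le_sum_abs _ _) ?_
    have h1 : ∑ j ∈ range J, |(1 / 2 : ℝ) ^ j * (A j - (1 / Q) * B j)| ≤
        ∑ j ∈ range J, ((1 / 2 : ℝ) ^ j * T + 2 * B0 * J / X) := by
      apply Finset.sum_le_sum
      intro j hj
      rw [abs_mul, abs_of_nonneg (by positivity : (0 : ℝ) ≤ (1 / 2) ^ j)]
      refine le_trans (mul_le_mul_of_nonneg_left (hb2 j hj) (by positivity)) ?_
      rw [mul_add]
      refine add_le_add le_rfl ?_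
      have e : (1 / 2 : ℝ) ^ j * (2 * (B0 * ((j : ℝ) + 1)) / ((X : ℝ) / 2 ^ j)) =
          2 * B0 * ((j : ℝ) + 1) / X := by
        rw [one_div, inv_pow]
        field_simp
      rw [e]
      refine div_le_div_of_nonneg_right ?_ hXpos.le
      have hjJ : ((j : ℝ) + 1) ≤ J := by
        have := mem_range.1 hj
        exact_mod_cast this
      exact mul_le_mul_of_nonneg_left hjJ (by positivity)
    refine le_trans h1 ?_
    rw [Finset.sum_add_distrib, ← Finset.sum_mul, Finset.sum_const, card_range, nsmul_eq_mul]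
    have h2 : ∑ j ∈ range J, (1 / 2 : ℝ) ^ j ≤ 2 := by
      refine le_trans (hgeo.sum_le_tsum _ (fun j _ => by positivity)) ?_
      rw [tsum_geometric_of_lt_one (by norm_num) (by norm_num)]
      norm_num
    refine add_le_add (mul_le_mul_of_nonneg_right h2 hT0) (le_of_eq ?_)
    ring
  have hsecond : |∑' j : ℕ, (1 / 2 : ℝ) ^ (j + J) * (A (j + J) - (1 / Q) * B (j + J))| ≤
      (1 / 2) ^ J * 2 := by
    have hg : HasSum (fun j : ℕ => (1 / 2 : ℝ) ^ (j + J)) ((1 / 2 : ℝ) ^ J * 2) := by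
      have h := (hasSum_geometric_of_lt_one (show (0 : ℝ) ≤ 1 / 2 by norm_num)
        (show (1 / 2 : ℝ) < 1 by norm_num)).mul_left ((1 / 2 : ℝ) ^ J)
      have e : (1 - 1 / 2 : ℝ)⁻¹ = 2 := by norm_num
      rw [e] at h
      have hfun : (fun j : ℕ => (1 / 2 : ℝ) ^ (j + J)) =
          fun j : ℕ => (1 / 2 : ℝ) ^ J * (1 / 2) ^ j := by
        funext j
        rw [pow_add]; ring
      rw [hfun]
      exact h
    have h1 : ‖∑' j : ℕ, (1 / 2 : ℝ) ^ (j + J) * (A (j + J) - (1 / Q) * B (j + J))‖ ≤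
        (1 / 2 : ℝ) ^ J * 2 := by
      refine tsum_of_norm_bounded hg ?_
      intro j
      rw [norm_mul, Real.norm_of_nonneg (by positivity : (0 : ℝ) ≤ (1 / 2) ^ (j + J)), Real.norm_eq_abs]
      have := hb1 (j + J)
      have h0 : (0 : ℝ) ≤ (1 / 2) ^ (j + J) := by positivity
      nlinarith
    rw [Real.norm_eq_abs] at h1
    exact h1
  refine le_trans (abs_add_le _ _) ?_
  linarith

/-- the same with a rate -/
theorem equi_QA_rate {Q : ℕ} (hQ : Q % 2 = 1) (B0 : ℕ) : ∃ (C : ℝ) (X0 : ℕ), ∀ E : Set ℕ,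
    AInv B0 E →
    ∀ X : ℕ, X0 ≤ X → ∀ r : ℕ,
      |(∑ n ∈ (Icc 1 X).filter (fun n => n % Q = r % Q), ind E n) / X
        - (1 / Q) * ((∑ n ∈ Icc 1 X, ind E n) / X)| ≤ C * (Real.log X) ^ (-(1 / 4) : ℝ) := by
  obtain ⟨C, x0, hC0, hx01, hmain⟩ := equi_QA_core hQ B0
  refine ⟨2 * (C * (1 / 2 : ℝ) ^ (-(1 / 4) : ℝ)) + 4 + 8 * B0,
    ⌈Real.exp (2 * x0)⌉₊, ?_⟩
  intro E hE X hXX r
  have hXe : Real.exp (2 * x0) ≤ X := by
    have := Nat.le_ceil (Real.exp (2 * x0))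
    have h2 : ((⌈Real.exp (2 * x0)⌉₊ : ℕ) : ℝ) ≤ X := by exact_mod_cast hXX
    linarith
  have hXpos : (0 : ℝ) < X := lt_of_lt_of_le (Real.exp_pos _) hXe
  have hX1 : 1 ≤ X := by exact_mod_cast hXpos
  have hlogX : 2 * x0 ≤ Real.log X := by
    rw [Real.le_log_iff_exp_le hXpos]; exact hXe
  set J : ℕ := Nat.log 2 X / 2 with hJ
  have hJ1 : 2 ^ (2 * J) ≤ X := by
    refine le_trans (Nat.pow_le_pow_right (by norm_num) ?_) (Nat.pow_log_le_self 2 (by omega))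
    omega
  have hJ2 : X < 2 ^ (2 * J + 2) := by
    refine lt_of_lt_of_le (Nat.lt_pow_succ_log_self (b := 2) (by norm_num) X) ?_
    exact Nat.pow_le_pow_right (by norm_num) (by omega)
  have hJ1R : ((2 : ℝ) ^ J) ^ 2 ≤ X := by
    rw [← pow_mul, mul_comm J 2]
    exact_mod_cast hJ1
  have hJ2R : (X : ℝ) < 4 * ((2 : ℝ) ^ J) ^ 2 := by
    have h : (X : ℝ) < 2 ^ (2 * J + 2) := by exact_mod_cast hJ2
    have e : (2 : ℝ) ^ (2 * J + 2) = 4 * ((2 : ℝ) ^ J) ^ 2 := by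
      rw [pow_add, mul_comm 2 J, pow_mul]; ring
    rw [e] at h
    exact h
  have h2J : (0 : ℝ) < 2 ^ J := by positivity
  -- lower bound for the logarithm
  have hlogJ : Real.log X / 2 ≤ Real.log ((X : ℝ) / 2 ^ J) := by
    rw [Real.log_div hXpos.ne' h2J.ne']
    have h1 : 2 * Real.log ((2 : ℝ) ^ J) ≤ Real.log X := by
      have h := Real.log_le_log (by positivity) hJ1R
      rw [Real.log_pow ] at h
      push_cast at h
      linarith
    linarith
  have hx0J : x0 ≤ Real.log ((X : ℝ) / 2 ^ J) := by linarith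
  have h := hmain E hE X hX1 J hx0J r
  have hlogpos : 0 < Real.log X := by linarith
  have hr1 : (Real.log ((X : ℝ) / 2 ^ J)) ^ (-(1 / 4) : ℝ) ≤
      (1 / 2 : ℝ) ^ (-(1 / 4) : ℝ) * (Real.log X) ^ (-(1 / 4) : ℝ) := by
    rw [← Real.mul_rpow (by norm_num) hlogpos.le]
    exact Real.rpow_le_rpow_of_nonpos (by linarith) (by linarith) (by norm_num)
  have hr2 : (1 / 2 : ℝ) ^ J * 2 ≤ 4 * (Real.log X) ^ (-(1 / 4) : ℝ) := by
    -- `(1/2)^J < 2 / sqrt X` and `(log X)^(1/4) <= sqrt X`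
    have hs : (0 : ℝ) < Real.sqrt X := Real.sqrt_pos.2 hXpos
    have hlt : Real.sqrt X < 2 * 2 ^ J := by
      rw [show (2 : ℝ) * 2 ^ J = Real.sqrt ((2 * 2 ^ J) ^ 2) from
        (Real.sqrt_sq (by positivity)).symm]
      apply Real.sqrt_lt_sqrt hXpos.le
      nlinarith
    have hpow : (1 / 2 : ℝ) ^ J ≤ 2 / Real.sqrt X := by
      rw [one_div, inv_pow, inv_eq_one_div, div_le_div_iff₀ h2J hs]
      linarith
    have hlogle : (Real.log X) ^ ((1 / 4 : ℝ)) ≤ Real.sqrt X := by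
      have h1 : Real.log X ≤ X := by
        have := Real.log_le_sub_one_of_pos hXpos
        linarith
      have hX1R : (1 : ℝ) ≤ X := by exact_mod_cast hX1
      rw [Real.sqrt_eq_rpow]
      refine le_trans (Real.rpow_le_rpow hlogpos.le h1 (by norm_num)) ?_
      exact Real.rpow_le_rpow_of_exponent_le hX1R (by norm_num)
    have hpos4 : 0 < (Real.log X) ^ ((1 / 4 : ℝ)) := Real.rpow_pos_of_pos hlogpos _
    have hinv : 1 / Real.sqrt X ≤ (Real.log X) ^ (-(1 / 4) : ℝ) := by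
      rw [Real.rpow_neg hlogpos.le, ← one_div]
      exact one_div_le_one_div_of_le hpos4 hlogle
    have h3 : (1 / 2 : ℝ) ^ J * 2 ≤ 4 * (1 / Real.sqrt X) := by
      have : 2 / Real.sqrt X = 2 * (1 / Real.sqrt X) := by ring
      rw [this] at hpow
      linarith
    linarith
  have hr3 : C * (Real.log ((X : ℝ) / 2 ^ J)) ^ (-(1 / 4) : ℝ) ≤
      C * (1 / 2 : ℝ) ^ (-(1 / 4) : ℝ) * (Real.log X) ^ (-(1 / 4) : ℝ) := by
    rw [mul_assoc]
    exact mul_le_mul_of_nonneg_left hr1 hC0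
  have hr4 : 2 * B0 * (J : ℝ) ^ 2 / X ≤ 8 * B0 * (Real.log X) ^ (-(1 / 4) : ℝ) := by
    have hJ3 : (J : ℝ) ^ 2 ≤ 2 * 2 ^ J := by
      have h : ∀ k : ℕ, k ^ 2 ≤ 2 * 2 ^ k := by
        intro k
        induction k using Nat.strong_induction_on with
        | _ k ih =>
          rcases Nat.lt_or_ge k 4 with h4 | h4
          · interval_cases k <;> norm_num
          · have := ih (k - 1) (by omega)
            obtain ⟨m, rfl⟩ : ∃ m, k = m + 1 := ⟨k - 1, by omega⟩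
            rw [Nat.add_sub_cancel] at this
            rw [pow_succ 2 m]
            nlinarith
      exact_mod_cast h J
    have h5 : (J : ℝ) ^ 2 / X ≤ (1 / 2 : ℝ) ^ J * 2 := by
      rw [div_le_iff₀ hXpos]
      have h6 : (2 : ℝ) ^ J ≤ (1 / 2 : ℝ) ^ J * X := by
        rw [one_div, inv_pow, inv_mul_eq_div, le_div_iff₀ h2J]
        nlinarith
      nlinarith
    have h7 : (J : ℝ) ^ 2 / X ≤ 4 * (Real.log X) ^ (-(1 / 4) : ℝ) := le_trans h5 hr2
    have e : 2 * B0 * (J : ℝ) ^ 2 / X = 2 * B0 * ((J : ℝ) ^ 2 / X) := by ring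
    rw [e]
    have hB : (0 : ℝ) ≤ 2 * B0 := by positivity
    have := mul_le_mul_of_nonneg_left h7 hB
    linarith
  calc _ ≤ _ := h
    _ ≤ 2 * (C * (1 / 2 : ℝ) ^ (-(1 / 4) : ℝ) * (Real.log X) ^ (-(1 / 4) : ℝ)) +
        4 * (Real.log X) ^ (-(1 / 4) : ℝ) + 8 * B0 * (Real.log X) ^ (-(1 / 4) : ℝ) := by linarith
    _ = _ := by ring

/-- equidistribution of an almost invariant set modulo odd `Q` with a rate, for all `X >= 2` -/
theorem equi_QA {Q : ℕ} (hQ : Q % 2 = 1) (B : ℕ) : ∃ C : ℝ, 0 ≤ C ∧ ∀ E : Set ℕ, AInv B E →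
    ∀ X : ℕ, 2 ≤ X → ∀ r : ℕ,
      |(∑ n ∈ (Icc 1 X).filter (fun n => n % Q = r % Q), ind E n)
        - (1 / Q) * (∑ n ∈ Icc 1 X, ind E n)| ≤ C * X / (Real.log X) ^ (1 / 4 : ℝ) := by
  obtain ⟨C, X0, hmain⟩ := equi_QA_rate hQ B
  have hQ0 : 0 < Q := by omega
  have hQR : (1 : ℝ) ≤ Q := by exact_mod_cast hQ0
  have hQinv : (1 / (Q : ℝ)) ≤ 1 := by
    rw [div_le_one (by positivity)]; exact hQR
  have hQinv0 : 0 ≤ (1 / (Q : ℝ)) := by positivity
  refine ⟨max |C| ((Real.log (max X0 2 : ℕ)) ^ (1 / 4 : ℝ)), le_trans (abs_nonneg C) (le_max_left _ _), ?_⟩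
  intro E hE X hX2 r
  have hXpos : (0 : ℝ) < X := by
    have : 0 < X := by omega
    exact_mod_cast this
  have hX1R : (1 : ℝ) < X := by
    have : 1 < X := by omega
    exact_mod_cast this
  have hlogpos : 0 < Real.log X := Real.log_pos hX1R
  have hpow : 0 < (Real.log X) ^ (1 / 4 : ℝ) := Real.rpow_pos_of_pos hlogpos _
  rw [le_div_iff₀ hpow]
  by_cases hX : X0 ≤ X
  · have h := hmain E hE X hX r
    have e : (∑ n ∈ (Icc 1 X).filter (fun n => n % Q = r % Q), ind E n)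
        - (1 / Q) * (∑ n ∈ Icc 1 X, ind E n) =
        X * ((∑ n ∈ (Icc 1 X).filter (fun n => n % Q = r % Q), ind E n) / X
        - (1 / Q) * ((∑ n ∈ Icc 1 X, ind E n) / X)) := by
      field_simp
    rw [e, abs_mul, abs_of_pos hXpos]
    have h2 : (Real.log X) ^ (-(1 / 4) : ℝ) * (Real.log X) ^ (1 / 4 : ℝ) = 1 := by
      rw [← Real.rpow_add hlogpos]; norm_num
    have h3 := mul_le_mul_of_nonneg_right h hpow.le
    rw [mul_assoc C, h2, mul_one] at h3
    calc _ = X * (|(∑ n ∈ (Icc 1 X).filter (fun n => n % Q = r % Q), ind E n) / X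
        - (1 / Q) * ((∑ n ∈ Icc 1 X, ind E n) / X)| * (Real.log X) ^ (1 / 4 : ℝ)) := by ring
      _ ≤ X * C := mul_le_mul_of_nonneg_left h3 hXpos.le
      _ ≤ X * max |C| ((Real.log (max X0 2 : ℕ)) ^ (1 / 4 : ℝ)) :=
          mul_le_mul_of_nonneg_left (le_trans (le_abs_self C) (le_max_left _ _)) hXpos.le
      _ = _ := by ring
  · have hle : X ≤ max X0 2 := by omega
    have hnn : ∀ n, 0 ≤ ind E n ∧ ind E n ≤ 1 := by
      intro n
      unfold ind
      split <;> norm_num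
    have hS1 : ∑ n ∈ Icc 1 X, ind E n ≤ X := by
      refine le_trans (Finset.sum_le_sum (fun n _ => (hnn n).2)) ?_
      simp
    have hS0 : 0 ≤ ∑ n ∈ Icc 1 X, ind E n := Finset.sum_nonneg (fun n _ => (hnn n).1)
    have hT0 : 0 ≤ ∑ n ∈ (Icc 1 X).filter (fun n => n % Q = r % Q), ind E n :=
      Finset.sum_nonneg (fun n _ => (hnn n).1)
    have hT1 : ∑ n ∈ (Icc 1 X).filter (fun n => n % Q = r % Q), ind E n ≤ X := by
      refine le_trans ?_ hS1
      exact Finset.sum_le_sum_of_subset_of_nonneg (Finset.filter_subset _ _)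
        (fun n _ _ => (hnn n).1)
    have habs : |(∑ n ∈ (Icc 1 X).filter (fun n => n % Q = r % Q), ind E n)
        - (1 / Q) * (∑ n ∈ Icc 1 X, ind E n)| ≤ X := by
      rw [abs_le]
      constructor
      · nlinarith [mul_nonneg hQinv0 hS0]
      · nlinarith [mul_nonneg hQinv0 hS0]
    have hmono : (Real.log X) ^ (1 / 4 : ℝ) ≤ (Real.log (max X0 2 : ℕ)) ^ (1 / 4 : ℝ) := by
      apply Real.rpow_le_rpow hlogpos.le _ (by norm_num)
      apply Real.log_le_log hXpos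
      exact_mod_cast hle
    calc _ ≤ (X : ℝ) * (Real.log (max X0 2 : ℕ)) ^ (1 / 4 : ℝ) :=
          mul_le_mul habs hmono hpow.le hXpos.le
      _ ≤ X * max |C| ((Real.log (max X0 2 : ℕ)) ^ (1 / 4 : ℝ)) :=
          mul_le_mul_of_nonneg_left (le_max_right _ _) hXpos.le
      _ = _ := by ring

end Pool.Agent.Lib.MP_e43fce_nt_nat
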