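import Pool.Agent.Lib.MP_e43fce_nt_nat.PAR
import Pool.Agent.Lib.MP_e43fce_nt_nat.MMs
import Pool.Agent.Lib.MP_e43fce_nt_nat.Bad

/-! S1 + S2 of Lemma R: bad words and threshold. -/

set_option autoImplicit false

namespace Pool.Agent.Lib.MP_e43fce_nt_nat

open Finset

theorem cnt_mem_oddS {Y : ℝ} {n : ℕ} : n ∈ oddS Y ↔ 1 ≤ n ∧ (n : ℝ) ≤ Y ∧ n % 2 = 1 := by
  unfold oddS
  rw [Finset.mem_filter, Finset.mem_Icc]
  constructor
  · rintro ⟨⟨h1, h2⟩, h3⟩
    exact ⟨h1, (Nat.le_floor_iff' (by omega)).1 h2, h3⟩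
  · rintro ⟨h1, h2, h3⟩
    exact ⟨⟨h1, (Nat.le_floor_iff' (by omega)).2 h2⟩, h3⟩

theorem cnt_good {e : ℝ} {K : ℕ} {w : List ℕ} (hw : w ∈ Good e K) :
    w ∈ words (3 * K) K ∧ w.length = K ∧ (∀ a ∈ w, 1 ≤ a) ∧ w.sum ∈ win e K ∧
      F w ≤ K ^ 2 * 2 ^ w.sum := by
  unfold Good at hw
  rw [Finset.mem_filter] at hw
  obtain ⟨h1, h2, h3⟩ := hw
  have h4 := (mem_words _ _ _).1 h1
  exact ⟨h1, h4.1, fun a ha => (h4.2 a ha).1, h2, h3⟩

theorem cnt_nd_eq {m : ℤ} {w : List ℕ} (h : adm m w) :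
    (3 : ℤ) ^ w.length * nd m w = 2 ^ w.sum * m - F w := by
  unfold nd
  exact Int.mul_ediv_cancel' h

theorem cnt_nd_eqR {m : ℤ} {w : List ℕ} (h : adm m w) :
    (3 : ℝ) ^ w.length * (nd m w : ℝ) = 2 ^ w.sum * (m : ℝ) - F w := by
  exact_mod_cast cnt_nd_eq h

/-- nodes over small roots are small -/
theorem cnt_lower {K : ℕ} {w : List ℕ} (hl : w.length = K) (hw : ∀ a ∈ w, 1 ≤ a) {X : ℝ}
    (g : ℤ → ℝ) (hg : ∀ x, 0 ≤ g x) :
    ∑ s ∈ oddS (3 ^ K * X / 2 ^ w.sum), (if adm (s : ℤ) w then g (nd s w) else 0)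
      ≤ ∑ n ∈ (oddS X).filter (fun n => vw K n = w), g (n : ℤ) := by
  classical
  rw [← Finset.sum_filter]
  set S := (oddS (3 ^ K * X / 2 ^ w.sum)).filter (fun s : ℕ => adm (s : ℤ) w) with hS
  have hex : ∀ s ∈ S, ∃ n : ℕ, n % 2 = 1 ∧ nd s w = n ∧ root w.length n = s ∧
      vw w.length n = w := by
    intro s hs
    rw [hS, Finset.mem_filter, cnt_mem_oddS] at hs
    exact vw_unique hs.1.2.2 hw hs.2
  have hcast : ∀ s ∈ S, (((nd (s : ℤ) w).toNat : ℕ) : ℤ) = nd s w := by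
    intro s hs
    obtain ⟨n, _, hn, _⟩ := hex s hs
    rw [hn]
    simp
  have h1 : ∑ s ∈ S, g (nd s w) = ∑ s ∈ S, g (((nd (s : ℤ) w).toNat : ℕ) : ℤ) :=
    Finset.sum_congr rfl fun s hs => by rw [hcast s hs]
  have hinj : Set.InjOn (fun s : ℕ => (nd (s : ℤ) w).toNat) (S : Set ℕ) := by
    intro s hs t ht hst
    obtain ⟨n, _, hn, hr, _⟩ := hex s hs
    obtain ⟨m, _, hm, hr', _⟩ := hex t ht
    have h2 : (((nd (s : ℤ) w).toNat : ℕ) : ℤ) = (((nd (t : ℤ) w).toNat : ℕ) : ℤ) := by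
      exact_mod_cast hst
    rw [hcast s hs, hcast t ht, hn, hm] at h2
    have h3 : n = m := by exact_mod_cast h2
    rw [← hr, ← hr', h3]
  rw [h1, ← Finset.sum_image (f := fun n : ℕ => g (n : ℤ)) hinj]
  refine Finset.sum_le_sum_of_subset_of_nonneg ?_ fun _ _ _ => hg _
  intro n hn
  rw [Finset.mem_image] at hn
  obtain ⟨s, hs, hsn⟩ := hn
  obtain ⟨m, hm1, hm2, hm3, hm4⟩ := hex s hs
  have hmn : m = n := by
    rw [← hsn, hm2]
    simp
  subst hmn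
  rw [Finset.mem_filter, cnt_mem_oddS]
  rw [hS, Finset.mem_filter, cnt_mem_oddS] at hs
  obtain ⟨⟨hs1, hs2, hs3⟩, hs4⟩ := hs
  refine ⟨⟨by omega, ?_, hm1⟩, by rw [← hl]; exact hm4⟩
  have h5 := cnt_nd_eqR hs4
  rw [hm2, hl] at h5
  push_cast at h5
  have h6 : (0 : ℝ) < 2 ^ w.sum := by positivity
  have h7 : (0 : ℝ) < 3 ^ K := by positivity
  rw [le_div_iff₀ h6] at hs2
  have h8 : (0 : ℝ) ≤ F w := Nat.cast_nonneg _
  have h9 : (3 : ℝ) ^ K * m ≤ 3 ^ K * X := by nlinarith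
  exact le_of_mul_le_mul_left h9 h7

/-- the nodes up to `X` come from roots up to `Z + K ^ 2` -/
theorem cnt_upper {e : ℝ} {K i : ℕ} {w : List ℕ} (hw : w ∈ Good e K) {X : ℝ}
    {p : ℕ → ℝ} {q : ℕ → ℕ → ℝ} (hq : ∀ A, Unit01 (q A)) (hR : RHyp e K p q) :
    ∑ n ∈ (oddS X).filter (fun n => vw K n = w), p n * MM i (n : ℤ)
      ≤ ∑ s ∈ oddS (3 ^ K * X / 2 ^ w.sum + (K : ℝ) ^ 2),
          (if adm (s : ℤ) w then q w.sum s * MM i (nd s w) else 0) := by
  classical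
  obtain ⟨_, hl, hpos, _, hF⟩ := cnt_good hw
  set S := (oddS X).filter (fun n => vw K n = w) with hS
  have hmem : ∀ n ∈ S, n % 2 = 1 ∧ (n : ℝ) ≤ X ∧ vw K n = w ∧ adm ((root K n : ℕ) : ℤ) w ∧
      nd ((root K n : ℕ) : ℤ) w = n ∧ root K n % 2 = 1 := by
    intro n hn
    rw [hS, Finset.mem_filter, cnt_mem_oddS] at hn
    obtain ⟨⟨_, h2, h3⟩, h4⟩ := hn
    refine ⟨h3, h2, h4, ?_, ?_, root_odd K n h3⟩
    · have := vw_adm K n h3
      rwa [h4] at this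
    · have := vw_nd K n h3
      rwa [h4] at this
  have hinj : Set.InjOn (fun n : ℕ => root K n) (S : Set ℕ) := by
    intro n hn m hm hnm
    obtain ⟨_, _, _, _, h1, _⟩ := hmem n hn
    obtain ⟨_, _, _, _, h2, _⟩ := hmem m hm
    have h3 : root K n = root K m := hnm
    rw [h3, h2] at h1
    exact_mod_cast h1.symm
  have h1 : ∑ n ∈ S, p n * MM i (n : ℤ)
      ≤ ∑ n ∈ S, (if adm ((root K n : ℕ) : ℤ) w then
          q w.sum (root K n) * MM i (nd ((root K n : ℕ) : ℤ) w) else 0) := by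
    refine Finset.sum_le_sum fun n hn => ?_
    obtain ⟨_, _, _, h4, h5, h6⟩ := hmem n hn
    rw [if_pos h4, h5]
    exact mul_le_mul_of_nonneg_right (hR _ _ h6 w hw h4 h5) (MM_nonneg _ _)
  refine h1.trans ?_
  rw [← Finset.sum_image (f := fun s : ℕ => (if adm ((s : ℕ) : ℤ) w then
          q w.sum s * MM i (nd ((s : ℕ) : ℤ) w) else 0)) hinj]
  refine Finset.sum_le_sum_of_subset_of_nonneg ?_ fun s _ _ => ?_
  · intro s hs
    rw [Finset.mem_image] at hs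
    obtain ⟨n, hn, rfl⟩ := hs
    obtain ⟨_, h2, _, h4, h5, h6⟩ := hmem n hn
    rw [cnt_mem_oddS]
    refine ⟨by omega, ?_, h6⟩
    have h7 := cnt_nd_eqR h4
    rw [h5, hl] at h7
    push_cast at h7
    have h8 : (0 : ℝ) < 2 ^ w.sum := by positivity
    have h9 : (0 : ℝ) < 3 ^ K := by positivity
    have h10 : (F w : ℝ) ≤ (K : ℝ) ^ 2 * 2 ^ w.sum := by exact_mod_cast hF
    rw [div_add' _ _ _ h8.ne', le_div_iff₀ h8]
    nlinarith [mul_le_mul_of_nonneg_left h2 h9.le]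
  · split_ifs
    · exact mul_nonneg (hq _ _).1 (MM_nonneg _ _)
    · exact le_rfl

/-- splitting the roots at `Z` -/
theorem cnt_split (Z : ℝ) (hZ : 0 ≤ Z) (T : ℕ) (c : ℝ) (h : ℕ → ℝ) (h0 : ∀ s, 0 ≤ h s)
    (hc : ∀ s, h s ≤ c) :
    ∑ s ∈ oddS (Z + T), h s ≤ ∑ s ∈ oddS Z, h s + T * c := by
  classical
  have hfl : ⌊Z + T⌋₊ = ⌊Z⌋₊ + T := Nat.floor_add_natCast hZ T
  have hsub : oddS (Z + T) ⊆ oddS Z ∪ Ioc ⌊Z⌋₊ (⌊Z⌋₊ + T) := by
    intro s hs
    unfold oddS at hs ⊢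
    rw [hfl, Finset.mem_filter, Finset.mem_Icc] at hs
    rw [Finset.mem_union, Finset.mem_filter, Finset.mem_Icc, Finset.mem_Ioc]
    omega
  calc ∑ s ∈ oddS (Z + T), h s ≤ ∑ s ∈ oddS Z ∪ Ioc ⌊Z⌋₊ (⌊Z⌋₊ + T), h s :=
        Finset.sum_le_sum_of_subset_of_nonneg hsub fun s _ _ => h0 s
    _ ≤ ∑ s ∈ oddS Z, h s + ∑ s ∈ Ioc ⌊Z⌋₊ (⌊Z⌋₊ + T), h s := by
        rw [← Finset.sum_union_inter]
        exact le_add_of_nonneg_right (Finset.sum_nonneg fun s _ => h0 s)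
    _ ≤ ∑ s ∈ oddS Z, h s + T * c := by
        have h1 : ∑ s ∈ Ioc ⌊Z⌋₊ (⌊Z⌋₊ + T), h s ≤ ∑ s ∈ Ioc ⌊Z⌋₊ (⌊Z⌋₊ + T), c :=
          Finset.sum_le_sum fun s _ => hc s
        rw [Finset.sum_const, Nat.card_Ioc, nsmul_eq_mul] at h1
        have h2 : ⌊Z⌋₊ + T - ⌊Z⌋₊ = T := by omega
        rw [h2] at h1
        linarith

theorem cnt_fiber {e : ℝ} {K : ℕ} {X : ℝ} (g : ℕ → ℝ) :
    ∑ n ∈ (oddS X).filter (fun n => vw K n ∈ Good e K), g n
      = ∑ w ∈ Good e K, ∑ n ∈ (oddS X).filter (fun n => vw K n = w), g n := by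
  classical
  rw [← Finset.sum_fiberwise_of_maps_to (s := (oddS X).filter (fun n => vw K n ∈ Good e K))
    (t := Good e K) (g := fun n => vw K n) (fun n hn => (Finset.mem_filter.1 hn).2)]
  refine Finset.sum_congr rfl fun w hw => ?_
  congr 1
  rw [Finset.filter_filter]
  refine Finset.filter_congr fun n _ => ?_
  constructor
  · exact fun h => h.2
  · intro h
    exact ⟨by rw [h]; exact hw, h⟩

/-- S1 -/
theorem cnt_bad {e : ℝ} {K i : ℕ} {X : ℝ} (hX : 0 < X) {p : ℕ → ℝ} (hp : Unit01 p) :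
    ∑ n ∈ (oddS X).filter (fun n => ¬ vw K n ∈ Good e K), p n * MM i (n : ℤ)
      ≤ X / 2 * (1 - ∑ w ∈ Good e K, pr w) + 3 ^ i * (1 + (Good e K).card) := by
  classical
  have h1 : ∑ n ∈ (oddS X).filter (fun n => ¬ vw K n ∈ Good e K), p n * MM i (n : ℤ)
      ≤ ∑ n ∈ (oddS X).filter (fun n => ¬ vw K n ∈ Good e K), MM i (n : ℤ) := by
    refine Finset.sum_le_sum fun n _ => ?_
    exact mul_le_of_le_one_left (MM_nonneg _ _) (hp n).2
  have h2 : ∑ n ∈ (oddS X).filter (fun n => vw K n ∈ Good e K), MM i (n : ℤ)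
      + ∑ n ∈ (oddS X).filter (fun n => ¬ vw K n ∈ Good e K), MM i (n : ℤ)
      = ∑ n ∈ oddS X, MM i (n : ℤ) := Finset.sum_filter_add_sum_filter_not _ _ _
  have h3 : ∑ n ∈ oddS X, MM i (n : ℤ) ≤ (X / 2 + 3 ^ i) * mm i := by
    have h := odd_sum i (MM i) (MM_nonneg i) (MM_per i) X hX.le
    rw [MM_av, abs_le] at h
    linarith [h.2]
  have h4 : ∀ w ∈ Good e K, (X / 2 * pr w - 3 ^ i) * mm i
      ≤ ∑ n ∈ (oddS X).filter (fun n => vw K n = w), MM i (n : ℤ) := by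
    intro w hw
    obtain ⟨_, hl, hpos, _, _⟩ := cnt_good hw
    refine le_trans ?_ (cnt_lower hl hpos (X := X) (MM i) (MM_nonneg i))
    set Z : ℝ := 3 ^ K * X / 2 ^ w.sum with hZ
    have hZ0 : 0 ≤ Z := by positivity
    have hwt : 0 < wt w := by unfold wt; positivity
    have h5 := odd_sum (w.length + i) (fun m => if adm m w then wt w * MM i (nd m w) else 0)
      (fun x => by
        show 0 ≤ if adm x w then wt w * MM i (nd x w) else 0
        split_ifs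
        · exact mul_nonneg hwt.le (MM_nonneg _ _)
        · exact le_rfl)
      (node_per w i (MM i) (MM_per i)) Z hZ0
    rw [Av_node w i (MM i) (MM_per i), MM_av, abs_le] at h5
    have h6 := h5.1
    have h7 : ∑ n ∈ oddS Z, (if adm ((n : ℕ) : ℤ) w then wt w * MM i (nd ((n : ℕ) : ℤ) w) else 0)
        = wt w * ∑ n ∈ oddS Z, (if adm ((n : ℕ) : ℤ) w then MM i (nd ((n : ℕ) : ℤ) w) else 0) := by
      rw [Finset.mul_sum]
      refine Finset.sum_congr rfl fun n _ => ?_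
      split_ifs <;> ring
    rw [h7, hl] at h6
    refine le_of_mul_le_mul_left ?_ hwt
    have h8 : wt w * ((X / 2 * pr w - 3 ^ i) * mm i)
        = Z / 2 * (pr w * mm i) - 3 ^ (K + i) * (pr w * mm i) := by
      rw [hZ]
      unfold wt pr
      rw [hl, pow_add]
      field_simp
    rw [h8]
    linarith
  have h9 : ∑ w ∈ Good e K, (X / 2 * pr w - 3 ^ i) * mm i
      ≤ ∑ n ∈ (oddS X).filter (fun n => vw K n ∈ Good e K), MM i (n : ℤ) := by
    rw [cnt_fiber (e := e) (K := K) (X := X) (fun n => MM i (n : ℤ))]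
    exact Finset.sum_le_sum h4
  have h10 : ∑ w ∈ Good e K, (X / 2 * pr w - 3 ^ i) * mm i
      = (X / 2 * ∑ w ∈ Good e K, pr w - 3 ^ i * (Good e K).card) * mm i := by
    rw [← Finset.sum_mul, Finset.sum_sub_distrib, ← Finset.mul_sum, Finset.sum_const,
      nsmul_eq_mul]
    ring
  have h11 : ∑ n ∈ (oddS X).filter (fun n => ¬ vw K n ∈ Good e K), MM i (n : ℤ)
      ≤ (X / 2 * (1 - ∑ w ∈ Good e K, pr w) + 3 ^ i * (1 + (Good e K).card)) * mm i := by
    rw [h10] at h9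
    nlinarith
  refine h1.trans (h11.trans ?_)
  have h12 : 0 ≤ X / 2 * (1 - ∑ w ∈ Good e K, pr w) + 3 ^ i * (1 + (Good e K).card) := by
    have := good_sum_le e K
    have h13 : 0 ≤ 1 - ∑ w ∈ Good e K, pr w := by linarith
    positivity
  exact mul_le_of_le_one_right h12 (mm_le_one i)

/-- S2 -/
theorem cnt_main {e : ℝ} {K i : ℕ} {X : ℝ} (hX : 0 < X)
    {p : ℕ → ℝ} {q : ℕ → ℕ → ℝ} (hq : ∀ A, Unit01 (q A)) (hR : RHyp e K p q) :
    ∑ n ∈ (oddS X).filter (fun n => vw K n ∈ Good e K), p n * MM i (n : ℤ)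
      ≤ ((K : ℝ) ^ 2 + 1) * (Good e K).card * 3 ^ i
      + ∑ A ∈ win e K, (2 : ℝ) ^ A / 3 ^ K *
          ∑ s ∈ oddS (3 ^ K * X / 2 ^ A), q A s *
            ∑ w ∈ (words (3 * K) K).filter (fun w => w.sum = A),
              if adm s w then wt w * MM i (nd s w) else 0 := by
  classical
  rw [cnt_fiber (e := e) (K := K) (X := X) (fun n => p n * MM i (n : ℤ))]
  -- the term of one word
  set H : List ℕ → ℝ := fun w => ∑ s ∈ oddS (3 ^ K * X / 2 ^ w.sum),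
    (if adm (s : ℤ) w then q w.sum s * MM i (nd s w) else 0) with hH
  have hH0 : ∀ w, 0 ≤ H w := by
    intro w
    refine Finset.sum_nonneg fun s _ => ?_
    split_ifs
    · exact mul_nonneg (hq _ _).1 (MM_nonneg _ _)
    · exact le_rfl
  have h1 : ∀ w ∈ Good e K, ∑ n ∈ (oddS X).filter (fun n => vw K n = w), p n * MM i (n : ℤ)
      ≤ H w + (K : ℝ) ^ 2 * 3 ^ i := by
    intro w hw
    refine (cnt_upper hw hq hR).trans ?_
    have h2 := cnt_split (3 ^ K * X / 2 ^ w.sum) (by positivity) (K ^ 2) (3 ^ i)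
      (fun s => if adm (s : ℤ) w then q w.sum s * MM i (nd s w) else 0)
      (fun s => by
        show 0 ≤ if adm (s : ℤ) w then q w.sum s * MM i (nd s w) else 0
        split_ifs
        · exact mul_nonneg (hq _ _).1 (MM_nonneg _ _)
        · exact le_rfl)
      (fun s => by
        show (if adm (s : ℤ) w then q w.sum s * MM i (nd s w) else 0) ≤ 3 ^ i
        split_ifs
        · calc q w.sum s * MM i (nd s w) ≤ 1 * 3 ^ i :=
              mul_le_mul (hq _ _).2 (MM_le _ _) (MM_nonneg _ _) zero_le_one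
            _ = 3 ^ i := one_mul _
        · positivity)
    push_cast at h2
    exact h2
  have h2 : ∑ w ∈ Good e K, ∑ n ∈ (oddS X).filter (fun n => vw K n = w), p n * MM i (n : ℤ)
      ≤ ∑ w ∈ Good e K, H w + (Good e K).card * ((K : ℝ) ^ 2 * 3 ^ i) := by
    refine (Finset.sum_le_sum h1).trans ?_
    rw [Finset.sum_add_distrib, Finset.sum_const, nsmul_eq_mul]
  have h3 : ∑ w ∈ Good e K, H w
      ≤ ∑ A ∈ win e K, ∑ w ∈ (words (3 * K) K).filter (fun w => w.sum = A), H w := by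
    rw [← Finset.sum_biUnion]
    · refine Finset.sum_le_sum_of_subset_of_nonneg ?_ fun w _ _ => hH0 w
      intro w hw
      obtain ⟨h4, _, _, h5, _⟩ := cnt_good hw
      rw [Finset.mem_biUnion]
      exact ⟨w.sum, h5, Finset.mem_filter.2 ⟨h4, rfl⟩⟩
    · intro A _ B _ hAB
      show Disjoint _ _
      rw [Finset.disjoint_left]
      intro w hw hw'
      exact hAB (by rw [← (Finset.mem_filter.1 hw).2, ← (Finset.mem_filter.1 hw').2])
  have h4 : ∀ A ∈ win e K, ∑ w ∈ (words (3 * K) K).filter (fun w => w.sum = A), H w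
      = (2 : ℝ) ^ A / 3 ^ K *
          ∑ s ∈ oddS (3 ^ K * X / 2 ^ A), q A s *
            ∑ w ∈ (words (3 * K) K).filter (fun w => w.sum = A),
              if adm s w then wt w * MM i (nd s w) else 0 := by
    intro A _
    have h5 : ∀ w ∈ (words (3 * K) K).filter (fun w => w.sum = A), H w
        = ∑ s ∈ oddS (3 ^ K * X / 2 ^ A), (2 : ℝ) ^ A / 3 ^ K * (q A s *
            if adm s w then wt w * MM i (nd s w) else 0) := by
      intro w hw
      rw [Finset.mem_filter] at hw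
      obtain ⟨hw1, hw2⟩ := hw
      have hl := ((mem_words _ _ _).1 hw1).1
      rw [hH]
      show ∑ s ∈ oddS (3 ^ K * X / 2 ^ w.sum), _ = _
      rw [hw2]
      refine Finset.sum_congr rfl fun s _ => ?_
      split_ifs
      · unfold wt
        rw [hl, hw2]
        field_simp
      · ring
    rw [Finset.sum_congr rfl h5, Finset.sum_comm, Finset.mul_sum]
    refine Finset.sum_congr rfl fun s _ => ?_
    rw [← Finset.mul_sum, ← Finset.mul_sum]
  rw [Finset.sum_congr rfl h4] at h3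
  have h6 : (0 : ℝ) ≤ (Good e K).card * 3 ^ i := by positivity
  nlinarith

theorem count_S12 {e : ℝ} (h0 : 0 < e) (h1 : e ≤ 1 / 10) {K i : ℕ} (hK : 1 ≤ K) {X : ℝ} (hX : 0 < X)
    {p : ℕ → ℝ} {q : ℕ → ℕ → ℝ} (hp : Unit01 p) (hq : ∀ A, Unit01 (q A)) (hR : RHyp e K p q) :
    NN i p X ≤ X / 2 * (1 - ∑ w ∈ Good e K, pr w) + 3 ^ i * (1 + (Good e K).card)
      + ((K : ℝ) ^ 2 + 1) * (Good e K).card * 3 ^ i
      + ∑ A ∈ win e K, (2 : ℝ) ^ A / 3 ^ K *
          ∑ s ∈ oddS (3 ^ K * X / 2 ^ A), q A s *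
            ∑ w ∈ (words (3 * K) K).filter (fun w => w.sum = A),
              if adm s w then wt w * MM i (nd s w) else 0 := by
  classical
  have h2 : ∑ n ∈ (oddS X).filter (fun n => vw K n ∈ Good e K), p n * MM i (n : ℤ)
      + ∑ n ∈ (oddS X).filter (fun n => ¬ vw K n ∈ Good e K), p n * MM i (n : ℤ)
      = NN i p X := Finset.sum_filter_add_sum_filter_not _ _ _
  have h3 := cnt_bad (e := e) (K := K) (i := i) hX hp
  have h4 := cnt_main (e := e) (K := K) (i := i) (X := X) hX hq hR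
  linarith

end Pool.Agent.Lib.MP_e43fce_nt_nat
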