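import Pool.Agent.Lib.MP_e43fce_nt_nat.Defs4

/-! QDefs: periods and averages for a general modulus. -/

set_option autoImplicit false

namespace Pool.Agent.Lib.MP_e43fce_nt_nat

open Finset

/-- `f` has period `Q` -/
def PerQ {α : Type} (Q : ℕ) (f : ℤ → α) : Prop := ∀ v z : ℤ, f (v + (Q : ℤ) * z) = f v

/-- average over one period `Q` -/
noncomputable def AvQ (Q : ℕ) (f : ℤ → ℝ) : ℝ := (∑ x ∈ range Q, f (x : ℤ)) / Q

end Pool.Agent.Lib.MP_e43fce_nt_nat
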