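import Pool.Agent.Lib.MP_e43fce_nt_nat.WB
import Pool.Agent.Lib.MP_e43fce_nt_nat.QDefs

/-! QAV: averages for a general modulus. -/

set_option autoImplicit false

namespace Pool.Agent.Lib.MP_e43fce_nt_nat

open Finset

theorem AvQ_pow (k : ℕ) (f : ℤ → ℝ) : AvQ (3 ^ k) f = Av k f := by
  unfold AvQ Av
  push_cast
  rfl

theorem AvQ_sum {α : Type} (Q : ℕ) (s : Finset α) (f : α → ℤ → ℝ) :
    AvQ Q (fun x => ∑ a ∈ s, f a x) = ∑ a ∈ s, AvQ Q (f a) := by
  unfold AvQ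
  rw [Finset.sum_comm, Finset.sum_div]

theorem AvQ_const_mul (Q : ℕ) (c : ℝ) (f : ℤ → ℝ) : AvQ Q (fun x => c * f x) = c * AvQ Q f := by
  unfold AvQ
  rw [← Finset.mul_sum, mul_div_assoc]

theorem AvQ_mono {Q : ℕ} {f g : ℤ → ℝ} (h : ∀ x, f x ≤ g x) : AvQ Q f ≤ AvQ Q g :=
  div_le_div_of_nonneg_right (Finset.sum_le_sum fun _ _ => h _) (by positivity)

theorem AvQ_of_per {Q R : ℕ} (hR : 0 < R) {f : ℤ → ℝ} (h : PerQ Q f) : AvQ (Q * R) f = AvQ Q f := by
  unfold AvQ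
  rw [wb4_range_mul Q R (fun x => f (x : ℤ))]
  have h1 : ∀ r ∈ range Q, ∑ t ∈ range R, f (((r + Q * t : ℕ)) : ℤ) = R * f (r : ℤ) := by
    intro r _
    have h2 : ∀ t ∈ range R, f (((r + Q * t : ℕ)) : ℤ) = f (r : ℤ) := by
      intro t _
      push_cast
      exact h _ _
    rw [Finset.sum_congr rfl h2]
    simp
  rw [Finset.sum_congr rfl h1, ← Finset.mul_sum]
  have h3 : (R : ℝ) ≠ 0 := by positivity
  rcases Nat.eq_zero_or_pos Q with h0 | h0
  · rw [h0]; simp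
  · have h4 : (Q : ℝ) ≠ 0 := by positivity
    push_cast
    field_simp

/-- an affine map with invertible leading coefficient permutes the classes -/
theorem qav_affine {Q : ℕ} (hQ : Q % 2 = 1) (f : ℤ → ℝ) (hf : PerQ Q f) (A : ℕ) (b : ℤ) :
    ∑ t ∈ range Q, f (b + 2 ^ A * (t : ℤ)) = ∑ t ∈ range Q, f (t : ℤ) := by
  have : NeZero Q := ⟨by omega⟩
  have key : ∀ x y : ℤ, (x : ZMod Q) = (y : ZMod Q) → f x = f y := by
    intro x y hxy
    have h1 : (Q : ℤ) ∣ y - x := (ZMod.intCast_eq_intCast_iff_dvd_sub x y Q).1 hxy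
    obtain ⟨z, hz⟩ := h1
    have h2 : y = x + Q * z := by linarith
    rw [h2, hf]
  have hsum : ∀ g : ℤ → ℝ, (∀ x y : ℤ, (x : ZMod Q) = (y : ZMod Q) → g x = g y) →
      ∑ t ∈ range Q, g (t : ℤ) = ∑ y : ZMod Q, g ((y.val : ℕ) : ℤ) := by
    intro g hg
    symm
    refine Finset.sum_bij (fun y _ => y.val) ?_ ?_ ?_ ?_
    · intro y _
      exact Finset.mem_range.2 (ZMod.val_lt y)
    · intro y _ z _ h
      exact ZMod.val_injective _ h
    · intro t ht
      refine ⟨(t : ZMod Q), Finset.mem_univ _, ?_⟩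
      exact ZMod.val_cast_of_lt (Finset.mem_range.1 ht)
    · intro y _
      rfl
  rw [hsum f key]
  rw [hsum (fun x => f (b + 2 ^ A * x)) (by
    intro x y hxy
    apply key
    push_cast
    rw [hxy])]
  have hu : IsUnit ((2 : ZMod Q) ^ A) := by
    apply IsUnit.pow
    have : IsUnit ((2 : ℕ) : ZMod Q) := by
      rw [ZMod.isUnit_iff_coprime, Nat.coprime_two_left, Nat.odd_iff]
      exact hQ
    simpa using this
  obtain ⟨u, hu⟩ := hu
  have hb : Function.Bijective (fun y : ZMod Q => (b : ZMod Q) + 2 ^ A * y) := by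
    rw [← hu]
    exact (Equiv.addLeft (b : ZMod Q)).bijective.comp (Units.mulLeft u).bijective
  rw [← Function.Bijective.sum_comp hb (fun y : ZMod Q => f ((y.val : ℕ) : ℤ))]
  refine Finset.sum_congr rfl fun y _ => ?_
  apply key
  push_cast
  simp

/-- (EQ) for a period `Q` prime or not to `3`, `Q` odd -/
theorem AvQ_node {Q : ℕ} (hQ : Q % 2 = 1) (w : List ℕ) (f : ℤ → ℝ) (hf : PerQ Q f) :
    AvQ (Q * 3 ^ w.length) (fun m => if adm m w then wt w * f (nd m w) else 0) = pr w * AvQ Q f := by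
  unfold AvQ
  rw [mul_comm Q, wb4_range_mul (3 ^ w.length) Q
    (fun x => if adm (x : ℤ) w then wt w * f (nd (x : ℤ) w) else 0)]
  have h1 : ∀ r ∈ range (3 ^ w.length),
      ∑ t ∈ range Q, (if adm (((r + 3 ^ w.length * t : ℕ)) : ℤ) w then
        wt w * f (nd (((r + 3 ^ w.length * t : ℕ)) : ℤ) w) else 0)
      = if adm (r : ℤ) w then wt w * ∑ t ∈ range Q, f (t : ℤ) else 0 := by
    intro r _
    have h2 : ∀ t ∈ range Q, (if adm (((r + 3 ^ w.length * t : ℕ)) : ℤ) w then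
        wt w * f (nd (((r + 3 ^ w.length * t : ℕ)) : ℤ) w) else 0)
        = if adm (r : ℤ) w then wt w * f (nd (r : ℤ) w + 2 ^ w.sum * (t : ℤ)) else 0 := by
      intro t _
      push_cast
      rw [wb4_nd_add]
      simp only [wb4_adm_add]
    rw [Finset.sum_congr rfl h2]
    by_cases h : adm (r : ℤ) w
    · simp only [h, if_true]
      rw [← Finset.mul_sum, qav_affine hQ f hf]
    · simp [h]
  rw [Finset.sum_congr rfl h1]
  obtain ⟨r0, hr0, hr⟩ := wb4_unique w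
  have h3 : ∀ r ∈ range (3 ^ w.length),
      (if adm (r : ℤ) w then wt w * ∑ t ∈ range Q, f (t : ℤ) else 0)
      = if r = r0 then wt w * ∑ t ∈ range Q, f (t : ℤ) else 0 := by
    intro r hr'
    simp only [hr r hr']
  rw [Finset.sum_congr rfl h3, Finset.sum_ite_eq' , if_pos hr0]
  have hQ0 : (Q : ℝ) ≠ 0 := by
    have : 0 < Q := by omega
    positivity
  unfold wt pr
  push_cast
  field_simp

theorem node_perQ {Q : ℕ} (w : List ℕ) (f : ℤ → ℝ) (hf : PerQ Q f) :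
    PerQ (Q * 3 ^ w.length) (fun m => if adm m w then wt w * f (nd m w) else 0) := by
  intro v z
  have h : v + ((Q * 3 ^ w.length : ℕ) : ℤ) * z = v + 3 ^ w.length * (Q * z) := by
    push_cast
    ring
  simp only [h, wb4_adm_add, wb4_nd_add]
  have h2 : nd v w + 2 ^ w.sum * ((Q : ℤ) * z) = nd v w + Q * (2 ^ w.sum * z) := by ring
  rw [h2, hf]

/-- `f` depends on the residue -/
theorem qav_mod {Q : ℕ} {f : ℤ → ℝ} (hper : PerQ Q f) (n : ℕ) :
    f ((n % Q : ℕ) : ℤ) = f (n : ℤ) := by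
  have h := hper ((n % Q : ℕ) : ℤ) ((n / Q : ℕ) : ℤ)
  rw [← h]
  congr 1
  have h2 := Nat.mod_add_div n Q
  exact_mod_cast h2

theorem qav_inj {Q : ℕ} (hQ : Q % 2 = 1) {c t t' : ℕ} (ht : t < Q) (ht' : t' < Q)
    (h : (2 * (t + c) + 1) % Q = (2 * (t' + c) + 1) % Q) : t = t' := by
  have h1 : 2 * (t + c) + 1 ≡ 2 * (t' + c) + 1 [MOD Q] := h
  have h2 : 2 * (t + c) ≡ 2 * (t' + c) [MOD Q] := Nat.ModEq.add_right_cancel' 1 h1
  have hc : Nat.gcd Q 2 = 1 := Nat.coprime_two_right.mpr (Nat.odd_iff.mpr hQ)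
  have h3 : t + c ≡ t' + c [MOD Q] := Nat.ModEq.cancel_left_of_coprime hc h2
  have h4 : t ≡ t' [MOD Q] := Nat.ModEq.add_right_cancel' c h3
  exact Nat.ModEq.eq_of_lt_of_lt h4 ht ht'

/-- a block of `Q` odd numbers -/
theorem qav_block {Q : ℕ} (hQ : Q % 2 = 1) {f : ℤ → ℝ} (hper : PerQ Q f) (c : ℕ) :
    ∑ t ∈ range Q, f ((2 * (t + c) + 1 : ℕ) : ℤ) = ∑ x ∈ range Q, f (x : ℤ) := by
  have himg : (range Q).image (fun t => (2 * (t + c) + 1) % Q) = range Q := by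
    apply Finset.eq_of_subset_of_card_le
    · intro x hx
      rw [mem_image] at hx
      obtain ⟨t, -, rfl⟩ := hx
      rw [mem_range]
      exact Nat.mod_lt _ (by omega)
    · rw [card_image_of_injOn]
      intro t ht t' ht' h
      exact qav_inj hQ (mem_range.1 ht) (mem_range.1 ht') h
  conv_rhs => rw [← himg]
  rw [sum_image]
  · apply sum_congr rfl
    intro t _
    exact (qav_mod hper _).symm
  · intro t ht t' ht' h
    exact qav_inj hQ (mem_range.1 ht) (mem_range.1 ht') h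

theorem qav_part {Q : ℕ} (hQ : Q % 2 = 1) {f : ℤ → ℝ} (hf : ∀ x, 0 ≤ f x) (hper : PerQ Q f)
    (c r : ℕ) (hr : r ≤ Q) :
    ∑ t ∈ range r, f ((2 * (t + c) + 1 : ℕ) : ℤ) ≤ ∑ x ∈ range Q, f (x : ℤ) := by
  rw [← qav_block hQ hper c]
  apply sum_le_sum_of_subset_of_nonneg
  · intro x hx
    rw [mem_range] at hx ⊢
    omega
  · intro x _ _
    exact hf _

theorem qav_full {Q : ℕ} (hQ : Q % 2 = 1) {f : ℤ → ℝ} (hper : PerQ Q f) (q : ℕ) :
    ∑ t ∈ range (q * Q), f ((2 * t + 1 : ℕ) : ℤ) = q * ∑ x ∈ range Q, f (x : ℤ) := by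
  induction q with
  | zero => simp
  | succ q ih =>
    rw [Nat.succ_mul, Finset.sum_range_add, ih]
    have h := qav_block hQ hper (q * Q)
    have h2 : ∑ x ∈ range Q, f ((2 * (q * Q + x) + 1 : ℕ) : ℤ) =
        ∑ x ∈ range Q, f (x : ℤ) := by
      rw [← h]
      apply sum_congr rfl
      intro x _
      rw [add_comm (q * Q) x]
    rw [h2]
    push_cast
    ring

theorem odd_sumQ {Q : ℕ} (hQ : Q % 2 = 1) (f : ℤ → ℝ) (hf : ∀ x, 0 ≤ f x) (hper : PerQ Q f)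
    (Y : ℝ) (hY : 0 ≤ Y) : |∑ n ∈ oddS Y, f n - Y / 2 * AvQ Q f| ≤ Q * AvQ Q f := by
  set S : ℝ := ∑ x ∈ range Q, f (x : ℤ) with hS
  have hS0 : 0 ≤ S := sum_nonneg fun x _ => hf _
  have hQpos : 0 < Q := by omega
  have h3 : (0 : ℝ) < Q := by exact_mod_cast hQpos
  have hAv : AvQ Q f = S / Q := rfl
  set m := (⌊Y⌋₊ + 1) / 2 with hm
  set q := m / Q with hq
  set r := m % Q with hr
  have hmq : m = q * Q + r := by
    rw [mul_comm]; exact (Nat.div_add_mod m Q).symm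
  have hrlt : r < Q := Nat.mod_lt _ hQpos
  have hsum : ∑ n ∈ oddS Y, f n = q * S + ∑ t ∈ range r, f ((2 * (q * Q + t) + 1 : ℕ) : ℤ) := by
    rw [wb5_oddS, ← hm, hmq, Finset.sum_range_add, qav_full hQ hper q]
  have hp0 : 0 ≤ ∑ t ∈ range r, f ((2 * (q * Q + t) + 1 : ℕ) : ℤ) := sum_nonneg fun x _ => hf _
  have hp1 : ∑ t ∈ range r, f ((2 * (q * Q + t) + 1 : ℕ) : ℤ) ≤ S := by
    have h := qav_part hQ hf hper (q * Q) r hrlt.le
    refine le_trans (le_of_eq ?_) h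
    apply sum_congr rfl
    intro x _
    rw [add_comm (q * Q) x]
  have hfl1 : (⌊Y⌋₊ : ℝ) ≤ Y := Nat.floor_le hY
  have hfl2 : Y < (⌊Y⌋₊ : ℝ) + 1 := Nat.lt_floor_add_one Y
  have hm1 : (m : ℝ) ≤ (Y + 1) / 2 := by
    have : 2 * m ≤ ⌊Y⌋₊ + 1 := by omega
    have h : (2 : ℝ) * m ≤ (⌊Y⌋₊ : ℝ) + 1 := by exact_mod_cast this
    linarith
  have hm2 : Y / 2 - 1 / 2 < m := by
    have : ⌊Y⌋₊ ≤ 2 * m := by omega
    have h : (⌊Y⌋₊ : ℝ) ≤ 2 * m := by exact_mod_cast this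
    linarith
  have hmq' : (m : ℝ) = q * Q + r := by exact_mod_cast hmq
  have hr1 : (r : ℝ) + 1 ≤ Q := by exact_mod_cast hrlt
  have hr0 : (0 : ℝ) ≤ r := Nat.cast_nonneg r
  have h3one : (1 : ℝ) ≤ Q := by exact_mod_cast hQpos
  rw [hAv, hsum, abs_le]
  have e1 : (Q : ℝ) * (S / Q) = S := by field_simp
  have e2 : Y / 2 * (S / Q) = (Y / (2 * Q)) * S := by field_simp
  rw [e1, e2]
  constructor
  · have h5 : Y / (2 * Q) ≤ q + 1 := by
      rw [div_le_iff₀ (by positivity)]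
      nlinarith
    have h6 := mul_le_mul_of_nonneg_right h5 hS0
    nlinarith
  · rcases Nat.eq_zero_or_pos r with h0 | h0
    · have hz : ∑ t ∈ range r, f ((2 * (q * Q + t) + 1 : ℕ) : ℤ) = 0 := by
        rw [h0]; simp
      rw [hz]
      have h5 : (q : ℝ) ≤ Y / (2 * Q) + 1 := by
        have h7 : (q : ℝ) ≤ (Y + 2 * Q) / (2 * Q) := by
          rw [le_div_iff₀ (by positivity)]
          rw [h0] at hmq'
          push_cast at hmq'
          nlinarith
        have h8 : (Y + 2 * Q) / (2 * Q) = Y / (2 * Q) + 1 := by field_simp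
        rwa [h8] at h7
      have h6 := mul_le_mul_of_nonneg_right h5 hS0
      nlinarith
    · have h0' : (1 : ℝ) ≤ r := by exact_mod_cast h0
      have h5 : (q : ℝ) ≤ Y / (2 * Q) := by
        rw [le_div_iff₀ (by positivity)]
        nlinarith
      have h6 := mul_le_mul_of_nonneg_right h5 hS0
      nlinarith

theorem odd_sumQ_le {Q : ℕ} (hQ : Q % 2 = 1) (f : ℤ → ℝ) (hf : ∀ x, 0 ≤ f x) (hper : PerQ Q f)
    (Y : ℝ) (hY : 2 * Q ≤ Y) : ∑ n ∈ oddS Y, f n ≤ Y * AvQ Q f := by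
  have hQpos : 0 < Q := by omega
  have h3 : (0 : ℝ) < Q := by exact_mod_cast hQpos
  have h := odd_sumQ hQ f hf hper Y (by linarith)
  rw [abs_le] at h
  have hA : 0 ≤ AvQ Q f := by
    unfold AvQ
    apply div_nonneg _ h3.le
    exact sum_nonneg fun x _ => hf _
  nlinarith [h.2]

end Pool.Agent.Lib.MP_e43fce_nt_nat
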