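import Pool.Agent.Lib.MP_e43fce_nt_nat.LemR
import Pool.Agent.Lib.MP_e43fce_nt_nat.MMs
import Pool.Agent.Lib.MP_e43fce_nt_nat.PAR
import Pool.Agent.Lib.MP_e43fce_nt_nat.TV
import Pool.Agent.Lib.MP_e43fce_nt_nat.WB1
import Pool.Agent.Lib.MP_e43fce_nt_nat.Defs4

/-! Section 6: equality form. -/

set_option autoImplicit false

namespace Pool.Agent.Lib.MP_e43fce_nt_nat

open Finset

namespace REQaux

theorem col_pos {n : ℕ} (h : 0 < n) : 0 < col n := by
  unfold col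
  split_ifs with h2
  · omega
  · omega

theorem inv_iter {E : Set ℕ} (hE : IsInv E) (k : ℕ) : ∀ n : ℕ, 0 < n → (n ∈ E ↔ col^[k] n ∈ E) := by
  induction k with
  | zero => intro n _; simp
  | succ k ih =>
    intro n hn
    rw [Function.iterate_succ_apply]
    exact (hE n hn).trans (ih (col n) (col_pos hn))

theorem col_zero_iter (k : ℕ) : col^[k] 0 = 0 := by
  induction k with
  | zero => rfl
  | succ k ih =>
    rw [Function.iterate_succ_apply]
    have : col 0 = 0 := by simp [col]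
    rw [this]; exact ih

theorem words_pos {L K : ℕ} {w : List ℕ} (hw : w ∈ words L K) : ∀ a ∈ w, 1 ≤ a := by
  have := (mem_words L K w).1 hw
  intro a ha
  exact (this.2 a ha).1

theorem mem_iff {E : Set ℕ} (hE : IsInv E) {e : ℝ} {K s n : ℕ} (hs : s % 2 = 1) {w : List ℕ}
    (hw : w ∈ Good e K) (had : adm s w) (hn : nd s w = (n : ℤ)) : n ∈ E ↔ s ∈ E := by
  have hw' : w ∈ words (3 * K) K := by
    unfold Good at hw
    exact (Finset.mem_filter.1 hw).1
  have h1 := nd_col hs (words_pos hw') had hn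
  have hn0 : 0 < n := by
    rcases Nat.eq_zero_or_pos n with h | h
    · subst h
      rw [col_zero_iter] at h1
      omega
    · exact h
  have h2 := inv_iter hE (w.length + w.sum) n hn0
  rw [h1] at h2
  exact h2

theorem ind_unit (E : Set ℕ) : Unit01 (ind E) := by
  intro n
  unfold ind
  split_ifs <;> simp

theorem ind_unit' (E : Set ℕ) : Unit01 (fun n => 1 - ind E n) := by
  intro n
  have := ind_unit E n
  constructor <;> dsimp only <;> linarith [this.1, this.2]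

theorem ind_eq {E : Set ℕ} {a b : ℕ} (h : a ∈ E ↔ b ∈ E) : ind E a = ind E b := by
  unfold ind
  by_cases ha : a ∈ E
  · have hb := h.1 ha
    simp [ha, hb]
  · have hb : b ∉ E := fun hb => ha (h.2 hb)
    simp [ha, hb]

theorem hyp1 {E : Set ℕ} (hE : IsInv E) (e : ℝ) (K : ℕ) : RHyp e K (ind E) (fun _ => ind E) := by
  intro s n hs w hw had hn
  exact (ind_eq (mem_iff hE hs hw had hn)).le

theorem hyp2 {E : Set ℕ} (hE : IsInv E) (e : ℝ) (K : ℕ) :
    RHyp e K (fun n => 1 - ind E n) (fun _ => fun n => 1 - ind E n) := by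
  intro s n hs w hw had hn
  have := ind_eq (mem_iff hE hs hw had hn)
  dsimp only
  rw [this]

theorem win_le {K A : ℕ} (h : A ∈ win (1 / 10) K) : (A : ℝ) ≤ 2.1 * K := by
  unfold win at h
  have := (Finset.mem_filter.1 h).2
  have := (abs_le.1 this).2
  linarith

theorem zz_ge {x : ℝ} {K A : ℕ} (hx : 0 ≤ x) (hK : (K : ℝ) ≤ 3 * x / 10)
    (h : A ∈ win (1 / 10) K) : 0.8 * x ≤ zz x K A := by
  have h1 := win_le h
  have h2 : (1 : ℝ) ≤ Real.log 3 := by
    rw [Real.le_log_iff_exp_le (by norm_num)]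
    exact (Real.exp_one_lt_d9.le).trans (by norm_num)
  have h3 := Real.log_two_lt_d9
  have h4 : (0 : ℝ) ≤ Real.log 2 := Real.log_nonneg (by norm_num)
  have hK0 : (0 : ℝ) ≤ K := Nat.cast_nonneg K
  unfold zz
  have h5 : (A : ℝ) * Real.log 2 ≤ 2.1 * K * 0.694 := by
    apply mul_le_mul h1 (by linarith) h4 (by positivity)
  have h6 : (K : ℝ) * 1 ≤ K * Real.log 3 := mul_le_mul_of_nonneg_left h2 hK0
  nlinarith

theorem three_pow_le {x : ℝ} {K j : ℕ} (hK : (K : ℝ) ≤ 3 * x / 10) (hj : j ^ 2 ≤ K) :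
    (3 : ℝ) ^ j ≤ Real.exp (0.6 * x) := by
  have h1 : (3 : ℝ) ≤ Real.exp 2 := by
    have := Real.add_one_le_exp (2 : ℝ)
    linarith
  have h2 : (j : ℝ) ≤ K := by
    have : j ≤ j ^ 2 := by nlinarith [Nat.zero_le j, sq_nonneg ((j : ℤ) - 1), Nat.le_self_pow (n := 2) (by norm_num) j]
    exact_mod_cast this.trans hj
  calc (3 : ℝ) ^ j ≤ (Real.exp 2) ^ j := pow_le_pow_left₀ (by norm_num) h1 j
    _ = Real.exp (j * 2) := by rw [← Real.exp_nat_mul]
    _ ≤ Real.exp (0.6 * x) := by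
      apply Real.exp_le_exp.2
      linarith

theorem exp_small {x y : ℝ} (hx : 1 ≤ x) (hy : 0.2 * x ≤ y) :
    Real.exp (-y) ≤ 5 * x ^ (-(1 / 4) : ℝ) := by
  have h1 : Real.exp (-y) ≤ Real.exp (-(0.2 * x)) := Real.exp_le_exp.2 (by linarith)
  have h2 : Real.exp (-(0.2 * x)) ≤ 5 / x := by
    rw [Real.exp_neg]
    have := Real.add_one_le_exp (0.2 * x)
    rw [inv_le_comm₀ (Real.exp_pos _) (by positivity)]
    have h3 : (5 / x)⁻¹ = 0.2 * x := by
      rw [inv_div]; ring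
    rw [h3]; linarith
  have h3 : 5 / x ≤ 5 * x ^ (-(1 / 4) : ℝ) := by
    rw [div_eq_mul_inv]
    apply mul_le_mul_of_nonneg_left _ (by norm_num)
    rw [← Real.rpow_neg_one]
    exact Real.rpow_le_rpow_of_exponent_le hx (by norm_num)
  linarith

theorem i1_sq (K : ℕ) : i1 K ^ 2 ≤ K := by
  unfold i1
  have h1 := Nat.sqrt_le' (Nat.sqrt (Nat.sqrt K))
  have h2 := Nat.sqrt_le_self (Nat.sqrt K)
  have h3 := Nat.sqrt_le_self K
  exact h1.trans (h2.trans h3)

end REQaux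

open REQaux

/-- (R=) -/
theorem R_eq : ∃ C x0 : ℝ, 0 < C ∧ 1 ≤ x0 ∧ ∀ E : Set ℕ, IsInv E →
    ∀ x : ℝ, x0 ≤ x → ∀ K i : ℕ, x / 10 ≤ (K : ℝ) → (K : ℝ) ≤ 3 * x / 10 → i ^ 2 ≤ K →
      |DD i (ind E) x - ∑ A ∈ win (1 / 10) K, rho K A * DD (i1 K) (ind E) (zz x K A)|
        ≤ C * (x ^ (-(1 / 4) : ℝ) + i / 2 ^ i) := by
  obtain ⟨C1, x1, hC1, hx1, hR⟩ := lemR (e := 1 / 10) (by norm_num) (by norm_num)
  refine ⟨C1 + 10, x1, by linarith, hx1, ?_⟩
  intro E hE x hx K i hK1 hK2 hi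
  have hx1' : (1 : ℝ) ≤ x := hx1.trans hx
  have hU := hR x hx K i hK1 hK2 hi (ind E) (fun _ => ind E) (ind_unit E) (fun _ => ind_unit E)
    (hyp1 hE _ K)
  have hL := hR x hx K i hK1 hK2 hi (fun n => 1 - ind E n) (fun _ => fun n => 1 - ind E n)
    (ind_unit' E) (fun _ => ind_unit' E) (hyp2 hE _ K)
  set S := ∑ A ∈ win (1 / 10) K, rho K A * DD (i1 K) (ind E) (zz x K A) with hS
  have hr : (0 : ℝ) ≤ x ^ (-(1 / 4) : ℝ) := Real.rpow_nonneg (by linarith) _
  have hi0 : (0 : ℝ) ≤ (i : ℝ) / 2 ^ i := by positivity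
  -- the total mass
  have hT : ∑ A ∈ win (1 / 10) K, rho K A * DD (i1 K) (fun n => 1 - ind E n) (zz x K A)
      ≤ 1 / 2 + 5 * x ^ (-(1 / 4) : ℝ) - S := by
    have h1 : ∀ A ∈ win (1 / 10) K, rho K A * DD (i1 K) (fun n => 1 - ind E n) (zz x K A)
        ≤ rho K A * (1 / 2 + 5 * x ^ (-(1 / 4) : ℝ)) - rho K A * DD (i1 K) (ind E) (zz x K A) := by
      intro A hA
      rw [DD_compl, ← mul_sub]
      apply mul_le_mul_of_nonneg_left _ (rho_nonneg K A)
      have hz := zz_ge (by linarith) hK2 hA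
      have hz0 : 0 ≤ zz x K A := by linarith
      have h2 := (abs_le.1 (DD_one (i1 K) (zz x K A) hz0)).2
      have h3 := mm_le_one (i1 K)
      have h4 : (3 : ℝ) ^ (i1 K) / Real.exp (zz x K A) ≤ 5 * x ^ (-(1 / 4) : ℝ) := by
        have h5 := three_pow_le hK2 (i1_sq K)
        calc (3 : ℝ) ^ (i1 K) / Real.exp (zz x K A)
            ≤ Real.exp (0.6 * x) / Real.exp (zz x K A) := by
              apply div_le_div_of_nonneg_right h5 (Real.exp_pos _).le
          _ = Real.exp (-(zz x K A - 0.6 * x)) := by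
              rw [← Real.exp_sub]; congr 1; ring
          _ ≤ _ := exp_small hx1' (by linarith)
      linarith
    have h2 := Finset.sum_le_sum h1
    rw [Finset.sum_sub_distrib, ← hS, ← Finset.sum_mul] at h2
    have h3 : ∑ A ∈ win (1 / 10) K, rho K A ≤ 1 := by
      refine le_trans ?_ (rho_sum_le K (3 * K + 1))
      apply Finset.sum_le_sum_of_subset_of_nonneg
      · unfold win; exact Finset.filter_subset _ _
      · intro A _ _; exact rho_nonneg K A
    have h4 : (∑ A ∈ win (1 / 10) K, rho K A) * (1 / 2 + 5 * x ^ (-(1 / 4) : ℝ))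
        ≤ 1 * (1 / 2 + 5 * x ^ (-(1 / 4) : ℝ)) :=
      mul_le_mul_of_nonneg_right h3 (by linarith)
    linarith
  have hB : 1 / 2 - (i : ℝ) / 2 ^ i - 5 * x ^ (-(1 / 4) : ℝ) ≤ DD i (fun _ => 1) x := by
    have h2 := (abs_le.1 (DD_one i x (by linarith))).1
    have h3 := mm_ge i
    have h4 : (3 : ℝ) ^ i / Real.exp x ≤ 5 * x ^ (-(1 / 4) : ℝ) := by
      have h5 := three_pow_le hK2 hi
      calc (3 : ℝ) ^ i / Real.exp x
          ≤ Real.exp (0.6 * x) / Real.exp x := by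
            apply div_le_div_of_nonneg_right h5 (Real.exp_pos _).le
        _ = Real.exp (-(x - 0.6 * x)) := by
            rw [← Real.exp_sub]; congr 1; ring
        _ ≤ _ := exp_small hx1' (by linarith)
    linarith
  rw [DD_compl] at hL
  rw [abs_le]
  have hC : (C1 + 10) * (x ^ (-(1 / 4) : ℝ) + (i : ℝ) / 2 ^ i)
      = C1 * x ^ (-(1 / 4) : ℝ) + 10 * x ^ (-(1 / 4) : ℝ) + (C1 + 10) * ((i : ℝ) / 2 ^ i) := by
    ring
  have hCi : (i : ℝ) / 2 ^ i ≤ (C1 + 10) * ((i : ℝ) / 2 ^ i) := by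
    nlinarith
  rw [hC]
  constructor
  · linarith
  · have : 0 ≤ (C1 + 10) * ((i : ℝ) / 2 ^ i) := by positivity
    linarith

end Pool.Agent.Lib.MP_e43fce_nt_nat
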