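import Pool.Agent.Lib.MP_e43fce_nt_nat.AIDefs
import Pool.Agent.Lib.MP_e43fce_nt_nat.QCNT

/-! ACnt: `equi_odd` for almost invariant sets. As in QCNT.lean, but the roots carry the weight
`qv S E s`: it is `1` on the exceptional roots `S` (`ainv_ind`, `card S <= B (4K+1)`) and `ind E s`
off `S`; in `a_total` the nodes over `s` in `S` cost at most `card S` times the number of words. -/

set_option autoImplicit false

namespace Pool.Agent.Lib.MP_e43fce_nt_nat

open Finset QCNTaux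

namespace ACntaux

/-- the weight of the roots -/
noncomputable def qv (S : Finset ℕ) (E : Set ℕ) (s : ℕ) : ℝ := by
  classical exact if s ∈ S then 1 else ind E s

theorem qv_unit (S : Finset ℕ) (E : Set ℕ) (s : ℕ) : 0 ≤ qv S E s ∧ qv S E s ≤ 1 := by
  unfold qv
  split_ifs
  · exact ⟨zero_le_one, le_rfl⟩
  · exact REQaux.ind_unit E s

theorem qv_off {S : Finset ℕ} {E : Set ℕ} {s : ℕ} (h : s ∉ S) : qv S E s = ind E s := by
  unfold qv
  rw [if_neg h]

theorem qv_on {S : Finset ℕ} {E : Set ℕ} {s : ℕ} (h : s ∈ S) : qv S E s = 1 := by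
  unfold qv
  rw [if_pos h]

/-- the nodes over roots outside `S` have the membership of the root -/
def Rt (S : Finset ℕ) (E : Set ℕ) (K : ℕ) : Prop :=
  ∀ (s n : ℕ) (w : List ℕ), s % 2 = 1 → w.length = K →
      (∀ a ∈ w, 1 ≤ a) → w.sum ≤ 3 * K → adm s w → nd s w = (n : ℤ) → s ∉ S →
      ind E n = ind E s

theorem Rt.le {S : Finset ℕ} {E : Set ℕ} {K : ℕ} (h : Rt S E K) {s n : ℕ} {w : List ℕ}
    (hs : s % 2 = 1) (hl : w.length = K) (hp : ∀ a ∈ w, 1 ≤ a) (hsum : w.sum ≤ 3 * K)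
    (had : adm s w) (hn : nd s w = (n : ℤ)) : ind E n ≤ qv S E s := by
  by_cases hS : s ∈ S
  · rw [qv_on hS]
    exact (REQaux.ind_unit E n).2
  · rw [qv_off hS, h s n w hs hl hp hsum had hn hS]

theorem win_le3 {e : ℝ} {K A : ℕ} (h : A ∈ win e K) : A ≤ 3 * K := by
  unfold win at h
  have := (Finset.mem_filter.mp h).1
  rw [Finset.mem_range] at this
  omega

/-- the nodes up to `X` come from roots up to `Z + K ^ 2` -/
theorem a_upper {e : ℝ} {K : ℕ} {w : List ℕ} (hw : w ∈ Good e K) {X : ℝ}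
    {E : Set ℕ} {S : Finset ℕ} (hE : Rt S E K) {f : ℤ → ℝ} (hf : ∀ x, 0 ≤ f x ∧ f x ≤ 1) :
    ∑ n ∈ (oddS X).filter (fun n => vw K n = w), ind E n * f (n : ℤ)
      ≤ ∑ s ∈ oddS (3 ^ K * X / 2 ^ w.sum + (K : ℝ) ^ 2),
          (if adm (s : ℤ) w then qv S E s * f (nd s w) else 0) := by
  classical
  obtain ⟨_, hl, hpos, hwin, hF⟩ := cnt_good hw
  set T := (oddS X).filter (fun n => vw K n = w) with hT
  have hmem : ∀ n ∈ T, n % 2 = 1 ∧ (n : ℝ) ≤ X ∧ vw K n = w ∧ adm ((root K n : ℕ) : ℤ) w ∧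
      nd ((root K n : ℕ) : ℤ) w = n ∧ root K n % 2 = 1 := by
    intro n hn
    rw [hT, Finset.mem_filter, cnt_mem_oddS] at hn
    obtain ⟨⟨_, h2, h3⟩, h4⟩ := hn
    refine ⟨h3, h2, h4, ?_, ?_, root_odd K n h3⟩
    · have := vw_adm K n h3
      rwa [h4] at this
    · have := vw_nd K n h3
      rwa [h4] at this
  have hinj : Set.InjOn (fun n : ℕ => root K n) (T : Set ℕ) := by
    intro n hn m hm hnm
    obtain ⟨_, _, _, _, h1, _⟩ := hmem n hn
    obtain ⟨_, _, _, _, h2, _⟩ := hmem m hm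
    have h3 : root K n = root K m := hnm
    rw [h3, h2] at h1
    exact_mod_cast h1.symm
  have h1 : ∑ n ∈ T, ind E n * f (n : ℤ)
      ≤ ∑ n ∈ T, (if adm ((root K n : ℕ) : ℤ) w then
          qv S E (root K n) * f (nd ((root K n : ℕ) : ℤ) w) else 0) := by
    refine Finset.sum_le_sum fun n hn => ?_
    obtain ⟨_, _, _, h4, h5, h6⟩ := hmem n hn
    rw [if_pos h4, h5]
    exact mul_le_mul_of_nonneg_right (hE.le h6 hl hpos (win_le3 hwin) h4 h5) (hf _).1
  refine h1.trans ?_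
  rw [← Finset.sum_image (f := fun s : ℕ => (if adm ((s : ℕ) : ℤ) w then
          qv S E s * f (nd ((s : ℕ) : ℤ) w) else 0)) hinj]
  refine Finset.sum_le_sum_of_subset_of_nonneg ?_ fun s _ _ => ?_
  · intro s hs
    rw [Finset.mem_image] at hs
    obtain ⟨n, hn, rfl⟩ := hs
    obtain ⟨_, h2, _, h4, h5, h6⟩ := hmem n hn
    rw [cnt_mem_oddS]
    refine ⟨by omega, ?_, h6⟩
    have h7 := cnt_nd_eqR h4
    rw [h5, hl] at h7
    push_cast at h7
    have h8 : (0 : ℝ) < 2 ^ w.sum := by positivity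
    have h9 : (0 : ℝ) < 3 ^ K := by positivity
    have h10 : (F w : ℝ) ≤ (K : ℝ) ^ 2 * 2 ^ w.sum := by exact_mod_cast hF
    rw [div_add' _ _ _ h8.ne', le_div_iff₀ h8]
    nlinarith [mul_le_mul_of_nonneg_left h2 h9.le]
  · split_ifs
    · exact mul_nonneg (qv_unit S E _).1 (hf _).1
    · exact le_rfl

/-- rewriting one value of `A` -/
theorem a_term {K A : ℕ} {X : ℝ} (q : ℕ → ℝ) (f : ℤ → ℝ) :
    ∑ w ∈ (words (3 * K) K).filter (fun w => w.sum = A),
        ∑ s ∈ oddS (3 ^ K * X / 2 ^ w.sum), (if adm (s : ℤ) w then q s * f (nd s w) else 0)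
      = (2 : ℝ) ^ A / 3 ^ K *
          ∑ s ∈ oddS (3 ^ K * X / 2 ^ A), q s *
            ∑ w ∈ (words (3 * K) K).filter (fun w => w.sum = A),
              if adm s w then wt w * f (nd s w) else 0 := by
  have h5 : ∀ w ∈ (words (3 * K) K).filter (fun w => w.sum = A),
      ∑ s ∈ oddS (3 ^ K * X / 2 ^ w.sum), (if adm (s : ℤ) w then q s * f (nd s w) else 0)
      = ∑ s ∈ oddS (3 ^ K * X / 2 ^ A), (2 : ℝ) ^ A / 3 ^ K * (q s *
          if adm s w then wt w * f (nd s w) else 0) := by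
    intro w hw
    rw [Finset.mem_filter] at hw
    obtain ⟨hw1, hw2⟩ := hw
    have hl := ((mem_words _ _ _).1 hw1).1
    rw [hw2]
    refine Finset.sum_congr rfl fun s _ => ?_
    split_ifs
    · unfold wt
      rw [hl, hw2]
      field_simp
    · ring
  rw [Finset.sum_congr rfl h5, Finset.sum_comm, Finset.mul_sum]
  refine Finset.sum_congr rfl fun s _ => ?_
  rw [← Finset.mul_sum, ← Finset.mul_sum]

/-- good words -/
theorem a_main {e : ℝ} {K : ℕ} {X : ℝ} (hX : 0 < X)
    {E : Set ℕ} {S : Finset ℕ} (hE : Rt S E K) {f : ℤ → ℝ} (hf : ∀ x, 0 ≤ f x ∧ f x ≤ 1) :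
    ∑ n ∈ (oddS X).filter (fun n => vw K n ∈ Good e K), ind E n * f (n : ℤ)
      ≤ (K : ℝ) ^ 2 * (Good e K).card
      + ∑ A ∈ win e K, (2 : ℝ) ^ A / 3 ^ K *
          ∑ s ∈ oddS (3 ^ K * X / 2 ^ A), qv S E s *
            ∑ w ∈ (words (3 * K) K).filter (fun w => w.sum = A),
              if adm s w then wt w * f (nd s w) else 0 := by
  classical
  rw [cnt_fiber (e := e) (K := K) (X := X) (fun n => ind E n * f (n : ℤ))]
  set H : List ℕ → ℝ := fun w => ∑ s ∈ oddS (3 ^ K * X / 2 ^ w.sum),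
    (if adm (s : ℤ) w then qv S E s * f (nd s w) else 0) with hH
  have hH0 : ∀ w, 0 ≤ H w := by
    intro w
    refine Finset.sum_nonneg fun s _ => ?_
    split_ifs
    · exact mul_nonneg (qv_unit S E _).1 (hf _).1
    · exact le_rfl
  have h1 : ∀ w ∈ Good e K, ∑ n ∈ (oddS X).filter (fun n => vw K n = w), ind E n * f (n : ℤ)
      ≤ H w + (K : ℝ) ^ 2 := by
    intro w hw
    refine (a_upper hw hE hf).trans ?_
    have h2 := cnt_split (3 ^ K * X / 2 ^ w.sum) (by positivity) (K ^ 2) 1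
      (fun s => if adm (s : ℤ) w then qv S E s * f (nd s w) else 0)
      (fun s => by
        show 0 ≤ if adm (s : ℤ) w then qv S E s * f (nd s w) else 0
        split_ifs
        · exact mul_nonneg (qv_unit S E _).1 (hf _).1
        · exact le_rfl)
      (fun s => by
        show (if adm (s : ℤ) w then qv S E s * f (nd s w) else 0) ≤ 1
        split_ifs
        · calc qv S E s * f (nd s w) ≤ 1 * 1 :=
              mul_le_mul (qv_unit S E _).2 (hf _).2 (hf _).1 zero_le_one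
            _ = 1 := one_mul _
        · exact zero_le_one)
    push_cast at h2
    rw [mul_one] at h2
    exact h2
  have h2 : ∑ w ∈ Good e K, ∑ n ∈ (oddS X).filter (fun n => vw K n = w), ind E n * f (n : ℤ)
      ≤ ∑ w ∈ Good e K, H w + (Good e K).card * (K : ℝ) ^ 2 := by
    refine (Finset.sum_le_sum h1).trans ?_
    rw [Finset.sum_add_distrib, Finset.sum_const, nsmul_eq_mul]
  have h3 : ∑ w ∈ Good e K, H w
      ≤ ∑ A ∈ win e K, ∑ w ∈ (words (3 * K) K).filter (fun w => w.sum = A), H w := by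
    rw [← Finset.sum_biUnion]
    · refine Finset.sum_le_sum_of_subset_of_nonneg ?_ fun w _ _ => hH0 w
      intro w hw
      obtain ⟨h4, _, _, h5, _⟩ := cnt_good hw
      rw [Finset.mem_biUnion]
      exact ⟨w.sum, h5, Finset.mem_filter.2 ⟨h4, rfl⟩⟩
    · intro A _ B _ hAB
      show Disjoint _ _
      rw [Finset.disjoint_left]
      intro w hw hw'
      exact hAB (by rw [← (Finset.mem_filter.1 hw).2, ← (Finset.mem_filter.1 hw').2])
  have h4 : ∀ A ∈ win e K, ∑ w ∈ (words (3 * K) K).filter (fun w => w.sum = A), H w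
      = (2 : ℝ) ^ A / 3 ^ K *
          ∑ s ∈ oddS (3 ^ K * X / 2 ^ A), qv S E s *
            ∑ w ∈ (words (3 * K) K).filter (fun w => w.sum = A),
              if adm s w then wt w * f (nd s w) else 0 := fun A _ => a_term (qv S E) f
  rw [Finset.sum_congr rfl h4] at h3
  linarith

/-- the words whose length is in the window are few -/
theorem wcard {e : ℝ} (K : ℕ) :
    (((words (3 * K) K).filter (fun w => w.sum ∈ win e K)).card : ℝ)
      ≤ (2 : ℝ) ^ ((2 + e) * (K : ℝ)) := by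
  classical
  set W := (words (3 * K) K).filter (fun w => w.sum ∈ win e K) with hW
  have hlow : ∀ w ∈ W, (2 : ℝ) ^ (-((2 + e) * (K : ℝ))) ≤ pr w := by
    intro w hw
    have hwin := (Finset.mem_filter.mp hw).2
    unfold win at hwin
    have habs := (Finset.mem_filter.mp hwin).2
    have hle : ((w.sum : ℕ) : ℝ) ≤ (2 + e) * K := by
      have := (abs_le.mp habs).2
      linarith
    unfold pr
    rw [one_div, ← Real.rpow_natCast, ← Real.rpow_neg (by norm_num)]
    exact Real.rpow_le_rpow_of_exponent_le (by norm_num) (by linarith)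
  have hsub : ∑ w ∈ W, pr w ≤ 1 := by
    refine le_trans ?_ (BAD_mass (3 * K) K)
    refine Finset.sum_le_sum_of_subset_of_nonneg (Finset.filter_subset _ _) fun w _ _ => ?_
    exact (BAD_pr_pos w).le
  have hsum : (W.card : ℝ) * (2 : ℝ) ^ (-((2 + e) * (K : ℝ))) ≤ 1 := by
    have h := Finset.sum_le_sum hlow
    rw [Finset.sum_const, nsmul_eq_mul] at h
    exact h.trans hsub
  have hp : (0 : ℝ) < (2 : ℝ) ^ ((2 + e) * (K : ℝ)) := by positivity
  rw [Real.rpow_neg (by norm_num), ← div_eq_mul_inv, div_le_one hp] at hsum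
  exact hsum

/-- the total over all windows is at most the count of the set plus the exceptional nodes -/
theorem a_total {e : ℝ} {K : ℕ} {X : ℝ} {E : Set ℕ} {S : Finset ℕ} (hE : Rt S E K) :
    ∑ A ∈ win e K, (2 : ℝ) ^ A / 3 ^ K *
          ∑ s ∈ oddS (3 ^ K * X / 2 ^ A), qv S E s *
            ∑ w ∈ (words (3 * K) K).filter (fun w => w.sum = A),
              (if adm (s : ℤ) w then wt w else 0)
      ≤ ∑ n ∈ oddS X, ind E n + S.card * (2 : ℝ) ^ ((2 + e) * (K : ℝ)) := by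
  classical
  have h0 : ∀ A ∈ win e K, (2 : ℝ) ^ A / 3 ^ K *
          ∑ s ∈ oddS (3 ^ K * X / 2 ^ A), qv S E s *
            ∑ w ∈ (words (3 * K) K).filter (fun w => w.sum = A),
              (if adm (s : ℤ) w then wt w else 0)
      = ∑ w ∈ (words (3 * K) K).filter (fun w => w.sum = A),
        ∑ s ∈ oddS (3 ^ K * X / 2 ^ w.sum), (if adm (s : ℤ) w then qv S E s else 0) := by
    intro A _
    have h := a_term (K := K) (A := A) (X := X) (qv S E) (fun _ => 1)
    simp only [mul_one] at h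
    exact h.symm
  rw [Finset.sum_congr rfl h0]
  have h1 : ∀ w ∈ words (3 * K) K, w.sum ≤ 3 * K →
      ∑ s ∈ oddS (3 ^ K * X / 2 ^ w.sum), (if adm (s : ℤ) w then qv S E s else 0)
        ≤ ∑ n ∈ (oddS X).filter (fun n => vw K n = w), ind E n + S.card := by
    intro w hw hsum3
    have hw' := (mem_words _ _ _).1 hw
    have hpos : ∀ a ∈ w, 1 ≤ a := fun a ha => (hw'.2 a ha).1
    have h2 := cnt_lower (K := K) hw'.1 hpos (X := X) (fun z : ℤ => ind E z.toNat)
      (fun z => (REQaux.ind_unit E _).1)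
    simp only [Int.toNat_natCast] at h2
    have h3 : ∀ s ∈ oddS (3 ^ K * X / 2 ^ w.sum), (if adm (s : ℤ) w then qv S E s else 0)
        ≤ (if adm (s : ℤ) w then ind E (nd (s : ℤ) w).toNat else 0) +
          (if s ∈ S then 1 else 0) := by
      intro s hs
      rw [cnt_mem_oddS] at hs
      by_cases had : adm (s : ℤ) w
      · rw [if_pos had, if_pos had]
        by_cases hS : s ∈ S
        · rw [qv_on hS, if_pos hS]
          linarith [(REQaux.ind_unit E (nd (s : ℤ) w).toNat).1]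
        · obtain ⟨n, _, hn, _, _⟩ := vw_unique hs.2.2 hpos had
          rw [qv_off hS, if_neg hS, hn, Int.toNat_natCast, add_zero]
          exact (hE s n w hs.2.2 hw'.1 hpos hsum3 had hn hS).symm.le
      · rw [if_neg had, if_neg had, zero_add]
        split_ifs <;> norm_num
    refine (Finset.sum_le_sum h3).trans ?_
    rw [Finset.sum_add_distrib]
    refine add_le_add h2 ?_
    rw [Finset.sum_ite_mem, Finset.sum_const, nsmul_eq_mul, mul_one]
    exact_mod_cast Finset.card_le_card Finset.inter_subset_right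
  have h2 : ∑ A ∈ win e K, ∑ w ∈ (words (3 * K) K).filter (fun w => w.sum = A),
        ∑ s ∈ oddS (3 ^ K * X / 2 ^ w.sum), (if adm (s : ℤ) w then qv S E s else 0)
      ≤ ∑ A ∈ win e K, ∑ w ∈ (words (3 * K) K).filter (fun w => w.sum = A),
          (∑ n ∈ (oddS X).filter (fun n => vw K n = w), ind E n + S.card) :=
    Finset.sum_le_sum fun A hA => Finset.sum_le_sum fun w hw => by
      have hw2 := Finset.mem_filter.1 hw
      exact h1 w hw2.1 (by rw [hw2.2]; exact win_le3 hA)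
  refine h2.trans ?_
  have hdisj : (↑(win e K) : Set ℕ).PairwiseDisjoint
      (fun A => (words (3 * K) K).filter (fun w => w.sum = A)) := by
    intro A _ B _ hAB
    show Disjoint _ _
    rw [Finset.disjoint_left]
    intro w hw hw'
    exact hAB (by rw [← (Finset.mem_filter.1 hw).2, ← (Finset.mem_filter.1 hw').2])
  rw [← Finset.sum_biUnion hdisj, Finset.sum_add_distrib]
  refine add_le_add (fiber_le _ _ _ _ (fun n => (REQaux.ind_unit E n).1)) ?_
  rw [Finset.sum_const, nsmul_eq_mul, mul_comm]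
  refine mul_le_mul_of_nonneg_left ?_ (Nat.cast_nonneg _)
  refine le_trans ?_ (wcard (e := e) K)
  have hsub : ((win e K).biUnion (fun A => (words (3 * K) K).filter (fun w => w.sum = A)))
      ⊆ (words (3 * K) K).filter (fun w => w.sum ∈ win e K) := by
    intro w hw
    rw [Finset.mem_biUnion] at hw
    obtain ⟨A, hA, hw⟩ := hw
    rw [Finset.mem_filter] at hw ⊢
    exact ⟨hw.1, by rw [hw.2]; exact hA⟩
  exact_mod_cast Finset.card_le_card hsub

end ACntaux

open ACntaux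

/-- one-sided form -/
theorem equi_upperA {Q : ℕ} (hQ : Q % 2 = 1) (B : ℕ) : ∃ C x0 : ℝ, 0 < C ∧ ∀ f : ℤ → ℝ, PerQ Q f →
    (∀ x, 0 ≤ f x ∧ f x ≤ 1) → ∀ E : Set ℕ, AInv B E → ∀ x : ℝ, x0 ≤ x →
      (∑ n ∈ oddS (Real.exp x), ind E n * f n)
        ≤ AvQ Q f * (∑ n ∈ oddS (Real.exp x), ind E n)
          + Real.exp x * (C * x ^ (-(1 / 4) : ℝ)) := by
  obtain ⟨Cb, hCb, hbad⟩ := bad_prob (e := 1 / 10) (by norm_num) (by norm_num)
  obtain ⟨Cm, hCm, hmix⟩ := dev_av 2
  refine ⟨5 * Cb + 10 + 40 * Cm + 40 * B, 10 * ((Q : ℝ) ^ 2 + 1), by positivity, ?_⟩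
  intro f hf hf01 E hAE x hx
  have hQ0 : 0 < Q := by omega
  have hQ1 : (1 : ℝ) ≤ Q := by exact_mod_cast hQ0
  have hx20 : 20 ≤ x := by nlinarith
  have hx1 : 1 ≤ x := by linarith
  set X := Real.exp x with hXdef
  have hX : 0 < X := Real.exp_pos x
  set K := ⌊x / 5⌋₊ with hKdef
  obtain ⟨S, hScard, hE'⟩ := ainv_ind hAE K
  have hE : Rt S E K := hE'
  have hKle : (K : ℝ) ≤ x / 5 := Nat.floor_le (by positivity)
  have hKge : x / 5 - 1 < K := Nat.sub_one_lt_floor _
  have hK10 : x / 10 ≤ K := by linarith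
  have hK0 : (0 : ℝ) < K := by linarith
  have hK1 : 1 ≤ K := by
    have : 0 < K := by exact_mod_cast hK0
    omega
  have hQK : Q ^ 2 ≤ K := by
    have : ((Q ^ 2 : ℕ) : ℝ) ≤ K := by
      push_cast
      nlinarith
    exact_mod_cast this
  have hr : (0 : ℝ) ≤ x ^ (-(1 / 4) : ℝ) := Real.rpow_nonneg (by linarith) _
  have hinvx : 1 / x ≤ x ^ (-(1 / 4) : ℝ) := by
    rw [one_div, ← Real.rpow_neg_one]
    exact Real.rpow_le_rpow_of_exponent_le hx1 (by norm_num)
  have hinvK : 1 / (K : ℝ) ≤ 10 * x ^ (-(1 / 4) : ℝ) := by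
    have : 1 / (K : ℝ) ≤ 10 * (1 / x) := by
      rw [div_le_iff₀ hK0]
      have h2 : 10 * (1 / x) * (K : ℝ) = 10 * K / x := by ring
      rw [h2, le_div_iff₀ (by linarith)]
      linarith
    linarith
  have hlog2 : Real.log 2 < 0.6931471808 := Real.log_two_lt_d9
  have hlog2p : 0 < Real.log 2 := Real.log_pos (by norm_num)
  -- sizes of powers of two
  have hA : ∀ A ∈ win (1 / 10) K, (2 : ℝ) ^ A ≤ Real.exp (0.3 * x) := by
    intro A hA
    have h1 := REQaux.win_le hA
    rw [← Real.exp_log (by norm_num : (0 : ℝ) < 2), ← Real.exp_nat_mul]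
    apply Real.exp_le_exp.2
    have h2 : (A : ℝ) * Real.log 2 ≤ 2.1 * K * 0.6931471808 := by
      apply mul_le_mul h1 hlog2.le hlog2p.le (by positivity)
    linarith
  have hpow : (2 : ℝ) ^ ((2 + 1 / 10) * (K : ℝ)) ≤ Real.exp (0.3 * x) := by
    rw [Real.rpow_def_of_pos (by norm_num)]
    apply Real.exp_le_exp.2
    have h2 : Real.log 2 * ((2 + 1 / 10) * (K : ℝ)) ≤ 0.6931471808 * ((2 + 1 / 10) * (K : ℝ)) :=
      mul_le_mul_of_nonneg_right hlog2.le (by positivity)
    linarith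
  have hcard : ((Good (1 / 10) K).card : ℝ) ≤ Real.exp (0.3 * x) :=
    (good_card (by norm_num) (by norm_num) K).trans hpow
  -- small terms
  have hpoly : (K : ℝ) ^ 2 + 2 ≤ 2 * Real.exp (0.4 * x) := by
    have h1 : (K : ℝ) + 1 ≤ Real.exp K := Real.add_one_le_exp _
    have h2 : Real.exp (K : ℝ) ^ 2 ≤ Real.exp (0.4 * x) := by
      rw [← Real.exp_nat_mul]
      apply Real.exp_le_exp.2
      push_cast
      linarith
    have h3 : ((K : ℝ) + 1) ^ 2 ≤ Real.exp (K : ℝ) ^ 2 := pow_le_pow_left₀ (by positivity) h1 2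
    have hK1' : (1 : ℝ) ≤ K := by exact_mod_cast hK1
    nlinarith
  have hsmall : ((K : ℝ) ^ 2 + 2) * Real.exp (0.3 * x) ≤ X * (10 * x ^ (-(1 / 4) : ℝ)) := by
    have h1 : Real.exp (-(0.3 * x)) ≤ 5 * x ^ (-(1 / 4) : ℝ) := REQaux.exp_small hx1 (by linarith)
    calc ((K : ℝ) ^ 2 + 2) * Real.exp (0.3 * x)
        ≤ 2 * Real.exp (0.4 * x) * Real.exp (0.3 * x) :=
          mul_le_mul_of_nonneg_right hpoly (Real.exp_pos _).le
      _ = X * (2 * Real.exp (-(0.3 * x))) := by
          rw [hXdef, mul_assoc, ← Real.exp_add, mul_left_comm, ← Real.exp_add]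
          congr 2
          ring
      _ ≤ X * (10 * x ^ (-(1 / 4) : ℝ)) := by
          apply mul_le_mul_of_nonneg_left _ hX.le
          linarith
  have hexc : (S.card : ℝ) * (2 : ℝ) ^ ((2 + 1 / 10) * (K : ℝ))
      ≤ X * (40 * B * x ^ (-(1 / 4) : ℝ)) := by
    have h1 : (S.card : ℝ) ≤ B * (4 * K + 1) := by exact_mod_cast hScard
    have h2 : (B : ℝ) * (4 * K + 1) ≤ B * (4 * ((K : ℝ) ^ 2 + 2)) := by
      apply mul_le_mul_of_nonneg_left _ (Nat.cast_nonneg B)
      nlinarith [sq_nonneg ((K : ℝ) - 1 / 2)]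
    calc (S.card : ℝ) * (2 : ℝ) ^ ((2 + 1 / 10) * (K : ℝ))
        ≤ (B * (4 * ((K : ℝ) ^ 2 + 2))) * Real.exp (0.3 * x) :=
          mul_le_mul (h1.trans h2) hpow (by positivity) (by positivity)
      _ = 4 * B * (((K : ℝ) ^ 2 + 2) * Real.exp (0.3 * x)) := by ring
      _ ≤ 4 * B * (X * (10 * x ^ (-(1 / 4) : ℝ))) :=
          mul_le_mul_of_nonneg_left hsmall (by positivity)
      _ = X * (40 * B * x ^ (-(1 / 4) : ℝ)) := by ring
  -- splitting into good and bad words
  classical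
  have hsplit : ∑ n ∈ oddS X, ind E n * f n
      = ∑ n ∈ (oddS X).filter (fun n => vw K n ∈ Good (1 / 10) K), ind E n * f (n : ℤ)
      + ∑ n ∈ (oddS X).filter (fun n => ¬ vw K n ∈ Good (1 / 10) K), ind E n * f (n : ℤ) :=
    (Finset.sum_filter_add_sum_filter_not _ _ _).symm
  have hbad1 : ∑ n ∈ (oddS X).filter (fun n => ¬ vw K n ∈ Good (1 / 10) K), ind E n * f (n : ℤ)
      ≤ X / 2 * (Cb / K) + (1 + Real.exp (0.3 * x)) := by
    have h1 := cnt_bad (e := 1 / 10) (K := K) (i := 0) hX (p := ind E) (REQaux.ind_unit E)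
    have h2 : ∑ n ∈ (oddS X).filter (fun n => ¬ vw K n ∈ Good (1 / 10) K), ind E n * f (n : ℤ)
        ≤ ∑ n ∈ (oddS X).filter (fun n => ¬ vw K n ∈ Good (1 / 10) K),
            ind E n * MM 0 (n : ℤ) := by
      refine Finset.sum_le_sum fun n _ => ?_
      rw [MM_zero]
      exact mul_le_mul_of_nonneg_left (hf01 _).2 (REQaux.ind_unit E n).1
    have h3 := hbad K hK1
    have h4 : X / 2 * (1 - ∑ w ∈ Good (1 / 10) K, pr w) ≤ X / 2 * (Cb / K) :=
      mul_le_mul_of_nonneg_left h3 (by positivity)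
    rw [pow_zero, one_mul] at h1
    linarith
  have hmain := a_main (e := 1 / 10) (K := K) hX hE hf01
  -- mixing
  have havb := AvQ_bounds hQ0 hf01
  have hA2 : ∀ A ∈ win (1 / 10) K, (2 : ℝ) ^ A / 3 ^ K *
          ∑ s ∈ oddS (3 ^ K * X / 2 ^ A), qv S E s *
            ∑ w ∈ (words (3 * K) K).filter (fun w => w.sum = A),
              (if adm (s : ℤ) w then wt w * f (nd s w) else 0)
      ≤ AvQ Q f * ((2 : ℝ) ^ A / 3 ^ K *
          ∑ s ∈ oddS (3 ^ K * X / 2 ^ A), qv S E s *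
            ∑ w ∈ (words (3 * K) K).filter (fun w => w.sum = A),
              (if adm (s : ℤ) w then wt w else 0))
        + X * (Cm / (K : ℝ) ^ 2) := by
    intro A hAw
    set Z : ℝ := 3 ^ K * X / 2 ^ A with hZ
    have h3K : (0 : ℝ) < 3 ^ K := by positivity
    have h2A : (0 : ℝ) < 2 ^ A := by positivity
    have hZbig : 2 * ((Q * 3 ^ K : ℕ) : ℝ) ≤ Z := by
      rw [hZ, le_div_iff₀ h2A]
      push_cast
      have h5 : 2 * (Q : ℝ) ≤ Real.exp (0.7 * x) := by
        have := Real.add_one_le_exp (0.7 * x)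
        nlinarith
      have h6 : 2 * (Q : ℝ) * 2 ^ A ≤ X := by
        calc 2 * (Q : ℝ) * 2 ^ A ≤ Real.exp (0.7 * x) * Real.exp (0.3 * x) :=
              mul_le_mul h5 (hA A hAw) h2A.le (Real.exp_pos _).le
          _ = X := by rw [← Real.exp_add, hXdef]; congr 1; ring
      nlinarith
    have hd := dev_sum hQ hf hZbig (hmix Q K hQ hQK f hf hf01 A)
    have hpt : ∀ s ∈ oddS Z, qv S E s *
            ∑ w ∈ (words (3 * K) K).filter (fun w => w.sum = A),
              (if adm (s : ℤ) w then wt w * f (nd s w) else 0)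
        ≤ AvQ Q f * (qv S E s *
            ∑ w ∈ (words (3 * K) K).filter (fun w => w.sum = A),
              (if adm (s : ℤ) w then wt w else 0)) + dev Q K A f s := by
      intro s _
      have h7 : ∑ w ∈ (words (3 * K) K).filter (fun w => w.sum = A),
              (if adm (s : ℤ) w then wt w * f (nd s w) else 0)
          = AvQ Q f * ∑ w ∈ (words (3 * K) K).filter (fun w => w.sum = A),
              (if adm (s : ℤ) w then wt w else 0)
            + ∑ w ∈ (words (3 * K) K).filter (fun w => w.sum = A),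
              (if adm (s : ℤ) w then wt w * (f (nd s w) - AvQ Q f) else 0) := by
        rw [Finset.mul_sum, ← Finset.sum_add_distrib]
        refine Finset.sum_congr rfl fun w _ => ?_
        split_ifs <;> ring
      rw [h7, mul_add]
      have h8 : qv S E s * ∑ w ∈ (words (3 * K) K).filter (fun w => w.sum = A),
              (if adm (s : ℤ) w then wt w * (f (nd s w) - AvQ Q f) else 0) ≤ dev Q K A f s := by
        refine (le_abs_self _).trans ?_
        rw [abs_mul, abs_of_nonneg (qv_unit S E s).1]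
        unfold dev
        exact mul_le_of_le_one_left (abs_nonneg _) (qv_unit S E s).2
      have h9 : qv S E s * (AvQ Q f * ∑ w ∈ (words (3 * K) K).filter (fun w => w.sum = A),
              (if adm (s : ℤ) w then wt w else 0))
          = AvQ Q f * (qv S E s * ∑ w ∈ (words (3 * K) K).filter (fun w => w.sum = A),
              (if adm (s : ℤ) w then wt w else 0)) := by ring
      linarith
    have hsum := Finset.sum_le_sum hpt
    rw [Finset.sum_add_distrib, ← Finset.mul_sum] at hsum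
    have hfac : (0 : ℝ) ≤ (2 : ℝ) ^ A / 3 ^ K := by positivity
    have h10 := mul_le_mul_of_nonneg_left (hsum.trans (add_le_add_right hd _)) hfac
    refine h10.trans (le_of_eq ?_)
    rw [mul_add, hZ]
    have h11 : (2 : ℝ) ^ A / 3 ^ K * (3 ^ K * X / 2 ^ A * (Cm / (K : ℝ) ^ 2))
        = X * (Cm / (K : ℝ) ^ 2) := by
      field_simp
    rw [h11]
    ring
  have hA3 := Finset.sum_le_sum hA2
  rw [Finset.sum_add_distrib, ← Finset.mul_sum, Finset.sum_const, nsmul_eq_mul] at hA3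
  have htot := mul_le_mul_of_nonneg_left (a_total (e := 1 / 10) (K := K) (X := X) hE) havb.1
  have hexc2 : AvQ Q f * ((S.card : ℝ) * (2 : ℝ) ^ ((2 + 1 / 10) * (K : ℝ)))
      ≤ X * (40 * B * x ^ (-(1 / 4) : ℝ)) := by
    refine le_trans ?_ hexc
    exact mul_le_of_le_one_left (by positivity) havb.2
  have hwin : ((win (1 / 10) K).card : ℝ) ≤ 4 * K := by
    have h1 : (win (1 / 10) K).card ≤ 3 * K + 1 := by
      unfold win
      refine (Finset.card_filter_le _ _).trans ?_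
      rw [Finset.card_range]
    have h2 : ((win (1 / 10) K).card : ℝ) ≤ 3 * K + 1 := by exact_mod_cast h1
    have hK1' : (1 : ℝ) ≤ K := by exact_mod_cast hK1
    linarith
  have hwin2 : ((win (1 / 10) K).card : ℝ) * (X * (Cm / (K : ℝ) ^ 2)) ≤ X * (4 * Cm * (1 / K)) := by
    have h1 : (0 : ℝ) ≤ X * (Cm / (K : ℝ) ^ 2) := by positivity
    refine (mul_le_mul_of_nonneg_right hwin h1).trans (le_of_eq ?_)
    field_simp
  have hc1 : X * (4 * Cm * (1 / K)) ≤ X * (40 * Cm * x ^ (-(1 / 4) : ℝ)) := by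
    apply mul_le_mul_of_nonneg_left _ hX.le
    have := mul_le_mul_of_nonneg_left hinvK (by positivity : (0 : ℝ) ≤ 4 * Cm)
    linarith
  have hc2 : X / 2 * (Cb / K) ≤ X * (5 * Cb * x ^ (-(1 / 4) : ℝ)) := by
    have h1 : X / 2 * (Cb / K) = X * (Cb / 2 * (1 / K)) := by ring
    rw [h1]
    apply mul_le_mul_of_nonneg_left _ hX.le
    have := mul_le_mul_of_nonneg_left hinvK (by positivity : (0 : ℝ) ≤ Cb / 2)
    linarith
  have hc3 : (K : ℝ) ^ 2 * (Good (1 / 10) K).card + (1 + Real.exp (0.3 * x))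
      ≤ X * (10 * x ^ (-(1 / 4) : ℝ)) := by
    refine le_trans ?_ hsmall
    have h1 : (K : ℝ) ^ 2 * (Good (1 / 10) K).card ≤ (K : ℝ) ^ 2 * Real.exp (0.3 * x) :=
      mul_le_mul_of_nonneg_left hcard (by positivity)
    have h2 : (1 : ℝ) ≤ Real.exp (0.3 * x) := Real.one_le_exp (by positivity)
    linarith
  have hfin : X * ((5 * Cb + 10 + 40 * Cm + 40 * B) * x ^ (-(1 / 4) : ℝ))
      = X * (5 * Cb * x ^ (-(1 / 4) : ℝ)) + X * (10 * x ^ (-(1 / 4) : ℝ))
        + X * (40 * Cm * x ^ (-(1 / 4) : ℝ)) + X * (40 * B * x ^ (-(1 / 4) : ℝ)) := by ring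
  rw [hsplit, hfin]
  rw [mul_add] at htot
  linarith

theorem equi_oddA {Q : ℕ} (hQ : Q % 2 = 1) (B : ℕ) : ∃ C x0 : ℝ, ∀ f : ℤ → ℝ, PerQ Q f →
    (∀ x, 0 ≤ f x ∧ f x ≤ 1) → ∀ E : Set ℕ, AInv B E → ∀ x : ℝ, x0 ≤ x →
      |(∑ n ∈ oddS (Real.exp x), ind E n * f n) / Real.exp x - AvQ Q f * DD 0 (ind E) x|
        ≤ C * x ^ (-(1 / 4) : ℝ) := by
  obtain ⟨C, x0, hC, h⟩ := equi_upperA hQ B
  refine ⟨C, x0, ?_⟩
  intro f hf hf01 E hE x hx
  have hQ0 : 0 < Q := by omega
  have hX : 0 < Real.exp x := Real.exp_pos x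
  have hDD : DD 0 (ind E) x = (∑ n ∈ oddS (Real.exp x), ind E n) / Real.exp x := by
    unfold DD NN
    congr 1
    refine Finset.sum_congr rfl fun n _ => ?_
    rw [MM_zero, mul_one]
  have h1 := h f hf hf01 E hE x hx
  have h2 := h (fun z => 1 - f z) (fun v z => by
      show 1 - f (v + (Q : ℤ) * z) = 1 - f v
      rw [hf v z]) (fun z => ⟨by linarith [(hf01 z).2], by linarith [(hf01 z).1]⟩) E hE x hx
  have hav : AvQ Q (fun z => 1 - f z) = 1 - AvQ Q f := by
    have hQ' : (Q : ℝ) ≠ 0 := by exact_mod_cast hQ0.ne'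
    unfold AvQ
    rw [Finset.sum_sub_distrib, Finset.sum_const, Finset.card_range, nsmul_eq_mul, mul_one,
      sub_div, div_self hQ']
  have hs : ∑ n ∈ oddS (Real.exp x), ind E n * (1 - f (n : ℤ))
      = ∑ n ∈ oddS (Real.exp x), ind E n - ∑ n ∈ oddS (Real.exp x), ind E n * f n := by
    rw [← Finset.sum_sub_distrib]
    refine Finset.sum_congr rfl fun n _ => ?_
    ring
  rw [hav, hs] at h2
  rw [hDD, ← mul_div_assoc, ← sub_div, abs_div, abs_of_pos hX, div_le_iff₀ hX, abs_le]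
  have h3 : Real.exp x * (C * x ^ (-(1 / 4) : ℝ)) = C * x ^ (-(1 / 4) : ℝ) * Real.exp x := by ring
  rw [h3] at h1 h2
  constructor <;> nlinarith

end Pool.Agent.Lib.MP_e43fce_nt_nat
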