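import Pool.Agent.Lib.MP_e43fce_nt_nat.Soft
import Pool.Agent.Lib.MP_e43fce_nt.Gaps.Disp

/-! SoftR: the convergence of section 7 with a polynomial rate. The density of the group generated
by `log 2` and `log 3` is made effective by the dispersion lemma of the library of the hand-in on
short intervals (a lower bound for linear forms in `log 2` and `log 3`). -/

set_option autoImplicit false

namespace Pool.Agent.Lib.MP_e43fce_nt_nat

open Finset

variable {D : ℝ → ℝ} {C x0 : ℝ}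

theorem rate_iter (hC : 0 ≤ C) (hx0 : 100 ≤ x0) {s : ℝ} (hs : 0 ≤ s)
    (hstep : ∀ x, x0 ≤ x → |D (x + s) - D x| ≤ (2 * C + 32) * x ^ (-(1 / 4) : ℝ)) (b : ℕ) :
    ∀ x, x0 ≤ x → |D (x + b * s) - D x| ≤ b * ((2 * C + 32) * x ^ (-(1 / 4) : ℝ)) := by
  induction b with
  | zero => intro x _; simp
  | succ b ih =>
    intro x hx
    have h1 := ih x hx
    have hb : (0 : ℝ) ≤ b * s := mul_nonneg (Nat.cast_nonneg b) hs
    have h2 := hstep (x + b * s) (by linarith)
    have h3 : (x + b * s) ^ (-(1 / 4) : ℝ) ≤ x ^ (-(1 / 4) : ℝ) :=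
      rpow_quarter_mono (by linarith) (by linarith)
    have h4 := mul_le_mul_of_nonneg_left h3 (by linarith : 0 ≤ 2 * C + 32)
    have e : x + ((b + 1 : ℕ) : ℝ) * s = x + b * s + s := by push_cast; ring
    rw [e]
    have h5 := abs_sub_le (D (x + b * s + s)) (D (x + b * s)) (D x)
    push_cast
    linarith

theorem rate_tau (h : Ren D C x0) (hC : 0 ≤ C) (hx0 : 100 ≤ x0) {x : ℝ} (hx : x0 ≤ x) (b k : ℕ)
    (hτ : 0 ≤ b * Real.log 2 - k * Real.log 3) :
    |D (x + (b * Real.log 2 - k * Real.log 3)) - D x| ≤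
      (b + k) * ((2 * C + 32) * x ^ (-(1 / 4) : ℝ)) := by
  have hq := Real.rpow_nonneg (by linarith : (0 : ℝ) ≤ x) (-(1 / 4) : ℝ)
  have h1 := rate_iter (D := D) hC hx0 log2_pos.le (fun x hx => (soft_F1' h hC hx0 x hx).trans
    (mul_le_mul_of_nonneg_right (by linarith) (Real.rpow_nonneg (by linarith) _))) b x hx
  have h2 := rate_iter (D := D) hC hx0 (Real.log_nonneg (by norm_num : (1 : ℝ) ≤ 3))
    (fun x hx => soft_F2' h hC hx0 x hx) k (x + (b * Real.log 2 - k * Real.log 3)) (by linarith)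
  have e : x + (b * Real.log 2 - k * Real.log 3) + k * Real.log 3 = x + b * Real.log 2 := by ring
  rw [e] at h2
  have h3 : (x + (b * Real.log 2 - k * Real.log 3)) ^ (-(1 / 4) : ℝ) ≤ x ^ (-(1 / 4) : ℝ) :=
    rpow_quarter_mono (by linarith) (by linarith)
  have h4 := mul_le_mul_of_nonneg_left (mul_le_mul_of_nonneg_left h3
    (by linarith : 0 ≤ 2 * C + 32)) (Nat.cast_nonneg k : (0 : ℝ) ≤ k)
  have h5 := abs_sub_le (D (x + (b * Real.log 2 - k * Real.log 3))) (D (x + b * Real.log 2)) (D x)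
  rw [abs_sub_comm (D (x + (b * Real.log 2 - k * Real.log 3))) (D (x + b * Real.log 2))] at h5
  linarith

theorem rate_mono (h : Ren D C x0) (x : ℝ) {a b : ℝ} (hab : a ≤ b) :
    D (x + a) ≤ D (x + b) + (b - a) := by
  have h1 := h.mono (x + a) (b - a) (by linarith)
  have e1 : x + a + (b - a) = x + b := by ring
  rw [e1] at h1
  have h2 : Real.exp (x + b) = Real.exp (x + a) * Real.exp (b - a) := by
    rw [← Real.exp_add]; congr 1; ring
  rw [h2] at h1
  have h3 := Real.exp_pos (x + a)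
  have h4 : D (x + a) ≤ Real.exp (b - a) * D (x + b) := by
    have : Real.exp (x + a) * D (x + a) ≤ Real.exp (x + a) * (Real.exp (b - a) * D (x + b)) := by
      linarith
    exact le_of_mul_le_mul_left this h3
  have h5 : Real.exp (a - b) * D (x + a) ≤ D (x + b) := by
    have h6 := mul_le_mul_of_nonneg_left h4 (Real.exp_pos (a - b)).le
    rw [← mul_assoc, ← Real.exp_add] at h6
    have e2 : a - b + (b - a) = 0 := by ring
    rwa [e2, Real.exp_zero, one_mul] at h6
  have h7 := Real.add_one_le_exp (a - b)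
  have h8 := h.nonneg (x + a)
  have h9 := h.le_one (x + a)
  nlinarith

/-- effective form of the shift invariance -/
theorem rate_shift : ∃ B M : ℝ, 0 < B ∧ 0 < M ∧ ∀ (D : ℝ → ℝ) (C x0 : ℝ), Ren D C x0 → 0 ≤ C →
    100 ≤ x0 → ∀ x, x0 ≤ x → ∀ t, 0 ≤ t → t ≤ 1 → ∀ η : ℝ, 0 < η → η ≤ 1 →
      |D (x + t) - D x| ≤ η + M * η ^ (-B) * ((2 * C + 32) * x ^ (-(1 / 4) : ℝ)) := by
  obtain ⟨B, M, hB, hM, hdisp⟩ := Pool.Agent.Lib.MP_e43fce_nt.Gaps.dispersion
  refine ⟨B, 4 + 3 * M, hB, by positivity, ?_⟩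
  intro D C x0 h hC hx0 x hx t ht0 ht1 η hη hη1
  have hl := log2_gt
  have hl' := log2_lt
  obtain ⟨hl3, hl3'⟩ := log3_bd
  have hq := Real.rpow_nonneg (by linarith : (0 : ℝ) ≤ x) (-(1 / 4) : ℝ)
  have hηB : 1 ≤ η ^ (-B) := Real.one_le_rpow_of_pos_of_le_one_of_nonpos hη hη1 (by linarith)
  -- approximation from the right of any T >= 0
  have key : ∀ T, 0 ≤ T → T ≤ 1 → ∃ τ, T ≤ τ ∧ τ ≤ T + η ∧ |D (x + τ) - D x| ≤
      (4 + 3 * M) * η ^ (-B) * ((2 * C + 32) * x ^ (-(1 / 4) : ℝ)) := by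
    intro T hT0 hT1
    obtain ⟨k, b, hk, hb1, hb2⟩ := hdisp η hη hη1 T
    have hk0 : (0 : ℝ) ≤ k := Nat.cast_nonneg k
    have hb0 : 0 ≤ b := by
      by_contra hneg
      push Not at hneg
      have : (b : ℝ) ≤ -1 := by exact_mod_cast (by omega : b ≤ -1)
      nlinarith
    obtain ⟨b', rfl⟩ := Int.eq_ofNat_of_zero_le hb0
    rw [Int.cast_natCast] at hb1 hb2
    refine ⟨b' * Real.log 2 - k * Real.log 3, hb1, hb2, ?_⟩
    refine (rate_tau h hC hx0 hx b' k (by linarith)).trans ?_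
    refine mul_le_mul_of_nonneg_right ?_ (by positivity)
    have hbb : (b' : ℝ) ≤ 3 + 1.6 * k := by
      by_contra hcon
      push Not at hcon
      nlinarith
    nlinarith
  have hup : D (x + t) ≤ D x + (η + (4 + 3 * M) * η ^ (-B) *
      ((2 * C + 32) * x ^ (-(1 / 4) : ℝ))) := by
    obtain ⟨τ, h1, h2, h3⟩ := key t ht0 ht1
    have h4 := rate_mono h x h1
    rw [abs_le] at h3
    linarith [h3.2]
  have hlo : D x - (η + (4 + 3 * M) * η ^ (-B) *
      ((2 * C + 32) * x ^ (-(1 / 4) : ℝ))) ≤ D (x + t) := by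
    have hnn : 0 ≤ (4 + 3 * M) * η ^ (-B) * ((2 * C + 32) * x ^ (-(1 / 4) : ℝ)) := by positivity
    rcases le_or_gt t η with h1 | h1
    · have h2 := rate_mono h x ht0
      rw [add_zero] at h2
      linarith
    · obtain ⟨τ, h2, h3, h4⟩ := key (t - η) (by linarith) (by linarith)
      have h5 := rate_mono h x (a := τ) (b := t) (by linarith)
      rw [abs_le] at h4
      linarith [h4.1]
  rw [abs_le]
  constructor <;> linarith

theorem rate_U (h : Ren D C x0) {x B : ℝ}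
    (hB : ∀ t, 0 ≤ t → t ≤ Real.log 2 → |D (x + t) - D x| ≤ B) : |U D x - D x| ≤ B := by
  have e : U D x - D x = (1 / Real.log 2) * ∫ t in (0:ℝ)..(Real.log 2), (D (x + t) - D x) := by
    rw [intervalIntegral.integral_sub (h.intble _ _ _) intervalIntegrable_const,
      intervalIntegral.integral_const, sub_zero, smul_eq_mul, mul_sub]
    unfold U
    have := log2_pos.ne'
    field_simp
  rw [e]
  refine scale_le ?_
  have := intervalIntegral.norm_integral_le_of_norm_le_const (a := (0:ℝ)) (b := Real.log 2)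
    (f := fun t => D (x + t) - D x) (C := B) (fun t ht => by
      rw [Set.uIoc_of_le log2_pos.le] at ht
      simpa using hB t ht.1.le ht.2)
  simpa using this

/-- section 7 with a rate, uniformly in `D` -/
theorem soft_rate : ∃ c : ℝ, 0 < c ∧ c ≤ 1 / 4 ∧ ∀ C x0 : ℝ, ∃ C3 x1 : ℝ, 0 < C3 ∧ 1 ≤ x1 ∧
    ∀ D : ℝ → ℝ, Ren D C x0 → ∃ δ : ℝ, 0 ≤ δ ∧ δ ≤ 1 ∧
      ∀ x, x1 ≤ x → |D x - δ| ≤ C3 * x ^ (-c) := by
  obtain ⟨B, M, hB, hM, hsh⟩ := rate_shift
  set c : ℝ := 1 / (4 * (B + 1)) with hc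
  have hc0 : 0 < c := by positivity
  have hc1 : c ≤ 1 / 4 := by
    rw [hc]
    apply one_div_le_one_div_of_le (by norm_num)
    linarith
  have hcB : c * B = 1 / 4 - c := by
    rw [hc]
    field_simp
    ring
  refine ⟨c, hc0, hc1, ?_⟩
  intro C x0
  set C' : ℝ := max C 0 with hC'
  set x0' : ℝ := max x0 100 with hx0'
  have hC0 : 0 ≤ C' := le_max_right _ _
  have hx0 : 100 ≤ x0' := le_max_right _ _
  set K : ℝ := 300 * (C' + 10 * (4 * C' + 20) + 3800) with hK
  have hK0 : 0 < K := by rw [hK]; linarith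
  refine ⟨K + 1 + M * (2 * C' + 32), 2 * x0', by positivity, by linarith, ?_⟩
  intro D hD
  have h : Ren D C' x0' := hD.norm
  obtain ⟨δ, hδ⟩ := soft_F5' h hC0 hx0
  have hmain : ∀ x, 2 * x0' ≤ x → |D x - δ| ≤ (K + 1 + M * (2 * C' + 32)) * x ^ (-c) := by
    intro x hx
    have hx100 : 200 ≤ x := by linarith
    have hxpos : 0 < x := by linarith
    have h1 := hδ x hx
    have hη0 : 0 < x ^ (-c) := Real.rpow_pos_of_pos hxpos _
    have hη1 : x ^ (-c) ≤ 1 := Real.rpow_le_one_of_one_le_of_nonpos (by linarith) (by linarith)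
    have h2 : |U D x - D x| ≤ x ^ (-c) + M * (x ^ (-c)) ^ (-B) *
        ((2 * C' + 32) * x ^ (-(1 / 4) : ℝ)) :=
      rate_U h (fun t ht0 ht1 => hsh D C' x0' h hC0 hx0 x (by linarith) t ht0
        (by linarith [log2_lt]) _ hη0 hη1)
    have h3 : (x ^ (-c)) ^ (-B) * x ^ (-(1 / 4) : ℝ) = x ^ (-c) := by
      rw [← Real.rpow_mul hxpos.le, ← Real.rpow_add hxpos]
      congr 1
      linarith
    have h4 : x ^ (-(1 / 4) : ℝ) ≤ x ^ (-c) :=
      Real.rpow_le_rpow_of_exponent_le (by linarith) (by linarith)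
    have h5 : M * (x ^ (-c)) ^ (-B) * ((2 * C' + 32) * x ^ (-(1 / 4) : ℝ)) =
        M * (2 * C' + 32) * x ^ (-c) := by
      calc M * (x ^ (-c)) ^ (-B) * ((2 * C' + 32) * x ^ (-(1 / 4) : ℝ)) =
          M * (2 * C' + 32) * ((x ^ (-c)) ^ (-B) * x ^ (-(1 / 4) : ℝ)) := by ring
        _ = _ := by rw [h3]
    rw [h5] at h2
    have h6 := abs_sub_le (D x) (U D x) δ
    rw [abs_sub_comm (D x) (U D x)] at h6
    have h7 : |U D x - δ| ≤ K * x ^ (-c) := by
      refine h1.trans ?_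
      refine mul_le_mul ?_ h4 (Real.rpow_nonneg hxpos.le _) hK0.le
      rw [hK]
    linarith
  have htend : Filter.Tendsto D Filter.atTop (nhds δ) := by
    rw [tendsto_iff_dist_tendsto_zero]
    have h1 : Filter.Tendsto (fun x : ℝ => (K + 1 + M * (2 * C' + 32)) * x ^ (-c)) Filter.atTop
        (nhds 0) := by
      have := (tendsto_rpow_neg_atTop hc0).const_mul (K + 1 + M * (2 * C' + 32))
      rwa [mul_zero] at this
    refine squeeze_zero' (Filter.Eventually.of_forall fun x => dist_nonneg)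
      ((Filter.eventually_ge_atTop (2 * x0')).mono fun x hx => ?_) h1
    rw [Real.dist_eq]
    exact hmain x hx
  refine ⟨δ, ge_of_tendsto' htend (fun x => h.nonneg x), le_of_tendsto' htend (fun x => h.le_one x),
    hmain⟩

end Pool.Agent.Lib.MP_e43fce_nt_nat
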