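import Pool.Agent.Lib.MP_e43fce_nt_nat.DENS
import Pool.Agent.Lib.MP_e43fce_nt_nat.SoftR

/-! DensR: natural densities of invariant sets with a rate, uniformly in the set. -/

set_option autoImplicit false

namespace Pool.Agent.Lib.MP_e43fce_nt_nat

open Finset

/-- all integers from odd ones, with a rate -/
theorem rate_all {p : ℕ → ℝ} (hp : Unit01 p) {d C3 x1 c : ℝ} (hc0 : 0 < c) (hc1 : c ≤ 1)
    (hC3 : 0 < C3) (hx1 : 1 ≤ x1) (hd0 : 0 ≤ d) (hd1 : d ≤ 1)
    (h : ∀ j : ℕ, ∀ x, x1 ≤ x → |DD 0 (fun m => p (2 ^ j * m)) x - d| ≤ C3 * x ^ (-c)) :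
    ∀ X : ℕ, 2 ≤ X → |(∑ n ∈ Icc 1 X, p n) / X - 2 * d| ≤
      (3 * (2 * C3 + 5) + 2 * (2 * x1)) * (Real.log X) ^ (-c) := by
  intro X hX
  have hX0 : (0 : ℝ) < X := by
    have : 0 < X := by omega
    exact_mod_cast this
  have hX2 : (2 : ℝ) ≤ X := by exact_mod_cast hX
  set x : ℝ := Real.log X with hx
  have hxpos : 0 < x := Real.log_pos (by linarith)
  have hxc : 0 < x ^ (-c) := Real.rpow_pos_of_pos hxpos _
  -- the mean as a series
  rw [mean_eq_tsum p (by omega : 1 ≤ X)]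
  set t : ℕ → ℝ := fun j => DD 0 (fun m => p (2 ^ j * m)) (Real.log ((X : ℝ) / 2 ^ j)) with ht
  have ht1 : ∀ j, |t j| ≤ 1 := fun j => by
    have := DD0_abs_le (p := fun m => p (2 ^ j * m)) (fun n => hp _) (Real.log ((X : ℝ) / 2 ^ j))
    rwa [Real.norm_eq_abs] at this
  have hgeo : Summable (fun j : ℕ => (1 / 2 : ℝ) ^ j) :=
    summable_geometric_of_lt_one (by norm_num) (by norm_num)
  have hs1 : Summable (fun j : ℕ => (1 / 2 : ℝ) ^ j * t j) := by
    refine Summable.of_norm_bounded hgeo (fun j => ?_)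
    rw [Real.norm_eq_abs, abs_mul, abs_of_nonneg (by positivity : (0 : ℝ) ≤ (1 / 2) ^ j)]
    exact mul_le_of_le_one_right (by positivity) (ht1 j)
  have hs2 : Summable (fun j : ℕ => (1 / 2 : ℝ) ^ j * d) := hgeo.mul_right d
  have e2 : 2 * d = ∑' j : ℕ, (1 / 2 : ℝ) ^ j * d := by
    rw [tsum_mul_right, tsum_geometric_of_lt_one (by norm_num) (by norm_num)]
    norm_num
  have e3 : (∑' j : ℕ, (1 / 2 : ℝ) ^ j * t j) - 2 * d =
      ∑' j : ℕ, (1 / 2 : ℝ) ^ j * (t j - d) := by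
    rw [e2, ← hs1.tsum_sub hs2]
    exact tsum_congr (fun j => by ring)
  rw [e3]
  have hlog : ∀ j : ℕ, Real.log ((X : ℝ) / 2 ^ j) = x - j * Real.log 2 := by
    intro j
    rw [Real.log_div hX0.ne' (by positivity), Real.log_pow]
  have htd : ∀ j, |t j - d| ≤ 1 := by
    intro j
    have h1 : 0 ≤ t j := DD_nonneg (p := fun m => p (2 ^ j * m)) (fun n => hp _) _
    have h2 := ht1 j
    rw [abs_of_nonneg h1] at h2
    rw [abs_le]
    constructor <;> linarith
  rcases lt_or_ge x (2 * x1) with hsmall | hlarge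
  · -- trivial range
    have h1 : ‖∑' j : ℕ, (1 / 2 : ℝ) ^ j * (t j - d)‖ ≤ ∑' j : ℕ, (1 / 2 : ℝ) ^ j := by
      refine tsum_of_norm_bounded hgeo.hasSum (fun j => ?_)
      rw [Real.norm_eq_abs, abs_mul, abs_of_nonneg (by positivity : (0 : ℝ) ≤ (1 / 2) ^ j)]
      exact mul_le_of_le_one_right (by positivity) (htd j)
    rw [Real.norm_eq_abs, tsum_geometric_of_lt_one (by norm_num) (by norm_num)] at h1
    refine h1.trans ?_
    have h2 : 1 ≤ (2 * x1) * x ^ (-c) := by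
      have h3 : (2 * x1) ^ (-c) ≤ x ^ (-c) :=
        Real.rpow_le_rpow_of_nonpos hxpos hsmall.le (by linarith)
      have h4 : (2 * x1) ^ (-1 : ℝ) ≤ (2 * x1) ^ (-c) :=
        Real.rpow_le_rpow_of_exponent_le (by linarith) (by linarith)
      rw [Real.rpow_neg_one] at h4
      have h5 : (2 * x1) * (2 * x1)⁻¹ = 1 := mul_inv_cancel₀ (by linarith)
      have h6 := mul_le_mul_of_nonneg_left (h4.trans h3) (by linarith : 0 ≤ 2 * x1)
      linarith
    have h3 : 0 ≤ 3 * (2 * C3 + 5) * x ^ (-c) := by positivity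
    have h4 : (1 - 1 / 2 : ℝ)⁻¹ = 2 := by norm_num
    rw [h4]
    nlinarith
  · -- main range
    have hx1' : 1 ≤ x := by linarith
    have hterm : ∀ j : ℕ, |t j - d| ≤ (2 * C3 + 5) * x ^ (-c) * (4 / 3 : ℝ) ^ j := by
      intro j
      have hj1 : (1 : ℝ) ≤ (4 / 3 : ℝ) ^ j := one_le_pow₀ (by norm_num)
      rcases le_or_gt (x / 2) (x - j * Real.log 2) with hj | hj
      · have h1 := h j (x - j * Real.log 2) (by linarith)
        rw [← hlog j] at h1
        have h2 : (Real.log ((X : ℝ) / 2 ^ j)) ^ (-c) ≤ 2 * x ^ (-c) := by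
          rw [hlog j]
          have h3 : (x - j * Real.log 2) ^ (-c) ≤ (x / 2) ^ (-c) :=
            Real.rpow_le_rpow_of_nonpos (by linarith) hj (by linarith)
          refine h3.trans ?_
          rw [Real.div_rpow hxpos.le (by norm_num), div_eq_mul_inv, mul_comm]
          refine mul_le_mul_of_nonneg_right ?_ hxc.le
          rw [← Real.rpow_neg (by norm_num), neg_neg]
          calc (2 : ℝ) ^ c ≤ 2 ^ (1 : ℝ) :=
                Real.rpow_le_rpow_of_exponent_le (by norm_num) hc1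
            _ = 2 := Real.rpow_one 2
        have h4 : |t j - d| ≤ C3 * (2 * x ^ (-c)) :=
          h1.trans (mul_le_mul_of_nonneg_left h2 hC3.le)
        have h5 : (2 * C3) * x ^ (-c) ≤ (2 * C3 + 5) * x ^ (-c) * (4 / 3 : ℝ) ^ j := by
          have h6 : (2 * C3) * x ^ (-c) ≤ (2 * C3 + 5) * x ^ (-c) := by
            refine mul_le_mul_of_nonneg_right (by linarith) hxc.le
          have h7 : 0 ≤ (2 * C3 + 5) * x ^ (-c) := by positivity
          nlinarith
        linarith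
      · -- j > x / (2 log 2)
        refine (htd j).trans ?_
        have hl := log2_lt
        have hjx : 5 / 7 * x ≤ j := by
          by_contra hcon
          push Not at hcon
          have : (j : ℝ) * Real.log 2 ≤ 5 / 7 * x * (7 / 10) := by
            refine mul_le_mul hcon.le hl.le log2_pos.le (by positivity)
          linarith
        have h1 : 1 + (j : ℝ) * (1 / 3) ≤ (4 / 3 : ℝ) ^ j := by
          have := one_add_mul_le_pow (a := (1 / 3 : ℝ)) (by norm_num) j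
          norm_num at this ⊢
          linarith
        have h2 : x ^ (-1 : ℝ) ≤ x ^ (-c) :=
          Real.rpow_le_rpow_of_exponent_le hx1' (by linarith)
        rw [Real.rpow_neg_one] at h2
        have h3 : x / 5 ≤ (4 / 3 : ℝ) ^ j := by linarith
        have h4 : 5 * x⁻¹ * (x / 5) = 1 := by
          field_simp
        calc (1 : ℝ) = 5 * x⁻¹ * (x / 5) := h4.symm
          _ ≤ (2 * C3 + 5) * x ^ (-c) * (4 / 3 : ℝ) ^ j := by
              refine mul_le_mul (mul_le_mul (by linarith) h2 (by positivity) (by linarith)) h3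
                (by positivity) (by positivity)
    have hgeo2 : Summable (fun j : ℕ => (2 * C3 + 5) * x ^ (-c) * (2 / 3 : ℝ) ^ j) :=
      (summable_geometric_of_lt_one (by norm_num) (by norm_num)).mul_left _
    have h1 : ‖∑' j : ℕ, (1 / 2 : ℝ) ^ j * (t j - d)‖ ≤
        ∑' j : ℕ, (2 * C3 + 5) * x ^ (-c) * (2 / 3 : ℝ) ^ j := by
      refine tsum_of_norm_bounded hgeo2.hasSum (fun j => ?_)
      rw [Real.norm_eq_abs, abs_mul, abs_of_nonneg (by positivity : (0 : ℝ) ≤ (1 / 2) ^ j)]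
      refine (mul_le_mul_of_nonneg_left (hterm j) (by positivity)).trans (le_of_eq ?_)
      rw [show (2 / 3 : ℝ) = 1 / 2 * (4 / 3) by norm_num, mul_pow]
      ring
    rw [Real.norm_eq_abs, tsum_mul_left, tsum_geometric_of_lt_one (by norm_num) (by norm_num)] at h1
    refine h1.trans ?_
    have h2 : (1 - 2 / 3 : ℝ)⁻¹ = 3 := by norm_num
    rw [h2]
    have h3 : 0 ≤ 2 * (2 * x1) * x ^ (-c) := by positivity
    nlinarith

/-- every invariant set has a natural density, with a power of the logarithm saved, uniformly -/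
theorem inv_density_mean_rate : ∃ c C : ℝ, 0 < c ∧ c ≤ 1 / 4 ∧ 0 < C ∧ ∃ d : Set ℕ → ℝ,
    ∀ E : Set ℕ, IsInv E → 0 ≤ d E ∧ d E ≤ 2 ∧ ∀ X : ℕ, 2 ≤ X →
      |(∑ n ∈ Icc 1 X, ind E n) / X - d E| ≤ C * (Real.log X) ^ (-c) := by
  classical
  obtain ⟨C0, x0, hren⟩ := ren_of_inv
  obtain ⟨c, hc0, hc1, hrate⟩ := soft_rate
  obtain ⟨C3, x1, hC3, hx1, hD⟩ := hrate C0 x0
  have hex : ∀ E : Set ℕ, ∃ δ : ℝ, IsInv E → 0 ≤ δ ∧ δ ≤ 1 ∧
      ∀ x, x1 ≤ x → |DD 0 (ind E) x - δ| ≤ C3 * x ^ (-c) := by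
    intro E
    by_cases hE : IsInv E
    · obtain ⟨δ, h0, h1, h2⟩ := hD _ (hren E hE)
      exact ⟨δ, fun _ => ⟨h0, h1, h2⟩⟩
    · exact ⟨0, fun h => absurd h hE⟩
  choose δ hδ using hex
  refine ⟨c, 3 * (2 * C3 + 5) + 2 * (2 * x1), hc0, hc1, by positivity, fun E => 2 * δ E,
    fun E hE => ?_⟩
  obtain ⟨h0, h1, h2⟩ := hδ E hE
  refine ⟨by linarith, by linarith, ?_⟩
  refine rate_all (h34_ind_unit E) hc0 (by linarith) hC3 hx1 h0 h1 ?_
  intro j x hx
  rw [h34_DD_ind_two_pow hE j]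
  exact h2 x hx

/-- the same, for the counting function -/
theorem inv_density_rate : ∃ c C : ℝ, 0 < c ∧ c ≤ 1 / 4 ∧ 0 < C ∧ ∃ d : Set ℕ → ℝ,
    ∀ E : Set ℕ, IsInv E → 0 ≤ d E ∧ ∀ X : ℕ, 2 ≤ X →
      |(∑ n ∈ Icc 1 X, ind E n) - d E * X| ≤ C * X / (Real.log X) ^ c := by
  obtain ⟨c, C, hc, hc1, hC, d, h⟩ := inv_density_mean_rate
  refine ⟨c, C, hc, hc1, hC, d, fun E hE => ⟨(h E hE).1, fun X hX => ?_⟩⟩
  have h1 := (h E hE).2.2 X hX
  have hX0 : (0 : ℝ) < X := by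
    have : 0 < X := by omega
    exact_mod_cast this
  have hx : 0 < Real.log X := Real.log_pos (by exact_mod_cast (by omega : 1 < X))
  have e : (∑ n ∈ Icc 1 X, ind E n) - d E * X = ((∑ n ∈ Icc 1 X, ind E n) / X - d E) * X := by
    field_simp
  rw [e, abs_mul, abs_of_pos hX0]
  refine (mul_le_mul_of_nonneg_right h1 hX0.le).trans (le_of_eq ?_)
  rw [Real.rpow_neg hx.le]
  ring

end Pool.Agent.Lib.MP_e43fce_nt_nat
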