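import Pool.Agent.Lib.MP_e43fce_nt_nat.ARen
import Pool.Agent.Lib.MP_e43fce_nt_nat.DensR

/-! ADens: natural densities of almost invariant sets with a rate. As DensR.lean; `ainv_two` gives
`|DD 0 (fun m => ind E (2^j m)) x - DD 0 (ind E) x| <= B (j+1) / exp x`, and `rate_all` needs its
hypothesis only for `j log 2 <= x`. The exponent `c` (from `soft_rate`) and `d` do not depend on `B`
(`d E` = the limit). -/

set_option autoImplicit false

namespace Pool.Agent.Lib.MP_e43fce_nt_nat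

open Finset

/-- all integers from odd ones, with a rate; the hypothesis is used only for small `j` -/
theorem rate_allA {p : ℕ → ℝ} (hp : Unit01 p) {d C3 x1 c : ℝ} (hc0 : 0 < c) (hc1 : c ≤ 1)
    (hC3 : 0 < C3) (hx1 : 1 ≤ x1) (hd0 : 0 ≤ d) (hd1 : d ≤ 1)
    (h : ∀ j : ℕ, ∀ x, x1 ≤ x → j * Real.log 2 ≤ x →
      |DD 0 (fun m => p (2 ^ j * m)) x - d| ≤ C3 * x ^ (-c)) :
    ∀ X : ℕ, 2 ≤ X → |(∑ n ∈ Icc 1 X, p n) / X - 2 * d| ≤
      (3 * (2 * C3 + 5) + 2 * (2 * x1)) * (Real.log X) ^ (-c) := by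
  intro X hX
  have hX0 : (0 : ℝ) < X := by
    have : 0 < X := by omega
    exact_mod_cast this
  have hX2 : (2 : ℝ) ≤ X := by exact_mod_cast hX
  set x : ℝ := Real.log X with hx
  have hxpos : 0 < x := Real.log_pos (by linarith)
  have hxc : 0 < x ^ (-c) := Real.rpow_pos_of_pos hxpos _
  -- the mean as a series
  rw [mean_eq_tsum p (by omega : 1 ≤ X)]
  set t : ℕ → ℝ := fun j => DD 0 (fun m => p (2 ^ j * m)) (Real.log ((X : ℝ) / 2 ^ j)) with ht
  have ht1 : ∀ j, |t j| ≤ 1 := fun j => by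
    have := DD0_abs_le (p := fun m => p (2 ^ j * m)) (fun n => hp _) (Real.log ((X : ℝ) / 2 ^ j))
    rwa [Real.norm_eq_abs] at this
  have hgeo : Summable (fun j : ℕ => (1 / 2 : ℝ) ^ j) :=
    summable_geometric_of_lt_one (by norm_num) (by norm_num)
  have hs1 : Summable (fun j : ℕ => (1 / 2 : ℝ) ^ j * t j) := by
    refine Summable.of_norm_bounded hgeo (fun j => ?_)
    rw [Real.norm_eq_abs, abs_mul, abs_of_nonneg (by positivity : (0 : ℝ) ≤ (1 / 2) ^ j)]
    exact mul_le_of_le_one_right (by positivity) (ht1 j)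
  have hs2 : Summable (fun j : ℕ => (1 / 2 : ℝ) ^ j * d) := hgeo.mul_right d
  have e2 : 2 * d = ∑' j : ℕ, (1 / 2 : ℝ) ^ j * d := by
    rw [tsum_mul_right, tsum_geometric_of_lt_one (by norm_num) (by norm_num)]
    norm_num
  have e3 : (∑' j : ℕ, (1 / 2 : ℝ) ^ j * t j) - 2 * d =
      ∑' j : ℕ, (1 / 2 : ℝ) ^ j * (t j - d) := by
    rw [e2, ← hs1.tsum_sub hs2]
    exact tsum_congr (fun j => by ring)
  rw [e3]
  have hlog : ∀ j : ℕ, Real.log ((X : ℝ) / 2 ^ j) = x - j * Real.log 2 := by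
    intro j
    rw [Real.log_div hX0.ne' (by positivity), Real.log_pow]
  have htd : ∀ j, |t j - d| ≤ 1 := by
    intro j
    have h1 : 0 ≤ t j := DD_nonneg (p := fun m => p (2 ^ j * m)) (fun n => hp _) _
    have h2 := ht1 j
    rw [abs_of_nonneg h1] at h2
    rw [abs_le]
    constructor <;> linarith
  rcases lt_or_ge x (2 * x1) with hsmall | hlarge
  · -- trivial range
    have h1 : ‖∑' j : ℕ, (1 / 2 : ℝ) ^ j * (t j - d)‖ ≤ ∑' j : ℕ, (1 / 2 : ℝ) ^ j := by
      refine tsum_of_norm_bounded hgeo.hasSum (fun j => ?_)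
      rw [Real.norm_eq_abs, abs_mul, abs_of_nonneg (by positivity : (0 : ℝ) ≤ (1 / 2) ^ j)]
      exact mul_le_of_le_one_right (by positivity) (htd j)
    rw [Real.norm_eq_abs, tsum_geometric_of_lt_one (by norm_num) (by norm_num)] at h1
    refine h1.trans ?_
    have h2 : 1 ≤ (2 * x1) * x ^ (-c) := by
      have h3 : (2 * x1) ^ (-c) ≤ x ^ (-c) :=
        Real.rpow_le_rpow_of_nonpos hxpos hsmall.le (by linarith)
      have h4 : (2 * x1) ^ (-1 : ℝ) ≤ (2 * x1) ^ (-c) :=
        Real.rpow_le_rpow_of_exponent_le (by linarith) (by linarith)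
      rw [Real.rpow_neg_one] at h4
      have h5 : (2 * x1) * (2 * x1)⁻¹ = 1 := mul_inv_cancel₀ (by linarith)
      have h6 := mul_le_mul_of_nonneg_left (h4.trans h3) (by linarith : 0 ≤ 2 * x1)
      linarith
    have h3 : 0 ≤ 3 * (2 * C3 + 5) * x ^ (-c) := by positivity
    have h4 : (1 - 1 / 2 : ℝ)⁻¹ = 2 := by norm_num
    rw [h4]
    nlinarith
  · -- main range
    have hx1' : 1 ≤ x := by linarith
    have hterm : ∀ j : ℕ, |t j - d| ≤ (2 * C3 + 5) * x ^ (-c) * (4 / 3 : ℝ) ^ j := by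
      intro j
      have hj1 : (1 : ℝ) ≤ (4 / 3 : ℝ) ^ j := one_le_pow₀ (by norm_num)
      rcases le_or_gt (x / 2) (x - j * Real.log 2) with hj | hj
      · have h1 := h j (x - j * Real.log 2) (by linarith) (by linarith)
        rw [← hlog j] at h1
        have h2 : (Real.log ((X : ℝ) / 2 ^ j)) ^ (-c) ≤ 2 * x ^ (-c) := by
          rw [hlog j]
          have h3 : (x - j * Real.log 2) ^ (-c) ≤ (x / 2) ^ (-c) :=
            Real.rpow_le_rpow_of_nonpos (by linarith) hj (by linarith)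
          refine h3.trans ?_
          rw [Real.div_rpow hxpos.le (by norm_num), div_eq_mul_inv, mul_comm]
          refine mul_le_mul_of_nonneg_right ?_ hxc.le
          rw [← Real.rpow_neg (by norm_num), neg_neg]
          calc (2 : ℝ) ^ c ≤ 2 ^ (1 : ℝ) :=
                Real.rpow_le_rpow_of_exponent_le (by norm_num) hc1
            _ = 2 := Real.rpow_one 2
        have h4 : |t j - d| ≤ C3 * (2 * x ^ (-c)) :=
          h1.trans (mul_le_mul_of_nonneg_left h2 hC3.le)
        have h5 : (2 * C3) * x ^ (-c) ≤ (2 * C3 + 5) * x ^ (-c) * (4 / 3 : ℝ) ^ j := by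
          have h6 : (2 * C3) * x ^ (-c) ≤ (2 * C3 + 5) * x ^ (-c) := by
            refine mul_le_mul_of_nonneg_right (by linarith) hxc.le
          have h7 : 0 ≤ (2 * C3 + 5) * x ^ (-c) := by positivity
          nlinarith
        linarith
      · -- j > x / (2 log 2)
        refine (htd j).trans ?_
        have hl := log2_lt
        have hjx : 5 / 7 * x ≤ j := by
          by_contra hcon
          push Not at hcon
          have : (j : ℝ) * Real.log 2 ≤ 5 / 7 * x * (7 / 10) := by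
            refine mul_le_mul hcon.le hl.le log2_pos.le (by positivity)
          linarith
        have h1 : 1 + (j : ℝ) * (1 / 3) ≤ (4 / 3 : ℝ) ^ j := by
          have := one_add_mul_le_pow (a := (1 / 3 : ℝ)) (by norm_num) j
          norm_num at this ⊢
          linarith
        have h2 : x ^ (-1 : ℝ) ≤ x ^ (-c) :=
          Real.rpow_le_rpow_of_exponent_le hx1' (by linarith)
        rw [Real.rpow_neg_one] at h2
        have h3 : x / 5 ≤ (4 / 3 : ℝ) ^ j := by linarith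
        have h4 : 5 * x⁻¹ * (x / 5) = 1 := by
          field_simp
        calc (1 : ℝ) = 5 * x⁻¹ * (x / 5) := h4.symm
          _ ≤ (2 * C3 + 5) * x ^ (-c) * (4 / 3 : ℝ) ^ j := by
              refine mul_le_mul (mul_le_mul (by linarith) h2 (by positivity) (by linarith)) h3
                (by positivity) (by positivity)
    have hgeo2 : Summable (fun j : ℕ => (2 * C3 + 5) * x ^ (-c) * (2 / 3 : ℝ) ^ j) :=
      (summable_geometric_of_lt_one (by norm_num) (by norm_num)).mul_left _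
    have h1 : ‖∑' j : ℕ, (1 / 2 : ℝ) ^ j * (t j - d)‖ ≤
        ∑' j : ℕ, (2 * C3 + 5) * x ^ (-c) * (2 / 3 : ℝ) ^ j := by
      refine tsum_of_norm_bounded hgeo2.hasSum (fun j => ?_)
      rw [Real.norm_eq_abs, abs_mul, abs_of_nonneg (by positivity : (0 : ℝ) ≤ (1 / 2) ^ j)]
      refine (mul_le_mul_of_nonneg_left (hterm j) (by positivity)).trans (le_of_eq ?_)
      rw [show (2 / 3 : ℝ) = 1 / 2 * (4 / 3) by norm_num, mul_pow]
      ring
    rw [Real.norm_eq_abs, tsum_mul_left, tsum_geometric_of_lt_one (by norm_num) (by norm_num)] at h1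
    refine h1.trans ?_
    have h2 : (1 - 2 / 3 : ℝ)⁻¹ = 3 := by norm_num
    rw [h2]
    have h3 : 0 ≤ 2 * (2 * x1) * x ^ (-c) := by positivity
    nlinarith

/-- the odd density of `E / 2 ^ j` is that of `E` up to few exceptions -/
theorem ainv_DD_two {B : ℕ} {E : Set ℕ} (hE : AInv B E) (j : ℕ) (x : ℝ) :
    |DD 0 (fun m => ind E (2 ^ j * m)) x - DD 0 (ind E) x| ≤ B * (j + 1) / Real.exp x := by
  classical
  obtain ⟨S, hS, h⟩ := ainv_two hE j
  have hex := Real.exp_pos x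
  unfold DD NN
  rw [← sub_div, abs_div, abs_of_pos hex, ← Finset.sum_sub_distrib]
  refine div_le_div_of_nonneg_right ?_ hex.le
  refine (Finset.abs_sum_le_sum_abs _ _).trans ?_
  have h1 : ∀ m ∈ oddS (Real.exp x), |ind E (2 ^ j * m) * MM 0 (m : ℤ) - ind E m * MM 0 (m : ℤ)| ≤
      if m ∈ S then 1 else 0 := by
    intro m hm
    have hm1 : 0 < m := by
      unfold oddS at hm
      simp only [mem_filter, mem_Icc] at hm
      exact hm.1.1
    rw [MM_zero, mul_one, mul_one]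
    split_ifs with hmS
    · have h2 := h34_ind_unit E (2 ^ j * m)
      have h3 := h34_ind_unit E m
      rw [abs_le]
      constructor <;> linarith [h2.1, h2.2, h3.1, h3.2]
    · rw [h m hm1 hmS]
      simp
  refine (Finset.sum_le_sum h1).trans ?_
  rw [Finset.sum_ite_mem]
  simp only [sum_const, nsmul_eq_mul, mul_one]
  have h4 : ((oddS (Real.exp x) ∩ S).card : ℝ) ≤ (S.card : ℝ) := by
    exact_mod_cast Finset.card_le_card Finset.inter_subset_right
  have h5 : (S.card : ℝ) ≤ B * (j + 1) := by exact_mod_cast hS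
  linarith

/-- `B (j+1) / exp x` is small for `j log 2 <= x` -/
theorem few_small {B j : ℕ} {x c : ℝ} (hx : 1 ≤ x) (hc : c ≤ 1) (hj : j * Real.log 2 ≤ x) :
    (B : ℝ) * (j + 1) / Real.exp x ≤ 6 * B * x ^ (-c) := by
  have hB : (0 : ℝ) ≤ B := Nat.cast_nonneg _
  have hl : (2 : ℝ) / 3 ≤ Real.log 2 := by
    have := Real.log_two_gt_d9
    linarith
  have hj0 : (0 : ℝ) ≤ j := Nat.cast_nonneg _
  have hj1 : (j : ℝ) * (2 / 3) ≤ x := (mul_le_mul_of_nonneg_left hl hj0).trans hj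
  have hj2 : (j : ℝ) + 1 ≤ 3 * x := by linarith
  have he : x ^ 2 / 2 ≤ Real.exp x := by
    have := Real.quadratic_le_exp_of_nonneg (by linarith : (0 : ℝ) ≤ x)
    nlinarith
  have h2 : x ^ (-1 : ℝ) ≤ x ^ (-c) :=
    Real.rpow_le_rpow_of_exponent_le hx (by linarith)
  rw [Real.rpow_neg_one] at h2
  have hx0 : 0 < x := by linarith
  rw [div_le_iff₀ (Real.exp_pos x)]
  have h3 : (B : ℝ) * (j + 1) ≤ B * (3 * x) := mul_le_mul_of_nonneg_left hj2 hB
  have h4 : 6 * (B : ℝ) * x⁻¹ * (x ^ 2 / 2) = B * (3 * x) := by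
    field_simp
    ring
  have h5 : 6 * (B : ℝ) * x⁻¹ ≤ 6 * B * x ^ (-c) := mul_le_mul_of_nonneg_left h2 (by positivity)
  have h6 : 0 ≤ 6 * (B : ℝ) * x ^ (-c) := by positivity
  calc (B : ℝ) * (j + 1) ≤ 6 * (B : ℝ) * x⁻¹ * (x ^ 2 / 2) := by rw [h4]; exact h3
    _ ≤ 6 * B * x ^ (-c) * (x ^ 2 / 2) := mul_le_mul_of_nonneg_right h5 (by positivity)
    _ ≤ 6 * B * x ^ (-c) * Real.exp x := mul_le_mul_of_nonneg_left he h6

/-- almost invariant sets have a natural density, with a power of the logarithm saved, uniformly -/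
theorem ainv_density_mean_rate : ∃ c : ℝ, 0 < c ∧ c ≤ 1 / 4 ∧ ∃ d : Set ℕ → ℝ, ∀ B : ℕ, ∃ C : ℝ, 0 < C ∧
    ∀ E : Set ℕ, AInv B E → 0 ≤ d E ∧ d E ≤ 2 ∧ ∀ X : ℕ, 2 ≤ X →
      |(∑ n ∈ Icc 1 X, ind E n) / X - d E| ≤ C * (Real.log X) ^ (-c) := by
  classical
  obtain ⟨c, hc0, hc1, hrate⟩ := soft_rate
  -- the limit
  have hex : ∀ E : Set ℕ, ∃ δ : ℝ, (∃ B, AInv B E) → 0 ≤ δ ∧ δ ≤ 1 ∧
      Filter.Tendsto (fun x => DD 0 (ind E) x) Filter.atTop (nhds δ) := by
    intro E
    by_cases hE : ∃ B, AInv B E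
    · obtain ⟨B, hB⟩ := hE
      obtain ⟨C0, x0, hren⟩ := ren_of_ainv B
      obtain ⟨C3, x1, hC3, hx1, hD⟩ := hrate C0 x0
      obtain ⟨δ, h0, h1, h2⟩ := hD _ (hren E hB)
      refine ⟨δ, fun _ => ⟨h0, h1, ?_⟩⟩
      rw [tendsto_iff_norm_sub_tendsto_zero]
      have h3 : Filter.Tendsto (fun x : ℝ => C3 * x ^ (-c)) Filter.atTop (nhds 0) := by
        have := (tendsto_rpow_neg_atTop hc0).const_mul C3
        simpa using this
      refine squeeze_zero' (Filter.Eventually.of_forall (fun _ => norm_nonneg _)) ?_ h3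
      filter_upwards [Filter.eventually_ge_atTop x1] with x hx
      rw [Real.norm_eq_abs]
      exact h2 x hx
    · exact ⟨0, fun h => absurd h hE⟩
  choose δ hδ using hex
  refine ⟨c, hc0, hc1, fun E => 2 * δ E, ?_⟩
  intro B
  obtain ⟨C0, x0, hren⟩ := ren_of_ainv B
  obtain ⟨C3, x1, hC3, hx1, hD⟩ := hrate C0 x0
  have hC3' : 0 < C3 + 6 * B := by positivity
  refine ⟨3 * (2 * (C3 + 6 * B) + 5) + 2 * (2 * x1), by positivity, ?_⟩
  intro E hE
  obtain ⟨h0, h1, h2⟩ := hδ E ⟨B, hE⟩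
  obtain ⟨δ', h0', h1', h2'⟩ := hD _ (hren E hE)
  have heq : δ' = δ E := by
    refine tendsto_nhds_unique ?_ h2
    rw [tendsto_iff_norm_sub_tendsto_zero]
    have h3 : Filter.Tendsto (fun x : ℝ => C3 * x ^ (-c)) Filter.atTop (nhds 0) := by
      have := (tendsto_rpow_neg_atTop hc0).const_mul C3
      simpa using this
    refine squeeze_zero' (Filter.Eventually.of_forall (fun _ => norm_nonneg _)) ?_ h3
    filter_upwards [Filter.eventually_ge_atTop x1] with x hx
    rw [Real.norm_eq_abs]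
    exact h2' x hx
  subst heq
  refine ⟨by linarith, by linarith, ?_⟩
  refine rate_allA (h34_ind_unit E) hc0 (by linarith) hC3' hx1 h0' h1' ?_
  intro j x hx hj
  have h3 := ainv_DD_two hE j x
  have h4 := few_small (B := B) (c := c) (by linarith : 1 ≤ x) (by linarith) hj
  have h5 := h2' x hx
  calc |DD 0 (fun m => ind E (2 ^ j * m)) x - δ E|
      ≤ |DD 0 (fun m => ind E (2 ^ j * m)) x - DD 0 (ind E) x| + |DD 0 (ind E) x - δ E| := by
        have := abs_add_le (DD 0 (fun m => ind E (2 ^ j * m)) x - DD 0 (ind E) x)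
          (DD 0 (ind E) x - δ E)
        simpa using this
    _ ≤ 6 * B * x ^ (-c) + C3 * x ^ (-c) := by linarith
    _ = (C3 + 6 * B) * x ^ (-c) := by ring

end Pool.Agent.Lib.MP_e43fce_nt_nat
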