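import Pool.Agent.Lib.MP_e43fce_nt_nat.Defs4

/-! QTER (Terras): on a residue class modulo `2^a`, `a` steps of the accelerated map
`T n = n/2, (3n+1)/2` are affine, so an invariant set restricted to the class `r` mod `2^a` is an
affine copy of the same set restricted to a class mod `3^c`. -/

set_option autoImplicit false

namespace Pool.Agent.Lib.MP_e43fce_nt_nat

open Finset

theorem inv_even {E : Set ℕ} (hE : IsInv E) {n : ℕ} (hn : 1 ≤ n) : 2 * n ∈ E ↔ n ∈ E := by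
  rw [hE (2 * n) (by omega)]
  have h : col (2 * n) = n := by
    unfold col
    simp
  rw [h]

theorem inv_odd {E : Set ℕ} (hE : IsInv E) (n : ℕ) : 2 * n + 1 ∈ E ↔ 3 * n + 2 ∈ E := by
  rw [hE (2 * n + 1) (by omega)]
  have h : col (2 * n + 1) = 2 * (3 * n + 2) := by
    unfold col
    have h1 : ¬ (2 * n + 1) % 2 = 0 := by omega
    simp only [h1, if_false]
    omega
  rw [h, inv_even hE (by omega)]

theorem terras_aux (a : ℕ) : ∀ b r : ℕ, 1 ≤ r → ∃ c r' : ℕ, c ≤ a + b ∧ 1 ≤ r' ∧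
    ∀ E : Set ℕ, IsInv E → ∀ m : ℕ, (r + 2 ^ a * 3 ^ b * m ∈ E ↔ r' + 3 ^ c * m ∈ E) := by
  induction a with
  | zero =>
    intro b r hr
    exact ⟨b, r, by omega, hr, fun E _ m => by simp⟩
  | succ a ih =>
    intro b r hr
    rcases Nat.even_or_odd' r with ⟨k, hk | hk⟩
    · obtain ⟨c, r', h1, h2, h3⟩ := ih b k (by omega)
      refine ⟨c, r', by omega, h2, fun E hE m => ?_⟩
      have e : r + 2 ^ (a + 1) * 3 ^ b * m = 2 * (k + 2 ^ a * 3 ^ b * m) := by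
        rw [hk]; ring
      rw [e, inv_even hE (by omega)]
      exact h3 E hE m
    · obtain ⟨c, r', h1, h2, h3⟩ := ih (b + 1) (3 * k + 2) (by omega)
      refine ⟨c, r', by omega, h2, fun E hE m => ?_⟩
      have e : r + 2 ^ (a + 1) * 3 ^ b * m = 2 * (k + 2 ^ a * 3 ^ b * m) + 1 := by
        rw [hk]; ring
      have e2 : 3 * (k + 2 ^ a * 3 ^ b * m) + 2 = 3 * k + 2 + 2 ^ a * 3 ^ (b + 1) * m := by ring
      rw [e, inv_odd hE, e2]
      exact h3 E hE m

theorem terras_inv (a r : ℕ) (hr : 1 ≤ r) : ∃ c r' : ℕ, c ≤ a ∧ 1 ≤ r' ∧ ∀ E : Set ℕ, IsInv E →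
    ∀ m : ℕ, (r + 2 ^ a * m ∈ E ↔ r' + 3 ^ c * m ∈ E) := by
  obtain ⟨c, r', h1, h2, h3⟩ := terras_aux a 0 r hr
  refine ⟨c, r', by omega, h2, fun E hE m => ?_⟩
  have := h3 E hE m
  simpa using this

end Pool.Agent.Lib.MP_e43fce_nt_nat
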