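import Pool.Agent.Lib.MP_e43fce_nt_nat.QALL
import Pool.Agent.Lib.MP_e43fce_nt_nat.QTER
import Pool.Agent.Lib.MP_e43fce_nt_nat.DensR
import Pool.Agent.Lib.MP_e43fce_nt_nat.DensAlg

/-! QFIN: every invariant set is equidistributed in the residue classes modulo `M`, for every
`M >= 1`, uniformly over all invariant sets, with a rate. -/

set_option autoImplicit false

namespace Pool.Agent.Lib.MP_e43fce_nt_nat

open Finset

theorem qf_ind_nonneg (E : Set ℕ) (n : ℕ) : 0 ≤ ind E n := by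
  unfold ind; split <;> norm_num

theorem qf_ind_le (E : Set ℕ) (n : ℕ) : ind E n ≤ 1 := by
  unfold ind; split <;> norm_num

theorem qf_ind_congr {E : Set ℕ} {a b : ℕ} (h : a ∈ E ↔ b ∈ E) : ind E a = ind E b := by
  unfold ind
  by_cases hb : b ∈ E
  · have ha := h.2 hb
    simp [ha, hb]
  · have ha : a ∉ E := fun h1 => hb (h.1 h1)
    simp [ha, hb]

/-- an arithmetic progression inside a residue class -/
theorem qf_reidx (f : ℕ → ℝ) (ρ P M0 s Y : ℕ) (hP : 1 ≤ P) :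
    ∑ n ∈ (Icc ρ (ρ + P * Y)).filter (fun n => n % (P * M0) = (ρ + P * s) % (P * M0)), f n =
      ∑ m ∈ (range (Y + 1)).filter (fun m => m % M0 = s % M0), f (ρ + P * m) := by
  symm
  apply Finset.sum_bij (fun m _ => ρ + P * m)
  · intro m hm
    rw [mem_filter, mem_range] at hm
    rw [mem_filter, mem_Icc]
    refine ⟨⟨by omega, ?_⟩, ?_⟩
    · have : P * m ≤ P * Y := Nat.mul_le_mul_left _ (by omega)
      omega
    · have h1 : m ≡ s [MOD M0] := hm.2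
      have h2 : P * m ≡ P * s [MOD P * M0] := h1.mul_left' P
      exact h2.add_left ρ
  · intro m _ m' _ h
    have : P * m = P * m' := by omega
    exact Nat.eq_of_mul_eq_mul_left hP this
  · intro n hn
    rw [mem_filter, mem_Icc] at hn
    obtain ⟨⟨h1, h2⟩, h3⟩ := hn
    obtain ⟨d, rfl⟩ := Nat.exists_eq_add_of_le h1
    have h4 : ρ + d ≡ ρ + P * s [MOD P * M0] := h3
    have h5 : d ≡ P * s [MOD P * M0] := Nat.ModEq.add_left_cancel' ρ h4
    have h6 : d ≡ 0 [MOD P] := by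
      have h7 : d ≡ P * s [MOD P] := h5.of_mul_right M0
      have h8 : P * s ≡ 0 [MOD P] := by
        rw [Nat.modEq_zero_iff_dvd]
        exact Dvd.intro s rfl
      exact h7.trans h8
    obtain ⟨m, rfl⟩ := (Nat.modEq_zero_iff_dvd).1 h6
    have h7 : m ≡ s [MOD M0] := Nat.ModEq.mul_left_cancel' (by omega) h5
    refine ⟨m, ?_, rfl⟩
    rw [mem_filter, mem_range]
    refine ⟨?_, h7⟩
    have h8 : P * m ≤ P * Y := by omega
    have := Nat.le_of_mul_le_mul_left h8 hP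
    omega
  · intro m _
    rfl

/-- the reduction of one residue class -/
theorem qf_core (a M0 : ℕ) (hM0 : M0 % 2 = 1) (r : ℕ) : ∃ c ρ ρ' t : ℕ, 1 ≤ ρ ∧ ρ ≤ 2 ^ a ∧
    1 ≤ ρ' ∧ ∀ E : Set ℕ, IsInv E → ∀ X : ℕ, ρ ≤ X → ∀ X' : ℕ,
      X' = ρ' + 3 ^ c * ((X - ρ) / 2 ^ a) → ∀ D : ℝ, |D| ≤ 2 →
      |(∑ n ∈ (Icc 1 X).filter (fun n => n % (2 ^ a * M0) = r % (2 ^ a * M0)), ind E n)
        - X * (D / ((2 ^ a * M0 : ℕ) : ℝ))| ≤
      |(∑ n ∈ (Icc 1 X').filter (fun n => n % (3 ^ c * M0) = t % (3 ^ c * M0)), ind E n)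
        - X' * (D / ((3 ^ c * M0 : ℕ) : ℝ))| + (3 * ρ' + 4) := by
  have hM1 : 1 ≤ M0 := by omega
  have h2a : 1 ≤ 2 ^ a := Nat.one_le_two_pow
  have hM : 1 ≤ 2 ^ a * M0 := Nat.mul_pos h2a hM1
  -- the representative and the shift
  obtain ⟨ρ, s, hρ1, hρ2, hrs⟩ : ∃ ρ s : ℕ, 1 ≤ ρ ∧ ρ ≤ 2 ^ a ∧
      r + 2 ^ a * M0 = ρ + 2 ^ a * s := by
    rcases Nat.eq_zero_or_pos (r % 2 ^ a) with h | h
    · refine ⟨2 ^ a, r / 2 ^ a + M0 - 1, h2a, le_rfl, ?_⟩
      have h1 := Nat.div_add_mod r (2 ^ a)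
      rw [h, add_zero] at h1
      have h2 : r / 2 ^ a + M0 - 1 + 1 = r / 2 ^ a + M0 :=
        Nat.sub_add_cancel (le_trans hM1 (Nat.le_add_left _ _))
      calc r + 2 ^ a * M0 = 2 ^ a * (r / 2 ^ a) + 2 ^ a * M0 := by rw [h1]
        _ = 2 ^ a * (r / 2 ^ a + M0) := by ring
        _ = 2 ^ a * (r / 2 ^ a + M0 - 1 + 1) := by rw [h2]
        _ = 2 ^ a + 2 ^ a * (r / 2 ^ a + M0 - 1) := by ring
    · refine ⟨r % 2 ^ a, r / 2 ^ a + M0, h, (Nat.mod_lt _ (by positivity)).le, ?_⟩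
      have h1 := Nat.div_add_mod r (2 ^ a)
      calc r + 2 ^ a * M0 = (2 ^ a * (r / 2 ^ a) + r % 2 ^ a) + 2 ^ a * M0 := by rw [h1]
        _ = r % 2 ^ a + 2 ^ a * (r / 2 ^ a + M0) := by ring
  obtain ⟨c, ρ', hc, hρ', hT⟩ := terras_inv a ρ hρ1
  have h3c : 1 ≤ 3 ^ c := Nat.one_le_pow _ _ (by norm_num)
  have hQ : (3 ^ c * M0) % 2 = 1 := by
    rw [Nat.mul_mod, hM0, Nat.pow_mod]
    norm_num
  have hQ1 : 1 ≤ 3 ^ c * M0 := Nat.mul_pos h3c hM1
  have h3r : (1 : ℝ) ≤ (3 : ℝ) ^ c := by exact_mod_cast h3c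
  refine ⟨c, ρ, ρ', ρ' + 3 ^ c * s, hρ1, hρ2, hρ', fun E hE X hXρ X' hX' D hD => ?_⟩
  set Y : ℕ := (X - ρ) / 2 ^ a with hY
  have hYle : ρ + 2 ^ a * Y ≤ X := by
    have := Nat.mul_div_le (X - ρ) (2 ^ a)
    rw [← hY] at this
    omega
  have hYlt : X < ρ + 2 ^ a * Y + 2 ^ a := by
    have := Nat.lt_mul_div_succ (X - ρ) (show 0 < 2 ^ a by positivity)
    rw [← hY] at this
    have e : 2 ^ a * (Y + 1) = 2 ^ a * Y + 2 ^ a := by ring
    omega
  -- first sum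
  have e1 : ∑ n ∈ (Icc 1 X).filter (fun n => n % (2 ^ a * M0) = r % (2 ^ a * M0)), ind E n =
      ∑ m ∈ (range (Y + 1)).filter (fun m => m % M0 = s % M0), ind E (ρ + 2 ^ a * m) := by
    rw [← qf_reidx (ind E) ρ (2 ^ a) M0 s Y h2a]
    apply Finset.sum_congr _ (fun _ _ => rfl)
    ext n
    rw [mem_filter, mem_filter, mem_Icc, mem_Icc, ← hrs, Nat.add_mod_right]
    constructor
    · rintro ⟨⟨h1, h2⟩, h3⟩
      have h4 : n ≡ ρ [MOD 2 ^ a] := by
        have h5 : n ≡ r + 2 ^ a * M0 [MOD 2 ^ a * M0] := by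
          rw [Nat.ModEq, Nat.add_mod_right]; exact h3
        rw [hrs] at h5
        have h6 : n ≡ ρ + 2 ^ a * s [MOD 2 ^ a] := h5.of_mul_right M0
        have h7 : ρ + 2 ^ a * s ≡ ρ [MOD 2 ^ a] := by
          rw [Nat.ModEq, Nat.add_mul_mod_self_left]
        exact h6.trans h7
      have h5 : ρ ≤ n := by
        by_contra h6
        have h7 : (2 ^ a : ℕ) ∣ ρ - n := (Nat.modEq_iff_dvd' (by omega)).1 h4
        have h8 := Nat.le_of_dvd (by omega) h7
        omega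
      refine ⟨⟨h5, ?_⟩, h3⟩
      have h6 : (2 ^ a : ℕ) ∣ n - ρ := (Nat.modEq_iff_dvd' h5).1 h4.symm
      obtain ⟨m, hm⟩ := h6
      have h7 : m ≤ Y := by
        rw [hY, Nat.le_div_iff_mul_le (by positivity)]
        have e : m * 2 ^ a = 2 ^ a * m := by ring
        omega
      have h8 : 2 ^ a * m ≤ 2 ^ a * Y := Nat.mul_le_mul_left _ h7
      omega
    · rintro ⟨⟨h1, h2⟩, h3⟩
      exact ⟨⟨by omega, by omega⟩, h3⟩
  -- second sum
  set t : ℕ := ρ' + 3 ^ c * s with ht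
  have e2 : ∑ n ∈ (Icc ρ' X').filter (fun n => n % (3 ^ c * M0) = t % (3 ^ c * M0)), ind E n =
      ∑ m ∈ (range (Y + 1)).filter (fun m => m % M0 = s % M0), ind E (ρ' + 3 ^ c * m) := by
    rw [hX']
    exact qf_reidx (ind E) ρ' (3 ^ c) M0 s Y h3c
  have e3 : ∑ m ∈ (range (Y + 1)).filter (fun m => m % M0 = s % M0), ind E (ρ + 2 ^ a * m) =
      ∑ m ∈ (range (Y + 1)).filter (fun m => m % M0 = s % M0), ind E (ρ' + 3 ^ c * m) :=
    Finset.sum_congr rfl (fun m _ => qf_ind_congr (hT E hE m))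
  set A := ∑ n ∈ (Icc 1 X).filter (fun n => n % (2 ^ a * M0) = r % (2 ^ a * M0)), ind E n with hA
  set B := ∑ n ∈ (Icc 1 X').filter (fun n => n % (3 ^ c * M0) = t % (3 ^ c * M0)), ind E n with hB
  have hAB : |A - B| ≤ ρ' := by
    rw [e1, e3, ← e2]
    have hsub : (Icc ρ' X').filter (fun n => n % (3 ^ c * M0) = t % (3 ^ c * M0)) ⊆
        (Icc 1 X').filter (fun n => n % (3 ^ c * M0) = t % (3 ^ c * M0)) := by
      apply Finset.filter_subset_filter
      exact Finset.Icc_subset_Icc hρ' le_rfl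
    rw [hB, ← Finset.sum_sdiff hsub]
    have h1 : ∑ n ∈ (Icc 1 X').filter (fun n => n % (3 ^ c * M0) = t % (3 ^ c * M0)) \
        (Icc ρ' X').filter (fun n => n % (3 ^ c * M0) = t % (3 ^ c * M0)), ind E n ≤ ρ' := by
      calc _ ≤ ∑ n ∈ (Icc 1 X').filter (fun n => n % (3 ^ c * M0) = t % (3 ^ c * M0)) \
        (Icc ρ' X').filter (fun n => n % (3 ^ c * M0) = t % (3 ^ c * M0)), (1 : ℝ) :=
            Finset.sum_le_sum (fun n _ => qf_ind_le E n)
        _ = (((Icc 1 X').filter (fun n => n % (3 ^ c * M0) = t % (3 ^ c * M0)) \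
        (Icc ρ' X').filter (fun n => n % (3 ^ c * M0) = t % (3 ^ c * M0))).card : ℝ) := by
            rw [Finset.sum_const, nsmul_eq_mul, mul_one]
        _ ≤ ((range ρ').card : ℝ) := by
            have : (Icc 1 X').filter (fun n => n % (3 ^ c * M0) = t % (3 ^ c * M0)) \
              (Icc ρ' X').filter (fun n => n % (3 ^ c * M0) = t % (3 ^ c * M0)) ⊆ range ρ' := by
              intro n hn
              rw [mem_sdiff, mem_filter, mem_filter, mem_Icc, mem_Icc] at hn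
              rw [mem_range]
              by_contra h
              exact hn.2 ⟨⟨by omega, hn.1.1.2⟩, hn.1.2⟩
            exact_mod_cast Finset.card_le_card this
        _ = ρ' := by rw [card_range]
    have h0 : 0 ≤ ∑ n ∈ (Icc 1 X').filter (fun n => n % (3 ^ c * M0) = t % (3 ^ c * M0)) \
        (Icc ρ' X').filter (fun n => n % (3 ^ c * M0) = t % (3 ^ c * M0)), ind E n :=
      Finset.sum_nonneg (fun n _ => qf_ind_nonneg E n)
    rw [abs_le]
    constructor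
    · linarith
    · linarith [show (0 : ℝ) ≤ ρ' from Nat.cast_nonneg _]
  have k5 : |X' * (D / ((3 ^ c * M0 : ℕ) : ℝ)) - X * (D / ((2 ^ a * M0 : ℕ) : ℝ))| ≤
      2 * (ρ' + 2) := by
    have hM0r : (1 : ℝ) ≤ M0 := by exact_mod_cast hM1
    have h3p : (0 : ℝ) < 3 ^ c := by positivity
    have h2p : (0 : ℝ) < 2 ^ a := by positivity
    have h2p1 : (1 : ℝ) ≤ 2 ^ a := by exact_mod_cast h2a
    have e5 : X' * (D / ((3 ^ c * M0 : ℕ) : ℝ)) - X * (D / ((2 ^ a * M0 : ℕ) : ℝ)) =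
        D * (((ρ' : ℝ) / 3 ^ c + (Y - X / 2 ^ a)) / M0) := by
      rw [hX']
      push_cast
      field_simp
      ring
    rw [e5, abs_mul]
    have h4 : |((ρ' : ℝ) / 3 ^ c + (Y - X / 2 ^ a)) / M0| ≤ ρ' + 2 := by
      rw [abs_div, abs_of_pos (show (0 : ℝ) < M0 by linarith)]
      rw [div_le_iff₀ (by linarith)]
      have h5 : |(ρ' : ℝ) / 3 ^ c + (Y - X / 2 ^ a)| ≤ ρ' + 2 := by
        have hρ'0 : (0 : ℝ) ≤ ρ' := Nat.cast_nonneg _
        have h6 : 0 ≤ (ρ' : ℝ) / 3 ^ c := by positivity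
        have h7 : (ρ' : ℝ) / 3 ^ c ≤ ρ' := div_le_self hρ'0 h3r
        have h8 : (Y : ℝ) ≤ X / 2 ^ a := by
          rw [le_div_iff₀ h2p]
          have : Y * 2 ^ a ≤ X := by
            have e : Y * 2 ^ a = 2 ^ a * Y := by ring
            omega
          exact_mod_cast this
        have h9 : (X : ℝ) / 2 ^ a ≤ Y + 2 := by
          rw [div_le_iff₀ h2p]
          have : X ≤ (Y + 2) * 2 ^ a := by
            have e : (Y + 2) * 2 ^ a = 2 ^ a * Y + 2 ^ a + 2 ^ a := by ring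
            omega
          exact_mod_cast this
        rw [abs_le]
        constructor <;> linarith
      have hρ'0 : (0 : ℝ) ≤ ρ' := Nat.cast_nonneg _
      nlinarith
    exact mul_le_mul hD h4 (abs_nonneg _) (by norm_num)
  have h1 : A - X * (D / ((2 ^ a * M0 : ℕ) : ℝ)) = (A - B) +
      (B - X' * (D / ((3 ^ c * M0 : ℕ) : ℝ))) +
      (X' * (D / ((3 ^ c * M0 : ℕ) : ℝ)) - X * (D / ((2 ^ a * M0 : ℕ) : ℝ))) := by ring
  rw [h1]
  refine (abs_add_le _ _).trans ?_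
  have := abs_add_le (A - B) (B - X' * (D / ((3 ^ c * M0 : ℕ) : ℝ)))
  linarith

theorem qf_sum_le (E : Set ℕ) (X : ℕ) (p : ℕ → Prop) [DecidablePred p] :
    0 ≤ ∑ n ∈ (Icc 1 X).filter p, ind E n ∧ ∑ n ∈ (Icc 1 X).filter p, ind E n ≤ X := by
  refine ⟨Finset.sum_nonneg (fun n _ => qf_ind_nonneg E n), ?_⟩
  calc ∑ n ∈ (Icc 1 X).filter p, ind E n ≤ ∑ n ∈ (Icc 1 X).filter p, (1 : ℝ) :=
        Finset.sum_le_sum (fun n _ => qf_ind_le E n)
    _ = (((Icc 1 X).filter p).card : ℝ) := by simp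
    _ ≤ ((Icc 1 X).card : ℝ) := by exact_mod_cast Finset.card_filter_le _ _
    _ = X := by simp

/-- one residue class, with a rate -/
theorem qf_rate_class (c Cd : ℝ) (hc : 0 < c) (hc1 : c ≤ 1 / 4) (hCd : 0 < Cd) (d : Set ℕ → ℝ)
    (hd : ∀ E : Set ℕ, IsInv E → 0 ≤ d E ∧ d E ≤ 2 ∧ ∀ X : ℕ, 2 ≤ X →
      |(∑ n ∈ Icc 1 X, ind E n) / X - d E| ≤ Cd * (Real.log X) ^ (-c)) (a M0 : ℕ)
    (hM0 : M0 % 2 = 1) (r : ℕ) : ∃ C : ℝ, 0 ≤ C ∧ ∀ E : Set ℕ, IsInv E → ∀ X : ℕ, 2 ≤ X →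
      |(∑ n ∈ (Icc 1 X).filter (fun n => n % (2 ^ a * M0) = r % (2 ^ a * M0)), ind E n)
        - X * (d E / ((2 ^ a * M0 : ℕ) : ℝ))| ≤ C * (X * (Real.log X) ^ (-c)) := by
  obtain ⟨c', ρ, ρ', t, hρ1, hρ2, hρ', hcore⟩ := qf_core a M0 hM0 r
  have hM1 : 1 ≤ M0 := by omega
  have h2a : 1 ≤ 2 ^ a := Nat.one_le_two_pow
  have hM : 1 ≤ 2 ^ a * M0 := Nat.mul_pos h2a hM1
  have h3c : 1 ≤ 3 ^ c' := Nat.one_le_pow _ _ (by norm_num)
  have hQ : (3 ^ c' * M0) % 2 = 1 := by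
    rw [Nat.mul_mod, hM0, Nat.pow_mod]
    norm_num
  have hQ1 : 1 ≤ 3 ^ c' * M0 := Nat.mul_pos h3c hM1
  have hQr : (1 : ℝ) ≤ ((3 ^ c' * M0 : ℕ) : ℝ) := by exact_mod_cast hQ1
  have hMr : (1 : ℝ) ≤ ((2 ^ a * M0 : ℕ) : ℝ) := by exact_mod_cast hM
  obtain ⟨Cq, X0, hq⟩ := equi_Q_rate hQ
  set K : ℕ := 2 ^ a with hK
  set X1 : ℕ := 4 * K ^ 2 + 4 * K + ρ + K * (X0 + 3) + 3 with hX1
  set C0 : ℝ := 2 * (ρ' + 3 ^ c') * (|Cq| + Cd) + (3 * ρ' + 4) with hC0
  have hC00 : 0 ≤ C0 := by rw [hC0]; positivity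
  have hX1r : (1 : ℝ) < X1 := by
    have : 1 < X1 := by omega
    exact_mod_cast this
  have hL1 : 0 < Real.log X1 := Real.log_pos hX1r
  have hL1c : 0 ≤ (Real.log X1) ^ c := Real.rpow_nonneg hL1.le c
  refine ⟨C0 + 3 * (Real.log X1) ^ c, by positivity, fun E hE X hX => ?_⟩
  obtain ⟨hd0, hd2, hdX⟩ := hd E hE
  have hXr : (1 : ℝ) < X := by exact_mod_cast (show 1 < X by omega)
  have hX0' : (0 : ℝ) < X := by linarith
  have hL : 0 < Real.log X := Real.log_pos hXr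
  have hLc : 0 < (Real.log X) ^ (-c) := Real.rpow_pos_of_pos hL _
  have hW : 0 ≤ X * (Real.log X) ^ (-c) := by positivity
  rcases Nat.lt_or_ge X X1 with hlt | hge
  · -- small X
    have h1 := qf_sum_le E X (fun n => n % (K * M0) = r % (K * M0))
    have h2 : 0 ≤ d E / ((K * M0 : ℕ) : ℝ) := by positivity
    have h3 : d E / ((K * M0 : ℕ) : ℝ) ≤ 2 := by
      rw [div_le_iff₀ (by linarith)]
      nlinarith
    have h4 : |(∑ n ∈ (Icc 1 X).filter (fun n => n % (K * M0) = r % (K * M0)), ind E n)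
        - X * (d E / ((K * M0 : ℕ) : ℝ))| ≤ 3 * X := by
      have h5 : 0 ≤ X * (d E / ((K * M0 : ℕ) : ℝ)) := by positivity
      have h6 : X * (d E / ((K * M0 : ℕ) : ℝ)) ≤ X * 2 := mul_le_mul_of_nonneg_left h3 hX0'.le
      rw [abs_le]
      constructor <;> linarith [h1.1, h1.2]
    have h5 : 1 ≤ (Real.log X1) ^ c * (Real.log X) ^ (-c) := by
      rw [Real.rpow_neg hL.le, ← div_eq_mul_inv, one_le_div (Real.rpow_pos_of_pos hL _)]
      apply Real.rpow_le_rpow hL.le _ hc.le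
      apply Real.log_le_log hX0'
      exact_mod_cast hlt.le
    calc _ ≤ 3 * (X : ℝ) := h4
      _ ≤ 3 * X * ((Real.log X1) ^ c * (Real.log X) ^ (-c)) := le_mul_of_one_le_right (by positivity) h5
      _ = (3 * (Real.log X1) ^ c) * (X * (Real.log X) ^ (-c)) := by ring
      _ ≤ (C0 + 3 * (Real.log X1) ^ c) * (X * (Real.log X) ^ (-c)) :=
          mul_le_mul_of_nonneg_right (by linarith) hW
  · -- large X
    set Y : ℕ := (X - ρ) / K with hY
    set X' : ℕ := ρ' + 3 ^ c' * Y with hX'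
    have hYY : Y ≤ X' := by
      have : 1 * Y ≤ 3 ^ c' * Y := Nat.mul_le_mul_right _ h3c
      omega
    have hYlt : X < ρ + K * Y + K := by
      have := Nat.lt_mul_div_succ (X - ρ) (show 0 < K by omega)
      rw [← hY] at this
      have e : K * (Y + 1) = K * Y + K := by ring
      omega
    have hYbig : X0 + 3 ≤ Y := by
      rw [hY, Nat.le_div_iff_mul_le (by omega)]
      have e : (X0 + 3) * K = K * (X0 + 3) := by ring
      omega
    have hKr : (1 : ℝ) ≤ K := by exact_mod_cast h2a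
    have hYr : (X : ℝ) / (2 * K) ≤ Y := by
      rw [div_le_iff₀ (by positivity)]
      have h1 : X ≤ K * Y + K + K := by omega
      have h2 : 4 * K ≤ X := by omega
      have h1' : (X : ℝ) ≤ K * Y + K + K := by exact_mod_cast h1
      have h2' : (4 : ℝ) * K ≤ X := by exact_mod_cast h2
      linarith
    have hsq : (X : ℝ) ≤ (X' : ℝ) ^ 2 := by
      have h1 : (4 : ℝ) * K ^ 2 ≤ X := by
        have : 4 * K ^ 2 ≤ X := by omega
        exact_mod_cast this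
      have h2 : ((X : ℝ) / (2 * K)) ^ 2 ≤ (Y : ℝ) ^ 2 := pow_le_pow_left₀ (by positivity) hYr 2
      have h3 : (X : ℝ) ≤ ((X : ℝ) / (2 * K)) ^ 2 := by
        rw [div_pow, le_div_iff₀ (by positivity)]
        nlinarith
      have h4 : (Y : ℝ) ≤ X' := by exact_mod_cast hYY
      have h5 : (Y : ℝ) ^ 2 ≤ (X' : ℝ) ^ 2 := pow_le_pow_left₀ (Nat.cast_nonneg _) h4 2
      linarith
    have hX'3 : (3 : ℝ) ≤ X' := by
      have : 3 ≤ X' := by omega
      exact_mod_cast this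
    have hX'0 : (0 : ℝ) < X' := by linarith
    have hLL : Real.log X / 2 ≤ Real.log X' := by
      have h1 := Real.log_le_log hX0' hsq
      rw [Real.log_pow] at h1
      push_cast at h1
      linarith
    have hL' : 1 ≤ Real.log X' := by
      rw [Real.le_log_iff_exp_le hX'0]
      have := Real.exp_one_lt_d9
      linarith
    have hpw : (Real.log X') ^ (-c) ≤ 2 * (Real.log X) ^ (-c) := by
      have h1 : (Real.log X') ^ (-c) ≤ (Real.log X / 2) ^ (-c) :=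
        Real.rpow_le_rpow_of_nonpos (by positivity) hLL (by linarith)
      refine h1.trans ?_
      rw [div_eq_mul_inv, Real.mul_rpow hL.le (by norm_num), mul_comm]
      apply mul_le_mul_of_nonneg_right _ hLc.le
      rw [Real.inv_rpow (by norm_num), Real.rpow_neg (by norm_num), inv_inv]
      calc (2 : ℝ) ^ c ≤ 2 ^ (1 : ℝ) :=
            Real.rpow_le_rpow_of_exponent_le (by norm_num) (by linarith)
        _ = 2 := Real.rpow_one 2
    set B := ∑ n ∈ (Icc 1 X').filter (fun n => n % (3 ^ c' * M0) = t % (3 ^ c' * M0)), ind E n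
      with hB
    have k1 := hq E hE X' (by omega) t
    rw [← hB] at k1
    have k2 := hdX X' (by omega)
    have k1' : |B / X' - (1 / ((3 ^ c' * M0 : ℕ) : ℝ)) * ((∑ n ∈ Icc 1 X', ind E n) / X')| ≤
        |Cq| * (Real.log X') ^ (-c) := by
      refine k1.trans ?_
      refine (mul_le_mul_of_nonneg_right (le_abs_self Cq) (Real.rpow_nonneg (by linarith) _)).trans ?_
      apply mul_le_mul_of_nonneg_left _ (abs_nonneg _)
      exact Real.rpow_le_rpow_of_exponent_le hL' (by linarith)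
    have k3 : |B / X' - d E / ((3 ^ c' * M0 : ℕ) : ℝ)| ≤ (|Cq| + Cd) * (Real.log X') ^ (-c) := by
      have h1 : B / X' - d E / ((3 ^ c' * M0 : ℕ) : ℝ) =
          (B / X' - (1 / ((3 ^ c' * M0 : ℕ) : ℝ)) * ((∑ n ∈ Icc 1 X', ind E n) / X')) +
            (1 / ((3 ^ c' * M0 : ℕ) : ℝ)) * ((∑ n ∈ Icc 1 X', ind E n) / X' - d E) := by ring
      rw [h1]
      refine (abs_add_le _ _).trans ?_
      have h2 : |(1 / ((3 ^ c' * M0 : ℕ) : ℝ)) * ((∑ n ∈ Icc 1 X', ind E n) / X' - d E)| ≤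
          1 * (Cd * (Real.log X') ^ (-c)) := by
        rw [abs_mul]
        apply mul_le_mul _ k2 (abs_nonneg _) zero_le_one
        rw [abs_of_nonneg (by positivity), div_le_one (by linarith)]
        exact hQr
      linarith
    have k4 : |B - X' * (d E / ((3 ^ c' * M0 : ℕ) : ℝ))| ≤
        (|Cq| + Cd) * (2 * (Real.log X) ^ (-c)) * ((ρ' + 3 ^ c') * X) := by
      have h1 : B - X' * (d E / ((3 ^ c' * M0 : ℕ) : ℝ)) =
          X' * (B / X' - d E / ((3 ^ c' * M0 : ℕ) : ℝ)) := by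
        rw [mul_sub, mul_div_cancel₀ _ hX'0.ne']
      rw [h1, abs_mul, abs_of_pos hX'0, mul_comm]
      have h2 : (X' : ℝ) ≤ (ρ' + 3 ^ c') * X := by
        have h3 : X' ≤ (ρ' + 3 ^ c') * X := by
          have h1 : Y ≤ X := Nat.div_le_self _ _ |>.trans (Nat.sub_le _ _)
          have h2 : 3 ^ c' * Y ≤ 3 ^ c' * X := Nat.mul_le_mul_left _ h1
          have h4 : ρ' * 1 ≤ ρ' * X := Nat.mul_le_mul_left _ (by omega)
          have h5 : (ρ' + 3 ^ c') * X = ρ' * X + 3 ^ c' * X := by ring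
          omega
        exact_mod_cast h3
      apply mul_le_mul _ h2 hX'0.le (by positivity)
      exact k3.trans (mul_le_mul_of_nonneg_left hpw (by positivity))
    have k5 := hcore E hE X (by omega) X' hX' (d E) (by rw [abs_of_nonneg hd0]; exact hd2)
    rw [← hB] at k5
    have k6 : (1 : ℝ) ≤ X * (Real.log X) ^ (-c) := by
      rw [Real.rpow_neg hL.le, ← div_eq_mul_inv, one_le_div (Real.rpow_pos_of_pos hL _)]
      calc (Real.log X) ^ c ≤ (X : ℝ) ^ c := by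
            apply Real.rpow_le_rpow hL.le _ hc.le
            have := Real.log_le_sub_one_of_pos hX0'
            linarith
        _ ≤ (X : ℝ) ^ (1 : ℝ) := Real.rpow_le_rpow_of_exponent_le hXr.le (by linarith)
        _ = X := Real.rpow_one _
    have hρ0 : (0 : ℝ) ≤ 3 * ρ' + 4 := by positivity
    calc _ ≤ _ := k5
      _ ≤ (|Cq| + Cd) * (2 * (Real.log X) ^ (-c)) * ((ρ' + 3 ^ c') * X) +
          (3 * ρ' + 4) * (X * (Real.log X) ^ (-c)) := by
          have := mul_le_mul_of_nonneg_left k6 hρ0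
          linarith
      _ = C0 * (X * (Real.log X) ^ (-c)) := by rw [hC0]; ring
      _ ≤ (C0 + 3 * (Real.log X1) ^ c) * (X * (Real.log X) ^ (-c)) :=
          mul_le_mul_of_nonneg_right (by linarith) hW

/-- invariant sets are equidistributed in residue classes, uniformly, with a rate -/
theorem equi_rate : ∃ c : ℝ, 0 < c ∧ c ≤ 1 / 4 ∧ ∃ d : Set ℕ → ℝ,
    (∀ E : Set ℕ, IsInv E → 0 ≤ d E ∧ d E ≤ 2) ∧ ∀ M : ℕ, 1 ≤ M → ∃ C : ℝ, 0 ≤ C ∧
    ∀ E : Set ℕ, IsInv E → ∀ X : ℕ, 2 ≤ X → ∀ r : ℕ,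
      |(∑ n ∈ (Icc 1 X).filter (fun n => n % M = r % M), ind E n) - d E * X / M| ≤
        C * X / (Real.log X) ^ c := by
  obtain ⟨c, Cd, hc, hc1, hCd, d, hd⟩ := inv_density_mean_rate
  refine ⟨c, hc, hc1, d, fun E hE => ⟨(hd E hE).1, (hd E hE).2.1⟩, fun M hM => ?_⟩
  obtain ⟨a, M0, hM0, rfl⟩ : ∃ a M0 : ℕ, M0 % 2 = 1 ∧ M = 2 ^ a * M0 := by
    obtain ⟨a, m, hm, h⟩ := Nat.exists_eq_two_pow_mul_odd (show M ≠ 0 by omega)
    exact ⟨a, m, Nat.odd_iff.1 hm, h⟩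
  choose C hC hCr using fun r : ℕ => qf_rate_class c Cd hc hc1 hCd d hd a M0 hM0 r
  refine ⟨∑ r ∈ range (2 ^ a * M0), C r, Finset.sum_nonneg (fun r _ => hC r),
    fun E hE X hX r => ?_⟩
  have hXr : (1 : ℝ) < X := by exact_mod_cast (show 1 < X by omega)
  have hL : 0 < Real.log X := Real.log_pos hXr
  have h1 : r % (2 ^ a * M0) ∈ range (2 ^ a * M0) := mem_range.2 (Nat.mod_lt _ (by omega))
  have h2 : C (r % (2 ^ a * M0)) ≤ ∑ r ∈ range (2 ^ a * M0), C r :=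
    Finset.single_le_sum (f := C) (fun r _ => hC r) h1
  have h3 := hCr (r % (2 ^ a * M0)) E hE X hX
  rw [Nat.mod_mod] at h3
  have h4 : d E * X / ((2 ^ a * M0 : ℕ) : ℝ) = X * (d E / ((2 ^ a * M0 : ℕ) : ℝ)) := by ring
  rw [h4]
  refine h3.trans ?_
  rw [Real.rpow_neg hL.le, ← div_eq_mul_inv, mul_div_assoc]
  apply mul_le_mul_of_nonneg_right h2
  positivity

/-- the same without rate -/
theorem equi_unif : ∃ d : Set ℕ → ℝ, ∀ M : ℕ, 1 ≤ M → ∀ ε : ℝ, 0 < ε → ∃ X0 : ℕ,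
    ∀ E : Set ℕ, IsInv E → ∀ X : ℕ, X0 ≤ X → ∀ r : ℕ,
      |(∑ n ∈ (Icc 1 X).filter (fun n => n % M = r % M), ind E n) / X - d E / M| ≤ ε := by
  obtain ⟨c, hc, -, d, -, h⟩ := equi_rate
  refine ⟨d, fun M hM ε hε => ?_⟩
  obtain ⟨C, hC, hCE⟩ := h M hM
  have hlim : Filter.Tendsto (fun X : ℕ => C * (Real.log X) ^ (-c)) Filter.atTop (nhds (C * 0)) :=
    ((tendsto_rpow_neg_atTop hc).comp
      (Real.tendsto_log_atTop.comp tendsto_natCast_atTop_atTop)).const_mul C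
  rw [mul_zero] at hlim
  obtain ⟨X0, hX0⟩ := Filter.eventually_atTop.1 (hlim.eventually (gt_mem_nhds hε))
  refine ⟨X0 + 2, fun E hE X hX r => ?_⟩
  have hXr : (1 : ℝ) < X := by exact_mod_cast (show 1 < X by omega)
  have hX0' : (0 : ℝ) < X := by linarith
  have hL : 0 < Real.log X := Real.log_pos hXr
  have h1 := hCE E hE X (by omega) r
  have h2 := hX0 X (by omega)
  have e : (∑ n ∈ (Icc 1 X).filter (fun n => n % M = r % M), ind E n) / X - d E / M =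
      ((∑ n ∈ (Icc 1 X).filter (fun n => n % M = r % M), ind E n) - d E * X / M) / X := by
    field_simp
  rw [e, abs_div, abs_of_pos hX0', div_le_iff₀ hX0']
  refine h1.trans ?_
  rw [Real.rpow_neg hL.le] at h2
  rw [mul_div_right_comm, div_eq_mul_inv]
  exact mul_le_mul_of_nonneg_right h2.le hX0'.le

end Pool.Agent.Lib.MP_e43fce_nt_nat
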