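import Pool.Agent.Lib.MP_e43fce_nt_nat.AFin
import Pool.Agent.Lib.MP_e43fce_nt_nat.POS
import Pool.Agent.Lib.MP_e43fce_nt_nat.DensAlg

/-! AFinR: densities of almost invariant sets with rate, in residue classes, and the positivity of
the densities of predecessor sets. -/

set_option autoImplicit false

namespace Pool.Agent.Lib.MP_e43fce_nt_nat

open Finset

theorem ainv_of_encard {B : ℕ} {E : Set ℕ}
    (h : {n : ℕ | 0 < n ∧ ¬ (n ∈ E ↔ col n ∈ E)}.encard ≤ B) : AInv B E := by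
  classical
  have hfin : {n : ℕ | 0 < n ∧ ¬ (n ∈ E ↔ col n ∈ E)}.Finite :=
    Set.finite_of_encard_le_coe h
  refine ⟨hfin.toFinset, ?_, ?_⟩
  · have h1 : {n : ℕ | 0 < n ∧ ¬ (n ∈ E ↔ col n ∈ E)}.encard = (hfin.toFinset.card : ℕ∞) :=
      hfin.encard_eq_coe_toFinset_card
    rw [h1] at h
    exact_mod_cast h
  · intro n hn hnD
    by_contra hcon
    exact hnD (by rw [Set.Finite.mem_toFinset]; exact ⟨hn, hcon⟩)

theorem key_cnt (E : Set ℕ) (M X r : ℕ) :
    (((E ∩ {n | n % M = r % M}) ∩ Set.Icc 1 X).ncard : ℝ)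
      = ∑ n ∈ (Icc 1 X).filter (fun n => n % M = r % M), ind E n := by
  classical
  rw [show (((E ∩ {n | n % M = r % M}) ∩ Set.Icc 1 X).ncard : ℝ)
    = cnt (E ∩ {n | n % M = r % M}) X from rfl]
  rw [cnt_filter (E ∩ {n | n % M = r % M}) X
    (((Icc 1 X).filter (fun n => n % M = r % M)).filter (fun n => n ∈ E)) (by
      intro n
      simp only [Finset.mem_filter, Finset.mem_Icc, Set.mem_inter_iff, Set.mem_ofPred_eq]
      tauto), Finset.card_filter]
  push_cast
  refine Finset.sum_congr rfl (fun n _ => ?_)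
  unfold ind
  split_ifs <;> rfl

theorem fin_almost : ∃ (c c' : ℝ) (d : Set ℕ → ℝ), 0 < c ∧ 0 < c' ∧
    (∀ a : ℕ, 0 < a → ¬ 3 ∣ a → c' / a ≤ d {n | ∃ k : ℕ, col^[k] n = a}) ∧
    ∀ M B : ℕ, 1 ≤ M → ∃ K : ℝ, ∀ E : Set ℕ,
      {n : ℕ | 0 < n ∧ ¬ (n ∈ E ↔ col n ∈ E)}.encard ≤ B → ∀ X : ℕ, 2 ≤ X → ∀ r : ℕ,
      |(((E ∩ {n | n % M = r % M}) ∩ Set.Icc 1 X).ncard : ℝ) - d E * X / M|
        ≤ K * X / (Real.log X) ^ c := by
  classical
  obtain ⟨c, hc, -, d, hd⟩ := equi_rateA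
  obtain ⟨c', hc', hpos⟩ := pos_dens
  refine ⟨c, c', d, hc, hc', ?_, ?_⟩
  · intro a ha h3
    set E : Set ℕ := {n | ∃ k : ℕ, col^[k] n = a} with hEdef
    obtain ⟨C, hC0, hC⟩ := hd 1 le_rfl 1
    obtain ⟨X0, hX0⟩ := hpos a ha h3
    have hlim : Filter.Tendsto (fun X : ℕ => cnt E X / X) Filter.atTop (nhds (d E)) := by
      rw [tendsto_iff_norm_sub_tendsto_zero]
      have hlog : Filter.Tendsto (fun X : ℕ => C / (Real.log X) ^ c) Filter.atTop (nhds 0) := by
        refine Filter.Tendsto.div_atTop tendsto_const_nhds ?_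
        exact (tendsto_rpow_atTop hc).comp (Real.tendsto_log_atTop.comp tendsto_natCast_atTop_atTop)
      refine squeeze_zero' (Filter.Eventually.of_forall (fun X => norm_nonneg _)) ?_ hlog
      filter_upwards [Filter.eventually_ge_atTop 2] with X hX
      have h1 := hC E (pred_ainv a) X hX 0
      have hXpos : (0 : ℝ) < X := by
        have : 0 < X := by omega
        exact_mod_cast this
      have h2 : (∑ n ∈ (Icc 1 X).filter (fun n => n % 1 = 0 % 1), ind E n) = cnt E X := by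
        rw [← key_cnt E 1 X 0]
        unfold cnt
        congr 2
        ext n
        simp [Nat.mod_one]
      rw [h2] at h1
      rw [Real.norm_eq_abs]
      have h3 : cnt E X / X - d E = (cnt E X - d E * X / (1 : ℕ)) / X := by
        field_simp
        push_cast; ring
      rw [h3, abs_div, abs_of_pos hXpos, div_le_iff₀ hXpos]
      refine h1.trans (le_of_eq ?_)
      rw [div_mul_eq_mul_div]
    refine HasDens.ge (S := E) (T := E) (X0 := X0) ?_ (fun n _ h => h) hlim
    intro X hX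
    refine (hX0 X hX).trans (le_of_eq ?_)
    rw [cnt_filter]
    intro n
    simp only [Finset.mem_filter, Finset.mem_Icc, hEdef, Set.mem_ofPred_eq]
    tauto
  · intro M B hM
    obtain ⟨C, _, hC⟩ := hd M hM B
    refine ⟨C, fun E hE X hX r => ?_⟩
    rw [key_cnt]
    exact hC E (ainv_of_encard hE) X hX r

end Pool.Agent.Lib.MP_e43fce_nt_nat
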