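import Pool.Agent.Lib.MP_e43fce_nt_nat.REQ

/-! AIDefs: almost invariant sets (at most `B` positive integers violate the invariance); the
membership of a node differs from that of its root only for few roots. -/

set_option autoImplicit false

namespace Pool.Agent.Lib.MP_e43fce_nt_nat

open Finset

/-- almost invariant: at most `B` positive integers `n` violate `n ∈ E ↔ col n ∈ E` -/
def AInv (B : ℕ) (E : Set ℕ) : Prop :=
  ∃ D : Finset ℕ, D.card ≤ B ∧ ∀ n : ℕ, 0 < n → n ∉ D → (n ∈ E ↔ col n ∈ E)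

theorem IsInv.ainv {E : Set ℕ} (h : IsInv E) : AInv 0 E := ⟨∅, by simp, fun n hn _ => h n hn⟩

/-- the forward orbits of `D` during `L` steps -/
def fwd (D : Finset ℕ) (L : ℕ) : Finset ℕ :=
  D.biUnion (fun b => (range (L + 1)).image (fun i => col^[i] b))

theorem fwd_card (D : Finset ℕ) (L : ℕ) : (fwd D L).card ≤ D.card * (L + 1) := by
  unfold fwd
  refine Finset.card_biUnion_le.trans ?_
  refine (Finset.sum_le_sum (fun b _ => Finset.card_image_le)).trans ?_
  simp

theorem mem_fwd {D : Finset ℕ} {L b i : ℕ} (hb : b ∈ D) (hi : i ≤ L) : col^[i] b ∈ fwd D L := by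
  unfold fwd
  rw [Finset.mem_biUnion]
  exact ⟨b, hb, Finset.mem_image.2 ⟨i, Finset.mem_range.2 (by omega), rfl⟩⟩

theorem ainv_iter_aux {E : Set ℕ} {D : Finset ℕ}
    (h : ∀ n : ℕ, 0 < n → n ∉ D → (n ∈ E ↔ col n ∈ E)) (k : ℕ) : ∀ n : ℕ, 0 < n →
    (∀ j < k, col^[j] n ∉ D) → (n ∈ E ↔ col^[k] n ∈ E) := by
  induction k with
  | zero => intro n _ _; simp
  | succ k ih =>
    intro n hn hD
    rw [Function.iterate_succ_apply]
    refine (h n hn (hD 0 (by omega))).trans (ih (col n) (REQaux.col_pos hn) ?_)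
    intro j hj
    have := hD (j + 1) (by omega)
    rwa [Function.iterate_succ_apply] at this

/-- `k ≤ L` steps preserve the membership unless the end lies on the forward orbit of `D` -/
theorem ainv_iter {E : Set ℕ} {D : Finset ℕ}
    (h : ∀ n : ℕ, 0 < n → n ∉ D → (n ∈ E ↔ col n ∈ E)) {L k n : ℕ} (hn : 0 < n) (hk : k ≤ L)
    (hs : col^[k] n ∉ fwd D L) : n ∈ E ↔ col^[k] n ∈ E := by
  refine ainv_iter_aux h k n hn ?_
  intro j hj hD
  apply hs
  have h1 : col^[k] n = col^[k - j] (col^[j] n) := by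
    rw [← Function.iterate_add_apply]
    congr 1
    omega
  rw [h1]
  exact mem_fwd hD (by omega)

/-- nodes and roots: all roots outside a set of at most `B (4K+1)` numbers are as for invariant
sets -/
theorem ainv_ind {B : ℕ} {E : Set ℕ} (hE : AInv B E) (K : ℕ) : ∃ S : Finset ℕ,
    S.card ≤ B * (4 * K + 1) ∧ ∀ (s n : ℕ) (w : List ℕ), s % 2 = 1 → w.length = K →
      (∀ a ∈ w, 1 ≤ a) → w.sum ≤ 3 * K → adm s w → nd s w = (n : ℤ) → s ∉ S →
      ind E n = ind E s := by
  obtain ⟨D, hD, h⟩ := hE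
  refine ⟨fwd D (4 * K), (fwd_card D _).trans (Nat.mul_le_mul_right _ hD), ?_⟩
  intro s n w hs hl hw hsum had hn hsS
  have h1 := nd_col hs hw had hn
  have hn0 : 0 < n := by
    rcases Nat.eq_zero_or_pos n with h | h
    · subst h
      rw [REQaux.col_zero_iter] at h1
      omega
    · exact h
  have h2 := ainv_iter h hn0 (L := 4 * K) (k := w.length + w.sum) (by omega) (by rwa [h1])
  rw [h1] at h2
  exact REQaux.ind_eq h2

/-- multiplication by `2 ^ j` -/
theorem ainv_two {B : ℕ} {E : Set ℕ} (hE : AInv B E) (j : ℕ) : ∃ S : Finset ℕ,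
    S.card ≤ B * (j + 1) ∧ ∀ m : ℕ, 0 < m → m ∉ S → ind E (2 ^ j * m) = ind E m := by
  obtain ⟨D, hD, h⟩ := hE
  refine ⟨fwd D j, (fwd_card D _).trans (Nat.mul_le_mul_right _ hD), ?_⟩
  intro m hm hmS
  have h1 : ∀ j m : ℕ, col^[j] (2 ^ j * m) = m := by
    intro j
    induction j with
    | zero => intro m; simp
    | succ j ih =>
      intro m
      rw [Function.iterate_succ_apply]
      have : col (2 ^ (j + 1) * m) = 2 ^ j * m := by
        unfold col
        have h2 : 2 ^ (j + 1) * m = 2 * (2 ^ j * m) := by ring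
        rw [h2]
        simp
      rw [this]
      exact ih m
  have h2 := ainv_iter h (n := 2 ^ j * m) (by positivity) (L := j) (k := j) le_rfl
    (by rwa [h1 j m])
  rw [h1 j m] at h2
  exact REQaux.ind_eq h2

theorem terras_col_aux (a : ℕ) : ∀ b r : ℕ, 1 ≤ r → ∃ c r' L : ℕ, c ≤ a + b ∧ 1 ≤ r' ∧ L ≤ 2 * a ∧
    ∀ m : ℕ, col^[L] (r + 2 ^ a * 3 ^ b * m) = r' + 3 ^ c * m := by
  induction a with
  | zero =>
    intro b r hr
    exact ⟨b, r, 0, by omega, hr, by omega, fun m => by simp⟩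
  | succ a ih =>
    intro b r hr
    rcases Nat.even_or_odd' r with ⟨k, hk | hk⟩
    · obtain ⟨c, r', L, h1, h2, h3, h4⟩ := ih b k (by omega)
      refine ⟨c, r', L + 1, by omega, h2, by omega, fun m => ?_⟩
      have e : col (r + 2 ^ (a + 1) * 3 ^ b * m) = k + 2 ^ a * 3 ^ b * m := by
        have e1 : r + 2 ^ (a + 1) * 3 ^ b * m = 2 * (k + 2 ^ a * 3 ^ b * m) := by
          rw [hk]; ring
        rw [e1]
        unfold col
        simp
      rw [Function.iterate_succ_apply, e]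
      exact h4 m
    · obtain ⟨c, r', L, h1, h2, h3, h4⟩ := ih (b + 1) (3 * k + 2) (by omega)
      refine ⟨c, r', L + 2, by omega, h2, by omega, fun m => ?_⟩
      have e : col (col (r + 2 ^ (a + 1) * 3 ^ b * m)) = 3 * k + 2 + 2 ^ a * 3 ^ (b + 1) * m := by
        have e1 : r + 2 ^ (a + 1) * 3 ^ b * m = 2 * (k + 2 ^ a * 3 ^ b * m) + 1 := by
          rw [hk]; ring
        have e2 : 3 * k + 2 + 2 ^ a * 3 ^ (b + 1) * m = 3 * (k + 2 ^ a * 3 ^ b * m) + 2 := by ring
        rw [e1, e2]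
        generalize k + 2 ^ a * 3 ^ b * m = y
        have e3 : col (2 * y + 1) = 2 * (3 * y + 2) := by
          unfold col
          have h1 : ¬ (2 * y + 1) % 2 = 0 := by omega
          simp only [h1, if_false]
          omega
        rw [e3]
        unfold col
        simp
      rw [Function.iterate_succ_apply, Function.iterate_succ_apply, e]
      exact h4 m

/-- Terras: on a residue class modulo `2 ^ a` some number `L ≤ 2 a` of steps is affine -/
theorem terras_col (a r : ℕ) (hr : 1 ≤ r) : ∃ c r' L : ℕ, c ≤ a ∧ 1 ≤ r' ∧ L ≤ 2 * a ∧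
    ∀ m : ℕ, col^[L] (r + 2 ^ a * m) = r' + 3 ^ c * m := by
  obtain ⟨c, r', L, h1, h2, h3, h4⟩ := terras_col_aux a 0 r hr
  refine ⟨c, r', L, by omega, h2, h3, fun m => ?_⟩
  have := h4 m
  simpa using this

/-- `terras_inv` for almost invariant sets; `c`, `r'` depend on `a`, `r` only -/
theorem ainv_terras (a r : ℕ) (hr : 1 ≤ r) : ∃ c r' : ℕ, c ≤ a ∧ 1 ≤ r' ∧
    ∀ (B : ℕ) (E : Set ℕ), AInv B E → ∃ S : Finset ℕ, S.card ≤ B * (2 * a + 1) ∧
      ∀ m : ℕ, r' + 3 ^ c * m ∉ S → ind E (r + 2 ^ a * m) = ind E (r' + 3 ^ c * m) := by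
  obtain ⟨c, r', L, h1, h2, h3, h4⟩ := terras_col a r hr
  refine ⟨c, r', h1, h2, ?_⟩
  rintro B E ⟨D, hD, h⟩
  refine ⟨fwd D (2 * a), (fwd_card D _).trans (Nat.mul_le_mul_right _ hD), ?_⟩
  intro m hm
  have h5 := ainv_iter h (n := r + 2 ^ a * m) (by omega) h3 (by rwa [h4 m])
  rw [h4 m] at h5
  exact REQaux.ind_eq h5

/-- the predecessor set of a number is almost invariant with one exception -/
theorem pred_ainv (a : ℕ) : AInv 1 {n | ∃ k : ℕ, col^[k] n = a} := by
  refine ⟨{a}, by simp, ?_⟩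
  intro n _ hna
  rw [Finset.mem_singleton] at hna
  constructor
  · rintro ⟨k, hk⟩
    rcases Nat.eq_zero_or_pos k with h | h
    · subst h
      exact absurd hk hna
    · refine ⟨k - 1, ?_⟩
      rw [← Function.iterate_succ_apply (f := col)]
      rwa [show (k - 1).succ = k by omega]
  · rintro ⟨k, hk⟩
    exact ⟨k + 1, by rw [Function.iterate_succ_apply]; exact hk⟩

end Pool.Agent.Lib.MP_e43fce_nt_nat
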