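import Pool.Agent.Lib.MP_e43fce_nt_nat.REQ

/-! Section 6: the structure Ren. -/

set_option autoImplicit false

namespace Pool.Agent.Lib.MP_e43fce_nt_nat

open Finset

/-! ### real bounds -/

theorem h34_rpow_scale {x z : ℝ} (hx : 0 < x) (hz : x / 16 ≤ z) :
    z ^ (-(1 / 4) : ℝ) ≤ 2 * x ^ (-(1 / 4) : ℝ) := by
  have h1 : z ^ (-(1 / 4) : ℝ) ≤ (x / 16) ^ (-(1 / 4) : ℝ) :=
    Real.rpow_le_rpow_of_nonpos (by positivity) hz (by norm_num)
  refine h1.trans (le_of_eq ?_)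
  rw [Real.div_rpow hx.le (by norm_num)]
  have h16 : (16 : ℝ) ^ (-(1 / 4) : ℝ) = 1 / 2 := by
    have : (16 : ℝ) = 2 ^ (4 : ℝ) := by norm_num
    rw [this, ← Real.rpow_mul (by norm_num)]
    norm_num
  rw [h16]
  ring

theorem h34_rpow_quarter_pow {x : ℝ} (hx : 0 < x) : x ^ (-(1 / 4) : ℝ) * x ^ (1 / 4 : ℝ) = 1 := by
  rw [← Real.rpow_add hx]
  norm_num

/-- `a ≤ C x^(-1/4)` from `a^4 x ≤ C^4` -/
theorem h34_le_rpow_of_pow {x a C : ℝ} (hx : 0 < x) (_ha : 0 ≤ a) (hC : 0 ≤ C)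
    (h : a ^ 4 * x ≤ C ^ 4) : a ≤ C * x ^ (-(1 / 4) : ℝ) := by
  have h1 : 0 ≤ x ^ (1 / 4 : ℝ) := by positivity
  have h4 : (x ^ (1 / 4 : ℝ)) ^ 4 = x := by
    rw [← Real.rpow_natCast, ← Real.rpow_mul hx.le]
    norm_num
  have h2 : a * x ^ (1 / 4 : ℝ) ≤ C := by
    have h3 : (a * x ^ (1 / 4 : ℝ)) ^ 4 ≤ C ^ 4 := by
      rw [mul_pow, h4]; exact h
    exact le_of_pow_le_pow_left₀ (by norm_num) hC h3
  have h5 : 0 ≤ x ^ (-(1 / 4) : ℝ) := by positivity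
  calc a = a * x ^ (1 / 4 : ℝ) * x ^ (-(1 / 4) : ℝ) := by
        rw [mul_assoc, mul_comm (x ^ (1 / 4 : ℝ)), h34_rpow_quarter_pow hx, mul_one]
    _ ≤ C * x ^ (-(1 / 4) : ℝ) := mul_le_mul_of_nonneg_right h2 h5

theorem h34_poly_two_pow (n : ℕ) : n * (n + 1) ^ 2 ≤ 7 * 2 ^ n := by
  rcases Nat.lt_or_ge n 4 with h | h
  · interval_cases n <;> norm_num
  · induction n, h using Nat.le_induction with
    | base => norm_num
    | succ n hn ih =>
      have e1 : 7 * 2 ^ (n + 1) = 2 * (7 * 2 ^ n) := by ring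
      have e2 : (n + 1) * (n + 1 + 1) ^ 2 ≤ 2 * (n * (n + 1) ^ 2) := by
        have e3 : (n + 1 + 1) ^ 2 ≤ 2 * n * (n + 1) := by nlinarith
        calc (n + 1) * (n + 1 + 1) ^ 2 ≤ (n + 1) * (2 * n * (n + 1)) := Nat.mul_le_mul_left _ e3
          _ = 2 * (n * (n + 1) ^ 2) := by ring
      rw [e1]
      exact e2.trans (Nat.mul_le_mul_left 2 ih)

theorem h34_i1_pow_le (K : ℕ) : i1 K ^ 8 ≤ K := by
  unfold i1
  have h1 := Nat.sqrt_le' K
  have h2 := Nat.sqrt_le' (Nat.sqrt K)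
  have h3 := Nat.sqrt_le' (Nat.sqrt (Nat.sqrt K))
  calc Nat.sqrt (Nat.sqrt (Nat.sqrt K)) ^ 8 = ((Nat.sqrt (Nat.sqrt (Nat.sqrt K)) ^ 2) ^ 2) ^ 2 := by
        ring
    _ ≤ ((Nat.sqrt (Nat.sqrt K)) ^ 2) ^ 2 := by gcongr
    _ ≤ (Nat.sqrt K) ^ 2 := by gcongr
    _ ≤ K := h1

theorem h34_i1_pow_gt (K : ℕ) : K + 1 ≤ (i1 K + 1) ^ 8 := by
  unfold i1
  have h1 : Nat.sqrt K + 1 ≤ (Nat.sqrt (Nat.sqrt K) + 1) ^ 2 := by
    have := Nat.lt_succ_sqrt' (Nat.sqrt K)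
    rw [Nat.succ_eq_add_one] at this
    omega
  have h0 : K + 1 ≤ (Nat.sqrt K + 1) ^ 2 := by
    have := Nat.lt_succ_sqrt' K
    rw [Nat.succ_eq_add_one] at this
    omega
  have h2 : Nat.sqrt (Nat.sqrt K) + 1 ≤ (Nat.sqrt (Nat.sqrt (Nat.sqrt K)) + 1) ^ 2 := by
    have := Nat.lt_succ_sqrt' (Nat.sqrt (Nat.sqrt K))
    rw [Nat.succ_eq_add_one] at this
    omega
  calc K + 1 ≤ (Nat.sqrt K + 1) ^ 2 := h0
    _ ≤ ((Nat.sqrt (Nat.sqrt K) + 1) ^ 2) ^ 2 := by gcongr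
    _ ≤ (((Nat.sqrt (Nat.sqrt (Nat.sqrt K)) + 1) ^ 2) ^ 2) ^ 2 := by gcongr
    _ = (Nat.sqrt (Nat.sqrt (Nat.sqrt K)) + 1) ^ 8 := by ring

/-- the term `i 2^-i` for `i = i1 K` -/
theorem h34_i1_term {x : ℝ} (hx : 0 < x) {K : ℕ} (hK : x / 10 ≤ K) :
    (i1 K : ℝ) / 2 ^ (i1 K) ≤ 14 * x ^ (-(1 / 4) : ℝ) := by
  apply h34_le_rpow_of_pow hx (by positivity) (by norm_num)
  set n := i1 K with hn
  have h1 : (K : ℝ) + 1 ≤ ((n : ℝ) + 1) ^ 8 := by exact_mod_cast h34_i1_pow_gt K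
  have h2 : (n : ℝ) * ((n : ℝ) + 1) ^ 2 ≤ 7 * 2 ^ n := by exact_mod_cast h34_poly_two_pow n
  have h3 : x ≤ 16 * ((n : ℝ) + 1) ^ 8 := by
    have h8 : 0 ≤ ((n : ℝ) + 1) ^ 8 := by positivity
    nlinarith
  have hp : (0 : ℝ) < 2 ^ n := by positivity
  have h4 : ((n : ℝ) / 2 ^ n) ^ 4 * x ≤ ((n : ℝ) / 2 ^ n) ^ 4 * (16 * ((n : ℝ) + 1) ^ 8) :=
    mul_le_mul_of_nonneg_left h3 (by positivity)
  refine h4.trans ?_
  have h5 : (n : ℝ) * ((n : ℝ) + 1) ^ 2 / 2 ^ n ≤ 7 := by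
    rw [div_le_iff₀ hp]; exact h2
  have h6 : ((n : ℝ) / 2 ^ n) ^ 4 * (16 * ((n : ℝ) + 1) ^ 8)
      = (2 * ((n : ℝ) * ((n : ℝ) + 1) ^ 2 / 2 ^ n)) ^ 4 := by
    field_simp
    ring
  rw [h6]
  have h7 : 2 * ((n : ℝ) * ((n : ℝ) + 1) ^ 2 / 2 ^ n) ≤ 14 := by linarith
  exact pow_le_pow_left₀ (by positivity) h7 4

theorem h34_exp_term {x : ℝ} (hx : 0 < x) : Real.exp (-(x / 11000)) ≤ 11 * x ^ (-(1 / 4) : ℝ) := by
  apply h34_le_rpow_of_pow hx (Real.exp_pos _).le (by norm_num)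
  have h1 : x / 11000 ≤ Real.exp (x / 11000) := by
    have := Real.add_one_le_exp (x / 11000)
    linarith
  have h2 : Real.exp (-(x / 11000)) ^ 4 * x ≤ Real.exp (-(x / 11000)) * x := by
    apply mul_le_mul_of_nonneg_right _ hx.le
    have h3 : Real.exp (-(x / 11000)) ≤ 1 := by
      rw [Real.exp_le_one_iff]; linarith [div_pos hx (by norm_num : (0:ℝ) < 11000)]
    exact pow_le_of_le_one (Real.exp_pos _).le h3 (by norm_num)
  refine h2.trans ?_
  rw [Real.exp_neg]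
  have h4 : 0 < Real.exp (x / 11000) := Real.exp_pos _
  have h5 : (Real.exp (x / 11000))⁻¹ * x ≤ 11000 := by
    rw [inv_mul_le_iff₀ h4]
    linarith
  linarith

/-! ### the window -/

theorem h34_mem_win {e : ℝ} {K A : ℕ} : A ∈ win e K ↔ A < 3 * K + 1 ∧ |(A : ℝ) - 2 * K| ≤ e * K := by
  unfold win
  simp

theorem h34_zz_ge {x : ℝ} {K A : ℕ} (hK : (K : ℝ) ≤ 3 * x / 10) (hA : A ∈ win (1 / 10) K) :
    4 / 5 * x ≤ zz x K A := by
  rw [h34_mem_win] at hA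
  obtain ⟨-, h⟩ := hA
  rw [abs_le] at h
  unfold zz
  have hl2 := Real.log_two_lt_d9
  have hl2' := Real.log_two_gt_d9
  have hl3 : 3 * Real.log 2 ≤ 2 * Real.log 3 := by
    have : Real.log (2 ^ 3) ≤ Real.log (3 ^ 2) := Real.log_le_log (by norm_num) (by norm_num)
    rw [Real.log_pow, Real.log_pow] at this
    exact_mod_cast this
  have hK0 : (0 : ℝ) ≤ K := Nat.cast_nonneg K
  have h1 : (A : ℝ) * Real.log 2 ≤ (21 / 10 * K) * Real.log 2 :=
    mul_le_mul_of_nonneg_right (by linarith [h.2]) (by linarith)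
  have h2 : (K : ℝ) * (3 / 2 * Real.log 2) ≤ K * Real.log 3 :=
    mul_le_mul_of_nonneg_left (by linarith) hK0
  have h3 : (K : ℝ) * Real.log 2 ≤ K * 0.6931471808 :=
    mul_le_mul_of_nonneg_left hl2.le hK0
  nlinarith

theorem h34_win_subset {K N : ℕ} (hK : 1 ≤ K) (hN : 3 * K ≤ N) : win (1 / 10) K ⊆ range N := by
  intro A hA
  rw [h34_mem_win] at hA
  obtain ⟨-, h⟩ := hA
  rw [abs_le] at h
  rw [mem_range]
  have hK1 : (1 : ℝ) ≤ K := by exact_mod_cast hK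
  have h1 : (A : ℝ) < 3 * K := by linarith [h.2]
  have h2 : A < 3 * K := by exact_mod_cast h1
  omega

theorem h34_win_tail {K : ℕ} (N : ℕ) (hK : 1 ≤ K) :
    ∑ A ∈ range N \ win (1 / 10) K, rho K A ≤ 2 * Real.exp (-(K / 1100 : ℝ)) := by
  have hK1 : (1 : ℝ) ≤ K := by exact_mod_cast hK
  have h1 := rho_lower (e := 1 / 10) (by norm_num) (by norm_num) K N
  have h2 := rho_upper (e := 1 / 10) (by norm_num) (by norm_num) K N
  have hsub : range N \ win (1 / 10) K ⊆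
      (range N).filter (fun A : ℕ => (A : ℝ) ≤ (2 - 1 / 10) * K) ∪
      (range N).filter (fun A : ℕ => (2 + 1 / 10) * K ≤ (A : ℝ)) := by
    intro A hA
    rw [mem_sdiff, h34_mem_win, mem_range] at hA
    rw [mem_union, mem_filter, mem_filter, mem_range]
    by_cases hlow : (A : ℝ) ≤ (2 - 1 / 10) * K
    · exact Or.inl ⟨hA.1, hlow⟩
    · right
      refine ⟨hA.1, ?_⟩
      push Not at hlow
      by_contra hup
      push Not at hup
      apply hA.2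
      have h3 : (A : ℝ) < 3 * K := by nlinarith
      have h4 : A < 3 * K := by exact_mod_cast h3
      refine ⟨by omega, ?_⟩
      rw [abs_le]
      constructor <;> nlinarith
  calc ∑ A ∈ range N \ win (1 / 10) K, rho K A
      ≤ ∑ A ∈ (range N).filter (fun A : ℕ => (A : ℝ) ≤ (2 - 1 / 10) * K) ∪
          (range N).filter (fun A : ℕ => (2 + 1 / 10) * K ≤ (A : ℝ)), rho K A :=
        Finset.sum_le_sum_of_subset_of_nonneg hsub (fun A _ _ => rho_nonneg K A)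
    _ ≤ ∑ A ∈ (range N).filter (fun A : ℕ => (A : ℝ) ≤ (2 - 1 / 10) * K), rho K A +
          ∑ A ∈ (range N).filter (fun A : ℕ => (2 + 1 / 10) * K ≤ (A : ℝ)), rho K A := by
        rw [← Finset.sum_union_inter]
        have : 0 ≤ ∑ A ∈ (range N).filter (fun A : ℕ => (A : ℝ) ≤ (2 - 1 / 10) * K) ∩
          (range N).filter (fun A : ℕ => (2 + 1 / 10) * K ≤ (A : ℝ)), rho K A :=
          Finset.sum_nonneg (fun A _ => rho_nonneg K A)
        linarith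
    _ ≤ Real.exp (-((1 / 10) ^ 2 * K / 4)) + Real.exp (-((1 / 10) ^ 2 * K / 11)) := add_le_add h1 h2
    _ ≤ Real.exp (-(K / 1100 : ℝ)) + Real.exp (-(K / 1100 : ℝ)) := by
        apply add_le_add
        · apply Real.exp_le_exp.2
          linarith
        · apply Real.exp_le_exp.2
          linarith
    _ = 2 * Real.exp (-(K / 1100 : ℝ)) := by ring

theorem h34_win_sum_le (K : ℕ) : ∑ A ∈ win (1 / 10) K, rho K A ≤ 1 := by
  refine le_trans ?_ (rho_sum_le K (3 * K + 1))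
  apply Finset.sum_le_sum_of_subset_of_nonneg
  · unfold win
    exact Finset.filter_subset _ _
  · intro A _ _
    exact rho_nonneg K A

theorem h34_ind_unitp (E : Set ℕ) : Unit01 (ind E) := by
  intro n
  unfold ind
  split <;> norm_num

/-- the depth does not matter -/
theorem h34_depth_change : ∃ C x1 : ℝ, 0 ≤ C ∧ 1 ≤ x1 ∧ ∀ E : Set ℕ, IsInv E → ∀ x : ℝ, x1 ≤ x →
    ∀ K A : ℕ, x / 10 ≤ (K : ℝ) → (K : ℝ) ≤ 3 * x / 10 → A ∈ win (1 / 10) K →
      |DD (i1 K) (ind E) (zz x K A) - DD 0 (ind E) (zz x K A)| ≤ C * x ^ (-(1 / 4) : ℝ) := by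
  obtain ⟨C, x0, hC, hx0, h⟩ := R_eq
  refine ⟨20 * C, max 100 (2 * x0), by positivity, le_trans (by norm_num) (le_max_left _ _), ?_⟩
  intro E hE x hx K A hK1 hK2 hA
  have hx100 : 100 ≤ x := le_trans (le_max_left _ _) hx
  have hx2 : 2 * x0 ≤ x := le_trans (le_max_right _ _) hx
  have hz := h34_zz_ge hK2 hA
  set z := zz x K A with hzdef
  have hz80 : 80 ≤ z := by linarith
  have hzx0 : x0 ≤ z := by linarith
  set K' := ⌊z / 5⌋₊ with hK'
  have hK'1 : (K' : ℝ) ≤ z / 5 := Nat.floor_le (by linarith)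
  have hK'2 : z / 5 < K' + 1 := Nat.lt_floor_add_one _
  have hi : (i1 K) ^ 2 ≤ K' := by
    have h8 := h34_i1_pow_le K
    set m := (i1 K) ^ 2 with hm
    have h8' : m ^ 4 ≤ K := by
      rw [hm, ← pow_mul]; exact h8
    have h8r : (m : ℝ) ^ 4 ≤ K := by exact_mod_cast h8'
    have : (m : ℝ) ≤ K' := by
      by_cases hm1 : m ≤ 1
      · have : (m : ℝ) ≤ 1 := by exact_mod_cast hm1
        linarith
      · have hm2 : (2 : ℝ) ≤ m := by
          have : 2 ≤ m := by omega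
          exact_mod_cast this
        have h84 : 8 * (m : ℝ) ≤ (m : ℝ) ^ 4 := by
          have h3 : (8 : ℝ) ≤ (m : ℝ) ^ 3 := by
            calc (8 : ℝ) = 2 ^ 3 := by norm_num
              _ ≤ (m : ℝ) ^ 3 := pow_le_pow_left₀ (by norm_num) hm2 3
          have : (m : ℝ) ^ 4 = (m : ℝ) ^ 3 * m := by ring
          rw [this]
          nlinarith
        linarith
    exact_mod_cast this
  have ha := h E hE z hzx0 K' (i1 K) (by linarith) (by linarith) hi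
  have hb := h E hE z hzx0 K' 0 (by linarith) (by linarith) (by simp)
  have hc : z ^ (-(1 / 4) : ℝ) ≤ 2 * x ^ (-(1 / 4) : ℝ) := h34_rpow_scale (by linarith) (by linarith)
  have hd : (i1 K : ℝ) / 2 ^ (i1 K) ≤ 14 * x ^ (-(1 / 4) : ℝ) := h34_i1_term (by linarith) hK1
  have hsum := abs_sub_le (DD (i1 K) (ind E) z)
    (∑ A ∈ win (1 / 10) K', rho K' A * DD (i1 K') (ind E) (zz z K' A)) (DD 0 (ind E) z)
  rw [abs_sub_comm (∑ A ∈ win (1 / 10) K', rho K' A * DD (i1 K') (ind E) (zz z K' A))] at hsum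
  simp only [Nat.cast_zero, zero_div, add_zero] at hb
  have hx4 : 0 ≤ x ^ (-(1 / 4) : ℝ) := by positivity
  calc |DD (i1 K) (ind E) z - DD 0 (ind E) z| ≤ _ := hsum
    _ ≤ C * (z ^ (-(1 / 4) : ℝ) + i1 K / 2 ^ i1 K) + C * z ^ (-(1 / 4) : ℝ) := add_le_add ha hb
    _ ≤ 20 * C * x ^ (-(1 / 4) : ℝ) := by nlinarith

/-- (REN) packed in the structure `Ren` -/
theorem ren_of_inv : ∃ C x0 : ℝ, ∀ E : Set ℕ, IsInv E → Ren (DD 0 (ind E)) C x0 := by
  obtain ⟨C, x0, hC, hx0, h⟩ := R_eq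
  obtain ⟨C1, x1, hC1, hx1, h1⟩ := h34_depth_change
  refine ⟨C + C1 + 22, max 10 (max x0 x1), fun E hE => ?_⟩
  have hu := h34_ind_unitp E
  refine ⟨fun x => DD_nonneg hu x, fun x => DD0_le_one hu x, fun x t ht => DD0_mono hu x t ht,
    fun x t ht => DD0_lip hu x t ht, ?_⟩
  intro x hx K N hK1 hK2 hN
  have hx10 : 10 ≤ x := le_trans (le_max_left _ _) hx
  have hxx0 : x0 ≤ x := le_trans (le_trans (le_max_left _ _) (le_max_right _ _)) hx
  have hxx1 : x1 ≤ x := le_trans (le_trans (le_max_right _ _) (le_max_right _ _)) hx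
  have hK : 1 ≤ K := by
    have : (1 : ℝ) ≤ K := by linarith
    exact_mod_cast this
  have hx4 : 0 ≤ x ^ (-(1 / 4) : ℝ) := by positivity
  -- split
  have hsub := h34_win_subset hK hN
  have hz : ∀ A : ℕ, x + K * Real.log 3 - A * Real.log 2 = zz x K A := fun A => rfl
  simp only [hz]
  rw [← Finset.sum_sdiff hsub]
  have ha := h E hE x hxx0 K 0 hK1 hK2 (by simp)
  simp only [Nat.cast_zero, zero_div, add_zero] at ha
  have hb : |∑ A ∈ win (1 / 10) K, rho K A * DD (i1 K) (ind E) (zz x K A) -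
      ∑ A ∈ win (1 / 10) K, rho K A * DD 0 (ind E) (zz x K A)| ≤ C1 * x ^ (-(1 / 4) : ℝ) := by
    rw [← Finset.sum_sub_distrib]
    calc |∑ A ∈ win (1 / 10) K, (rho K A * DD (i1 K) (ind E) (zz x K A) -
          rho K A * DD 0 (ind E) (zz x K A))|
        ≤ ∑ A ∈ win (1 / 10) K, |rho K A * DD (i1 K) (ind E) (zz x K A) -
          rho K A * DD 0 (ind E) (zz x K A)| := Finset.abs_sum_le_sum_abs _ _
      _ ≤ ∑ A ∈ win (1 / 10) K, rho K A * (C1 * x ^ (-(1 / 4) : ℝ)) := by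
          apply Finset.sum_le_sum
          intro A hA
          rw [← mul_sub, abs_mul, abs_of_nonneg (rho_nonneg K A)]
          exact mul_le_mul_of_nonneg_left (h1 E hE x hxx1 K A hK1 hK2 hA) (rho_nonneg K A)
      _ = (∑ A ∈ win (1 / 10) K, rho K A) * (C1 * x ^ (-(1 / 4) : ℝ)) := by
          rw [Finset.sum_mul]
      _ ≤ 1 * (C1 * x ^ (-(1 / 4) : ℝ)) :=
          mul_le_mul_of_nonneg_right (h34_win_sum_le K) (by positivity)
      _ = C1 * x ^ (-(1 / 4) : ℝ) := by ring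
  have hc0 : 0 ≤ ∑ A ∈ range N \ win (1 / 10) K, rho K A * DD 0 (ind E) (zz x K A) :=
    Finset.sum_nonneg (fun A _ => mul_nonneg (rho_nonneg K A) (DD_nonneg hu _))
  have hc : ∑ A ∈ range N \ win (1 / 10) K, rho K A * DD 0 (ind E) (zz x K A)
      ≤ 22 * x ^ (-(1 / 4) : ℝ) := by
    calc ∑ A ∈ range N \ win (1 / 10) K, rho K A * DD 0 (ind E) (zz x K A)
        ≤ ∑ A ∈ range N \ win (1 / 10) K, rho K A := by
          apply Finset.sum_le_sum
          intro A _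
          have h2 := DD0_le_one hu (zz x K A)
          have h3 := rho_nonneg K A
          nlinarith
      _ ≤ 2 * Real.exp (-(K / 1100 : ℝ)) := h34_win_tail N hK
      _ ≤ 2 * Real.exp (-(x / 11000)) := by
          have : Real.exp (-(K / 1100 : ℝ)) ≤ Real.exp (-(x / 11000)) := by
            apply Real.exp_le_exp.2
            linarith
          linarith
      _ ≤ 2 * (11 * x ^ (-(1 / 4) : ℝ)) := by
          have := h34_exp_term (x := x) (by linarith)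
          linarith
      _ = 22 * x ^ (-(1 / 4) : ℝ) := by ring
  rw [abs_le] at ha hb ⊢
  constructor <;> nlinarith [ha.1, ha.2, hb.1, hb.2]

end Pool.Agent.Lib.MP_e43fce_nt_nat
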