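import Pool.Agent.Lib.MP_e43fce_nt_nat.AReq
import Pool.Agent.Lib.MP_e43fce_nt_nat.REN

/-! ARen: `ren_of_inv` for almost invariant sets. -/

set_option autoImplicit false

namespace Pool.Agent.Lib.MP_e43fce_nt_nat

open Finset

/-- the depth does not matter -/
theorem h34_depth_changeA (B : ℕ) : ∃ C x1 : ℝ, 0 ≤ C ∧ 1 ≤ x1 ∧ ∀ E : Set ℕ, AInv B E → ∀ x : ℝ, x1 ≤ x →
    ∀ K A : ℕ, x / 10 ≤ (K : ℝ) → (K : ℝ) ≤ 3 * x / 10 → A ∈ win (1 / 10) K →
      |DD (i1 K) (ind E) (zz x K A) - DD 0 (ind E) (zz x K A)| ≤ C * x ^ (-(1 / 4) : ℝ) := by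
  obtain ⟨C, x0, hC, hx0, h⟩ := R_eqA B
  refine ⟨20 * C, max 100 (2 * x0), by positivity, le_trans (by norm_num) (le_max_left _ _), ?_⟩
  intro E hE x hx K A hK1 hK2 hA
  have hx100 : 100 ≤ x := le_trans (le_max_left _ _) hx
  have hx2 : 2 * x0 ≤ x := le_trans (le_max_right _ _) hx
  have hz := h34_zz_ge hK2 hA
  set z := zz x K A with hzdef
  have hz80 : 80 ≤ z := by linarith
  have hzx0 : x0 ≤ z := by linarith
  set K' := ⌊z / 5⌋₊ with hK'
  have hK'1 : (K' : ℝ) ≤ z / 5 := Nat.floor_le (by linarith)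
  have hK'2 : z / 5 < K' + 1 := Nat.lt_floor_add_one _
  have hi : (i1 K) ^ 2 ≤ K' := by
    have h8 := h34_i1_pow_le K
    set m := (i1 K) ^ 2 with hm
    have h8' : m ^ 4 ≤ K := by
      rw [hm, ← pow_mul]; exact h8
    have h8r : (m : ℝ) ^ 4 ≤ K := by exact_mod_cast h8'
    have : (m : ℝ) ≤ K' := by
      by_cases hm1 : m ≤ 1
      · have : (m : ℝ) ≤ 1 := by exact_mod_cast hm1
        linarith
      · have hm2 : (2 : ℝ) ≤ m := by
          have : 2 ≤ m := by omega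
          exact_mod_cast this
        have h84 : 8 * (m : ℝ) ≤ (m : ℝ) ^ 4 := by
          have h3 : (8 : ℝ) ≤ (m : ℝ) ^ 3 := by
            calc (8 : ℝ) = 2 ^ 3 := by norm_num
              _ ≤ (m : ℝ) ^ 3 := pow_le_pow_left₀ (by norm_num) hm2 3
          have : (m : ℝ) ^ 4 = (m : ℝ) ^ 3 * m := by ring
          rw [this]
          nlinarith
        linarith
    exact_mod_cast this
  have ha := h E hE z hzx0 K' (i1 K) (by linarith) (by linarith) hi
  have hb := h E hE z hzx0 K' 0 (by linarith) (by linarith) (by simp)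
  have hc : z ^ (-(1 / 4) : ℝ) ≤ 2 * x ^ (-(1 / 4) : ℝ) := h34_rpow_scale (by linarith) (by linarith)
  have hd : (i1 K : ℝ) / 2 ^ (i1 K) ≤ 14 * x ^ (-(1 / 4) : ℝ) := h34_i1_term (by linarith) hK1
  have hsum := abs_sub_le (DD (i1 K) (ind E) z)
    (∑ A ∈ win (1 / 10) K', rho K' A * DD (i1 K') (ind E) (zz z K' A)) (DD 0 (ind E) z)
  rw [abs_sub_comm (∑ A ∈ win (1 / 10) K', rho K' A * DD (i1 K') (ind E) (zz z K' A))] at hsum
  simp only [Nat.cast_zero, zero_div, add_zero] at hb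
  have hx4 : 0 ≤ x ^ (-(1 / 4) : ℝ) := by positivity
  calc |DD (i1 K) (ind E) z - DD 0 (ind E) z| ≤ _ := hsum
    _ ≤ C * (z ^ (-(1 / 4) : ℝ) + i1 K / 2 ^ i1 K) + C * z ^ (-(1 / 4) : ℝ) := add_le_add ha hb
    _ ≤ 20 * C * x ^ (-(1 / 4) : ℝ) := by nlinarith

/-- (REN) packed in the structure `Ren` -/
theorem ren_of_ainv (B : ℕ) : ∃ C x0 : ℝ, ∀ E : Set ℕ, AInv B E → Ren (DD 0 (ind E)) C x0 := by
  obtain ⟨C, x0, hC, hx0, h⟩ := R_eqA B
  obtain ⟨C1, x1, hC1, hx1, h1⟩ := h34_depth_changeA B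
  refine ⟨C + C1 + 22, max 10 (max x0 x1), fun E hE => ?_⟩
  have hu := h34_ind_unitp E
  refine ⟨fun x => DD_nonneg hu x, fun x => DD0_le_one hu x, fun x t ht => DD0_mono hu x t ht,
    fun x t ht => DD0_lip hu x t ht, ?_⟩
  intro x hx K N hK1 hK2 hN
  have hx10 : 10 ≤ x := le_trans (le_max_left _ _) hx
  have hxx0 : x0 ≤ x := le_trans (le_trans (le_max_left _ _) (le_max_right _ _)) hx
  have hxx1 : x1 ≤ x := le_trans (le_trans (le_max_right _ _) (le_max_right _ _)) hx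
  have hK : 1 ≤ K := by
    have : (1 : ℝ) ≤ K := by linarith
    exact_mod_cast this
  have hx4 : 0 ≤ x ^ (-(1 / 4) : ℝ) := by positivity
  -- split
  have hsub := h34_win_subset hK hN
  have hz : ∀ A : ℕ, x + K * Real.log 3 - A * Real.log 2 = zz x K A := fun A => rfl
  simp only [hz]
  rw [← Finset.sum_sdiff hsub]
  have ha := h E hE x hxx0 K 0 hK1 hK2 (by simp)
  simp only [Nat.cast_zero, zero_div, add_zero] at ha
  have hb : |∑ A ∈ win (1 / 10) K, rho K A * DD (i1 K) (ind E) (zz x K A) -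
      ∑ A ∈ win (1 / 10) K, rho K A * DD 0 (ind E) (zz x K A)| ≤ C1 * x ^ (-(1 / 4) : ℝ) := by
    rw [← Finset.sum_sub_distrib]
    calc |∑ A ∈ win (1 / 10) K, (rho K A * DD (i1 K) (ind E) (zz x K A) -
          rho K A * DD 0 (ind E) (zz x K A))|
        ≤ ∑ A ∈ win (1 / 10) K, |rho K A * DD (i1 K) (ind E) (zz x K A) -
          rho K A * DD 0 (ind E) (zz x K A)| := Finset.abs_sum_le_sum_abs _ _
      _ ≤ ∑ A ∈ win (1 / 10) K, rho K A * (C1 * x ^ (-(1 / 4) : ℝ)) := by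
          apply Finset.sum_le_sum
          intro A hA
          rw [← mul_sub, abs_mul, abs_of_nonneg (rho_nonneg K A)]
          exact mul_le_mul_of_nonneg_left (h1 E hE x hxx1 K A hK1 hK2 hA) (rho_nonneg K A)
      _ = (∑ A ∈ win (1 / 10) K, rho K A) * (C1 * x ^ (-(1 / 4) : ℝ)) := by
          rw [Finset.sum_mul]
      _ ≤ 1 * (C1 * x ^ (-(1 / 4) : ℝ)) :=
          mul_le_mul_of_nonneg_right (h34_win_sum_le K) (by positivity)
      _ = C1 * x ^ (-(1 / 4) : ℝ) := by ring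
  have hc0 : 0 ≤ ∑ A ∈ range N \ win (1 / 10) K, rho K A * DD 0 (ind E) (zz x K A) :=
    Finset.sum_nonneg (fun A _ => mul_nonneg (rho_nonneg K A) (DD_nonneg hu _))
  have hc : ∑ A ∈ range N \ win (1 / 10) K, rho K A * DD 0 (ind E) (zz x K A)
      ≤ 22 * x ^ (-(1 / 4) : ℝ) := by
    calc ∑ A ∈ range N \ win (1 / 10) K, rho K A * DD 0 (ind E) (zz x K A)
        ≤ ∑ A ∈ range N \ win (1 / 10) K, rho K A := by
          apply Finset.sum_le_sum
          intro A _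
          have h2 := DD0_le_one hu (zz x K A)
          have h3 := rho_nonneg K A
          nlinarith
      _ ≤ 2 * Real.exp (-(K / 1100 : ℝ)) := h34_win_tail N hK
      _ ≤ 2 * Real.exp (-(x / 11000)) := by
          have : Real.exp (-(K / 1100 : ℝ)) ≤ Real.exp (-(x / 11000)) := by
            apply Real.exp_le_exp.2
            linarith
          linarith
      _ ≤ 2 * (11 * x ^ (-(1 / 4) : ℝ)) := by
          have := h34_exp_term (x := x) (by linarith)
          linarith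
      _ = 22 * x ^ (-(1 / 4) : ℝ) := by ring
  rw [abs_le] at ha hb ⊢
  constructor <;> nlinarith [ha.1, ha.2, hb.1, hb.2]

end Pool.Agent.Lib.MP_e43fce_nt_nat
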