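import Pool.Agent.Lib.MP_e43fce_nt_nat.AIDefs

/-! AReq: REQ for almost invariant sets. Copy of REQ.lean: `lemR` with `p = ind E` and
`q A s = ind E s` if `s ∉ S`, `1` if `s ∈ S` (`S` of `ainv_ind`, `card <= B (4K+1)`), so
`DD (i1 K) q z <= DD (i1 K) (ind E) z + 3^(i1 K) B (4K+1) / exp z`; same for `1 - ind E`. -/

set_option autoImplicit false

namespace Pool.Agent.Lib.MP_e43fce_nt_nat

open Finset

namespace AReqaux

open REQaux

/-- the weight `p` raised to `1` on `S` -/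
noncomputable def qS (S : Finset ℕ) (p : ℕ → ℝ) (n : ℕ) : ℝ := if n ∈ S then 1 else p n

theorem qS_unit {S : Finset ℕ} {p : ℕ → ℝ} (hp : Unit01 p) : Unit01 (qS S p) := by
  intro n
  unfold qS
  split_ifs
  · norm_num
  · exact hp n

theorem qS_DD (S : Finset ℕ) {p : ℕ → ℝ} (hp : Unit01 p) (i : ℕ) (x : ℝ) :
    DD i (qS S p) x ≤ DD i p x + 3 ^ i * S.card / Real.exp x := by
  unfold DD NN
  rw [← add_div]
  apply div_le_div_of_nonneg_right _ (Real.exp_pos x).le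
  have h1 : ∀ n ∈ oddS (Real.exp x), qS S p n * MM i n
      ≤ p n * MM i n + (if n ∈ S then MM i n else 0) := by
    intro n _
    have h2 := MM_nonneg i (n : ℤ)
    have h3 := (hp n).1
    unfold qS
    split_ifs
    · nlinarith
    · simp
  refine (Finset.sum_le_sum h1).trans ?_
  rw [Finset.sum_add_distrib]
  apply add_le_add le_rfl
  rw [← Finset.sum_filter]
  have h4 : ∑ n ∈ (oddS (Real.exp x)).filter (fun n => n ∈ S), MM i (n : ℤ)
      ≤ ∑ _n ∈ (oddS (Real.exp x)).filter (fun n => n ∈ S), (3 : ℝ) ^ i :=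
    Finset.sum_le_sum fun n _ => MM_le i n
  refine h4.trans ?_
  rw [Finset.sum_const, nsmul_eq_mul, mul_comm]
  apply mul_le_mul_of_nonneg_left _ (by positivity)
  have h5 : (oddS (Real.exp x)).filter (fun n => n ∈ S) ⊆ S := by
    intro n hn
    exact (Finset.mem_filter.1 hn).2
  exact_mod_cast Finset.card_le_card h5

theorem hypA {E : Set ℕ} {e : ℝ} {K : ℕ} {S : Finset ℕ} {p : ℕ → ℝ} (hp : Unit01 p)
    (h : ∀ (s n : ℕ) (w : List ℕ), s % 2 = 1 → w.length = K →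
      (∀ a ∈ w, 1 ≤ a) → w.sum ≤ 3 * K → adm s w → nd s w = (n : ℤ) → s ∉ S →
      ind E n = ind E s) (hpE : ∀ a b : ℕ, ind E a = ind E b → p a = p b) :
    RHyp e K p (fun _ => qS S p) := by
  intro s n hs w hw had hn
  dsimp only
  unfold qS
  split_ifs with hsS
  · exact (hp n).2
  · unfold Good at hw
    rw [Finset.mem_filter] at hw
    have h1 := (mem_words _ _ _).1 hw.1
    have h2 : w.sum ≤ 3 * K := by
      have := hw.2.1
      unfold win at this
      rw [Finset.mem_filter, Finset.mem_range] at this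
      omega
    exact (hpE _ _ (h s n w hs h1.1 (fun a ha => (h1.2 a ha).1) h2 had hn hsS)).le

theorem exp_small2 {x : ℝ} (hx : 1 ≤ x) : x * Real.exp (-(0.2 * x)) ≤ 50 * x ^ (-(1 / 4) : ℝ) := by
  have h1 : Real.exp (-(0.2 * x)) ≤ 50 / x ^ 2 := by
    rw [Real.exp_neg]
    have h2 : x ^ 2 / 50 ≤ Real.exp (0.2 * x) := by
      have := Real.quadratic_le_exp_of_nonneg (show 0 ≤ 0.2 * x by linarith)
      nlinarith
    rw [inv_le_comm₀ (Real.exp_pos _) (by positivity), inv_div]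
    exact h2
  have h2 : x * Real.exp (-(0.2 * x)) ≤ x * (50 / x ^ 2) :=
    mul_le_mul_of_nonneg_left h1 (by linarith)
  have h3 : x * (50 / x ^ 2) = 50 * x⁻¹ := by
    field_simp
  rw [h3] at h2
  refine h2.trans ?_
  apply mul_le_mul_of_nonneg_left _ (by norm_num)
  rw [← Real.rpow_neg_one]
  exact Real.rpow_le_rpow_of_exponent_le hx (by norm_num)

/-- the cost of the exceptional roots -/
theorem except {x : ℝ} (hx : 1 ≤ x) {B K A : ℕ} {S : Finset ℕ} (hS : S.card ≤ B * (4 * K + 1))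
    (hK2 : (K : ℝ) ≤ 3 * x / 10) (hA : A ∈ win (1 / 10) K) :
    (3 : ℝ) ^ (i1 K) * S.card / Real.exp (zz x K A) ≤ 110 * B * x ^ (-(1 / 4) : ℝ) := by
  have hz := zz_ge (by linarith) hK2 hA
  have h5 := three_pow_le hK2 (i1_sq K)
  have h6 : (S.card : ℝ) ≤ B * (2.2 * x) := by
    have h7 : (S.card : ℝ) ≤ B * (4 * K + 1) := by exact_mod_cast hS
    refine h7.trans ?_
    apply mul_le_mul_of_nonneg_left _ (Nat.cast_nonneg B)
    linarith
  have h8 : (3 : ℝ) ^ (i1 K) * S.card ≤ Real.exp (0.6 * x) * (B * (2.2 * x)) :=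
    mul_le_mul h5 h6 (Nat.cast_nonneg _) (Real.exp_pos _).le
  have h9 : Real.exp (0.6 * x) / Real.exp (zz x K A) ≤ Real.exp (-(0.2 * x)) := by
    rw [← Real.exp_sub]
    apply Real.exp_le_exp.2
    linarith
  calc (3 : ℝ) ^ (i1 K) * S.card / Real.exp (zz x K A)
      ≤ Real.exp (0.6 * x) * (B * (2.2 * x)) / Real.exp (zz x K A) :=
        div_le_div_of_nonneg_right h8 (Real.exp_pos _).le
    _ = (B * (2.2 * x)) * (Real.exp (0.6 * x) / Real.exp (zz x K A)) := by ring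
    _ ≤ (B * (2.2 * x)) * Real.exp (-(0.2 * x)) :=
        mul_le_mul_of_nonneg_left h9 (by positivity)
    _ = 2.2 * B * (x * Real.exp (-(0.2 * x))) := by ring
    _ ≤ 2.2 * B * (50 * x ^ (-(1 / 4) : ℝ)) :=
        mul_le_mul_of_nonneg_left (exp_small2 hx) (by positivity)
    _ = 110 * B * x ^ (-(1 / 4) : ℝ) := by ring

theorem rho_win_le (K : ℕ) : ∑ A ∈ win (1 / 10) K, rho K A ≤ 1 := by
  refine le_trans ?_ (rho_sum_le K (3 * K + 1))
  apply Finset.sum_le_sum_of_subset_of_nonneg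
  · unfold win; exact Finset.filter_subset _ _
  · intro A _ _; exact rho_nonneg K A

theorem sum_qS {x : ℝ} (hx : 1 ≤ x) {B K : ℕ} {S : Finset ℕ} (hS : S.card ≤ B * (4 * K + 1))
    (hK2 : (K : ℝ) ≤ 3 * x / 10) {p : ℕ → ℝ} (hp : Unit01 p) :
    ∑ A ∈ win (1 / 10) K, rho K A * DD (i1 K) (qS S p) (zz x K A)
      ≤ ∑ A ∈ win (1 / 10) K, rho K A * DD (i1 K) p (zz x K A)
        + 110 * B * x ^ (-(1 / 4) : ℝ) := by
  have hr : (0 : ℝ) ≤ x ^ (-(1 / 4) : ℝ) := Real.rpow_nonneg (by linarith) _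
  have h1 : ∀ A ∈ win (1 / 10) K, rho K A * DD (i1 K) (qS S p) (zz x K A)
      ≤ rho K A * DD (i1 K) p (zz x K A) + rho K A * (110 * B * x ^ (-(1 / 4) : ℝ)) := by
    intro A hA
    rw [← mul_add]
    apply mul_le_mul_of_nonneg_left _ (rho_nonneg K A)
    exact (qS_DD S hp (i1 K) (zz x K A)).trans (by linarith [except hx hS hK2 hA])
  refine (Finset.sum_le_sum h1).trans ?_
  rw [Finset.sum_add_distrib, ← Finset.sum_mul]
  have h2 : (∑ A ∈ win (1 / 10) K, rho K A) * (110 * B * x ^ (-(1 / 4) : ℝ))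
      ≤ 1 * (110 * B * x ^ (-(1 / 4) : ℝ)) :=
    mul_le_mul_of_nonneg_right (rho_win_le K) (by positivity)
  linarith

end AReqaux

open REQaux AReqaux

theorem R_eqA (B : ℕ) : ∃ C x0 : ℝ, 0 < C ∧ 1 ≤ x0 ∧ ∀ E : Set ℕ, AInv B E →
    ∀ x : ℝ, x0 ≤ x → ∀ K i : ℕ, x / 10 ≤ (K : ℝ) → (K : ℝ) ≤ 3 * x / 10 → i ^ 2 ≤ K →
      |DD i (ind E) x - ∑ A ∈ win (1 / 10) K, rho K A * DD (i1 K) (ind E) (zz x K A)|
        ≤ C * (x ^ (-(1 / 4) : ℝ) + i / 2 ^ i) := by
  obtain ⟨C1', x1, hC1', hx1, hR⟩ := lemR (e := 1 / 10) (by norm_num) (by norm_num)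
  set C1 : ℝ := C1' + 110 * B with hC1d
  have hC1 : 0 < C1 := by positivity
  refine ⟨C1 + 10, x1, by linarith, hx1, ?_⟩
  intro E hE x hx K i hK1 hK2 hi
  have hx1' : (1 : ℝ) ≤ x := hx1.trans hx
  obtain ⟨T, hTc, hTh⟩ := ainv_ind hE K
  have hU := hR x hx K i hK1 hK2 hi (ind E) (fun _ => qS T (ind E)) (ind_unit E)
    (fun _ => qS_unit (ind_unit E)) (hypA (ind_unit E) hTh (fun a b h => h))
  have hL := hR x hx K i hK1 hK2 hi (fun n => 1 - ind E n)
    (fun _ => qS T (fun n => 1 - ind E n))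
    (ind_unit' E) (fun _ => qS_unit (ind_unit' E)) (hypA (ind_unit' E) hTh (fun a b h => by
      rw [h]))
  have hU2 := sum_qS hx1' hTc hK2 (ind_unit E)
  have hL2 := sum_qS hx1' hTc hK2 (ind_unit' E)
  set S := ∑ A ∈ win (1 / 10) K, rho K A * DD (i1 K) (ind E) (zz x K A) with hS
  have hr : (0 : ℝ) ≤ x ^ (-(1 / 4) : ℝ) := Real.rpow_nonneg (by linarith) _
  have hi0 : (0 : ℝ) ≤ (i : ℝ) / 2 ^ i := by positivity
  -- the total mass
  have hT : ∑ A ∈ win (1 / 10) K, rho K A * DD (i1 K) (fun n => 1 - ind E n) (zz x K A)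
      ≤ 1 / 2 + 5 * x ^ (-(1 / 4) : ℝ) - S := by
    have h1 : ∀ A ∈ win (1 / 10) K, rho K A * DD (i1 K) (fun n => 1 - ind E n) (zz x K A)
        ≤ rho K A * (1 / 2 + 5 * x ^ (-(1 / 4) : ℝ)) - rho K A * DD (i1 K) (ind E) (zz x K A) := by
      intro A hA
      rw [DD_compl, ← mul_sub]
      apply mul_le_mul_of_nonneg_left _ (rho_nonneg K A)
      have hz := zz_ge (by linarith) hK2 hA
      have hz0 : 0 ≤ zz x K A := by linarith
      have h2 := (abs_le.1 (DD_one (i1 K) (zz x K A) hz0)).2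
      have h3 := mm_le_one (i1 K)
      have h4 : (3 : ℝ) ^ (i1 K) / Real.exp (zz x K A) ≤ 5 * x ^ (-(1 / 4) : ℝ) := by
        have h5 := three_pow_le hK2 (i1_sq K)
        calc (3 : ℝ) ^ (i1 K) / Real.exp (zz x K A)
            ≤ Real.exp (0.6 * x) / Real.exp (zz x K A) := by
              apply div_le_div_of_nonneg_right h5 (Real.exp_pos _).le
          _ = Real.exp (-(zz x K A - 0.6 * x)) := by
              rw [← Real.exp_sub]; congr 1; ring
          _ ≤ _ := exp_small hx1' (by linarith)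
      linarith
    have h2 := Finset.sum_le_sum h1
    rw [Finset.sum_sub_distrib, ← hS, ← Finset.sum_mul] at h2
    have h4 : (∑ A ∈ win (1 / 10) K, rho K A) * (1 / 2 + 5 * x ^ (-(1 / 4) : ℝ))
        ≤ 1 * (1 / 2 + 5 * x ^ (-(1 / 4) : ℝ)) :=
      mul_le_mul_of_nonneg_right (rho_win_le K) (by linarith)
    linarith
  have hB : 1 / 2 - (i : ℝ) / 2 ^ i - 5 * x ^ (-(1 / 4) : ℝ) ≤ DD i (fun _ => 1) x := by
    have h2 := (abs_le.1 (DD_one i x (by linarith))).1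
    have h3 := mm_ge i
    have h4 : (3 : ℝ) ^ i / Real.exp x ≤ 5 * x ^ (-(1 / 4) : ℝ) := by
      have h5 := three_pow_le hK2 hi
      calc (3 : ℝ) ^ i / Real.exp x
          ≤ Real.exp (0.6 * x) / Real.exp x := by
            apply div_le_div_of_nonneg_right h5 (Real.exp_pos _).le
        _ = Real.exp (-(x - 0.6 * x)) := by
            rw [← Real.exp_sub]; congr 1; ring
        _ ≤ _ := exp_small hx1' (by linarith)
    linarith
  rw [DD_compl] at hL
  rw [abs_le]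
  have hC : (C1 + 10) * (x ^ (-(1 / 4) : ℝ) + (i : ℝ) / 2 ^ i)
      = C1' * x ^ (-(1 / 4) : ℝ) + 110 * B * x ^ (-(1 / 4) : ℝ)
        + 10 * x ^ (-(1 / 4) : ℝ) + (C1 + 10) * ((i : ℝ) / 2 ^ i) := by
    rw [hC1d]
    ring
  have hCi : (i : ℝ) / 2 ^ i ≤ (C1 + 10) * ((i : ℝ) / 2 ^ i) := by
    nlinarith
  rw [hC]
  constructor
  · linarith
  · have : 0 ≤ (C1 + 10) * ((i : ℝ) / 2 ^ i) := by positivity
    linarith

end Pool.Agent.Lib.MP_e43fce_nt_nat
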