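import Pool.Agent.Lib.MP_e43fce_nt_nat.Defs4

/-! BDefs: definitions for the superpolynomial rate. -/

set_option autoImplicit false

namespace Pool.Agent.Lib.MP_e43fce_nt_nat

open Finset

/-- good words with the weaker bound `F w <= K^(2m) 2^A` -/
noncomputable def GoodB (e : ℝ) (m K : ℕ) : Finset (List ℕ) :=
  (words (3 * K) K).filter (fun w => w.sum ∈ win e K ∧ F w ≤ K ^ (2 * m) * 2 ^ w.sum)

/-- hypothesis of Lemma R for `GoodB` -/
def RHypB (e : ℝ) (m K : ℕ) (p : ℕ → ℝ) (q : ℕ → ℕ → ℝ) : Prop :=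
  ∀ s n : ℕ, s % 2 = 1 → ∀ w ∈ GoodB e m K, adm s w → nd s w = (n : ℤ) → p n ≤ q w.sum s

end Pool.Agent.Lib.MP_e43fce_nt_nat
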