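import Pool.Agent.Lib.MP_e43fce_nt_nat.Bad
import Pool.Agent.Lib.MP_e43fce_nt_nat.BDefs

/-! BBad: probability of bad words with exponent `m` (as Bad.lean, `T = K^(2m)`, phi_markov). -/

set_option autoImplicit false

namespace Pool.Agent.Lib.MP_e43fce_nt_nat

open Finset

/-- `exp(-c K) <= m! / (c K)^m` -/
theorem BBad_exp {c : ℝ} (hc : 0 < c) (m K : ℕ) (hK : 1 ≤ K) :
    Real.exp (-(c * K)) ≤ (m.factorial : ℝ) / c ^ m / (K : ℝ) ^ m := by
  have hK0 : (0 : ℝ) < K := by exact_mod_cast hK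
  have hcK : 0 < c * K := mul_pos hc hK0
  have h := Real.pow_div_factorial_le_exp (c * K) hcK.le m
  have hf : (0 : ℝ) < m.factorial := by exact_mod_cast Nat.factorial_pos m
  have hpos : 0 < (c * K) ^ m / (m.factorial : ℝ) := by positivity
  rw [Real.exp_neg]
  have h2 := inv_anti₀ hpos h
  refine h2.trans (le_of_eq ?_)
  rw [mul_pow]
  field_simp

theorem bad_probB {e : ℝ} (h0 : 0 < e) (h1 : e ≤ 1 / 10) (m : ℕ) : ∃ C : ℝ, 0 < C ∧ ∀ K : ℕ, 1 ≤ K →
    1 - ∑ w ∈ GoodB e m K, pr w ≤ C / (K : ℝ) ^ m := by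
  refine ⟨2 * ((m.factorial : ℝ) / (1 / 11) ^ m) + (m.factorial : ℝ) / (e ^ 2 / 4) ^ m
    + (m.factorial : ℝ) / (e ^ 2 / 11) ^ m + 11, by positivity, fun K hK => ?_⟩
  have hK0 : (0 : ℝ) < K := by exact_mod_cast hK
  have htot := rho_total (K := K) (N := 3 * K + 1) (by omega)
  have hexp1 := BBad_exp (c := 1 / 11) (by norm_num) m K hK
  have hexp2 := BBad_exp (c := e ^ 2 / 4) (by positivity) m K hK
  have hexp3 := BBad_exp (c := e ^ 2 / 11) (by positivity) m K hK
  have hlow := rho_lower (e := e) h0 (by linarith) K (3 * K + 1)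
  have hup := rho_upper (e := e) h0 (by linarith) K (3 * K + 1)
  have e1 : Real.exp (-(K / 11 : ℝ)) = Real.exp (-(1 / 11 * K)) := by congr 1; ring
  have e2 : Real.exp (-(e ^ 2 * K / 4)) = Real.exp (-(e ^ 2 / 4 * K)) := by congr 1; ring
  have e3 : Real.exp (-(e ^ 2 * K / 11)) = Real.exp (-(e ^ 2 / 11 * K)) := by congr 1; ring
  rw [e1] at htot
  rw [e2] at hlow
  rw [e3] at hup
  -- Chernoff
  have hcher : ∑ A ∈ (range (3 * K + 1)).filter (fun A : ℕ => ¬ |(A : ℝ) - 2 * K| ≤ e * K), rho K A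
      ≤ Real.exp (-(e ^ 2 / 4 * K)) + Real.exp (-(e ^ 2 / 11 * K)) := by
    refine le_trans ?_ (add_le_add hlow hup)
    rw [← Finset.sum_filter_add_sum_filter_not
      ((range (3 * K + 1)).filter (fun A : ℕ => ¬ |(A : ℝ) - 2 * K| ≤ e * K))
      (fun A : ℕ => (A : ℝ) ≤ (2 - e) * K) (fun A => rho K A)]
    refine add_le_add ?_ ?_
    · refine Finset.sum_le_sum_of_subset_of_nonneg ?_ (fun A _ _ => rho_nonneg K A)
      intro A hA
      simp only [Finset.mem_filter] at hA ⊢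
      exact ⟨hA.1.1, hA.2⟩
    · refine Finset.sum_le_sum_of_subset_of_nonneg ?_ (fun A _ _ => rho_nonneg K A)
      intro A hA
      simp only [Finset.mem_filter, not_le] at hA ⊢
      refine ⟨hA.1.1, ?_⟩
      have hb := hA.1.2
      have hc := hA.2
      rcases le_abs.mp hb.le with h | h
      · linarith
      · exfalso
        linarith
  have hwin : ∑ A ∈ win e K, rho K A = ∑ A ∈ range (3 * K + 1), rho K A
      - ∑ A ∈ (range (3 * K + 1)).filter (fun A : ℕ => ¬ |(A : ℝ) - 2 * K| ≤ e * K), rho K A := by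
    unfold win
    rw [← Finset.sum_filter_add_sum_filter_not (range (3 * K + 1))
      (fun A : ℕ => |(A : ℝ) - 2 * K| ≤ e * K) (fun A => rho K A)]
    ring
  have hwords : ∑ w ∈ (words (3 * K) K).filter (fun w => w.sum ∈ win e K), pr w
      = ∑ A ∈ win e K, rho K A := by
    rw [← Finset.sum_fiberwise_of_maps_to (s := (words (3 * K) K).filter (fun w => w.sum ∈ win e K))
      (t := win e K) (g := fun w => w.sum) (fun w hw => (Finset.mem_filter.mp hw).2)]
    refine Finset.sum_congr rfl (fun A hA => ?_)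
    have hA3 : A ≤ 3 * K := by
      unfold win at hA
      have := Finset.mem_range.mp (Finset.mem_filter.mp hA).1
      omega
    rw [← rho_words (L := 3 * K) (K := K) hA3, Finset.filter_filter]
    refine Finset.sum_congr ?_ (fun _ _ => rfl)
    ext w
    simp only [Finset.mem_filter]
    constructor
    · rintro ⟨h1, _, h2⟩
      exact ⟨h1, h2⟩
    · rintro ⟨h1, h2⟩
      exact ⟨h1, by rw [h2]; exact hA, h2⟩
  -- Markov
  have hmark := phi_markov (3 * K) K (K ^ (2 * m)) (Nat.one_le_pow _ _ (by omega))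
  have hsq : Real.sqrt ((K ^ (2 * m) : ℕ) : ℝ) = (K : ℝ) ^ m := by
    push_cast
    rw [show (K : ℝ) ^ (2 * m) = ((K : ℝ) ^ m) ^ 2 by rw [← pow_mul]; ring_nf]
    exact Real.sqrt_sq (by positivity)
  rw [hsq] at hmark
  have hsplit : ∑ w ∈ (words (3 * K) K).filter (fun w => w.sum ∈ win e K), pr w
      ≤ ∑ w ∈ GoodB e m K, pr w
        + ∑ w ∈ (words (3 * K) K).filter (fun w => K ^ (2 * m) * 2 ^ w.sum < F w), pr w := by
    rw [← Finset.sum_filter_add_sum_filter_not
      ((words (3 * K) K).filter (fun w => w.sum ∈ win e K))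
      (fun w => F w ≤ K ^ (2 * m) * 2 ^ w.sum) pr]
    refine add_le_add (le_of_eq ?_) ?_
    · unfold GoodB
      rw [Finset.filter_filter]
    · refine Finset.sum_le_sum_of_subset_of_nonneg ?_ (fun w _ _ => (BAD_pr_pos w).le)
      intro w hw
      simp only [Finset.mem_filter] at hw ⊢
      exact ⟨hw.1.1, not_le.mp hw.2⟩
  rw [hwords, hwin] at hsplit
  have hgoal : (2 * ((m.factorial : ℝ) / (1 / 11) ^ m) + (m.factorial : ℝ) / (e ^ 2 / 4) ^ m
      + (m.factorial : ℝ) / (e ^ 2 / 11) ^ m + 11) / (K : ℝ) ^ m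
      = 2 * ((m.factorial : ℝ) / (1 / 11) ^ m / (K : ℝ) ^ m)
        + (m.factorial : ℝ) / (e ^ 2 / 4) ^ m / (K : ℝ) ^ m
        + (m.factorial : ℝ) / (e ^ 2 / 11) ^ m / (K : ℝ) ^ m + 11 / (K : ℝ) ^ m := by
    ring
  rw [hgoal]
  linarith

theorem goodB_card {e : ℝ} (h0 : 0 < e) (h1 : e ≤ 1 / 10) (m K : ℕ) :
    ((GoodB e m K).card : ℝ) ≤ (2 : ℝ) ^ ((2 + e) * (K : ℝ)) := by
  have hlow : ∀ w ∈ GoodB e m K, (2 : ℝ) ^ (-((2 + e) * (K : ℝ))) ≤ pr w := by
    intro w hw
    unfold GoodB at hw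
    have hwin := (Finset.mem_filter.mp hw).2.1
    unfold win at hwin
    have habs := (Finset.mem_filter.mp hwin).2
    have hle : ((w.sum : ℕ) : ℝ) ≤ (2 + e) * K := by
      have := (abs_le.mp habs).2
      linarith
    unfold pr
    rw [one_div, ← Real.rpow_natCast, ← Real.rpow_neg (by norm_num)]
    exact Real.rpow_le_rpow_of_exponent_le (by norm_num) (by linarith)
  have hle1 : ∑ w ∈ GoodB e m K, pr w ≤ 1 := by
    refine le_trans ?_ (BAD_mass (3 * K) K)
    unfold GoodB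
    exact Finset.sum_le_sum_of_subset_of_nonneg (Finset.filter_subset _ _)
      (fun w _ _ => (BAD_pr_pos w).le)
  have hsum : ((GoodB e m K).card : ℝ) * (2 : ℝ) ^ (-((2 + e) * (K : ℝ))) ≤ 1 := by
    have h := Finset.sum_le_sum hlow
    rw [Finset.sum_const, nsmul_eq_mul] at h
    exact h.trans hle1
  have hp : (0 : ℝ) < (2 : ℝ) ^ ((2 + e) * (K : ℝ)) := by positivity
  rw [Real.rpow_neg (by norm_num), ← div_eq_mul_inv, div_le_one hp] at hsum
  exact hsum

end Pool.Agent.Lib.MP_e43fce_nt_nat
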