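import Pool.Agent.Lib.MP_e43fce_nt_nat.Count
import Pool.Agent.Lib.MP_e43fce_nt_nat.BDefs

/-! BCount: count_S12 for `GoodB`, `i = 0` (copy of Count.lean with `K^(2m)`). -/

set_option autoImplicit false

namespace Pool.Agent.Lib.MP_e43fce_nt_nat

open Finset

theorem cntB_sum_le (e : ℝ) (m K : ℕ) : ∑ w ∈ GoodB e m K, pr w ≤ 1 := by
  refine le_trans ?_ (BAD_mass (3 * K) K)
  unfold GoodB
  exact Finset.sum_le_sum_of_subset_of_nonneg (Finset.filter_subset _ _)
    (fun w _ _ => (BAD_pr_pos w).le)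

theorem cntB_good {e : ℝ} {m K : ℕ} {w : List ℕ} (hw : w ∈ GoodB e m K) :
    w ∈ words (3 * K) K ∧ w.length = K ∧ (∀ a ∈ w, 1 ≤ a) ∧ w.sum ∈ win e K ∧
      F w ≤ K ^ (2 * m) * 2 ^ w.sum := by
  unfold GoodB at hw
  rw [Finset.mem_filter] at hw
  obtain ⟨h1, h2, h3⟩ := hw
  have h4 := (mem_words _ _ _).1 h1
  exact ⟨h1, h4.1, fun a ha => (h4.2 a ha).1, h2, h3⟩

/-- the nodes up to `X` come from roots up to `Z + K ^ 2` -/
theorem cntB_upper {e : ℝ} {m K i : ℕ} {w : List ℕ} (hw : w ∈ GoodB e m K) {X : ℝ}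
    {p : ℕ → ℝ} {q : ℕ → ℕ → ℝ} (hq : ∀ A, Unit01 (q A)) (hR : RHypB e m K p q) :
    ∑ n ∈ (oddS X).filter (fun n => vw K n = w), p n * MM i (n : ℤ)
      ≤ ∑ s ∈ oddS (3 ^ K * X / 2 ^ w.sum + (K : ℝ) ^ (2 * m)),
          (if adm (s : ℤ) w then q w.sum s * MM i (nd s w) else 0) := by
  classical
  obtain ⟨_, hl, hpos, _, hF⟩ := cntB_good hw
  set S := (oddS X).filter (fun n => vw K n = w) with hS
  have hmem : ∀ n ∈ S, n % 2 = 1 ∧ (n : ℝ) ≤ X ∧ vw K n = w ∧ adm ((root K n : ℕ) : ℤ) w ∧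
      nd ((root K n : ℕ) : ℤ) w = n ∧ root K n % 2 = 1 := by
    intro n hn
    rw [hS, Finset.mem_filter, cnt_mem_oddS] at hn
    obtain ⟨⟨_, h2, h3⟩, h4⟩ := hn
    refine ⟨h3, h2, h4, ?_, ?_, root_odd K n h3⟩
    · have := vw_adm K n h3
      rwa [h4] at this
    · have := vw_nd K n h3
      rwa [h4] at this
  have hinj : Set.InjOn (fun n : ℕ => root K n) (S : Set ℕ) := by
    intro n hn n' hn' hnm
    obtain ⟨_, _, _, _, h1, _⟩ := hmem n hn
    obtain ⟨_, _, _, _, h2, _⟩ := hmem n' hn'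
    have h3 : root K n = root K n' := hnm
    rw [h3, h2] at h1
    exact_mod_cast h1.symm
  have h1 : ∑ n ∈ S, p n * MM i (n : ℤ)
      ≤ ∑ n ∈ S, (if adm ((root K n : ℕ) : ℤ) w then
          q w.sum (root K n) * MM i (nd ((root K n : ℕ) : ℤ) w) else 0) := by
    refine Finset.sum_le_sum fun n hn => ?_
    obtain ⟨_, _, _, h4, h5, h6⟩ := hmem n hn
    rw [if_pos h4, h5]
    exact mul_le_mul_of_nonneg_right (hR _ _ h6 w hw h4 h5) (MM_nonneg _ _)
  refine h1.trans ?_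
  rw [← Finset.sum_image (f := fun s : ℕ => (if adm ((s : ℕ) : ℤ) w then
          q w.sum s * MM i (nd ((s : ℕ) : ℤ) w) else 0)) hinj]
  refine Finset.sum_le_sum_of_subset_of_nonneg ?_ fun s _ _ => ?_
  · intro s hs
    rw [Finset.mem_image] at hs
    obtain ⟨n, hn, rfl⟩ := hs
    obtain ⟨_, h2, _, h4, h5, h6⟩ := hmem n hn
    rw [cnt_mem_oddS]
    refine ⟨by omega, ?_, h6⟩
    have h7 := cnt_nd_eqR h4
    rw [h5, hl] at h7
    push_cast at h7
    have h8 : (0 : ℝ) < 2 ^ w.sum := by positivity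
    have h9 : (0 : ℝ) < 3 ^ K := by positivity
    have h10 : (F w : ℝ) ≤ (K : ℝ) ^ (2 * m) * 2 ^ w.sum := by exact_mod_cast hF
    rw [div_add' _ _ _ h8.ne', le_div_iff₀ h8]
    nlinarith [mul_le_mul_of_nonneg_left h2 h9.le]
  · split_ifs
    · exact mul_nonneg (hq _ _).1 (MM_nonneg _ _)
    · exact le_rfl

theorem cntB_fiber {e : ℝ} {m K : ℕ} {X : ℝ} (g : ℕ → ℝ) :
    ∑ n ∈ (oddS X).filter (fun n => vw K n ∈ GoodB e m K), g n
      = ∑ w ∈ GoodB e m K, ∑ n ∈ (oddS X).filter (fun n => vw K n = w), g n := by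
  classical
  rw [← Finset.sum_fiberwise_of_maps_to (s := (oddS X).filter (fun n => vw K n ∈ GoodB e m K))
    (t := GoodB e m K) (g := fun n => vw K n) (fun n hn => (Finset.mem_filter.1 hn).2)]
  refine Finset.sum_congr rfl fun w hw => ?_
  congr 1
  rw [Finset.filter_filter]
  refine Finset.filter_congr fun n _ => ?_
  constructor
  · exact fun h => h.2
  · intro h
    exact ⟨by rw [h]; exact hw, h⟩

/-- S1 -/
theorem cntB_bad {e : ℝ} {m K i : ℕ} {X : ℝ} (hX : 0 < X) {p : ℕ → ℝ} (hp : Unit01 p) :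
    ∑ n ∈ (oddS X).filter (fun n => ¬ vw K n ∈ GoodB e m K), p n * MM i (n : ℤ)
      ≤ X / 2 * (1 - ∑ w ∈ GoodB e m K, pr w) + 3 ^ i * (1 + (GoodB e m K).card) := by
  classical
  have h1 : ∑ n ∈ (oddS X).filter (fun n => ¬ vw K n ∈ GoodB e m K), p n * MM i (n : ℤ)
      ≤ ∑ n ∈ (oddS X).filter (fun n => ¬ vw K n ∈ GoodB e m K), MM i (n : ℤ) := by
    refine Finset.sum_le_sum fun n _ => ?_
    exact mul_le_of_le_one_left (MM_nonneg _ _) (hp n).2
  have h2 : ∑ n ∈ (oddS X).filter (fun n => vw K n ∈ GoodB e m K), MM i (n : ℤ)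
      + ∑ n ∈ (oddS X).filter (fun n => ¬ vw K n ∈ GoodB e m K), MM i (n : ℤ)
      = ∑ n ∈ oddS X, MM i (n : ℤ) := Finset.sum_filter_add_sum_filter_not _ _ _
  have h3 : ∑ n ∈ oddS X, MM i (n : ℤ) ≤ (X / 2 + 3 ^ i) * mm i := by
    have h := odd_sum i (MM i) (MM_nonneg i) (MM_per i) X hX.le
    rw [MM_av, abs_le] at h
    linarith [h.2]
  have h4 : ∀ w ∈ GoodB e m K, (X / 2 * pr w - 3 ^ i) * mm i
      ≤ ∑ n ∈ (oddS X).filter (fun n => vw K n = w), MM i (n : ℤ) := by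
    intro w hw
    obtain ⟨_, hl, hpos, _, _⟩ := cntB_good hw
    refine le_trans ?_ (cnt_lower hl hpos (X := X) (MM i) (MM_nonneg i))
    set Z : ℝ := 3 ^ K * X / 2 ^ w.sum with hZ
    have hZ0 : 0 ≤ Z := by positivity
    have hwt : 0 < wt w := by unfold wt; positivity
    have h5 := odd_sum (w.length + i) (fun z => if adm z w then wt w * MM i (nd z w) else 0)
      (fun x => by
        show 0 ≤ if adm x w then wt w * MM i (nd x w) else 0
        split_ifs
        · exact mul_nonneg hwt.le (MM_nonneg _ _)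
        · exact le_rfl)
      (node_per w i (MM i) (MM_per i)) Z hZ0
    rw [Av_node w i (MM i) (MM_per i), MM_av, abs_le] at h5
    have h6 := h5.1
    have h7 : ∑ n ∈ oddS Z, (if adm ((n : ℕ) : ℤ) w then wt w * MM i (nd ((n : ℕ) : ℤ) w) else 0)
        = wt w * ∑ n ∈ oddS Z, (if adm ((n : ℕ) : ℤ) w then MM i (nd ((n : ℕ) : ℤ) w) else 0) := by
      rw [Finset.mul_sum]
      refine Finset.sum_congr rfl fun n _ => ?_
      split_ifs <;> ring
    rw [h7, hl] at h6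
    refine le_of_mul_le_mul_left ?_ hwt
    have h8 : wt w * ((X / 2 * pr w - 3 ^ i) * mm i)
        = Z / 2 * (pr w * mm i) - 3 ^ (K + i) * (pr w * mm i) := by
      rw [hZ]
      unfold wt pr
      rw [hl, pow_add]
      field_simp
    rw [h8]
    linarith
  have h9 : ∑ w ∈ GoodB e m K, (X / 2 * pr w - 3 ^ i) * mm i
      ≤ ∑ n ∈ (oddS X).filter (fun n => vw K n ∈ GoodB e m K), MM i (n : ℤ) := by
    rw [cntB_fiber (e := e) (m := m) (K := K) (X := X) (fun n => MM i (n : ℤ))]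
    exact Finset.sum_le_sum h4
  have h10 : ∑ w ∈ GoodB e m K, (X / 2 * pr w - 3 ^ i) * mm i
      = (X / 2 * ∑ w ∈ GoodB e m K, pr w - 3 ^ i * (GoodB e m K).card) * mm i := by
    rw [← Finset.sum_mul, Finset.sum_sub_distrib, ← Finset.mul_sum, Finset.sum_const,
      nsmul_eq_mul]
    ring
  have h11 : ∑ n ∈ (oddS X).filter (fun n => ¬ vw K n ∈ GoodB e m K), MM i (n : ℤ)
      ≤ (X / 2 * (1 - ∑ w ∈ GoodB e m K, pr w) + 3 ^ i * (1 + (GoodB e m K).card)) * mm i := by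
    rw [h10] at h9
    nlinarith
  refine h1.trans (h11.trans ?_)
  have h12 : 0 ≤ X / 2 * (1 - ∑ w ∈ GoodB e m K, pr w) + 3 ^ i * (1 + (GoodB e m K).card) := by
    have := cntB_sum_le e m K
    have h13 : 0 ≤ 1 - ∑ w ∈ GoodB e m K, pr w := by linarith
    positivity
  exact mul_le_of_le_one_right h12 (mm_le_one i)

/-- S2 -/
theorem cntB_main {e : ℝ} {m K i : ℕ} {X : ℝ} (hX : 0 < X)
    {p : ℕ → ℝ} {q : ℕ → ℕ → ℝ} (hq : ∀ A, Unit01 (q A)) (hR : RHypB e m K p q) :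
    ∑ n ∈ (oddS X).filter (fun n => vw K n ∈ GoodB e m K), p n * MM i (n : ℤ)
      ≤ ((K : ℝ) ^ (2 * m) + 1) * (GoodB e m K).card * 3 ^ i
      + ∑ A ∈ win e K, (2 : ℝ) ^ A / 3 ^ K *
          ∑ s ∈ oddS (3 ^ K * X / 2 ^ A), q A s *
            ∑ w ∈ (words (3 * K) K).filter (fun w => w.sum = A),
              if adm s w then wt w * MM i (nd s w) else 0 := by
  classical
  rw [cntB_fiber (e := e) (m := m) (K := K) (X := X) (fun n => p n * MM i (n : ℤ))]
  -- the term of one word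
  set H : List ℕ → ℝ := fun w => ∑ s ∈ oddS (3 ^ K * X / 2 ^ w.sum),
    (if adm (s : ℤ) w then q w.sum s * MM i (nd s w) else 0) with hH
  have hH0 : ∀ w, 0 ≤ H w := by
    intro w
    refine Finset.sum_nonneg fun s _ => ?_
    split_ifs
    · exact mul_nonneg (hq _ _).1 (MM_nonneg _ _)
    · exact le_rfl
  have h1 : ∀ w ∈ GoodB e m K, ∑ n ∈ (oddS X).filter (fun n => vw K n = w), p n * MM i (n : ℤ)
      ≤ H w + (K : ℝ) ^ (2 * m) * 3 ^ i := by
    intro w hw
    refine (cntB_upper hw hq hR).trans ?_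
    have h2 := cnt_split (3 ^ K * X / 2 ^ w.sum) (by positivity) (K ^ (2 * m)) (3 ^ i)
      (fun s => if adm (s : ℤ) w then q w.sum s * MM i (nd s w) else 0)
      (fun s => by
        show 0 ≤ if adm (s : ℤ) w then q w.sum s * MM i (nd s w) else 0
        split_ifs
        · exact mul_nonneg (hq _ _).1 (MM_nonneg _ _)
        · exact le_rfl)
      (fun s => by
        show (if adm (s : ℤ) w then q w.sum s * MM i (nd s w) else 0) ≤ 3 ^ i
        split_ifs
        · calc q w.sum s * MM i (nd s w) ≤ 1 * 3 ^ i :=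
              mul_le_mul (hq _ _).2 (MM_le _ _) (MM_nonneg _ _) zero_le_one
            _ = 3 ^ i := one_mul _
        · positivity)
    push_cast at h2
    exact h2
  have h2 : ∑ w ∈ GoodB e m K, ∑ n ∈ (oddS X).filter (fun n => vw K n = w), p n * MM i (n : ℤ)
      ≤ ∑ w ∈ GoodB e m K, H w + (GoodB e m K).card * ((K : ℝ) ^ (2 * m) * 3 ^ i) := by
    refine (Finset.sum_le_sum h1).trans ?_
    rw [Finset.sum_add_distrib, Finset.sum_const, nsmul_eq_mul]
  have h3 : ∑ w ∈ GoodB e m K, H w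
      ≤ ∑ A ∈ win e K, ∑ w ∈ (words (3 * K) K).filter (fun w => w.sum = A), H w := by
    rw [← Finset.sum_biUnion]
    · refine Finset.sum_le_sum_of_subset_of_nonneg ?_ fun w _ _ => hH0 w
      intro w hw
      obtain ⟨h4, _, _, h5, _⟩ := cntB_good hw
      rw [Finset.mem_biUnion]
      exact ⟨w.sum, h5, Finset.mem_filter.2 ⟨h4, rfl⟩⟩
    · intro A _ B _ hAB
      show Disjoint _ _
      rw [Finset.disjoint_left]
      intro w hw hw'
      exact hAB (by rw [← (Finset.mem_filter.1 hw).2, ← (Finset.mem_filter.1 hw').2])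
  have h4 : ∀ A ∈ win e K, ∑ w ∈ (words (3 * K) K).filter (fun w => w.sum = A), H w
      = (2 : ℝ) ^ A / 3 ^ K *
          ∑ s ∈ oddS (3 ^ K * X / 2 ^ A), q A s *
            ∑ w ∈ (words (3 * K) K).filter (fun w => w.sum = A),
              if adm s w then wt w * MM i (nd s w) else 0 := by
    intro A _
    have h5 : ∀ w ∈ (words (3 * K) K).filter (fun w => w.sum = A), H w
        = ∑ s ∈ oddS (3 ^ K * X / 2 ^ A), (2 : ℝ) ^ A / 3 ^ K * (q A s *
            if adm s w then wt w * MM i (nd s w) else 0) := by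
      intro w hw
      rw [Finset.mem_filter] at hw
      obtain ⟨hw1, hw2⟩ := hw
      have hl := ((mem_words _ _ _).1 hw1).1
      rw [hH]
      show ∑ s ∈ oddS (3 ^ K * X / 2 ^ w.sum), _ = _
      rw [hw2]
      refine Finset.sum_congr rfl fun s _ => ?_
      split_ifs
      · unfold wt
        rw [hl, hw2]
        field_simp
      · ring
    rw [Finset.sum_congr rfl h5, Finset.sum_comm, Finset.mul_sum]
    refine Finset.sum_congr rfl fun s _ => ?_
    rw [← Finset.mul_sum, ← Finset.mul_sum]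
  rw [Finset.sum_congr rfl h4] at h3
  have h6 : (0 : ℝ) ≤ (GoodB e m K).card * 3 ^ i := by positivity
  nlinarith

theorem countB {e : ℝ} (h0 : 0 < e) (h1 : e ≤ 1 / 10) {m K : ℕ} (hK : 1 ≤ K) {X : ℝ} (hX : 0 < X)
    {p : ℕ → ℝ} {q : ℕ → ℕ → ℝ} (hp : Unit01 p) (hq : ∀ A, Unit01 (q A)) (hR : RHypB e m K p q) :
    NN 0 p X ≤ X / 2 * (1 - ∑ w ∈ GoodB e m K, pr w) + (1 + (GoodB e m K).card)
      + ((K : ℝ) ^ (2 * m) + 1) * (GoodB e m K).card
      + ∑ A ∈ win e K, (2 : ℝ) ^ A / 3 ^ K *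
          ∑ s ∈ oddS (3 ^ K * X / 2 ^ A), q A s *
            ∑ w ∈ (words (3 * K) K).filter (fun w => w.sum = A),
              if adm s w then wt w else 0 := by
  classical
  have h2 : ∑ n ∈ (oddS X).filter (fun n => vw K n ∈ GoodB e m K), p n * MM 0 (n : ℤ)
      + ∑ n ∈ (oddS X).filter (fun n => ¬ vw K n ∈ GoodB e m K), p n * MM 0 (n : ℤ)
      = NN 0 p X := Finset.sum_filter_add_sum_filter_not _ _ _
  have h3 := cntB_bad (e := e) (m := m) (K := K) (i := 0) hX hp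
  have h4 := cntB_main (e := e) (m := m) (K := K) (i := 0) (X := X) hX hq hR
  have h5 : ∑ A ∈ win e K, (2 : ℝ) ^ A / 3 ^ K *
          ∑ s ∈ oddS (3 ^ K * X / 2 ^ A), q A s *
            ∑ w ∈ (words (3 * K) K).filter (fun w => w.sum = A),
              (if adm s w then wt w * MM 0 (nd s w) else 0)
      = ∑ A ∈ win e K, (2 : ℝ) ^ A / 3 ^ K *
          ∑ s ∈ oddS (3 ^ K * X / 2 ^ A), q A s *
            ∑ w ∈ (words (3 * K) K).filter (fun w => w.sum = A),
              if adm s w then wt w else 0 := by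
    refine Finset.sum_congr rfl fun A _ => ?_
    congr 1
    refine Finset.sum_congr rfl fun s _ => ?_
    congr 1
    refine Finset.sum_congr rfl fun w _ => ?_
    rw [MM_zero, mul_one]
  rw [h5] at h4
  rw [pow_zero, one_mul] at h3
  rw [pow_zero, mul_one] at h4
  linarith

end Pool.Agent.Lib.MP_e43fce_nt_nat
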