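import Pool.Agent.Lib.MP_e43fce_nt_nat.BCount
import Pool.Agent.Lib.MP_e43fce_nt_nat.BBad
import Pool.Agent.Lib.MP_e43fce_nt_nat.S4

/-! BMid: Lemma R before the total variation step, with error `C / x^B` (as LemR.lean: countB with
`m = B`, bad_probB, step_S4 with a large exponent, `j = i1 K`). -/

set_option autoImplicit false

namespace Pool.Agent.Lib.MP_e43fce_nt_nat

open Finset

/-- the main term of Lemma R before S5 -/
noncomputable def mainB (e : ℝ) (K : ℕ) (q : ℕ → ℕ → ℝ) (x : ℝ) : ℝ :=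
  (∑ A ∈ win e K, (2 : ℝ) ^ A / 3 ^ K * ∑ s ∈ oddS (3 ^ K * Real.exp x / 2 ^ A), q A s *
    ∑ u ∈ words (3 * K) (i1 K), (if adm s u then wt u * rho (K - i1 K) (A - u.sum) else 0))
    / Real.exp x

theorem midB_i1_pow (K : ℕ) : i1 K ^ 8 ≤ K := by
  have h1 := Nat.sqrt_le' K
  have h2 := Nat.sqrt_le' (Nat.sqrt K)
  have h3 := Nat.sqrt_le' (Nat.sqrt (Nat.sqrt K))
  calc i1 K ^ 8 = ((i1 K ^ 2) ^ 2) ^ 2 := by ring
    _ ≤ (Nat.sqrt (Nat.sqrt K) ^ 2) ^ 2 :=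
        Nat.pow_le_pow_left (Nat.pow_le_pow_left h3 2) 2
    _ ≤ Nat.sqrt K ^ 2 := Nat.pow_le_pow_left h2 2
    _ ≤ K := h1

theorem midB_lt_i1 (K : ℕ) : K < (i1 K + 1) ^ 8 := by
  have h1 := Nat.lt_succ_sqrt' K
  have h2 := Nat.lt_succ_sqrt' (Nat.sqrt K)
  have h3 := Nat.lt_succ_sqrt' (Nat.sqrt (Nat.sqrt K))
  have h2' : Nat.sqrt K + 1 ≤ (Nat.sqrt (Nat.sqrt K) + 1) ^ 2 := h2
  have h3' : Nat.sqrt (Nat.sqrt K) + 1 ≤ (i1 K + 1) ^ 2 := h3
  calc K < (Nat.sqrt K + 1) ^ 2 := h1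
    _ ≤ ((Nat.sqrt (Nat.sqrt K) + 1) ^ 2) ^ 2 := Nat.pow_le_pow_left h2' 2
    _ ≤ (((i1 K + 1) ^ 2) ^ 2) ^ 2 := Nat.pow_le_pow_left (Nat.pow_le_pow_left h3' 2) 2
    _ = (i1 K + 1) ^ 8 := by ring

theorem midB_win {e : ℝ} {K A : ℕ} (hA : A ∈ win e K) : A ≤ 3 * K ∧ (A : ℝ) ≤ (2 + e) * K := by
  rw [win, mem_filter, mem_range] at hA
  refine ⟨by omega, ?_⟩
  have := (abs_le.1 hA.2).2
  linarith

theorem midB_size {e : ℝ} (h1 : e ≤ 1 / 10) {x : ℝ} (hx : 0 ≤ x) {K : ℕ}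
    (hK : (K : ℝ) ≤ 3 * x / 10) : (2 : ℝ) ^ ((2 + e) * (K : ℝ)) ≤ Real.exp (0.44 * x) := by
  have hl2 := Real.log_two_lt_d9
  have hl2' := Real.log_two_gt_d9
  rw [Real.rpow_def_of_pos (by norm_num)]
  apply Real.exp_le_exp.2
  have hK0 : (0 : ℝ) ≤ K := Nat.cast_nonneg K
  have h5 : (2 + e) * (K : ℝ) ≤ 2.1 * (3 * x / 10) := by nlinarith
  have h6 : Real.log 2 * ((2 + e) * K) ≤ Real.log 2 * (2.1 * (3 * x / 10)) :=
    mul_le_mul_of_nonneg_left h5 (by linarith)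
  have h7 : Real.log 2 * (2.1 * (3 * x / 10)) ≤ 0.44 * x := by nlinarith
  linarith

theorem midB_exp (n : ℕ) {x : ℝ} (hx : 0 < x) :
    x ^ n * Real.exp (-(x / 2)) ≤ 2 ^ n * (n.factorial : ℝ) := by
  have h1 : (x / 2) ^ n / n.factorial ≤ Real.exp (x / 2) :=
    Real.pow_div_factorial_le_exp (x / 2) (by positivity) n
  have hf : (0 : ℝ) < n.factorial := by exact_mod_cast n.factorial_pos
  rw [div_le_iff₀ hf] at h1
  have h2 : Real.exp (x / 2) * Real.exp (-(x / 2)) = 1 := by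
    rw [← Real.exp_add]
    simp
  have h3 : 0 < Real.exp (-(x / 2)) := Real.exp_pos _
  have h4 := mul_le_mul_of_nonneg_right h1 h3.le
  have h5 : Real.exp (x / 2) * (n.factorial : ℝ) * Real.exp (-(x / 2)) = n.factorial := by
    calc Real.exp (x / 2) * (n.factorial : ℝ) * Real.exp (-(x / 2)) =
        (Real.exp (x / 2) * Real.exp (-(x / 2))) * n.factorial := by ring
      _ = n.factorial := by rw [h2, one_mul]
  rw [h5] at h4
  calc x ^ n * Real.exp (-(x / 2)) = 2 ^ n * ((x / 2) ^ n * Real.exp (-(x / 2))) := by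
        rw [div_pow]
        field_simp
    _ ≤ 2 ^ n * (n.factorial : ℝ) := mul_le_mul_of_nonneg_left h4 (by positivity)

/-- the errors which come from the number of good words -/
theorem midB_B {x X R c : ℝ} {k : ℝ} (B : ℕ) (hx : 20 ≤ x) (hX : X = Real.exp x) (hR : 1 ≤ R)
    (hk0 : 0 ≤ k) (hk : k ≤ 3 * x / 10) (hc : c ≤ R) (hs : R ≤ Real.exp (0.44 * x)) :
    (1 + c) + (k ^ (2 * B) + 1) * c ≤ X * (4 * (2 ^ (3 * B) * ((3 * B).factorial : ℝ)) / x ^ B) := by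
  have hx0 : 0 < x := by linarith
  have hX0 : 0 < X := by
    rw [hX]
    exact Real.exp_pos x
  have hk1 : k ^ (2 * B) ≤ x ^ (2 * B) := pow_le_pow_left₀ hk0 (by linarith) _
  have hx1 : (1 : ℝ) ≤ x ^ (2 * B) := one_le_pow₀ (by linarith)
  have hk2 : 0 ≤ k ^ (2 * B) := by positivity
  have h5 : (1 + c) + (k ^ (2 * B) + 1) * c ≤ 4 * x ^ (2 * B) * R := by
    have h6 : (k ^ (2 * B) + 1) * c ≤ (k ^ (2 * B) + 1) * R :=
      mul_le_mul_of_nonneg_left hc (by positivity)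
    have h7 : (k ^ (2 * B) + 1) * R ≤ (x ^ (2 * B) + x ^ (2 * B)) * R :=
      mul_le_mul_of_nonneg_right (by linarith) (by linarith)
    have h8 : R ≤ x ^ (2 * B) * R := by nlinarith
    nlinarith
  have h6 : R ≤ X * Real.exp (-(x / 2)) := by
    rw [hX, ← Real.exp_add]
    exact hs.trans (Real.exp_le_exp.2 (by linarith))
  have h7 := midB_exp (3 * B) hx0
  have h8 : x ^ (2 * B) * Real.exp (-(x / 2)) ≤ 2 ^ (3 * B) * ((3 * B).factorial : ℝ) / x ^ B := by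
    rw [le_div_iff₀ (by positivity)]
    calc x ^ (2 * B) * Real.exp (-(x / 2)) * x ^ B = x ^ (3 * B) * Real.exp (-(x / 2)) := by ring
      _ ≤ _ := h7
  calc (1 + c) + (k ^ (2 * B) + 1) * c ≤ 4 * x ^ (2 * B) * R := h5
    _ ≤ 4 * x ^ (2 * B) * (X * Real.exp (-(x / 2))) :=
        mul_le_mul_of_nonneg_left h6 (by positivity)
    _ = X * (4 * (x ^ (2 * B) * Real.exp (-(x / 2)))) := by ring
    _ ≤ X * (4 * (2 ^ (3 * B) * ((3 * B).factorial : ℝ) / x ^ B)) :=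
        mul_le_mul_of_nonneg_left (mul_le_mul_of_nonneg_left h8 (by norm_num)) hX0.le
    _ = _ := by ring

theorem midB {e : ℝ} (h0 : 0 < e) (h1 : e ≤ 1 / 10) (B : ℕ) : ∃ C x0 : ℝ, 0 < C ∧ 1 ≤ x0 ∧
    ∀ x : ℝ, x0 ≤ x → ∀ K : ℕ, x / 50 ≤ (K : ℝ) → (K : ℝ) ≤ 3 * x / 10 →
    ∀ (p : ℕ → ℝ) (q : ℕ → ℕ → ℝ), Unit01 p → (∀ A, Unit01 (q A)) → RHypB e B K p q →
      DD 0 p x ≤ mainB e K q x + C / x ^ B := by
  obtain ⟨Cb, hCb, hbad⟩ := bad_probB h0 h1 B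
  obtain ⟨C4, hC4, h4⟩ := step_S4 (8 * (B + 1))
  refine ⟨Cb * 50 ^ B + 4 * (2 ^ (3 * B) * ((3 * B).factorial : ℝ)) +
    C4 * (4 * 256 ^ (B + 1) * 50 ^ B), 100, by positivity, by norm_num, ?_⟩
  intro x hx K hK1 hK2 p q hp hq hR
  have hx0 : (0 : ℝ) < x := by linarith
  have hKr : (2 : ℝ) ≤ K := by linarith
  have hK : 2 ≤ K := by exact_mod_cast hKr
  have hK0 : (0 : ℝ) < K := by linarith
  have hKx : (K : ℝ) ≤ x := by linarith
  have hj8 := midB_i1_pow K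
  have hj8' := midB_lt_i1 K
  set j := i1 K with hj
  have hj1 : 1 ≤ j := by
    rcases Nat.eq_zero_or_pos j with h | h
    · rw [h] at hj8'
      norm_num at hj8'
      omega
    · exact h
  have hjK : j < K := by
    rcases Nat.lt_or_ge j 2 with h | h
    · omega
    · have h2 : 2 * j ≤ j ^ 8 := by
        calc 2 * j ≤ j * j := Nat.mul_le_mul_right j h
          _ = j ^ 2 := by ring
          _ ≤ j ^ 8 := Nat.pow_le_pow_right hj1 (by norm_num)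
      omega
  have hj0 : (0 : ℝ) < j := by exact_mod_cast hj1
  set X : ℝ := Real.exp x with hX
  have hX0 : 0 < X := Real.exp_pos x
  have hsize := midB_size h1 hx0.le hK2
  set R : ℝ := (2 : ℝ) ^ ((2 + e) * (K : ℝ)) with hRdef
  have hR1 : 1 ≤ R := Real.one_le_rpow (by norm_num) (by positivity)
  have hG : ((GoodB e B K).card : ℝ) ≤ R := goodB_card h0 h1 B K
  -- the window: sizes
  have hZ : ∀ A ∈ win e K, 2 * (3 : ℝ) ^ K ≤ 3 ^ K * X / 2 ^ A := by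
    intro A hA
    obtain ⟨-, hA2⟩ := midB_win hA
    rw [le_div_iff₀ (by positivity)]
    have h5 : (2 : ℝ) ^ A ≤ R := by
      rw [hRdef, ← Real.rpow_natCast]
      exact Real.rpow_le_rpow_of_exponent_le (by norm_num) hA2
    have h6 : 2 * R ≤ X := by
      have h8 : (2 : ℝ) ≤ Real.exp 1 := by
        have := Real.exp_one_gt_d9
        linarith
      calc 2 * R ≤ Real.exp 1 * Real.exp (0.44 * x) :=
            mul_le_mul h8 hsize (by linarith) (Real.exp_pos _).le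
        _ = Real.exp (1 + 0.44 * x) := (Real.exp_add _ _).symm
        _ ≤ X := Real.exp_le_exp.2 (by linarith)
    calc 2 * (3 : ℝ) ^ K * 2 ^ A = 3 ^ K * (2 * 2 ^ A) := by ring
      _ ≤ 3 ^ K * X := mul_le_mul_of_nonneg_left (by linarith) (by positivity)
  have hXA : ∀ A : ℕ, (2 : ℝ) ^ A / 3 ^ K * (3 ^ K * X / 2 ^ A) = X := by
    intro A
    field_simp
  have hcount := countB h0 h1 (m := B) (show 1 ≤ K by omega) hX0 hp hq hR
  have hsum : ∑ A ∈ win e K, (2 : ℝ) ^ A / 3 ^ K *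
          ∑ s ∈ oddS (3 ^ K * X / 2 ^ A), q A s *
            ∑ w ∈ (words (3 * K) K).filter (fun w => w.sum = A),
              (if adm s w then wt w else 0) ≤
      ∑ A ∈ win e K, ((2 : ℝ) ^ A / 3 ^ K * ∑ s ∈ oddS (3 ^ K * X / 2 ^ A), q A s *
        ∑ u ∈ words (3 * K) j, (if adm s u then wt u * rho (K - j) (A - u.sum) else 0) +
          X * (C4 / (j : ℝ) ^ (8 * (B + 1)))) := by
    apply sum_le_sum
    intro A hA
    have h6 := h4 K j A hj1 hjK (midB_win hA).1 (3 ^ K * X / 2 ^ A) (hZ A hA) (q A) (hq A)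
    have h8 := mul_le_mul_of_nonneg_left h6 (show (0 : ℝ) ≤ 2 ^ A / 3 ^ K by positivity)
    refine h8.trans (le_of_eq ?_)
    have h9 := hXA A
    set Z : ℝ := 3 ^ K * X / 2 ^ A with hZdef
    set c : ℝ := (2 : ℝ) ^ A / 3 ^ K with hc
    rw [mul_add]
    have h10 : c * (C4 * Z / (j : ℝ) ^ (8 * (B + 1))) = X * (C4 / (j : ℝ) ^ (8 * (B + 1))) := by
      rw [← h9]
      ring
    rw [h10]
  rw [sum_add_distrib, sum_const, nsmul_eq_mul] at hsum
  have hcard : ((win e K).card : ℝ) ≤ 3 * K + 1 := by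
    have : (win e K).card ≤ 3 * K + 1 := by
      refine (card_filter_le _ _).trans ?_
      rw [card_range]
    exact_mod_cast this
  have hxK : (1 : ℝ) / (K : ℝ) ^ B ≤ 50 ^ B / x ^ B := by
    rw [div_le_div_iff₀ (by positivity) (by positivity), one_mul, ← mul_pow]
    exact pow_le_pow_left₀ hx0.le (by linarith) B
  have herrC : ((win e K).card : ℝ) * (X * (C4 / (j : ℝ) ^ (8 * (B + 1)))) ≤
      X * (C4 * (4 * 256 ^ (B + 1) * 50 ^ B) / x ^ B) := by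
    have h2 : K ≤ 256 * j ^ 8 := by
      calc K ≤ (j + 1) ^ 8 := hj8'.le
        _ ≤ (2 * j) ^ 8 := Nat.pow_le_pow_left (by omega) 8
        _ = 256 * j ^ 8 := by ring
    have h3 : (K : ℝ) ≤ 256 * (j : ℝ) ^ 8 := by exact_mod_cast h2
    have h5 : (K : ℝ) ^ (B + 1) ≤ 256 ^ (B + 1) * (j : ℝ) ^ (8 * (B + 1)) := by
      calc (K : ℝ) ^ (B + 1) ≤ (256 * (j : ℝ) ^ 8) ^ (B + 1) := pow_le_pow_left₀ hK0.le h3 _
        _ = 256 ^ (B + 1) * (j : ℝ) ^ (8 * (B + 1)) := by rw [mul_pow, ← pow_mul]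
    have h6 : C4 / (j : ℝ) ^ (8 * (B + 1)) ≤ C4 * 256 ^ (B + 1) / (K : ℝ) ^ (B + 1) := by
      rw [div_le_div_iff₀ (by positivity) (by positivity)]
      calc C4 * (K : ℝ) ^ (B + 1) ≤ C4 * (256 ^ (B + 1) * (j : ℝ) ^ (8 * (B + 1))) :=
            mul_le_mul_of_nonneg_left h5 hC4.le
        _ = _ := by ring
    have h7 : 3 * (K : ℝ) + 1 ≤ 4 * K := by linarith
    calc ((win e K).card : ℝ) * (X * (C4 / (j : ℝ) ^ (8 * (B + 1))))
        ≤ (4 * K) * (X * (C4 * 256 ^ (B + 1) / (K : ℝ) ^ (B + 1))) := by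
          apply mul_le_mul (hcard.trans h7) _ (by positivity) (by positivity)
          exact mul_le_mul_of_nonneg_left h6 hX0.le
      _ = X * (C4 * (4 * 256 ^ (B + 1)) * (1 / (K : ℝ) ^ B)) := by
          rw [pow_succ (K : ℝ) B]
          field_simp
      _ ≤ X * (C4 * (4 * 256 ^ (B + 1)) * (50 ^ B / x ^ B)) :=
          mul_le_mul_of_nonneg_left (mul_le_mul_of_nonneg_left hxK (by positivity)) hX0.le
      _ = _ := by ring
  have herrB : (1 + ((GoodB e B K).card : ℝ)) + ((K : ℝ) ^ (2 * B) + 1) * (GoodB e B K).card ≤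
      X * (4 * (2 ^ (3 * B) * ((3 * B).factorial : ℝ)) / x ^ B) :=
    midB_B B (by linarith) hX hR1 hK0.le hK2 hG hsize
  have herrA : X / 2 * (1 - ∑ w ∈ GoodB e B K, pr w) ≤ X * (Cb * 50 ^ B / x ^ B) := by
    have h5 := hbad K (by omega)
    have h6 : Cb / (K : ℝ) ^ B ≤ Cb * 50 ^ B / x ^ B := by
      calc Cb / (K : ℝ) ^ B = Cb * (1 / (K : ℝ) ^ B) := by ring
        _ ≤ Cb * (50 ^ B / x ^ B) := mul_le_mul_of_nonneg_left hxK hCb.le
        _ = _ := by ring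
    have h7 : 0 ≤ Cb * 50 ^ B / x ^ B := by positivity
    calc X / 2 * (1 - ∑ w ∈ GoodB e B K, pr w) ≤ X / 2 * (Cb * 50 ^ B / x ^ B) :=
          mul_le_mul_of_nonneg_left (h5.trans h6) (by positivity)
      _ ≤ X * (Cb * 50 ^ B / x ^ B) := by
          apply mul_le_mul_of_nonneg_right _ h7
          linarith
  rw [DD, mainB, ← hX, ← hj, div_add' _ _ _ hX0.ne', div_le_div_iff_of_pos_right hX0]
  have hfin : X * (Cb * 50 ^ B / x ^ B) + X * (4 * (2 ^ (3 * B) * ((3 * B).factorial : ℝ)) / x ^ B) +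
      X * (C4 * (4 * 256 ^ (B + 1) * 50 ^ B) / x ^ B) =
      (Cb * 50 ^ B + 4 * (2 ^ (3 * B) * ((3 * B).factorial : ℝ)) +
        C4 * (4 * 256 ^ (B + 1) * 50 ^ B)) / x ^ B * X := by ring
  linarith

end Pool.Agent.Lib.MP_e43fce_nt_nat
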