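import Pool.Agent.Lib.MP_e43fce_nt_nat.BMid
import Pool.Agent.Lib.MP_e43fce_nt_nat.PAR
import Pool.Agent.Lib.MP_e43fce_nt_nat.S5
import Pool.Agent.Lib.MP_e43fce_nt_nat.Count

/-! BRegr: regrouping. `A = a + A(u)`, `t = nd s u` is an odd integer `<= Y_a = 3^(K-j) X / 2^a`,
`(s,u) -> t` is injective (`s = root j t`, `u = vw j t`), and for `t > N0 2^A(u)` the first
`j + A(u)` steps of the orbit of `t` stay above `N0` (every step at most halves), so
`pT N0 (T-K-A) s = pT N0 (T-(K-j)-a) t`.  The other `t`: `A(u) <= lam := floor(x/100)` gives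
`t <= N0 2^lam`, at most that many; `A(u) > lam` has proportion `<= 3^j (2/3)^lam`. -/

set_option autoImplicit false

namespace Pool.Agent.Lib.MP_e43fce_nt_nat

open Finset

/-! ### the orbit below a node -/

theorem regr_syr_mul (n : ℕ) : 2 ^ vl n * syr n = 3 * n + 1 := by
  unfold syr vl
  exact Nat.mul_div_cancel' pow_padicValNat_dvd

theorem regr_col_pow (m : ℕ) : ∀ a : ℕ, col^[a] (2 ^ a * m) = m
  | 0 => by simp
  | a + 1 => by
    have h : col (2 ^ (a + 1) * m) = 2 ^ a * m := by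
      unfold col
      have h2 : 2 ^ (a + 1) * m = 2 * (2 ^ a * m) := by ring
      rw [if_pos (by omega), h2]
      omega
    rw [Function.iterate_succ_apply, h]
    exact regr_col_pow m a

/-- inside one block the orbit loses at most the factor `2 ^ vl n` -/
theorem regr_block {n : ℕ} (hn : n % 2 = 1) {i : ℕ} (hi : i ≤ 1 + vl n) :
    n ≤ col^[i] n * 2 ^ vl n := by
  rcases Nat.eq_zero_or_pos i with rfl | hpos
  · simp only [Function.iterate_zero, id]
    exact Nat.le_mul_of_pos_right _ (by positivity)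
  · obtain ⟨m, rfl⟩ : ∃ m, i = m + 1 := ⟨i - 1, by omega⟩
    have h1 : col n = 3 * n + 1 := by
      unfold col
      rw [if_neg (by omega)]
    obtain ⟨r, hr⟩ : ∃ r, vl n = m + r := ⟨vl n - m, by omega⟩
    have h2 := regr_syr_mul n
    have h3 : 3 * n + 1 = 2 ^ m * (2 ^ r * syr n) := by
      rw [← h2, hr]; ring
    rw [Function.iterate_succ_apply, h1, h3, regr_col_pow]
    calc n ≤ 3 * n + 1 := by omega
      _ = 2 ^ vl n * syr n := h2.symm
      _ ≤ 2 ^ r * syr n * 2 ^ vl n := by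
          have h4 : 1 ≤ 2 ^ r := Nat.one_le_two_pow
          nlinarith [Nat.zero_le (syr n * 2 ^ vl n), Nat.mul_le_mul_right (syr n * 2 ^ vl n) h4]

/-- the first `j` blocks of the orbit of `t` lose at most the factor `2 ^ (vw j t).sum` -/
theorem regr_low {t : ℕ} (ht : t % 2 = 1) (j : ℕ) : ∀ k : ℕ, k ≤ j + (vw j t).sum →
    t ≤ col^[k] t * 2 ^ (vw j t).sum := by
  induction j with
  | zero =>
    intro k hk
    simp only [vw, List.sum_nil, add_zero, Nat.le_zero] at hk
    subst hk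
    simp [vw]
  | succ j ih =>
    intro k hk
    simp only [vw, List.sum_cons] at hk ⊢
    rcases Nat.lt_or_ge (j + (vw j t).sum) k with h | h
    · obtain ⟨i, rfl⟩ : ∃ i, k = i + (j + (vw j t).sum) := ⟨k - (j + (vw j t).sum), by omega⟩
      rw [Function.iterate_add_apply, vw_col j t ht]
      have h1 := ih (j + (vw j t).sum) le_rfl
      rw [vw_col j t ht] at h1
      have h2 := regr_block (root_odd j t ht) (i := i) (by omega)
      calc t ≤ root j t * 2 ^ (vw j t).sum := h1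
        _ ≤ col^[i] (root j t) * 2 ^ vl (root j t) * 2 ^ (vw j t).sum :=
            Nat.mul_le_mul_right _ h2
        _ = _ := by rw [pow_add]; ring
    · have h1 := ih k h
      calc t ≤ col^[k] t * 2 ^ (vw j t).sum := h1
        _ ≤ col^[k] t * 2 ^ (vl (root j t) + (vw j t).sum) :=
            Nat.mul_le_mul_left _ (Nat.pow_le_pow_right (by norm_num) (by omega))

theorem regr_pT_unit (N0 T : ℕ) : Unit01 (pT N0 T) := by
  intro n
  unfold pT
  split_ifs <;> norm_num

theorem regr_pT {N0 T' t : ℕ} (ht : t % 2 = 1) (j : ℕ) (h : N0 * 2 ^ (vw j t).sum < t) :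
    pT N0 T' (root j t) ≤ pT N0 (T' + (j + (vw j t).sum)) t := by
  classical
  by_cases h1 : ∀ k ≤ T', N0 < col^[k] (root j t)
  · have h2 : ∀ k ≤ T' + (j + (vw j t).sum), N0 < col^[k] t := by
      intro k hk
      rcases Nat.lt_or_ge (j + (vw j t).sum) k with hk' | hk'
      · obtain ⟨i, rfl⟩ : ∃ i, k = i + (j + (vw j t).sum) := ⟨k - (j + (vw j t).sum), by omega⟩
        rw [Function.iterate_add_apply, vw_col j t ht]
        exact h1 i (by omega)
      · have h3 := regr_low ht j k hk'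
        exact lt_of_mul_lt_mul_right (h.trans_le h3) (Nat.zero_le _)
    unfold pT
    rw [if_pos h1, if_pos h2]
  · have h3 : pT N0 T' (root j t) = 0 := by
      unfold pT
      rw [if_neg h1]
    rw [h3]
    exact (regr_pT_unit _ _ t).1

/-! ### long words -/

theorem regr_geom (L j : ℕ) : ∑ u ∈ words L j, (3 / 4 : ℝ) ^ u.sum ≤ 3 ^ j := by
  induction j with
  | zero => simp [words]
  | succ j ih =>
    rw [wb1_sum_succ]
    have h1 : ∀ a ∈ Icc 1 L, ∑ w ∈ words L j, (3 / 4 : ℝ) ^ (a :: w).sum ≤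
        (3 / 4 : ℝ) ^ a * 3 ^ j := by
      intro a _
      have h2 : ∀ w ∈ words L j, (3 / 4 : ℝ) ^ (a :: w).sum = (3 / 4) ^ a * (3 / 4) ^ w.sum := by
        intro w _
        rw [List.sum_cons, pow_add]
      rw [Finset.sum_congr rfl h2, ← Finset.mul_sum]
      exact mul_le_mul_of_nonneg_left ih (by positivity)
    refine (Finset.sum_le_sum h1).trans ?_
    rw [← Finset.sum_mul]
    have h3 := WB3_geom L (3 / 4) (by norm_num) (by norm_num)
    have h4 : (3 / 4 : ℝ) / (1 - 3 / 4) = 3 := by norm_num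
    rw [h4] at h3
    calc _ ≤ (3 : ℝ) * 3 ^ j := mul_le_mul_of_nonneg_right h3 (by positivity)
      _ = _ := by rw [pow_succ]; ring

theorem regr_tail (L j lam : ℕ) :
    ∑ u ∈ (words L j).filter (fun u => lam < u.sum), pr u ≤ 3 ^ j * (2 / 3) ^ lam := by
  have h1 : ∀ u ∈ (words L j).filter (fun u => lam < u.sum),
      pr u ≤ (3 / 4 : ℝ) ^ u.sum * (2 / 3) ^ lam := by
    intro u hu
    rw [Finset.mem_filter] at hu
    obtain ⟨r, hr⟩ : ∃ r, u.sum = lam + r := ⟨u.sum - lam, by omega⟩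
    unfold pr
    rw [hr]
    have e1 : (3 / 4 : ℝ) ^ (lam + r) * (2 / 3) ^ lam = (1 / 2) ^ lam * (3 / 4) ^ r := by
      rw [pow_add, mul_right_comm, ← mul_pow]
      norm_num
    have e2 : (1 : ℝ) / 2 ^ (lam + r) = (1 / 2) ^ lam * (1 / 2) ^ r := by
      rw [pow_add, one_div_pow, one_div_pow]
      field_simp
    rw [e1, e2]
    apply mul_le_mul_of_nonneg_left _ (by positivity)
    exact pow_le_pow_left₀ (by norm_num) (by norm_num) r
  calc _ ≤ ∑ u ∈ (words L j).filter (fun u => lam < u.sum), (3 / 4 : ℝ) ^ u.sum * (2 / 3) ^ lam :=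
        Finset.sum_le_sum h1
    _ ≤ ∑ u ∈ words L j, (3 / 4 : ℝ) ^ u.sum * (2 / 3) ^ lam :=
        Finset.sum_le_sum_of_subset_of_nonneg (Finset.filter_subset _ _)
          (fun _ _ _ => by positivity)
    _ = (∑ u ∈ words L j, (3 / 4 : ℝ) ^ u.sum) * (2 / 3) ^ lam := by rw [Finset.sum_mul]
    _ ≤ _ := mul_le_mul_of_nonneg_right (regr_geom L j) (by positivity)

/-- shifted sums of `rho` -/
theorem regr_shift {M : ℕ} (hM : 1 ≤ M) (c N : ℕ) (W : Finset ℕ) (hW : W ⊆ range N) (f : ℕ → ℝ)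
    (hf : ∀ a, 0 ≤ f a) :
    ∑ A ∈ W, rho M (A - c) * f (A - c) ≤
      ∑ a ∈ (range N).filter (fun a => a + c ∈ W), rho M a * f a := by
  classical
  have h0 : rho M 0 = 0 := rho_pos_zero hM
  have h1 : ∑ A ∈ W, rho M (A - c) * f (A - c) =
      ∑ A ∈ W.filter (fun A => c ≤ A), rho M (A - c) * f (A - c) := by
    symm
    apply Finset.sum_subset (Finset.filter_subset _ _)
    intro A hA hA'
    rw [Finset.mem_filter, not_and] at hA'
    have : A - c = 0 := by have := hA' hA; omega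
    rw [this, h0, zero_mul]
  have h2 : ∑ A ∈ W.filter (fun A => c ≤ A), rho M (A - c) * f (A - c) =
      ∑ a ∈ (W.filter (fun A => c ≤ A)).image (fun A => A - c), rho M a * f a := by
    rw [Finset.sum_image]
    intro a ha b hb hab
    rw [Finset.mem_coe, Finset.mem_filter] at ha hb
    simp only at hab
    omega
  rw [h1, h2]
  apply Finset.sum_le_sum_of_subset_of_nonneg
  · intro a ha
    rw [Finset.mem_image] at ha
    obtain ⟨A, hA, rfl⟩ := ha
    rw [Finset.mem_filter] at hA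
    rw [Finset.mem_filter, Finset.mem_range]
    have h3 := Finset.mem_range.1 (hW hA.1)
    exact ⟨by omega, by rw [Nat.sub_add_cancel hA.2]; exact hA.1⟩
  · intro a _ _
    exact mul_nonneg (rho_nonneg _ _) (hf a)

/-- the words with large sum -/
theorem regr_part2 {K j lam : ℕ} (hjK : j < K) {X : ℝ} (hX : 0 ≤ X) (W : Finset ℕ) {N : ℕ}
    (hW : W ⊆ range N) (hZ : ∀ A ∈ W, 2 * 3 ^ j ≤ 3 ^ K * X / 2 ^ A) {q : ℕ → ℕ → ℝ}
    (hq : ∀ A, Unit01 (q A)) :
    ∑ A ∈ W, (2 : ℝ) ^ A / 3 ^ K * ∑ s ∈ oddS (3 ^ K * X / 2 ^ A), q A s *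
        ∑ u ∈ (words (3 * K) j).filter (fun u => lam < u.sum),
          (if adm s u then wt u * rho (K - j) (A - u.sum) else 0)
      ≤ X * (3 ^ j * (2 / 3) ^ lam) := by
  set W2 := (words (3 * K) j).filter (fun u => lam < u.sum) with hW2
  have hA : ∀ A ∈ W, (2 : ℝ) ^ A / 3 ^ K * ∑ s ∈ oddS (3 ^ K * X / 2 ^ A), q A s *
        ∑ u ∈ W2, (if adm s u then wt u * rho (K - j) (A - u.sum) else 0) ≤
      X * ∑ u ∈ W2, pr u * rho (K - j) (A - u.sum) := by
    intro A hAW
    set Z : ℝ := 3 ^ K * X / 2 ^ A with hZdef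
    have h1 : ∑ s ∈ oddS Z, q A s *
        ∑ u ∈ W2, (if adm s u then wt u * rho (K - j) (A - u.sum) else 0) ≤
        ∑ s ∈ oddS Z, ∑ u ∈ W2, rho (K - j) (A - u.sum) * (if adm (s : ℤ) u then wt u else 0) := by
      apply Finset.sum_le_sum
      intro s _
      have hnn : ∀ u ∈ W2, 0 ≤ (if adm (s : ℤ) u then wt u * rho (K - j) (A - u.sum) else 0) := by
        intro u _
        split_ifs
        · exact mul_nonneg (S5_wt_nonneg u) (rho_nonneg _ _)
        · exact le_rfl
      calc _ ≤ 1 * ∑ u ∈ W2, (if adm (s : ℤ) u then wt u * rho (K - j) (A - u.sum) else 0) :=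
            mul_le_mul_of_nonneg_right (hq A s).2 (Finset.sum_nonneg hnn)
        _ = _ := by
            rw [one_mul]
            apply Finset.sum_congr rfl
            intro u _
            split_ifs <;> ring
    have h2 : ∑ s ∈ oddS Z, ∑ u ∈ W2, rho (K - j) (A - u.sum) *
        (if adm (s : ℤ) u then wt u else 0) ≤ Z * ∑ u ∈ W2, pr u * rho (K - j) (A - u.sum) := by
      rw [Finset.sum_comm, Finset.mul_sum]
      refine Finset.sum_le_sum (fun u hu => ?_)
      rw [← Finset.mul_sum]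
      have h4 := S5_node (hZ A hAW) u ((mem_words _ _ _).1 (Finset.mem_filter.1 hu).1).1
      have h5 := mul_le_mul_of_nonneg_left h4 (rho_nonneg (K - j) (A - u.sum))
      calc _ ≤ _ := h5
        _ = _ := by ring
    have hc : 0 ≤ (2 : ℝ) ^ A / 3 ^ K := by positivity
    have h8 : (2 : ℝ) ^ A / 3 ^ K * Z = X := by
      rw [hZdef]
      field_simp
    calc _ ≤ (2 : ℝ) ^ A / 3 ^ K * (Z * ∑ u ∈ W2, pr u * rho (K - j) (A - u.sum)) :=
          mul_le_mul_of_nonneg_left (h1.trans h2) hc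
      _ = ((2 : ℝ) ^ A / 3 ^ K * Z) * ∑ u ∈ W2, pr u * rho (K - j) (A - u.sum) := by ring
      _ = _ := by rw [h8]
  refine (Finset.sum_le_sum hA).trans ?_
  rw [← Finset.mul_sum]
  apply mul_le_mul_of_nonneg_left _ hX
  rw [Finset.sum_comm]
  calc ∑ u ∈ W2, ∑ A ∈ W, pr u * rho (K - j) (A - u.sum)
      ≤ ∑ u ∈ W2, pr u := by
        apply Finset.sum_le_sum
        intro u _
        rw [← Finset.mul_sum]
        have h1 := regr_shift (M := K - j) (by omega) u.sum N W hW (fun _ => 1)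
          (fun _ => zero_le_one)
        simp only [mul_one] at h1
        have h2 : ∑ a ∈ (range N).filter (fun a => a + u.sum ∈ W), rho (K - j) a ≤ 1 :=
          (Finset.sum_le_sum_of_subset_of_nonneg (Finset.filter_subset _ _)
            (fun a _ _ => rho_nonneg _ _)).trans (rho_sum_le _ _)
        calc _ ≤ pr u * 1 := mul_le_mul_of_nonneg_left (h1.trans h2) (S5_pr_nonneg u)
          _ = _ := mul_one _
    _ ≤ _ := regr_tail _ _ _

/-- one word -/
theorem regr_one {K j lam N0 T a : ℕ} (hjK : j < K) {X : ℝ} {u : List ℕ}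
    (hu : u ∈ words (3 * K) j) (hlam : u.sum ≤ lam) (hT : K + (a + u.sum) ≤ T) :
    ∑ s ∈ oddS (3 ^ K * X / 2 ^ (a + u.sum)), (if adm (s : ℤ) u then
        pT N0 (T - K - (a + u.sum)) s else 0)
      ≤ ∑ n ∈ (oddS (3 ^ (K - j) * X / 2 ^ a)).filter (fun n => vw j n = u),
        (pT N0 (T - (K - j) - a) n + (if n ≤ N0 * 2 ^ lam then (1 : ℝ) else 0)) := by
  rw [mem_words] at hu
  obtain ⟨hl, hu1⟩ := hu
  have hpos : ∀ b ∈ u, 1 ≤ b := fun b hb => (hu1 b hb).1
  set g : ℤ → ℝ := fun z => pT N0 (T - (K - j) - a) z.toNat +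
    (if z.toNat ≤ N0 * 2 ^ lam then (1 : ℝ) else 0) with hg
  have hg0 : ∀ z, 0 ≤ g z := by
    intro z
    apply add_nonneg (regr_pT_unit _ _ _).1
    split_ifs <;> norm_num
  have h1 := cnt_lower hl hpos (X := 3 ^ (K - j) * X / 2 ^ a) g hg0
  have e1 : (3 : ℝ) ^ j * (3 ^ (K - j) * X / 2 ^ a) / 2 ^ u.sum = 3 ^ K * X / 2 ^ (a + u.sum) := by
    have : (3 : ℝ) ^ K = 3 ^ j * 3 ^ (K - j) := by rw [← pow_add]; congr 1; omega
    rw [this, pow_add]
    field_simp
  rw [e1] at h1
  refine le_trans ?_ (h1.trans (le_of_eq ?_))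
  · apply Finset.sum_le_sum
    intro s hs
    split_ifs with h
    · rw [cnt_mem_oddS] at hs
      obtain ⟨n, hn, hnd, hroot, hvw⟩ := vw_unique hs.2.2 hpos h
      rw [hl] at hroot hvw
      have h2 : g (nd s u) = pT N0 (T - (K - j) - a) n +
          (if n ≤ N0 * 2 ^ lam then (1 : ℝ) else 0) := by
        rw [hg, hnd]
        simp
      rw [h2]
      by_cases h3 : n ≤ N0 * 2 ^ lam
      · rw [if_pos h3]
        have h4 := (regr_pT_unit N0 (T - K - (a + u.sum)) s).2
        have h5 := (regr_pT_unit N0 (T - (K - j) - a) n).1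
        linarith
      · rw [if_neg h3, add_zero]
        have h6 : N0 * 2 ^ (vw j n).sum < n := by
          rw [hvw]
          refine lt_of_le_of_lt (Nat.mul_le_mul_left _ ?_) (not_le.1 h3)
          exact Nat.pow_le_pow_right (by norm_num) hlam
        have h7 := regr_pT (T' := T - K - (a + u.sum)) hn j h6
        rw [hroot, hvw] at h7
        have h8 : T - K - (a + u.sum) + (j + u.sum) = T - (K - j) - a := by omega
        rwa [h8] at h7
    · exact le_rfl
  · apply Finset.sum_congr rfl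
    intro n _
    rw [hg]
    simp

/-- all the words with small sum -/
theorem regr_a {K j lam N0 T a : ℕ} (hjK : j < K) {X : ℝ} (W : Finset ℕ)
    (hW : ∀ A ∈ W, K + A ≤ T) :
    ∑ u ∈ ((words (3 * K) j).filter (fun u => u.sum ≤ lam)).filter (fun u => a + u.sum ∈ W),
      ∑ s ∈ oddS (3 ^ K * X / 2 ^ (a + u.sum)), (if adm (s : ℤ) u then
        pT N0 (T - K - (a + u.sum)) s else 0)
      ≤ ∑ n ∈ oddS (3 ^ (K - j) * X / 2 ^ a), pT N0 (T - (K - j) - a) n + N0 * 2 ^ lam := by
  classical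
  set V := ((words (3 * K) j).filter (fun u => u.sum ≤ lam)).filter (fun u => a + u.sum ∈ W) with hV
  set S := oddS (3 ^ (K - j) * X / 2 ^ a) with hS
  set G : ℕ → ℝ := fun n => pT N0 (T - (K - j) - a) n +
    (if n ≤ N0 * 2 ^ lam then (1 : ℝ) else 0) with hG
  have hG0 : ∀ n, 0 ≤ G n := by
    intro n
    apply add_nonneg (regr_pT_unit _ _ _).1
    split_ifs <;> norm_num
  have h1 : ∀ u ∈ V, ∑ s ∈ oddS (3 ^ K * X / 2 ^ (a + u.sum)), (if adm (s : ℤ) u then
        pT N0 (T - K - (a + u.sum)) s else 0) ≤ ∑ n ∈ S.filter (fun n => vw j n = u), G n := by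
    intro u hu
    rw [hV, Finset.mem_filter, Finset.mem_filter] at hu
    exact regr_one hjK hu.1.1 hu.1.2 (hW _ hu.2)
  refine (Finset.sum_le_sum h1).trans ?_
  have h2 : ∑ u ∈ V, ∑ n ∈ S.filter (fun n => vw j n = u), G n =
      ∑ n ∈ S.filter (fun n => vw j n ∈ V), G n := by
    rw [← Finset.sum_fiberwise_of_maps_to (s := S.filter (fun n => vw j n ∈ V))
      (t := V) (g := fun n => vw j n) (fun n hn => (Finset.mem_filter.1 hn).2)]
    apply Finset.sum_congr rfl
    intro u hu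
    rw [Finset.filter_filter]
    apply Finset.sum_congr _ (fun _ _ => rfl)
    ext n
    simp only [Finset.mem_filter]
    constructor
    · rintro ⟨h3, h4⟩
      exact ⟨h3, by rw [h4]; exact hu, h4⟩
    · rintro ⟨h3, _, h4⟩
      exact ⟨h3, h4⟩
  rw [h2]
  have h3 : ∑ n ∈ S.filter (fun n => vw j n ∈ V), G n ≤ ∑ n ∈ S, G n :=
    Finset.sum_le_sum_of_subset_of_nonneg (Finset.filter_subset _ _) (fun n _ _ => hG0 n)
  refine h3.trans ?_
  rw [hG, Finset.sum_add_distrib]
  have h4 : ∑ n ∈ S, (if n ≤ N0 * 2 ^ lam then (1 : ℝ) else 0) ≤ N0 * 2 ^ lam := by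
    rw [← Finset.sum_filter, Finset.sum_const, nsmul_eq_mul, mul_one]
    have h5 : S.filter (fun n => n ≤ N0 * 2 ^ lam) ⊆ Icc 1 (N0 * 2 ^ lam) := by
      intro n hn
      rw [Finset.mem_filter, hS, cnt_mem_oddS] at hn
      rw [Finset.mem_Icc]
      exact ⟨hn.1.1, hn.2⟩
    have h6 := Finset.card_le_card h5
    rw [Nat.card_Icc, Nat.add_sub_cancel] at h6
    exact_mod_cast h6
  linarith

/-- the words with small sum -/
theorem regr_part1 {K j lam N0 T : ℕ} (hjK : j < K) {X : ℝ} (W : Finset ℕ)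
    (hW : W ⊆ range (3 * K + 1)) (hT : 4 * K ≤ T) {E0 : ℝ} (hE0 : 0 ≤ E0)
    (hE : ∀ a, (∃ A ∈ W, a ≤ A) → (2 : ℝ) ^ a / 3 ^ (K - j) * (N0 * 2 ^ lam) ≤ E0) :
    ∑ A ∈ W, (2 : ℝ) ^ A / 3 ^ K * ∑ s ∈ oddS (3 ^ K * X / 2 ^ A), pT N0 (T - K - A) s *
        ∑ u ∈ (words (3 * K) j).filter (fun u => u.sum ≤ lam),
          (if adm s u then wt u * rho (K - j) (A - u.sum) else 0)
      ≤ ∑ a ∈ range (3 * K + 1), rho (K - j) a * ((2 : ℝ) ^ a / 3 ^ (K - j) *
          ∑ n ∈ oddS (3 ^ (K - j) * X / 2 ^ a), pT N0 (T - (K - j) - a) n) + E0 := by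
  classical
  set W1 := (words (3 * K) j).filter (fun u => u.sum ≤ lam) with hW1
  set S : List ℕ → ℕ → ℝ := fun u A => ∑ s ∈ oddS (3 ^ K * X / 2 ^ A),
    (if adm (s : ℤ) u then pT N0 (T - K - A) s else 0) with hS
  have hS0 : ∀ u A, 0 ≤ S u A := by
    intro u A
    apply Finset.sum_nonneg
    intro s _
    split_ifs
    · exact (regr_pT_unit _ _ _).1
    · exact le_rfl
  set f : List ℕ → ℕ → ℝ := fun u a => (2 : ℝ) ^ a / 3 ^ (K - j) * S u (a + u.sum) with hf
  have hf0 : ∀ u a, 0 ≤ f u a := fun u a => mul_nonneg (by positivity) (hS0 _ _)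
  have h1 : ∀ A ∈ W, (2 : ℝ) ^ A / 3 ^ K * ∑ s ∈ oddS (3 ^ K * X / 2 ^ A), pT N0 (T - K - A) s *
        ∑ u ∈ W1, (if adm s u then wt u * rho (K - j) (A - u.sum) else 0) =
      ∑ u ∈ W1, rho (K - j) (A - u.sum) * f u (A - u.sum) := by
    intro A _
    have e1 : ∑ s ∈ oddS (3 ^ K * X / 2 ^ A), pT N0 (T - K - A) s *
        ∑ u ∈ W1, (if adm s u then wt u * rho (K - j) (A - u.sum) else 0) =
        ∑ u ∈ W1, rho (K - j) (A - u.sum) * (wt u * S u A) := by
      simp only [hS, Finset.mul_sum]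
      rw [Finset.sum_comm]
      apply Finset.sum_congr rfl
      intro u _
      apply Finset.sum_congr rfl
      intro s _
      split_ifs <;> ring
    rw [e1, Finset.mul_sum]
    apply Finset.sum_congr rfl
    intro u hu
    rw [hW1, Finset.mem_filter, mem_words] at hu
    rcases Nat.lt_or_ge A u.sum with h | h
    · have h0 : A - u.sum = 0 := by omega
      rw [h0, rho_pos_zero (by omega)]
      ring
    · simp only [hf]
      rw [Nat.sub_add_cancel h]
      have e2 : (2 : ℝ) ^ A / 3 ^ K * wt u = 2 ^ (A - u.sum) / 3 ^ (K - j) := by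
        unfold wt
        rw [hu.1.1]
        have e3 : (3 : ℝ) ^ K = 3 ^ j * 3 ^ (K - j) := by rw [← pow_add]; congr 1; omega
        have e4 : (2 : ℝ) ^ A = 2 ^ (A - u.sum) * 2 ^ u.sum := by
          rw [← pow_add, Nat.sub_add_cancel h]
        rw [e3, e4]
        field_simp
      rw [← e2]
      ring
  rw [Finset.sum_congr rfl h1, Finset.sum_comm]
  have h2 : ∀ u ∈ W1, ∑ A ∈ W, rho (K - j) (A - u.sum) * f u (A - u.sum) ≤
      ∑ a ∈ range (3 * K + 1), (if a + u.sum ∈ W then rho (K - j) a * f u a else 0) := by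
    intro u _
    rw [← Finset.sum_filter]
    exact regr_shift (by omega) u.sum _ W hW (f u) (hf0 u)
  refine (Finset.sum_le_sum h2).trans ?_
  rw [Finset.sum_comm]
  have h3 : ∀ a ∈ range (3 * K + 1),
      ∑ u ∈ W1, (if a + u.sum ∈ W then rho (K - j) a * f u a else 0) ≤
      rho (K - j) a * ((2 : ℝ) ^ a / 3 ^ (K - j) *
          ∑ n ∈ oddS (3 ^ (K - j) * X / 2 ^ a), pT N0 (T - (K - j) - a) n) +
        rho (K - j) a * E0 := by
    intro a _
    rw [← Finset.sum_filter]
    have hp0 : 0 ≤ ∑ n ∈ oddS (3 ^ (K - j) * X / 2 ^ a), pT N0 (T - (K - j) - a) n :=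
      Finset.sum_nonneg (fun n _ => (regr_pT_unit _ _ _).1)
    have hr := rho_nonneg (K - j) a
    rcases (W1.filter (fun u => a + u.sum ∈ W)).eq_empty_or_nonempty with he | hne
    · rw [he, Finset.sum_empty]
      have : 0 ≤ (2 : ℝ) ^ a / 3 ^ (K - j) := by positivity
      positivity
    · obtain ⟨u0, hu0⟩ := hne
      rw [Finset.mem_filter] at hu0
      have hEa := hE a ⟨a + u0.sum, hu0.2, by omega⟩
      have h4 := regr_a (N0 := N0) (lam := lam) (a := a) hjK (X := X) W (T := T) (by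
        intro A hA
        have := Finset.mem_range.1 (hW hA)
        omega)
      have h5 : ∑ u ∈ W1.filter (fun u => a + u.sum ∈ W), rho (K - j) a * f u a =
          rho (K - j) a * ((2 : ℝ) ^ a / 3 ^ (K - j) *
            ∑ u ∈ W1.filter (fun u => a + u.sum ∈ W), S u (a + u.sum)) := by
        rw [Finset.mul_sum, Finset.mul_sum]
      rw [h5, ← mul_add]
      apply mul_le_mul_of_nonneg_left _ hr
      have h6 := mul_le_mul_of_nonneg_left h4
        (by positivity : (0 : ℝ) ≤ (2 : ℝ) ^ a / 3 ^ (K - j))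
      refine h6.trans ?_
      rw [mul_add]
      linarith
  refine (Finset.sum_le_sum h3).trans ?_
  rw [Finset.sum_add_distrib, ← Finset.sum_mul]
  have h7 := mul_le_mul_of_nonneg_right (rho_sum_le (K - j) (3 * K + 1)) hE0
  linarith

/-! ### numerics -/

theorem regr_zz (x : ℝ) (M a : ℕ) : Real.exp (zz x M a) = 3 ^ M * Real.exp x / 2 ^ a := by
  unfold zz
  rw [Real.exp_sub, Real.exp_add, mul_comm (M : ℝ) (Real.log 3), mul_comm (a : ℝ) (Real.log 2),
    Real.exp_mul, Real.exp_mul, Real.exp_log (by norm_num), Real.exp_log (by norm_num),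
    Real.rpow_natCast, Real.rpow_natCast]
  ring

theorem regr_DD (p : ℕ → ℝ) (x : ℝ) (M a : ℕ) :
    Real.exp x * DD 0 p (zz x M a) =
      (2 : ℝ) ^ a / 3 ^ M * ∑ n ∈ oddS (3 ^ M * Real.exp x / 2 ^ a), p n := by
  unfold DD NN
  rw [regr_zz]
  have h1 : ∀ n ∈ oddS (3 ^ M * Real.exp x / 2 ^ a), p n * MM 0 (n : ℤ) = p n := by
    intro n _
    rw [MM_zero, mul_one]
  rw [Finset.sum_congr rfl h1]
  have := Real.exp_pos x
  field_simp

theorem regr_two (a : ℕ) : (2 : ℝ) ^ a = Real.exp (a * Real.log 2) := by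
  rw [mul_comm, Real.exp_mul, Real.exp_log (by norm_num), Real.rpow_natCast]

theorem regr_three (a : ℕ) : (3 : ℝ) ^ a = Real.exp (a * Real.log 3) := by
  rw [mul_comm, Real.exp_mul, Real.exp_log (by norm_num), Real.rpow_natCast]

theorem regr_log3 : 1.0397 ≤ Real.log 3 ∧ Real.log 3 ≤ 1.11 := by
  have hl2 := Real.log_two_lt_d9
  have hl2' := Real.log_two_gt_d9
  constructor
  · have h : Real.log (2 ^ 3) ≤ Real.log (3 ^ 2) := Real.log_le_log (by norm_num) (by norm_num)
    rw [Real.log_pow, Real.log_pow] at h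
    push_cast at h
    linarith
  · have h : Real.log (3 ^ 5) ≤ Real.log (2 ^ 8) := Real.log_le_log (by norm_num) (by norm_num)
    rw [Real.log_pow, Real.log_pow] at h
    push_cast at h
    linarith

theorem regr_i1 (K : ℕ) : i1 K ^ 2 ≤ K := by
  unfold i1
  have h1 := Nat.sqrt_le' K
  have h2 := Nat.sqrt_le_self (Nat.sqrt K)
  have h3 := Nat.sqrt_le_self (Nat.sqrt (Nat.sqrt K))
  calc Nat.sqrt (Nat.sqrt (Nat.sqrt K)) ^ 2 ≤ Nat.sqrt K ^ 2 :=
        Nat.pow_le_pow_left (h3.trans h2) 2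
    _ ≤ K := h1

/-- `j = i1 K` is small -/
theorem regr_j {x : ℝ} (hx : 20000 ≤ x) {K : ℕ} (hK : (K : ℝ) ≤ x / 20) :
    (i1 K : ℝ) ≤ 0.0016 * x := by
  have h1 : (i1 K : ℝ) ^ 2 ≤ K := by exact_mod_cast regr_i1 K
  by_contra h
  push Not at h
  have h2 : (0.0016 * x) ^ 2 < (i1 K : ℝ) ^ 2 := by
    apply pow_lt_pow_left₀ h (by positivity) (by norm_num)
  nlinarith

theorem regr_exp_pow (B : ℕ) {x : ℝ} (hx : 0 < x) :
    Real.exp (-(x / 1000)) ≤ (B.factorial * 1000 ^ B : ℝ) / x ^ B := by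
  have h1 := Real.pow_div_factorial_le_exp (x / 1000) (by positivity) B
  rw [Real.exp_neg, inv_eq_one_div, div_le_div_iff₀ (Real.exp_pos _) (by positivity), one_mul]
  have hf : (0 : ℝ) < B.factorial := by exact_mod_cast B.factorial_pos
  rw [div_le_iff₀ hf, div_pow, div_le_iff₀ (by positivity)] at h1
  linarith

theorem regroupB {e : ℝ} (h0 : 0 < e) (h1 : e ≤ 1 / 10) (B : ℕ) : ∃ C x0 : ℝ, 0 < C ∧ 1 ≤ x0 ∧
    ∀ x : ℝ, x0 ≤ x → ∀ K N0 T : ℕ, x / 50 ≤ (K : ℝ) → (K : ℝ) ≤ x / 20 →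
      (N0 : ℝ) ≤ Real.exp (x / 1.07) → 4 * K ≤ T →
      mainB e K (fun A => pT N0 (T - K - A)) x
        ≤ ∑ a ∈ range (3 * K + 1), rho (K - i1 K) a *
            DD 0 (pT N0 (T - (K - i1 K) - a)) (zz x (K - i1 K) a) + C / x ^ B := by
  refine ⟨3 * (B.factorial * 1000 ^ B), 20000, ?_, by norm_num, ?_⟩
  · have : (0 : ℝ) < B.factorial := by exact_mod_cast B.factorial_pos
    positivity
  intro x hx K N0 T hK1 hK2 hN0 hT
  have hl2 := Real.log_two_lt_d9
  have hl2' := Real.log_two_gt_d9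
  obtain ⟨hl3, hl3'⟩ := regr_log3
  have hxpos : (0 : ℝ) < x := by linarith
  set X : ℝ := Real.exp x with hX
  have hXpos : 0 < X := Real.exp_pos x
  set j := i1 K with hj
  have hjx : (j : ℝ) ≤ 0.0016 * x := regr_j hx hK2
  have hjK : j < K := by
    have : (j : ℝ) < K := by linarith
    exact_mod_cast this
  set M := K - j with hM
  have hMr : (M : ℝ) = K - j := by
    rw [hM, Nat.cast_sub hjK.le]
  set lam := ⌊x / 100⌋₊ with hlam
  have hlam1 : (lam : ℝ) ≤ x / 100 := Nat.floor_le (by positivity)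
  have hlam2 : x / 100 < lam + 1 := Nat.lt_floor_add_one _
  have hWsub : win e K ⊆ range (3 * K + 1) := by
    unfold win
    exact Finset.filter_subset _ _
  have hK0 : (0 : ℝ) ≤ K := Nat.cast_nonneg K
  have hWle : ∀ A ∈ win e K, (A : ℝ) ≤ 2.1 * K := by
    intro A hA
    unfold win at hA
    rw [Finset.mem_filter, abs_le] at hA
    have h2 : e * (K : ℝ) ≤ 1 / 10 * K := mul_le_mul_of_nonneg_right h1 hK0
    linarith [hA.2.2]
  -- the size of the windows
  have hZ : ∀ A ∈ win e K, 2 * 3 ^ j ≤ 3 ^ K * X / 2 ^ A := by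
    intro A hA
    have h2 := hWle A hA
    rw [le_div_iff₀ (by positivity)]
    have e1 : (2 : ℝ) * 3 ^ j * 2 ^ A = Real.exp (Real.log 2 + j * Real.log 3 + A * Real.log 2) := by
      rw [regr_two, regr_three, Real.exp_add, Real.exp_add, Real.exp_log (by norm_num)]
    have e2 : (3 : ℝ) ^ K * X = Real.exp (K * Real.log 3 + x) := by
      rw [regr_three, hX, Real.exp_add]
    rw [e1, e2]
    apply Real.exp_le_exp.2
    have t1 : (j : ℝ) * Real.log 3 ≤ (0.0016 * x) * 1.11 := by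
      apply mul_le_mul hjx hl3' (by linarith) (by positivity)
    have t2 : (A : ℝ) * Real.log 2 ≤ (2.1 * K) * 0.6931471808 := by
      apply mul_le_mul h2 hl2.le (by linarith) (by positivity)
    have t3 : (K : ℝ) * 1.0397 ≤ K * Real.log 3 := mul_le_mul_of_nonneg_left hl3 hK0
    linarith
  -- splitting the words
  have hsplit : mainB e K (fun A => pT N0 (T - K - A)) x * X =
      ∑ A ∈ win e K, (2 : ℝ) ^ A / 3 ^ K * ∑ s ∈ oddS (3 ^ K * X / 2 ^ A), pT N0 (T - K - A) s *
        ∑ u ∈ (words (3 * K) j).filter (fun u => u.sum ≤ lam),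
          (if adm s u then wt u * rho (K - j) (A - u.sum) else 0) +
      ∑ A ∈ win e K, (2 : ℝ) ^ A / 3 ^ K * ∑ s ∈ oddS (3 ^ K * X / 2 ^ A), pT N0 (T - K - A) s *
        ∑ u ∈ (words (3 * K) j).filter (fun u => lam < u.sum),
          (if adm s u then wt u * rho (K - j) (A - u.sum) else 0) := by
    unfold mainB
    rw [div_mul_cancel₀ _ (Real.exp_pos x).ne', ← Finset.sum_add_distrib]
    apply Finset.sum_congr rfl
    intro A _
    rw [← mul_add, ← Finset.sum_add_distrib]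
    congr 1
    apply Finset.sum_congr rfl
    intro s _
    rw [← mul_add]
    congr 1
    rw [← Finset.sum_filter_add_sum_filter_not (words (3 * K) j) (fun u => u.sum ≤ lam)]
    simp only [not_le]
    rfl
  -- the second part
  have hp2 := regr_part2 (lam := lam) hjK hXpos.le (win e K) hWsub hZ
    (q := fun A => pT N0 (T - K - A)) (fun A => regr_pT_unit _ _)
  -- the first part
  set E0 : ℝ := Real.exp (0.98 * x) with hE0
  have hp1 := regr_part1 (lam := lam) (N0 := N0) (T := T) hjK (X := X) (win e K) hWsub hT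
    (E0 := E0) (Real.exp_pos _).le (by
      rintro a ⟨A, hA, haA⟩
      have h2 : (a : ℝ) ≤ 2.1 * K := by
        have : (a : ℝ) ≤ A := by exact_mod_cast haA
        linarith [hWle A hA]
      have e1 : (2 : ℝ) ^ a / 3 ^ (K - j) * (N0 * 2 ^ lam) ≤
          Real.exp (a * Real.log 2) / Real.exp (M * Real.log 3) *
            (Real.exp (x / 1.07) * Real.exp (lam * Real.log 2)) := by
        rw [← regr_two, ← regr_two, ← regr_three]
        apply mul_le_mul_of_nonneg_left _ (by positivity)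
        exact mul_le_mul_of_nonneg_right hN0 (by positivity)
      refine e1.trans ?_
      rw [← Real.exp_sub, ← Real.exp_add, ← Real.exp_add, hE0]
      apply Real.exp_le_exp.2
      rw [hMr]
      have t1 : (j : ℝ) * Real.log 3 ≤ (0.0016 * x) * 1.11 := by
        apply mul_le_mul hjx hl3' (by linarith) (by positivity)
      have t2 : (a : ℝ) * Real.log 2 ≤ (2.1 * K) * 0.6931471808 := by
        apply mul_le_mul h2 hl2.le (by linarith) (by positivity)
      have t3 : (K : ℝ) * 1.0397 ≤ K * Real.log 3 := mul_le_mul_of_nonneg_left hl3 hK0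
      have t4 : (lam : ℝ) * Real.log 2 ≤ (x / 100) * 0.6931471808 := by
        apply mul_le_mul hlam1 hl2.le (by linarith) (by positivity)
      have t5 : x / 1.07 ≤ 0.9346 * x := by
        rw [div_le_iff₀ (by norm_num)]
        linarith
      have t6 : ((K : ℝ) - j) * Real.log 3 = K * Real.log 3 - j * Real.log 3 := by ring
      rw [t6]
      linarith)
  -- together
  have hD : ∑ a ∈ range (3 * K + 1), rho (K - j) a * ((2 : ℝ) ^ a / 3 ^ (K - j) *
          ∑ n ∈ oddS (3 ^ (K - j) * X / 2 ^ a), pT N0 (T - (K - j) - a) n) =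
      (∑ a ∈ range (3 * K + 1), rho M a * DD 0 (pT N0 (T - M - a)) (zz x M a)) * X := by
    rw [Finset.sum_mul]
    apply Finset.sum_congr rfl
    intro a _
    rw [← hM, ← regr_DD, ← hX]
    ring
  have herr1 : E0 ≤ X * Real.exp (-(x / 1000)) := by
    rw [hE0, hX, ← Real.exp_add]
    apply Real.exp_le_exp.2
    linarith
  have herr2 : (3 : ℝ) ^ j * (2 / 3) ^ lam ≤ 2 * Real.exp (-(x / 1000)) := by
    have hc : Real.log (3 / 2) ≥ 0.34 := by
      rw [Real.log_div (by norm_num) (by norm_num)]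
      linarith
    have e1 : (2 / 3 : ℝ) ^ lam = Real.exp (-(lam * Real.log (3 / 2))) := by
      have h2 : (2 / 3 : ℝ) = (3 / 2)⁻¹ := by norm_num
      rw [h2, inv_pow, Real.exp_neg, mul_comm, Real.exp_mul, Real.exp_log (by norm_num),
        Real.rpow_natCast]
    have e2 : (2 : ℝ) = Real.exp (Real.log 2) := (Real.exp_log (by norm_num)).symm
    rw [e1, regr_three, ← Real.exp_add]
    nth_rewrite 2 [e2]
    rw [← Real.exp_add]
    apply Real.exp_le_exp.2
    have t1 : (j : ℝ) * Real.log 3 ≤ (0.0016 * x) * 1.11 := by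
      apply mul_le_mul hjx hl3' (by linarith) (by positivity)
    have t2 : (lam : ℝ) * 0.34 ≤ lam * Real.log (3 / 2) :=
      mul_le_mul_of_nonneg_left hc (Nat.cast_nonneg _)
    linarith
  have hexp := regr_exp_pow B hxpos
  have hfin : mainB e K (fun A => pT N0 (T - K - A)) x * X ≤
      ((∑ a ∈ range (3 * K + 1), rho M a * DD 0 (pT N0 (T - M - a)) (zz x M a)) +
        3 * (B.factorial * 1000 ^ B) / x ^ B) * X := by
    rw [hsplit, add_mul, ← hD]
    have h2 : X * (3 ^ j * (2 / 3) ^ lam) ≤ X * (2 * Real.exp (-(x / 1000))) :=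
      mul_le_mul_of_nonneg_left herr2 hXpos.le
    have h3 : X * (3 * Real.exp (-(x / 1000))) ≤ 3 * (B.factorial * 1000 ^ B) / x ^ B * X := by
      have h4 := mul_le_mul_of_nonneg_left hexp (by positivity : (0 : ℝ) ≤ 3 * X)
      calc _ = 3 * X * Real.exp (-(x / 1000)) := by ring
        _ ≤ _ := h4
        _ = _ := by ring
    linarith
  exact le_of_mul_le_mul_right hfin hXpos

end Pool.Agent.Lib.MP_e43fce_nt_nat
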