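import Pool.Agent.Lib.MP_e43fce_nt_nat.BRegr
import Pool.Agent.Lib.MP_e43fce_nt_nat.T1ALL

/-! BT1: T1 with rate `(log N)^(-B)` for every `B`. For `log N0 <= x <= 1.07 log N0` use midB with
`K = floor(3x/10)`: all `Z_A <= N0`, the main term vanishes. For `x >= 1.07 log N0`: midB with
`K = floor(x/25)` and regroupB, then the induction of T1ODD over heights in [.98x,.995x];
rho tails outside the window `|a-2K'| <= e K'` by rho_lower, rho_upper. -/

set_option autoImplicit false

namespace Pool.Agent.Lib.MP_e43fce_nt_nat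

open Finset

/-- geometry of the window -/
theorem bt1_geom {e x c : ℝ} {K A : ℕ} (he0 : 0 < e) (he1 : e ≤ 1 / 100)
    (hA : |(A : ℝ) - 2 * K| ≤ e * K) (hc : c = Real.log (4 / 3)) :
    0.243 * (K : ℝ) ≤ x - zz x K A ∧ x - zz x K A ≤ 0.341 * (K : ℝ) ∧
      (c - e * Real.log 2) * K ≤ x - zz x K A := by
  have hl2 : Real.log 2 < 0.7 := by
    have := Real.log_two_lt_d9
    norm_num at this ⊢
    linarith
  have hl2' : 0 < Real.log 2 := Real.log_pos (by norm_num)
  have hK0 : (0 : ℝ) ≤ K := Nat.cast_nonneg K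
  have hz : zz x K A = x - c * K - ((A : ℝ) - 2 * K) * Real.log 2 := by
    rw [hc, t1odd_log43]
    unfold zz
    ring
  have hcl := t1odd_c_lower
  have hcu := t1odd_c_upper
  rw [← hc] at hcl hcu
  obtain ⟨hA1, hA2⟩ := abs_le.1 hA
  have heK : e * K ≤ 1 / 100 * K := mul_le_mul_of_nonneg_right he1 hK0
  have heK0 : 0 ≤ e * K := by positivity
  have hp1 : ((A : ℝ) - 2 * K) * Real.log 2 ≤ e * K * Real.log 2 :=
    mul_le_mul_of_nonneg_right hA2 hl2'.le
  have hp2 : -(e * K) * Real.log 2 ≤ ((A : ℝ) - 2 * K) * Real.log 2 :=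
    mul_le_mul_of_nonneg_right hA1 hl2'.le
  have hp3 : e * K * Real.log 2 ≤ 0.007 * K := by
    have : e * K * Real.log 2 ≤ (1 / 100 * K) * 0.7 :=
      mul_le_mul heK hl2.le hl2'.le (by positivity)
    linarith
  have hcK1 : 1 / 4 * (K : ℝ) ≤ c * K := mul_le_mul_of_nonneg_right hcl hK0
  have hcK2 : c * K ≤ 1 / 3 * (K : ℝ) := mul_le_mul_of_nonneg_right hcu hK0
  refine ⟨?_, ?_, ?_⟩
  · rw [hz]
    nlinarith
  · rw [hz]
    nlinarith
  · rw [hz]
    nlinarith

/-- the orbit hypothesis -/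
theorem bt1_rhyp {e : ℝ} {B K N0 T : ℕ} (hT : 4 * K ≤ T) :
    RHypB e B K (pT N0 T) (fun A => pT N0 (T - K - A)) := by
  intro s n hs w hw had hnd
  have hwG := Finset.mem_filter.1 hw
  have hmem := (mem_words (3 * K) K w).1 hwG.1
  have hwin : w.sum ∈ win e K := hwG.2.1
  have hw3 : w.sum < 3 * K + 1 := by
    unfold win at hwin
    exact Finset.mem_range.1 (Finset.mem_filter.1 hwin).1
  have hcol := nd_col hs (fun a ha => (hmem.2 a ha).1) had hnd
  rw [hmem.1] at hcol
  simp only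
  unfold pT
  by_cases hn : ∀ k ≤ T, N0 < col^[k] n
  · rw [if_pos hn, if_pos]
    intro k hk
    rw [← hcol, ← Function.iterate_add_apply]
    apply hn
    omega
  · rw [if_neg hn]
    split_ifs <;> norm_num

/-- the main term vanishes if all heights are at most `log N0` -/
theorem bt1_main_zero {e : ℝ} {K N0 T : ℕ} {x : ℝ} (hN : 0 < N0)
    (h : ∀ A ∈ win e K, zz x K A ≤ Real.log N0) :
    mainB e K (fun A => pT N0 (T - K - A)) x = 0 := by
  unfold mainB
  rw [Finset.sum_eq_zero, zero_div]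
  intro A hA
  rw [mul_eq_zero]
  right
  apply Finset.sum_eq_zero
  intro s hs
  rw [mul_eq_zero]
  left
  have hN' : (0 : ℝ) < N0 := by exact_mod_cast hN
  have hexp : (3 : ℝ) ^ K * Real.exp x / 2 ^ A = Real.exp (zz x K A) := by
    unfold zz
    rw [Real.exp_sub, Real.exp_add, mul_comm (K : ℝ), Real.exp_mul, Real.exp_log (by norm_num),
      mul_comm (A : ℝ), Real.exp_mul, Real.exp_log (by norm_num), Real.rpow_natCast,
      Real.rpow_natCast]
    ring
  rw [hexp] at hs
  unfold oddS at hs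
  have hs2 := (Finset.mem_Icc.1 (Finset.mem_filter.1 hs).1).2
  have hs3 : (s : ℝ) ≤ Real.exp (zz x K A) := by
    refine le_trans (by exact_mod_cast hs2) (Nat.floor_le (Real.exp_pos _).le)
  have hs4 : (s : ℝ) ≤ N0 := by
    refine le_trans hs3 ?_
    calc Real.exp (zz x K A) ≤ Real.exp (Real.log N0) := Real.exp_le_exp.2 (h A hA)
      _ = N0 := Real.exp_log hN'
  have hs5 : s ≤ N0 := by exact_mod_cast hs4
  show pT N0 (T - K - A) s = 0
  unfold pT
  rw [if_neg]
  intro hk
  have h0 := hk 0 (Nat.zero_le _)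
  simp only [Function.iterate_zero, id_eq] at h0
  omega

/-- exponential decay beats powers -/
theorem bt1_exp {d : ℝ} (hd : 0 < d) (B : ℕ) {x : ℝ} (hx : 0 < x) :
    Real.exp (-(d * x)) ≤ (B.factorial / d ^ B) / x ^ B := by
  have h1 : (d * x) ^ B / B.factorial ≤ Real.exp (d * x) :=
    Real.pow_div_factorial_le_exp (d * x) (by positivity) B
  have h2 : (0 : ℝ) < B.factorial := by exact_mod_cast B.factorial_pos
  rw [Real.exp_neg, div_div, ← inv_div]
  apply inv_anti₀ (by positivity)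
  have h3 : d ^ B * x ^ B / B.factorial = (d * x) ^ B / B.factorial := by rw [mul_pow]
  rw [h3]
  exact h1

/-- base region: `log N0 <= x <= 1.07 log N0` -/
theorem bt1_base {e0 : ℝ} (he : 0 < e0) (B : ℕ) : ∃ C x1 : ℝ, 0 < C ∧ 1 ≤ x1 ∧ ∀ N0 : ℕ, 2 ≤ N0 →
    ∀ x : ℝ, x1 ≤ x → x ≤ 1.07 * Real.log N0 → ∀ T : ℕ, (3 / Real.log (4 / 3) + e0) * x ≤ T →
      DD 0 (pT N0 T) x ≤ C / x ^ B := by
  obtain ⟨C, x0, hC, hx0, hM⟩ := midB (show (0 : ℝ) < 1 / 100 by norm_num)
    (show (1 : ℝ) / 100 ≤ 1 / 10 by norm_num) B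
  refine ⟨C, max x0 100, hC, le_trans hx0 (le_max_left _ _), ?_⟩
  intro N0 hN0 x hx hxL T hT
  have hx0' : x0 ≤ x := le_trans (le_max_left _ _) hx
  have hx100 : 100 ≤ x := le_trans (le_max_right _ _) hx
  set K := ⌊3 * x / 10⌋₊ with hKdef
  have hK1 : (K : ℝ) ≤ 3 * x / 10 := Nat.floor_le (by positivity)
  have hK2 : 3 * x / 10 - 1 ≤ K := (Nat.sub_one_lt_floor _).le
  have hc1 : 9 ≤ 3 / Real.log (4 / 3) + e0 := by
    have h1 := t1odd_c_upper
    have h2 := t1odd_c_lower
    have h3 : (9 : ℝ) ≤ 3 / Real.log (4 / 3) := by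
      rw [le_div_iff₀ (by linarith)]
      linarith
    linarith
  have h4K : 4 * K ≤ T := by
    have : ((4 * K : ℕ) : ℝ) ≤ T := by
      push_cast
      nlinarith
    exact_mod_cast this
  have hmain := hM x hx0' K (by linarith) (by linarith) (pT N0 T)
    (fun A => pT N0 (T - K - A)) (t1odd_unit _ _) (fun A => t1odd_unit _ _) (bt1_rhyp h4K)
  rw [bt1_main_zero (by omega) ?_, zero_add] at hmain
  · exact hmain
  · intro A hA
    have hA' : |(A : ℝ) - 2 * K| ≤ 1 / 100 * K := by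
      unfold win at hA
      exact (Finset.mem_filter.1 hA).2
    obtain ⟨g1, _, _⟩ := bt1_geom (x := x) (show (0 : ℝ) < 1 / 100 by norm_num) le_rfl hA' rfl
    have hN0' : (0 : ℝ) ≤ Real.log N0 := Real.log_nonneg (by
      have : (2 : ℝ) ≤ N0 := by exact_mod_cast hN0
      linarith)
    nlinarith

/-- the renewal sum: window and tails -/
theorem bt1_sum {e c c1 x D : ℝ} {K' N N0 T : ℕ} (he0 : 0 < e) (he1 : e ≤ 1 / 100)
    (hc : c = Real.log (4 / 3)) (hc1pos : 0 < c1) (hcond : 3 + e ≤ c1 * (c - e * Real.log 2))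
    (hx : 1000 ≤ x) (hK1 : (K' : ℝ) ≤ x / 25) (hK2 : 0.9 * (x / 25 - 1) ≤ (K' : ℝ))
    (hT : c1 * x ≤ T) (hD : 0 ≤ D) (hyp : ∀ z : ℝ, 0.98 * x ≤ z → z ≤ 0.995 * x →
      ∀ T' : ℕ, c1 * z ≤ T' → DD 0 (pT N0 T') z ≤ D) :
    ∑ a ∈ range N, rho K' a * DD 0 (pT N0 (T - K' - a)) (zz x K' a)
      ≤ D + Real.exp (-(e ^ 2 * K' / 4)) + Real.exp (-(e ^ 2 * K' / 11)) := by
  have hK'0 : (0 : ℝ) ≤ K' := Nat.cast_nonneg K'
  have hterm : ∀ a ∈ range N,
      rho K' a * DD 0 (pT N0 (T - K' - a)) (zz x K' a) ≤ rho K' a * D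
        + ((if (a : ℝ) ≤ (2 - e) * K' then rho K' a else 0)
          + (if (2 + e) * K' ≤ (a : ℝ) then rho K' a else 0)) := by
    intro a _
    have hr := rho_nonneg K' a
    have hdd1 : DD 0 (pT N0 (T - K' - a)) (zz x K' a) ≤ 1 := DD0_le_one (t1odd_unit _ _) _
    have hrd : rho K' a * DD 0 (pT N0 (T - K' - a)) (zz x K' a) ≤ rho K' a := by
      calc rho K' a * DD 0 (pT N0 (T - K' - a)) (zz x K' a) ≤ rho K' a * 1 :=
            mul_le_mul_of_nonneg_left hdd1 hr
        _ = rho K' a := mul_one _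
    have hrD : 0 ≤ rho K' a * D := mul_nonneg hr hD
    by_cases h1 : (a : ℝ) ≤ (2 - e) * K'
    · rw [if_pos h1]
      have : (0 : ℝ) ≤ if (2 + e) * K' ≤ (a : ℝ) then rho K' a else 0 := by
        split_ifs
        · exact hr
        · exact le_rfl
      linarith
    · by_cases h2 : (2 + e) * K' ≤ (a : ℝ)
      · rw [if_neg h1, if_pos h2]
        linarith
      · rw [if_neg h1, if_neg h2]
        push Not at h1 h2
        have hwin : |(a : ℝ) - 2 * K'| ≤ e * K' := by
          rw [abs_le]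
          constructor <;> linarith
        obtain ⟨g1, g2, g3⟩ := bt1_geom (x := x) he0 he1 hwin hc
        have hz1 : 0.98 * x ≤ zz x K' a := by linarith
        have hz2 : zz x K' a ≤ 0.995 * x := by linarith
        have hz0 : 0 ≤ zz x K' a := by linarith
        have h3 : (K' : ℝ) + a ≤ c1 * (x - zz x K' a) := by
          have h31 : (K' : ℝ) + a ≤ (3 + e) * K' := by linarith
          have h32 : (3 + e) * K' ≤ c1 * (c - e * Real.log 2) * K' :=
            mul_le_mul_of_nonneg_right hcond hK'0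
          have h33 : c1 * ((c - e * Real.log 2) * K') ≤ c1 * (x - zz x K' a) :=
            mul_le_mul_of_nonneg_left g3 hc1pos.le
          linarith
        have h40 : c1 * (x - zz x K' a) = c1 * x - c1 * zz x K' a := by ring
        rw [h40] at h3
        have h4 : (K' : ℝ) + a ≤ T := by
          have : 0 ≤ c1 * zz x K' a := by positivity
          linarith
        have h5 : K' + a ≤ T := by exact_mod_cast h4
        have h6 : c1 * zz x K' a ≤ ((T - K' - a : ℕ) : ℝ) := by
          rw [Nat.sub_sub, Nat.cast_sub h5]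
          push_cast
          linarith
        have h7 := hyp (zz x K' a) hz1 hz2 (T - K' - a) h6
        have h8 := mul_le_mul_of_nonneg_left h7 hr
        linarith
  have hlow := rho_lower he0 (by linarith : e ≤ 1) K' N
  have hupp := rho_upper he0 (by linarith : e ≤ 1) K' N
  calc ∑ a ∈ range N, rho K' a * DD 0 (pT N0 (T - K' - a)) (zz x K' a)
      ≤ ∑ a ∈ range N, (rho K' a * D
        + ((if (a : ℝ) ≤ (2 - e) * K' then rho K' a else 0)
          + (if (2 + e) * K' ≤ (a : ℝ) then rho K' a else 0))) := Finset.sum_le_sum hterm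
    _ = (∑ a ∈ range N, rho K' a) * D
        + ((∑ a ∈ (range N).filter (fun a : ℕ => (a : ℝ) ≤ (2 - e) * K'), rho K' a)
          + (∑ a ∈ (range N).filter (fun a : ℕ => (2 + e) * K' ≤ (a : ℝ)),
              rho K' a)) := by
        rw [Finset.sum_add_distrib, Finset.sum_add_distrib, Finset.sum_mul,
          Finset.sum_filter, Finset.sum_filter]
    _ ≤ 1 * D + (Real.exp (-(e ^ 2 * K' / 4)) + Real.exp (-(e ^ 2 * K' / 11))) := by
        have h1 := mul_le_mul_of_nonneg_right (rho_sum_le K' N) hD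
        linarith
    _ = D + Real.exp (-(e ^ 2 * K' / 4)) + Real.exp (-(e ^ 2 * K' / 11)) := by ring

theorem bt1_i1 {K : ℕ} (hK39 : (39 : ℝ) ≤ K) : ((i1 K : ℕ) : ℝ) ≤ K / 10 := by
  have hK0 : (0 : ℝ) ≤ K := by linarith
  have h4 : (((i1 K : ℕ) : ℝ) ^ 2) ^ 2 ≤ K := by exact_mod_cast t1odd_i1 K
  by_contra hcon
  push Not at hcon
  have h5 : ((K : ℝ) / 10) ^ 2 < ((i1 K : ℕ) : ℝ) ^ 2 :=
    pow_lt_pow_left₀ hcon (by positivity) (by norm_num)
  have h6 : (((K : ℝ) / 10) ^ 2) ^ 2 < (((i1 K : ℕ) : ℝ) ^ 2) ^ 2 :=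
    pow_lt_pow_left₀ h5 (by positivity) (by norm_num)
  have h7 : (((K : ℝ) / 10) ^ 2) ^ 2 = (K : ℝ) * (K * K * K) / 10000 := by ring
  have h8 : (39 : ℝ) * 39 * 39 ≤ K * K * K := by
    have := mul_le_mul hK39 hK39 (by norm_num) hK0
    exact mul_le_mul this hK39 (by norm_num) (by positivity)
  nlinarith

theorem bt1_tail {e x C3 : ℝ} {B K' : ℕ} (he0 : 0 < e) (hx : 0 < x)
    (hC3 : C3 = (B.factorial : ℝ) / (e ^ 2 / 11 * (1 / 50)) ^ B) (hK'x : x / 50 ≤ (K' : ℝ)) :
    Real.exp (-(e ^ 2 * K' / 4)) ≤ C3 / x ^ B ∧ Real.exp (-(e ^ 2 * K' / 11)) ≤ C3 / x ^ B := by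
  have hd0 : 0 < e ^ 2 / 11 * (1 / 50) := by positivity
  have he2 : 0 ≤ e ^ 2 := by positivity
  have hb := bt1_exp hd0 B hx
  rw [← hC3] at hb
  constructor
  · refine le_trans ?_ hb
    apply Real.exp_le_exp.2
    have : e ^ 2 / 11 * (x / 50) ≤ e ^ 2 / 4 * K' := by
      apply mul_le_mul _ hK'x (by positivity) (by positivity)
      linarith
    linarith
  · refine le_trans ?_ hb
    apply Real.exp_le_exp.2
    have : e ^ 2 / 11 * (x / 50) ≤ e ^ 2 / 11 * K' := by
      apply mul_le_mul le_rfl hK'x (by positivity) (by positivity)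
    linarith

/-- the choice of the window -/
theorem bt1_choice {e0 : ℝ} (he : 0 < e0) : ∃ e : ℝ, 0 < e ∧ e ≤ 1 / 100 ∧
    3 + e ≤ (3 / Real.log (4 / 3) + e0) * (Real.log (4 / 3) - e * Real.log 2) := by
  set c := Real.log (4 / 3) with hc
  set c1 := 3 / c + e0 with hc1
  have hcl : 1 / 4 ≤ c := t1odd_c_lower
  have hc0 : 0 < c := by linarith
  have hc1pos : 0 < c1 := by positivity
  have hl2 : Real.log 2 ≤ 1 := by
    have := Real.log_two_lt_d9
    norm_num at this ⊢
    linarith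
  have he0' : 0 < min (1 / 100) (e0 * c / (1 + c1)) := lt_min (by norm_num) (by positivity)
  refine ⟨min (1 / 100) (e0 * c / (1 + c1)), he0', min_le_left _ _, ?_⟩
  set e := min (1 / 100) (e0 * c / (1 + c1)) with hedef
  have he2 : e * (1 + c1) ≤ e0 * c := by
    have : e ≤ e0 * c / (1 + c1) := min_le_right _ _
    rwa [le_div_iff₀ (by positivity)] at this
  have h1 : c1 * c = 3 + e0 * c := by
    rw [hc1]
    field_simp
  have h2 : c1 * (e * Real.log 2) ≤ c1 * e := by
    have : e * Real.log 2 ≤ e := by nlinarith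
    exact mul_le_mul_of_nonneg_left this hc1pos.le
  nlinarith

/-- renewal step: `x >= 1.07 log N0` -/
theorem bt1_step {e0 : ℝ} (he : 0 < e0) (B : ℕ) : ∃ C x1 : ℝ, 0 < C ∧ 1 ≤ x1 ∧ ∀ N0 : ℕ, 2 ≤ N0 →
    ∀ x : ℝ, x1 ≤ x → 1.07 * Real.log N0 ≤ x → ∀ T : ℕ, (3 / Real.log (4 / 3) + e0) * x ≤ T →
    ∀ D : ℝ, 0 ≤ D → (∀ z : ℝ, 0.98 * x ≤ z → z ≤ 0.995 * x →
      ∀ T' : ℕ, (3 / Real.log (4 / 3) + e0) * z ≤ T' → DD 0 (pT N0 T') z ≤ D) →
    DD 0 (pT N0 T) x ≤ D + C / x ^ B := by
  obtain ⟨e, he0', he1, hcond⟩ := bt1_choice he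
  have hcu : Real.log (4 / 3) ≤ 1 / 3 := t1odd_c_upper
  have hcl : 1 / 4 ≤ Real.log (4 / 3) := t1odd_c_lower
  have hc0 : 0 < Real.log (4 / 3) := by linarith
  have hc1pos : 0 < 3 / Real.log (4 / 3) + e0 := by positivity
  have hc19 : 9 ≤ 3 / Real.log (4 / 3) + e0 := by
    have h3 : (9 : ℝ) ≤ 3 / Real.log (4 / 3) := by
      rw [le_div_iff₀ hc0]
      linarith
    linarith
  obtain ⟨C1, x0, hC1, hx0, hM⟩ := midB he0' (by linarith : e ≤ 1 / 10) B
  obtain ⟨C2, x2, hC2, hx2, hRg⟩ := regroupB he0' (by linarith : e ≤ 1 / 10) B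
  have hfac : (0 : ℝ) < B.factorial := by exact_mod_cast B.factorial_pos
  obtain ⟨C3, hC3⟩ : ∃ C3 : ℝ, C3 = (B.factorial : ℝ) / (e ^ 2 / 11 * (1 / 50)) ^ B := ⟨_, rfl⟩
  have hC3p : 0 < C3 := by
    rw [hC3]
    positivity
  refine ⟨C1 + C2 + 2 * C3, max (max x0 x2) 1000, by positivity,
    le_trans hx0 (le_trans (le_max_left _ _) (le_max_left _ _)), ?_⟩
  intro N0 hN0 x hx hxL T hT D hD hyp
  have hx0' : x0 ≤ x := le_trans (le_trans (le_max_left _ _) (le_max_left _ _)) hx
  have hx2' : x2 ≤ x := le_trans (le_trans (le_max_right _ _) (le_max_left _ _)) hx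
  have hx1000 : 1000 ≤ x := le_trans (le_max_right _ _) hx
  have hxpos : 0 < x := by linarith
  have hN0' : (2 : ℝ) ≤ N0 := by exact_mod_cast hN0
  obtain ⟨K, hK1, hK2⟩ : ∃ K : ℕ, (K : ℝ) ≤ x / 25 ∧ x / 25 - 1 ≤ (K : ℝ) :=
    ⟨⌊x / 25⌋₊, Nat.floor_le (by positivity), (Nat.sub_one_lt_floor _).le⟩
  have hK0 : (0 : ℝ) ≤ K := Nat.cast_nonneg K
  have h4K : 4 * K ≤ T := by
    have h41 : 9 * x ≤ (3 / Real.log (4 / 3) + e0) * x :=
      mul_le_mul_of_nonneg_right hc19 hxpos.le
    have : ((4 * K : ℕ) : ℝ) ≤ T := by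
      push_cast
      linarith
    exact_mod_cast this
  have hi1 : ((i1 K : ℕ) : ℝ) ≤ K / 10 := bt1_i1 (by linarith)
  have hi1K : i1 K ≤ K := by
    have : ((i1 K : ℕ) : ℝ) ≤ K := by linarith
    exact_mod_cast this
  have hK'1 : ((K - i1 K : ℕ) : ℝ) ≤ x / 25 := by
    have : ((K - i1 K : ℕ) : ℝ) ≤ K := by exact_mod_cast Nat.sub_le _ _
    linarith
  have hK'2 : 0.9 * (x / 25 - 1) ≤ ((K - i1 K : ℕ) : ℝ) := by
    rw [Nat.cast_sub hi1K]
    linarith
  have hmain := hM x hx0' K (by linarith) (by linarith) (pT N0 T)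
    (fun A => pT N0 (T - K - A)) (t1odd_unit _ _) (fun A => t1odd_unit _ _) (bt1_rhyp h4K)
  have hNexp : (N0 : ℝ) ≤ Real.exp (x / 1.07) := by
    calc (N0 : ℝ) = Real.exp (Real.log N0) := (Real.exp_log (by linarith)).symm
      _ ≤ Real.exp (x / 1.07) := by
        apply Real.exp_le_exp.2
        rw [le_div_iff₀ (by norm_num)]
        linarith
  have hreg := hRg x hx2' K N0 T (by linarith) (by linarith) hNexp h4K
  have hsum := bt1_sum (N := 3 * K + 1) he0' he1 rfl hc1pos hcond hx1000 hK'1 hK'2 hT hD hyp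
  obtain ⟨ht1, ht2⟩ := bt1_tail (B := B) he0' hxpos hC3
    (show x / 50 ≤ ((K - i1 K : ℕ) : ℝ) by linarith)
  have hfin : (C1 + C2 + 2 * C3) / x ^ B
      = C1 / x ^ B + C2 / x ^ B + (C3 / x ^ B + C3 / x ^ B) := by
    rw [add_div, add_div, two_mul, add_div]
  rw [hfin]
  linarith

theorem T1_oddB {e0 : ℝ} (he : 0 < e0) (B : ℕ) : ∃ C : ℝ, 0 < C ∧ ∀ N0 : ℕ, 2 ≤ N0 → ∀ x : ℝ,
    0 ≤ x → ∀ T : ℕ, (3 / Real.log (4 / 3) + e0) * x ≤ T →
      DD 0 (pT N0 T) x ≤ C / (Real.log N0) ^ B := by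
  rcases Nat.eq_zero_or_pos B with rfl | hB
  · refine ⟨1, one_pos, ?_⟩
    intro N0 _ x _ T _
    simpa using DD0_le_one (t1odd_unit N0 T) x
  obtain ⟨Cb, xb, hCb, hxb, hbase⟩ := bt1_base he B
  obtain ⟨Cs, xs, hCs, hxs, hstep⟩ := bt1_step he B
  set x1 := max xb xs with hx1
  have hx1b : xb ≤ x1 := le_max_left _ _
  have hx1s : xs ≤ x1 := le_max_right _ _
  have hx1pos : 0 < x1 := by linarith
  set E := 200 * Cs with hE
  have hEpos : 0 < E := by positivity
  refine ⟨Cb + E + x1 ^ B, by positivity, ?_⟩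
  intro N0 hN0 x hx T hT
  have hN0' : (2 : ℝ) ≤ N0 := by exact_mod_cast hN0
  set L := Real.log N0 with hL
  have hLpos : 0 < L := Real.log_pos (by linarith)
  have hLB : 0 < L ^ B := by positivity
  by_cases hLx : x1 ≤ L
  · -- induction over the height
    have hzero : ∀ y : ℝ, y ≤ L → ∀ T : ℕ, DD 0 (pT N0 T) y = 0 := by
      intro y hy T
      apply t1odd_zero
      calc Real.exp y ≤ Real.exp L := Real.exp_le_exp.2 hy
        _ = N0 := Real.exp_log (by linarith)
    have hind : ∀ n : ℕ, ∀ y : ℝ, L ≤ y → y * 0.995 ^ n ≤ 1.07 * L → ∀ T : ℕ,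
        (3 / Real.log (4 / 3) + e0) * y ≤ T →
        DD 0 (pT N0 T) y ≤ (Cb + E) / L ^ B - E / y ^ B := by
      have hsmall : ∀ y : ℝ, L ≤ y → y ≤ 1.07 * L → ∀ T : ℕ,
          (3 / Real.log (4 / 3) + e0) * y ≤ T →
          DD 0 (pT N0 T) y ≤ (Cb + E) / L ^ B - E / y ^ B := by
        intro y hy hy2 T hT
        have hypos : 0 < y := by linarith
        have h1 := hbase N0 hN0 y (by linarith) hy2 T hT
        have hpow : L ^ B ≤ y ^ B := pow_le_pow_left₀ hLpos.le hy B
        have h2 : Cb / y ^ B ≤ Cb / L ^ B := div_le_div_of_nonneg_left hCb.le hLB hpow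
        have h3 : E / y ^ B ≤ E / L ^ B := div_le_div_of_nonneg_left hEpos.le hLB hpow
        have h4 : (Cb + E) / L ^ B = Cb / L ^ B + E / L ^ B := add_div _ _ _
        linarith
      intro n
      induction n with
      | zero =>
        intro y hy hyn T hT
        exact hsmall y hy (by simpa using hyn) T hT
      | succ n ih =>
        intro y hy hyn T hT
        by_cases hy2 : y ≤ 1.07 * L
        · exact hsmall y hy hy2 T hT
        · push Not at hy2
          have hypos : 0 < y := by linarith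
          set D := (Cb + E) / L ^ B - E / (0.995 * y) ^ B with hD
          have hDnn : 0 ≤ D := by
            have hpow : L ^ B ≤ (0.995 * y) ^ B := pow_le_pow_left₀ hLpos.le (by nlinarith) B
            have h3 : E / (0.995 * y) ^ B ≤ E / L ^ B :=
              div_le_div_of_nonneg_left hEpos.le hLB hpow
            have h4 : (Cb + E) / L ^ B = Cb / L ^ B + E / L ^ B := add_div _ _ _
            have h5 : 0 ≤ Cb / L ^ B := by positivity
            rw [hD]
            linarith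
          have key := hstep N0 hN0 y (by linarith) hy2.le T hT D hDnn ?_
          · refine le_trans key ?_
            have hyB : 0 < y ^ B := by positivity
            have h995 : (0.995 : ℝ) ^ B ≤ 0.995 := by
              calc (0.995 : ℝ) ^ B ≤ 0.995 ^ 1 :=
                    pow_le_pow_of_le_one (by norm_num) (by norm_num) hB
                _ = 0.995 := pow_one _
            have h995p : (0 : ℝ) < 0.995 ^ B := by positivity
            have h6 : E / y ^ B * 1.005 ≤ E / (0.995 * y) ^ B := by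
              rw [mul_pow, div_mul_eq_mul_div, div_le_div_iff₀ hyB (by positivity)]
              have h61 : (1.005 : ℝ) * 0.995 ^ B ≤ 1 := by nlinarith
              have h62 : E * (1.005 * 0.995 ^ B) ≤ E * 1 :=
                mul_le_mul_of_nonneg_left h61 hEpos.le
              nlinarith
            have h7 : Cs / y ^ B = E / y ^ B * 0.005 := by
              rw [hE]
              ring
            rw [hD, h7]
            linarith
          · intro z hz1 hz2 T' hT'
            have hz0 : 0 < z := by nlinarith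
            have h10 := ih z (by nlinarith) (by
              have h11 : z * 0.995 ^ n ≤ 0.995 * y * 0.995 ^ n :=
                mul_le_mul_of_nonneg_right hz2 (by positivity)
              have h12 : 0.995 * y * 0.995 ^ n = y * 0.995 ^ (n + 1) := by ring
              linarith) T' hT'
            refine le_trans h10 ?_
            have hpow : z ^ B ≤ (0.995 * y) ^ B := pow_le_pow_left₀ hz0.le hz2 B
            have h13 : E / (0.995 * y) ^ B ≤ E / z ^ B :=
              div_le_div_of_nonneg_left hEpos.le (by positivity) hpow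
            rw [hD]
            linarith
    by_cases hxL : x ≤ L
    · rw [hzero x hxL T]
      positivity
    · push Not at hxL
      have hxpos : 0 < x := by linarith
      obtain ⟨n, hn⟩ := exists_pow_lt_of_lt_one (show 0 < 1.07 * L / x by positivity)
        (show (0.995 : ℝ) < 1 by norm_num)
      have hn' : x * 0.995 ^ n ≤ 1.07 * L := by
        rw [lt_div_iff₀ hxpos] at hn
        linarith
      have h1 := hind n x hxL.le hn' T hT
      have h2 : 0 ≤ E / x ^ B := by positivity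
      calc DD 0 (pT N0 T) x ≤ (Cb + E) / L ^ B := by linarith
        _ ≤ (Cb + E + x1 ^ B) / L ^ B := by
            apply div_le_div_of_nonneg_right _ hLB.le
            have : 0 ≤ x1 ^ B := by positivity
            linarith
  · push Not at hLx
    have h1 : DD 0 (pT N0 T) x ≤ 1 := DD0_le_one (t1odd_unit _ _) x
    refine le_trans h1 ?_
    rw [le_div_iff₀ hLB, one_mul]
    have h2 : L ^ B ≤ x1 ^ B := pow_le_pow_left₀ hLpos.le hLx.le B
    linarith

open Classical in
theorem T1_allB {e0 : ℝ} (he : 0 < e0) (B : ℕ) : ∃ C : ℝ, 0 < C ∧ ∀ N0 X : ℕ, 2 ≤ N0 → 1 ≤ X →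
    (((Icc 1 X).filter (fun n => ∀ k : ℕ, (k : ℝ) ≤ (3 / Real.log (4 / 3) + e0) * Real.log X + C →
        N0 < col^[k] n)).card : ℝ) ≤ C / (Real.log N0) ^ B * X := by
  obtain ⟨C1, hC1, hodd⟩ := T1_oddB he B
  refine ⟨2 * C1 + 1, by positivity, ?_⟩
  intro N0 X hN0 hX
  set c1 := 3 / Real.log (4 / 3) + e0 with hc1
  have hN0' : (2 : ℝ) ≤ N0 := by exact_mod_cast hN0
  have hX' : (1 : ℝ) ≤ X := by exact_mod_cast hX
  have hLpos : 0 < Real.log N0 := Real.log_pos (by linarith)
  set g := 1 / (Real.log N0) ^ B with hg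
  have hg0 : 0 < g := by positivity
  have hc1ge : 9 ≤ c1 := by
    have h1 := t1odd_c_upper
    have h2 := t1odd_c_lower
    have h3 : (9 : ℝ) ≤ 3 / Real.log (4 / 3) := by
      rw [le_div_iff₀ (by linarith)]
      linarith
    linarith
  have hl2 : (0.6 : ℝ) ≤ Real.log 2 := by
    have := Real.log_two_gt_d9
    norm_num at this ⊢
    linarith
  set y : ℕ → ℝ := fun j => Real.log X - j * Real.log 2 with hy
  have hey : ∀ j, Real.exp (y j) = X / 2 ^ j := by
    intro j
    rw [hy]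
    simp only
    rw [Real.exp_sub, Real.exp_log (by linarith), mul_comm, Real.exp_mul, Real.exp_log (by norm_num),
      Real.rpow_natCast]
  set T : ℕ → ℕ := fun j => ⌈c1 * y j⌉₊ with hT
  set O : ℕ → Finset ℕ := fun j => (oddS (Real.exp (y j))).filter (fun m => pT N0 (T j) m = 1)
    with hO
  set S := (Icc 1 X).filter (fun n => ∀ k : ℕ, (k : ℝ) ≤ c1 * Real.log X + (2 * C1 + 1) →
        N0 < col^[k] n) with hS
  have hcov : S ⊆ (range (X + 1)).biUnion (fun j => (O j).image (fun m => 2 ^ j * m)) := by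
    intro n hn
    obtain ⟨hn1, hn2⟩ := Finset.mem_filter.1 hn
    obtain ⟨hn3, hn4⟩ := Finset.mem_Icc.1 hn1
    obtain ⟨j, m, hm, hnm⟩ := Nat.exists_eq_two_pow_mul_odd (show n ≠ 0 by omega)
    have hmpos : 1 ≤ m := hm.pos
    have hjX : j < X + 1 := by
      have h1 : j < 2 ^ j := Nat.lt_two_pow_self
      have h2 : 2 ^ j * 1 ≤ 2 ^ j * m := Nat.mul_le_mul_left _ hmpos
      omega
    have hmX : (m : ℝ) ≤ X / 2 ^ j := by
      rw [le_div_iff₀ (by positivity)]
      have h3 : m * 2 ^ j ≤ X := by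
        rw [mul_comm, ← hnm]
        exact hn4
      exact_mod_cast h3
    have hyj : 0 ≤ y j := by
      have h4 : (1 : ℝ) ≤ Real.exp (y j) := by
        rw [hey]
        have : (1 : ℝ) ≤ m := by exact_mod_cast hmpos
        linarith
      by_contra hcon
      push Not at hcon
      have := (Real.exp_lt_exp.2 hcon).trans_eq Real.exp_zero
      linarith
    rw [Finset.mem_biUnion]
    refine ⟨j, Finset.mem_range.2 hjX, ?_⟩
    rw [Finset.mem_image]
    refine ⟨m, ?_, hnm.symm⟩
    rw [hO]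
    simp only
    rw [Finset.mem_filter]
    refine ⟨?_, ?_⟩
    · unfold oddS
      rw [Finset.mem_filter, Finset.mem_Icc]
      refine ⟨⟨hmpos, ?_⟩, Nat.odd_iff.1 hm⟩
      apply Nat.le_floor
      rw [hey]
      exact hmX
    · unfold pT
      rw [if_pos]
      intro k hk
      have h5 : col^[k] m = col^[k + j] n := by
        rw [Function.iterate_add_apply, hnm, t1all_col]
      rw [h5]
      apply hn2
      have h6 : (k : ℝ) ≤ T j := by exact_mod_cast hk
      have h7 : ((T j : ℕ) : ℝ) < c1 * y j + 1 := Nat.ceil_lt_add_one (by positivity)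
      have h8 : y j = Real.log X - j * Real.log 2 := rfl
      have h9 : (0 : ℝ) ≤ j := Nat.cast_nonneg j
      have h10 : (1 : ℝ) ≤ c1 * Real.log 2 := by nlinarith
      have h11 : (j : ℝ) * 1 ≤ j * (c1 * Real.log 2) := mul_le_mul_of_nonneg_left h10 h9
      push_cast
      rw [h8] at h7
      nlinarith
  have hpiece : ∀ j, ((O j).card : ℝ) ≤ C1 * g * (X / 2 ^ j) := by
    intro j
    by_cases hyj : 0 ≤ y j
    · have h1 := t1all_card N0 (T j) (y j)
      have h2 := hodd N0 hN0 (y j) hyj (T j) (Nat.le_ceil _)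
      rw [← hey]
      have h3 : C1 / (Real.log N0) ^ B = C1 * g := by
        rw [hg]
        ring
      rw [h3] at h2
      exact le_trans h1 (mul_le_mul_of_nonneg_right h2 (Real.exp_pos _).le)
    · push Not at hyj
      have h3 : O j = ∅ := by
        rw [hO]
        simp only
        unfold oddS
        have h4 : ⌊Real.exp (y j)⌋₊ = 0 :=
          Nat.floor_eq_zero.2 ((Real.exp_lt_exp.2 hyj).trans_eq Real.exp_zero)
        rw [h4]
        rfl
      rw [h3]
      simp only [Finset.card_empty, Nat.cast_zero]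
      positivity
  have hgeo : ∑ j ∈ range (X + 1), (1 : ℝ) / 2 ^ j ≤ 2 := by
    have h1 : ∀ n : ℕ, ∑ j ∈ range n, (1 : ℝ) / 2 ^ j = 2 - 2 / 2 ^ n := by
      intro n
      induction n with
      | zero => simp
      | succ n ih =>
        rw [Finset.sum_range_succ, ih, pow_succ]
        field_simp
        ring
    rw [h1]
    have : (0 : ℝ) < 2 / 2 ^ (X + 1) := by positivity
    linarith
  calc ((S.card : ℕ) : ℝ) ≤ (((range (X + 1)).biUnion
          (fun j => (O j).image (fun m => 2 ^ j * m))).card : ℝ) := by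
        exact_mod_cast Finset.card_le_card hcov
    _ ≤ ((∑ j ∈ range (X + 1), ((O j).image (fun m => 2 ^ j * m)).card : ℕ) : ℝ) := by
        exact_mod_cast Finset.card_biUnion_le
    _ ≤ ((∑ j ∈ range (X + 1), (O j).card : ℕ) : ℝ) := by
        have : ∑ j ∈ range (X + 1), ((O j).image (fun m => 2 ^ j * m)).card
            ≤ ∑ j ∈ range (X + 1), (O j).card :=
          Finset.sum_le_sum fun j _ => Finset.card_image_le
        exact_mod_cast this
    _ = ∑ j ∈ range (X + 1), ((O j).card : ℝ) := by push_cast; rfl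
    _ ≤ ∑ j ∈ range (X + 1), C1 * g * (X / 2 ^ j) := Finset.sum_le_sum fun j _ => hpiece j
    _ = C1 * g * X * ∑ j ∈ range (X + 1), (1 : ℝ) / 2 ^ j := by
        rw [Finset.mul_sum]
        apply Finset.sum_congr rfl
        intro j _
        ring
    _ ≤ C1 * g * X * 2 := by
        apply mul_le_mul_of_nonneg_left hgeo
        positivity
    _ ≤ (2 * C1 + 1) / (Real.log N0) ^ B * X := by
        have h1 : (2 * C1 + 1) / (Real.log N0) ^ B * X = (2 * C1 + 1) * (g * X) := by
          rw [hg]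
          ring
        rw [h1]
        have : 0 ≤ g * X := by positivity
        nlinarith

end Pool.Agent.Lib.MP_e43fce_nt_nat
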