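import Pool.Agent.Lib.MP_e43fce_nt_nat.T1ALL

/-! FUP: almost all `n` which reach `1` do so within `(c0 + e0) log n` steps. -/

set_option autoImplicit false

namespace Pool.Agent.Lib.MP_e43fce_nt_nat

open Finset

namespace FUPaux

/-- every iterate of a number which reaches `1` reaches `1` -/
theorem reach_iter {n : ℕ} (h : ∃ j : ℕ, col^[j] n = 1) (k : ℕ) :
    ∃ j : ℕ, col^[j] (col^[k] n) = 1 := by
  induction k with
  | zero => simpa using h
  | succ k ih =>
    obtain ⟨j, hj⟩ := ih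
    rw [Function.iterate_succ_apply']
    rcases j with _ | j
    · refine ⟨2, ?_⟩
      have h1 : col^[k] n = 1 := by simpa using hj
      rw [h1]
      decide
    · exact ⟨j, by rwa [Function.iterate_succ_apply] at hj⟩

theorem max_time (N0 : ℕ) : ∃ L : ℕ, ∀ m : ℕ, m ≤ N0 → (∃ k : ℕ, col^[k] m = 1) →
    ∃ k ≤ L, col^[k] m = 1 := by
  induction N0 with
  | zero =>
    by_cases h : ∃ k : ℕ, col^[k] 0 = 1
    · obtain ⟨k, hk⟩ := h
      refine ⟨k, fun m hm _ => ⟨k, le_rfl, ?_⟩⟩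
      have : m = 0 := by omega
      rw [this]; exact hk
    · refine ⟨0, fun m hm hr => ?_⟩
      have : m = 0 := by omega
      rw [this] at hr
      exact absurd hr h
  | succ N ih =>
    obtain ⟨L, hL⟩ := ih
    by_cases h : ∃ k : ℕ, col^[k] (N + 1) = 1
    · obtain ⟨k, hk⟩ := h
      refine ⟨max L k, fun m hm hr => ?_⟩
      rcases Nat.lt_or_ge m (N + 1) with h1 | h1
      · obtain ⟨j, hj, hj'⟩ := hL m (by omega) hr
        exact ⟨j, hj.trans (le_max_left _ _), hj'⟩
      · have : m = N + 1 := by omega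
        rw [this]; exact ⟨k, le_max_right _ _, hk⟩
    · refine ⟨L, fun m hm hr => ?_⟩
      rcases Nat.lt_or_ge m (N + 1) with h1 | h1
      · exact hL m (by omega) hr
      · have : m = N + 1 := by omega
        rw [this] at hr
        exact absurd hr h

theorem exists_N0 (C η : ℝ) (hη : 0 < η) :
    ∃ N0 : ℕ, 2 ≤ N0 ∧ C * (Real.log N0) ^ (-(1 / 4) : ℝ) ≤ η := by
  have h1 : Filter.Tendsto (fun N : ℕ => Real.log (N : ℝ)) Filter.atTop Filter.atTop :=
    Real.tendsto_log_atTop.comp tendsto_natCast_atTop_atTop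
  have h2 : Filter.Tendsto (fun N : ℕ => (Real.log (N : ℝ)) ^ (-(1 / 4) : ℝ))
      Filter.atTop (nhds 0) :=
    (tendsto_rpow_neg_atTop (by norm_num : (0 : ℝ) < 1 / 4)).comp h1
  have h3 : Filter.Tendsto (fun N : ℕ => C * (Real.log (N : ℝ)) ^ (-(1 / 4) : ℝ))
      Filter.atTop (nhds (C * 0)) := h2.const_mul C
  rw [mul_zero] at h3
  have h4 := (h3.eventually_lt_const hη).and (Filter.eventually_ge_atTop 2)
  obtain ⟨N, hN1, hN2⟩ := h4.exists
  exact ⟨N, hN2, hN1.le⟩

end FUPaux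

open FUPaux

open Classical in
theorem fin_upper {e0 : ℝ} (he : 0 < e0) :
    Filter.Tendsto (fun X : ℕ => (((Icc 1 X).filter (fun n : ℕ => (∃ k : ℕ, col^[k] n = 1) ∧
        ¬ ∃ k : ℕ, (k : ℝ) ≤ (3 / Real.log (4 / 3) + e0) * Real.log n ∧ col^[k] n = 1)).card : ℝ) / X)
      Filter.atTop (nhds 0) := by
  set c0 : ℝ := 3 / Real.log (4 / 3) with hc0
  have hc0pos : 0 < c0 := div_pos (by norm_num) (Real.log_pos (by norm_num))
  obtain ⟨C, hC, hT⟩ := T1_all (e0 := e0 / 2) (by linarith)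
  rw [Metric.tendsto_atTop]
  intro ε hε
  obtain ⟨N0, hN0, hN0'⟩ := exists_N0 C (ε / 4) (by linarith)
  obtain ⟨L, hL⟩ := max_time N0
  have h1 : Filter.Tendsto (fun N : ℕ => e0 / 2 * Real.log (N : ℝ)) Filter.atTop Filter.atTop :=
    (Real.tendsto_log_atTop.comp tendsto_natCast_atTop_atTop).const_mul_atTop (by linarith)
  have h2 := h1.eventually_ge_atTop ((c0 + e0) * Real.log (4 / ε) + C + L)
  obtain ⟨N1, hN1⟩ := Filter.eventually_atTop.1 h2
  refine ⟨max N1 1, fun X hX => ?_⟩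
  have hX1 : N1 ≤ X := (le_max_left _ _).trans hX
  have hX2 : 1 ≤ X := (le_max_right _ _).trans hX
  have hXpos : (0 : ℝ) < X := by exact_mod_cast hX2
  have hbig := hN1 X hX1
  have hTX := hT N0 X hN0 hX2
  set B := (Icc 1 X).filter (fun n : ℕ => (∃ k : ℕ, col^[k] n = 1) ∧
        ¬ ∃ k : ℕ, (k : ℝ) ≤ (c0 + e0) * Real.log n ∧ col^[k] n = 1) with hB
  set T := (Icc 1 X).filter (fun n => ∀ k : ℕ, (k : ℝ) ≤ (c0 + e0 / 2) * Real.log X + C →
        N0 < col^[k] n) with hTdef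
  have hsub : B ⊆ Icc 1 ⌊ε / 4 * X⌋₊ ∪ T := by
    intro n hn
    rw [hB, mem_filter] at hn
    obtain ⟨hn1, hreach, hnot⟩ := hn
    rw [mem_union]
    by_cases hsmall : (n : ℝ) ≤ ε / 4 * X
    · left
      rw [mem_Icc] at hn1 ⊢
      exact ⟨hn1.1, Nat.le_floor hsmall⟩
    · right
      push Not at hsmall
      rw [hTdef, mem_filter]
      refine ⟨hn1, ?_⟩
      intro k hk
      by_contra hle
      push Not at hle
      obtain ⟨j, hjL, hj⟩ := hL (col^[k] n) hle (reach_iter hreach k)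
      apply hnot
      refine ⟨j + k, ?_, by rw [Function.iterate_add_apply]; exact hj⟩
      have hlog : Real.log X - Real.log (4 / ε) ≤ Real.log n := by
        rw [← Real.log_div (by positivity) (by positivity)]
        apply Real.log_le_log (by positivity)
        have : (X : ℝ) / (4 / ε) = ε / 4 * X := by
          field_simp
        rw [this]; exact hsmall.le
      have h3 : (c0 + e0) * (Real.log X - Real.log (4 / ε)) ≤ (c0 + e0) * Real.log n :=
        mul_le_mul_of_nonneg_left hlog (by linarith)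
      have hjR : (j : ℝ) ≤ L := by exact_mod_cast hjL
      push_cast
      linarith
  have hcard : (B.card : ℝ) ≤ ε / 4 * X + ε / 4 * X := by
    have h4 : B.card ≤ ⌊ε / 4 * (X : ℝ)⌋₊ + T.card := by
      refine (card_le_card hsub).trans ((card_union_le _ _).trans ?_)
      rw [Nat.card_Icc]; omega
    have h5 : ((⌊ε / 4 * (X : ℝ)⌋₊ : ℕ) : ℝ) ≤ ε / 4 * X := Nat.floor_le (by positivity)
    have h6 : (T.card : ℝ) ≤ ε / 4 * X := hTX.trans (mul_le_mul_of_nonneg_right hN0' hXpos.le)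
    have h7 : (B.card : ℝ) ≤ (⌊ε / 4 * (X : ℝ)⌋₊ : ℕ) + (T.card : ℝ) := by exact_mod_cast h4
    linarith
  rw [Real.dist_eq, sub_zero, abs_of_nonneg (by positivity), div_lt_iff₀ hXpos]
  nlinarith

end Pool.Agent.Lib.MP_e43fce_nt_nat
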