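import Pool.Agent.Lib.MP_e43fce_nt_nat.CLTDefs
import Pool.Agent.Lib.MP_e43fce_nt_nat.T5ODD
import Pool.Agent.Lib.MP_e43fce_nt_nat.REN
import Pool.Agent.Lib.MP_e43fce_nt_nat.FUP

/-! KL3, CLT for the total stopping time: the two families (module CF). -/

set_option autoImplicit false

namespace Pool.Agent.Lib.MP_e43fce_nt_nat

open Finset Filter Topology

namespace CLTFaux

/-- general step: `p n <= q A s` unless `s = 1` -/
lemma rec_gen : ∃ C x0 : ℝ, 0 ≤ C ∧ 100 ≤ x0 ∧ ∀ x : ℝ, x0 ≤ x → ∀ i : ℕ, (i : ℝ) ^ 2 ≤ x / 10 →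
    ∀ (p : ℕ → ℝ) (q : ℕ → ℕ → ℝ), Unit01 p → (∀ A, Unit01 (q A)) →
    (∀ s n : ℕ, s % 2 = 1 → ∀ w ∈ Good (1 / 10) ⌊x / 5⌋₊, adm s w → nd s w = (n : ℤ) →
      p n ≤ q w.sum s ∨ s = 1) →
    DD i p x ≤ ∑ A ∈ win (1 / 10) ⌊x / 5⌋₊, rho ⌊x / 5⌋₊ A *
      DD (i1 ⌊x / 5⌋₊) (q A) (zz x ⌊x / 5⌋₊ A) + C * x ^ (-(1 / 4) : ℝ) := by
  obtain ⟨C, x1, hC, hx1, hR⟩ := lemR (e := 1 / 10) (by norm_num) le_rfl
  refine ⟨C + 1, max x1 100, by linarith, le_max_right _ _, ?_⟩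
  intro x hx i hi p q hp hq hyp
  have hxx1 : x1 ≤ x := (le_max_left _ _).trans hx
  have hx100 : 100 ≤ x := (le_max_right _ _).trans hx
  have hK2 : (⌊x / 5⌋₊ : ℝ) ≤ x / 5 := Nat.floor_le (by linarith)
  have hK1 : x / 5 - 1 ≤ (⌊x / 5⌋₊ : ℝ) := by
    have := Nat.lt_floor_add_one (x / 5)
    linarith
  set K := ⌊x / 5⌋₊ with hK
  have hiK : i ^ 2 ≤ K := by
    have : ((i : ℝ)) ^ 2 ≤ K := by linarith
    exact_mod_cast this
  have hq' : ∀ A, Unit01 (fun s => max (q A s) (if s = 1 then 1 else 0)) := by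
    intro A s
    have h := hq A s
    dsimp only
    split_ifs
    · exact ⟨le_max_of_le_left h.1, max_le h.2 le_rfl⟩
    · exact ⟨le_max_of_le_left h.1, max_le h.2 zero_le_one⟩
  have hR' := hR x hxx1 K i (by linarith) (by linarith) hiK p
    (fun A s => max (q A s) (if s = 1 then 1 else 0)) hp hq' (by
      intro s n hs w hw had hn
      dsimp only
      rcases hyp s n hs w hw had hn with h | h
      · exact h.trans (le_max_left _ _)
      · rw [if_pos h]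
        exact (hp n).2.trans (le_max_right _ _))
  have hx4 : 0 ≤ x ^ (-(1 / 4) : ℝ) := Real.rpow_nonneg (by linarith) _
  have hsum : ∑ A ∈ win (1 / 10) K, rho K A *
        DD (i1 K) (fun s => max (q A s) (if s = 1 then 1 else 0)) (zz x K A)
      ≤ ∑ A ∈ win (1 / 10) K, rho K A * DD (i1 K) (q A) (zz x K A) + x ^ (-(1 / 4) : ℝ) := by
    have h1 : ∀ A ∈ win (1 / 10) K, rho K A *
        DD (i1 K) (fun s => max (q A s) (if s = 1 then 1 else 0)) (zz x K A)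
        ≤ rho K A * DD (i1 K) (q A) (zz x K A) + rho K A * x ^ (-(1 / 4) : ℝ) := by
      intro A hA
      rw [← mul_add]
      apply mul_le_mul_of_nonneg_left _ (rho_nonneg K A)
      have hA' : |(A : ℝ) - 2 * K| ≤ 1 / 10 * K := (mem_filter.1 hA).2
      obtain ⟨hz1, hz2⟩ := T5.heights (e := 1 / 10) (by norm_num) le_rfl hx100 hK1 hK2 hA'
      obtain ⟨hs1, hs2⟩ := T5.small hx100 hK2 hz1
      have h2 : DD (i1 K) (fun s => max (q A s) (if s = 1 then 1 else 0)) (zz x K A)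
          ≤ DD (i1 K) (fun s => q A s + (if s = 1 then 1 else 0)) (zz x K A) := by
        apply DD_mono
        intro s
        have h := hq A s
        apply max_le
        · split_ifs <;> linarith
        · linarith [h.1]
      rw [DD_add] at h2
      have h3 := DD_point (i1 K) 1 (zz x K A)
      have h4 : DD (i1 K) (fun s => if s = 1 then (1 : ℝ) else 0) (zz x K A)
          ≤ x ^ (-(1 / 4) : ℝ) := h3.trans hs2
      exact h2.trans (add_le_add le_rfl h4)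
    refine (Finset.sum_le_sum h1).trans ?_
    rw [Finset.sum_add_distrib, ← Finset.sum_mul]
    have h5 := h34_win_sum_le K
    have h6 : (∑ A ∈ win (1 / 10) K, rho K A) * x ^ (-(1 / 4) : ℝ) ≤ 1 * x ^ (-(1 / 4) : ℝ) :=
      mul_le_mul_of_nonneg_right h5 hx4
    linarith
  calc DD i p x ≤ _ := hR'
    _ ≤ (∑ A ∈ win (1 / 10) K, rho K A * DD (i1 K) (q A) (zz x K A) + x ^ (-(1 / 4) : ℝ))
        + C * x ^ (-(1 / 4) : ℝ) := add_le_add hsum le_rfl
    _ = _ := by ring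

/-- the orbit of `n` passes `s` after `K + |w|` steps -/
lemma pass {e : ℝ} {K s n : ℕ} (hs : s % 2 = 1) {w : List ℕ} (hw : w ∈ Good e K) (had : adm s w)
    (hn : nd s w = (n : ℤ)) : col^[K + w.sum] n = s := by
  have hw' := (mem_words (3 * K) K w).1 (mem_filter.1 hw).1
  have hcol := nd_col hs (fun a ha => (hw'.2 a ha).1) had hn
  rwa [hw'.1] at hcol

/-- if `1` is reached before `s`, then `s = 1` -/
lemma early {N k s n : ℕ} (hs : s % 2 = 1) (hN : col^[N] n = s) (hk : col^[k] n = 1) (hkN : k ≤ N) :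
    s = 1 := by
  have h4 : col^[N] n = col^[N - k] 1 := by
    rw [← hk, ← Function.iterate_add_apply]
    rw [show N - k + k = N by omega]
  rw [hN] at h4
  rcases T5.col_cycle (N - k) with h5 | h5 | h5 <;> omega

/-- later hitting times -/
lemma late {N k s n : ℕ} (hN : col^[N] n = s) (hk : col^[k] n = 1) (hkN : N ≤ k) :
    col^[k - N] s = 1 := by
  rw [← hN, ← Function.iterate_add_apply, show k - N + N = k by omega]
  exact hk

end CLTFaux

open CLTFaux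

theorem pLZ_unit (T : ℤ) : Unit01 (pLZ T) := by
  intro n
  unfold pLZ
  split_ifs <;> norm_num

theorem pGZ_unit (T : ℤ) : Unit01 (pGZ T) := by
  intro n
  unfold pGZ
  split_ifs <;> norm_num

theorem pLZ_add_pGZ (T : ℤ) (n : ℕ) : pLZ T n + pGZ T n = ind Rone n := by
  unfold pLZ pGZ ind
  by_cases hR : n ∈ Rone
  · have hR' : ∃ k : ℕ, col^[k] n = 1 := hR
    rw [if_pos hR]
    by_cases h : ∃ k : ℕ, (k : ℤ) ≤ T ∧ col^[k] n = 1
    · rw [if_pos h, if_neg]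
      · norm_num
      · rintro ⟨-, h2⟩
        obtain ⟨k, hk, hk1⟩ := h
        have := h2 k hk1
        omega
    · rw [if_neg h, if_pos]
      · norm_num
      · refine ⟨hR', fun k hk => ?_⟩
        by_contra hcon
        exact h ⟨k, by omega, hk⟩
  · rw [if_neg hR, if_neg, if_neg]
    · norm_num
    · rintro ⟨h, -⟩
      exact hR h
    · rintro ⟨k, -, hk⟩
      exact hR ⟨k, hk⟩

/-- one step, family L -/
theorem recL : ∃ C x0 : ℝ, 0 ≤ C ∧ 100 ≤ x0 ∧ ∀ x : ℝ, x0 ≤ x → ∀ (T : ℤ) (i : ℕ), (i : ℝ) ^ 2 ≤ x / 10 →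
    DD i (pLZ T) x ≤ ∑ A ∈ win (1 / 10) ⌊x / 5⌋₊, rho ⌊x / 5⌋₊ A *
      DD (i1 ⌊x / 5⌋₊) (pLZ (T - ⌊x / 5⌋₊ - A)) (zz x ⌊x / 5⌋₊ A) + C * x ^ (-(1 / 4) : ℝ) := by
  obtain ⟨C, x0, hC, hx0, h⟩ := rec_gen
  refine ⟨C, x0, hC, hx0, fun x hx T i hi => ?_⟩
  refine h x hx i hi (pLZ T) (fun A => pLZ (T - ⌊x / 5⌋₊ - A)) (pLZ_unit T)
    (fun A => pLZ_unit _) ?_
  intro s n hs w hw had hn
  have hcol := pass hs hw had hn
  set K := ⌊x / 5⌋₊
  by_cases h1 : ∃ k : ℕ, (k : ℤ) ≤ T ∧ col^[k] n = 1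
  · obtain ⟨k, hk, hk1⟩ := h1
    rcases le_total k (K + w.sum) with h3 | h3
    · exact Or.inr (early hs hcol hk1 h3)
    · left
      have h2 : pLZ (T - K - (w.sum : ℕ)) s = 1 := by
        unfold pLZ
        rw [if_pos]
        refine ⟨k - (K + w.sum), ?_, late hcol hk1 h3⟩
        push_cast [Nat.cast_sub h3]
        linarith
      rw [h2]
      exact (pLZ_unit T n).2
  · left
    have h2 : pLZ T n = 0 := by
      unfold pLZ
      rw [if_neg h1]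
    rw [h2]
    exact (pLZ_unit _ s).1

/-- one step, family G -/
theorem recG : ∃ C x0 : ℝ, 0 ≤ C ∧ 100 ≤ x0 ∧ ∀ x : ℝ, x0 ≤ x → ∀ (T : ℤ) (i : ℕ), (i : ℝ) ^ 2 ≤ x / 10 →
    DD i (pGZ T) x ≤ ∑ A ∈ win (1 / 10) ⌊x / 5⌋₊, rho ⌊x / 5⌋₊ A *
      DD (i1 ⌊x / 5⌋₊) (pGZ (T - ⌊x / 5⌋₊ - A)) (zz x ⌊x / 5⌋₊ A) + C * x ^ (-(1 / 4) : ℝ) := by
  obtain ⟨C, x0, hC, hx0, h⟩ := rec_gen
  refine ⟨C, x0, hC, hx0, fun x hx T i hi => ?_⟩
  refine h x hx i hi (pGZ T) (fun A => pGZ (T - ⌊x / 5⌋₊ - A)) (pGZ_unit T)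
    (fun A => pGZ_unit _) ?_
  intro s n hs w hw had hn
  have hcol := pass hs hw had hn
  set K := ⌊x / 5⌋₊
  by_cases h1 : (∃ k : ℕ, col^[k] n = 1) ∧ ∀ k : ℕ, col^[k] n = 1 → T < k
  · obtain ⟨⟨k, hk1⟩, hall⟩ := h1
    rcases le_total k (K + w.sum) with h3 | h3
    · exact Or.inr (early hs hcol hk1 h3)
    · left
      have h2 : pGZ (T - K - (w.sum : ℕ)) s = 1 := by
        unfold pGZ
        rw [if_pos]
        refine ⟨⟨k - (K + w.sum), late hcol hk1 h3⟩, fun j hj => ?_⟩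
        have h4 : col^[j + (K + w.sum)] n = 1 := by
          rw [Function.iterate_add_apply, hcol]; exact hj
        have h5 := hall _ h4
        rw [Nat.cast_add, Nat.cast_add] at h5
        linarith
      rw [h2]
      exact (pGZ_unit T n).2
  · left
    have h2 : pGZ T n = 0 := by
      unfold pGZ
      rw [if_neg h1]
    rw [h2]
    exact (pGZ_unit _ s).1

/-- all depths, upper bound -/
theorem base_dens {E : Set ℕ} (hE : IsInv E) {d : ℝ} (hd : Tendsto (DD 0 (ind E)) atTop (𝓝 d)) {η : ℝ}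
    (hη : 0 < η) : ∃ x1 : ℝ, ∀ x : ℝ, x1 ≤ x → ∀ i : ℕ, (i : ℝ) ^ 2 ≤ x / 10 →
      DD i (ind E) x ≤ d + η := by
  obtain ⟨C, x0, hC, hx0, h⟩ := rec_gen
  obtain ⟨C1, x1, hC1, hx1, h1⟩ := h34_depth_change
  have hd0 : 0 ≤ d := ge_of_tendsto' hd (fun x => DD_nonneg (h34_ind_unitp E) x)
  obtain ⟨x2, hx2⟩ := Filter.eventually_atTop.1 (hd.eventually_lt_const (show d < d + η / 2 by linarith))
  have h3 : Tendsto (fun x : ℝ => (C1 + C) * x ^ (-(1 / 4) : ℝ)) atTop (𝓝 ((C1 + C) * 0)) :=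
    (tendsto_rpow_neg_atTop (by norm_num : (0 : ℝ) < 1 / 4)).const_mul _
  rw [mul_zero] at h3
  obtain ⟨x3, hx3⟩ := Filter.eventually_atTop.1 (h3.eventually_lt_const (show 0 < η / 2 by linarith))
  refine ⟨max (max x0 x1) (max (2 * x2) x3), fun x hx i hi => ?_⟩
  have hxx0 : x0 ≤ x := ((le_max_left _ _).trans (le_max_left _ _)).trans hx
  have hxx1 : x1 ≤ x := ((le_max_right _ _).trans (le_max_left _ _)).trans hx
  have hxx2 : 2 * x2 ≤ x := ((le_max_left _ _).trans (le_max_right _ _)).trans hx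
  have hxx3 : x3 ≤ x := ((le_max_right _ _).trans (le_max_right _ _)).trans hx
  have hx100 : 100 ≤ x := hx0.trans hxx0
  have hu := h34_ind_unitp E
  have hK2 : (⌊x / 5⌋₊ : ℝ) ≤ x / 5 := Nat.floor_le (by linarith)
  have hK1 : x / 5 - 1 ≤ (⌊x / 5⌋₊ : ℝ) := by
    have := Nat.lt_floor_add_one (x / 5)
    linarith
  have hrec := h x hxx0 i hi (ind E) (fun _ => ind E) hu (fun _ => hu) (by
    intro s n hs w hw had hn
    left
    exact REQaux.hyp1 hE (1 / 10) ⌊x / 5⌋₊ s n hs w hw had hn)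
  set K := ⌊x / 5⌋₊ with hK
  have hx4 : 0 ≤ x ^ (-(1 / 4) : ℝ) := Real.rpow_nonneg (by linarith) _
  have hsum : ∑ A ∈ win (1 / 10) K, rho K A * DD (i1 K) (ind E) (zz x K A)
      ≤ d + η / 2 + C1 * x ^ (-(1 / 4) : ℝ) := by
    have h4 : ∀ A ∈ win (1 / 10) K, rho K A * DD (i1 K) (ind E) (zz x K A)
        ≤ rho K A * (d + η / 2 + C1 * x ^ (-(1 / 4) : ℝ)) := by
      intro A hA
      apply mul_le_mul_of_nonneg_left _ (rho_nonneg K A)
      have h5 := h1 E hE x hxx1 K A (by linarith) (by linarith) hA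
      have hz := h34_zz_ge (x := x) (K := K) (by linarith) hA
      have h6 := hx2 (zz x K A) (by linarith)
      have h7 := (abs_le.1 h5).2
      linarith
    refine (Finset.sum_le_sum h4).trans ?_
    rw [← Finset.sum_mul]
    have h5 := h34_win_sum_le K
    have h6 : 0 ≤ d + η / 2 + C1 * x ^ (-(1 / 4) : ℝ) := by positivity
    calc (∑ A ∈ win (1 / 10) K, rho K A) * (d + η / 2 + C1 * x ^ (-(1 / 4) : ℝ))
        ≤ 1 * (d + η / 2 + C1 * x ^ (-(1 / 4) : ℝ)) := mul_le_mul_of_nonneg_right h5 h6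
      _ = _ := one_mul _
  have h8 := hx3 x hxx3
  have h9 : (C1 + C) * x ^ (-(1 / 4) : ℝ) = C1 * x ^ (-(1 / 4) : ℝ) + C * x ^ (-(1 / 4) : ℝ) := by ring
  linarith

/-- base case, family L -/
theorem baseL {d : ℝ} (hd : Tendsto (DD 0 (ind Rone)) atTop (𝓝 d)) {η : ℝ} (hη : 0 < η) :
    ∃ x1 : ℝ, ∀ x : ℝ, x1 ≤ x → ∀ (T : ℤ) (i : ℕ), (i : ℝ) ^ 2 ≤ x / 10 →
      DD i (pLZ T) x ≤ (d + η) * (if 0 ≤ T then 1 else 0) := by
  obtain ⟨x1, h1⟩ := base_dens Rone_inv hd hη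
  refine ⟨x1, fun x hx T i hi => ?_⟩
  by_cases hT : 0 ≤ T
  · rw [if_pos hT, mul_one]
    refine le_trans (DD_mono (fun n => ?_) x) (h1 x hx i hi)
    have := pLZ_add_pGZ T n
    have h2 := (pGZ_unit T n).1
    linarith
  · rw [if_neg hT, mul_zero]
    refine (DD_zero (fun n _ => ?_)).le
    unfold pLZ
    rw [if_neg]
    rintro ⟨k, hk, -⟩
    omega

/-- base case, family G -/
theorem baseG {d : ℝ} (hd : Tendsto (DD 0 (ind Rone)) atTop (𝓝 d)) {η : ℝ} (hη : 0 < η) :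
    ∃ x1 : ℝ, ∀ Y : ℝ, ∃ L : ℕ, ∀ x : ℝ, x1 ≤ x → x ≤ Y → ∀ (T : ℤ) (i : ℕ), (i : ℝ) ^ 2 ≤ x / 10 →
      DD i (pGZ T) x ≤ (d + η) * (if T < L then 1 else 0) := by
  obtain ⟨x1, h1⟩ := base_dens Rone_inv hd hη
  refine ⟨x1, fun Y => ?_⟩
  obtain ⟨L, hL⟩ := FUPaux.max_time ⌊Real.exp Y⌋₊
  refine ⟨L, fun x hx hxY T i hi => ?_⟩
  by_cases hT : T < L
  · rw [if_pos hT, mul_one]
    refine le_trans (DD_mono (fun n => ?_) x) (h1 x hx i hi)
    have := pLZ_add_pGZ T n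
    have h2 := (pLZ_unit T n).1
    linarith
  · rw [if_neg hT, mul_zero]
    refine (DD_zero (fun n hn => ?_)).le
    unfold pGZ
    rw [if_neg]
    rintro ⟨h2, h3⟩
    have h4 : n ≤ ⌊Real.exp Y⌋₊ := Nat.le_floor (hn.trans (Real.exp_le_exp.2 hxY))
    obtain ⟨k, hk, hk1⟩ := hL n h4 h2
    have := h3 k hk1
    omega

end Pool.Agent.Lib.MP_e43fce_nt_nat
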