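import Pool.Agent.Lib.MP_e43fce_nt_nat.CLTDefs

/-! KL3, CLT for the total stopping time, module CLTG: Gaussian facts. -/

set_option autoImplicit false

namespace Pool.Agent.Lib.MP_e43fce_nt_nat

open Finset Filter Topology MeasureTheory ProbabilityTheory

namespace CLTG

/-- the standard Gaussian law -/
private noncomputable abbrev mu : Measure ℝ := gaussianReal 0 1

private theorem pdf_le_one (x : ℝ) : gaussianPDF 0 1 x ≤ 1 := by
  rw [gaussianPDF, ← ENNReal.ofReal_one]
  apply ENNReal.ofReal_le_ofReal
  rw [gaussianPDFReal]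
  have h1 : (Real.sqrt (2 * Real.pi * ((1 : NNReal) : ℝ)))⁻¹ ≤ 1 := by
    apply inv_le_one_of_one_le₀
    rw [Real.one_le_sqrt]
    have := Real.pi_gt_three
    push_cast
    linarith
  have h2 : Real.exp (-(x - 0) ^ 2 / (2 * ((1 : NNReal) : ℝ))) ≤ 1 := by
    apply Real.exp_le_one_iff.2
    push_cast
    have := sq_nonneg (x - 0)
    linarith
  calc _ ≤ 1 * 1 := mul_le_mul h1 h2 (Real.exp_pos _).le zero_le_one
    _ = 1 := one_mul 1

private theorem apply_le (s : Set ℝ) : mu s ≤ volume s := by
  rw [mu, gaussianReal_apply 0 one_ne_zero]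
  calc ∫⁻ x in s, gaussianPDF 0 1 x ≤ ∫⁻ x in s, 1 := lintegral_mono fun x => pdf_le_one x
    _ = volume s := by simp

private theorem single (y : ℝ) : mu {y} = 0 :=
  nonpos_iff_eq_zero.1 ((apply_le _).trans (by simp))

private theorem sub_le {x y : ℝ} (h : x ≤ y) : Phi y - Phi x ≤ y - x ∧ Phi x ≤ Phi y := by
  have h1 : Set.Iic y = Set.Iic x ∪ Set.Ioc x y := (Set.Iic_union_Ioc_eq_Iic h).symm
  have hd : Disjoint (Set.Iic x) (Set.Ioc x y) := Set.Iic_disjoint_Ioc le_rfl
  have h2 : Phi y = Phi x + mu.real (Set.Ioc x y) := by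
    rw [Phi, Phi, h1, measureReal_union hd measurableSet_Ioc]
  have h3 : mu.real (Set.Ioc x y) ≤ y - x := by
    rw [Measure.real]
    apply ENNReal.toReal_le_of_le_ofReal (by linarith)
    exact (apply_le _).trans (by rw [Real.volume_Ioc])
  have h4 : 0 ≤ mu.real (Set.Ioc x y) := measureReal_nonneg
  constructor <;> linarith

private theorem Iio_eq (y : ℝ) : mu.real (Set.Iio y) = Phi y := by
  rw [Phi, Measure.real, Measure.real]
  congr 1
  apply le_antisymm (measure_mono Set.Iio_subset_Iic_self)
  rw [← Set.Iio_union_right]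
  exact (measure_union_le _ _).trans (by rw [single y, add_zero])

private theorem Ioi_eq (y : ℝ) : mu.real (Set.Ioi y) = 1 - Phi y := by
  have h := probReal_compl_eq_one_sub (μ := mu) (measurableSet_Iic (a := y))
  rw [Set.compl_Iic] at h
  rw [h, Phi]

private theorem neg_map : mu.map (fun x => -x) = mu := by
  rw [mu, gaussianReal_map_neg, neg_zero]

end CLTG

open CLTG

theorem Phi_continuous : Continuous Phi := by
  have h : LipschitzWith 1 Phi := by
    apply LipschitzWith.of_dist_le_mul
    intro x y
    rw [NNReal.coe_one, one_mul, Real.dist_eq, Real.dist_eq]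
    rcases le_total x y with h | h
    · have := CLTG.sub_le h
      rw [abs_sub_comm, abs_sub_comm x y, abs_of_nonneg (by linarith), abs_of_nonneg (by linarith)]
      linarith
    · have := CLTG.sub_le h
      rw [abs_of_nonneg (by linarith), abs_of_nonneg (by linarith)]
      linarith
  exact h.continuous

theorem Phi_nonneg (y : ℝ) : 0 ≤ Phi y := measureReal_nonneg

theorem Phi_neg (y : ℝ) : Phi y + Phi (-y) = 1 := by
  have h1 : Phi (-y) = mu.real (Set.Ici y) := by
    rw [Phi, Measure.real, Measure.real]
    congr 1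
    conv_lhs => rw [show gaussianReal 0 1 = (mu).map (fun x => -x) from neg_map.symm]
    rw [Measure.map_apply measurable_neg measurableSet_Iic]
    congr 1
    ext t
    simp
  have h2 : mu.real (Set.Ici y) = 1 - Phi y := by
    have h := probReal_compl_eq_one_sub (μ := mu) (measurableSet_Iio (a := y))
    rw [Set.compl_Iio] at h
    rw [h, Iio_eq]
  rw [h1, h2]
  ring

/-- `stp (-(t + y) / e + 1)` and `stp ((t + y) / e + 1)` against the Gaussian -/
theorem gauss_step {e : ℝ} (he : 0 < e) (y : ℝ) :
    ∫ t, stp ((t + y) / e + 1) ∂(gaussianReal 0 1) ≤ Phi (y + e) ∧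
    ∫ t, stp ((-y - t) / e + 1) ∂(gaussianReal 0 1) ≤ Phi (-y + e) := by
  have key : ∀ (g : ℝ → ℝ) (s : Set ℝ), MeasurableSet s → (∀ t, t ∉ s → g t ≤ 0) →
      ∫ t, stp (g t) ∂(gaussianReal 0 1) ≤ mu.real s := by
    intro g s hs hg
    have h1 : ∫ t, stp (g t) ∂(gaussianReal 0 1) ≤
        ∫ t, s.indicator (fun _ => (1 : ℝ)) t ∂(gaussianReal 0 1) := by
      apply integral_mono_of_nonneg
      · exact Eventually.of_forall fun t => Real.smoothTransition.nonneg _
      · exact (integrable_const (1 : ℝ)).indicator hs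
      · apply Eventually.of_forall
        intro t
        by_cases ht : t ∈ s
        · simp only [Set.indicator_of_mem ht]
          exact Real.smoothTransition.le_one _
        · simp only [Set.indicator_of_notMem ht]
          rw [stp, Real.smoothTransition.zero_of_nonpos (hg t ht)]
    have h2 : ∫ t, s.indicator (fun _ => (1 : ℝ)) t ∂(gaussianReal 0 1) = mu.real s :=
      integral_indicator_one hs
    rw [h2] at h1
    exact h1
  constructor
  · have h := key (fun t => (t + y) / e + 1) (Set.Ioi (-(y + e))) measurableSet_Ioi (by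
      intro t ht
      rw [Set.mem_Ioi, not_lt] at ht
      have : (t + y) / e ≤ -1 := by
        rw [div_le_iff₀ he]
        linarith
      show _ + 1 ≤ 0
      linarith)
    rw [Ioi_eq] at h
    have := Phi_neg (y + e)
    linarith
  · have h := key (fun t => (-y - t) / e + 1) (Set.Iio (-y + e)) measurableSet_Iio (by
      intro t ht
      rw [Set.mem_Iio, not_lt] at ht
      have : (-y - t) / e ≤ -1 := by
        rw [div_le_iff₀ he]
        linarith
      show _ + 1 ≤ 0
      linarith)
    rw [Iio_eq] at h
    exact h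

end Pool.Agent.Lib.MP_e43fce_nt_nat
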