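import Pool.Agent.Lib.MP_e43fce_nt_nat.TV

/-! Central limit theorem for the law `rho N` of a sum of `N` geometric letters. -/

set_option autoImplicit false

namespace Pool.Agent.Lib.MP_e43fce_nt_nat

open Finset MeasureTheory ProbabilityTheory Filter Topology

theorem rho_hasSum (K : ℕ) : HasSum (rho K) 1 := by
  rw [hasSum_iff_tendsto_nat_of_nonneg (rho_nonneg K)]
  exact rho_sum_tendsto K

/-- `rho K` as a probability mass function -/
noncomputable def rhoP (K : ℕ) : PMF ℕ :=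
  ⟨fun A => ENNReal.ofReal (rho K A), by
    have h := ENNReal.ofReal_tsum_of_nonneg (rho_nonneg K) (rho_hasSum K).summable
    rw [(rho_hasSum K).tsum_eq, ENNReal.ofReal_one] at h
    rw [h]
    exact ENNReal.summable.hasSum⟩

theorem rhoP_apply (K A : ℕ) : (rhoP K A).toReal = rho K A :=
  ENNReal.toReal_ofReal (rho_nonneg K A)

theorem rho_summable_mul {K : ℕ} {f : ℕ → ℂ} (hf : ∀ A, ‖f A‖ ≤ 1) :
    Summable (fun A => (rho K A : ℂ) * f A) := by
  apply Summable.of_norm_bounded (rho_hasSum K).summable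
  intro A
  rw [norm_mul, Complex.norm_real, Real.norm_of_nonneg (rho_nonneg K A)]
  exact mul_le_of_le_one_right (rho_nonneg K A) (hf A)

/-- generating function on the closed unit disc -/
theorem rho_gf {z : ℂ} (hz : ‖z‖ ≤ 1) (K : ℕ) :
    ∑' A, (rho K A : ℂ) * z ^ A = (z / (2 - z)) ^ K := by
  have hzp : ∀ A : ℕ, ‖z ^ A‖ ≤ 1 := fun A => by
    rw [norm_pow]; exact pow_le_one₀ (norm_nonneg _) hz
  have h2z : (2 - z) ≠ 0 := by
    intro h
    have : z = 2 := by linear_combination -h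
    rw [this] at hz
    norm_num at hz
  induction K with
  | zero =>
    rw [pow_zero, tsum_eq_single 0]
    · simp [rho_zero_zero]
    · intro A hA
      obtain ⟨a, rfl⟩ := Nat.exists_eq_succ_of_ne_zero hA
      rw [Nat.succ_eq_add_one, rho_zero_succ]
      simp
  | succ K ih =>
    set f := ∑' A, (rho (K + 1) A : ℂ) * z ^ A with hf
    have h1 : f = (z / 2) * (f + (z / (2 - z)) ^ K) := by
      have h2 := (rho_summable_mul (K := K + 1) hzp).tsum_eq_zero_add
      rw [← hf, rho_succ_zero] at h2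
      have h3 : ∀ A : ℕ, ((rho (K + 1) (A + 1) : ℝ) : ℂ) * z ^ (A + 1) =
          (z / 2) * ((rho (K + 1) A : ℂ) * z ^ A + (rho K A : ℂ) * z ^ A) := by
        intro A
        rw [rho_half]
        push_cast
        ring
      simp only [h3] at h2
      rw [tsum_mul_left, (rho_summable_mul (K := K + 1) hzp).tsum_add
        (rho_summable_mul (K := K) hzp), ← hf, ih] at h2
      have h4 : ((0 : ℝ) : ℂ) * z ^ 0 = 0 := by simp
      rw [h4, zero_add] at h2
      exact h2
    rw [pow_succ]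
    field_simp
    field_simp at h1
    linear_combination h1

theorem rho_integral {K : ℕ} {E : Type*} [NormedAddCommGroup E] [NormedSpace ℝ E] [CompleteSpace E]
    (f : ℕ → E) (C : ℝ) (hf : ∀ A, ‖f A‖ ≤ C) :
    ∫ A, f A ∂(rhoP K).toMeasure = ∑' A, rho K A • f A := by
  rw [PMF.integral_eq_tsum]
  · simp only [rhoP_apply]
  · apply Integrable.of_bound (C := C)
    · exact StronglyMeasurable.of_discrete.aestronglyMeasurable
    · exact ae_of_all _ hf

/-- normalised variable -/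
noncomputable def nrm (N A : ℕ) : ℝ := ((A : ℝ) - 2 * N) / Real.sqrt (2 * N)

/-- normalised law -/
noncomputable def rhoN (N : ℕ) : ProbabilityMeasure ℝ :=
  ⟨(rhoP N).toMeasure.map (nrm N),
    Measure.isProbabilityMeasure_map (measurable_of_countable _).aemeasurable⟩

theorem rhoN_integral {N : ℕ} {E : Type*} [NormedAddCommGroup E] [NormedSpace ℝ E] [CompleteSpace E]
    (f : ℝ → E) (hfc : Continuous f) (C : ℝ) (hf : ∀ x, ‖f x‖ ≤ C) :
    ∫ x, f x ∂(rhoN N : Measure ℝ) = ∑' A, rho N A • f (nrm N A) := by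
  have : (rhoN N : Measure ℝ) = (rhoP N).toMeasure.map (nrm N) := rfl
  rw [this, integral_map (measurable_of_countable _).aemeasurable
    hfc.aestronglyMeasurable]
  exact rho_integral (fun A => f (nrm N A)) C (fun A => hf _)

/-- the characteristic function of one normalised letter -/
noncomputable def hch (s : ℝ) : ℂ :=
  Complex.exp (-(s * Complex.I)) / (2 - Complex.exp (s * Complex.I))

theorem charFun_rhoN (N : ℕ) (t : ℝ) :
    charFun (rhoN N : Measure ℝ) t = hch (t / Real.sqrt (2 * N)) ^ N := by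
  rw [charFun_apply_real, rhoN_integral (fun x : ℝ => Complex.exp (t * x * Complex.I))
    (by fun_prop) 1 (fun x => by
      rw [show (t : ℂ) * x * Complex.I = ((t * x : ℝ) : ℂ) * Complex.I by push_cast; ring,
        Complex.norm_exp_ofReal_mul_I])]
  set s := t / Real.sqrt (2 * N) with hs
  have h1 : ∀ A : ℕ, rho N A • Complex.exp (t * (nrm N A : ℝ) * Complex.I) =
      Complex.exp (-(2 * N * (s * Complex.I))) * ((rho N A : ℂ) *
        (Complex.exp (s * Complex.I)) ^ A) := by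
    intro A
    rw [← Complex.exp_nat_mul, Complex.real_smul]
    have e1 : (t : ℂ) * (nrm N A : ℝ) * Complex.I =
        -(2 * N * (s * Complex.I)) + A * (s * Complex.I) := by
      rw [hs, nrm]
      push_cast
      ring
    rw [e1, Complex.exp_add]
    ring
  rw [tsum_congr h1, tsum_mul_left, rho_gf (by rw [Complex.norm_exp_ofReal_mul_I])]
  have h2 : Complex.exp (-(2 * N * (s * Complex.I))) =
      (Complex.exp (-(2 * (s * Complex.I)))) ^ N := by
    rw [← Complex.exp_nat_mul]; congr 1; ring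
  rw [h2, ← mul_pow, hch]
  congr 1
  rw [← mul_div_assoc, ← Complex.exp_add]
  congr 2
  ring

theorem hch_bound {s : ℝ} (hs : |s| ≤ 1 / 4) :
    ‖hch s - (1 - (s : ℂ) ^ 2)‖ ≤ 35 * |s| ^ 3 := by
  set w := Complex.exp (s * Complex.I) with hw
  set u := w - 1 with hu
  have hsI : ‖(s : ℂ) * Complex.I‖ = |s| := by
    rw [norm_mul, Complex.norm_I, mul_one, Complex.norm_real, Real.norm_eq_abs]
  have h1 : ‖u - s * Complex.I‖ ≤ |s| ^ 2 := by
    have := Complex.norm_exp_sub_one_sub_id_le (x := (s : ℂ) * Complex.I) (by rw [hsI]; linarith)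
    rw [hsI] at this
    exact this
  have hs0 := abs_nonneg s
  have h2 : ‖u‖ ≤ 2 * |s| := by
    calc ‖u‖ = ‖(u - s * Complex.I) + s * Complex.I‖ := by ring_nf
      _ ≤ ‖u - s * Complex.I‖ + ‖(s : ℂ) * Complex.I‖ := norm_add_le _ _
      _ ≤ |s| ^ 2 + |s| := by rw [hsI]; linarith
      _ ≤ 2 * |s| := by nlinarith
  have h3 : ‖u ^ 2 + (s : ℂ) ^ 2‖ ≤ 3 * |s| ^ 3 := by
    have e : u ^ 2 + (s : ℂ) ^ 2 = (u - s * Complex.I) * (u + s * Complex.I) := by
      ring_nf
      rw [Complex.I_sq]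
      ring
    rw [e, norm_mul]
    have h4 : ‖u + s * Complex.I‖ ≤ 3 * |s| := by
      calc _ ≤ ‖u‖ + ‖(s : ℂ) * Complex.I‖ := norm_add_le _ _
        _ ≤ 3 * |s| := by rw [hsI]; linarith
    calc _ ≤ |s| ^ 2 * (3 * |s|) := mul_le_mul h1 h4 (norm_nonneg _) (by positivity)
      _ = 3 * |s| ^ 3 := by ring
  have h5 : ‖u ^ 2‖ ≤ 1 / 4 := by
    rw [norm_pow]
    nlinarith [norm_nonneg u]
  have h6 : (3 / 4 : ℝ) ≤ ‖1 - u ^ 2‖ := by
    have := norm_sub_norm_le (1 : ℂ) (u ^ 2)
    rw [norm_one] at this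
    linarith
  have h7 : (1 - u ^ 2) ≠ 0 := by
    intro h
    rw [h, norm_zero] at h6
    norm_num at h6
  have hw0 : w ≠ 0 := Complex.exp_ne_zero _
  have h8 : hch s = 1 + u ^ 2 + u ^ 4 / (1 - u ^ 2) := by
    have e1 : hch s = 1 / (1 - u ^ 2) := by
      rw [hch, ← hw, Complex.exp_neg, ← hw]
      have e2 : 1 - u ^ 2 = w * (2 - w) := by rw [hu]; ring
      rw [e2, inv_eq_one_div, div_div]
    rw [e1]
    field_simp
    ring
  have h9 : hch s - (1 - (s : ℂ) ^ 2) = (u ^ 2 + (s : ℂ) ^ 2) + u ^ 4 / (1 - u ^ 2) := by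
    rw [h8]; ring
  rw [h9]
  have h10 : ‖u ^ 4 / (1 - u ^ 2)‖ ≤ 32 * |s| ^ 3 := by
    rw [norm_div, norm_pow, div_le_iff₀ (by linarith)]
    have : ‖u‖ ^ 4 ≤ (2 * |s|) ^ 4 := pow_le_pow_left₀ (norm_nonneg _) h2 4
    have h11 : (2 * |s|) ^ 4 ≤ 4 * |s| ^ 3 := by
      have : |s| ^ 3 * |s| ≤ |s| ^ 3 * (1 / 4) := mul_le_mul_of_nonneg_left hs (by positivity)
      nlinarith
    nlinarith [pow_nonneg hs0 3]
  calc _ ≤ ‖u ^ 2 + (s : ℂ) ^ 2‖ + ‖u ^ 4 / (1 - u ^ 2)‖ := norm_add_le _ _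
    _ ≤ 35 * |s| ^ 3 := by linarith

theorem hch_tendsto (t : ℝ) : Tendsto (fun N : ℕ => hch (t / Real.sqrt (2 * N)) ^ N) atTop
    (𝓝 (Complex.exp (-(t : ℂ) ^ 2 / 2))) := by
  apply Complex.tendsto_pow_exp_of_isLittleO_sub_add_div
  have hsN : ∀ N : ℕ, 1 ≤ N → ((t / Real.sqrt (2 * N) : ℝ)) ^ 2 = t ^ 2 / (2 * N) := by
    intro N _
    rw [div_pow, Real.sq_sqrt (by positivity)]
  have hlim : Tendsto (fun N : ℕ => |t / Real.sqrt (2 * N)|) atTop (𝓝 0) := by
    have h1 : Tendsto (fun N : ℕ => Real.sqrt (2 * (N : ℝ))) atTop atTop :=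
      Real.tendsto_sqrt_atTop.comp (tendsto_natCast_atTop_atTop.const_mul_atTop (by norm_num))
    have h2 := (tendsto_const_nhds (x := t)).div_atTop h1
    simpa using h2.abs
  rw [Asymptotics.isLittleO_iff]
  intro c hc
  have hsmall : ∀ᶠ N : ℕ in atTop, |t / Real.sqrt (2 * N)| < min (1 / 4) (c / (35 * (t ^ 2 + 1))) :=
    hlim.eventually (gt_mem_nhds (by positivity))
  filter_upwards [hsmall, eventually_ge_atTop 1] with N hN hN1
  set s := t / Real.sqrt (2 * N) with hs
  have hNpos : (0 : ℝ) < N := by exact_mod_cast hN1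
  have h1 : |s| ≤ 1 / 4 := (hN.trans_le (min_le_left _ _)).le
  have h2 : |s| ≤ c / (35 * (t ^ 2 + 1)) := (hN.trans_le (min_le_right _ _)).le
  have h3 := hch_bound h1
  have e1 : (1 : ℂ) + (-(t : ℂ) ^ 2 / 2) / N = 1 - (s : ℂ) ^ 2 := by
    have : (s : ℂ) ^ 2 = ((s ^ 2 : ℝ) : ℂ) := by push_cast; ring
    rw [this, hsN N hN1]
    push_cast
    ring
  rw [e1]
  refine h3.trans ?_
  have e2 : ‖(1 : ℂ) / (N : ℂ)‖ = 1 / N := by
    rw [norm_div, norm_one, Complex.norm_natCast]
  rw [e2]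
  have e3 : |s| ^ 3 = |s| * (t ^ 2 / (2 * N)) := by
    rw [← hsN N hN1, ← sq_abs]
    ring
  rw [e3]
  have h4 : |s| * (35 * (t ^ 2 + 1)) ≤ c := by
    rwa [le_div_iff₀ (by positivity)] at h2
  have e4 : 35 * (|s| * (t ^ 2 / (2 * N))) = (|s| * (35 * (t ^ 2 / 2))) * (1 / N) := by
    field_simp
  rw [e4]
  apply mul_le_mul_of_nonneg_right _ (by positivity)
  have h5 : |s| * (35 * (t ^ 2 / 2)) ≤ |s| * (35 * (t ^ 2 + 1)) := by
    apply mul_le_mul_of_nonneg_left _ (abs_nonneg _)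
    nlinarith [sq_nonneg t]
  linarith

/-- standard Gaussian law -/
noncomputable def gaussP : ProbabilityMeasure ℝ := ⟨gaussianReal 0 1, inferInstance⟩

theorem rhoN_tendsto : Tendsto rhoN atTop (𝓝 gaussP) := by
  rw [ProbabilityMeasure.tendsto_iff_tendsto_charFun]
  intro t
  have h1 : charFun (gaussP : Measure ℝ) t = Complex.exp (-(t : ℂ) ^ 2 / 2) := by
    have : (gaussP : Measure ℝ) = gaussianReal 0 1 := rfl
    rw [this, charFun_gaussianReal]
    congr 1
    simp
    ring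
  rw [h1]
  simp only [charFun_rhoN]
  exact hch_tendsto t

/-- CLT, bounded continuous test functions -/
theorem rho_clt_cont (g : ℝ → ℝ) (hg : Continuous g) (C : ℝ) (hC : ∀ x, |g x| ≤ C) :
    Tendsto (fun N : ℕ => ∑' A : ℕ, rho N A * g (((A : ℝ) - 2 * N) / Real.sqrt (2 * N))) atTop
      (𝓝 (∫ x, g x ∂(gaussianReal 0 1))) := by
  have h := (ProbabilityMeasure.tendsto_iff_forall_integral_tendsto.mp rhoN_tendsto)
    (BoundedContinuousFunction.ofNormedAddCommGroup g hg C hC)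
  have h2 : ∀ N : ℕ, ∫ x, g x ∂(rhoN N : Measure ℝ) =
      ∑' A : ℕ, rho N A * g (((A : ℝ) - 2 * N) / Real.sqrt (2 * N)) := fun N =>
    rhoN_integral g hg C hC
  simp only [BoundedContinuousFunction.coe_ofNormedAddCommGroup] at h
  simp only [h2] at h
  exact h

/-- CLT, distribution function -/
theorem rho_clt_tsum (y : ℝ) :
    Tendsto (fun N : ℕ => ∑' A : ℕ, if (A : ℝ) - 2 * N ≤ y * Real.sqrt (2 * N) then rho N A else 0)
      atTop (𝓝 ((gaussianReal 0 1).real (Set.Iic y))) := by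
  have h0 : gaussP (frontier (Set.Iic y)) = 0 := by
    rw [frontier_Iic]
    have : (gaussP : Measure ℝ) {y} = 0 := by
      have : (gaussP : Measure ℝ) = gaussianReal 0 1 := rfl
      rw [this]
      have := nullSingletonClass_gaussianReal (μ := 0) (v := 1) one_ne_zero
      exact measure_singleton y
    exact (ProbabilityMeasure.null_iff_toMeasure_null gaussP {y}).mpr this
  have h := ProbabilityMeasure.tendsto_measure_of_null_frontier_of_tendsto rhoN_tendsto h0
  have h1 : Tendsto (fun N => ((rhoN N (Set.Iic y) : NNReal) : ℝ)) atTop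
      (𝓝 ((gaussP (Set.Iic y) : NNReal) : ℝ)) := NNReal.tendsto_coe.mpr h
  have e1 : ((gaussP (Set.Iic y) : NNReal) : ℝ) = (gaussianReal 0 1).real (Set.Iic y) := rfl
  rw [e1] at h1
  refine h1.congr' ?_
  filter_upwards [eventually_ge_atTop 1] with N hN
  have hNpos : (0 : ℝ) < Real.sqrt (2 * N) := Real.sqrt_pos.mpr (by positivity)
  have e2 : ((rhoN N (Set.Iic y) : NNReal) : ℝ) =
      ((rhoP N).toMeasure.map (nrm N)).real (Set.Iic y) := rfl
  rw [e2, measureReal_def, Measure.map_apply (measurable_of_countable _) measurableSet_Iic,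
    PMF.toMeasure_apply _ (Set.to_countable _).measurableSet]
  have e3 : ∀ A : ℕ, (nrm N ⁻¹' Set.Iic y).indicator (rhoP N) A =
      ENNReal.ofReal (if (A : ℝ) - 2 * N ≤ y * Real.sqrt (2 * N) then rho N A else 0) := by
    intro A
    by_cases h : (A : ℝ) - 2 * N ≤ y * Real.sqrt (2 * N)
    · rw [if_pos h, Set.indicator_of_mem]
      · rfl
      · rw [Set.mem_preimage, Set.mem_Iic, nrm, div_le_iff₀ hNpos]
        exact h
    · rw [if_neg h, Set.indicator_of_notMem, ENNReal.ofReal_zero]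
      rw [Set.mem_preimage, Set.mem_Iic, nrm, div_le_iff₀ hNpos]
      exact h
  rw [tsum_congr e3, ← ENNReal.ofReal_tsum_of_nonneg, ENNReal.toReal_ofReal]
  · apply tsum_nonneg
    intro A
    split_ifs
    · exact rho_nonneg _ _
    · exact le_rfl
  · intro A
    split_ifs
    · exact rho_nonneg _ _
    · exact le_rfl
  · apply Summable.of_nonneg_of_le _ _ (rho_hasSum N).summable
    · intro A
      split_ifs
      · exact rho_nonneg _ _
      · exact le_rfl
    · intro A
      split_ifs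
      · exact le_rfl
      · exact rho_nonneg _ _

/-- CLT, finite sums: any range which contains all `A` with `A - 2N <= y sqrt (2N)` -/
theorem rho_clt_fin (y : ℝ) (M : ℕ → ℕ)
    (hM : ∀ᶠ N : ℕ in atTop, ∀ A : ℕ, (A : ℝ) - 2 * N ≤ y * Real.sqrt (2 * N) → A < M N) :
    Tendsto (fun N : ℕ => ∑ A ∈ (range (M N)).filter
      (fun A : ℕ => (A : ℝ) - 2 * N ≤ y * Real.sqrt (2 * N)), rho N A)
      atTop (𝓝 ((gaussianReal 0 1).real (Set.Iic y))) := by
  refine (rho_clt_tsum y).congr' ?_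
  filter_upwards [hM] with N hN
  rw [Finset.sum_filter]
  apply tsum_eq_sum
  intro A hA
  rw [Finset.mem_range] at hA
  rw [if_neg]
  intro h
  exact hA (hN A h)

/-- the law as a total sum of bounded functions: `∑' A, rho N A * f A` is an average -/
theorem rho_tsum_le {N : ℕ} {f : ℕ → ℝ} {C : ℝ} (hf : ∀ A, |f A| ≤ C) :
    |∑' A : ℕ, rho N A * f A| ≤ C := by
  have hs : Summable (fun A => rho N A * C) := (rho_hasSum N).summable.mul_right C
  have h1 : ∀ A, ‖rho N A * f A‖ ≤ rho N A * C := fun A => by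
    rw [norm_mul, Real.norm_of_nonneg (rho_nonneg N A)]
    exact mul_le_mul_of_nonneg_left (hf A) (rho_nonneg N A)
  have h2 := tsum_of_norm_bounded ((rho_hasSum N).mul_right C) h1
  rw [one_mul] at h2
  exact h2

end Pool.Agent.Lib.MP_e43fce_nt_nat
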