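import Pool.Agent.Lib.MP_e43fce_nt_nat.CLTDefs

/-! KL3, CLT for the total stopping time: test functions. -/

set_option autoImplicit false

namespace Pool.Agent.Lib.MP_e43fce_nt_nat

open Finset Filter Topology MeasureTheory ProbabilityTheory

namespace CLTT

theorem taylor_of_lip {f f' : ℝ → ℝ} {M : ℝ} (hf : ∀ x, HasDerivAt f (f' x) x)
    (hM : ∀ x y, |f' x - f' y| ≤ M * |x - y|) (t h : ℝ) :
    |f (t + h) - f t - h * f' t| ≤ M * h ^ 2 := by
  rcases eq_or_ne h 0 with h0 | h0
  · subst h0; simp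
  have key : ∀ a b : ℝ, a < b → ∃ c, a < c ∧ c < b ∧ f b - f a = (b - a) * f' c := by
    intro a b hab
    obtain ⟨c, hc, hc2⟩ := exists_hasDerivAt_eq_slope f f' hab
      (fun x _ => (hf x).continuousAt.continuousWithinAt) (fun x _ => hf x)
    refine ⟨c, hc.1, hc.2, ?_⟩
    rw [hc2]
    have : b - a ≠ 0 := by linarith
    field_simp
  have h2 : ∃ c, |c - t| ≤ |h| ∧ f (t + h) - f t = h * f' c := by
    rcases lt_or_gt_of_ne h0 with hn | hp
    · obtain ⟨c, hc1, hc2, hc3⟩ := key (t + h) t (by linarith)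
      refine ⟨c, ?_, by linarith⟩
      rw [abs_of_neg hn, abs_of_nonpos (by linarith)]
      linarith
    · obtain ⟨c, hc1, hc2, hc3⟩ := key t (t + h) (by linarith)
      refine ⟨c, ?_, by linarith⟩
      rw [abs_of_pos hp, abs_of_nonneg (by linarith)]
      linarith
  obtain ⟨c, hc1, hc2⟩ := h2
  rw [hc2, ← mul_sub, abs_mul]
  have hM0 : 0 ≤ M := by
    have := hM 1 0
    have h3 := abs_nonneg (f' 1 - f' 0)
    norm_num at this
    linarith
  calc |h| * |f' c - f' t| ≤ |h| * (M * |c - t|) :=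
        mul_le_mul_of_nonneg_left (hM c t) (abs_nonneg h)
    _ ≤ |h| * (M * |h|) :=
        mul_le_mul_of_nonneg_left (mul_le_mul_of_nonneg_left hc1 hM0) (abs_nonneg h)
    _ = M * h ^ 2 := by rw [← sq_abs]; ring

theorem stp_contDiff : ContDiff ℝ 2 Real.smoothTransition := Real.smoothTransition.contDiff

theorem stp_hasDeriv (x : ℝ) :
    HasDerivAt Real.smoothTransition (deriv Real.smoothTransition x) x :=
  (stp_contDiff.differentiable (by norm_num) x).hasDerivAt

theorem deriv_contDiff : ContDiff ℝ 1 (deriv Real.smoothTransition) := by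
  have h : ContDiff ℝ (1 + 1) Real.smoothTransition := Real.smoothTransition.contDiff
  exact (contDiff_succ_iff_deriv.1 h).2.2

theorem deriv_support : HasCompactSupport (deriv Real.smoothTransition) := by
  refine HasCompactSupport.of_support_subset_isCompact (isCompact_Icc (a := (0 : ℝ)) (b := 1)) ?_
  intro x hx
  rw [Function.mem_support] at hx
  by_contra hcon
  apply hx
  rw [Set.mem_Icc, not_and_or, not_le, not_le] at hcon
  rcases hcon with h | h
  · have h1 : Real.smoothTransition =ᶠ[𝓝 x] fun _ => 0 := by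
      filter_upwards [Iio_mem_nhds h] with y hy
      exact Real.smoothTransition.zero_of_nonpos (le_of_lt hy)
    rw [h1.deriv_eq]; simp
  · have h1 : Real.smoothTransition =ᶠ[𝓝 x] fun _ => 1 := by
      filter_upwards [Ioi_mem_nhds h] with y hy
      exact Real.smoothTransition.one_of_one_le (le_of_lt hy)
    rw [h1.deriv_eq]; simp

theorem deriv_lip : ∃ M : ℝ, 0 ≤ M ∧ ∀ x y,
    |deriv Real.smoothTransition x - deriv Real.smoothTransition y| ≤ M * |x - y| := by
  obtain ⟨C, hC⟩ := ContDiff.lipschitzWith_of_hasCompactSupport deriv_support deriv_contDiff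
    (by norm_num)
  refine ⟨C, C.2, fun x y => ?_⟩
  have := hC.dist_le_mul x y
  rwa [Real.dist_eq, Real.dist_eq] at this

theorem stp_lip : ∃ L : ℝ, 0 ≤ L ∧ ∀ s t, |stp s - stp t| ≤ L * |s - t| := by
  obtain ⟨C, hC⟩ := deriv_support.exists_bound_of_continuous deriv_contDiff.continuous
  refine ⟨C, (norm_nonneg _).trans (hC 0), fun s t => ?_⟩
  have h := Convex.norm_image_sub_le_of_norm_hasDerivWithin_le (f := Real.smoothTransition)
    (f' := deriv Real.smoothTransition) (s := Set.univ) (x := t) (y := s) (C := C)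
    (fun x _ => (stp_hasDeriv x).hasDerivWithinAt) (fun x _ => hC x) convex_univ
    (Set.mem_univ _) (Set.mem_univ _)
  rw [Real.norm_eq_abs, Real.norm_eq_abs] at h
  exact h

end CLTT

open CLTT in
theorem stp_test : ∃ M L : ℝ, 0 ≤ M ∧ 0 ≤ L ∧ TestFn stp M ∧ (∀ s t, |stp s - stp t| ≤ L * |s - t|) ∧
    (∀ t, t ≤ 0 → stp t = 0) ∧ (∀ t, 1 ≤ t → stp t = 1) ∧ Monotone stp ∧ Continuous stp := by
  obtain ⟨M, hM, hM2⟩ := deriv_lip
  obtain ⟨L, hL, hL2⟩ := stp_lip
  refine ⟨M, L, hM, hL, ⟨Real.smoothTransition.nonneg, Real.smoothTransition.le_one,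
    ⟨deriv Real.smoothTransition, fun t h => taylor_of_lip stp_hasDeriv hM2 t h⟩⟩, hL2,
    fun t ht => Real.smoothTransition.zero_of_nonpos ht,
    fun t ht => Real.smoothTransition.one_of_one_le ht, Real.smoothTransition.monotone,
    Real.smoothTransition.continuous⟩

/-- affine substitution -/
theorem TestFn.affine {φ : ℝ → ℝ} {B : ℝ} (hφ : TestFn φ B) (a b : ℝ) :
    TestFn (fun t => φ (a * t + b)) (B * a ^ 2) := by
  obtain ⟨φ', hφ'⟩ := hφ.taylor
  refine ⟨fun t => hφ.nonneg _, fun t => hφ.le_one _, ⟨fun t => a * φ' (a * t + b), ?_⟩⟩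
  intro t h
  have h1 := hφ' (a * t + b) (a * h)
  have h2 : a * t + b + a * h = a * (t + h) + b := by ring
  rw [h2] at h1
  have h3 : h * (a * φ' (a * t + b)) = a * h * φ' (a * t + b) := by ring
  rw [h3]
  refine h1.trans (le_of_eq (by ring))

end Pool.Agent.Lib.MP_e43fce_nt_nat
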