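import Pool.Agent.Lib.MP_e43fce_nt_nat.CLTI
import Pool.Agent.Lib.MP_e43fce_nt_nat.CLTRho
import Pool.Agent.Lib.MP_e43fce_nt_nat.CLTF
import Pool.Agent.Lib.MP_e43fce_nt_nat.CLTG
import Pool.Agent.Lib.MP_e43fce_nt_nat.CLTT

/-! KL3, CLT for the total stopping time: odd numbers. -/

set_option autoImplicit false

namespace Pool.Agent.Lib.MP_e43fce_nt_nat

open Finset Filter Topology MeasureTheory ProbabilityTheory

namespace CLTO

theorem kap_pos : 0 < kap := by
  have hc1 := T5.log43_lo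
  have hc2 := T5.log43_hi
  have hl := Real.log_two_gt_d9
  unfold kap
  have h1 : 9 ≤ 3 / Real.log (4 / 3) := by
    rw [le_div_iff₀ (by linarith)]; linarith
  nlinarith

theorem sgm_pos : 0 < sgm := by
  have hc1 := T5.log43_lo
  unfold sgm
  have := kap_pos
  have h2 : 0 < 2 / Real.log (4 / 3) := div_pos (by norm_num) (by linarith)
  have h3 := Real.sqrt_pos.2 h2
  positivity

theorem NY_tendsto (Y : ℝ) : Tendsto (NY Y) atTop atTop := by
  have hc1 := T5.log43_lo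
  have h : Tendsto (fun x : ℝ => (x - Y) / Real.log (4 / 3)) atTop atTop := by
    refine Tendsto.atTop_div_const (by linarith) ?_
    exact tendsto_atTop_add_const_right _ _ tendsto_id
  exact tendsto_nat_floor_atTop.comp h

theorem NY_div_tendsto (Y : ℝ) :
    Tendsto (fun x : ℝ => (NY Y x : ℝ) / x) atTop (𝓝 (1 / Real.log (4 / 3))) := by
  have hc1 := T5.log43_lo
  have hc0 : 0 < Real.log (4 / 3) := by linarith
  have h1 : Tendsto (fun x : ℝ => ((⌊(1 / Real.log (4 / 3)) * x⌋₊ : ℕ) : ℝ) / x) atTop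
      (𝓝 (1 / Real.log (4 / 3))) := tendsto_nat_floor_mul_div_atTop (by positivity)
  have h2 : Tendsto (fun x : ℝ => x - Y) atTop atTop :=
    tendsto_atTop_add_const_right _ _ tendsto_id
  have h3 := h1.comp h2
  have h4 : Tendsto (fun x : ℝ => (x - Y) / x) atTop (𝓝 1) := by
    have h5 : Tendsto (fun x : ℝ => 1 - Y / x) atTop (𝓝 (1 - 0)) := by
      refine tendsto_const_nhds.sub ?_
      exact tendsto_const_nhds.div_atTop tendsto_id
    rw [sub_zero] at h5
    refine h5.congr' ?_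
    filter_upwards [eventually_gt_atTop 0] with x hx
    field_simp
  have h6 := h3.mul h4
  rw [mul_one] at h6
  refine h6.congr' ?_
  filter_upwards [eventually_gt_atTop 0, eventually_gt_atTop Y] with x hx hxY
  have h7 : x - Y ≠ 0 := by linarith
  simp only [Function.comp]
  have h8 : (1 / Real.log (4 / 3)) * (x - Y) = (x - Y) / Real.log (4 / 3) := by ring
  rw [h8]
  unfold NY
  field_simp

theorem sqrt_NY_tendsto (Y : ℝ) :
    Tendsto (fun x : ℝ => Real.sqrt (2 * (NY Y x : ℝ)) / Real.sqrt x) atTop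
      (𝓝 (Real.sqrt (2 / Real.log (4 / 3)))) := by
  have h1 := (NY_div_tendsto Y).const_mul 2
  have h2 := (Real.continuous_sqrt.tendsto _).comp h1
  have h3 : 2 * (1 / Real.log (4 / 3)) = 2 / Real.log (4 / 3) := by ring
  rw [h3] at h2
  refine h2.congr' ?_
  filter_upwards [eventually_gt_atTop 0] with x hx
  simp only [Function.comp]
  rw [← Real.sqrt_div (by positivity)]
  congr 1
  ring

/-- the shift `T(x) - c0 x` in units of `kappa sqrt(2N)` -/
theorem shift_tendsto (Y y a : ℝ) :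
    Tendsto (fun x : ℝ => (((⌊3 / Real.log (4 / 3) * x + y * sgm * Real.sqrt x⌋ : ℤ) : ℝ) -
      3 / Real.log (4 / 3) * x + a) / (kap * Real.sqrt (2 * (NY Y x : ℝ)))) atTop (𝓝 y) := by
  have hκ := kap_pos
  have hσ := sgm_pos
  have h1 : Tendsto (fun x : ℝ => (((⌊3 / Real.log (4 / 3) * x + y * sgm * Real.sqrt x⌋ : ℤ) : ℝ) -
      3 / Real.log (4 / 3) * x + a) / Real.sqrt x) atTop (𝓝 (y * sgm)) := by
    have h2 : Tendsto (fun x : ℝ => (1 + |a|) / Real.sqrt x) atTop (𝓝 0) :=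
      tendsto_const_nhds.div_atTop Real.tendsto_sqrt_atTop
    have h3 : Tendsto (fun x : ℝ => (((⌊3 / Real.log (4 / 3) * x + y * sgm * Real.sqrt x⌋ : ℤ) : ℝ) -
      3 / Real.log (4 / 3) * x + a) / Real.sqrt x - y * sgm) atTop (𝓝 0) := by
      refine squeeze_zero_norm' ?_ h2
      filter_upwards [eventually_gt_atTop 0] with x hx
      have hs : 0 < Real.sqrt x := Real.sqrt_pos.2 hx
      set v := 3 / Real.log (4 / 3) * x + y * sgm * Real.sqrt x with hv
      have h4 : (((⌊v⌋ : ℤ) : ℝ) - 3 / Real.log (4 / 3) * x + a) / Real.sqrt x - y * sgm =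
          (((⌊v⌋ : ℤ) : ℝ) - v + a) / Real.sqrt x := by
        rw [hv]
        field_simp
        ring
      rw [h4, norm_div, Real.norm_of_nonneg hs.le]
      apply div_le_div_of_nonneg_right _ hs.le
      have h5 := Int.floor_le v
      have h6 := Int.lt_floor_add_one v
      rw [Real.norm_eq_abs]
      have h7 := abs_add_le (((⌊v⌋ : ℤ) : ℝ) - v) a
      have h8 : |((⌊v⌋ : ℤ) : ℝ) - v| ≤ 1 := by
        rw [abs_le]; constructor <;> linarith
      linarith
    have h4 := h3.add_const (y * sgm)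
    rw [zero_add] at h4
    refine h4.congr ?_
    intro x
    ring
  have h2 : Tendsto (fun x : ℝ => kap * Real.sqrt (2 * (NY Y x : ℝ)) / Real.sqrt x) atTop
      (𝓝 sgm) := by
    have h3 := (sqrt_NY_tendsto Y).const_mul kap
    refine h3.congr ?_
    intro x
    ring
  have h3 := h1.div h2 hσ.ne'
  have h4 : y * sgm / sgm = y := by field_simp
  rw [h4] at h3
  refine h3.congr' ?_
  filter_upwards [eventually_gt_atTop 0, (NY_tendsto Y).eventually_ge_atTop 1] with x hx hN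
  have hs : 0 < Real.sqrt x := Real.sqrt_pos.2 hx
  have hN' : 0 < Real.sqrt (2 * (NY Y x : ℝ)) := by
    apply Real.sqrt_pos.2
    have : (1 : ℝ) ≤ NY Y x := by exact_mod_cast hN
    linarith
  simp only [Pi.div_apply]
  field_simp

theorem summable_mul {N : ℕ} {f : ℕ → ℝ} {C : ℝ} (hf : ∀ A, |f A| ≤ C) :
    Summable (fun A => rho N A * f A) := by
  refine Summable.of_norm_bounded ((rho_hasSum N).summable.mul_right C) ?_
  intro A
  rw [norm_mul, Real.norm_of_nonneg (rho_nonneg N A)]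
  exact mul_le_mul_of_nonneg_left (hf A) (rho_nonneg N A)

/-- limit with a converging shift -/
theorem lim_shift {g : ℝ → ℝ} {L C : ℝ} (hC : ∀ t, |g t| ≤ C)
    (hg : ∀ s t, |g s - g t| ≤ L * |s - t|) (hgc : Continuous g)
    {ι : Type*} {l : Filter ι} {N : ι → ℕ} {u : ι → ℝ} {y : ℝ}
    (hN : Tendsto N l atTop) (hu : Tendsto u l (𝓝 y)) :
    Tendsto (fun j => ∑' A : ℕ, rho (N j) A * g (((A : ℝ) - 2 * N j) / Real.sqrt (2 * N j) + u j)) l
      (𝓝 (∫ t, g (t + y) ∂(gaussianReal 0 1))) := by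
  have h1 := (rho_clt_cont (fun t => g (t + y)) (by fun_prop) C (fun t => hC _)).comp hN
  have h2 : Tendsto (fun j => ∑' A : ℕ, rho (N j) A *
      (g (((A : ℝ) - 2 * N j) / Real.sqrt (2 * N j) + u j) -
        g (((A : ℝ) - 2 * N j) / Real.sqrt (2 * N j) + y))) l (𝓝 0) := by
    have h3 : Tendsto (fun j => L * |u j - y|) l (𝓝 0) := by
      have h4 := ((hu.sub_const y).abs).const_mul L
      simpa using h4
    refine squeeze_zero_norm ?_ h3
    intro j
    rw [Real.norm_eq_abs]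
    apply rho_tsum_le
    intro A
    have h4 := hg (((A : ℝ) - 2 * N j) / Real.sqrt (2 * N j) + u j)
      (((A : ℝ) - 2 * N j) / Real.sqrt (2 * N j) + y)
    rwa [add_sub_add_left_eq_sub] at h4
  have h3 := h1.add h2
  rw [add_zero] at h3
  refine h3.congr ?_
  intro j
  simp only [Function.comp]
  rw [← Summable.tsum_add]
  · apply tsum_congr
    intro A
    ring
  · exact summable_mul (fun A => hC _)
  · apply summable_mul (C := 2 * C)
    intro A
    have h4 := abs_sub (g (((A : ℝ) - 2 * N j) / Real.sqrt (2 * N j) + u j))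
      (g (((A : ℝ) - 2 * N j) / Real.sqrt (2 * N j) + y))
    have h5 := hC (((A : ℝ) - 2 * N j) / Real.sqrt (2 * N j) + u j)
    have h6 := hC (((A : ℝ) - 2 * N j) / Real.sqrt (2 * N j) + y)
    linarith

/-- general upper bound -/
theorem upper_gen {d : ℝ} (hd0 : 0 ≤ d) (hd1 : d ≤ 1) {p : ℤ → ℕ → ℝ}
    (hrec : ∃ C x0 : ℝ, 0 ≤ C ∧ 100 ≤ x0 ∧ ∀ x : ℝ, x0 ≤ x → ∀ (T : ℤ) (i : ℕ),
      (i : ℝ) ^ 2 ≤ x / 10 →
      DD i (p T) x ≤ ∑ A ∈ win (1 / 10) ⌊x / 5⌋₊, rho ⌊x / 5⌋₊ A *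
        DD (i1 ⌊x / 5⌋₊) (p (T - ⌊x / 5⌋₊ - A)) (zz x ⌊x / 5⌋₊ A) + C * x ^ (-(1 / 4) : ℝ))
    {g : ℝ → ℝ} {M L : ℝ} (hM : 0 ≤ M) (hg : TestFn g M) (hgc : Continuous g)
    (hgL : ∀ s t, |g s - g t| ≤ L * |s - t|)
    (hbase : ∀ η : ℝ, 0 < η → ∃ x1 : ℝ, ∀ Y : ℝ, ∃ a : ℝ, ∀ x : ℝ, x1 ≤ x → x ≤ Y →
      ∀ (T : ℤ) (i : ℕ), (i : ℝ) ^ 2 ≤ x / 10 → ∀ w : ℝ, 0 < w →
      DD i (p T) x ≤ (d + η) * g ((T - 3 / Real.log (4 / 3) * x + a) / w))
    (y : ℝ) {ε : ℝ} (hε : 0 < ε) : ∀ᶠ x : ℝ in atTop,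
      DD 0 (p ⌊3 / Real.log (4 / 3) * x + y * sgm * Real.sqrt x⌋) x ≤
        d * ∫ t, g (t + y) ∂(gaussianReal 0 1) + ε := by
  have hκ := kap_pos
  obtain ⟨C, x0, hC, hx0, hrec⟩ := hrec
  obtain ⟨D, hD, hind⟩ := clt_induction hC hx0
  set η := min (ε / 8) 1 with hη
  have hη0 : 0 < η := lt_min (by linarith) one_pos
  have hη1 : η ≤ 1 := min_le_right _ _
  have hη8 : η ≤ ε / 8 := min_le_left _ _
  obtain ⟨x1, hx1⟩ := hbase η hη0
  -- choice of Y
  have hlimY : Tendsto (fun Y : ℝ => D * Y ^ (-(1 / 4) : ℝ)) atTop (𝓝 (D * 0)) :=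
    Tendsto.const_mul D (tendsto_rpow_neg_atTop (by norm_num))
  rw [mul_zero] at hlimY
  obtain ⟨Y, hY1, hY2, hY3⟩ := ((hlimY.eventually_le_const (show (0 : ℝ) < ε / 8 by linarith)).and
    ((eventually_ge_atTop x0).and (eventually_ge_atTop (10 / 9 * x1)))).exists
  obtain ⟨E, hE, hind⟩ := hind Y hY2
  obtain ⟨a, ha⟩ := hx1 Y
  set I := ∫ t, g (t + y) ∂(gaussianReal 0 1) with hI
  have hI0 : 0 ≤ I := integral_nonneg (fun t => hg.nonneg _)
  have hI1 : I ≤ 1 := by
    have h1 : I ≤ ∫ t, (1 : ℝ) ∂(gaussianReal 0 1) := by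
      apply integral_mono_of_nonneg
      · exact Filter.Eventually.of_forall (fun t => hg.nonneg _)
      · exact integrable_const _
      · exact Filter.Eventually.of_forall (fun t => hg.le_one _)
    simpa using h1
  -- the limit of U
  have hgabs : ∀ t, |g t| ≤ 1 := fun t => by
    rw [abs_of_nonneg (hg.nonneg t)]; exact hg.le_one t
  have hlim := lim_shift hgabs hgL hgc (NY_tendsto Y) (shift_tendsto Y y a)
  have hev1 : ∀ᶠ x : ℝ in atTop, ∑' A : ℕ, rho (NY Y x) A *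
      g (((A : ℝ) - 2 * (NY Y x : ℝ)) / Real.sqrt (2 * (NY Y x : ℝ)) +
        (((⌊3 / Real.log (4 / 3) * x + y * sgm * Real.sqrt x⌋ : ℤ) : ℝ) -
      3 / Real.log (4 / 3) * x + a) / (kap * Real.sqrt (2 * (NY Y x : ℝ)))) ≤ I + ε / 4 :=
    hlim.eventually_le_const (by rw [← hI]; linarith)
  -- the error term
  have hev2 : ∀ᶠ x : ℝ in atTop,
      E * (M * (1 / (kap * Real.sqrt (2 * (NY Y x : ℝ)))) ^ 2) * Real.sqrt x ≤ ε / 8 := by
    have h1 : Tendsto (fun x : ℝ => E * M / (2 * kap ^ 2) * ((NY Y x : ℝ) / x)⁻¹ *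
        (1 / Real.sqrt x)) atTop (𝓝 (E * M / (2 * kap ^ 2) * (1 / Real.log (4 / 3))⁻¹ * 0)) := by
      refine ((((NY_div_tendsto Y).inv₀ ?_).const_mul _).mul ?_)
      · have := T5.log43_lo
        have h2 : 0 < Real.log (4 / 3) := by linarith
        positivity
      · exact tendsto_const_nhds.div_atTop Real.tendsto_sqrt_atTop
    rw [mul_zero] at h1
    have h2 := h1.eventually_le_const (show (0 : ℝ) < ε / 8 by linarith)
    filter_upwards [h2, eventually_gt_atTop 0, (NY_tendsto Y).eventually_ge_atTop 1] with x hx hx0 hN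
    refine le_trans (le_of_eq ?_) hx
    have hN1 : (1 : ℝ) ≤ NY Y x := by exact_mod_cast hN
    have hN0 : (0 : ℝ) < NY Y x := by linarith
    have hs : 0 < Real.sqrt x := Real.sqrt_pos.2 hx0
    have hsx : Real.sqrt x ^ 2 = x := Real.sq_sqrt hx0.le
    have hsN : Real.sqrt (2 * (NY Y x : ℝ)) ^ 2 = 2 * (NY Y x : ℝ) := Real.sq_sqrt (by linarith)
    rw [div_pow, one_pow, mul_pow, hsN]
    field_simp
    rw [hsx]
  filter_upwards [hev1, hev2, eventually_ge_atTop Y, (NY_tendsto Y).eventually_ge_atTop 1]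
    with x h1 h2 hxY hN
  have hN1 : (1 : ℝ) ≤ NY Y x := by exact_mod_cast hN
  have hsN : 0 < Real.sqrt (2 * (NY Y x : ℝ)) := Real.sqrt_pos.2 (by linarith)
  set w := kap * Real.sqrt (2 * (NY Y x : ℝ)) with hw
  have hw0 : 0 < w := by rw [hw]; positivity
  set T : ℤ := ⌊3 / Real.log (4 / 3) * x + y * sgm * Real.sqrt x⌋ with hT
  have hφ := hg.affine (1 / w) (a / w)
  have hB : 0 ≤ M * (1 / w) ^ 2 := by positivity
  have h3 := hind (fun i T x => DD i (p T) x) (d + η) (M * (1 / w) ^ 2)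
    (fun t => g (1 / w * t + a / w)) (by linarith) (by linarith) hB hφ hrec
    (fun x' hx' hx'' T' i hi => by
      have h4 := ha x' (by linarith) hx'' T' i hi w hw0
      refine h4.trans (le_of_eq ?_)
      congr 2
      ring) x hxY T 0 (by
        have hY100 : 100 ≤ Y := hx0.trans hY2
        norm_num
        linarith)
  have h4 : UU kap (fun t => g (1 / w * t + a / w)) (NY Y x) ((T : ℝ) - 3 / Real.log (4 / 3) * x) =
      ∑' A : ℕ, rho (NY Y x) A *
      g (((A : ℝ) - 2 * (NY Y x : ℝ)) / Real.sqrt (2 * (NY Y x : ℝ)) +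
        ((T : ℝ) - 3 / Real.log (4 / 3) * x + a) / w) := by
    unfold UU
    apply tsum_congr
    intro A
    have h5 : kap * ((A : ℝ) - 2 * (NY Y x : ℝ)) / w =
        ((A : ℝ) - 2 * (NY Y x : ℝ)) / Real.sqrt (2 * (NY Y x : ℝ)) := by
      rw [hw, mul_div_mul_left _ _ hκ.ne']
    rw [← h5]
    congr 2
    ring_nf
  rw [h4] at h3
  set U := ∑' A : ℕ, rho (NY Y x) A *
      g (((A : ℝ) - 2 * (NY Y x : ℝ)) / Real.sqrt (2 * (NY Y x : ℝ)) +
        ((T : ℝ) - 3 / Real.log (4 / 3) * x + a) / w) with hU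
  have h5 : (d + η) * U ≤ (d + η) * (I + ε / 4) := mul_le_mul_of_nonneg_left h1 (by linarith)
  have h6 : (d + η) * (I + ε / 4) ≤ d * I + η + 2 * (ε / 4) := by
    have h7 : η * I ≤ η * 1 := mul_le_mul_of_nonneg_left hI1 hη0.le
    have h8 : (d + η) * (ε / 4) ≤ 2 * (ε / 4) := mul_le_mul_of_nonneg_right (by linarith) (by linarith)
    nlinarith
  have h7 : DD 0 (p T) x ≤ (d + η) * U + D * Y ^ (-(1 / 4) : ℝ) +
      E * (M * (1 / w) ^ 2) * Real.sqrt x := h3
  linarith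

theorem TestFn_scale {e : ℝ} (_he : 0 < e) {M L : ℝ} (_hL : 0 ≤ L) (hs : TestFn stp M)
    (hlip : ∀ s t, |stp s - stp t| ≤ L * |s - t|) (b : ℝ) :
    TestFn (fun t => stp (b * t + 1)) (M * b ^ 2) ∧
    (∀ s t, |stp (b * s + 1) - stp (b * t + 1)| ≤ L * |b| * |s - t|) := by
  refine ⟨hs.affine b 1, ?_⟩
  intro s t
  refine (hlip _ _).trans (le_of_eq ?_)
  rw [show b * s + 1 - (b * t + 1) = b * (s - t) by ring, abs_mul]
  ring

theorem upL {d : ℝ} (hd : Tendsto (DD 0 (ind Rone)) atTop (𝓝 d)) (hd0 : 0 ≤ d) (hd1 : d ≤ 1)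
    (y : ℝ) {ε : ℝ} (hε : 0 < ε) : ∀ᶠ x : ℝ in atTop,
      DD 0 (pLZ ⌊3 / Real.log (4 / 3) * x + y * sgm * Real.sqrt x⌋) x ≤ d * Phi y + ε := by
  have hc1 := T5.log43_lo
  obtain ⟨M, L, hM, hL, hs, hlip, hz, ho, hmono, hcont⟩ := stp_test
  -- choice of e
  have h1 : Tendsto (fun e : ℝ => Phi (y + e)) (𝓝[>] 0) (𝓝 (Phi (y + 0))) := by
    apply Tendsto.mono_left _ nhdsWithin_le_nhds
    exact (Phi_continuous.comp (continuous_const.add continuous_id)).tendsto 0
  rw [add_zero] at h1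
  obtain ⟨e, he1, he0⟩ := ((h1.eventually_le_const (show Phi y < Phi y + ε / 2 by linarith)).and
    self_mem_nhdsWithin).exists
  have he0' : 0 < e := he0
  obtain ⟨hg, hgL⟩ := TestFn_scale he0' hL hs hlip (1 / e)
  have h2 := upper_gen hd0 hd1 recL (by positivity) hg (by fun_prop) hgL
    (by
      intro η hη
      obtain ⟨x1, hx1⟩ := baseL hd hη
      refine ⟨x1, fun Y => ⟨3 / Real.log (4 / 3) * Y, ?_⟩⟩
      intro x hx hxY T i hi w hw
      refine (hx1 x hx T i hi).trans ?_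
      apply mul_le_mul_of_nonneg_left _ (by linarith)
      split_ifs with hT
      · have hT' : (0 : ℝ) ≤ T := by exact_mod_cast hT
        have h3 : 0 ≤ 3 / Real.log (4 / 3) * (Y - x) :=
          mul_nonneg (div_nonneg (by norm_num) (by linarith)) (by linarith)
        have h4 : 0 ≤ ((T : ℝ) - 3 / Real.log (4 / 3) * x + 3 / Real.log (4 / 3) * Y) / w := by
          apply div_nonneg _ hw.le
          nlinarith
        rw [ho]
        have : 0 ≤ 1 / e * (((T : ℝ) - 3 / Real.log (4 / 3) * x + 3 / Real.log (4 / 3) * Y) / w) := by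
          positivity
        linarith
      · exact hg.nonneg _)
    y (show 0 < ε / 2 by linarith)
  have h3 := (gauss_step he0' y).1
  have h4 : ∫ t, (fun t => stp (1 / e * t + 1)) (t + y) ∂(gaussianReal 0 1) ≤ Phi y + ε / 2 := by
    refine le_trans (le_of_eq ?_) (h3.trans he1)
    congr 1
    ext t
    simp only
    congr 1
    ring
  filter_upwards [h2] with x hx
  have h5 := mul_le_mul_of_nonneg_left h4 hd0
  have h6 : d * (ε / 2) ≤ 1 * (ε / 2) := mul_le_mul_of_nonneg_right hd1 (by linarith)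
  nlinarith

theorem upG {d : ℝ} (hd : Tendsto (DD 0 (ind Rone)) atTop (𝓝 d)) (hd0 : 0 ≤ d) (hd1 : d ≤ 1)
    (y : ℝ) {ε : ℝ} (hε : 0 < ε) : ∀ᶠ x : ℝ in atTop,
      DD 0 (pGZ ⌊3 / Real.log (4 / 3) * x + y * sgm * Real.sqrt x⌋) x ≤ d * Phi (-y) + ε := by
  obtain ⟨M, L, hM, hL, hs, hlip, hz, ho, hmono, hcont⟩ := stp_test
  -- choice of e
  have h1 : Tendsto (fun e : ℝ => Phi (-y + e)) (𝓝[>] 0) (𝓝 (Phi (-y + 0))) := by
    apply Tendsto.mono_left _ nhdsWithin_le_nhds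
    exact (Phi_continuous.comp (continuous_const.add continuous_id)).tendsto 0
  rw [add_zero] at h1
  obtain ⟨e, he1, he0⟩ := ((h1.eventually_le_const (show Phi (-y) < Phi (-y) + ε / 2 by linarith)).and
    self_mem_nhdsWithin).exists
  have he0' : 0 < e := he0
  obtain ⟨hg, hgL⟩ := TestFn_scale he0' hL hs hlip (-(1 / e))
  have h2 := upper_gen hd0 hd1 recG (by positivity) hg (by fun_prop) hgL
    (by
      intro η hη
      obtain ⟨x1, hx1⟩ := baseG hd hη
      refine ⟨x1, fun Y => ?_⟩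
      obtain ⟨Lm, hLm⟩ := hx1 Y
      refine ⟨-(Lm : ℝ), ?_⟩
      intro x hx hxY T i hi w hw
      refine (hLm x hx hxY T i hi).trans ?_
      apply mul_le_mul_of_nonneg_left _ (by linarith)
      split_ifs with hT
      · have hT' : (T : ℝ) < Lm := by exact_mod_cast hT
        have hx0 : 0 ≤ x := by
          have : (0 : ℝ) ≤ (i : ℝ) ^ 2 := by positivity
          linarith
        have hc1 := T5.log43_lo
        have h3 : 0 ≤ 3 / Real.log (4 / 3) * x :=
          mul_nonneg (div_nonneg (by norm_num) (by linarith)) hx0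
        have h4 : 0 ≤ 1 / e * ((-((T : ℝ) - 3 / Real.log (4 / 3) * x + -(Lm : ℝ))) / w) := by
          apply mul_nonneg (by positivity)
          apply div_nonneg _ hw.le
          linarith
        rw [ho]
        have h5 : -(1 / e) * (((T : ℝ) - 3 / Real.log (4 / 3) * x + -(Lm : ℝ)) / w) =
            1 / e * ((-((T : ℝ) - 3 / Real.log (4 / 3) * x + -(Lm : ℝ))) / w) := by ring
        rw [h5]
        linarith
      · exact hg.nonneg _)
    y (show 0 < ε / 2 by linarith)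
  have h3 := (gauss_step he0' y).2
  have h4 : ∫ t, (fun t => stp (-(1 / e) * t + 1)) (t + y) ∂(gaussianReal 0 1) ≤
      Phi (-y) + ε / 2 := by
    refine le_trans (le_of_eq ?_) (h3.trans he1)
    congr 1
    ext t
    simp only
    congr 1
    ring
  filter_upwards [h2] with x hx
  have h5 := mul_le_mul_of_nonneg_left h4 hd0
  have h6 : d * (ε / 2) ≤ 1 * (ε / 2) := mul_le_mul_of_nonneg_right hd1 (by linarith)
  nlinarith

end CLTO

open CLTO in
theorem clt_odd {d : ℝ} (hd : Tendsto (DD 0 (ind Rone)) atTop (𝓝 d)) (y : ℝ) :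
    Tendsto (fun x : ℝ => DD 0 (pLZ ⌊3 / Real.log (4 / 3) * x + y * sgm * Real.sqrt x⌋) x) atTop
      (𝓝 (d * Phi y)) := by
  have hu : Unit01 (ind Rone) := h34_ind_unitp Rone
  have hd0 : 0 ≤ d := ge_of_tendsto' hd (fun x => DD_nonneg hu x)
  have hd1 : d ≤ 1 := le_of_tendsto' hd (fun x => DD0_le_one hu x)
  have hsum : ∀ x : ℝ, ∀ T : ℤ, DD 0 (pLZ T) x + DD 0 (pGZ T) x = DD 0 (ind Rone) x := by
    intro x T
    rw [← DD_add]
    congr 1
    ext n
    exact pLZ_add_pGZ T n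
  rw [Metric.tendsto_nhds]
  intro ε hε
  have h1 := upL hd hd0 hd1 y (show 0 < ε / 3 by linarith)
  have h2 := upG hd hd0 hd1 y (show 0 < ε / 3 by linarith)
  have h3 : ∀ᶠ x : ℝ in atTop, d - ε / 3 ≤ DD 0 (ind Rone) x :=
    hd.eventually_const_le (by linarith)
  have hΦ := Phi_neg y
  filter_upwards [h1, h2, h3] with x h1 h2 h3
  have h4 := hsum x ⌊3 / Real.log (4 / 3) * x + y * sgm * Real.sqrt x⌋
  have h5 : d * Phi y + d * Phi (-y) = d := by
    rw [← mul_add, hΦ, mul_one]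
  rw [Real.dist_eq, abs_lt]
  constructor <;> linarith

end Pool.Agent.Lib.MP_e43fce_nt_nat
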