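import Pool.Agent.Lib.MP_e43fce_nt_nat.CLTA0
import Pool.Agent.Lib.MP_e43fce_nt_nat.CLTO

/-! KL3, CLT for the total stopping time: all numbers. -/

set_option autoImplicit false

namespace Pool.Agent.Lib.MP_e43fce_nt_nat

open Finset Filter Topology MeasureTheory ProbabilityTheory

open Classical in
theorem clt_all {δ : ℝ} (hδ : Tendsto (fun X : ℕ => (∑ n ∈ Icc 1 X, ind Rone n) / X) atTop (𝓝 δ))
    (y : ℝ) :
    Tendsto (fun X : ℕ => (((Icc 1 X).filter (fun n : ℕ => ∃ k : ℕ,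
      (k : ℝ) ≤ 3 / Real.log (4 / 3) * Real.log n + y * sgm * Real.sqrt (Real.log n) ∧
        col^[k] n = 1)).card : ℝ) / X) atTop (𝓝 (δ * Phi y)) :=
  clt_all_of (fun _ hd y => clt_odd hd y) hδ y

end Pool.Agent.Lib.MP_e43fce_nt_nat
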