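import Pool.Agent.Lib.MP_e43fce_nt_nat.T5ODD
import Pool.Agent.Lib.MP_e43fce_nt_nat.AllOdd

/-! T5, lower half. -/

set_option autoImplicit false

namespace Pool.Agent.Lib.MP_e43fce_nt_nat

open Finset Filter Topology

theorem h34_col_two_pow_mulp (j m : ℕ) : col (2 ^ (j + 1) * m) = 2 ^ j * m := by
  unfold col
  have h : 2 ^ (j + 1) * m = 2 * (2 ^ j * m) := by ring
  rw [h]
  simp

theorem h34_col_iter_lt (j : ℕ) : ∀ k m : ℕ, col^[k] (2 ^ (k + j) * m) = 2 ^ j * m := by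
  intro k
  induction k with
  | zero => intro m; simp
  | succ k ih =>
    intro m
    rw [Function.iterate_succ_apply]
    have h : k + 1 + j = (k + j) + 1 := by ring
    rw [h, h34_col_two_pow_mulp, ih m]

/-- hitting one from `2^j m` with `m` odd takes at least `j` steps -/
theorem h34_hit_sub {j k m : ℕ} (h : col^[k] (2 ^ j * m) = 1) :
    ∃ k' ≤ k, col^[k'] m = 1 := by
  by_cases hk : j ≤ k
  · refine ⟨k - j, by omega, ?_⟩
    have e : k = (k - j) + j := by omega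
    rw [e, Function.iterate_add_apply] at h
    have h2 := h34_col_iter_lt 0 j m
    simp only [add_zero, pow_zero, one_mul] at h2
    rw [h2] at h
    exact h
  · exfalso
    push Not at hk
    have e : j = k + ((j - k - 1) + 1) := by omega
    rw [e, h34_col_iter_lt] at h
    rw [pow_succ] at h
    have : (2 ^ (j - k - 1) * 2 * m) % 2 = 0 := by
      have : 2 ^ (j - k - 1) * 2 * m = 2 * (2 ^ (j - k - 1) * m) := by ring
      omega
    omega

/-- the indicator of the fast numbers -/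
noncomputable def h34_fast (e0 : ℝ) (n : ℕ) : ℝ := by
  classical exact if ∃ k : ℕ, (k : ℝ) ≤ (3 / Real.log (4 / 3) - e0) * Real.log n ∧ col^[k] n = 1
    then 1 else 0

theorem h34_fast_unit (e0 : ℝ) : Unit01 (h34_fast e0) := by
  intro n
  unfold h34_fast
  split <;> norm_num

theorem h34_DD_mono_local {i : ℕ} {p q : ℕ → ℝ} {x : ℝ}
    (h : ∀ n ∈ oddS (Real.exp x), p n ≤ q n) : DD i p x ≤ DD i q x := by
  unfold DD NN
  apply div_le_div_of_nonneg_right _ (Real.exp_pos x).le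
  apply Finset.sum_le_sum
  intro n hn
  exact mul_le_mul_of_nonneg_right (h n hn) (MM_nonneg i n)

theorem h34_fast_le {e0 : ℝ} (hc : 0 ≤ 3 / Real.log (4 / 3) - e0) {j m : ℕ} {x : ℝ} (hm : 1 ≤ m)
    (hx : (m : ℝ) ≤ Real.exp x) :
    h34_fast e0 (2 ^ j * m) ≤
      pL ⌊(3 / Real.log (4 / 3) - e0) * (x + j * Real.log 2)⌋₊ m := by
  unfold h34_fast pL
  by_cases h : ∃ k : ℕ, (k : ℝ) ≤ (3 / Real.log (4 / 3) - e0) * Real.log ((2 ^ j * m : ℕ) : ℝ) ∧
      col^[k] (2 ^ j * m) = 1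
  · obtain ⟨k, hk, hk1⟩ := h
    obtain ⟨k', hk', hk1'⟩ := h34_hit_sub hk1
    have hmpos : (0 : ℝ) < m := by exact_mod_cast hm
    have hlogm : Real.log m ≤ x := by
      rw [Real.log_le_iff_le_exp hmpos]; exact hx
    have hlog : Real.log ((2 ^ j * m : ℕ) : ℝ) ≤ x + j * Real.log 2 := by
      push_cast
      rw [Real.log_mul (by positivity) (by positivity), Real.log_pow]
      linarith
    have hkT : k' ≤ ⌊(3 / Real.log (4 / 3) - e0) * (x + j * Real.log 2)⌋₊ := by
      apply Nat.le_floor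
      calc (k' : ℝ) ≤ (k : ℝ) := by exact_mod_cast hk'
        _ ≤ _ := hk
        _ ≤ _ := mul_le_mul_of_nonneg_left hlog hc
    rw [if_pos ⟨k, hk, hk1⟩, if_pos ⟨k', hkT, hk1'⟩]
  · rw [if_neg h]
    split <;> norm_num

theorem h34_log43_pos : 0 < Real.log (4 / 3) := Real.log_pos (by norm_num)

theorem h34_fast_odd {e0 : ℝ} (he : 0 < e0) (hc : 0 ≤ 3 / Real.log (4 / 3) - e0) (j : ℕ) :
    Tendsto (DD 0 (fun m => h34_fast e0 (2 ^ j * m))) atTop (𝓝 0) := by
  obtain ⟨C, b0, hC, hb0, h⟩ := T5_odd (e0 := e0 / 2) (by linarith)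
  rw [Metric.tendsto_atTop]
  intro ε hε
  -- choose b
  have hlim : Tendsto (fun b : ℝ => C * b ^ (-(1 / 4) : ℝ)) atTop (𝓝 (C * 0)) :=
    Tendsto.const_mul C (tendsto_rpow_neg_atTop (by norm_num))
  rw [mul_zero] at hlim
  have hev : ∀ᶠ b : ℝ in atTop, C * b ^ (-(1 / 4) : ℝ) < ε := hlim.eventually_lt_const hε
  obtain ⟨b, hb1, hb2⟩ := (hev.and (eventually_ge_atTop b0)).exists
  set c := 3 / Real.log (4 / 3) - e0 with hcdef
  refine ⟨max 0 ((b + c * (j * Real.log 2)) / (e0 / 2)), fun x hx => ?_⟩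
  have hx0 : 0 ≤ x := le_trans (le_max_left _ _) hx
  have hx1 : (b + c * (j * Real.log 2)) / (e0 / 2) ≤ x := le_trans (le_max_right _ _) hx
  rw [div_le_iff₀ (by linarith)] at hx1
  have hT : ((⌊c * (x + j * Real.log 2)⌋₊ : ℕ) : ℝ) ≤ (3 / Real.log (4 / 3) - e0 / 2) * x - b := by
    have hl2 : 0 ≤ Real.log 2 := Real.log_nonneg (by norm_num)
    have h0 : 0 ≤ c * (x + j * Real.log 2) := by positivity
    refine le_trans (Nat.floor_le h0) ?_
    have : 3 / Real.log (4 / 3) - e0 / 2 = c + e0 / 2 := by rw [hcdef]; ring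
    rw [this]
    nlinarith
  have h1 := h b hb2 x hx0 _ hT
  have h2 : DD 0 (fun m => h34_fast e0 (2 ^ j * m)) x ≤ DD 0 (pL ⌊c * (x + j * Real.log 2)⌋₊) x := by
    apply h34_DD_mono_local
    intro n hn
    unfold oddS at hn
    simp only [mem_filter, mem_Icc] at hn
    exact h34_fast_le hc hn.1.1 ((Nat.le_floor_iff (Real.exp_pos x).le).1 hn.1.2)
  have h3 : 0 ≤ DD 0 (fun m => h34_fast e0 (2 ^ j * m)) x := DD_nonneg (fun n => h34_fast_unit e0 _) x
  rw [dist_zero_right, Real.norm_eq_abs, abs_of_nonneg h3]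
  linarith

open Classical in
theorem h34_fast_sum (e0 : ℝ) (X : ℕ) : (((Icc 1 X).filter (fun n : ℕ => ∃ k : ℕ,
        (k : ℝ) ≤ (3 / Real.log (4 / 3) - e0) * Real.log n ∧ col^[k] n = 1)).card : ℝ) =
    ∑ n ∈ Icc 1 X, h34_fast e0 n := by
  unfold h34_fast
  rw [Finset.sum_boole]

/-- if the constant is negative only `n = 1` counts -/
theorem h34_fast_neg {e0 : ℝ} (hc : 3 / Real.log (4 / 3) - e0 < 0) {n : ℕ} (hn : 2 ≤ n) :
    h34_fast e0 n = 0 := by
  unfold h34_fast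
  rw [if_neg]
  rintro ⟨k, hk, -⟩
  have h1 : 0 < Real.log n := Real.log_pos (by exact_mod_cast hn)
  have h2 : (3 / Real.log (4 / 3) - e0) * Real.log n < 0 := mul_neg_of_neg_of_pos hc h1
  have h3 : (0 : ℝ) ≤ k := Nat.cast_nonneg k
  linarith

open Classical in
/-- all numbers: natural density zero -/
theorem T5_all {e0 : ℝ} (he : 0 < e0) :
    Filter.Tendsto (fun X : ℕ => (((Icc 1 X).filter (fun n : ℕ => ∃ k : ℕ,
        (k : ℝ) ≤ (3 / Real.log (4 / 3) - e0) * Real.log n ∧ col^[k] n = 1)).card : ℝ) / X)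
      Filter.atTop (nhds 0) := by
  have heq : (fun X : ℕ => (((Icc 1 X).filter (fun n : ℕ => ∃ k : ℕ,
        (k : ℝ) ≤ (3 / Real.log (4 / 3) - e0) * Real.log n ∧ col^[k] n = 1)).card : ℝ) / X) =
      fun X : ℕ => (∑ n ∈ Icc 1 X, h34_fast e0 n) / X := by
    funext X
    rw [h34_fast_sum]
  rw [heq]
  by_cases hc : 0 ≤ 3 / Real.log (4 / 3) - e0
  · have h := all_of_odd (h34_fast e0) (h34_fast_unit e0) (fun _ => 0) (fun j => h34_fast_odd he hc j)
    simpa using h
  · push Not at hc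
    have hle : ∀ X : ℕ, ∑ n ∈ Icc 1 X, h34_fast e0 n ≤ 1 := by
      intro X
      calc ∑ n ∈ Icc 1 X, h34_fast e0 n ≤ ∑ n ∈ Icc 1 X, (if n = 1 then (1 : ℝ) else 0) := by
            apply Finset.sum_le_sum
            intro n hn
            rw [mem_Icc] at hn
            by_cases h1 : n = 1
            · rw [if_pos h1]; exact (h34_fast_unit e0 n).2
            · rw [if_neg h1, h34_fast_neg hc (by omega)]
        _ ≤ 1 := by
            rw [Finset.sum_ite_eq']
            split <;> norm_num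
    refine squeeze_zero (fun X => ?_) (fun X => ?_) (tendsto_const_div_atTop_nhds_zero_nat 1)
    · exact div_nonneg (Finset.sum_nonneg fun n _ => (h34_fast_unit e0 n).1) (Nat.cast_nonneg X)
    · exact div_le_div_of_nonneg_right (hle X) (Nat.cast_nonneg X)

end Pool.Agent.Lib.MP_e43fce_nt_nat
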