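import Pool.Agent.Lib.MP_e43fce_nt_nat.CLTDefs
import Pool.Agent.Lib.MP_e43fce_nt_nat.CLTG
import Pool.Agent.Lib.MP_e43fce_nt_nat.DENS
import Pool.Agent.Lib.MP_e43fce_nt_nat.T5ALL

/-! KL3, CLT for the total stopping time: from the odd numbers to all numbers. -/

set_option autoImplicit false

namespace Pool.Agent.Lib.MP_e43fce_nt_nat

open Finset Filter Topology MeasureTheory ProbabilityTheory

namespace CLTA

/-- the threshold -/
noncomputable def thr (y x : ℝ) : ℝ :=
  3 / Real.log (4 / 3) * x + y * sgm * Real.sqrt x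

open Classical in
/-- `1` if `l(n) <= thr y (log n)` -/
noncomputable def pC (y : ℝ) (n : ℕ) : ℝ :=
  if ∃ k : ℕ, (k : ℝ) ≤ thr y (Real.log n) ∧ col^[k] n = 1 then 1 else 0

theorem pC_unit (y : ℝ) : Unit01 (pC y) := by
  intro n
  unfold pC
  split_ifs <;> norm_num

theorem c0_pos : 0 < 3 / Real.log (4 / 3) := div_pos (by norm_num) (Real.log_pos (by norm_num))

theorem sgm_pos : 0 < sgm := by
  have h1 : 0 < Real.log (4 / 3) := Real.log_pos (by norm_num)
  have h2 : Real.log (4 / 3) ≤ 1 / 3 := by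
    have := Real.log_le_sub_one_of_pos (x := 4 / 3) (by norm_num)
    linarith
  have h3 : (1 / 2 : ℝ) < Real.log 2 := by
    have := Real.log_two_gt_d9
    linarith
  have h4 : 9 ≤ 3 / Real.log (4 / 3) := by
    rw [le_div_iff₀ h1]
    linarith
  have hk : 0 < kap := by
    unfold kap
    nlinarith
  unfold sgm
  exact mul_pos hk (Real.sqrt_pos.2 (div_pos (by norm_num) h1))

theorem thr_near {y x a B : ℝ} (hx : 1 ≤ x) (ha : 0 ≤ a) (hB : |a - x| ≤ B) :
    |thr y a - thr y x| ≤ (3 / Real.log (4 / 3) + |y| * sgm) * B := by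
  have hs : |Real.sqrt a - Real.sqrt x| ≤ |a - x| := by
    have h1 : 1 ≤ Real.sqrt x := by
      rw [Real.one_le_sqrt]
      exact hx
    have h2 : 0 ≤ Real.sqrt a := Real.sqrt_nonneg a
    have h3 : a - x = (Real.sqrt a - Real.sqrt x) * (Real.sqrt a + Real.sqrt x) := by
      have e1 := Real.mul_self_sqrt ha
      have e2 := Real.mul_self_sqrt (by linarith : (0 : ℝ) ≤ x)
      nlinarith
    rw [h3, abs_mul, abs_of_nonneg (by linarith : 0 ≤ Real.sqrt a + Real.sqrt x)]
    have h4 := abs_nonneg (Real.sqrt a - Real.sqrt x)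
    nlinarith
  have e : thr y a - thr y x = 3 / Real.log (4 / 3) * (a - x) +
      y * sgm * (Real.sqrt a - Real.sqrt x) := by
    unfold thr
    ring
  rw [e]
  refine (abs_add_le _ _).trans ?_
  rw [abs_mul, abs_mul, abs_mul, abs_of_pos c0_pos, abs_of_pos sgm_pos, add_mul]
  have h0 : 0 ≤ |y| * sgm := mul_nonneg (abs_nonneg _) sgm_pos.le
  have h1 : 3 / Real.log (4 / 3) * |a - x| ≤ 3 / Real.log (4 / 3) * B :=
    mul_le_mul_of_nonneg_left hB c0_pos.le
  have h2 : |y| * sgm * |Real.sqrt a - Real.sqrt x| ≤ |y| * sgm * B :=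
    mul_le_mul_of_nonneg_left (hs.trans hB) h0
  linarith

theorem DD_small (x b : ℝ) :
    DD 0 (fun m : ℕ => if (m : ℝ) ≤ Real.exp (x - b) then (1 : ℝ) else 0) x ≤ Real.exp (-b) := by
  unfold DD NN
  have hx := Real.exp_pos x
  rw [div_le_iff₀ hx, ← Real.exp_add]
  have e : -b + x = x - b := by ring
  rw [e]
  have h1 : ∑ n ∈ oddS (Real.exp x), (if (n : ℝ) ≤ Real.exp (x - b) then (1 : ℝ) else 0) * MM 0 n ≤
      ∑ n ∈ Icc 1 ⌊Real.exp (x - b)⌋₊, (1 : ℝ) := by
    simp only [MM_zero, mul_one]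
    rw [← Finset.sum_filter]
    apply Finset.sum_le_sum_of_subset_of_nonneg
    · intro m hm
      unfold oddS at hm
      simp only [mem_filter, mem_Icc] at hm ⊢
      exact ⟨hm.1.1.1, Nat.le_floor hm.2⟩
    · intro _ _ _
      exact zero_le_one
  refine h1.trans ?_
  simp only [sum_const, Nat.card_Icc, nsmul_eq_mul, mul_one, add_tsub_cancel_right]
  exact Nat.floor_le (Real.exp_pos _).le

/-- one class `n = 2^j m` -/
theorem clt_j
    (hodd : ∀ d : ℝ, Tendsto (DD 0 (ind Rone)) atTop (𝓝 d) → ∀ y : ℝ,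
      Tendsto (fun x : ℝ => DD 0 (pLZ ⌊3 / Real.log (4 / 3) * x + y * sgm * Real.sqrt x⌋) x) atTop
      (𝓝 (d * Phi y))) {d : ℝ} (hd : Tendsto (DD 0 (ind Rone)) atTop (𝓝 d)) (y : ℝ) (j : ℕ) :
    Tendsto (DD 0 (fun m => pC y (2 ^ j * m))) atTop (𝓝 (d * Phi y)) := by
  rw [Metric.tendsto_atTop]
  intro ε hε
  have hcont : Continuous (fun t : ℝ => d * Phi t) := continuous_const.mul Phi_continuous
  obtain ⟨r, hr, hr2⟩ := Metric.continuous_iff.1 hcont y (ε / 4) (by linarith)
  set η : ℝ := r / 2 with hη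
  have hη0 : 0 < η := by positivity
  have hp := hr2 (y + η) (by rw [Real.dist_eq]; simp only [add_sub_cancel_left]; rw [abs_of_pos hη0]; linarith)
  have hm := hr2 (y - η) (by
    rw [Real.dist_eq]
    have : y - η - y = -η := by ring
    rw [this, abs_neg, abs_of_pos hη0]; linarith)
  rw [Real.dist_eq, abs_lt] at hp hm
  set b : ℝ := max 0 (-Real.log (ε / 4)) with hb
  have hb0 : 0 ≤ b := le_max_left _ _
  have hbe : Real.exp (-b) ≤ ε / 4 := by
    have h1 : -b ≤ Real.log (ε / 4) := by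
      have := le_max_right 0 (-Real.log (ε / 4))
      linarith
    calc Real.exp (-b) ≤ Real.exp (Real.log (ε / 4)) := Real.exp_le_exp.2 h1
      _ = ε / 4 := Real.exp_log (by linarith)
  have hl2 : 0 ≤ Real.log 2 := Real.log_nonneg (by norm_num)
  set B : ℝ := b + j * Real.log 2 with hB
  have hB0 : 0 ≤ B := by positivity
  set c0 : ℝ := 3 / Real.log (4 / 3) with hc0
  -- the conditions on x
  have hev : ∀ᶠ x : ℝ in atTop, j + (c0 + |y| * sgm) * B ≤ η * sgm * Real.sqrt x := by
    have ht : Tendsto (fun x : ℝ => η * sgm * Real.sqrt x) atTop atTop :=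
      Real.tendsto_sqrt_atTop.const_mul_atTop (mul_pos hη0 sgm_pos)
    exact ht.eventually_ge_atTop _
  have hU := (Metric.tendsto_atTop.1 (hodd d hd (y + η))) (ε / 4) (by linarith)
  have hL := (Metric.tendsto_atTop.1 (hodd d hd (y - η))) (ε / 4) (by linarith)
  obtain ⟨x1, hx1⟩ := hU
  obtain ⟨x2, hx2⟩ := hL
  obtain ⟨x3, hx3⟩ := eventually_atTop.1 hev
  refine ⟨max (max x1 x2) (max x3 (max 1 b)), fun x hx => ?_⟩
  have hxa : x1 ≤ x := le_trans (le_trans (le_max_left _ _) (le_max_left _ _)) hx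
  have hxb : x2 ≤ x := le_trans (le_trans (le_max_right _ _) (le_max_left _ _)) hx
  have hxc : x3 ≤ x := le_trans (le_trans (le_max_left _ _) (le_max_right _ _)) hx
  have hxd : 1 ≤ x := le_trans (le_trans (le_trans (le_max_left _ _) (le_max_right _ _)) (le_max_right _ _)) hx
  have hxe : b ≤ x := le_trans (le_trans (le_trans (le_max_right _ _) (le_max_right _ _)) (le_max_right _ _)) hx
  have h1 := hx1 x hxa
  have h2 := hx2 x hxb
  have h3 := hx3 x hxc
  rw [Real.dist_eq, abs_lt] at h1 h2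
  -- closeness of the thresholds
  have hnear : ∀ m : ℕ, 1 ≤ m → (m : ℝ) ≤ Real.exp x → ¬ (m : ℝ) ≤ Real.exp (x - b) →
      |thr y (Real.log ((2 ^ j * m : ℕ) : ℝ)) - thr y x| ≤ (c0 + |y| * sgm) * B := by
    intro m hm1 hm2 hm3
    have hm0 : (0 : ℝ) < m := by exact_mod_cast hm1
    have hlog : Real.log ((2 ^ j * m : ℕ) : ℝ) = j * Real.log 2 + Real.log m := by
      push_cast
      rw [Real.log_mul (by positivity) (by positivity), Real.log_pow]
    have ha : Real.log m ≤ x := by
      rw [Real.log_le_iff_le_exp hm0]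
      exact hm2
    have hb' : x - b < Real.log m := by
      rw [Real.lt_log_iff_exp_lt hm0]
      exact not_le.1 hm3
    rw [hlog]
    have hj0 : 0 ≤ (j : ℝ) * Real.log 2 := by positivity
    apply thr_near hxd
    · linarith
    · rw [abs_le]
      constructor <;> linarith
  have hup : DD 0 (fun m => pC y (2 ^ j * m)) x ≤
      DD 0 (pLZ ⌊c0 * x + (y + η) * sgm * Real.sqrt x⌋) x + Real.exp (-b) := by
    have h4 : DD 0 (fun m => pC y (2 ^ j * m)) x ≤
        DD 0 (fun m => pLZ ⌊c0 * x + (y + η) * sgm * Real.sqrt x⌋ m +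
          (if (m : ℝ) ≤ Real.exp (x - b) then (1 : ℝ) else 0)) x := by
      apply h34_DD_mono_local
      intro m hm
      unfold oddS at hm
      simp only [mem_filter, mem_Icc] at hm
      have hm2 : (m : ℝ) ≤ Real.exp x := (Nat.le_floor_iff (Real.exp_pos x).le).1 hm.1.2
      have hnn : 0 ≤ pLZ ⌊c0 * x + (y + η) * sgm * Real.sqrt x⌋ m := by
        unfold pLZ; split_ifs <;> norm_num
      by_cases hs : (m : ℝ) ≤ Real.exp (x - b)
      · rw [if_pos hs]
        have := (pC_unit y (2 ^ j * m)).2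
        linarith
      · rw [if_neg hs, add_zero]
        unfold pC
        split_ifs with hk
        · obtain ⟨k, hk1, hk2⟩ := hk
          obtain ⟨k', hk', hk3⟩ := h34_hit_sub hk2
          unfold pLZ
          rw [if_pos]
          refine ⟨k', ?_, hk3⟩
          rw [Int.le_floor]
          have h5 := hnear m hm.1.1 hm2 hs
          rw [abs_le] at h5
          have h6 : thr y x = c0 * x + y * sgm * Real.sqrt x := rfl
          have h7 : ((k' : ℕ) : ℝ) ≤ k := by exact_mod_cast hk'
          have hj0 : (0 : ℝ) ≤ j := Nat.cast_nonneg j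
          push_cast
          push_cast at hk1 h5
          nlinarith [h5.2, h3, hk1]
        · exact hnn
    have h5 : DD 0 (fun m : ℕ => pLZ ⌊c0 * x + (y + η) * sgm * Real.sqrt x⌋ m +
          (if (m : ℝ) ≤ Real.exp (x - b) then (1 : ℝ) else 0)) x =
        DD 0 (pLZ ⌊c0 * x + (y + η) * sgm * Real.sqrt x⌋) x +
        DD 0 (fun m : ℕ => if (m : ℝ) ≤ Real.exp (x - b) then (1 : ℝ) else 0) x := by
      rw [← DD_add]
    have h6 := DD_small x b
    linarith
  have hlo : DD 0 (pLZ ⌊c0 * x + (y - η) * sgm * Real.sqrt x⌋) x ≤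
      DD 0 (fun m => pC y (2 ^ j * m)) x + Real.exp (-b) := by
    have h4 : DD 0 (pLZ ⌊c0 * x + (y - η) * sgm * Real.sqrt x⌋) x ≤
        DD 0 (fun m => pC y (2 ^ j * m) +
          (if (m : ℝ) ≤ Real.exp (x - b) then (1 : ℝ) else 0)) x := by
      apply h34_DD_mono_local
      intro m hm
      unfold oddS at hm
      simp only [mem_filter, mem_Icc] at hm
      have hm2 : (m : ℝ) ≤ Real.exp x := (Nat.le_floor_iff (Real.exp_pos x).le).1 hm.1.2
      have hu : pLZ ⌊c0 * x + (y - η) * sgm * Real.sqrt x⌋ m ≤ 1 := by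
        unfold pLZ; split_ifs <;> norm_num
      by_cases hs : (m : ℝ) ≤ Real.exp (x - b)
      · rw [if_pos hs]
        have := (pC_unit y (2 ^ j * m)).1
        linarith
      · rw [if_neg hs, add_zero]
        unfold pLZ
        split_ifs with hk
        · obtain ⟨k, hk1, hk2⟩ := hk
          rw [Int.le_floor] at hk1
          push_cast at hk1
          unfold pC
          rw [if_pos]
          refine ⟨k + j, ?_, ?_⟩
          · have h5 := hnear m hm.1.1 hm2 hs
            rw [abs_le] at h5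
            have h6 : thr y x = c0 * x + y * sgm * Real.sqrt x := rfl
            push_cast
            push_cast at h5
            nlinarith [h5.1, h3, hk1]
          · rw [Function.iterate_add_apply]
            have h2 := h34_col_iter_lt 0 j m
            simp only [add_zero, pow_zero, one_mul] at h2
            rw [h2]
            exact hk2
        · exact (pC_unit y (2 ^ j * m)).1
    have h5 : DD 0 (fun m : ℕ => pC y (2 ^ j * m) +
          (if (m : ℝ) ≤ Real.exp (x - b) then (1 : ℝ) else 0)) x =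
        DD 0 (fun m => pC y (2 ^ j * m)) x +
        DD 0 (fun m : ℕ => if (m : ℝ) ≤ Real.exp (x - b) then (1 : ℝ) else 0) x := by
      rw [← DD_add]
    have h6 := DD_small x b
    linarith
  rw [Real.dist_eq, abs_lt]
  constructor
  · linarith [h2.1, hm.1]
  · linarith [h1.2, hp.2]

end CLTA

open CLTA in
open Classical in
/-- from odd numbers to all numbers -/
theorem clt_all_of
    (hodd : ∀ d : ℝ, Tendsto (DD 0 (ind Rone)) atTop (𝓝 d) → ∀ y : ℝ,
      Tendsto (fun x : ℝ => DD 0 (pLZ ⌊3 / Real.log (4 / 3) * x + y * sgm * Real.sqrt x⌋) x) atTop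
      (𝓝 (d * Phi y)))
    {δ : ℝ} (hδ : Tendsto (fun X : ℕ => (∑ n ∈ Icc 1 X, ind Rone n) / X) atTop (𝓝 δ))
    (y : ℝ) :
    Tendsto (fun X : ℕ => (((Icc 1 X).filter (fun n : ℕ => ∃ k : ℕ,
      (k : ℝ) ≤ 3 / Real.log (4 / 3) * Real.log n + y * sgm * Real.sqrt (Real.log n) ∧
        col^[k] n = 1)).card : ℝ) / X) atTop (𝓝 (δ * Phi y)) := by
  obtain ⟨C, x0, h⟩ := ren_of_inv
  obtain ⟨d, hd⟩ := soft_main (h Rone Rone_inv)
  have hgeo : ∀ v : ℝ, ∑' j : ℕ, (1 / 2 : ℝ) ^ j * v = 2 * v := by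
    intro v
    rw [tsum_mul_right, tsum_geometric_two]
  have h1 := all_of_odd (ind Rone) (h34_ind_unit Rone) (fun _ => d) (by
    intro j
    rw [h34_DD_ind_two_pow Rone_inv j]
    exact hd)
  rw [hgeo] at h1
  have h2 : δ = 2 * d := tendsto_nhds_unique hδ h1
  have h3 := all_of_odd (pC y) (pC_unit y) (fun _ => d * Phi y) (fun j => clt_j hodd hd y j)
  rw [hgeo] at h3
  have h4 : δ * Phi y = 2 * (d * Phi y) := by rw [h2]; ring
  rw [h4]
  refine h3.congr (fun X => ?_)
  congr 1
  unfold pC thr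
  rw [Finset.sum_boole]

end Pool.Agent.Lib.MP_e43fce_nt_nat
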