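import Pool.Agent.Lib.MP_e43fce_nt_nat.CLTRho

/-! KL3, CLT for the total stopping time: the CLT for `rho`. -/

set_option autoImplicit false

namespace Pool.Agent.Lib.MP_e43fce_nt_nat

open Finset Filter Topology MeasureTheory ProbabilityTheory

theorem rho_clt (g : BoundedContinuousFunction ℝ ℝ) :
    Tendsto (fun N : ℕ => ∑' A : ℕ, rho N A * g (((A : ℝ) - 2 * N) / Real.sqrt (2 * N))) atTop
      (𝓝 (∫ t, g t ∂(gaussianReal 0 1))) :=
  rho_clt_cont g g.continuous ‖g‖ (fun x => by
    rw [← Real.norm_eq_abs]; exact g.norm_coe_le_norm x)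

end Pool.Agent.Lib.MP_e43fce_nt_nat
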