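import Pool.Agent.Lib.MP_e43fce_nt_nat.DensAlg

/-! KL3, CLT for the total stopping time: definitions. -/

set_option autoImplicit false

namespace Pool.Agent.Lib.MP_e43fce_nt_nat

open Finset Filter Topology MeasureTheory ProbabilityTheory

/-- `kappa = (3 / log (4/3)) log 2 - 1` -/
noncomputable def kap : ℝ := 3 / Real.log (4 / 3) * Real.log 2 - 1

/-- `sigma = kappa sqrt (2 / log (4/3))` -/
noncomputable def sgm : ℝ := kap * Real.sqrt (2 / Real.log (4 / 3))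

/-- Gaussian distribution function -/
noncomputable def Phi (y : ℝ) : ℝ := (gaussianReal 0 1).real (Set.Iic y)

/-- test functions: `0 <= phi <= 1`, second order Taylor bound `B h^2` -/
structure TestFn (φ : ℝ → ℝ) (B : ℝ) : Prop where
  nonneg : ∀ t, 0 ≤ φ t
  le_one : ∀ t, φ t ≤ 1
  taylor : ∃ φ' : ℝ → ℝ, ∀ t h : ℝ, |φ (t + h) - φ t - h * φ' t| ≤ B * h ^ 2

/-- `U(N, m) = E phi(m + k (A - 2N))`, `A` of law `rho N` -/
noncomputable def UU (k : ℝ) (φ : ℝ → ℝ) (N : ℕ) (m : ℝ) : ℝ :=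
  ∑' A : ℕ, rho N A * φ (m + k * ((A : ℝ) - 2 * N))

open Classical in
/-- `1` if `l(n) <= T` -/
noncomputable def pLZ (T : ℤ) (n : ℕ) : ℝ := if ∃ k : ℕ, (k : ℤ) ≤ T ∧ col^[k] n = 1 then 1 else 0

open Classical in
/-- `1` if `T < l(n) < infinity` -/
noncomputable def pGZ (T : ℤ) (n : ℕ) : ℝ :=
  if (∃ k : ℕ, col^[k] n = 1) ∧ ∀ k : ℕ, col^[k] n = 1 → T < k then 1 else 0

/-- number of letters from height `x` down to `Y` -/
noncomputable def NY (Y x : ℝ) : ℕ := ⌊(x - Y) / Real.log (4 / 3)⌋₊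

/-- a smooth step -/
noncomputable def stp (t : ℝ) : ℝ := Real.smoothTransition t

end Pool.Agent.Lib.MP_e43fce_nt_nat
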