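import Pool.Agent.Lib.MP_e43fce_nt_nat.CLTA
import Pool.Agent.Lib.MP_e43fce_nt_nat.DensAlg

/-! KL3, CLT for the total stopping time in terms of `HasDens`. -/

set_option autoImplicit false

namespace Pool.Agent.Lib.MP_e43fce_nt_nat

open Finset Filter Topology

theorem hasDens_iff_ind (S : Set ℕ) (δ : ℝ) :
    HasDens S δ ↔ Tendsto (fun X : ℕ => (∑ n ∈ Icc 1 X, ind S n) / X) atTop (𝓝 δ) := by
  classical
  unfold HasDens
  have h : ∀ X : ℕ, cnt S X = ∑ n ∈ Icc 1 X, ind S n := by
    intro X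
    rw [cnt_filter S X ((Icc 1 X).filter (fun n => n ∈ S)) (by
      intro n; simp only [Finset.mem_filter, Finset.mem_Icc]; tauto), Finset.card_filter]
    push_cast
    refine Finset.sum_congr rfl (fun n _ => ?_)
    unfold ind
    split_ifs <;> rfl
  simp only [h]

/-- central limit theorem for the total stopping time -/
theorem clt_dens {δ : ℝ} (hδ : HasDens Rone δ) (y : ℝ) :
    HasDens {n : ℕ | ∃ k : ℕ, (k : ℝ) ≤ 3 / Real.log (4 / 3) * Real.log n +
      y * sgm * Real.sqrt (Real.log n) ∧ col^[k] n = 1} (δ * Phi y) := by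
  classical
  have h := clt_all ((hasDens_iff_ind Rone δ).1 hδ) y
  unfold HasDens
  refine h.congr (fun X => ?_)
  congr 1
  rw [cnt_filter]
  intro n
  simp only [Finset.mem_filter, Finset.mem_Icc, Set.mem_setOf_eq]
  tauto

end Pool.Agent.Lib.MP_e43fce_nt_nat
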