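import Pool.Agent.Lib.MP_e43fce_nt_nat.CLTU
import Pool.Agent.Lib.MP_e43fce_nt_nat.T5ODD

/-! KL3, CLT for the total stopping time: the induction over the scales. -/

set_option autoImplicit false

namespace Pool.Agent.Lib.MP_e43fce_nt_nat

open Finset

namespace CLTI

theorem floor_lip (u v : ℝ) : |(⌊u⌋₊ : ℝ) - ⌊v⌋₊| ≤ |u - v| + 1 := by
  have key : ∀ a b : ℝ, (⌊a⌋₊ : ℝ) - ⌊b⌋₊ ≤ |a - b| + 1 := by
    intro a b
    have h1 : b < ⌊b⌋₊ + 1 := Nat.lt_floor_add_one b
    have h2 : (0 : ℝ) ≤ ⌊b⌋₊ := Nat.cast_nonneg _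
    rcases le_or_gt 0 a with ha | ha
    · have h3 : (⌊a⌋₊ : ℝ) ≤ a := Nat.floor_le ha
      have h4 := le_abs_self (a - b)
      linarith
    · have h3 : ⌊a⌋₊ = 0 := Nat.floor_of_nonpos ha.le
      have h4 := abs_nonneg (a - b)
      rw [h3]
      push_cast
      linarith
  rw [abs_le]
  have h1 := key u v
  have h2 := key v u
  rw [abs_sub_comm v u] at h2
  constructor <;> linarith

theorem shift_eq (x T : ℝ) (K A : ℕ) :
    T - K - A - 3 / Real.log (4 / 3) * zz x K A =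
      (T - 3 / Real.log (4 / 3) * x) + kap * ((A : ℝ) - 2 * K) := by
  have hc := T5.log43
  have hc1 := T5.log43_lo
  have h3 : Real.log 3 = 2 * Real.log 2 - Real.log (4 / 3) := by linarith
  unfold zz kap
  rw [h3]
  have hc0 : Real.log (4 / 3) ≠ 0 := by linarith
  field_simp
  ring

/-- constant of one step -/
noncomputable def E1 (Y : ℝ) : ℝ :=
  2 * kap ^ 2 * (1 + Real.log 2 / Real.log (4 / 3) + Real.sqrt (2 * Y))

theorem E1_nonneg (Y : ℝ) : 0 ≤ E1 Y := by
  have hc1 := T5.log43_lo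
  have h2 := Real.log_two_gt_d9
  unfold E1
  have : 0 ≤ Real.log 2 / Real.log (4 / 3) := div_nonneg (by linarith) (by linarith)
  positivity

theorem NY_step {x Y : ℝ} (K A : ℕ) :
    |(NY Y (zz x K A) : ℝ) - ((NY Y x - K : ℕ) : ℝ)| ≤
      1 + Real.log 2 / Real.log (4 / 3) * |(A : ℝ) - 2 * K| := by
  have hc := T5.log43
  have hc1 := T5.log43_lo
  have hc0 : Real.log (4 / 3) ≠ 0 := by linarith
  have hl2 := Real.log_two_gt_d9
  have h1 : NY Y x - K = ⌊(x - Y) / Real.log (4 / 3) - K⌋₊ := by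
    unfold NY
    rw [Nat.floor_sub_natCast]
  rw [h1]
  unfold NY
  refine (floor_lip _ _).trans ?_
  have h3 : Real.log 3 = 2 * Real.log 2 - Real.log (4 / 3) := by linarith
  have h2 : (zz x K A - Y) / Real.log (4 / 3) - ((x - Y) / Real.log (4 / 3) - K) =
      -(Real.log 2 / Real.log (4 / 3) * ((A : ℝ) - 2 * K)) := by
    unfold zz
    rw [h3]
    field_simp
    ring
  rw [h2, abs_neg, abs_mul, abs_of_nonneg (div_nonneg (by linarith) (by linarith) :
    0 ≤ Real.log 2 / Real.log (4 / 3))]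
  linarith

theorem win_sum_le (e : ℝ) (K : ℕ) : ∑ A ∈ win e K, rho K A ≤ 1 := by
  refine le_trans (Finset.sum_le_sum_of_subset_of_nonneg (filter_subset _ _) ?_)
    (rho_sum_le K (3 * K + 1))
  intro A _ _
  exact rho_nonneg K A

theorem win_abs_le (e : ℝ) (K : ℕ) :
    ∑ A ∈ win e K, rho K A * |(A : ℝ) - 2 * K| ≤ Real.sqrt (2 * K) := by
  refine le_trans (Finset.sum_le_sum_of_subset_of_nonneg (filter_subset _ _) ?_)
    (rho_abs K (3 * K + 1))
  intro A _ _
  exact mul_nonneg (rho_nonneg K A) (abs_nonneg _)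

theorem step {φ : ℝ → ℝ} {B : ℝ} (hφ : TestFn φ B) (hB : 0 ≤ B) {x Y : ℝ} (hY : 1 ≤ Y)
    (hYx : Y ≤ x) (T : ℤ) :
    ∑ A ∈ win (1 / 10) ⌊x / 5⌋₊, rho ⌊x / 5⌋₊ A *
      UU kap φ (NY Y (zz x ⌊x / 5⌋₊ A))
        (((T - ⌊x / 5⌋₊ - A : ℤ) : ℝ) - 3 / Real.log (4 / 3) * zz x ⌊x / 5⌋₊ A) ≤
      UU kap φ (NY Y x) (T - 3 / Real.log (4 / 3) * x) + E1 Y * B * Real.sqrt x := by
  have hx0 : 0 ≤ x := by linarith
  have hc1 := T5.log43_lo
  have hc2 := T5.log43_hi
  have hl2 := Real.log_two_gt_d9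
  set K := ⌊x / 5⌋₊ with hK
  have hK2 : (K : ℝ) ≤ x / 5 := Nat.floor_le (by positivity)
  set M : ℝ := T - 3 / Real.log (4 / 3) * x with hM
  set N' := NY Y x - K with hN'
  set r := Real.log 2 / Real.log (4 / 3) with hr
  have hr0 : 0 ≤ r := div_nonneg (by linarith) (by linarith)
  have hsq1 : 1 ≤ Real.sqrt x := by
    rw [Real.one_le_sqrt]; linarith
  have hterm : ∀ A ∈ win (1 / 10) K, rho K A * UU kap φ (NY Y (zz x K A))
      (((T - K - A : ℤ) : ℝ) - 3 / Real.log (4 / 3) * zz x K A) ≤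
      rho K A * UU kap φ N' (M + kap * ((A : ℝ) - 2 * K)) +
        (2 * B * kap ^ 2) * (rho K A + r * (rho K A * |(A : ℝ) - 2 * K|)) := by
    intro A _
    have h0 : (((T - K - A : ℤ) : ℝ) - 3 / Real.log (4 / 3) * zz x K A) =
        M + kap * ((A : ℝ) - 2 * K) := by
      push_cast
      rw [shift_eq]
    rw [h0]
    have h1 := UU_lip hφ kap (NY Y (zz x K A)) N' (M + kap * ((A : ℝ) - 2 * K))
    have h2 := NY_step (x := x) (Y := Y) K A
    rw [← hN'] at h2
    have h3 : 2 * B * kap ^ 2 * |(NY Y (zz x K A) : ℝ) - (N' : ℝ)| ≤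
        2 * B * kap ^ 2 * (1 + r * |(A : ℝ) - 2 * K|) :=
      mul_le_mul_of_nonneg_left h2 (by positivity)
    have h4 := (abs_le.1 h1).2
    have h5 : UU kap φ (NY Y (zz x K A)) (M + kap * ((A : ℝ) - 2 * K)) ≤
        UU kap φ N' (M + kap * ((A : ℝ) - 2 * K)) +
          2 * B * kap ^ 2 * (1 + r * |(A : ℝ) - 2 * K|) := by linarith
    have h6 := mul_le_mul_of_nonneg_left h5 (rho_nonneg K A)
    calc _ ≤ _ := h6
      _ = _ := by ring
  have hsum := Finset.sum_le_sum hterm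
  rw [Finset.sum_add_distrib, ← Finset.mul_sum, Finset.sum_add_distrib, ← Finset.mul_sum] at hsum
  have h1 := UU_semi hφ kap K N' M (win (1 / 10) K)
  have h2 := win_sum_le (1 / 10) K
  have h3 := win_abs_le (1 / 10) K
  have h4 : Real.sqrt (2 * K) ≤ Real.sqrt x := Real.sqrt_le_sqrt (by linarith)
  have h5 := UU_lip hφ kap (K + N') (NY Y x) M
  have h6 : |((K + N' : ℕ) : ℝ) - (NY Y x : ℝ)| ≤ Real.sqrt (2 * Y) * Real.sqrt x := by
    rcases le_or_gt K (NY Y x) with h7 | h7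
    · have h8 : K + N' = NY Y x := by omega
      rw [h8]; simp; positivity
    · have h8 : N' = 0 := by omega
      rw [h8]
      have h9 : ((K : ℝ)) - (NY Y x : ℝ) ≤ K := by
        have : (0 : ℝ) ≤ NY Y x := Nat.cast_nonneg _
        linarith
      have h10 : (0 : ℝ) ≤ (K : ℝ) - (NY Y x : ℝ) := by
        have : (NY Y x : ℝ) ≤ K := by exact_mod_cast h7.le
        linarith
      have h11 : x ≤ 2 * Y := by
        have h12 : (x - Y) / Real.log (4 / 3) < (NY Y x : ℝ) + 1 := Nat.lt_floor_add_one _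
        have h13 : (NY Y x : ℝ) + 1 ≤ K := by exact_mod_cast h7
        have h14 : (x - Y) / Real.log (4 / 3) < x / 5 := by linarith
        rw [div_lt_iff₀ (by linarith)] at h14
        nlinarith
      push_cast
      rw [add_zero, abs_of_nonneg h10]
      calc (K : ℝ) - (NY Y x : ℝ) ≤ K := h9
        _ ≤ x := by linarith
        _ = Real.sqrt x * Real.sqrt x := (Real.mul_self_sqrt hx0).symm
        _ ≤ Real.sqrt (2 * Y) * Real.sqrt x :=
            mul_le_mul_of_nonneg_right (Real.sqrt_le_sqrt h11) (Real.sqrt_nonneg x)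
  have h7 : UU kap φ (K + N') M ≤ UU kap φ (NY Y x) M +
      2 * B * kap ^ 2 * (Real.sqrt (2 * Y) * Real.sqrt x) := by
    have h8 := mul_le_mul_of_nonneg_left h6 (show 0 ≤ 2 * B * kap ^ 2 by positivity)
    have h9 := (abs_le.1 h5).2
    linarith
  have h8 : (2 * B * kap ^ 2) * (∑ A ∈ win (1 / 10) K, rho K A +
      r * ∑ A ∈ win (1 / 10) K, rho K A * |(A : ℝ) - 2 * K|) ≤
      (2 * B * kap ^ 2) * (Real.sqrt x + r * Real.sqrt x) := by
    apply mul_le_mul_of_nonneg_left _ (by positivity)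
    have h9 : r * ∑ A ∈ win (1 / 10) K, rho K A * |(A : ℝ) - 2 * K| ≤ r * Real.sqrt x :=
      mul_le_mul_of_nonneg_left (h3.trans h4) hr0
    linarith
  have h9 : E1 Y * B * Real.sqrt x = (2 * B * kap ^ 2) * (Real.sqrt x + r * Real.sqrt x) +
      2 * B * kap ^ 2 * (Real.sqrt (2 * Y) * Real.sqrt x) := by
    unfold E1
    rw [← hr]
    ring
  rw [h9]
  linarith

end CLTI

open CLTI in
theorem clt_induction {C x0 : ℝ} (hC : 0 ≤ C) (hx0 : 100 ≤ x0) : ∃ D : ℝ, 0 ≤ D ∧
    ∀ Y : ℝ, x0 ≤ Y → ∃ E : ℝ, 0 ≤ E ∧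
    ∀ (G : ℕ → ℤ → ℝ → ℝ) (β B : ℝ) (φ : ℝ → ℝ), 0 ≤ β → β ≤ 2 → 0 ≤ B → TestFn φ B →
    (∀ x : ℝ, x0 ≤ x → ∀ (T : ℤ) (i : ℕ), (i : ℝ) ^ 2 ≤ x / 10 →
      G i T x ≤ ∑ A ∈ win (1 / 10) ⌊x / 5⌋₊, rho ⌊x / 5⌋₊ A *
        G (i1 ⌊x / 5⌋₊) (T - ⌊x / 5⌋₊ - A) (zz x ⌊x / 5⌋₊ A) + C * x ^ (-(1 / 4) : ℝ)) →
    (∀ x : ℝ, 9 / 10 * Y ≤ x → x ≤ Y → ∀ (T : ℤ) (i : ℕ), (i : ℝ) ^ 2 ≤ x / 10 →
      G i T x ≤ β * φ (T - 3 / Real.log (4 / 3) * x)) →
    ∀ x : ℝ, Y ≤ x → ∀ (T : ℤ) (i : ℕ), (i : ℝ) ^ 2 ≤ x / 10 →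
      G i T x ≤ β * UU kap φ (NY Y x) (T - 3 / Real.log (4 / 3) * x) + D * Y ^ (-(1 / 4) : ℝ) +
        E * B * Real.sqrt x := by
  have hc1 := T5.log43_lo
  have hc2 := T5.log43_hi
  set κ := (97 / 100 : ℝ) ^ (-(1 / 4) : ℝ) - 1 with hκ
  have hκpos : 0 < κ := by
    have := Real.one_lt_rpow_of_pos_of_lt_one_of_neg (x := (97 / 100 : ℝ)) (z := -(1 / 4))
      (by norm_num) (by norm_num) (by norm_num)
    rw [hκ]; linarith
  set D := C / κ with hD
  have hDpos : 0 ≤ D := by rw [hD]; positivity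
  have hDκ : D * κ = C := by rw [hD]; field_simp
  refine ⟨D * (9 / 10) ^ (-(1 / 4) : ℝ), by positivity, ?_⟩
  intro Y hY
  have hY100 : 100 ≤ Y := by linarith
  set E := 2 * E1 Y / (15 / 1000) with hE
  have hE1 := E1_nonneg Y
  have hE0 : 0 ≤ E := by rw [hE]; positivity
  refine ⟨E, hE0, ?_⟩
  intro G β B φ hβ0 hβ2 hB hφ hrec hbase
  set Λ := D * (9 / 10 * Y) ^ (-(1 / 4) : ℝ) with hΛ
  have hs97 : ∀ x : ℝ, 0 ≤ x → Real.sqrt (97 / 100 * x) ≤ (985 / 1000) * Real.sqrt x := by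
    intro x hx
    rw [Real.sqrt_mul (by norm_num)]
    apply mul_le_mul_of_nonneg_right _ (Real.sqrt_nonneg x)
    rw [Real.sqrt_le_left (by norm_num)]
    norm_num
  have key : ∀ n : ℕ, ∀ x : ℝ, 9 / 10 * Y ≤ x → x ≤ n → ∀ (T : ℤ) (i : ℕ), (i : ℝ) ^ 2 ≤ x / 10 →
      G i T x ≤ β * UU kap φ (NY Y x) (T - 3 / Real.log (4 / 3) * x) +
        (Λ - D * x ^ (-(1 / 4) : ℝ)) + E * B * Real.sqrt x := by
    intro n
    induction n with
    | zero =>
      intro x hx hxn
      exfalso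
      push_cast at hxn
      linarith
    | succ n ih =>
      intro x hx hxn T i hi
      rcases le_or_gt x Y with hxY | hxY
      · have h1 := hbase x hx hxY T i hi
        have h2 : NY Y x = 0 := by
          unfold NY
          apply Nat.floor_of_nonpos
          apply div_nonpos_of_nonpos_of_nonneg <;> linarith
        rw [h2, UU_zero]
        have h3 : D * x ^ (-(1 / 4) : ℝ) ≤ Λ := by
          rw [hΛ]
          apply mul_le_mul_of_nonneg_left _ hDpos
          exact Real.rpow_le_rpow_of_nonpos (by linarith) hx (by norm_num)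
        have h4 : 0 ≤ E * B * Real.sqrt x := by positivity
        linarith
      · have hx100 : 100 ≤ x := by linarith
        have hxpos : 0 < x := by linarith
        have hrec' := hrec x (by linarith) T i hi
        have hstep := step hφ hB (by linarith : (1 : ℝ) ≤ Y) hxY.le T
        set K := ⌊x / 5⌋₊ with hK
        have hK2 : (K : ℝ) ≤ x / 5 := Nat.floor_le (by positivity)
        have hK1 : x / 5 - 1 ≤ (K : ℝ) := by
          have := Nat.lt_floor_add_one (x / 5)
          rw [← hK] at this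
          linarith
        set y := x ^ (-(1 / 4) : ℝ) with hy
        have hypos : 0 < y := Real.rpow_pos_of_pos hxpos _
        set y' := (97 / 100 * x) ^ (-(1 / 4) : ℝ) with hy'
        have hyy : y' = (κ + 1) * y := by
          rw [hy', Real.mul_rpow (by norm_num) hxpos.le, hκ, hy]; ring
        have hΛy : D * y' ≤ Λ := by
          rw [hΛ]
          apply mul_le_mul_of_nonneg_left _ hDpos
          rw [hy']
          exact Real.rpow_le_rpow_of_nonpos (by positivity) (by linarith) (by norm_num)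
        set R := (Λ - D * y') + E * B * ((985 / 1000) * Real.sqrt x) with hR
        have hR0 : 0 ≤ R := by
          have : 0 ≤ E * B * ((985 / 1000) * Real.sqrt x) := by positivity
          rw [hR]; linarith
        have hterm : ∀ A ∈ win (1 / 10) K, rho K A * G (i1 K) (T - K - A) (zz x K A) ≤
            β * (rho K A * UU kap φ (NY Y (zz x K A))
              (((T - K - A : ℤ) : ℝ) - 3 / Real.log (4 / 3) * zz x K A)) + rho K A * R := by
          intro A hA
          have hA' : |(A : ℝ) - 2 * K| ≤ 1 / 10 * K := (mem_filter.1 hA).2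
          obtain ⟨hz1, hz2⟩ := T5.heights (by norm_num : (0 : ℝ) < 1 / 10) le_rfl hx100 hK1 hK2 hA'
          obtain ⟨hs1, hs2⟩ := T5.small hx100 hK2 hz1
          have hxn' : x ≤ n + 1 := by exact_mod_cast hxn
          have h1 := ih (zz x K A) (by linarith) (by linarith) (T - K - A) (i1 K) hs1
          set z := zz x K A with hz
          have h2 : y' ≤ z ^ (-(1 / 4) : ℝ) := by
            rw [hy']
            exact Real.rpow_le_rpow_of_nonpos (by linarith) hz2 (by norm_num)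
          have h3 : D * y' ≤ D * z ^ (-(1 / 4) : ℝ) := mul_le_mul_of_nonneg_left h2 hDpos
          have h4 : Real.sqrt z ≤ (985 / 1000) * Real.sqrt x :=
            (Real.sqrt_le_sqrt hz2).trans (hs97 x hxpos.le)
          have h5 : E * B * Real.sqrt z ≤ E * B * ((985 / 1000) * Real.sqrt x) :=
            mul_le_mul_of_nonneg_left h4 (by positivity)
          have h6 : G (i1 K) (T - K - A) z ≤ β * UU kap φ (NY Y z)
              (((T - K - A : ℤ) : ℝ) - 3 / Real.log (4 / 3) * z) + R := by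
            rw [hR]; linarith
          have h7 := mul_le_mul_of_nonneg_left h6 (rho_nonneg K A)
          calc _ ≤ _ := h7
            _ = _ := by ring
        have hsum := Finset.sum_le_sum hterm
        rw [Finset.sum_add_distrib, ← Finset.mul_sum, ← Finset.sum_mul] at hsum
        have h1 : (∑ A ∈ win (1 / 10) K, rho K A) * R ≤ R := by
          have := mul_le_mul_of_nonneg_right (win_sum_le (1 / 10) K) hR0
          linarith
        have h2 := mul_le_mul_of_nonneg_left hstep hβ0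
        have h3 : β * (E1 Y * B * Real.sqrt x) ≤ 2 * (E1 Y * B * Real.sqrt x) :=
          mul_le_mul_of_nonneg_right hβ2 (by positivity)
        have h4 : E * B * Real.sqrt x = E * B * ((985 / 1000) * Real.sqrt x) +
            2 * (E1 Y * B * Real.sqrt x) := by
          rw [hE]; ring
        have h5 : D * y' = D * y + C * y := by
          rw [hyy, ← hDκ]; ring
        have h6 : β * (UU kap φ (NY Y x) (T - 3 / Real.log (4 / 3) * x) + E1 Y * B * Real.sqrt x) =
            β * UU kap φ (NY Y x) (T - 3 / Real.log (4 / 3) * x) +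
              β * (E1 Y * B * Real.sqrt x) := by ring
        rw [h6] at h2
        linarith [hR]
  intro x hx T i hi
  obtain ⟨n, hn⟩ := exists_nat_ge x
  have h1 := key n x (by linarith) hn T i hi
  have hx0' : 0 < x := by linarith
  have h2 : 0 ≤ D * x ^ (-(1 / 4) : ℝ) := by positivity
  have h3 : Λ = D * (9 / 10) ^ (-(1 / 4) : ℝ) * Y ^ (-(1 / 4) : ℝ) := by
    rw [hΛ, Real.mul_rpow (by norm_num) (by linarith)]
    ring
  rw [← h3]
  linarith

end Pool.Agent.Lib.MP_e43fce_nt_nat
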