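import Pool.Agent.Lib.MP_e43fce_nt_nat.CLTI

/-! KL3, CLT: the induction over the scales, explicit in the lower height `Y`. -/

set_option autoImplicit false

namespace Pool.Agent.Lib.MP_e43fce_nt_nat

open Finset

open CLTI in
/-- the induction with explicit dependence on `Y` -/
theorem clt_induction2 {C : ℝ} (hC : 0 ≤ C) : ∃ D E0 : ℝ, 0 ≤ D ∧ 0 ≤ E0 ∧
    ∀ Y : ℝ, 100 ≤ Y →
    ∀ (G : ℕ → ℤ → ℝ → ℝ) (β B : ℝ) (φ : ℝ → ℝ), 0 ≤ β → β ≤ 2 → 0 ≤ B → TestFn φ B →
    (∀ x : ℝ, Y ≤ x → ∀ (T : ℤ) (i : ℕ), (i : ℝ) ^ 2 ≤ x / 10 →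
      G i T x ≤ ∑ A ∈ win (1 / 10) ⌊x / 5⌋₊, rho ⌊x / 5⌋₊ A *
        G (i1 ⌊x / 5⌋₊) (T - ⌊x / 5⌋₊ - A) (zz x ⌊x / 5⌋₊ A) + C * x ^ (-(1 / 4) : ℝ)) →
    (∀ x : ℝ, 9 / 10 * Y ≤ x → x ≤ Y → ∀ (T : ℤ) (i : ℕ), (i : ℝ) ^ 2 ≤ x / 10 →
      G i T x ≤ β * φ (T - 3 / Real.log (4 / 3) * x)) →
    ∀ x : ℝ, Y ≤ x → ∀ (T : ℤ) (i : ℕ), (i : ℝ) ^ 2 ≤ x / 10 →
      G i T x ≤ β * UU kap φ (NY Y x) (T - 3 / Real.log (4 / 3) * x) + D * Y ^ (-(1 / 4) : ℝ) +
        E0 * Real.sqrt Y * B * Real.sqrt x := by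
  have hc1 := T5.log43_lo
  have hc2 := T5.log43_hi
  set κ := (97 / 100 : ℝ) ^ (-(1 / 4) : ℝ) - 1 with hκ
  have hκpos : 0 < κ := by
    have := Real.one_lt_rpow_of_pos_of_lt_one_of_neg (x := (97 / 100 : ℝ)) (z := -(1 / 4))
      (by norm_num) (by norm_num) (by norm_num)
    rw [hκ]; linarith
  set D := C / κ with hD
  have hDpos : 0 ≤ D := by rw [hD]; positivity
  have hDκ : D * κ = C := by rw [hD]; field_simp
  have hr0 : 0 ≤ Real.log 2 / Real.log (4 / 3) :=
    div_nonneg (Real.log_nonneg (by norm_num)) (by linarith)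
  refine ⟨D * (9 / 10) ^ (-(1 / 4) : ℝ),
    2 * (2 * kap ^ 2 * (1 + Real.log 2 / Real.log (4 / 3) + Real.sqrt 2)) / (15 / 1000),
    by positivity, by positivity, ?_⟩
  intro Y hY100
  set E := 2 * E1 Y / (15 / 1000) with hE
  have hE1 := E1_nonneg Y
  have hE0 : 0 ≤ E := by rw [hE]; positivity
  have hEY : E ≤ 2 * (2 * kap ^ 2 * (1 + Real.log 2 / Real.log (4 / 3) + Real.sqrt 2)) /
      (15 / 1000) * Real.sqrt Y := by
    have hsY : 1 ≤ Real.sqrt Y := by
      rw [Real.one_le_sqrt]; linarith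
    have h2Y : Real.sqrt (2 * Y) = Real.sqrt 2 * Real.sqrt Y := Real.sqrt_mul (by norm_num) Y
    have h1 : 1 + Real.log 2 / Real.log (4 / 3) + Real.sqrt (2 * Y) ≤
        (1 + Real.log 2 / Real.log (4 / 3) + Real.sqrt 2) * Real.sqrt Y := by
      rw [h2Y]
      nlinarith
    have h2 : E1 Y ≤ 2 * kap ^ 2 * ((1 + Real.log 2 / Real.log (4 / 3) + Real.sqrt 2) *
        Real.sqrt Y) := by
      unfold E1
      exact mul_le_mul_of_nonneg_left h1 (by positivity)
    rw [hE]
    have h3 : 2 * E1 Y / (15 / 1000) ≤ 2 * (2 * kap ^ 2 *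
        ((1 + Real.log 2 / Real.log (4 / 3) + Real.sqrt 2) * Real.sqrt Y)) / (15 / 1000) := by
      apply div_le_div_of_nonneg_right _ (by norm_num)
      linarith
    refine h3.trans (le_of_eq (by ring))
  intro G β B φ hβ0 hβ2 hB hφ hrec hbase
  set Λ := D * (9 / 10 * Y) ^ (-(1 / 4) : ℝ) with hΛ
  have hs97 : ∀ x : ℝ, 0 ≤ x → Real.sqrt (97 / 100 * x) ≤ (985 / 1000) * Real.sqrt x := by
    intro x hx
    rw [Real.sqrt_mul (by norm_num)]
    apply mul_le_mul_of_nonneg_right _ (Real.sqrt_nonneg x)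
    rw [Real.sqrt_le_left (by norm_num)]
    norm_num
  have key : ∀ n : ℕ, ∀ x : ℝ, 9 / 10 * Y ≤ x → x ≤ n → ∀ (T : ℤ) (i : ℕ), (i : ℝ) ^ 2 ≤ x / 10 →
      G i T x ≤ β * UU kap φ (NY Y x) (T - 3 / Real.log (4 / 3) * x) +
        (Λ - D * x ^ (-(1 / 4) : ℝ)) + E * B * Real.sqrt x := by
    intro n
    induction n with
    | zero =>
      intro x hx hxn
      exfalso
      push_cast at hxn
      linarith
    | succ n ih =>
      intro x hx hxn T i hi
      rcases le_or_gt x Y with hxY | hxY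
      · have h1 := hbase x hx hxY T i hi
        have h2 : NY Y x = 0 := by
          unfold NY
          apply Nat.floor_of_nonpos
          apply div_nonpos_of_nonpos_of_nonneg <;> linarith
        rw [h2, UU_zero]
        have h3 : D * x ^ (-(1 / 4) : ℝ) ≤ Λ := by
          rw [hΛ]
          apply mul_le_mul_of_nonneg_left _ hDpos
          exact Real.rpow_le_rpow_of_nonpos (by linarith) hx (by norm_num)
        have h4 : 0 ≤ E * B * Real.sqrt x := by positivity
        linarith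
      · have hx100 : 100 ≤ x := by linarith
        have hxpos : 0 < x := by linarith
        have hrec' := hrec x hxY.le T i hi
        have hstep := step hφ hB (by linarith : (1 : ℝ) ≤ Y) hxY.le T
        set K := ⌊x / 5⌋₊ with hK
        have hK2 : (K : ℝ) ≤ x / 5 := Nat.floor_le (by positivity)
        have hK1 : x / 5 - 1 ≤ (K : ℝ) := by
          have := Nat.lt_floor_add_one (x / 5)
          rw [← hK] at this
          linarith
        set y := x ^ (-(1 / 4) : ℝ) with hy
        have hypos : 0 < y := Real.rpow_pos_of_pos hxpos _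
        set y' := (97 / 100 * x) ^ (-(1 / 4) : ℝ) with hy'
        have hyy : y' = (κ + 1) * y := by
          rw [hy', Real.mul_rpow (by norm_num) hxpos.le, hκ, hy]; ring
        have hΛy : D * y' ≤ Λ := by
          rw [hΛ]
          apply mul_le_mul_of_nonneg_left _ hDpos
          rw [hy']
          exact Real.rpow_le_rpow_of_nonpos (by positivity) (by linarith) (by norm_num)
        set R := (Λ - D * y') + E * B * ((985 / 1000) * Real.sqrt x) with hR
        have hR0 : 0 ≤ R := by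
          have : 0 ≤ E * B * ((985 / 1000) * Real.sqrt x) := by positivity
          rw [hR]; linarith
        have hterm : ∀ A ∈ win (1 / 10) K, rho K A * G (i1 K) (T - K - A) (zz x K A) ≤
            β * (rho K A * UU kap φ (NY Y (zz x K A))
              (((T - K - A : ℤ) : ℝ) - 3 / Real.log (4 / 3) * zz x K A)) + rho K A * R := by
          intro A hA
          have hA' : |(A : ℝ) - 2 * K| ≤ 1 / 10 * K := (mem_filter.1 hA).2
          obtain ⟨hz1, hz2⟩ := T5.heights (by norm_num : (0 : ℝ) < 1 / 10) le_rfl hx100 hK1 hK2 hA'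
          obtain ⟨hs1, hs2⟩ := T5.small hx100 hK2 hz1
          have hxn' : x ≤ n + 1 := by exact_mod_cast hxn
          have h1 := ih (zz x K A) (by linarith) (by linarith) (T - K - A) (i1 K) hs1
          set z := zz x K A with hz
          have h2 : y' ≤ z ^ (-(1 / 4) : ℝ) := by
            rw [hy']
            exact Real.rpow_le_rpow_of_nonpos (by linarith) hz2 (by norm_num)
          have h3 : D * y' ≤ D * z ^ (-(1 / 4) : ℝ) := mul_le_mul_of_nonneg_left h2 hDpos
          have h4 : Real.sqrt z ≤ (985 / 1000) * Real.sqrt x :=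
            (Real.sqrt_le_sqrt hz2).trans (hs97 x hxpos.le)
          have h5 : E * B * Real.sqrt z ≤ E * B * ((985 / 1000) * Real.sqrt x) :=
            mul_le_mul_of_nonneg_left h4 (by positivity)
          have h6 : G (i1 K) (T - K - A) z ≤ β * UU kap φ (NY Y z)
              (((T - K - A : ℤ) : ℝ) - 3 / Real.log (4 / 3) * z) + R := by
            rw [hR]; linarith
          have h7 := mul_le_mul_of_nonneg_left h6 (rho_nonneg K A)
          calc _ ≤ _ := h7
            _ = _ := by ring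
        have hsum := Finset.sum_le_sum hterm
        rw [Finset.sum_add_distrib, ← Finset.mul_sum, ← Finset.sum_mul] at hsum
        have h1 : (∑ A ∈ win (1 / 10) K, rho K A) * R ≤ R := by
          have := mul_le_mul_of_nonneg_right (win_sum_le (1 / 10) K) hR0
          linarith
        have h2 := mul_le_mul_of_nonneg_left hstep hβ0
        have h3 : β * (E1 Y * B * Real.sqrt x) ≤ 2 * (E1 Y * B * Real.sqrt x) :=
          mul_le_mul_of_nonneg_right hβ2 (by positivity)
        have h4 : E * B * Real.sqrt x = E * B * ((985 / 1000) * Real.sqrt x) +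
            2 * (E1 Y * B * Real.sqrt x) := by
          rw [hE]; ring
        have h5 : D * y' = D * y + C * y := by
          rw [hyy, ← hDκ]; ring
        have h6 : β * (UU kap φ (NY Y x) (T - 3 / Real.log (4 / 3) * x) + E1 Y * B * Real.sqrt x) =
            β * UU kap φ (NY Y x) (T - 3 / Real.log (4 / 3) * x) +
              β * (E1 Y * B * Real.sqrt x) := by ring
        rw [h6] at h2
        linarith [hR]
  intro x hx T i hi
  obtain ⟨n, hn⟩ := exists_nat_ge x
  have h1 := key n x (by linarith) hn T i hi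
  have hx0' : 0 < x := by linarith
  have h2 : 0 ≤ D * x ^ (-(1 / 4) : ℝ) := by positivity
  have h3 : Λ = D * (9 / 10) ^ (-(1 / 4) : ℝ) * Y ^ (-(1 / 4) : ℝ) := by
    rw [hΛ, Real.mul_rpow (by norm_num) (by linarith)]
    ring
  rw [← h3]
  have h4 : E * B * Real.sqrt x ≤ 2 * (2 * kap ^ 2 * (1 + Real.log 2 / Real.log (4 / 3) +
      Real.sqrt 2)) / (15 / 1000) * Real.sqrt Y * B * Real.sqrt x := by
    apply mul_le_mul_of_nonneg_right _ (Real.sqrt_nonneg x)
    exact mul_le_mul_of_nonneg_right hEY hB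
  linarith

end Pool.Agent.Lib.MP_e43fce_nt_nat
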