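import Pool.Agent.Lib.MP_e43fce_nt_nat.CLTDefs
import Pool.Agent.Lib.MP_e43fce_nt_nat.CLTRho

/-! KL3, CLT for the total stopping time: the semigroup `UU`. -/

set_option autoImplicit false

namespace Pool.Agent.Lib.MP_e43fce_nt_nat

open Finset Filter Topology MeasureTheory ProbabilityTheory

theorem TestFn.abs_le_one {φ : ℝ → ℝ} {B : ℝ} (hφ : TestFn φ B) (t : ℝ) : |φ t| ≤ 1 :=
  abs_le.mpr ⟨by linarith [hφ.nonneg t], hφ.le_one t⟩

theorem rho_summable_bdd {K : ℕ} {f : ℕ → ℝ} {C : ℝ} (hf : ∀ A, |f A| ≤ C) :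
    Summable (fun A => rho K A * f A) := by
  apply Summable.of_norm_bounded ((rho_hasSum K).summable.mul_right C)
  intro A
  rw [norm_mul, Real.norm_of_nonneg (rho_nonneg K A)]
  exact mul_le_mul_of_nonneg_left (hf A) (rho_nonneg K A)

theorem UU_nonneg {φ : ℝ → ℝ} {B : ℝ} (hφ : TestFn φ B) (k : ℝ) (N : ℕ) (m : ℝ) : 0 ≤ UU k φ N m :=
  tsum_nonneg fun A => mul_nonneg (rho_nonneg N A) (hφ.nonneg _)

theorem UU_le_one {φ : ℝ → ℝ} {B : ℝ} (hφ : TestFn φ B) (k : ℝ) (N : ℕ) (m : ℝ) : UU k φ N m ≤ 1 :=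
  (le_abs_self _).trans (rho_tsum_le fun A => hφ.abs_le_one _)

theorem UU_zero (k : ℝ) (φ : ℝ → ℝ) (m : ℝ) : UU k φ 0 m = φ m := by
  rw [UU, tsum_eq_single 0]
  · simp [rho_zero_zero]
  · intro A hA
    obtain ⟨a, rfl⟩ := Nat.exists_eq_succ_of_ne_zero hA
    rw [Nat.succ_eq_add_one, rho_zero_succ, zero_mul]

/-- semigroup property, equality -/
theorem UU_semi_eq {φ : ℝ → ℝ} {B : ℝ} (hφ : TestFn φ B) (k : ℝ) (K N : ℕ) (m : ℝ) :
    UU k φ (K + N) m = ∑' A : ℕ, rho K A * UU k φ N (m + k * ((A : ℝ) - 2 * K)) := by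
  have hs : Summable (fun p : ℕ × ℕ => rho K p.1 * (rho N p.2 *
      φ (m + k * ((p.1 : ℝ) - 2 * K) + k * ((p.2 : ℝ) - 2 * N)))) := by
    have h1 : Summable (fun p : ℕ × ℕ => rho K p.1 * rho N p.2) :=
      (rho_hasSum K).summable.mul_of_nonneg (rho_hasSum N).summable (rho_nonneg K) (rho_nonneg N)
    apply Summable.of_nonneg_of_le _ _ h1
    · intro p
      exact mul_nonneg (rho_nonneg _ _) (mul_nonneg (rho_nonneg _ _) (hφ.nonneg _))
    · intro p
      apply mul_le_mul_of_nonneg_left _ (rho_nonneg _ _)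
      exact mul_le_of_le_one_right (rho_nonneg _ _) (hφ.le_one _)
  have h2 : ∑' A : ℕ, rho K A * UU k φ N (m + k * ((A : ℝ) - 2 * K)) =
      ∑' p : ℕ × ℕ, rho K p.1 * (rho N p.2 *
        φ (m + k * ((p.1 : ℝ) - 2 * K) + k * ((p.2 : ℝ) - 2 * N))) := by
    rw [hs.tsum_prod]
    apply tsum_congr
    intro A
    rw [UU, ← tsum_mul_left]
  rw [h2, ← (Finset.HasAntidiagonal.sigmaAntidiagonalEquivProd (A := ℕ)).tsum_eq]
  have hs2 := (Finset.HasAntidiagonal.sigmaAntidiagonalEquivProd (A := ℕ)).summable_iff.mpr hs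
  refine Eq.trans ?_ (hs2.tsum_sigma' (fun n => (hasSum_fintype _).summable)).symm
  rw [UU]
  apply tsum_congr
  intro A
  rw [tsum_fintype, rho_conv K N A, ← Finset.Nat.sum_antidiagonal_eq_sum_range_succ
    (fun i j => rho K i * rho N j), Finset.sum_mul]
  rw [← Finset.sum_coe_sort (Finset.HasAntidiagonal.antidiagonal A)]
  apply Finset.sum_congr rfl
  rintro ⟨⟨a, b⟩, hab⟩ -
  have hab' : a + b = A := Finset.HasAntidiagonal.mem_antidiagonal.mp hab
  simp only [Finset.HasAntidiagonal.sigmaAntidiagonalEquivProd, Function.comp, Equiv.coe_fn_mk]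
  rw [mul_assoc]
  congr 3
  rw [← hab']
  push_cast
  ring

/-- semigroup property, one-sided and truncated -/
theorem UU_semi {φ : ℝ → ℝ} {B : ℝ} (hφ : TestFn φ B) (k : ℝ) (K N : ℕ) (m : ℝ) (S : Finset ℕ) :
    ∑ A ∈ S, rho K A * UU k φ N (m + k * ((A : ℝ) - 2 * K)) ≤ UU k φ (K + N) m := by
  rw [UU_semi_eq hφ]
  apply Summable.sum_le_tsum
  · intro A _
    exact mul_nonneg (rho_nonneg _ _) (UU_nonneg hφ _ _ _)
  · apply rho_summable_bdd (C := 1)
    intro A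
    rw [abs_of_nonneg (UU_nonneg hφ _ _ _)]
    exact UU_le_one hφ _ _ _

theorem rho_hasSum_mul (K : ℕ) : HasSum (fun A : ℕ => rho K A * ((A : ℝ) - 2 * K)) 0 := by
  have h1 : HasSum (fun A : ℕ => rho (K + 1) (A + 1)) 1 := by
    have := (hasSum_nat_add_iff' 1).mpr (rho_hasSum (K + 1))
    rw [Finset.sum_range_one, rho_succ_zero, sub_zero] at this
    exact this
  have h2 := (h1.mul_left (2 * (K : ℝ))).sub ((rho_hasSum K).mul_right (2 * (K : ℝ)))
  rw [mul_one, one_mul, sub_self] at h2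
  refine h2.congr_fun ?_
  intro A
  have := rho_mul_self K A
  rw [mul_sub, this]

theorem rho_var_summable (K : ℕ) : Summable (fun A : ℕ => rho K A * ((A : ℝ) - 2 * K) ^ 2) :=
  summable_of_sum_range_le (fun A => mul_nonneg (rho_nonneg _ _) (sq_nonneg _))
    (fun N => rho_var K N)

theorem rho_var_tsum (K : ℕ) : ∑' A : ℕ, rho K A * ((A : ℝ) - 2 * K) ^ 2 ≤ 2 * (K : ℝ) :=
  Real.tsum_le_of_sum_range_le (fun A => mul_nonneg (rho_nonneg _ _) (sq_nonneg _))
    (fun N => rho_var K N)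

theorem UU_sub {φ : ℝ → ℝ} {B : ℝ} (hφ : TestFn φ B) (k : ℝ) (K : ℕ) (t : ℝ) :
    |UU k φ K t - φ t| ≤ 2 * B * k ^ 2 * K := by
  obtain ⟨φ', hT⟩ := hφ.taylor
  have hB : 0 ≤ B := by
    have := (abs_nonneg _).trans (hT 0 1)
    linarith
  have h1 : HasSum (fun A : ℕ => rho K A * φ (t + k * ((A : ℝ) - 2 * K))) (UU k φ K t) :=
    (rho_summable_bdd (C := 1) fun A => hφ.abs_le_one _).hasSum
  have h2 : HasSum (fun A : ℕ => rho K A * φ t) (φ t) := by
    have := (rho_hasSum K).mul_right (φ t)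
    rwa [one_mul] at this
  have h3 : HasSum (fun A : ℕ => (k * φ' t) * (rho K A * ((A : ℝ) - 2 * K))) 0 := by
    have := (rho_hasSum_mul K).mul_left (k * φ' t)
    rwa [mul_zero] at this
  have h4 := (h1.sub h2).sub h3
  rw [sub_zero] at h4
  have h5 : HasSum (fun A : ℕ => (B * k ^ 2) * (rho K A * ((A : ℝ) - 2 * K) ^ 2))
      ((B * k ^ 2) * ∑' A : ℕ, rho K A * ((A : ℝ) - 2 * K) ^ 2) :=
    (rho_var_summable K).hasSum.mul_left _
  have h6 : |UU k φ K t - φ t| ≤ (B * k ^ 2) * ∑' A : ℕ, rho K A * ((A : ℝ) - 2 * K) ^ 2 := by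
    rw [← h4.tsum_eq, ← Real.norm_eq_abs]
    apply tsum_of_norm_bounded h5
    intro A
    have e : rho K A * φ (t + k * ((A : ℝ) - 2 * K)) - rho K A * φ t -
        (k * φ' t) * (rho K A * ((A : ℝ) - 2 * K)) = rho K A *
        (φ (t + k * ((A : ℝ) - 2 * K)) - φ t - (k * ((A : ℝ) - 2 * K)) * φ' t) := by ring
    rw [e, norm_mul, Real.norm_of_nonneg (rho_nonneg K A), Real.norm_eq_abs]
    have := mul_le_mul_of_nonneg_left (hT t (k * ((A : ℝ) - 2 * K))) (rho_nonneg K A)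
    refine this.trans (le_of_eq ?_)
    ring
  have h7 := mul_le_mul_of_nonneg_left (rho_var_tsum K) (show 0 ≤ B * k ^ 2 by positivity)
  linarith

theorem UU_lip {φ : ℝ → ℝ} {B : ℝ} (hφ : TestFn φ B) (k : ℝ) (N N' : ℕ) (m : ℝ) :
    |UU k φ N m - UU k φ N' m| ≤ 2 * B * k ^ 2 * |(N : ℝ) - N'| := by
  have key : ∀ N K : ℕ, |UU k φ (N + K) m - UU k φ N m| ≤ 2 * B * k ^ 2 * K := by
    intro N K
    have h1 : HasSum (fun A : ℕ => rho N A * UU k φ K (m + k * ((A : ℝ) - 2 * N)))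
        (UU k φ (N + K) m) := by
      rw [UU_semi_eq hφ]
      apply (rho_summable_bdd (C := 1) _).hasSum
      intro A
      rw [abs_of_nonneg (UU_nonneg hφ _ _ _)]
      exact UU_le_one hφ _ _ _
    have h2 : HasSum (fun A : ℕ => rho N A * φ (m + k * ((A : ℝ) - 2 * N))) (UU k φ N m) :=
      (rho_summable_bdd (C := 1) fun A => hφ.abs_le_one _).hasSum
    have h3 := h1.sub h2
    rw [← h3.tsum_eq]
    have h4 : ∀ A : ℕ, rho N A * UU k φ K (m + k * ((A : ℝ) - 2 * N)) -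
        rho N A * φ (m + k * ((A : ℝ) - 2 * N)) = rho N A *
        (UU k φ K (m + k * ((A : ℝ) - 2 * N)) - φ (m + k * ((A : ℝ) - 2 * N))) := by
      intro A; ring
    rw [tsum_congr h4]
    exact rho_tsum_le fun A => UU_sub hφ k K _
  rcases le_total N N' with h | h
  · obtain ⟨K, rfl⟩ := Nat.exists_eq_add_of_le h
    have := key N K
    rw [abs_sub_comm, abs_sub_comm (N : ℝ)]
    push_cast
    rw [add_sub_cancel_left, Nat.abs_cast]
    exact this
  · obtain ⟨K, rfl⟩ := Nat.exists_eq_add_of_le h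
    have := key N' K
    push_cast
    rw [add_sub_cancel_left, Nat.abs_cast]
    exact this

end Pool.Agent.Lib.MP_e43fce_nt_nat
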