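import Pool.Agent.Lib.MP_e43fce_nt_nat.Soft

set_option autoImplicit false

namespace Pool.Agent.Lib.MP_e43fce_nt_nat

open Finset

theorem Ren.almost_mono {D : ℝ → ℝ} {C x0 : ℝ} (h : Ren D C x0) (x a b : ℝ) (hab : a ≤ b) :
    D (x + a) ≤ D (x + b) + (b - a) := by
  have h1 := h.mono (x + a) (b - a) (by linarith)
  have e1 : x + a + (b - a) = x + b := by ring
  rw [e1] at h1
  have h2 : Real.exp (x + b) = Real.exp (x + a) * Real.exp (b - a) := by
    rw [← Real.exp_add]; congr 1; ring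
  rw [h2] at h1
  have h3 := Real.exp_pos (x + a)
  have h4 : D (x + a) ≤ Real.exp (b - a) * D (x + b) := by
    have : Real.exp (x + a) * D (x + a) ≤ Real.exp (x + a) * (Real.exp (b - a) * D (x + b)) := by
      linarith
    exact le_of_mul_le_mul_left this h3
  have h5 : Real.exp (a - b) * D (x + a) ≤ D (x + b) := by
    have h6 := mul_le_mul_of_nonneg_left h4 (Real.exp_pos (a - b)).le
    rw [← mul_assoc, ← Real.exp_add] at h6
    have e2 : a - b + (b - a) = 0 := by ring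
    rwa [e2, Real.exp_zero, one_mul] at h6
  have h7 := Real.add_one_le_exp (a - b)
  have h8 := h.nonneg (x + a)
  have h9 := h.le_one (x + a)
  nlinarith

/-- uniform shift by elements of the group generated by `log 2`, `log 3` -/
theorem shift_unif_group {C x0 : ℝ} (hC : 0 ≤ C) (hx0 : 100 ≤ x0) {τ : ℝ}
    (hτ : τ ∈ AddSubgroup.closure ({Real.log 2, Real.log 3} : Set ℝ)) :
    ∀ eps : ℝ, 0 < eps → ∃ x1 : ℝ, ∀ D : ℝ → ℝ, Ren D C x0 → ∀ x : ℝ, x1 ≤ x →
      |D (x + τ) - D x| ≤ eps := by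
  have base : ∀ (c : ℝ) (s : ℝ), (∀ D : ℝ → ℝ, Ren D C x0 → ∀ x : ℝ, x0 ≤ x →
      |D (x + s) - D x| ≤ c * x ^ (-(1 / 4) : ℝ)) →
      ∀ eps : ℝ, 0 < eps → ∃ x1 : ℝ, ∀ D : ℝ → ℝ, Ren D C x0 → ∀ x : ℝ, x1 ≤ x →
      |D (x + s) - D x| ≤ eps := by
    intro c s hs eps heps
    have h1 := quarter_tendsto.const_mul c
    rw [mul_zero] at h1
    have h2 := (h1.eventually (gt_mem_nhds heps)).and (Filter.eventually_ge_atTop x0)
    obtain ⟨x1, hx1⟩ := Filter.eventually_atTop.1 h2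
    refine ⟨x1, fun D hD x hx => ?_⟩
    obtain ⟨h3, h4⟩ := hx1 x hx
    exact (hs D hD x h4).trans h3.le
  induction hτ using AddSubgroup.closure_induction with
  | mem x hx =>
    rcases hx with rfl | hx
    · exact base _ _ (fun D hD x hx => soft_F1' hD hC hx0 x hx)
    · rw [Set.mem_singleton_iff] at hx
      subst hx
      exact base _ _ (fun D hD x hx => soft_F2' hD hC hx0 x hx)
  | zero =>
    intro eps heps
    refine ⟨0, fun D _ x _ => ?_⟩
    rw [add_zero, sub_self, abs_zero]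
    exact heps.le
  | add a b _ _ ha hb =>
    intro eps heps
    obtain ⟨x1, h1⟩ := ha (eps / 2) (by linarith)
    obtain ⟨x2, h2⟩ := hb (eps / 2) (by linarith)
    refine ⟨max x1 (x2 - a), fun D hD x hx => ?_⟩
    have h3 := h1 D hD x ((le_max_left _ _).trans hx)
    have h4 := h2 D hD (x + a) (by linarith [(le_max_right x1 (x2 - a)).trans hx])
    have h5 := abs_sub_le (D (x + a + b)) (D (x + a)) (D x)
    rw [← add_assoc]
    linarith
  | neg a _ ha =>
    intro eps heps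
    obtain ⟨x1, h1⟩ := ha eps heps
    refine ⟨x1 + a, fun D hD x hx => ?_⟩
    have h2 := h1 D hD (x + -a) (by linarith)
    rw [neg_add_cancel_right, abs_sub_comm] at h2
    exact h2

theorem shift_unif {C x0 : ℝ} (hC : 0 ≤ C) (hx0 : 100 ≤ x0) (t : ℝ) :
    ∀ eps : ℝ, 0 < eps → ∃ x1 : ℝ, ∀ D : ℝ → ℝ, Ren D C x0 → ∀ x : ℝ, x1 ≤ x →
      |D (x + t) - D x| ≤ eps := by
  intro eps heps
  have hd : Dense ((AddSubgroup.closure ({Real.log 2, Real.log 3} : Set ℝ) : AddSubgroup ℝ) : Set ℝ) :=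
    dense_addSubgroupClosure_pair_iff.2 log_ratio_irrational
  obtain ⟨τ1, hτ1, hτ1a, hτ1b⟩ := hd.exists_between (by linarith : t - eps / 3 < t)
  obtain ⟨τ2, hτ2, hτ2a, hτ2b⟩ := hd.exists_between (by linarith : t < t + eps / 3)
  obtain ⟨N1, hN1⟩ := shift_unif_group hC hx0 hτ1 (eps / 3) (by linarith)
  obtain ⟨N2, hN2⟩ := shift_unif_group hC hx0 hτ2 (eps / 3) (by linarith)
  refine ⟨max N1 N2, fun D hD x hx => ?_⟩
  have d1 := hN1 D hD x (le_trans (le_max_left _ _) hx)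
  have d2 := hN2 D hD x (le_trans (le_max_right _ _) hx)
  rw [abs_le] at d1 d2 ⊢
  have m1 := hD.almost_mono x τ1 t hτ1b.le
  have m2 := hD.almost_mono x t τ2 hτ2a.le
  constructor <;> linarith [d1.1, d1.2, d2.1, d2.2]

theorem shift_unif_interval {C x0 : ℝ} (hC : 0 ≤ C) (hx0 : 100 ≤ x0) :
    ∀ eps : ℝ, 0 < eps → ∃ x1 : ℝ, ∀ D : ℝ → ℝ, Ren D C x0 → ∀ x : ℝ, x1 ≤ x →
      ∀ t : ℝ, 0 ≤ t → t ≤ Real.log 2 → |D (x + t) - D x| ≤ eps := by
  intro eps heps
  have hη : 0 < eps / 2 := by linarith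
  have h1 : ∀ j : ℕ, ∃ x1 : ℝ, ∀ D : ℝ → ℝ, Ren D C x0 → ∀ x : ℝ, x1 ≤ x →
      |D (x + j * (eps / 2)) - D x| ≤ eps / 2 := fun j => shift_unif hC hx0 _ _ hη
  choose X hX using h1
  obtain ⟨m, hm⟩ := exists_nat_gt (Real.log 2 / (eps / 2))
  obtain ⟨M, hM⟩ := Finset.exists_le ((range (m + 2)).image X)
  refine ⟨M, fun D hD x hx t ht ht2 => ?_⟩
  rw [div_lt_iff₀ hη] at hm
  set j := ⌊t / (eps / 2)⌋₊ with hj
  have hj1 : (j : ℝ) * (eps / 2) ≤ t := by
    have := Nat.floor_le (div_nonneg ht hη.le)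
    rwa [le_div_iff₀ hη] at this
  have hj2 : t < ((j : ℝ) + 1) * (eps / 2) := by
    have := Nat.lt_floor_add_one (t / (eps / 2))
    rwa [div_lt_iff₀ hη] at this
  have hjm : j < m := by
    have : (j : ℝ) * (eps / 2) < m * (eps / 2) := by linarith
    have := lt_of_mul_lt_mul_right this hη.le
    exact_mod_cast this
  have a1 := hX j D hD x ((hM _ (Finset.mem_image_of_mem X (Finset.mem_range.2 (by omega)))).trans hx)
  have a2 := hX (j + 1) D hD x
    ((hM _ (Finset.mem_image_of_mem X (Finset.mem_range.2 (by omega)))).trans hx)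
  push_cast at a2
  have m1 := hD.almost_mono x _ _ hj1
  have m2 := hD.almost_mono x _ _ hj2.le
  rw [abs_le] at a1 a2 ⊢
  constructor <;> linarith [a1.1, a1.2, a2.1, a2.2]

theorem U_sub_D_le {D : ℝ → ℝ} {C x0 : ℝ} (h : Ren D C x0) {x eps : ℝ}
    (hs : ∀ t : ℝ, 0 ≤ t → t ≤ Real.log 2 → |D (x + t) - D x| ≤ eps) : |U D x - D x| ≤ eps := by
  have e : U D x - D x = (1 / Real.log 2) * ∫ t in (0:ℝ)..(Real.log 2), (D (x + t) - D x) := by
    rw [intervalIntegral.integral_sub (h.intble _ _ _) intervalIntegrable_const,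
      intervalIntegral.integral_const, sub_zero, smul_eq_mul, mul_sub]
    unfold U
    have := log2_pos.ne'
    field_simp
  rw [e]
  refine scale_le ?_
  have := intervalIntegral.norm_integral_le_of_norm_le_const (a := (0:ℝ)) (b := Real.log 2)
    (f := fun t => D (x + t) - D x) (C := eps) (fun t ht => by
      rw [Set.uIoc_of_le log2_pos.le] at ht
      simpa using hs t ht.1.le ht.2)
  simpa using this

/-- uniform version of `soft_main` -/
theorem soft_unif (C x0 : ℝ) : ∃ L : (ℝ → ℝ) → ℝ, ∀ eps : ℝ, 0 < eps → ∃ x1 : ℝ, ∀ D : ℝ → ℝ,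
    Ren D C x0 → ∀ x : ℝ, x1 ≤ x → |D x - L D| ≤ eps := by
  classical
  have hC : 0 ≤ max C 0 := le_max_right _ _
  have hx0 : 100 ≤ max x0 100 := le_max_right _ _
  refine ⟨fun D => if h : Ren D C x0 then (soft_F5' h.norm hC hx0).choose else 0, ?_⟩
  intro eps heps
  obtain ⟨x1, h1⟩ := shift_unif_interval hC hx0 (eps / 2) (by linarith)
  have h2 := quarter_tendsto.const_mul (300 * (max C 0 + 10 * (4 * max C 0 + 20) + 3800))
  rw [mul_zero] at h2
  obtain ⟨x2, h3⟩ := Filter.eventually_atTop.1 (h2.eventually (gt_mem_nhds (half_pos heps)))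
  refine ⟨max x1 (max x2 (2 * max x0 100)), fun D hD x hx => ?_⟩
  have hxa : x1 ≤ x := (le_max_left _ _).trans hx
  have hxb : x2 ≤ x := (le_max_left _ _).trans ((le_max_right _ _).trans hx)
  have hxc : 2 * max x0 100 ≤ x := (le_max_right _ _).trans ((le_max_right _ _).trans hx)
  simp only [dif_pos hD]
  have a1 := U_sub_D_le hD.norm (h1 D hD.norm x hxa)
  have a2 := (soft_F5' hD.norm hC hx0).choose_spec x hxc
  have a3 := h3 x hxb
  have a4 := abs_sub_le (D x) (U D x) (soft_F5' hD.norm hC hx0).choose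
  rw [abs_sub_comm (D x) (U D x)] at a4
  linarith

end Pool.Agent.Lib.MP_e43fce_nt_nat
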