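import Pool.Agent.Lib.MP_e43fce_nt_nat.DENS
import Pool.Agent.Lib.MP_e43fce_nt_nat.SoftU

/-! Natural densities of invariant sets, uniformly over all invariant sets. -/

set_option autoImplicit false

namespace Pool.Agent.Lib.MP_e43fce_nt_nat

open Finset Filter Topology

/-- the convergence to the density is uniform over all completely invariant sets -/
theorem inv_density_unif : ∃ d : Set ℕ → ℝ, ∀ eps : ℝ, 0 < eps → ∃ X0 : ℕ,
    ∀ E : Set ℕ, IsInv E → ∀ X : ℕ, X0 ≤ X →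
      |(∑ n ∈ Icc 1 X, ind E n) / X - d E| ≤ eps := by
  obtain ⟨C, x0, hren⟩ := ren_of_inv
  obtain ⟨L, hL⟩ := soft_unif C x0
  set lim : Set ℕ → ℝ := fun E => L (DD 0 (ind E)) with hlim
  set 𝓕 : Filter (ℕ × Set ℕ) := atTop ×ˢ 𝓟 {E : Set ℕ | IsInv E} with hF
  have hdom : ∀ E : Set ℕ, IsInv E → |lim E| ≤ 2 := by
    intro E hE
    obtain ⟨x1, hx1⟩ := hL 1 one_pos
    have h1 := hx1 _ (hren E hE) x1 le_rfl
    have h2 := DD0_abs_le (h34_ind_unit E) x1
    rw [Real.norm_eq_abs] at h2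
    rw [abs_le] at h1 h2 ⊢
    constructor <;> linarith [h1.1, h1.2, h2.1, h2.2]
  have hpt : ∀ j : ℕ, Tendsto (fun p : ℕ × Set ℕ => (1 / 2 : ℝ) ^ j *
      (DD 0 (ind p.2) (Real.log ((p.1 : ℝ) / 2 ^ j)) - lim p.2)) 𝓕 (𝓝 0) := by
    intro j
    rw [Metric.tendsto_nhds]
    intro ε hε
    obtain ⟨x1, hx1⟩ := hL (ε / 2) (by linarith)
    have hev : ∀ᶠ X : ℕ in atTop, x1 ≤ Real.log ((X : ℝ) / 2 ^ j) := by
      have ht : Tendsto (fun X : ℕ => Real.log ((X : ℝ) / 2 ^ j)) atTop atTop :=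
        Real.tendsto_log_atTop.comp
          (tendsto_natCast_atTop_atTop.atTop_div_const (by positivity))
      exact ht.eventually_ge_atTop x1
    rw [hF, Filter.eventually_prod_principal_iff]
    filter_upwards [hev] with X hX E hE
    have h1 := hx1 _ (hren E hE) _ hX
    rw [dist_zero_right, norm_mul, Real.norm_eq_abs, Real.norm_eq_abs]
    have h3 : |(1 / 2 : ℝ) ^ j| ≤ 1 := by
      rw [abs_of_nonneg (by positivity)]
      exact pow_le_one₀ (by norm_num) (by norm_num)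
    have h4 := abs_nonneg (DD 0 (ind E) (Real.log ((X : ℝ) / 2 ^ j)) - lim E)
    calc |(1 / 2 : ℝ) ^ j| * |DD 0 (ind E) (Real.log ((X : ℝ) / 2 ^ j)) - lim E|
        ≤ 1 * |DD 0 (ind E) (Real.log ((X : ℝ) / 2 ^ j)) - lim E| :=
          mul_le_mul_of_nonneg_right h3 h4
      _ ≤ ε / 2 := by rw [one_mul]; exact h1
      _ < ε := by linarith
  have hsum3 : Summable (fun j : ℕ => (1 / 2 : ℝ) ^ j * 3) :=
    (summable_geometric_of_lt_one (by norm_num) (by norm_num)).mul_right 3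
  have hbd : ∀ E : Set ℕ, IsInv E → ∀ (x : ℝ) (j : ℕ),
      ‖(1 / 2 : ℝ) ^ j * (DD 0 (ind E) x - lim E)‖ ≤ (1 / 2 : ℝ) ^ j * 3 := by
    intro E hE x j
    rw [norm_mul, Real.norm_of_nonneg (by positivity : (0 : ℝ) ≤ (1 / 2) ^ j)]
    apply mul_le_mul_of_nonneg_left _ (by positivity)
    have h1 := hdom E hE
    have h2 := DD0_abs_le (h34_ind_unit E) x
    rw [Real.norm_eq_abs] at h2 ⊢
    rw [abs_le] at h1 h2 ⊢
    constructor <;> linarith [h1.1, h1.2, h2.1, h2.2]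
  have key : Tendsto (fun p : ℕ × Set ℕ => ∑' j : ℕ, (1 / 2 : ℝ) ^ j *
      (DD 0 (ind p.2) (Real.log ((p.1 : ℝ) / 2 ^ j)) - lim p.2)) 𝓕 (𝓝 (∑' _ : ℕ, (0 : ℝ))) := by
    refine tendsto_tsum_of_dominated_convergence hsum3 hpt ?_
    rw [hF, Filter.eventually_prod_principal_iff]
    filter_upwards with X E hE j
    exact hbd E hE _ j
  rw [tsum_zero, Metric.tendsto_nhds] at key
  refine ⟨fun E => 2 * lim E, fun eps heps => ?_⟩
  have hk := key eps heps
  rw [hF, Filter.eventually_prod_principal_iff, eventually_atTop] at hk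
  obtain ⟨X1, hX1⟩ := hk
  refine ⟨max X1 1, fun E hE X hX => ?_⟩
  have hXa : X1 ≤ X := le_trans (le_max_left _ _) hX
  have hXb : 1 ≤ X := le_trans (le_max_right _ _) hX
  have h1 := hX1 X hXa E hE
  rw [dist_zero_right, Real.norm_eq_abs] at h1
  rw [mean_eq_tsum (ind E) hXb]
  simp only [h34_DD_ind_two_pow hE]
  have hs1 : Summable (fun j : ℕ => (1 / 2 : ℝ) ^ j *
      (DD 0 (ind E) (Real.log ((X : ℝ) / 2 ^ j)) - lim E)) :=
    Summable.of_norm_bounded hsum3 (fun j => hbd E hE _ j)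
  have hs2 : Summable (fun j : ℕ => (1 / 2 : ℝ) ^ j * lim E) :=
    (summable_geometric_of_lt_one (by norm_num) (by norm_num)).mul_right _
  have hsplit : ∑' j : ℕ, (1 / 2 : ℝ) ^ j * DD 0 (ind E) (Real.log ((X : ℝ) / 2 ^ j)) =
      ∑' j : ℕ, (1 / 2 : ℝ) ^ j * (DD 0 (ind E) (Real.log ((X : ℝ) / 2 ^ j)) - lim E) +
        2 * lim E := by
    have h2l : 2 * lim E = ∑' j : ℕ, (1 / 2 : ℝ) ^ j * lim E := by
      rw [tsum_mul_right, tsum_geometric_two]
    rw [h2l, ← hs1.tsum_add hs2]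
    apply tsum_congr
    intro j
    ring
  rw [hsplit]
  show |_ + 2 * lim E - 2 * lim E| ≤ eps
  rw [add_sub_cancel_right]
  exact h1.le

end Pool.Agent.Lib.MP_e43fce_nt_nat
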