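import Pool.Agent.Lib.MP_e43fce_nt_nat.Words
import Pool.Agent.Lib.KD38.Pair
import Pool.Agent.Lib.KD41.W2
import Pool.Agent.Lib.KD41.Deep

/-! FDg: Fourier decay. -/

set_option autoImplicit false

namespace Pool.Agent.Lib.MP_e43fce_nt_nat

open Finset

/-- `e(t) = exp(2 pi i t)` -/
noncomputable def ee (t : ℝ) : ℂ := Complex.exp (2 * Real.pi * t * Complex.I)

/-- inverse of `2` modulo `3^r` -/
def hh (r : ℕ) : ℤ := (3 ^ r + 1) / 2

theorem sum_words_eq_WS {M : Type*} [AddCommMonoid M] (L : ℕ) : ∀ (k : ℕ) (f : List ℕ → M),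
    ∑ w ∈ words L k, f w = KD38.WS L k f
  | 0, f => by simp [words, KD38.WS]
  | k + 1, f => by
    rw [words, Finset.sum_image, Finset.sum_product, KD38.WS]
    · exact Finset.sum_congr rfl fun a _ => sum_words_eq_WS L k _
    · intro p _ q _ h
      simp only [List.cons.injEq] at h
      exact Prod.ext h.1 h.2

theorem F_eq : ∀ w : List ℕ, F w = KD38.F w
  | [] => rfl
  | _ :: w => by simp only [F, KD38.F, F_eq w]

theorem ee_eq (t : ℝ) : ee t = KD38.ee t := by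
  unfold ee KD38.ee
  congr 1
  push_cast
  ring

theorem two_mul_hh (r : ℕ) : 2 * hh r = 3 ^ r + 1 := by
  unfold hh
  have h1 : Even ((3 : ℤ) ^ r + 1) := by
    apply Odd.add_odd (Odd.pow (by decide)) odd_one
  obtain ⟨k, hk⟩ := h1
  rw [hk]
  omega

/-- (FDg) -/
theorem FDg (B : ℕ) : ∃ C : ℝ, 0 < C ∧ ∀ N g L : ℕ, 1 ≤ N → 1 ≤ g → 2 ≤ L →
    ∀ η : ℤ, ¬ (3 : ℤ) ∣ η → ∀ ψ : ℕ → ℂ, (∀ A, ‖ψ A‖ ≤ 1) →
      ‖∑ q ∈ words L (2 * N), (pr q : ℂ) * ψ q.sum *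
          ee (-((η * hh (2 * N + g) ^ q.sum * (F q : ℤ) : ℤ) : ℝ) / 3 ^ (2 * N + g))‖
        ≤ C * ((g : ℝ) / N) ^ B := by
  obtain ⟨C, hC, hmain⟩ := KD41.G_decay KD41.deep B
  refine ⟨C, hC, ?_⟩
  intro N g L hN hg hL η hη ψ hψ
  set r := 2 * N + g with hr
  have h2 : (3 : ℤ) ^ r ∣ 2 * hh r - 1 := by
    rw [two_mul_hh]
    exact ⟨1, by ring⟩
  have h3 : ¬ (3 : ℤ) ∣ hh r ^ 2 * η := by
    intro hcon
    rcases Int.prime_three.dvd_mul.mp hcon with h | h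
    · have h4 := Int.prime_three.dvd_of_dvd_pow h
      have h5 : (3 : ℤ) ∣ 3 ^ r := dvd_pow_self _ (by omega)
      have h6 := two_mul_hh r
      omega
    · exact hη h
  have h7 := KD38.pair η (hh r) r L N h2 (by omega) ψ hψ
  have h8 := hmain N g (2 * L) hN hg (by omega) (hh r ^ 2 * η) h3 0 0
  rw [show 2 * 0 + 2 * N + g = r by omega] at h8
  refine le_trans (le_of_eq ?_) (h7.trans h8)
  rw [sum_words_eq_WS]
  congr 1
  apply KD38.WS_congr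
  intro w
  rw [F_eq, ee_eq, pr]
  have e1 : (((1 : ℝ) / 2 ^ w.sum : ℝ) : ℂ) = (1 / 2 : ℂ) ^ w.sum := by
    push_cast
    rw [one_div, one_div, inv_pow]
  have e2 : (-((η * hh r ^ w.sum * (KD38.F w : ℤ) : ℤ) : ℝ) / 3 ^ r) =
      (((-(η * (hh r ^ w.sum * KD38.F w)) : ℤ) : ℝ) / 3 ^ r) := by
    push_cast
    ring
  rw [e1, e2]
  ring

end Pool.Agent.Lib.MP_e43fce_nt_nat
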