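import Pool.Agent.Lib.MP_e43fce_nt_nat.DensAlg
import Pool.Agent.Lib.MP_e43fce_nt_nat.DENS
import Pool.Agent.Lib.MP_e43fce_nt_nat.FUP
import Pool.Agent.Lib.MP_e43fce_nt_nat.T5ALL
import Pool.Agent.Lib.MP_e43fce_nt_nat.POS

/-! FIN: final statements. -/

set_option autoImplicit false

namespace Pool.Agent.Lib.MP_e43fce_nt_nat

open Finset

/-- (FIN1) every invariant set has a natural density, at least `c / a` for `a` in it prime to `3` -/
theorem fin_inv : ∃ c : ℝ, 0 < c ∧ ∀ E : Set ℕ, IsInv E → ∃ δ : ℝ, HasDens E δ ∧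
    ∀ a ∈ E, 0 < a → ¬ 3 ∣ a → c / a ≤ δ := by
  classical
  obtain ⟨c, hc, hpos⟩ := pos_dens
  refine ⟨c, hc, fun E hE => ?_⟩
  obtain ⟨δ, hδ⟩ := inv_density E hE
  have hD : HasDens E δ := by
    unfold HasDens
    refine hδ.congr (fun X => ?_)
    congr 1
    rw [cnt_filter E X ((Icc 1 X).filter (fun n => n ∈ E)) (by
      intro n; simp only [Finset.mem_filter, Finset.mem_Icc]; tauto), Finset.card_filter]
    push_cast
    refine Finset.sum_congr rfl (fun n _ => ?_)
    unfold ind
    split_ifs <;> rfl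
  refine ⟨δ, hD, fun a haE ha h3 => ?_⟩
  obtain ⟨X0, hX0⟩ := hpos a ha h3
  refine HasDens.ge (S := {n | ∃ k : ℕ, col^[k] n = a}) (T := E) (X0 := X0) ?_ ?_ hD
  · intro X hX
    refine (hX0 X hX).trans (le_of_eq ?_)
    rw [cnt_filter]
    intro n
    simp only [Finset.mem_filter, Finset.mem_Icc, Set.mem_setOf_eq]
    tauto
  · rintro n hn ⟨k, hk⟩
    rw [inv_iter hE hn k, hk]
    exact haE

/-- an invariant set of density zero has no positive element -/
theorem inv_zero {E : Set ℕ} (hE : IsInv E) (h0 : HasDens E 0) {n : ℕ} (hn : 0 < n) : n ∉ E := by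
  intro hnE
  obtain ⟨c, hc, h⟩ := fin_inv
  obtain ⟨δ, hδ, hδ2⟩ := h E hE
  obtain ⟨a, haE, ha, h3⟩ := inv_nonempty hE hn hnE
  have h1 := hδ2 a haE ha h3
  rw [hδ.unique h0] at h1
  have : 0 < c / a := div_pos hc (by exact_mod_cast ha)
  linarith

theorem null_upper {e0 : ℝ} (he : 0 < e0) :
    HasDens {n : ℕ | n ∈ Rone ∧ ¬ ∃ k : ℕ, (k : ℝ) ≤ (3 / Real.log (4 / 3) + e0) * Real.log n ∧
      col^[k] n = 1} 0 := by
  classical
  unfold HasDens
  refine (fin_upper he).congr (fun X => ?_)
  congr 1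
  rw [cnt_filter]
  intro n
  simp only [Finset.mem_filter, Finset.mem_Icc, Set.mem_setOf_eq, Rone]
  tauto

theorem null_lower {e0 : ℝ} (he : 0 < e0) :
    HasDens {n : ℕ | ∃ k : ℕ, (k : ℝ) ≤ (3 / Real.log (4 / 3) - e0) * Real.log n ∧
      col^[k] n = 1} 0 := by
  classical
  unfold HasDens
  refine (T5_all he).congr (fun X => ?_)
  congr 1
  rw [cnt_filter]
  intro n
  simp only [Finset.mem_filter, Finset.mem_Icc, Set.mem_setOf_eq]
  tauto

/-- (FIN2) the law of the total stopping time -/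
theorem fin_law : ∃ δ : ℝ, 0 < δ ∧
    HasDens {n | tst n ≠ ⊤} δ ∧ HasDens {n | tst n = ⊤} (1 - δ) ∧
    HasDens {n | tst n ≤ n} δ ∧
    (∀ ε : ℝ, 0 < ε → HasDens {n | ∃ k : ℕ, tst n = k ∧
      |(k : ℝ) - 3 / Real.log (4 / 3) * Real.log n| ≤ ε * Real.log n} δ) ∧
    (δ = 1 ↔ ∀ n : ℕ, 0 < n → tst n ≠ ⊤) := by
  obtain ⟨c, hc, h⟩ := fin_inv
  obtain ⟨δ, hδ, hδ2⟩ := h Rone Rone_inv
  have h1 : c ≤ δ := by
    have := hδ2 1 ⟨0, rfl⟩ (by norm_num) (by norm_num)
    simpa using this
  have hR : ({n | tst n ≠ ⊤} : Set ℕ) = Rone := by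
    ext n; exact tst_ne_top_iff
  have hRc : ({n | tst n = ⊤} : Set ℕ) = Roneᶜ := by
    ext n
    simp only [Set.mem_setOf_eq, Set.mem_compl_iff]
    rw [← tst_ne_top_iff]; tauto
  set c0 : ℝ := 3 / Real.log (4 / 3) with hc0
  have hc0pos : 0 < c0 := div_pos (by norm_num) (Real.log_pos (by norm_num))
  refine ⟨δ, lt_of_lt_of_le hc h1, by rw [hR]; exact hδ, by rw [hRc]; exact hδ.compl, ?_, ?_, ?_⟩
  · -- tst n ≤ n
    have hlog : ∃ M : ℕ, ∀ n : ℕ, M ≤ n → (c0 + 1) * Real.log n ≤ n := by
      have h1 : Filter.Tendsto (fun n : ℕ => Real.log (n : ℝ) / (n : ℝ)) Filter.atTop (nhds 0) := by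
        have := Real.isLittleO_log_id_atTop.tendsto_div_nhds_zero
        exact this.comp tendsto_natCast_atTop_atTop
      have h2 : ∀ᶠ n : ℕ in Filter.atTop, Real.log (n : ℝ) / (n : ℝ) < 1 / (c0 + 1) :=
        h1.eventually (gt_mem_nhds (by positivity))
      obtain ⟨M, hM⟩ := Filter.eventually_atTop.mp h2
      refine ⟨M + 1, fun n hn => ?_⟩
      have h3 := hM n (by omega)
      have hn0 : (0 : ℝ) < n := by
        have : 0 < n := by omega
        exact_mod_cast this
      rw [div_lt_div_iff₀ hn0 (by positivity)] at h3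
      nlinarith
    obtain ⟨M, hM⟩ := hlog
    have hN := (null_upper (e0 := 1) one_pos).zero_union
      (hasDens_bounded {n | n ≤ M} M (fun n hn => hn))
    refine hδ.change hN ?_ ?_
    · intro n hn hnR
      by_cases hnM : n ≤ M
      · right; right; exact hnM
      · by_cases hk : ∃ k : ℕ, (k : ℝ) ≤ (3 / Real.log (4 / 3) + 1) * Real.log n ∧ col^[k] n = 1
        · left
          obtain ⟨k, hk, hk1⟩ := hk
          refine tst_le_iff.mpr ⟨k, ?_, hk1⟩
          have := hM n (by omega)
          exact_mod_cast hk.trans this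
        · right; left; exact ⟨hnR, hk⟩
    · intro n hn hnT
      left
      obtain ⟨k, _, hk⟩ := tst_le_iff.mp hnT
      exact ⟨k, hk⟩
  · intro ε hε
    have hN := (null_upper hε).zero_union (null_lower hε)
    refine hδ.change hN ?_ ?_
    · intro n hn hnR
      obtain ⟨k, hk⟩ := ENat.ne_top_iff_exists.mp (tst_ne_top_iff.mpr hnR)
      obtain ⟨hk1, hkmin⟩ := tst_eq_min hk.symm
      by_cases hcase : |(k : ℝ) - c0 * Real.log n| ≤ ε * Real.log n
      · left; exact ⟨k, hk.symm, hcase⟩
      · right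
        rw [abs_le, not_and_or] at hcase
        rcases hcase with hlt | hgt
        · right
          refine ⟨k, ?_, hk1⟩
          rw [← hc0]; nlinarith
        · left
          refine ⟨hnR, ?_⟩
          rintro ⟨j, hj, hj1⟩
          have hkj : (k : ℝ) ≤ j := by exact_mod_cast hkmin j hj1
          apply hgt
          rw [← hc0] at hj; nlinarith
    · rintro n hn ⟨k, hk, _⟩
      left
      exact tst_ne_top_iff.mp (by rw [hk]; exact ENat.natCast_ne_top k)
  · constructor
    · intro hδ1 n hn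
      rw [tst_ne_top_iff]
      by_contra hcon
      have h0 : HasDens Roneᶜ 0 := by
        have := hδ.compl
        rwa [hδ1, sub_self] at this
      exact inv_zero (compl_inv Rone_inv) h0 hn hcon
    · intro hall
      have : HasDens Rone 1 := by
        have hz : HasDens (Set.univ : Set ℕ) 1 := by
          unfold HasDens
          have : Filter.Tendsto (fun _ : ℕ => (1 : ℝ)) Filter.atTop (nhds 1) := tendsto_const_nhds
          refine this.congr' ?_
          filter_upwards [Filter.eventually_gt_atTop 0] with X hX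
          rw [cnt_univ, div_self]
          positivity
        refine hz.change (hasDens_bounded ∅ 0 (by simp)) ?_ ?_
        · intro n hn _
          left; exact tst_ne_top_iff.mp (hall n hn)
        · intro n hn _
          left; exact Set.mem_univ n
      exact hδ.unique this

end Pool.Agent.Lib.MP_e43fce_nt_nat
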