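import Pool.Agent.Lib.MP_e43fce_nt_nat.FIN
import Pool.Agent.Lib.MP_e43fce_nt_nat.CLTFin

/-! FINC: the law of the total stopping time, with the central limit theorem. -/

set_option autoImplicit false

namespace Pool.Agent.Lib.MP_e43fce_nt_nat

theorem fin_clt : ∃ δ : ℝ, 0 < δ ∧
    HasDens {n | tst n ≤ n} δ ∧ HasDens {n | tst n = ⊤} (1 - δ) ∧
    (∀ y : ℝ, HasDens {n | ∃ k : ℕ, tst n = k ∧
      (k : ℝ) ≤ 3 / Real.log (4 / 3) * Real.log n +
        y * ((3 * Real.log 2 / Real.log (4 / 3) - 1) * Real.sqrt (2 / Real.log (4 / 3))) *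
          Real.sqrt (Real.log n)}
      (δ * (ProbabilityTheory.gaussianReal 0 1).real (Set.Iic y))) ∧
    (δ = 1 ↔ ∀ n : ℕ, 0 < n → tst n ≠ ⊤) := by
  obtain ⟨δ, h0, h1, h2, h3, _, h5⟩ := fin_law
  refine ⟨δ, h0, h3, h2, ?_, h5⟩
  intro y
  have hR : ({n | tst n ≠ ⊤} : Set ℕ) = Rone := by
    ext n; exact tst_ne_top_iff
  rw [hR] at h1
  have h := clt_dens h1 y
  have hs : sgm = (3 * Real.log 2 / Real.log (4 / 3) - 1) * Real.sqrt (2 / Real.log (4 / 3)) := by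
    unfold sgm kap
    congr 1
    ring
  rw [hs] at h
  have hset : ({n : ℕ | ∃ k : ℕ, tst n = k ∧
      (k : ℝ) ≤ 3 / Real.log (4 / 3) * Real.log n +
        y * ((3 * Real.log 2 / Real.log (4 / 3) - 1) * Real.sqrt (2 / Real.log (4 / 3))) *
          Real.sqrt (Real.log n)} : Set ℕ) = {n : ℕ | ∃ k : ℕ, (k : ℝ) ≤
      3 / Real.log (4 / 3) * Real.log n +
        y * ((3 * Real.log 2 / Real.log (4 / 3) - 1) * Real.sqrt (2 / Real.log (4 / 3))) *
          Real.sqrt (Real.log n) ∧ col^[k] n = 1} := by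
    ext n
    constructor
    · rintro ⟨k, hk, hk2⟩
      exact ⟨k, hk2, (tst_eq_min hk).1⟩
    · rintro ⟨k, hk, hk2⟩
      obtain ⟨j, hj⟩ := ENat.ne_top_iff_exists.mp (tst_ne_top_iff.mpr ⟨k, hk2⟩)
      refine ⟨j, hj.symm, ?_⟩
      have h6 : (j : ℝ) ≤ k := by exact_mod_cast (tst_eq_min hj.symm).2 k hk2
      exact h6.trans hk
  rw [hset]
  exact h

end Pool.Agent.Lib.MP_e43fce_nt_nat
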