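import Pool.Agent.Lib.MP_e43fce_nt_nat.QFIN
import Pool.Agent.Lib.MP_e43fce_nt_nat.POS
import Pool.Agent.Lib.MP_e43fce_nt_nat.DensAlg

/-! FINR: densities of invariant sets with rate, in residue classes, and their positivity. -/

set_option autoImplicit false

namespace Pool.Agent.Lib.MP_e43fce_nt_nat

open Finset

theorem fin_equi : ∃ (c c' : ℝ) (d : Set ℕ → ℝ), 0 < c ∧ 0 < c' ∧
    (∀ E : Set ℕ, IsInv E → ∀ a ∈ E, 0 < a → ¬ 3 ∣ a → c' / a ≤ d E) ∧
    ∀ M : ℕ, 1 ≤ M → ∃ C : ℝ, ∀ E : Set ℕ, IsInv E → ∀ X : ℕ, 2 ≤ X → ∀ r : ℕ,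
      |(((E ∩ {n | n % M = r % M}) ∩ Set.Icc 1 X).ncard : ℝ) - d E * X / M|
        ≤ C * X / (Real.log X) ^ c := by
  classical
  obtain ⟨c, hc, -, d, -, hd0⟩ := equi_rate
  have hd : ∀ M : ℕ, 1 ≤ M → ∃ C : ℝ, ∀ E : Set ℕ, IsInv E → ∀ X : ℕ, 2 ≤ X → ∀ r : ℕ,
      |(∑ n ∈ (Icc 1 X).filter (fun n => n % M = r % M), ind E n) - d E * X / M|
        ≤ C * X / (Real.log X) ^ c := by
    intro M hM
    obtain ⟨C, -, h⟩ := hd0 M hM
    exact ⟨C, h⟩
  obtain ⟨c', hc', hpos⟩ := pos_dens
  have key : ∀ (E : Set ℕ) (M X r : ℕ),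
      (((E ∩ {n | n % M = r % M}) ∩ Set.Icc 1 X).ncard : ℝ)
        = ∑ n ∈ (Icc 1 X).filter (fun n => n % M = r % M), ind E n := by
    intro E M X r
    rw [show (((E ∩ {n | n % M = r % M}) ∩ Set.Icc 1 X).ncard : ℝ)
      = cnt (E ∩ {n | n % M = r % M}) X from rfl]
    rw [cnt_filter (E ∩ {n | n % M = r % M}) X
      (((Icc 1 X).filter (fun n => n % M = r % M)).filter (fun n => n ∈ E)) (by
        intro n
        simp only [Finset.mem_filter, Finset.mem_Icc, Set.mem_inter_iff, Set.mem_setOf_eq]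
        tauto), Finset.card_filter]
    push_cast
    refine Finset.sum_congr rfl (fun n _ => ?_)
    unfold ind
    split_ifs <;> rfl
  refine ⟨c, c', d, hc, hc', ?_, ?_⟩
  · intro E hE a haE ha h3
    obtain ⟨C, hC⟩ := hd 1 le_rfl
    obtain ⟨X0, hX0⟩ := hpos a ha h3
    -- cnt E X / X → d E
    have hlim : Filter.Tendsto (fun X : ℕ => cnt E X / X) Filter.atTop (nhds (d E)) := by
      rw [tendsto_iff_norm_sub_tendsto_zero]
      have hlog : Filter.Tendsto (fun X : ℕ => |C| / (Real.log X) ^ c) Filter.atTop (nhds 0) := by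
        refine Filter.Tendsto.div_atTop tendsto_const_nhds ?_
        exact (tendsto_rpow_atTop hc).comp (Real.tendsto_log_atTop.comp tendsto_natCast_atTop_atTop)
      refine squeeze_zero' (Filter.Eventually.of_forall (fun X => norm_nonneg _)) ?_ hlog
      filter_upwards [Filter.eventually_ge_atTop 2] with X hX
      have h1 := hC E hE X hX 0
      have hXpos : (0 : ℝ) < X := by
        have : 0 < X := by omega
        exact_mod_cast this
      have h2 : (∑ n ∈ (Icc 1 X).filter (fun n => n % 1 = 0 % 1), ind E n) = cnt E X := by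
        rw [← key E 1 X 0]
        unfold cnt
        congr 2
        ext n
        simp [Nat.mod_one]
      rw [h2] at h1
      have hlogpos : 0 < Real.log X := Real.log_pos (by
        have : (1 : ℕ) < X := by omega
        exact_mod_cast this)
      have hlc : 0 < (Real.log X) ^ c := Real.rpow_pos_of_pos hlogpos c
      rw [Real.norm_eq_abs]
      have h3 : cnt E X / X - d E = (cnt E X - d E * X / (1 : ℕ)) / X := by
        field_simp
        push_cast; ring
      rw [h3, abs_div, abs_of_pos hXpos, div_le_iff₀ hXpos]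
      refine h1.trans ?_
      rw [div_mul_eq_mul_div]
      refine div_le_div_of_nonneg_right ?_ hlc.le
      exact mul_le_mul_of_nonneg_right (le_abs_self C) hXpos.le
    refine HasDens.ge (S := {n | ∃ k : ℕ, col^[k] n = a}) (T := E) (X0 := X0) ?_ ?_ hlim
    · intro X hX
      refine (hX0 X hX).trans (le_of_eq ?_)
      rw [cnt_filter]
      intro n
      simp only [Finset.mem_filter, Finset.mem_Icc, Set.mem_setOf_eq]
      tauto
    · rintro n hn ⟨k, hk⟩
      rw [inv_iter hE hn k, hk]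
      exact haE
  · intro M hM
    obtain ⟨C, hC⟩ := hd M hM
    refine ⟨C, fun E hE X hX r => ?_⟩
    rw [key]
    exact hC E hE X hX r

end Pool.Agent.Lib.MP_e43fce_nt_nat
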