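import Pool.Agent.Lib.MP_e43fce_nt_nat.GDefs
import Pool.Agent.Lib.MP_e43fce_nt_nat.T5ODD
import Pool.Agent.Lib.MP_e43fce_nt_nat.REN

/-! KL3, hitting times of finite sets: the general step and the two families. -/

set_option autoImplicit false

namespace Pool.Agent.Lib.MP_e43fce_nt_nat

open Finset Filter Topology

namespace GFaux

theorem fin_small {x : ℝ} (hx : 2 ≤ x) {K A : ℕ} (hK : (K : ℝ) ≤ 3 * x / 10)
    (hA : A ∈ win (1 / 10) K) :
    (4 * (K : ℝ) + 1) * (3 ^ (i1 K) / Real.exp (zz x K A)) ≤ 220 * x ^ (-(1 / 4) : ℝ) := by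
  have h1 := REQaux.three_pow_le hK (REQaux.i1_sq K)
  have h2 := h34_zz_ge hK hA
  have h3 : (3 : ℝ) ^ (i1 K) / Real.exp (zz x K A) ≤ Real.exp (-(0.2 * x)) := by
    rw [div_le_iff₀ (Real.exp_pos _), ← Real.exp_add]
    refine h1.trans (Real.exp_le_exp.2 ?_)
    linarith
  have h4 : Real.exp (-(0.2 * x)) = Real.exp (-(0.1 * x)) * Real.exp (-(0.1 * x)) := by
    rw [← Real.exp_add]; congr 1; ring
  have h5 : x * Real.exp (-(0.1 * x)) ≤ 10 := by
    rw [Real.exp_neg, ← div_eq_mul_inv, div_le_iff₀ (Real.exp_pos _)]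
    have := Real.add_one_le_exp (0.1 * x)
    linarith
  have h6 : Real.exp (-(0.1 * x)) ≤ 10 * x ^ (-(1 / 4) : ℝ) := by
    have h7 := REQaux.exp_small (x := x / 2) (y := 0.1 * x) (by linarith) (by linarith)
    have h8 : (x / 2) ^ (-(1 / 4) : ℝ) ≤ 2 * x ^ (-(1 / 4) : ℝ) :=
      h34_rpow_scale (by linarith) (by linarith)
    linarith
  have h9 : 4 * (K : ℝ) + 1 ≤ 2.2 * x := by linarith
  have h10 : 0 < Real.exp (-(0.1 * x)) := Real.exp_pos _
  have hx4 : 0 ≤ x ^ (-(1 / 4) : ℝ) := Real.rpow_nonneg (by linarith) _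
  calc (4 * (K : ℝ) + 1) * (3 ^ (i1 K) / Real.exp (zz x K A))
      ≤ (2.2 * x) * (Real.exp (-(0.1 * x)) * Real.exp (-(0.1 * x))) := by
        rw [← h4]
        exact mul_le_mul h9 h3 (by positivity) (by positivity)
    _ = 2.2 * (x * Real.exp (-(0.1 * x))) * Real.exp (-(0.1 * x)) := by ring
    _ ≤ 2.2 * 10 * (10 * x ^ (-(1 / 4) : ℝ)) := by
        apply mul_le_mul _ h6 h10.le (by norm_num)
        linarith
    _ = 220 * x ^ (-(1 / 4) : ℝ) := by ring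

end GFaux

open GFaux in
/-- general step: `p n <= q A s` unless `s` is one of the first `4K+1` points of an orbit of `S` -/
theorem recS (S : Finset ℕ) : ∃ C x0 : ℝ, 0 ≤ C ∧ 100 ≤ x0 ∧ ∀ x : ℝ, x0 ≤ x → ∀ K i : ℕ,
    x / 10 ≤ (K : ℝ) → (K : ℝ) ≤ 3 * x / 10 → i ^ 2 ≤ K →
    ∀ (p : ℕ → ℝ) (q : ℕ → ℕ → ℝ), Unit01 p → (∀ A, Unit01 (q A)) →
    (∀ s n : ℕ, s % 2 = 1 → ∀ w ∈ Good (1 / 10) K, adm s w → nd s w = (n : ℤ) →
      p n ≤ q w.sum s ∨ s ∈ fwdA S (4 * K + 1)) →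
    DD i p x ≤ ∑ A ∈ win (1 / 10) K, rho K A * DD (i1 K) (q A) (zz x K A) +
      C * x ^ (-(1 / 4) : ℝ) := by
  obtain ⟨C, x1, hC, hx1, hR⟩ := lemR (e := 1 / 10) (by norm_num) le_rfl
  refine ⟨C + 220 * S.card, max x1 100, by positivity, le_max_right _ _, ?_⟩
  intro x hx K i hK1 hK2 hi p q hp hq hyp
  have hxx1 : x1 ≤ x := (le_max_left _ _).trans hx
  have hx100 : 100 ≤ x := (le_max_right _ _).trans hx
  set F := fwdA S (4 * K + 1) with hF
  have hq' : ∀ A, Unit01 (fun s => max (q A s) (if s ∈ F then 1 else 0)) := by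
    intro A s
    have h := hq A s
    dsimp only
    split_ifs
    · exact ⟨le_max_of_le_left h.1, max_le h.2 le_rfl⟩
    · exact ⟨le_max_of_le_left h.1, max_le h.2 zero_le_one⟩
  have hR' := hR x hxx1 K i hK1 hK2 hi p
    (fun A s => max (q A s) (if s ∈ F then 1 else 0)) hp hq' (by
      intro s n hs w hw had hn
      dsimp only
      rcases hyp s n hs w hw had hn with h | h
      · exact h.trans (le_max_left _ _)
      · rw [if_pos h]
        exact (hp n).2.trans (le_max_right _ _))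
  have hx4 : 0 ≤ x ^ (-(1 / 4) : ℝ) := Real.rpow_nonneg (by linarith) _
  have hcard : (F.card : ℝ) ≤ S.card * (4 * (K : ℝ) + 1) := by
    have h := card_fwdA S (4 * K + 1)
    rw [← hF] at h
    have h' : (F.card : ℝ) ≤ ((S.card * (4 * K + 1) : ℕ) : ℝ) := by exact_mod_cast h
    push_cast at h'
    exact h'
  have hsum : ∑ A ∈ win (1 / 10) K, rho K A *
        DD (i1 K) (fun s => max (q A s) (if s ∈ F then 1 else 0)) (zz x K A)
      ≤ ∑ A ∈ win (1 / 10) K, rho K A * DD (i1 K) (q A) (zz x K A) +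
        220 * S.card * x ^ (-(1 / 4) : ℝ) := by
    have h1 : ∀ A ∈ win (1 / 10) K, rho K A *
        DD (i1 K) (fun s => max (q A s) (if s ∈ F then 1 else 0)) (zz x K A)
        ≤ rho K A * DD (i1 K) (q A) (zz x K A) +
          rho K A * (220 * S.card * x ^ (-(1 / 4) : ℝ)) := by
      intro A hA
      rw [← mul_add]
      apply mul_le_mul_of_nonneg_left _ (rho_nonneg K A)
      have h2 : DD (i1 K) (fun s => max (q A s) (if s ∈ F then 1 else 0)) (zz x K A)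
          ≤ DD (i1 K) (fun s => q A s + (if s ∈ F then 1 else 0)) (zz x K A) := by
        apply DD_mono
        intro s
        have h := hq A s
        apply max_le
        · split_ifs <;> linarith
        · linarith [h.1]
      rw [DD_add] at h2
      have h3 := DD_finset (i1 K) F (zz x K A)
      have h4 := fin_small (by linarith) hK2 hA
      have h5 : (F.card : ℝ) * (3 ^ (i1 K) / Real.exp (zz x K A)) ≤
          S.card * (220 * x ^ (-(1 / 4) : ℝ)) := by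
        calc (F.card : ℝ) * (3 ^ (i1 K) / Real.exp (zz x K A))
            ≤ (S.card * (4 * (K : ℝ) + 1)) * (3 ^ (i1 K) / Real.exp (zz x K A)) :=
              mul_le_mul_of_nonneg_right hcard (by positivity)
          _ = S.card * ((4 * (K : ℝ) + 1) * (3 ^ (i1 K) / Real.exp (zz x K A))) := by ring
          _ ≤ _ := mul_le_mul_of_nonneg_left h4 (Nat.cast_nonneg _)
      linarith
    refine (Finset.sum_le_sum h1).trans ?_
    rw [Finset.sum_add_distrib, ← Finset.sum_mul]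
    have h5 := h34_win_sum_le K
    have h6 : (∑ A ∈ win (1 / 10) K, rho K A) * (220 * S.card * x ^ (-(1 / 4) : ℝ)) ≤
        1 * (220 * S.card * x ^ (-(1 / 4) : ℝ)) :=
      mul_le_mul_of_nonneg_right h5 (by positivity)
    linarith
  calc DD i p x ≤ _ := hR'
    _ ≤ (∑ A ∈ win (1 / 10) K, rho K A * DD (i1 K) (q A) (zz x K A) +
        220 * S.card * x ^ (-(1 / 4) : ℝ)) + C * x ^ (-(1 / 4) : ℝ) := add_le_add hsum le_rfl
    _ = _ := by ring

namespace GFaux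

/-- the orbit of `n` passes `s` after `K + |w|` steps -/
theorem pass {e : ℝ} {K s n : ℕ} (hs : s % 2 = 1) {w : List ℕ} (hw : w ∈ Good e K) (had : adm s w)
    (hn : nd s w = (n : ℤ)) : col^[K + w.sum] n = s ∧ K + w.sum ≤ 4 * K := by
  have hw1 := mem_filter.1 hw
  have hw' := (mem_words (3 * K) K w).1 hw1.1
  have hcol := nd_col hs (fun a ha => (hw'.2 a ha).1) had hn
  rw [hw'.1] at hcol
  refine ⟨hcol, ?_⟩
  have h1 := hw1.2.1
  unfold win at h1
  have h2 := mem_range.1 (mem_filter.1 h1).1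
  omega

/-- if `S` is reached before `s`, then `s` is on a forward orbit of `S` -/
theorem early {S : Finset ℕ} {K N k s n : ℕ} (hN : col^[N] n = s) (hk : col^[k] n ∈ S)
    (hkN : k ≤ N) (hNK : N ≤ 4 * K) : s ∈ fwdA S (4 * K + 1) := by
  rw [mem_fwdA]
  refine ⟨col^[k] n, hk, N - k, by omega, ?_⟩
  rw [← Function.iterate_add_apply, show N - k + k = N by omega]
  exact hN

/-- later hitting times -/
theorem late {S : Finset ℕ} {N k s n : ℕ} (hN : col^[N] n = s) (hk : col^[k] n ∈ S) (hkN : N ≤ k) :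
    col^[k - N] s ∈ S := by
  rw [← hN, ← Function.iterate_add_apply, show k - N + N = k by omega]
  exact hk

theorem floor_bounds {x : ℝ} (hx : 100 ≤ x) {i : ℕ} (hi : (i : ℝ) ^ 2 ≤ x / 10) :
    x / 10 ≤ (⌊x / 5⌋₊ : ℝ) ∧ (⌊x / 5⌋₊ : ℝ) ≤ 3 * x / 10 ∧ i ^ 2 ≤ ⌊x / 5⌋₊ := by
  have hK2 : (⌊x / 5⌋₊ : ℝ) ≤ x / 5 := Nat.floor_le (by linarith)
  have hK1 : x / 5 - 1 ≤ (⌊x / 5⌋₊ : ℝ) := by
    have := Nat.lt_floor_add_one (x / 5)
    linarith
  refine ⟨by linarith, by linarith, ?_⟩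
  have : ((i : ℝ)) ^ 2 ≤ (⌊x / 5⌋₊ : ℝ) := by linarith
  exact_mod_cast this

end GFaux

open GFaux

theorem recLA (S : Finset ℕ) : ∃ C x0 : ℝ, 0 ≤ C ∧ 100 ≤ x0 ∧ ∀ x : ℝ, x0 ≤ x → ∀ (T : ℤ) (i : ℕ),
    (i : ℝ) ^ 2 ≤ x / 10 →
    DD i (pLA S T) x ≤ ∑ A ∈ win (1 / 10) ⌊x / 5⌋₊, rho ⌊x / 5⌋₊ A *
      DD (i1 ⌊x / 5⌋₊) (pLA S (T - ⌊x / 5⌋₊ - A)) (zz x ⌊x / 5⌋₊ A) + C * x ^ (-(1 / 4) : ℝ) := by
  obtain ⟨C, x0, hC, hx0, h⟩ := recS S
  refine ⟨C, x0, hC, hx0, fun x hx T i hi => ?_⟩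
  obtain ⟨hK1, hK2, hiK⟩ := floor_bounds (hx0.trans hx) hi
  refine h x hx ⌊x / 5⌋₊ i hK1 hK2 hiK (pLA S T) (fun A => pLA S (T - ⌊x / 5⌋₊ - A)) (pLA_unit S T)
    (fun A => pLA_unit S _) ?_
  intro s n hs w hw had hn
  obtain ⟨hcol, hle⟩ := pass hs hw had hn
  set K := ⌊x / 5⌋₊
  by_cases h1 : ∃ k : ℕ, (k : ℤ) ≤ T ∧ col^[k] n ∈ S
  · obtain ⟨k, hk, hk1⟩ := h1
    rcases le_total k (K + w.sum) with h3 | h3
    · exact Or.inr (early hcol hk1 h3 hle)
    · left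
      have h2 : pLA S (T - K - (w.sum : ℕ)) s = 1 := by
        unfold pLA
        rw [if_pos]
        refine ⟨k - (K + w.sum), ?_, late hcol hk1 h3⟩
        push_cast [Nat.cast_sub h3]
        linarith
      rw [h2]
      exact (pLA_unit S T n).2
  · left
    have h2 : pLA S T n = 0 := by
      unfold pLA
      rw [if_neg h1]
    rw [h2]
    exact (pLA_unit S _ s).1

theorem recGA (S : Finset ℕ) : ∃ C x0 : ℝ, 0 ≤ C ∧ 100 ≤ x0 ∧ ∀ x : ℝ, x0 ≤ x → ∀ (T : ℤ) (i : ℕ),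
    (i : ℝ) ^ 2 ≤ x / 10 →
    DD i (pGA S T) x ≤ ∑ A ∈ win (1 / 10) ⌊x / 5⌋₊, rho ⌊x / 5⌋₊ A *
      DD (i1 ⌊x / 5⌋₊) (pGA S (T - ⌊x / 5⌋₊ - A)) (zz x ⌊x / 5⌋₊ A) + C * x ^ (-(1 / 4) : ℝ) := by
  obtain ⟨C, x0, hC, hx0, h⟩ := recS S
  refine ⟨C, x0, hC, hx0, fun x hx T i hi => ?_⟩
  obtain ⟨hK1, hK2, hiK⟩ := floor_bounds (hx0.trans hx) hi
  refine h x hx ⌊x / 5⌋₊ i hK1 hK2 hiK (pGA S T) (fun A => pGA S (T - ⌊x / 5⌋₊ - A)) (pGA_unit S T)
    (fun A => pGA_unit S _) ?_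
  intro s n hs w hw had hn
  obtain ⟨hcol, hle⟩ := pass hs hw had hn
  set K := ⌊x / 5⌋₊
  by_cases h1 : (∃ k : ℕ, col^[k] n ∈ S) ∧ ∀ k : ℕ, col^[k] n ∈ S → T < k
  · obtain ⟨⟨k, hk1⟩, hall⟩ := h1
    rcases le_total k (K + w.sum) with h3 | h3
    · exact Or.inr (early hcol hk1 h3 hle)
    · left
      have h2 : pGA S (T - K - (w.sum : ℕ)) s = 1 := by
        unfold pGA
        rw [if_pos]
        refine ⟨⟨k - (K + w.sum), late hcol hk1 h3⟩, fun j hj => ?_⟩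
        have h4 : col^[j + (K + w.sum)] n ∈ S := by
          rw [Function.iterate_add_apply, hcol]; exact hj
        have h5 := hall _ h4
        rw [Nat.cast_add, Nat.cast_add] at h5
        linarith
      rw [h2]
      exact (pGA_unit S T n).2
  · left
    have h2 : pGA S T n = 0 := by
      unfold pGA
      rw [if_neg h1]
    rw [h2]
    exact (pGA_unit S _ s).1

end Pool.Agent.Lib.MP_e43fce_nt_nat
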