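import Pool.Agent.Lib.MP_e43fce_nt_nat.GREN
import Pool.Agent.Lib.MP_e43fce_nt_nat.CLTF

/-! KL3, hitting times of finite sets: base cases of the two families. -/

set_option autoImplicit false

namespace Pool.Agent.Lib.MP_e43fce_nt_nat

open Finset Filter Topology

namespace GRENb

theorem max_timeA (S : Finset ℕ) (N : ℕ) : ∃ L : ℕ, ∀ n : ℕ, n ≤ N → n ∈ preA S →
    ∃ k : ℕ, k ≤ L ∧ col^[k] n ∈ S := by
  induction N with
  | zero =>
    by_cases h : (0 : ℕ) ∈ preA S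
    · obtain ⟨k, hk⟩ := h
      refine ⟨k, fun n hn _ => ⟨k, le_rfl, ?_⟩⟩
      have : n = 0 := by omega
      rwa [this]
    · refine ⟨0, fun n hn hn' => ?_⟩
      have : n = 0 := by omega
      exact absurd (this ▸ hn') h
  | succ N ih =>
    obtain ⟨L, hL⟩ := ih
    by_cases h : (N + 1) ∈ preA S
    · obtain ⟨k, hk⟩ := h
      refine ⟨max L k, fun n hn hn' => ?_⟩
      rcases Nat.lt_or_ge n (N + 1) with h1 | h1
      · obtain ⟨j, hj, hj'⟩ := hL n (by omega) hn'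
        exact ⟨j, hj.trans (le_max_left _ _), hj'⟩
      · have : n = N + 1 := by omega
        exact ⟨k, le_max_right _ _, by rwa [this]⟩
    · refine ⟨L, fun n hn hn' => ?_⟩
      rcases Nat.lt_or_ge n (N + 1) with h1 | h1
      · exact hL n (by omega) hn'
      · have : n = N + 1 := by omega
        exact absurd (this ▸ hn') h

end GRENb

/-- base case, family L -/
theorem baseLA (S : Finset ℕ) {d : ℝ} (hd : Tendsto (DD 0 (ind (preA S))) atTop (𝓝 d)) {η : ℝ}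
    (hη : 0 < η) :
    ∃ x1 : ℝ, ∀ x : ℝ, x1 ≤ x → ∀ (T : ℤ) (i : ℕ), (i : ℝ) ^ 2 ≤ x / 10 →
      DD i (pLA S T) x ≤ (d + η) * (if 0 ≤ T then 1 else 0) := by
  obtain ⟨x1, h1⟩ := base_densA S hd hη
  refine ⟨x1, fun x hx T i hi => ?_⟩
  by_cases hT : 0 ≤ T
  · rw [if_pos hT, mul_one]
    refine le_trans (DD_mono (fun n => ?_) x) (h1 x hx i hi)
    have := pLA_add_pGA S T n
    have h2 := (pGA_unit S T n).1
    linarith
  · rw [if_neg hT, mul_zero]
    refine (DD_zero (fun n _ => ?_)).le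
    unfold pLA
    rw [if_neg]
    rintro ⟨k, hk, -⟩
    omega

/-- base case, family G -/
theorem baseGA (S : Finset ℕ) {d : ℝ} (hd : Tendsto (DD 0 (ind (preA S))) atTop (𝓝 d)) {η : ℝ}
    (hη : 0 < η) :
    ∃ x1 : ℝ, ∀ Y : ℝ, ∃ L : ℕ, ∀ x : ℝ, x1 ≤ x → x ≤ Y → ∀ (T : ℤ) (i : ℕ), (i : ℝ) ^ 2 ≤ x / 10 →
      DD i (pGA S T) x ≤ (d + η) * (if T < L then 1 else 0) := by
  obtain ⟨x1, h1⟩ := base_densA S hd hη
  refine ⟨x1, fun Y => ?_⟩
  obtain ⟨L, hL⟩ := GRENb.max_timeA S ⌊Real.exp Y⌋₊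
  refine ⟨L, fun x hx hxY T i hi => ?_⟩
  by_cases hT : T < L
  · rw [if_pos hT, mul_one]
    refine le_trans (DD_mono (fun n => ?_) x) (h1 x hx i hi)
    have := pLA_add_pGA S T n
    have h2 := (pLA_unit S T n).1
    linarith
  · rw [if_neg hT, mul_zero]
    refine (DD_zero (fun n hn => ?_)).le
    unfold pGA
    rw [if_neg]
    rintro ⟨h2, h3⟩
    have h4 : n ≤ ⌊Real.exp Y⌋₊ := Nat.le_floor (hn.trans (Real.exp_le_exp.2 hxY))
    obtain ⟨k, hk, hk1⟩ := hL n h4 h2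
    have := h3 k hk1
    omega

end Pool.Agent.Lib.MP_e43fce_nt_nat
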