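import Pool.Agent.Lib.MP_e43fce_nt_nat.CLTO
import Pool.Agent.Lib.MP_e43fce_nt_nat.GF
import Pool.Agent.Lib.MP_e43fce_nt_nat.GRENb

/-! KL3, hitting times of finite sets: CLT over the odd numbers. -/

set_option autoImplicit false

namespace Pool.Agent.Lib.MP_e43fce_nt_nat

open Finset Filter Topology MeasureTheory ProbabilityTheory

namespace GO

open CLTO

theorem upLA (S : Finset ℕ) {d : ℝ} (hd : Tendsto (DD 0 (ind (preA S))) atTop (𝓝 d)) (hd0 : 0 ≤ d) (hd1 : d ≤ 1)
    (y : ℝ) {ε : ℝ} (hε : 0 < ε) : ∀ᶠ x : ℝ in atTop,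
      DD 0 (pLA S ⌊3 / Real.log (4 / 3) * x + y * sgm * Real.sqrt x⌋) x ≤ d * Phi y + ε := by
  have hc1 := T5.log43_lo
  obtain ⟨M, L, hM, hL, hs, hlip, hz, ho, hmono, hcont⟩ := stp_test
  -- choice of e
  have h1 : Tendsto (fun e : ℝ => Phi (y + e)) (𝓝[>] 0) (𝓝 (Phi (y + 0))) := by
    apply Tendsto.mono_left _ nhdsWithin_le_nhds
    exact (Phi_continuous.comp (continuous_const.add continuous_id)).tendsto 0
  rw [add_zero] at h1
  obtain ⟨e, he1, he0⟩ := ((h1.eventually_le_const (show Phi y < Phi y + ε / 2 by linarith)).and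
    self_mem_nhdsWithin).exists
  have he0' : 0 < e := he0
  obtain ⟨hg, hgL⟩ := TestFn_scale he0' hL hs hlip (1 / e)
  have h2 := upper_gen hd0 hd1 (recLA S) (by positivity) hg (by fun_prop) hgL
    (by
      intro η hη
      obtain ⟨x1, hx1⟩ := baseLA S hd hη
      refine ⟨x1, fun Y => ⟨3 / Real.log (4 / 3) * Y, ?_⟩⟩
      intro x hx hxY T i hi w hw
      refine (hx1 x hx T i hi).trans ?_
      apply mul_le_mul_of_nonneg_left _ (by linarith)
      split_ifs with hT
      · have hT' : (0 : ℝ) ≤ T := by exact_mod_cast hT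
        have h3 : 0 ≤ 3 / Real.log (4 / 3) * (Y - x) :=
          mul_nonneg (div_nonneg (by norm_num) (by linarith)) (by linarith)
        have h4 : 0 ≤ ((T : ℝ) - 3 / Real.log (4 / 3) * x + 3 / Real.log (4 / 3) * Y) / w := by
          apply div_nonneg _ hw.le
          nlinarith
        rw [ho]
        have : 0 ≤ 1 / e * (((T : ℝ) - 3 / Real.log (4 / 3) * x + 3 / Real.log (4 / 3) * Y) / w) := by
          positivity
        linarith
      · exact hg.nonneg _)
    y (show 0 < ε / 2 by linarith)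
  have h3 := (gauss_step he0' y).1
  have h4 : ∫ t, (fun t => stp (1 / e * t + 1)) (t + y) ∂(gaussianReal 0 1) ≤ Phi y + ε / 2 := by
    refine le_trans (le_of_eq ?_) (h3.trans he1)
    congr 1
    ext t
    simp only
    congr 1
    ring
  filter_upwards [h2] with x hx
  have h5 := mul_le_mul_of_nonneg_left h4 hd0
  have h6 : d * (ε / 2) ≤ 1 * (ε / 2) := mul_le_mul_of_nonneg_right hd1 (by linarith)
  nlinarith

theorem upGA (S : Finset ℕ) {d : ℝ} (hd : Tendsto (DD 0 (ind (preA S))) atTop (𝓝 d)) (hd0 : 0 ≤ d) (hd1 : d ≤ 1)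
    (y : ℝ) {ε : ℝ} (hε : 0 < ε) : ∀ᶠ x : ℝ in atTop,
      DD 0 (pGA S ⌊3 / Real.log (4 / 3) * x + y * sgm * Real.sqrt x⌋) x ≤ d * Phi (-y) + ε := by
  obtain ⟨M, L, hM, hL, hs, hlip, hz, ho, hmono, hcont⟩ := stp_test
  -- choice of e
  have h1 : Tendsto (fun e : ℝ => Phi (-y + e)) (𝓝[>] 0) (𝓝 (Phi (-y + 0))) := by
    apply Tendsto.mono_left _ nhdsWithin_le_nhds
    exact (Phi_continuous.comp (continuous_const.add continuous_id)).tendsto 0
  rw [add_zero] at h1
  obtain ⟨e, he1, he0⟩ := ((h1.eventually_le_const (show Phi (-y) < Phi (-y) + ε / 2 by linarith)).and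
    self_mem_nhdsWithin).exists
  have he0' : 0 < e := he0
  obtain ⟨hg, hgL⟩ := TestFn_scale he0' hL hs hlip (-(1 / e))
  have h2 := upper_gen hd0 hd1 (recGA S) (by positivity) hg (by fun_prop) hgL
    (by
      intro η hη
      obtain ⟨x1, hx1⟩ := baseGA S hd hη
      refine ⟨x1, fun Y => ?_⟩
      obtain ⟨Lm, hLm⟩ := hx1 Y
      refine ⟨-(Lm : ℝ), ?_⟩
      intro x hx hxY T i hi w hw
      refine (hLm x hx hxY T i hi).trans ?_
      apply mul_le_mul_of_nonneg_left _ (by linarith)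
      split_ifs with hT
      · have hT' : (T : ℝ) < Lm := by exact_mod_cast hT
        have hx0 : 0 ≤ x := by
          have : (0 : ℝ) ≤ (i : ℝ) ^ 2 := by positivity
          linarith
        have hc1 := T5.log43_lo
        have h3 : 0 ≤ 3 / Real.log (4 / 3) * x :=
          mul_nonneg (div_nonneg (by norm_num) (by linarith)) hx0
        have h4 : 0 ≤ 1 / e * ((-((T : ℝ) - 3 / Real.log (4 / 3) * x + -(Lm : ℝ))) / w) := by
          apply mul_nonneg (by positivity)
          apply div_nonneg _ hw.le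
          linarith
        rw [ho]
        have h5 : -(1 / e) * (((T : ℝ) - 3 / Real.log (4 / 3) * x + -(Lm : ℝ)) / w) =
            1 / e * ((-((T : ℝ) - 3 / Real.log (4 / 3) * x + -(Lm : ℝ))) / w) := by ring
        rw [h5]
        linarith
      · exact hg.nonneg _)
    y (show 0 < ε / 2 by linarith)
  have h3 := (gauss_step he0' y).2
  have h4 : ∫ t, (fun t => stp (-(1 / e) * t + 1)) (t + y) ∂(gaussianReal 0 1) ≤
      Phi (-y) + ε / 2 := by
    refine le_trans (le_of_eq ?_) (h3.trans he1)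
    congr 1
    ext t
    simp only
    congr 1
    ring
  filter_upwards [h2] with x hx
  have h5 := mul_le_mul_of_nonneg_left h4 hd0
  have h6 : d * (ε / 2) ≤ 1 * (ε / 2) := mul_le_mul_of_nonneg_right hd1 (by linarith)
  nlinarith

end GO

open CLTO GO in
theorem clt_oddA (S : Finset ℕ) {d : ℝ} (hd : Tendsto (DD 0 (ind (preA S))) atTop (𝓝 d)) (y : ℝ) :
    Tendsto (fun x : ℝ => DD 0 (pLA S ⌊3 / Real.log (4 / 3) * x + y * sgm * Real.sqrt x⌋) x) atTop
      (𝓝 (d * Phi y)) := by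
  have hu : Unit01 (ind (preA S)) := h34_ind_unitp (preA S)
  have hd0 : 0 ≤ d := ge_of_tendsto' hd (fun x => DD_nonneg hu x)
  have hd1 : d ≤ 1 := le_of_tendsto' hd (fun x => DD0_le_one hu x)
  have hsum : ∀ x : ℝ, ∀ T : ℤ, DD 0 (pLA S T) x + DD 0 (pGA S T) x = DD 0 (ind (preA S)) x := by
    intro x T
    rw [← DD_add]
    congr 1
    ext n
    exact pLA_add_pGA S T n
  rw [Metric.tendsto_nhds]
  intro ε hε
  have h1 := upLA S hd hd0 hd1 y (show 0 < ε / 3 by linarith)
  have h2 := upGA S hd hd0 hd1 y (show 0 < ε / 3 by linarith)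
  have h3 : ∀ᶠ x : ℝ in atTop, d - ε / 3 ≤ DD 0 (ind (preA S)) x :=
    hd.eventually_const_le (by linarith)
  have hΦ := Phi_neg y
  filter_upwards [h1, h2, h3] with x h1 h2 h3
  have h4 := hsum x ⌊3 / Real.log (4 / 3) * x + y * sgm * Real.sqrt x⌋
  have h5 : d * Phi y + d * Phi (-y) = d := by
    rw [← mul_add, hΦ, mul_one]
  rw [Real.dist_eq, abs_lt]
  constructor <;> linarith

end Pool.Agent.Lib.MP_e43fce_nt_nat
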