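import Pool.Agent.Lib.MP_e43fce_nt_nat.GA0
import Pool.Agent.Lib.MP_e43fce_nt_nat.GO
import Pool.Agent.Lib.MP_e43fce_nt_nat.ARen

/-! KL3, hitting times of finite sets: density and central limit theorem for all numbers. -/

set_option autoImplicit false

namespace Pool.Agent.Lib.MP_e43fce_nt_nat

open Finset Filter Topology MeasureTheory ProbabilityTheory

/-- `preA S` is almost invariant -/
theorem preA_ainv (S : Finset ℕ) : AInv S.card (preA S) := by
  refine ⟨S, le_rfl, ?_⟩
  intro n _ hnS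
  constructor
  · rintro ⟨k, hk⟩
    rcases Nat.eq_zero_or_pos k with h | h
    · subst h
      exact absurd hk hnS
    · refine ⟨k - 1, ?_⟩
      rw [← Function.iterate_succ_apply (f := col)]
      rwa [show (k - 1).succ = k by omega]
  · rintro ⟨k, hk⟩
    exact ⟨k + 1, by rwa [Function.iterate_succ_apply]⟩

/-- the density over the odd numbers exists, and all numbers have twice it -/
theorem preA_density (S : Finset ℕ) : ∃ d : ℝ, Tendsto (DD 0 (ind (preA S))) atTop (𝓝 d) ∧
    HasDens (preA S) (2 * d) := by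
  obtain ⟨C, x0, h⟩ := ren_of_ainv S.card
  obtain ⟨d, hd⟩ := soft_main (h (preA S) (preA_ainv S))
  exact ⟨d, hd, GA.dens_allA S hd⟩

theorem clt_allA (S : Finset ℕ) {d : ℝ} (hd : Tendsto (DD 0 (ind (preA S))) atTop (𝓝 d)) (y : ℝ) :
    HasDens {n : ℕ | ∃ k : ℕ, (k : ℝ) ≤ 3 / Real.log (4 / 3) * Real.log n +
      y * sgm * Real.sqrt (Real.log n) ∧ col^[k] n ∈ S} (2 * d * Phi y) :=
  GA.clt_allA_of S (fun y => clt_oddA S hd y) y

end Pool.Agent.Lib.MP_e43fce_nt_nat
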