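import Pool.Agent.Lib.MP_e43fce_nt_nat.GDefs
import Pool.Agent.Lib.MP_e43fce_nt_nat.CLTA0
import Pool.Agent.Lib.MP_e43fce_nt_nat.CLTFin

/-! KL3, hitting times of finite sets: from the odd numbers to all numbers. -/

set_option autoImplicit false

namespace Pool.Agent.Lib.MP_e43fce_nt_nat

open Finset Filter Topology MeasureTheory ProbabilityTheory

namespace GA

open CLTA

open Classical in
/-- `1` if `l_S(n) <= thr y (log n)` -/
noncomputable def pCA (S : Finset ℕ) (y : ℝ) (n : ℕ) : ℝ :=
  if ∃ k : ℕ, (k : ℝ) ≤ thr y (Real.log n) ∧ col^[k] n ∈ S then 1 else 0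

theorem pCA_unit (S : Finset ℕ) (y : ℝ) : Unit01 (pCA S y) := by
  intro n
  unfold pCA
  split_ifs <;> norm_num

theorem le_sup_id {S : Finset ℕ} {m : ℕ} (h : m ∈ S) : m ≤ S.sup id := Finset.le_sup (f := id) h

/-- hitting `S` from `2^j m` with `m` large -/
theorem hit_subA {S : Finset ℕ} {j k m : ℕ} (hm : S.sup id < m) (h : col^[k] (2 ^ j * m) ∈ S) :
    ∃ k' ≤ k, col^[k'] m ∈ S := by
  by_cases hk : j ≤ k
  · refine ⟨k - j, by omega, ?_⟩
    have e : k = (k - j) + j := by omega
    rw [e, Function.iterate_add_apply] at h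
    have h2 := h34_col_iter_lt 0 j m
    simp only [add_zero, pow_zero, one_mul] at h2
    rw [h2] at h
    exact h
  · exfalso
    push Not at hk
    have e : j = k + (j - k) := by omega
    rw [e, h34_col_iter_lt] at h
    have h1 := le_sup_id h
    have h2 : m ≤ 2 ^ (j - k) * m := Nat.le_mul_of_pos_left m (by positivity)
    omega

theorem hit_upA {S : Finset ℕ} {j m : ℕ} (h : m ∈ preA S) : 2 ^ j * m ∈ preA S := by
  obtain ⟨k, hk⟩ := h
  refine ⟨k + j, ?_⟩
  rw [Function.iterate_add_apply]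
  have h2 := h34_col_iter_lt 0 j m
  simp only [add_zero, pow_zero, one_mul] at h2
  rw [h2]
  exact hk

theorem ind_two_powA {S : Finset ℕ} {j m : ℕ} (hm : S.sup id < m) :
    ind (preA S) (2 ^ j * m) = ind (preA S) m := by
  apply h34_ind_congr
  constructor
  · rintro ⟨k, hk⟩
    obtain ⟨k', -, hk'⟩ := hit_subA hm hk
    exact ⟨k', hk'⟩
  · exact hit_upA

/-- finitely many values do not matter -/
theorem tendsto_of_large {p q : ℕ → ℝ} (hp : Unit01 p) (hq : Unit01 q) (M : ℕ)
    (h : ∀ m : ℕ, M < m → p m = q m) {d : ℝ} (hd : Tendsto (DD 0 q) atTop (𝓝 d)) :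
    Tendsto (DD 0 p) atTop (𝓝 d) := by
  have hz : Tendsto (fun x : ℝ => ((range (M + 1)).card : ℝ) * (3 ^ 0 / Real.exp x)) atTop (𝓝 0) := by
    have h1 : Tendsto (fun x : ℝ => Real.exp (-x)) atTop (𝓝 0) := Real.tendsto_exp_neg_atTop_nhds_zero
    have h2 := h1.const_mul ((range (M + 1)).card : ℝ)
    rw [mul_zero] at h2
    refine h2.congr (fun x => ?_)
    rw [Real.exp_neg, pow_zero, one_div]
  have key : ∀ p q : ℕ → ℝ, Unit01 p → Unit01 q → (∀ m : ℕ, M < m → p m = q m) → ∀ x : ℝ,
      DD 0 p x ≤ DD 0 q x + ((range (M + 1)).card : ℝ) * (3 ^ 0 / Real.exp x) := by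
    intro p q hp hq h x
    have h1 : DD 0 p x ≤ DD 0 (fun n => q n + (if n ∈ range (M + 1) then 1 else 0)) x := by
      apply h34_DD_mono_local
      intro n _
      by_cases hn : n ∈ range (M + 1)
      · rw [if_pos hn]
        linarith [(hp n).2, (hq n).1]
      · rw [if_neg hn, add_zero]
        rw [mem_range] at hn
        exact (h n (by omega)).le
    rw [DD_add] at h1
    have h2 := DD_finset 0 (range (M + 1)) x
    linarith
  have hlo : Tendsto (fun x => DD 0 q x - ((range (M + 1)).card : ℝ) * (3 ^ 0 / Real.exp x)) atTop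
      (𝓝 d) := by simpa using hd.sub hz
  have hhi : Tendsto (fun x => DD 0 q x + ((range (M + 1)).card : ℝ) * (3 ^ 0 / Real.exp x)) atTop
      (𝓝 d) := by simpa using hd.add hz
  refine tendsto_of_tendsto_of_tendsto_of_le_of_le hlo hhi (fun x => ?_) (fun x => ?_)
  · have := key q p hq hp (fun m hm => (h m hm).symm) x
    simp only
    linarith
  · exact key p q hp hq h x

theorem two_mul_tsum (v : ℝ) : ∑' j : ℕ, (1 / 2 : ℝ) ^ j * v = 2 * v := by
  rw [tsum_mul_right, tsum_geometric_two]

/-- all numbers: the density is twice the one over the odd numbers -/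
theorem dens_allA (S : Finset ℕ) {d : ℝ} (hd : Tendsto (DD 0 (ind (preA S))) atTop (𝓝 d)) :
    HasDens (preA S) (2 * d) := by
  rw [hasDens_iff_ind, ← two_mul_tsum]
  refine all_of_odd (ind (preA S)) (h34_ind_unit _) (fun _ => d) (fun j => ?_)
  exact tendsto_of_large (fun m => h34_ind_unit _ _) (h34_ind_unit _) (S.sup id)
    (fun m hm => ind_two_powA hm) hd

/-- one class `n = 2^j m` -/
theorem clt_jA (S : Finset ℕ) {d : ℝ}
    (hodd : ∀ y : ℝ, Tendsto (fun x : ℝ =>
      DD 0 (pLA S ⌊3 / Real.log (4 / 3) * x + y * sgm * Real.sqrt x⌋) x) atTop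
      (𝓝 (d * Phi y))) (y : ℝ) (j : ℕ) :
    Tendsto (DD 0 (fun m => pCA S y (2 ^ j * m))) atTop (𝓝 (d * Phi y)) := by
  rw [Metric.tendsto_atTop]
  intro ε hε
  have hcont : Continuous (fun t : ℝ => d * Phi t) := continuous_const.mul Phi_continuous
  obtain ⟨r, hr, hr2⟩ := Metric.continuous_iff.1 hcont y (ε / 4) (by linarith)
  set η : ℝ := r / 2 with hη
  have hη0 : 0 < η := by positivity
  have hp := hr2 (y + η) (by rw [Real.dist_eq]; simp only [add_sub_cancel_left]; rw [abs_of_pos hη0]; linarith)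
  have hm := hr2 (y - η) (by
    rw [Real.dist_eq]
    have : y - η - y = -η := by ring
    rw [this, abs_neg, abs_of_pos hη0]; linarith)
  rw [Real.dist_eq, abs_lt] at hp hm
  set b : ℝ := max 0 (-Real.log (ε / 4)) with hb
  have hb0 : 0 ≤ b := le_max_left _ _
  have hbe : Real.exp (-b) ≤ ε / 4 := by
    have h1 : -b ≤ Real.log (ε / 4) := by
      have := le_max_right 0 (-Real.log (ε / 4))
      linarith
    calc Real.exp (-b) ≤ Real.exp (Real.log (ε / 4)) := Real.exp_le_exp.2 h1
      _ = ε / 4 := Real.exp_log (by linarith)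
  have hl2 : 0 ≤ Real.log 2 := Real.log_nonneg (by norm_num)
  set B : ℝ := b + j * Real.log 2 with hB
  have hB0 : 0 ≤ B := by positivity
  set c0 : ℝ := 3 / Real.log (4 / 3) with hc0
  -- the conditions on x
  have hev : ∀ᶠ x : ℝ in atTop, j + (c0 + |y| * sgm) * B ≤ η * sgm * Real.sqrt x := by
    have ht : Tendsto (fun x : ℝ => η * sgm * Real.sqrt x) atTop atTop :=
      Real.tendsto_sqrt_atTop.const_mul_atTop (mul_pos hη0 sgm_pos)
    exact ht.eventually_ge_atTop _
  have hU := (Metric.tendsto_atTop.1 (hodd (y + η))) (ε / 4) (by linarith)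
  have hL := (Metric.tendsto_atTop.1 (hodd (y - η))) (ε / 4) (by linarith)
  obtain ⟨x1, hx1⟩ := hU
  obtain ⟨x2, hx2⟩ := hL
  obtain ⟨x3, hx3⟩ := eventually_atTop.1 hev
  refine ⟨max (max (max x1 x2) (max x3 (max 1 b))) (b + Real.log (S.sup id + 1)), fun x hx0 => ?_⟩
  have hx : max (max x1 x2) (max x3 (max 1 b)) ≤ x := le_trans (le_max_left _ _) hx0
  have hxf : b + Real.log (S.sup id + 1) ≤ x := le_trans (le_max_right _ _) hx0
  have hlarge : ∀ m : ℕ, ¬ (m : ℝ) ≤ Real.exp (x - b) → S.sup id < m := by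
    intro m hm1
    have h1 : Real.log ((S.sup id : ℕ) + 1) ≤ x - b := by linarith
    have h2 : ((S.sup id : ℕ) : ℝ) + 1 ≤ Real.exp (x - b) := by
      rwa [Real.log_le_iff_le_exp (by positivity)] at h1
    have h3 : ((S.sup id : ℕ) : ℝ) < m := by linarith [not_le.1 hm1]
    exact_mod_cast h3
  have hxa : x1 ≤ x := le_trans (le_trans (le_max_left _ _) (le_max_left _ _)) hx
  have hxb : x2 ≤ x := le_trans (le_trans (le_max_right _ _) (le_max_left _ _)) hx
  have hxc : x3 ≤ x := le_trans (le_trans (le_max_left _ _) (le_max_right _ _)) hx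
  have hxd : 1 ≤ x := le_trans (le_trans (le_trans (le_max_left _ _) (le_max_right _ _)) (le_max_right _ _)) hx
  have hxe : b ≤ x := le_trans (le_trans (le_trans (le_max_right _ _) (le_max_right _ _)) (le_max_right _ _)) hx
  have h1 := hx1 x hxa
  have h2 := hx2 x hxb
  have h3 := hx3 x hxc
  rw [Real.dist_eq, abs_lt] at h1 h2
  -- closeness of the thresholds
  have hnear : ∀ m : ℕ, 1 ≤ m → (m : ℝ) ≤ Real.exp x → ¬ (m : ℝ) ≤ Real.exp (x - b) →
      |thr y (Real.log ((2 ^ j * m : ℕ) : ℝ)) - thr y x| ≤ (c0 + |y| * sgm) * B := by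
    intro m hm1 hm2 hm3
    have hm0 : (0 : ℝ) < m := by exact_mod_cast hm1
    have hlog : Real.log ((2 ^ j * m : ℕ) : ℝ) = j * Real.log 2 + Real.log m := by
      push_cast
      rw [Real.log_mul (by positivity) (by positivity), Real.log_pow]
    have ha : Real.log m ≤ x := by
      rw [Real.log_le_iff_le_exp hm0]
      exact hm2
    have hb' : x - b < Real.log m := by
      rw [Real.lt_log_iff_exp_lt hm0]
      exact not_le.1 hm3
    rw [hlog]
    have hj0 : 0 ≤ (j : ℝ) * Real.log 2 := by positivity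
    apply thr_near hxd
    · linarith
    · rw [abs_le]
      constructor <;> linarith
  have hup : DD 0 (fun m => pCA S y (2 ^ j * m)) x ≤
      DD 0 (pLA S ⌊c0 * x + (y + η) * sgm * Real.sqrt x⌋) x + Real.exp (-b) := by
    have h4 : DD 0 (fun m => pCA S y (2 ^ j * m)) x ≤
        DD 0 (fun m => pLA S ⌊c0 * x + (y + η) * sgm * Real.sqrt x⌋ m +
          (if (m : ℝ) ≤ Real.exp (x - b) then (1 : ℝ) else 0)) x := by
      apply h34_DD_mono_local
      intro m hm
      unfold oddS at hm
      simp only [mem_filter, mem_Icc] at hm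
      have hm2 : (m : ℝ) ≤ Real.exp x := (Nat.le_floor_iff (Real.exp_pos x).le).1 hm.1.2
      have hnn : 0 ≤ pLA S ⌊c0 * x + (y + η) * sgm * Real.sqrt x⌋ m := by
        unfold pLA; split_ifs <;> norm_num
      by_cases hs : (m : ℝ) ≤ Real.exp (x - b)
      · rw [if_pos hs]
        have := (pCA_unit S y (2 ^ j * m)).2
        linarith
      · rw [if_neg hs, add_zero]
        unfold pCA
        split_ifs with hk
        · obtain ⟨k, hk1, hk2⟩ := hk
          obtain ⟨k', hk', hk3⟩ := hit_subA (hlarge m hs) hk2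
          unfold pLA
          rw [if_pos]
          refine ⟨k', ?_, hk3⟩
          rw [Int.le_floor]
          have h5 := hnear m hm.1.1 hm2 hs
          rw [abs_le] at h5
          have h6 : thr y x = c0 * x + y * sgm * Real.sqrt x := rfl
          have h7 : ((k' : ℕ) : ℝ) ≤ k := by exact_mod_cast hk'
          have hj0 : (0 : ℝ) ≤ j := Nat.cast_nonneg j
          push_cast
          push_cast at hk1 h5
          nlinarith [h5.2, h3, hk1]
        · exact hnn
    have h5 : DD 0 (fun m : ℕ => pLA S ⌊c0 * x + (y + η) * sgm * Real.sqrt x⌋ m +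
          (if (m : ℝ) ≤ Real.exp (x - b) then (1 : ℝ) else 0)) x =
        DD 0 (pLA S ⌊c0 * x + (y + η) * sgm * Real.sqrt x⌋) x +
        DD 0 (fun m : ℕ => if (m : ℝ) ≤ Real.exp (x - b) then (1 : ℝ) else 0) x := by
      rw [← DD_add]
    have h6 := DD_small x b
    linarith
  have hlo : DD 0 (pLA S ⌊c0 * x + (y - η) * sgm * Real.sqrt x⌋) x ≤
      DD 0 (fun m => pCA S y (2 ^ j * m)) x + Real.exp (-b) := by
    have h4 : DD 0 (pLA S ⌊c0 * x + (y - η) * sgm * Real.sqrt x⌋) x ≤
        DD 0 (fun m => pCA S y (2 ^ j * m) +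
          (if (m : ℝ) ≤ Real.exp (x - b) then (1 : ℝ) else 0)) x := by
      apply h34_DD_mono_local
      intro m hm
      unfold oddS at hm
      simp only [mem_filter, mem_Icc] at hm
      have hm2 : (m : ℝ) ≤ Real.exp x := (Nat.le_floor_iff (Real.exp_pos x).le).1 hm.1.2
      have hu : pLA S ⌊c0 * x + (y - η) * sgm * Real.sqrt x⌋ m ≤ 1 := by
        unfold pLA; split_ifs <;> norm_num
      by_cases hs : (m : ℝ) ≤ Real.exp (x - b)
      · rw [if_pos hs]
        have := (pCA_unit S y (2 ^ j * m)).1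
        linarith
      · rw [if_neg hs, add_zero]
        unfold pLA
        split_ifs with hk
        · obtain ⟨k, hk1, hk2⟩ := hk
          rw [Int.le_floor] at hk1
          push_cast at hk1
          unfold pCA
          rw [if_pos]
          refine ⟨k + j, ?_, ?_⟩
          · have h5 := hnear m hm.1.1 hm2 hs
            rw [abs_le] at h5
            have h6 : thr y x = c0 * x + y * sgm * Real.sqrt x := rfl
            push_cast
            push_cast at h5
            nlinarith [h5.1, h3, hk1]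
          · rw [Function.iterate_add_apply]
            have h2 := h34_col_iter_lt 0 j m
            simp only [add_zero, pow_zero, one_mul] at h2
            rw [h2]
            exact hk2
        · exact (pCA_unit S y (2 ^ j * m)).1
    have h5 : DD 0 (fun m : ℕ => pCA S y (2 ^ j * m) +
          (if (m : ℝ) ≤ Real.exp (x - b) then (1 : ℝ) else 0)) x =
        DD 0 (fun m => pCA S y (2 ^ j * m)) x +
        DD 0 (fun m : ℕ => if (m : ℝ) ≤ Real.exp (x - b) then (1 : ℝ) else 0) x := by
      rw [← DD_add]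
    have h6 := DD_small x b
    linarith
  rw [Real.dist_eq, abs_lt]
  constructor
  · linarith [h2.1, hm.1]
  · linarith [h1.2, hp.2]

/-- the CLT for all numbers from the one for odd numbers -/
theorem clt_allA_of (S : Finset ℕ) {d : ℝ}
    (hodd : ∀ y : ℝ, Tendsto (fun x : ℝ =>
      DD 0 (pLA S ⌊3 / Real.log (4 / 3) * x + y * sgm * Real.sqrt x⌋) x) atTop
      (𝓝 (d * Phi y))) (y : ℝ) :
    HasDens {n : ℕ | ∃ k : ℕ, (k : ℝ) ≤ 3 / Real.log (4 / 3) * Real.log n +
      y * sgm * Real.sqrt (Real.log n) ∧ col^[k] n ∈ S} (2 * d * Phi y) := by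
  have e : 2 * d * Phi y = 2 * (d * Phi y) := by ring
  rw [hasDens_iff_ind, e, ← two_mul_tsum]
  have h3 := all_of_odd (pCA S y) (pCA_unit S y) (fun _ => d * Phi y) (fun j => clt_jA S hodd y j)
  refine h3.congr (fun X => ?_)
  congr 1

end GA

end Pool.Agent.Lib.MP_e43fce_nt_nat
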