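import Pool.Agent.Lib.MP_e43fce_nt_nat.CLTDefs
import Pool.Agent.Lib.MP_e43fce_nt_nat.MMs

/-! KL3, hitting times of finite sets: definitions. -/

set_option autoImplicit false

namespace Pool.Agent.Lib.MP_e43fce_nt_nat

open Finset

/-- the numbers whose orbit meets the finite set `S` -/
def preA (S : Finset ℕ) : Set ℕ := {n | ∃ k : ℕ, col^[k] n ∈ S}

open Classical in
/-- `1` if `S` is hit within `T` steps -/
noncomputable def pLA (S : Finset ℕ) (T : ℤ) (n : ℕ) : ℝ :=
  if ∃ k : ℕ, (k : ℤ) ≤ T ∧ col^[k] n ∈ S then 1 else 0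

open Classical in
/-- `1` if `S` is hit, but not within `T` steps -/
noncomputable def pGA (S : Finset ℕ) (T : ℤ) (n : ℕ) : ℝ :=
  if (∃ k : ℕ, col^[k] n ∈ S) ∧ ∀ k : ℕ, col^[k] n ∈ S → T < k then 1 else 0

/-- the first `M` points of the orbits of the elements of `S` -/
def fwdA (S : Finset ℕ) (M : ℕ) : Finset ℕ := S.biUnion (fun a => (range M).image (fun j => col^[j] a))

theorem mem_fwdA {S : Finset ℕ} {M s : ℕ} : s ∈ fwdA S M ↔ ∃ a ∈ S, ∃ j < M, col^[j] a = s := by
  simp [fwdA]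

theorem card_fwdA (S : Finset ℕ) (M : ℕ) : (fwdA S M).card ≤ S.card * M := by
  refine card_biUnion_le.trans ?_
  refine (sum_le_card_nsmul _ _ M (fun a _ => ?_)).trans (by simp)
  exact card_image_le.trans (by simp)

/-- a finite set has small weighted density -/
theorem DD_finset (i : ℕ) (F : Finset ℕ) (x : ℝ) :
    DD i (fun n => if n ∈ F then 1 else 0) x ≤ F.card * (3 ^ i / Real.exp x) := by
  classical
  have hE := Real.exp_pos x
  unfold DD NN
  rw [← mul_div_assoc]
  refine div_le_div_of_nonneg_right ?_ hE.le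
  have h1 : ∑ n ∈ oddS (Real.exp x), (if n ∈ F then (1 : ℝ) else 0) * MM i n ≤
      ∑ n ∈ F, (3 : ℝ) ^ i := by
    simp only [ite_mul, one_mul, zero_mul]
    rw [← Finset.sum_filter]
    calc ∑ n ∈ (oddS (Real.exp x)).filter (fun n => n ∈ F), MM i n
        ≤ ∑ n ∈ (oddS (Real.exp x)).filter (fun n => n ∈ F), (3 : ℝ) ^ i :=
          Finset.sum_le_sum (fun n _ => MM_le i n)
      _ ≤ ∑ n ∈ F, (3 : ℝ) ^ i := by
          apply Finset.sum_le_sum_of_subset_of_nonneg
          · intro n hn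
            exact (Finset.mem_filter.1 hn).2
          · intro n _ _
            positivity
  refine h1.trans ?_
  rw [sum_const, nsmul_eq_mul]

theorem pLA_unit (S : Finset ℕ) (T : ℤ) : Unit01 (pLA S T) := by
  intro n
  unfold pLA
  split_ifs <;> norm_num

theorem pGA_unit (S : Finset ℕ) (T : ℤ) : Unit01 (pGA S T) := by
  intro n
  unfold pGA
  split_ifs <;> norm_num

theorem pLA_add_pGA (S : Finset ℕ) (T : ℤ) (n : ℕ) : pLA S T n + pGA S T n = ind (preA S) n := by
  unfold pLA pGA ind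
  by_cases hR : n ∈ preA S
  · have hR' : ∃ k : ℕ, col^[k] n ∈ S := hR
    rw [if_pos hR]
    by_cases h : ∃ k : ℕ, (k : ℤ) ≤ T ∧ col^[k] n ∈ S
    · rw [if_pos h, if_neg]
      · norm_num
      · rintro ⟨-, h2⟩
        obtain ⟨k, hk, hk1⟩ := h
        have := h2 k hk1
        omega
    · rw [if_neg h, if_pos]
      · norm_num
      · refine ⟨hR', fun k hk => ?_⟩
        by_contra hcon
        exact h ⟨k, by omega, hk⟩
  · rw [if_neg hR, if_neg, if_neg]
    · norm_num
    · rintro ⟨h, -⟩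
      exact hR h
    · rintro ⟨k, -, hk⟩
      exact hR ⟨k, hk⟩

end Pool.Agent.Lib.MP_e43fce_nt_nat
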