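import Pool.Agent.Lib.MP_e43fce_nt_nat.GO
import Pool.Agent.Lib.MP_e43fce_nt_nat.GA
import Pool.Agent.Lib.MP_e43fce_nt_nat.POS
import Pool.Agent.Lib.MP_e43fce_nt_nat.T1ALL

/-! KL3, hitting times of finite sets: final theorem. -/

set_option autoImplicit false

namespace Pool.Agent.Lib.MP_e43fce_nt_nat

open Finset Filter Topology MeasureTheory ProbabilityTheory

theorem cnt_filter' (S : Set ℕ) (X : ℕ) [DecidablePred (· ∈ S)] :
    cnt S X = (((Icc 1 X).filter (fun n => n ∈ S)).card : ℝ) := by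
  apply cnt_filter
  intro n
  simp only [Finset.mem_filter, Finset.mem_Icc]
  tauto

/-- hitting times of finite sets: densities, lower bounds and the central limit theorem -/
theorem hitting_law : ∃ c K : ℝ, 0 < c ∧ ∀ S : Finset ℕ, ∃ δ : ℝ, δ ≤ 1 ∧ HasDens (preA S) δ ∧
    (∀ a ∈ S, 0 < a → ¬ 3 ∣ a → c / a ≤ δ) ∧
    (∀ N : ℕ, 2 ≤ N → (∀ m : ℕ, 1 ≤ m → m ≤ N → m ∈ S) →
      1 - K * (Real.log N) ^ (-(1 / 4) : ℝ) ≤ δ) ∧
    ∀ y : ℝ, HasDens {n : ℕ | ∃ k : ℕ, (k : ℝ) ≤ 3 / Real.log (4 / 3) * Real.log n +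
      y * sgm * Real.sqrt (Real.log n) ∧ col^[k] n ∈ S} (δ * Phi y) := by
  classical
  obtain ⟨c, hc, hpos⟩ := pos_dens
  obtain ⟨C, hC, hT1⟩ := T1_all (e0 := 1) one_pos
  refine ⟨c, C, hc, fun S => ?_⟩
  obtain ⟨d, hd, hD⟩ := preA_density S
  refine ⟨2 * d, ?_, hD, ?_, ?_, fun y => clt_allA S hd y⟩
  · have h1 : HasDens Set.univ 1 := by
      unfold HasDens
      refine Tendsto.congr' ?_ (tendsto_const_nhds (x := (1 : ℝ)))
      filter_upwards [eventually_ge_atTop 1] with X hX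
      rw [cnt_univ, div_self]
      have : (1 : ℝ) ≤ X := by exact_mod_cast hX
      linarith
    exact hD.le h1 (fun n _ _ => Set.mem_univ n)
  · intro a haS ha h3
    obtain ⟨X0, hX0⟩ := hpos a ha h3
    refine HasDens.ge (S := {n | ∃ k : ℕ, col^[k] n = a}) (T := preA S) (X0 := X0) ?_ ?_ hD
    · intro X hX
      refine (hX0 X hX).trans (le_of_eq ?_)
      rw [cnt_filter]
      intro n
      simp only [Finset.mem_filter, Finset.mem_Icc, Set.mem_setOf_eq]
      tauto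
    · rintro n hn ⟨k, hk⟩
      exact ⟨k, by rw [hk]; exact haS⟩
  · intro N hN hS
    refine HasDens.ge (S := preA S) (T := preA S) (X0 := 1) ?_ (fun n _ h => h) hD
    intro X hX
    have h1 := hT1 N X hN hX
    have h2 : (X : ℝ) - cnt (preA S) X ≤ (((Icc 1 X).filter (fun n => ∀ k : ℕ,
        (k : ℝ) ≤ (3 / Real.log (4 / 3) + 1) * Real.log X + C → N < col^[k] n)).card : ℝ) := by
      rw [← cnt_compl, cnt_filter' (preA S)ᶜ X]
      apply Nat.cast_le.2
      apply card_le_card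
      intro n hn
      rw [mem_filter, mem_Icc] at hn ⊢
      refine ⟨hn.1, fun k _ => ?_⟩
      by_contra hcon
      push Not at hcon
      apply hn.2
      exact ⟨k, hS _ (iter_pos (by omega) k) hcon⟩
    have h3 : (1 - C * (Real.log N) ^ (-(1 / 4) : ℝ)) * X = X - C * (Real.log N) ^ (-(1 / 4) : ℝ) * X := by
      ring
    rw [h3]
    linarith

end Pool.Agent.Lib.MP_e43fce_nt_nat
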