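import Pool.Agent.Lib.MP_e43fce_nt_nat.ARen
import Pool.Agent.Lib.MP_e43fce_nt_nat.GF
import Pool.Agent.Lib.MP_e43fce_nt_nat.FUP

/-! KL3, hitting times of finite sets: base case (cf. REN.lean, CLTF.lean). -/

set_option autoImplicit false

namespace Pool.Agent.Lib.MP_e43fce_nt_nat

open Finset Filter Topology

theorem h34_preA_ainv (S : Finset ℕ) : AInv S.card (preA S) := by
  refine ⟨S, le_rfl, ?_⟩
  intro n _ hnS
  constructor
  · rintro ⟨k, hk⟩
    rcases Nat.eq_zero_or_pos k with h | h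
    · subst h
      exact absurd hk hnS
    · refine ⟨k - 1, ?_⟩
      rw [← Function.iterate_succ_apply (f := col)]
      rwa [show (k - 1).succ = k by omega]
  · rintro ⟨k, hk⟩
    exact ⟨k + 1, by rw [Function.iterate_succ_apply]; exact hk⟩

theorem depth_changeA (S : Finset ℕ) : ∃ C x1 : ℝ, 0 ≤ C ∧ 1 ≤ x1 ∧ ∀ x : ℝ, x1 ≤ x →
    ∀ K A : ℕ, x / 10 ≤ (K : ℝ) → (K : ℝ) ≤ 3 * x / 10 → A ∈ win (1 / 10) K →
      |DD (i1 K) (ind (preA S)) (zz x K A) - DD 0 (ind (preA S)) (zz x K A)| ≤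
        C * x ^ (-(1 / 4) : ℝ) := by
  obtain ⟨C, x1, hC, hx1, h⟩ := h34_depth_changeA S.card
  exact ⟨C, x1, hC, hx1, fun x hx K A h1 h2 hA => h (preA S) (h34_preA_ainv S) x hx K A h1 h2 hA⟩

theorem ren_preA (S : Finset ℕ) : ∃ C x0 : ℝ, Ren (DD 0 (ind (preA S))) C x0 := by
  obtain ⟨C, x0, h⟩ := ren_of_ainv S.card
  exact ⟨C, x0, h (preA S) (h34_preA_ainv S)⟩

/-- all depths, upper bound -/
theorem base_densA (S : Finset ℕ) {d : ℝ} (hd : Tendsto (DD 0 (ind (preA S))) atTop (𝓝 d)) {η : ℝ}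
    (hη : 0 < η) : ∃ x1 : ℝ, ∀ x : ℝ, x1 ≤ x → ∀ i : ℕ, (i : ℝ) ^ 2 ≤ x / 10 →
      DD i (ind (preA S)) x ≤ d + η := by
  obtain ⟨C, x0, hC, hx0, h⟩ := recS S
  obtain ⟨C1, x1, hC1, hx1, h1⟩ := depth_changeA S
  have hu := h34_ind_unitp (preA S)
  have hd0 : 0 ≤ d := ge_of_tendsto' hd (fun x => DD_nonneg hu x)
  obtain ⟨x2, hx2⟩ := Filter.eventually_atTop.1 (hd.eventually_lt_const (show d < d + η / 2 by linarith))
  have h3 : Tendsto (fun x : ℝ => (C1 + C) * x ^ (-(1 / 4) : ℝ)) atTop (𝓝 ((C1 + C) * 0)) :=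
    (tendsto_rpow_neg_atTop (by norm_num : (0 : ℝ) < 1 / 4)).const_mul _
  rw [mul_zero] at h3
  obtain ⟨x3, hx3⟩ := Filter.eventually_atTop.1 (h3.eventually_lt_const (show 0 < η / 2 by linarith))
  refine ⟨max (max x0 x1) (max (2 * x2) x3), fun x hx i hi => ?_⟩
  have hxx0 : x0 ≤ x := ((le_max_left _ _).trans (le_max_left _ _)).trans hx
  have hxx1 : x1 ≤ x := ((le_max_right _ _).trans (le_max_left _ _)).trans hx
  have hxx2 : 2 * x2 ≤ x := ((le_max_left _ _).trans (le_max_right _ _)).trans hx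
  have hxx3 : x3 ≤ x := ((le_max_right _ _).trans (le_max_right _ _)).trans hx
  have hx100 : 100 ≤ x := hx0.trans hxx0
  have hK2 : (⌊x / 5⌋₊ : ℝ) ≤ x / 5 := Nat.floor_le (by linarith)
  have hK1 : x / 5 - 1 ≤ (⌊x / 5⌋₊ : ℝ) := by
    have := Nat.lt_floor_add_one (x / 5)
    linarith
  set K := ⌊x / 5⌋₊ with hK
  have hiK : i ^ 2 ≤ K := by
    have : ((i : ℝ)) ^ 2 ≤ K := by linarith
    exact_mod_cast this
  have hrec := h x hxx0 K i (by linarith) (by linarith) hiK (ind (preA S)) (fun _ => ind (preA S))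
    hu (fun _ => hu) (by
    intro s n hs w hw had hn
    have hw' := (mem_words (3 * K) K w).1 (mem_filter.1 hw).1
    have hwin := h34_mem_win.1 (mem_filter.1 hw).2.1
    have hcol := nd_col hs (fun a ha => (hw'.2 a ha).1) had hn
    rw [hw'.1] at hcol
    by_cases hn' : n ∈ preA S
    · obtain ⟨k, hk⟩ := hn'
      rcases le_total (K + w.sum) k with h4 | h4
      · left
        have hs' : s ∈ preA S := by
          refine ⟨k - (K + w.sum), ?_⟩
          rw [← hcol, ← Function.iterate_add_apply, show k - (K + w.sum) + (K + w.sum) = k by omega]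
          exact hk
        have hn1 : n ∈ preA S := ⟨k, hk⟩
        show ind (preA S) n ≤ ind (preA S) s
        unfold ind
        rw [if_pos hn1, if_pos hs']
      · right
        rw [mem_fwdA]
        refine ⟨col^[k] n, hk, K + w.sum - k, by omega, ?_⟩
        rw [← Function.iterate_add_apply, show K + w.sum - k + k = K + w.sum by omega]
        exact hcol
    · left
      have h5 : ind (preA S) n = 0 := by
        unfold ind
        rw [if_neg hn']
      show ind (preA S) n ≤ ind (preA S) s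
      rw [h5]
      exact (hu s).1)
  have hx4 : 0 ≤ x ^ (-(1 / 4) : ℝ) := Real.rpow_nonneg (by linarith) _
  have hsum : ∑ A ∈ win (1 / 10) K, rho K A * DD (i1 K) (ind (preA S)) (zz x K A)
      ≤ d + η / 2 + C1 * x ^ (-(1 / 4) : ℝ) := by
    have h4 : ∀ A ∈ win (1 / 10) K, rho K A * DD (i1 K) (ind (preA S)) (zz x K A)
        ≤ rho K A * (d + η / 2 + C1 * x ^ (-(1 / 4) : ℝ)) := by
      intro A hA
      apply mul_le_mul_of_nonneg_left _ (rho_nonneg K A)
      have h5 := h1 x hxx1 K A (by linarith) (by linarith) hA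
      have hz := h34_zz_ge (x := x) (K := K) (by linarith) hA
      have h6 := hx2 (zz x K A) (by linarith)
      have h7 := (abs_le.1 h5).2
      linarith
    refine (Finset.sum_le_sum h4).trans ?_
    rw [← Finset.sum_mul]
    have h5 := h34_win_sum_le K
    have h6 : 0 ≤ d + η / 2 + C1 * x ^ (-(1 / 4) : ℝ) := by positivity
    calc (∑ A ∈ win (1 / 10) K, rho K A) * (d + η / 2 + C1 * x ^ (-(1 / 4) : ℝ))
        ≤ 1 * (d + η / 2 + C1 * x ^ (-(1 / 4) : ℝ)) := mul_le_mul_of_nonneg_right h5 h6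
      _ = _ := one_mul _
  have h8 := hx3 x hxx3
  have h9 : (C1 + C) * x ^ (-(1 / 4) : ℝ) = C1 * x ^ (-(1 / 4) : ℝ) + C * x ^ (-(1 / 4) : ℝ) := by ring
  linarith

end Pool.Agent.Lib.MP_e43fce_nt_nat
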