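import Pool.Agent.Lib.MP_e43fce_nt_nat.GF

/-! KL3, descent times: the general step uniformly in the finite set. -/

set_option autoImplicit false

namespace Pool.Agent.Lib.MP_e43fce_nt_nat

open Finset Filter Topology

namespace HU

theorem fin_smallU {x : ℝ} (hx : 2 ≤ x) {K A : ℕ} (hK : (K : ℝ) ≤ 3 * x / 10)
    (hA : A ∈ win (1 / 10) K) {s : ℝ} (_hs0 : 0 ≤ s) (hs : s ≤ Real.exp (x / 20)) :
    s * (4 * (K : ℝ) + 1) * (3 ^ (i1 K) / Real.exp (zz x K A)) ≤ 440 * x ^ (-(1 / 4) : ℝ) := by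
  have h1 := REQaux.three_pow_le hK (REQaux.i1_sq K)
  have h2 := h34_zz_ge hK hA
  have h3 : (3 : ℝ) ^ (i1 K) / Real.exp (zz x K A) ≤ Real.exp (-(0.2 * x)) := by
    rw [div_le_iff₀ (Real.exp_pos _), ← Real.exp_add]
    refine h1.trans (Real.exp_le_exp.2 ?_)
    linarith
  have h4 : Real.exp (x / 20) * Real.exp (-(0.2 * x)) =
      Real.exp (-(x / 20)) * Real.exp (-(0.1 * x)) := by
    rw [← Real.exp_add, ← Real.exp_add]; congr 1; ring
  have h5 : x * Real.exp (-(x / 20)) ≤ 20 := by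
    rw [Real.exp_neg, ← div_eq_mul_inv, div_le_iff₀ (Real.exp_pos _)]
    have := Real.add_one_le_exp (x / 20)
    linarith
  have h6 : Real.exp (-(0.1 * x)) ≤ 10 * x ^ (-(1 / 4) : ℝ) := by
    have h7 := REQaux.exp_small (x := x / 2) (y := 0.1 * x) (by linarith) (by linarith)
    have h8 : (x / 2) ^ (-(1 / 4) : ℝ) ≤ 2 * x ^ (-(1 / 4) : ℝ) :=
      h34_rpow_scale (by linarith) (by linarith)
    linarith
  have h9 : 4 * (K : ℝ) + 1 ≤ 2.2 * x := by linarith
  have h10 : 0 < Real.exp (-(0.1 * x)) := Real.exp_pos _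
  have hx4 : 0 ≤ x ^ (-(1 / 4) : ℝ) := Real.rpow_nonneg (by linarith) _
  calc s * (4 * (K : ℝ) + 1) * (3 ^ (i1 K) / Real.exp (zz x K A))
      ≤ Real.exp (x / 20) * (2.2 * x) * Real.exp (-(0.2 * x)) := by
        apply mul_le_mul _ h3 (by positivity) (by positivity)
        exact mul_le_mul hs h9 (by positivity) (Real.exp_pos _).le
    _ = 2.2 * x * (Real.exp (x / 20) * Real.exp (-(0.2 * x))) := by ring
    _ = 2.2 * (x * Real.exp (-(x / 20))) * Real.exp (-(0.1 * x)) := by rw [h4]; ring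
    _ ≤ 2.2 * 20 * (10 * x ^ (-(1 / 4) : ℝ)) := by
        apply mul_le_mul _ h6 h10.le (by norm_num)
        linarith
    _ = 440 * x ^ (-(1 / 4) : ℝ) := by ring

end HU

open HU in
/-- general step, uniformly in `S` -/
theorem recSU : ∃ C x0 : ℝ, 0 ≤ C ∧ 100 ≤ x0 ∧ ∀ (S : Finset ℕ) (x : ℝ), x0 ≤ x →
    (S.card : ℝ) ≤ Real.exp (x / 20) → ∀ K i : ℕ,
    x / 10 ≤ (K : ℝ) → (K : ℝ) ≤ 3 * x / 10 → i ^ 2 ≤ K →
    ∀ (p : ℕ → ℝ) (q : ℕ → ℕ → ℝ), Unit01 p → (∀ A, Unit01 (q A)) →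
    (∀ s n : ℕ, s % 2 = 1 → ∀ w ∈ Good (1 / 10) K, adm s w → nd s w = (n : ℤ) →
      p n ≤ q w.sum s ∨ s ∈ fwdA S (4 * K + 1)) →
    DD i p x ≤ ∑ A ∈ win (1 / 10) K, rho K A * DD (i1 K) (q A) (zz x K A) +
      C * x ^ (-(1 / 4) : ℝ) := by
  obtain ⟨C, x1, hC, hx1, hR⟩ := lemR (e := 1 / 10) (by norm_num) le_rfl
  refine ⟨C + 440, max x1 100, by positivity, le_max_right _ _, ?_⟩
  intro S x hx hSx K i hK1 hK2 hi p q hp hq hyp
  have hxx1 : x1 ≤ x := (le_max_left _ _).trans hx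
  have hx100 : 100 ≤ x := (le_max_right _ _).trans hx
  set F := fwdA S (4 * K + 1) with hF
  have hq' : ∀ A, Unit01 (fun s => max (q A s) (if s ∈ F then 1 else 0)) := by
    intro A s
    have h := hq A s
    dsimp only
    split_ifs
    · exact ⟨le_max_of_le_left h.1, max_le h.2 le_rfl⟩
    · exact ⟨le_max_of_le_left h.1, max_le h.2 zero_le_one⟩
  have hR' := hR x hxx1 K i hK1 hK2 hi p
    (fun A s => max (q A s) (if s ∈ F then 1 else 0)) hp hq' (by
      intro s n hs w hw had hn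
      dsimp only
      rcases hyp s n hs w hw had hn with h | h
      · exact h.trans (le_max_left _ _)
      · rw [if_pos h]
        exact (hp n).2.trans (le_max_right _ _))
  have hx4 : 0 ≤ x ^ (-(1 / 4) : ℝ) := Real.rpow_nonneg (by linarith) _
  have hcard : (F.card : ℝ) ≤ S.card * (4 * (K : ℝ) + 1) := by
    have h := card_fwdA S (4 * K + 1)
    rw [← hF] at h
    have h' : (F.card : ℝ) ≤ ((S.card * (4 * K + 1) : ℕ) : ℝ) := by exact_mod_cast h
    push_cast at h'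
    exact h'
  have hsum : ∑ A ∈ win (1 / 10) K, rho K A *
        DD (i1 K) (fun s => max (q A s) (if s ∈ F then 1 else 0)) (zz x K A)
      ≤ ∑ A ∈ win (1 / 10) K, rho K A * DD (i1 K) (q A) (zz x K A) +
        440 * x ^ (-(1 / 4) : ℝ) := by
    have h1 : ∀ A ∈ win (1 / 10) K, rho K A *
        DD (i1 K) (fun s => max (q A s) (if s ∈ F then 1 else 0)) (zz x K A)
        ≤ rho K A * DD (i1 K) (q A) (zz x K A) +
          rho K A * (440 * x ^ (-(1 / 4) : ℝ)) := by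
      intro A hA
      rw [← mul_add]
      apply mul_le_mul_of_nonneg_left _ (rho_nonneg K A)
      have h2 : DD (i1 K) (fun s => max (q A s) (if s ∈ F then 1 else 0)) (zz x K A)
          ≤ DD (i1 K) (fun s => q A s + (if s ∈ F then 1 else 0)) (zz x K A) := by
        apply DD_mono
        intro s
        have h := hq A s
        apply max_le
        · split_ifs <;> linarith
        · linarith [h.1]
      rw [DD_add] at h2
      have h3 := DD_finset (i1 K) F (zz x K A)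
      have h4 := fin_smallU (by linarith) hK2 hA (Nat.cast_nonneg S.card) hSx
      have h5 : (F.card : ℝ) * (3 ^ (i1 K) / Real.exp (zz x K A)) ≤
          440 * x ^ (-(1 / 4) : ℝ) :=
        (mul_le_mul_of_nonneg_right hcard (by positivity)).trans h4
      linarith
    refine (Finset.sum_le_sum h1).trans ?_
    rw [Finset.sum_add_distrib, ← Finset.sum_mul]
    have h5 := h34_win_sum_le K
    have h6 : (∑ A ∈ win (1 / 10) K, rho K A) * (440 * x ^ (-(1 / 4) : ℝ)) ≤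
        1 * (440 * x ^ (-(1 / 4) : ℝ)) :=
      mul_le_mul_of_nonneg_right h5 (by positivity)
    linarith
  calc DD i p x ≤ _ := hR'
    _ ≤ (∑ A ∈ win (1 / 10) K, rho K A * DD (i1 K) (q A) (zz x K A) +
        440 * x ^ (-(1 / 4) : ℝ)) + C * x ^ (-(1 / 4) : ℝ) := add_le_add hsum le_rfl
    _ = _ := by ring

open GFaux in
theorem recLU : ∃ C x0 : ℝ, 0 ≤ C ∧ 100 ≤ x0 ∧ ∀ (S : Finset ℕ) (x : ℝ), x0 ≤ x →
    (S.card : ℝ) ≤ Real.exp (x / 20) → ∀ (T : ℤ) (i : ℕ), (i : ℝ) ^ 2 ≤ x / 10 →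
    DD i (pLA S T) x ≤ ∑ A ∈ win (1 / 10) ⌊x / 5⌋₊, rho ⌊x / 5⌋₊ A *
      DD (i1 ⌊x / 5⌋₊) (pLA S (T - ⌊x / 5⌋₊ - A)) (zz x ⌊x / 5⌋₊ A) + C * x ^ (-(1 / 4) : ℝ) := by
  obtain ⟨C, x0, hC, hx0, h⟩ := recSU
  refine ⟨C, x0, hC, hx0, fun S x hx hSx T i hi => ?_⟩
  obtain ⟨hK1, hK2, hiK⟩ := floor_bounds (hx0.trans hx) hi
  refine h S x hx hSx ⌊x / 5⌋₊ i hK1 hK2 hiK (pLA S T) (fun A => pLA S (T - ⌊x / 5⌋₊ - A))
    (pLA_unit S T) (fun A => pLA_unit S _) ?_
  intro s n hs w hw had hn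
  obtain ⟨hcol, hle⟩ := pass hs hw had hn
  set K := ⌊x / 5⌋₊
  by_cases h1 : ∃ k : ℕ, (k : ℤ) ≤ T ∧ col^[k] n ∈ S
  · obtain ⟨k, hk, hk1⟩ := h1
    rcases le_total k (K + w.sum) with h3 | h3
    · exact Or.inr (early hcol hk1 h3 hle)
    · left
      have h2 : pLA S (T - K - (w.sum : ℕ)) s = 1 := by
        unfold pLA
        rw [if_pos]
        refine ⟨k - (K + w.sum), ?_, late hcol hk1 h3⟩
        push_cast [Nat.cast_sub h3]
        linarith
      rw [h2]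
      exact (pLA_unit S T n).2
  · left
    have h2 : pLA S T n = 0 := by
      unfold pLA
      rw [if_neg h1]
    rw [h2]
    exact (pLA_unit S _ s).1

/-- base case, uniformly in `S` -/
theorem baseLU {η : ℝ} (hη : 0 < η) : ∃ x1 : ℝ, ∀ (S : Finset ℕ) (x : ℝ), x1 ≤ x →
    ∀ (T : ℤ) (i : ℕ), (i : ℝ) ^ 2 ≤ x / 10 →
      DD i (pLA S T) x ≤ (1 / 2 + η) * (if 0 ≤ T then 1 else 0) := by
  have h3 : Tendsto (fun x : ℝ => Real.exp (-(0.5 * x))) atTop (𝓝 0) := by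
    have h4 : Tendsto (fun x : ℝ => 0.5 * x) atTop atTop :=
      tendsto_id.const_mul_atTop (by norm_num)
    exact Real.tendsto_exp_neg_atTop_nhds_zero.comp h4
  obtain ⟨x3, hx3⟩ := Filter.eventually_atTop.1 (h3.eventually_lt_const hη)
  refine ⟨max x3 10, fun S x hx T i hi => ?_⟩
  have hxx3 : x3 ≤ x := (le_max_left _ _).trans hx
  have hx10 : 10 ≤ x := (le_max_right _ _).trans hx
  by_cases hT : 0 ≤ T
  · rw [if_pos hT, mul_one]
    refine (DD_mono (fun n => (pLA_unit S T n).2) x).trans ?_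
    have h1 := (abs_le.1 (DD_one i x (by linarith))).2
    have h2 := mm_le_one i
    have hi1 : (i : ℝ) ≤ x / 10 := by
      by_contra hcon
      push Not at hcon
      nlinarith
    have h4 : (3 : ℝ) ^ i / Real.exp x ≤ Real.exp (-(0.5 * x)) := by
      rw [div_le_iff₀ (Real.exp_pos _), ← Real.exp_add]
      have h5 : (3 : ℝ) ≤ Real.exp 2 := by
        have := Real.add_one_le_exp (2 : ℝ)
        linarith
      calc (3 : ℝ) ^ i ≤ (Real.exp 2) ^ i := pow_le_pow_left₀ (by norm_num) h5 i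
        _ = Real.exp (i * 2) := by rw [← Real.exp_nat_mul]
        _ ≤ Real.exp (-(0.5 * x) + x) := by
          apply Real.exp_le_exp.2
          linarith
    have h5 := hx3 x hxx3
    linarith
  · rw [if_neg hT, mul_zero]
    refine (DD_zero (fun n _ => ?_)).le
    unfold pLA
    rw [if_neg]
    rintro ⟨k, hk, -⟩
    omega

end Pool.Agent.Lib.MP_e43fce_nt_nat
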