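import Pool.Agent.Lib.MP_e43fce_nt_nat.CLTO
import Pool.Agent.Lib.MP_e43fce_nt_nat.CLTI2
import Pool.Agent.Lib.MP_e43fce_nt_nat.HU

/-! KL3, descent times: upper bound for the odd numbers, uniformly in the finite set. -/

set_option autoImplicit false

namespace Pool.Agent.Lib.MP_e43fce_nt_nat

open Finset Filter Topology MeasureTheory ProbabilityTheory

namespace HO

open CLTO

/-- the lower height -/
noncomputable def Yx (b x : ℝ) : ℝ := b * Real.sqrt x

theorem Yx_tendsto {b : ℝ} (hb : 0 < b) : Tendsto (Yx b) atTop atTop :=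
  Real.tendsto_sqrt_atTop.const_mul_atTop hb

theorem NY_div_tendsto2 {b : ℝ} (_hb : 0 < b) :
    Tendsto (fun x : ℝ => (NY (Yx b x) x : ℝ) / x) atTop (𝓝 (1 / Real.log (4 / 3))) := by
  have hc1 := T5.log43_lo
  have hc0 : 0 < Real.log (4 / 3) := by linarith
  have h0 : Tendsto (fun x : ℝ => b / Real.sqrt x) atTop (𝓝 0) :=
    tendsto_const_nhds.div_atTop Real.tendsto_sqrt_atTop
  have h1 : Tendsto (fun x : ℝ => (1 - b / Real.sqrt x) / Real.log (4 / 3)) atTop
      (𝓝 (1 / Real.log (4 / 3))) := by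
    have h2 := (tendsto_const_nhds (x := (1 : ℝ)).sub h0).div_const (Real.log (4 / 3))
    simpa using h2
  have h2 : Tendsto (fun x : ℝ => (1 : ℝ) / x) atTop (𝓝 0) :=
    tendsto_const_nhds.div_atTop tendsto_id
  have h3 := h1.sub h2
  rw [sub_zero] at h3
  refine tendsto_of_tendsto_of_tendsto_of_le_of_le' h3 h1 ?_ ?_
  · filter_upwards [eventually_gt_atTop 0] with x hx
    have hs : 0 < Real.sqrt x := Real.sqrt_pos.2 hx
    have hss : Real.sqrt x * Real.sqrt x = x := Real.mul_self_sqrt hx.le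
    have h4 : (x - Yx b x) / Real.log (4 / 3) < (NY (Yx b x) x : ℝ) + 1 := Nat.lt_floor_add_one _
    have h5 : (1 - b / Real.sqrt x) / Real.log (4 / 3) - 1 / x =
        ((x - Yx b x) / Real.log (4 / 3) - 1) / x := by
      unfold Yx
      have h6 : b / Real.sqrt x = b * Real.sqrt x / x := by
        rw [div_eq_div_iff hs.ne' hx.ne', mul_assoc, hss]
      rw [h6]
      field_simp
    rw [h5]
    apply div_le_div_of_nonneg_right _ hx.le
    linarith
  · filter_upwards [eventually_gt_atTop 0, eventually_ge_atTop (b ^ 2)] with x hx hxb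
    have hs : 0 < Real.sqrt x := Real.sqrt_pos.2 hx
    have hss : Real.sqrt x * Real.sqrt x = x := Real.mul_self_sqrt hx.le
    have hbs : b ≤ Real.sqrt x := by
      apply Real.le_sqrt_of_sq_le hxb
    have h4 : (NY (Yx b x) x : ℝ) ≤ (x - Yx b x) / Real.log (4 / 3) := by
      apply Nat.floor_le
      apply div_nonneg _ hc0.le
      unfold Yx
      nlinarith
    have h5 : (1 - b / Real.sqrt x) / Real.log (4 / 3) =
        ((x - Yx b x) / Real.log (4 / 3)) / x := by
      unfold Yx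
      have h6 : b / Real.sqrt x = b * Real.sqrt x / x := by
        rw [div_eq_div_iff hs.ne' hx.ne', mul_assoc, hss]
      rw [h6]
      field_simp
    rw [h5]
    exact div_le_div_of_nonneg_right h4 hx.le

theorem NY_tendsto2 {b : ℝ} (hb : 0 < b) : Tendsto (fun x => NY (Yx b x) x) atTop atTop := by
  have hc1 := T5.log43_lo
  have h1 := NY_div_tendsto2 hb
  have h2 : Tendsto (fun x : ℝ => (NY (Yx b x) x : ℝ)) atTop atTop := by
    have h3 := Filter.Tendsto.pos_mul_atTop (div_pos one_pos (show (0:ℝ) < Real.log (4 / 3) by linarith)) h1 tendsto_id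
    refine h3.congr' ?_
    filter_upwards [eventually_gt_atTop 0] with x hx
    simp only [id]
    field_simp
  exact tendsto_natCast_atTop_iff.1 h2

theorem sqrt_NY_tendsto2 {b : ℝ} (hb : 0 < b) :
    Tendsto (fun x : ℝ => Real.sqrt (2 * (NY (Yx b x) x : ℝ)) / Real.sqrt x) atTop
      (𝓝 (Real.sqrt (2 / Real.log (4 / 3)))) := by
  have h1 := (NY_div_tendsto2 hb).const_mul 2
  have h2 := (Real.continuous_sqrt.tendsto _).comp h1
  have h3 : 2 * (1 / Real.log (4 / 3)) = 2 / Real.log (4 / 3) := by ring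
  rw [h3] at h2
  refine h2.congr' ?_
  filter_upwards [eventually_gt_atTop 0] with x hx
  simp only [Function.comp]
  rw [← Real.sqrt_div (by positivity)]
  congr 1
  ring

/-- the shift `T(x) - c0 x + a sqrt x` in units of `kappa sqrt(2N)` -/
theorem shift_tendsto2 {b : ℝ} (hb : 0 < b) (y a : ℝ) :
    Tendsto (fun x : ℝ => (((⌊3 / Real.log (4 / 3) * x + y * sgm * Real.sqrt x⌋ : ℤ) : ℝ) -
      3 / Real.log (4 / 3) * x + a * Real.sqrt x) /
        (kap * Real.sqrt (2 * (NY (Yx b x) x : ℝ)))) atTop (𝓝 (y + a / sgm)) := by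
  have hκ := kap_pos
  have hσ := sgm_pos
  have h1 : Tendsto (fun x : ℝ => (((⌊3 / Real.log (4 / 3) * x + y * sgm * Real.sqrt x⌋ : ℤ) : ℝ) -
      3 / Real.log (4 / 3) * x + a * Real.sqrt x) / Real.sqrt x) atTop (𝓝 (y * sgm + a)) := by
    have h2 : Tendsto (fun x : ℝ => (1 : ℝ) / Real.sqrt x) atTop (𝓝 0) :=
      tendsto_const_nhds.div_atTop Real.tendsto_sqrt_atTop
    have h3 : Tendsto (fun x : ℝ => (((⌊3 / Real.log (4 / 3) * x + y * sgm * Real.sqrt x⌋ : ℤ) : ℝ) -
      3 / Real.log (4 / 3) * x + a * Real.sqrt x) / Real.sqrt x - (y * sgm + a)) atTop (𝓝 0) := by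
      refine squeeze_zero_norm' ?_ h2
      filter_upwards [eventually_gt_atTop 0] with x hx
      have hs : 0 < Real.sqrt x := Real.sqrt_pos.2 hx
      set v := 3 / Real.log (4 / 3) * x + y * sgm * Real.sqrt x with hv
      have h4 : (((⌊v⌋ : ℤ) : ℝ) - 3 / Real.log (4 / 3) * x + a * Real.sqrt x) / Real.sqrt x -
          (y * sgm + a) = (((⌊v⌋ : ℤ) : ℝ) - v) / Real.sqrt x := by
        rw [hv]
        field_simp
        ring
      rw [h4, norm_div, Real.norm_of_nonneg hs.le]
      apply div_le_div_of_nonneg_right _ hs.le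
      have h5 := Int.floor_le v
      have h6 := Int.lt_floor_add_one v
      rw [Real.norm_eq_abs, abs_le]
      constructor <;> linarith
    have h4 := h3.add_const (y * sgm + a)
    rw [zero_add] at h4
    refine h4.congr ?_
    intro x
    ring
  have h2 : Tendsto (fun x : ℝ => kap * Real.sqrt (2 * (NY (Yx b x) x : ℝ)) / Real.sqrt x) atTop
      (𝓝 sgm) := by
    have h3 := (sqrt_NY_tendsto2 hb).const_mul kap
    refine h3.congr ?_
    intro x
    ring
  have h3 := h1.div h2 hσ.ne'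
  have h4 : (y * sgm + a) / sgm = y + a / sgm := by field_simp
  rw [h4] at h3
  refine h3.congr' ?_
  filter_upwards [eventually_gt_atTop 0, (NY_tendsto2 hb).eventually_ge_atTop 1] with x hx hN
  have hs : 0 < Real.sqrt x := Real.sqrt_pos.2 hx
  have hN' : 0 < Real.sqrt (2 * (NY (Yx b x) x : ℝ)) := by
    apply Real.sqrt_pos.2
    have : (1 : ℝ) ≤ NY (Yx b x) x := by exact_mod_cast hN
    linarith
  simp only [Pi.div_apply]
  field_simp

/-- upper bound, uniformly in `S` -/
theorem upper_unif {g : ℝ → ℝ} {M L : ℝ} (hM : 0 ≤ M) (hg : TestFn g M) (hgc : Continuous g)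
    (hgL : ∀ s t, |g s - g t| ≤ L * |s - t|) (hg1 : ∀ s : ℝ, 0 ≤ s → g s = 1)
    (y : ℝ) {b ε : ℝ} (hb : 0 < b) (hε : 0 < ε) : ∀ᶠ x : ℝ in atTop, ∀ S : Finset ℕ,
      (S.card : ℝ) ≤ Real.exp (Yx b x / 20) →
      DD 0 (pLA S ⌊3 / Real.log (4 / 3) * x + y * sgm * Real.sqrt x⌋) x ≤
        1 / 2 * ∫ t, g (t + (y + 3 / Real.log (4 / 3) * b / sgm)) ∂(gaussianReal 0 1) + ε := by
  have hκ := kap_pos
  have hc1 := T5.log43_lo
  have hc2 := T5.log43_hi
  set c0 := 3 / Real.log (4 / 3) with hc0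
  have hc0pos : 0 < c0 := div_pos (by norm_num) (by linarith)
  obtain ⟨C, x0, hC, hx0, hrec⟩ := recLU
  obtain ⟨D, E0, hD, hE0, hind⟩ := clt_induction2 hC
  set η := min (ε / 8) 1 with hη
  have hη0 : 0 < η := lt_min (by linarith) one_pos
  have hη1 : η ≤ 1 := min_le_right _ _
  have hη8 : η ≤ ε / 8 := min_le_left _ _
  obtain ⟨x1, hx1⟩ := baseLU hη0
  set y' := y + c0 * b / sgm with hy'
  set I := ∫ t, g (t + y') ∂(gaussianReal 0 1) with hI
  have hI0 : 0 ≤ I := integral_nonneg (fun t => hg.nonneg _)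
  have hI1 : I ≤ 1 := by
    have h1 : I ≤ ∫ t, (1 : ℝ) ∂(gaussianReal 0 1) := by
      apply integral_mono_of_nonneg
      · exact Filter.Eventually.of_forall (fun t => hg.nonneg _)
      · exact integrable_const _
      · exact Filter.Eventually.of_forall (fun t => hg.le_one _)
    simpa using h1
  have hgabs : ∀ t, |g t| ≤ 1 := fun t => by
    rw [abs_of_nonneg (hg.nonneg t)]; exact hg.le_one t
  have hlim := lim_shift hgabs hgL hgc (NY_tendsto2 hb) (shift_tendsto2 hb y (c0 * b))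
  have hev1 : ∀ᶠ x : ℝ in atTop, ∑' A : ℕ, rho (NY (Yx b x) x) A *
      g (((A : ℝ) - 2 * (NY (Yx b x) x : ℝ)) / Real.sqrt (2 * (NY (Yx b x) x : ℝ)) +
        (((⌊c0 * x + y * sgm * Real.sqrt x⌋ : ℤ) : ℝ) -
      c0 * x + c0 * b * Real.sqrt x) / (kap * Real.sqrt (2 * (NY (Yx b x) x : ℝ)))) ≤
        I + ε / 4 :=
    hlim.eventually_le_const (by rw [← hI]; linarith)
  -- the error terms
  have hev2 : ∀ᶠ x : ℝ in atTop,
      E0 * Real.sqrt (Yx b x) * (M * (1 / (kap * Real.sqrt (2 * (NY (Yx b x) x : ℝ)))) ^ 2) *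
        Real.sqrt x ≤ ε / 8 := by
    have h0 : Tendsto (fun x : ℝ => Real.sqrt (Yx b x) / Real.sqrt x) atTop (𝓝 0) := by
      have h1 : Tendsto (fun x : ℝ => Yx b x / x) atTop (𝓝 0) := by
        have h2 : Tendsto (fun x : ℝ => b / Real.sqrt x) atTop (𝓝 0) :=
          tendsto_const_nhds.div_atTop Real.tendsto_sqrt_atTop
        refine h2.congr' ?_
        filter_upwards [eventually_gt_atTop 0] with x hx
        have hs : 0 < Real.sqrt x := Real.sqrt_pos.2 hx
        have hss : Real.sqrt x * Real.sqrt x = x := Real.mul_self_sqrt hx.le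
        unfold Yx
        rw [div_eq_div_iff hs.ne' hx.ne', mul_assoc, hss]
      have h2 := (Real.continuous_sqrt.tendsto _).comp h1
      rw [Real.sqrt_zero] at h2
      refine h2.congr' ?_
      filter_upwards [eventually_gt_atTop 0] with x hx
      simp only [Function.comp]
      rw [Real.sqrt_div (by unfold Yx; positivity)]
    have h1 : Tendsto (fun x : ℝ => E0 * M / (2 * kap ^ 2) * ((NY (Yx b x) x : ℝ) / x)⁻¹ *
        (Real.sqrt (Yx b x) / Real.sqrt x)) atTop
        (𝓝 (E0 * M / (2 * kap ^ 2) * (1 / Real.log (4 / 3))⁻¹ * 0)) := by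
      refine ((((NY_div_tendsto2 hb).inv₀ ?_).const_mul _).mul h0)
      have h2 : 0 < Real.log (4 / 3) := by linarith
      positivity
    rw [mul_zero] at h1
    have h2 := h1.eventually_le_const (show (0 : ℝ) < ε / 8 by linarith)
    filter_upwards [h2, eventually_gt_atTop 0, (NY_tendsto2 hb).eventually_ge_atTop 1]
      with x hx hx0 hN
    refine le_trans (le_of_eq ?_) hx
    have hN1 : (1 : ℝ) ≤ NY (Yx b x) x := by exact_mod_cast hN
    have hN0 : (0 : ℝ) < NY (Yx b x) x := by linarith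
    have hs : 0 < Real.sqrt x := Real.sqrt_pos.2 hx0
    have hsx : Real.sqrt x ^ 2 = x := Real.sq_sqrt hx0.le
    have hsN : Real.sqrt (2 * (NY (Yx b x) x : ℝ)) ^ 2 = 2 * (NY (Yx b x) x : ℝ) :=
      Real.sq_sqrt (by linarith)
    rw [div_pow, one_pow, mul_pow, hsN]
    field_simp
    rw [hsx]
  have hev3 : ∀ᶠ x : ℝ in atTop, D * (Yx b x) ^ (-(1 / 4) : ℝ) ≤ ε / 8 := by
    have h1 : Tendsto (fun Y : ℝ => D * Y ^ (-(1 / 4) : ℝ)) atTop (𝓝 (D * 0)) :=
      Tendsto.const_mul D (tendsto_rpow_neg_atTop (by norm_num))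
    rw [mul_zero] at h1
    exact (h1.comp (Yx_tendsto hb)).eventually_le_const (show (0 : ℝ) < ε / 8 by linarith)
  filter_upwards [hev1, hev2, hev3, eventually_ge_atTop (b ^ 2), eventually_gt_atTop 0,
    (Yx_tendsto hb).eventually_ge_atTop (max x0 (10 / 9 * x1)),
    (NY_tendsto2 hb).eventually_ge_atTop 1] with x h1 h2 h3 hxb hx00 hY hN
  intro S hS
  set Y := Yx b x with hYdef
  have hY0 : x0 ≤ Y := (le_max_left _ _).trans hY
  have hY1 : 10 / 9 * x1 ≤ Y := (le_max_right _ _).trans hY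
  have hYx : Y ≤ x := by
    have hbs : b ≤ Real.sqrt x := Real.le_sqrt_of_sq_le hxb
    have hss : Real.sqrt x * Real.sqrt x = x := Real.mul_self_sqrt hx00.le
    have hs : 0 ≤ Real.sqrt x := Real.sqrt_nonneg x
    rw [hYdef]
    unfold Yx
    nlinarith
  have hN1 : (1 : ℝ) ≤ NY Y x := by exact_mod_cast hN
  have hsN : 0 < Real.sqrt (2 * (NY Y x : ℝ)) := Real.sqrt_pos.2 (by linarith)
  set w := kap * Real.sqrt (2 * (NY Y x : ℝ)) with hw
  have hw0 : 0 < w := by rw [hw]; positivity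
  set T : ℤ := ⌊c0 * x + y * sgm * Real.sqrt x⌋ with hT
  set a := c0 * b * Real.sqrt x with ha
  have haY : a = c0 * Y := by rw [ha, hYdef]; unfold Yx; ring
  have hφ := hg.affine (1 / w) (a / w)
  have hB : 0 ≤ M * (1 / w) ^ 2 := by positivity
  have h4 := hind Y (by linarith) (fun i T x => DD i (pLA S T) x) (1 / 2 + η) (M * (1 / w) ^ 2)
    (fun t => g (1 / w * t + a / w)) (by linarith) (by linarith) hB hφ
    (fun x' hx' T' i hi => hrec S x' (by linarith)
      (hS.trans (Real.exp_le_exp.2 (by linarith))) T' i hi)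
    (fun x' hx' hx'' T' i hi => by
      have h5 := hx1 S x' (by linarith) T' i hi
      refine h5.trans ?_
      apply mul_le_mul_of_nonneg_left _ (by linarith)
      split_ifs with hT'
      · have hT'' : (0 : ℝ) ≤ T' := by exact_mod_cast hT'
        have h6 : 0 ≤ c0 * (Y - x') := mul_nonneg hc0pos.le (by linarith)
        have h7 : 1 / w * ((T' : ℝ) - c0 * x') + a / w = ((T' : ℝ) + c0 * (Y - x')) / w := by
          rw [haY]; ring
        rw [h7, hg1 _ (div_nonneg (by linarith) hw0.le)]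
      · exact hg.nonneg _) x hYx T 0 (by
        norm_num
        linarith)
  have h5 : UU kap (fun t => g (1 / w * t + a / w)) (NY Y x) ((T : ℝ) - c0 * x) =
      ∑' A : ℕ, rho (NY Y x) A *
      g (((A : ℝ) - 2 * (NY Y x : ℝ)) / Real.sqrt (2 * (NY Y x : ℝ)) +
        ((T : ℝ) - c0 * x + a) / w) := by
    unfold UU
    apply tsum_congr
    intro A
    have h6 : kap * ((A : ℝ) - 2 * (NY Y x : ℝ)) / w =
        ((A : ℝ) - 2 * (NY Y x : ℝ)) / Real.sqrt (2 * (NY Y x : ℝ)) := by
      rw [hw, mul_div_mul_left _ _ hκ.ne']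
    rw [← h6]
    congr 2
    ring_nf
  rw [h5] at h4
  set U := ∑' A : ℕ, rho (NY Y x) A *
      g (((A : ℝ) - 2 * (NY Y x : ℝ)) / Real.sqrt (2 * (NY Y x : ℝ)) +
        ((T : ℝ) - c0 * x + a) / w) with hU
  have h6 : (1 / 2 + η) * U ≤ (1 / 2 + η) * (I + ε / 4) := mul_le_mul_of_nonneg_left h1 (by linarith)
  have h7 : (1 / 2 + η) * (I + ε / 4) ≤ 1 / 2 * I + η + 2 * (ε / 4) := by
    have h8 : η * I ≤ η * 1 := mul_le_mul_of_nonneg_left hI1 hη0.le
    have h9 : (1 / 2 + η) * (ε / 4) ≤ 2 * (ε / 4) :=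
      mul_le_mul_of_nonneg_right (by linarith) (by linarith)
    nlinarith
  have h8 : DD 0 (pLA S T) x ≤ (1 / 2 + η) * U + D * Y ^ (-(1 / 4) : ℝ) +
      E0 * Real.sqrt Y * (M * (1 / w) ^ 2) * Real.sqrt x := h4
  linarith

end HO

open HO CLTO in
/-- upper bound for the odd numbers, uniformly in `S`: there is `b > 0` -/
theorem upper_Phi (y : ℝ) {ε : ℝ} (hε : 0 < ε) : ∃ b : ℝ, 0 < b ∧ ∀ᶠ x : ℝ in atTop,
    ∀ S : Finset ℕ, (S.card : ℝ) ≤ Real.exp (b * Real.sqrt x) →
      DD 0 (pLA S ⌊3 / Real.log (4 / 3) * x + y * sgm * Real.sqrt x⌋) x ≤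
        1 / 2 * Phi y + ε := by
  have hc1 := T5.log43_lo
  have hσ := sgm_pos
  set c0 := 3 / Real.log (4 / 3) with hc0
  have hc0pos : 0 < c0 := div_pos (by norm_num) (by linarith)
  obtain ⟨M, L, hM, hL, hs, hlip, hz, ho, hmono, hcont⟩ := stp_test
  have h1 : Tendsto (fun e : ℝ => Phi (y + e)) (𝓝[>] 0) (𝓝 (Phi (y + 0))) := by
    apply Tendsto.mono_left _ nhdsWithin_le_nhds
    exact (Phi_continuous.comp (continuous_const.add continuous_id)).tendsto 0
  rw [add_zero] at h1
  obtain ⟨e, he1, he0⟩ := ((h1.eventually_le_const (show Phi y < Phi y + ε / 2 by linarith)).and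
    self_mem_nhdsWithin).exists
  have he0' : 0 < e := he0
  have he2 : 0 < e / 2 := by linarith
  obtain ⟨hg, hgL⟩ := TestFn_scale he2 hL hs hlip (1 / (e / 2))
  set b := e / 2 * sgm / c0 with hb
  have hb0 : 0 < b := by rw [hb]; positivity
  refine ⟨b / 20, by positivity, ?_⟩
  have h2 := upper_unif (by positivity) hg (by fun_prop) hgL (fun s hs0 => by
    rw [ho]
    have : 0 ≤ 1 / (e / 2) * s := by positivity
    linarith) y hb0 (show 0 < ε / 2 by linarith)
  have h3 := (gauss_step he2 (y + e / 2)).1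
  have h4 : ∫ t, (fun t => stp (1 / (e / 2) * t + 1)) (t + (y + c0 * b / sgm))
      ∂(gaussianReal 0 1) ≤ Phi y + ε / 2 := by
    have h5 : c0 * b / sgm = e / 2 := by
      rw [hb]; field_simp
    rw [h5]
    refine le_trans (le_of_eq ?_) (h3.trans ?_)
    · congr 1
      ext t
      simp only
      congr 1
      ring
    · have h6 : y + e / 2 + e / 2 = y + e := by ring
      rw [h6]
      exact he1
  filter_upwards [h2] with x hx
  intro S hS
  have h5 := hx S (by
    refine hS.trans (le_of_eq ?_)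
    congr 1
    unfold Yx
    ring)
  linarith

end Pool.Agent.Lib.MP_e43fce_nt_nat
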