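import Pool.Agent.Lib.MP_e43fce_nt_nat.GA0
import Pool.Agent.Lib.MP_e43fce_nt_nat.HO

/-! KL3, descent times below `f(n)`: one class `n = 2^j m`, upper and lower bounds. -/

set_option autoImplicit false

namespace Pool.Agent.Lib.MP_e43fce_nt_nat

open Finset Filter Topology MeasureTheory ProbabilityTheory

namespace HA

open CLTA GA

open Classical in
/-- `1` if the orbit of `n` is at most `f n` within `thr y (log n)` steps -/
noncomputable def pD (f : ℕ → ℝ) (y : ℝ) (n : ℕ) : ℝ :=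
  if ∃ k : ℕ, (k : ℝ) ≤ thr y (Real.log n) ∧ (col^[k] n : ℝ) ≤ f n then 1 else 0

theorem pD_unit (f : ℕ → ℝ) (y : ℝ) : Unit01 (pD f y) := by
  intro n
  unfold pD
  split_ifs <;> norm_num

/-- the set `[1, N]` -/
theorem sup_Icc (N : ℕ) : (Icc 1 N).sup id ≤ N := by
  apply Finset.sup_le
  intro a ha
  exact (Finset.mem_Icc.1 ha).2

theorem iter_pos' {n : ℕ} (hn : 0 < n) (k : ℕ) : 0 < col^[k] n := iter_pos hn k

/-- upper bound in one class -/
theorem upper_j (f : ℕ → ℝ)
    (hf : ∀ e : ℝ, 0 < e → ∀ᶠ n : ℕ in atTop, f n ≤ Real.exp (e * Real.sqrt (Real.log n)))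
    (y : ℝ) {ε : ℝ} (hε : 0 < ε) (j : ℕ) :
    ∀ᶠ x : ℝ in atTop, DD 0 (fun m => pD f y (2 ^ j * m)) x ≤ 1 / 2 * Phi y + ε := by
  obtain ⟨r, hr, hr2⟩ := Metric.continuous_iff.1 Phi_continuous y (ε / 4) (by linarith)
  set η : ℝ := r / 2 with hη
  have hη0 : 0 < η := by positivity
  have hp := hr2 (y + η) (by rw [Real.dist_eq]; simp only [add_sub_cancel_left]; rw [abs_of_pos hη0]; linarith)
  rw [Real.dist_eq, abs_lt] at hp
  obtain ⟨c, hc, hU⟩ := upper_Phi (y + η) (show 0 < ε / 4 by linarith)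
  set b : ℝ := max 0 (-Real.log (ε / 4)) with hb
  have hb0 : 0 ≤ b := le_max_left _ _
  have hbe : Real.exp (-b) ≤ ε / 4 := by
    have h1 : -b ≤ Real.log (ε / 4) := by
      have := le_max_right 0 (-Real.log (ε / 4))
      linarith
    calc Real.exp (-b) ≤ Real.exp (Real.log (ε / 4)) := Real.exp_le_exp.2 h1
      _ = ε / 4 := Real.exp_log (by linarith)
  have hl2 : 0 ≤ Real.log 2 := Real.log_nonneg (by norm_num)
  set B : ℝ := b + j * Real.log 2 with hB
  have hB0 : 0 ≤ B := by positivity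
  set c0 : ℝ := 3 / Real.log (4 / 3) with hc0
  -- the conditions on x
  have hev : ∀ᶠ x : ℝ in atTop, j + (c0 + |y| * sgm) * B ≤ η * sgm * Real.sqrt x := by
    have ht : Tendsto (fun x : ℝ => η * sgm * Real.sqrt x) atTop atTop :=
      Real.tendsto_sqrt_atTop.const_mul_atTop (mul_pos hη0 sgm_pos)
    exact ht.eventually_ge_atTop _
  obtain ⟨n0, hn0⟩ := eventually_atTop.1 (hf (c / 2) (by linarith))
  have hev2 : ∀ᶠ x : ℝ in atTop, b + c * Real.sqrt x < x := by
    have ht : Tendsto (fun x : ℝ => Real.sqrt x * (Real.sqrt x - c)) atTop atTop := by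
      apply Tendsto.atTop_mul_atTop₀ Real.tendsto_sqrt_atTop
      exact tendsto_atTop_add_const_right _ _ Real.tendsto_sqrt_atTop
    filter_upwards [ht.eventually_gt_atTop b, eventually_ge_atTop 0] with x hx hx0
    have := Real.mul_self_sqrt hx0
    nlinarith
  filter_upwards [hU, hev, hev2, eventually_ge_atTop 1, eventually_ge_atTop b,
    eventually_ge_atTop (j * Real.log 2), eventually_ge_atTop (b + Real.log (n0 + 1))]
    with x h1 h3 hxs hxd hxe hxj hxn
  set N : ℕ := ⌊Real.exp (c * Real.sqrt x)⌋₊ with hN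
  set S : Finset ℕ := Icc 1 N with hS
  have hN1 : (N : ℝ) ≤ Real.exp (c * Real.sqrt x) := Nat.floor_le (Real.exp_pos _).le
  have hcard : (S.card : ℝ) ≤ Real.exp (c * Real.sqrt x) := by
    rw [hS, Nat.card_Icc, Nat.add_sub_cancel]
    exact hN1
  have h1 := h1 S hcard
  have hlarge : ∀ m : ℕ, ¬ (m : ℝ) ≤ Real.exp (x - b) → S.sup id < m := by
    intro m hm1
    have h2 : (N : ℝ) < Real.exp (x - b) := lt_of_le_of_lt hN1 (Real.exp_lt_exp.2 (by linarith))
    have h3 : (N : ℝ) < m := by linarith [not_le.1 hm1]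
    exact lt_of_le_of_lt (sup_Icc N) (by exact_mod_cast h3)
  have hlarge2 : ∀ m : ℕ, ¬ (m : ℝ) ≤ Real.exp (x - b) → n0 ≤ 2 ^ j * m := by
    intro m hm1
    have h1 : Real.log ((n0 : ℕ) + 1) ≤ x - b := by linarith
    have h2 : ((n0 : ℕ) : ℝ) + 1 ≤ Real.exp (x - b) := by
      rwa [Real.log_le_iff_le_exp (by positivity)] at h1
    have h3 : (n0 : ℝ) < m := by linarith [not_le.1 hm1]
    have h4 : n0 < m := by exact_mod_cast h3
    have h5 : m ≤ 2 ^ j * m := Nat.le_mul_of_pos_left m (by positivity)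
    omega
  -- closeness of the thresholds
  have hlog : ∀ m : ℕ, 1 ≤ m → Real.log ((2 ^ j * m : ℕ) : ℝ) = j * Real.log 2 + Real.log m := by
    intro m hm1
    have hm0 : (0 : ℝ) < m := by exact_mod_cast hm1
    push_cast
    rw [Real.log_mul (by positivity) (by positivity), Real.log_pow]
  have hlm : ∀ m : ℕ, 1 ≤ m → (m : ℝ) ≤ Real.exp x → Real.log m ≤ x := by
    intro m hm1 hm2
    have hm0 : (0 : ℝ) < m := by exact_mod_cast hm1
    rw [Real.log_le_iff_le_exp hm0]
    exact hm2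
  have hnear : ∀ m : ℕ, 1 ≤ m → (m : ℝ) ≤ Real.exp x → ¬ (m : ℝ) ≤ Real.exp (x - b) →
      |thr y (Real.log ((2 ^ j * m : ℕ) : ℝ)) - thr y x| ≤ (c0 + |y| * sgm) * B := by
    intro m hm1 hm2 hm3
    have hm0 : (0 : ℝ) < m := by exact_mod_cast hm1
    have ha := hlm m hm1 hm2
    have hb' : x - b < Real.log m := by
      rw [Real.lt_log_iff_exp_lt hm0]
      exact not_le.1 hm3
    rw [hlog m hm1]
    have hj0 : 0 ≤ (j : ℝ) * Real.log 2 := by positivity
    apply thr_near hxd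
    · linarith
    · rw [abs_le]
      constructor <;> linarith
  have hfm : ∀ m : ℕ, 1 ≤ m → (m : ℝ) ≤ Real.exp x → ¬ (m : ℝ) ≤ Real.exp (x - b) →
      f (2 ^ j * m) ≤ Real.exp (c * Real.sqrt x) := by
    intro m hm1 hm2 hm3
    refine (hn0 _ (hlarge2 m hm3)).trans (Real.exp_le_exp.2 ?_)
    have h2 : Real.log ((2 ^ j * m : ℕ) : ℝ) ≤ 4 * x := by
      rw [hlog m hm1]
      have := hlm m hm1 hm2
      linarith
    have h4 : Real.sqrt (Real.log ((2 ^ j * m : ℕ) : ℝ)) ≤ 2 * Real.sqrt x := by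
      refine (Real.sqrt_le_sqrt h2).trans (le_of_eq ?_)
      rw [show (4 : ℝ) * x = 2 ^ 2 * x by ring, Real.sqrt_mul (by norm_num), Real.sqrt_sq (by norm_num)]
    have h5 : c / 2 * Real.sqrt (Real.log ((2 ^ j * m : ℕ) : ℝ)) ≤ c / 2 * (2 * Real.sqrt x) :=
      mul_le_mul_of_nonneg_left h4 (by linarith)
    linarith
  have h4 : DD 0 (fun m => pD f y (2 ^ j * m)) x ≤
      DD 0 (fun m => pLA S ⌊c0 * x + (y + η) * sgm * Real.sqrt x⌋ m +
        (if (m : ℝ) ≤ Real.exp (x - b) then (1 : ℝ) else 0)) x := by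
    apply h34_DD_mono_local
    intro m hm
    unfold oddS at hm
    simp only [mem_filter, mem_Icc] at hm
    have hm2 : (m : ℝ) ≤ Real.exp x := (Nat.le_floor_iff (Real.exp_pos x).le).1 hm.1.2
    have hnn : 0 ≤ pLA S ⌊c0 * x + (y + η) * sgm * Real.sqrt x⌋ m := by
      unfold pLA; split_ifs <;> norm_num
    by_cases hs : (m : ℝ) ≤ Real.exp (x - b)
    · rw [if_pos hs]
      have := (pD_unit f y (2 ^ j * m)).2
      linarith
    · rw [if_neg hs, add_zero]
      unfold pD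
      split_ifs with hk
      · obtain ⟨k, hk1, hk2⟩ := hk
        have hkS : col^[k] (2 ^ j * m) ∈ S := by
          rw [hS, mem_Icc]
          refine ⟨iter_pos (by have := hm.1.1; positivity) k, ?_⟩
          rw [hN]
          apply Nat.le_floor
          exact hk2.trans (hfm m hm.1.1 hm2 hs)
        obtain ⟨k', hk', hk3⟩ := hit_subA (hlarge m hs) hkS
        unfold pLA
        rw [if_pos]
        refine ⟨k', ?_, hk3⟩
        rw [Int.le_floor]
        have h5 := hnear m hm.1.1 hm2 hs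
        rw [abs_le] at h5
        have h6 : thr y x = c0 * x + y * sgm * Real.sqrt x := rfl
        have h7 : ((k' : ℕ) : ℝ) ≤ k := by exact_mod_cast hk'
        have hj0 : (0 : ℝ) ≤ j := Nat.cast_nonneg j
        push_cast
        push_cast at hk1 h5
        nlinarith [h5.2, h3, hk1]
      · exact hnn
  have h5 : DD 0 (fun m : ℕ => pLA S ⌊c0 * x + (y + η) * sgm * Real.sqrt x⌋ m +
        (if (m : ℝ) ≤ Real.exp (x - b) then (1 : ℝ) else 0)) x =
      DD 0 (pLA S ⌊c0 * x + (y + η) * sgm * Real.sqrt x⌋) x +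
      DD 0 (fun m : ℕ => if (m : ℝ) ≤ Real.exp (x - b) then (1 : ℝ) else 0) x := by
    rw [← DD_add]
  have h6 := DD_small x b
  linarith [hp.2]

/-- lower bound in one class, from the hitting times of `[1, N]` -/
theorem lower_j (f : ℕ → ℝ) (hf : Tendsto f atTop atTop) (N : ℕ) {d : ℝ}
    (hodd : ∀ y : ℝ, Tendsto (fun x : ℝ =>
      DD 0 (pLA (Icc 1 N) ⌊3 / Real.log (4 / 3) * x + y * sgm * Real.sqrt x⌋) x) atTop
      (𝓝 (d * Phi y))) (y : ℝ) {ε : ℝ} (hε : 0 < ε) (j : ℕ) :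
    ∀ᶠ x : ℝ in atTop, d * Phi y - ε ≤ DD 0 (fun m => pD f y (2 ^ j * m)) x := by
  have h1 := (clt_jA (Icc 1 N) hodd y j).eventually_const_le
    (show d * Phi y - ε / 2 < d * Phi y by linarith)
  obtain ⟨n0, hn0⟩ := eventually_atTop.1 (hf.eventually_ge_atTop (N : ℝ))
  have hz : Tendsto (fun x : ℝ => ((range (n0 + 1)).card : ℝ) * (3 ^ 0 / Real.exp x)) atTop (𝓝 0) := by
    have h1 : Tendsto (fun x : ℝ => Real.exp (-x)) atTop (𝓝 0) := Real.tendsto_exp_neg_atTop_nhds_zero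
    have h2 := h1.const_mul ((range (n0 + 1)).card : ℝ)
    rw [mul_zero] at h2
    refine h2.congr (fun x => ?_)
    rw [Real.exp_neg, pow_zero, one_div]
  filter_upwards [h1, hz.eventually_le_const (show (0 : ℝ) < ε / 2 by linarith)] with x hx1 hx2
  have h2 : DD 0 (fun m => pCA (Icc 1 N) y (2 ^ j * m)) x ≤
      DD 0 (fun m => pD f y (2 ^ j * m) + (if m ∈ range (n0 + 1) then 1 else 0)) x := by
    apply h34_DD_mono_local
    intro m _
    have hpos := (pD_unit f y (2 ^ j * m)).1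
    by_cases hm : m ∈ range (n0 + 1)
    · rw [if_pos hm]
      have := (pCA_unit (Icc 1 N) y (2 ^ j * m)).2
      linarith
    · rw [if_neg hm, add_zero]
      rw [mem_range] at hm
      have hn : n0 ≤ 2 ^ j * m := by
        have : m ≤ 2 ^ j * m := Nat.le_mul_of_pos_left m (by positivity)
        omega
      unfold pCA
      split_ifs with hk
      · obtain ⟨k, hk1, hk2⟩ := hk
        unfold pD
        rw [if_pos]
        refine ⟨k, hk1, ?_⟩
        have h3 : (col^[k] (2 ^ j * m) : ℝ) ≤ N := by exact_mod_cast (mem_Icc.1 hk2).2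
        exact h3.trans (hn0 _ hn)
      · exact hpos
  rw [DD_add] at h2
  have h3 := DD_finset 0 (range (n0 + 1)) x
  linarith

end HA

end Pool.Agent.Lib.MP_e43fce_nt_nat
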