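import Pool.Agent.Lib.MP_e43fce_nt_nat.GFin
import Pool.Agent.Lib.MP_e43fce_nt_nat.HA0

/-! KL3, descent times below `f(n)`: the central limit theorem for almost all numbers. -/

set_option autoImplicit false

namespace Pool.Agent.Lib.MP_e43fce_nt_nat

open Finset Filter Topology MeasureTheory ProbabilityTheory

open HA CLTA in
/-- the number of steps needed to get below `f(n)` is asymptotically normal, over all numbers -/
theorem descent_clt (f : ℕ → ℝ) (hf : Tendsto f atTop atTop)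
    (hf2 : ∀ e : ℝ, 0 < e → ∀ᶠ n : ℕ in atTop, f n ≤ Real.exp (e * Real.sqrt (Real.log n)))
    (y : ℝ) :
    HasDens {n : ℕ | ∃ k : ℕ, (k : ℝ) ≤ 3 / Real.log (4 / 3) * Real.log n +
      y * sgm * Real.sqrt (Real.log n) ∧ (col^[k] n : ℝ) ≤ f n} (Phi y) := by
  classical
  obtain ⟨C, hC, hT1⟩ := T1_all (e0 := 1) one_pos
  have key : ∀ j : ℕ, Tendsto (DD 0 (fun m => pD f y (2 ^ j * m))) atTop (𝓝 (1 / 2 * Phi y)) := by
    intro j
    rw [Metric.tendsto_atTop]
    intro ε hε
    have h1 := upper_j f hf2 y (show 0 < ε / 2 by linarith) j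
    -- choose N
    have hg : Tendsto (fun N : ℕ => C * (Real.log N) ^ (-(1 / 4) : ℝ)) atTop (𝓝 (C * 0)) := by
      apply Tendsto.const_mul
      exact (tendsto_rpow_neg_atTop (by norm_num)).comp
        (Real.tendsto_log_atTop.comp tendsto_natCast_atTop_atTop)
    rw [mul_zero] at hg
    obtain ⟨N, hN1, hN2⟩ := ((hg.eventually_le_const (show (0 : ℝ) < ε / 2 by linarith)).and
      (eventually_ge_atTop 2)).exists
    obtain ⟨d, hd, hD⟩ := preA_density (Icc 1 N)
    have hd1 : 1 - C * (Real.log N) ^ (-(1 / 4) : ℝ) ≤ 2 * d := by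
      refine HasDens.ge (S := preA (Icc 1 N)) (T := preA (Icc 1 N)) (X0 := 1) ?_
        (fun n _ h => h) hD
      intro X hX
      have h1 := hT1 N X hN2 hX
      have h2 : (X : ℝ) - cnt (preA (Icc 1 N)) X ≤ (((Icc 1 X).filter (fun n => ∀ k : ℕ,
          (k : ℝ) ≤ (3 / Real.log (4 / 3) + 1) * Real.log X + C → N < col^[k] n)).card : ℝ) := by
        rw [← cnt_compl, cnt_filter' (preA (Icc 1 N))ᶜ X]
        apply Nat.cast_le.2
        apply card_le_card
        intro n hn
        rw [mem_filter, mem_Icc] at hn ⊢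
        refine ⟨hn.1, fun k _ => ?_⟩
        by_contra hcon
        push Not at hcon
        apply hn.2
        exact ⟨k, mem_Icc.2 ⟨iter_pos (by omega) k, hcon⟩⟩
      have h3 : (1 - C * (Real.log N) ^ (-(1 / 4) : ℝ)) * X =
          X - C * (Real.log N) ^ (-(1 / 4) : ℝ) * X := by
        ring
      rw [h3]
      linarith
    have h2 := lower_j f hf N (fun y => clt_oddA (Icc 1 N) hd y) y (show 0 < ε / 4 by linarith) j
    have hP0 : 0 ≤ Phi y := Phi_nonneg y
    have hP1 : Phi y ≤ 1 := by have h := Phi_neg y; have h2 := Phi_nonneg (-y); linarith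
    obtain ⟨x0, hx0⟩ := eventually_atTop.1 (h1.and h2)
    refine ⟨x0, fun x hx => ?_⟩
    obtain ⟨h3, h4⟩ := hx0 x hx
    rw [Real.dist_eq, abs_lt]
    have h5 : (1 - ε / 2) * Phi y ≤ 2 * d * Phi y :=
      mul_le_mul_of_nonneg_right (by linarith) hP0
    have h6 : ε / 2 * Phi y ≤ ε / 2 * 1 := mul_le_mul_of_nonneg_left hP1 (by linarith)
    constructor
    · nlinarith
    · linarith
  have e : Phi y = ∑' j : ℕ, (1 / 2 : ℝ) ^ j * (1 / 2 * Phi y) := by
    rw [GA.two_mul_tsum]; ring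
  rw [hasDens_iff_ind, e]
  have h3 := all_of_odd (pD f y) (pD_unit f y) (fun _ => 1 / 2 * Phi y) key
  refine h3.congr (fun X => ?_)
  congr 1

end Pool.Agent.Lib.MP_e43fce_nt_nat
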