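import Pool.Agent.Lib.MP_e43fce_nt_nat.HA

/-! HCLT: central limit theorem for the first passage below `f n → ∞`, `log (f n) = o(sqrt (log n))`,
from `descent_clt`. -/

set_option autoImplicit false

namespace Pool.Agent.Lib.MP_e43fce_nt_nat

open Finset Filter Topology

theorem clt_slow {f : ℕ → ℕ} (hf : Tendsto f atTop atTop)
    (hs : Tendsto (fun n : ℕ => Real.log (f n) / Real.sqrt (Real.log n)) atTop (𝓝 0)) (y : ℝ) :
    HasDens {n : ℕ | ∃ k : ℕ, (k : ℝ) ≤ 3 / Real.log (4 / 3) * Real.log n +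
      y * sgm * Real.sqrt (Real.log n) ∧ col^[k] n ≤ f n} (Phi y) := by
  have h := descent_clt (fun n => (f n : ℝ)) (tendsto_natCast_atTop_atTop.comp hf) ?_ y
  · simpa only [Nat.cast_le] using h
  · intro e he
    filter_upwards [hs.eventually_le_const he, hf.eventually_ge_atTop 1, eventually_ge_atTop 2]
      with n h1 h2 h3
    have hn : (2 : ℝ) ≤ n := by exact_mod_cast h3
    have hl : 0 < Real.log n := Real.log_pos (by linarith)
    have hq : 0 < Real.sqrt (Real.log n) := Real.sqrt_pos.2 hl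
    have hf1 : (1 : ℝ) ≤ f n := by exact_mod_cast h2
    rw [div_le_iff₀ hq] at h1
    calc (f n : ℝ) = Real.exp (Real.log (f n)) := (Real.exp_log (by linarith)).symm
      _ ≤ Real.exp (e * Real.sqrt (Real.log n)) := Real.exp_le_exp.2 h1

end Pool.Agent.Lib.MP_e43fce_nt_nat
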