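import Pool.Agent.Lib.MP_e43fce_nt_nat.GDefs
import Pool.Agent.Lib.MP_e43fce_nt_nat.Defs4

/-! KL3, first passage below slowly growing bounds: definitions. -/

set_option autoImplicit false

namespace Pool.Agent.Lib.MP_e43fce_nt_nat

open Finset

open Classical in
/-- `1` if the orbit of `n` comes to a value `≤ F` within `T` steps but stays above `N` during
`T + T0` steps -/
noncomputable def qF (N F T0 : ℕ) (T : ℤ) (n : ℕ) : ℝ :=
  if (∃ k : ℕ, (k : ℤ) ≤ T ∧ col^[k] n ≤ F) ∧ ∀ k : ℕ, (k : ℤ) ≤ T + T0 → N < col^[k] n then 1 else 0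

theorem qF_unit (N F T0 : ℕ) (T : ℤ) : Unit01 (qF N F T0 T) := by
  intro n
  unfold qF
  split_ifs <;> norm_num

/-- the first passage time of `S` and `[0, f n]`: the least `k` with `col^[k] n ∈ S` or
`col^[k] n ≤ f n`, `⊤` if there is none -/
noncomputable def tau (S : Finset ℕ) (f : ℕ → ℕ) (n : ℕ) : ℕ∞ :=
  sInf {k : ℕ∞ | ∃ j : ℕ, k = j ∧ (col^[j] n ∈ S ∨ col^[j] n ≤ f n)}

/-- slowly growing: nondecreasing with `log (f n) / sqrt (log n)` tending to `0` -/
def Slow (f : ℕ → ℕ) : Prop := Monotone f ∧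
  Filter.Tendsto (fun n : ℕ => Real.log (f n) / Real.sqrt (Real.log n)) Filter.atTop (nhds 0)

end Pool.Agent.Lib.MP_e43fce_nt_nat
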