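import Pool.Agent.Lib.MP_e43fce_nt_nat.HDefs
import Pool.Agent.Lib.MP_e43fce_nt_nat.HCLT
import Pool.Agent.Lib.MP_e43fce_nt_nat.BT1
import Pool.Agent.Lib.MP_e43fce_nt_nat.FINC

/-! HFin: the law of first passage times. `f` bounded: `f n = N` for large `n` (monotone), the set
`S ∪ Icc 1 N` and `hitting_law`; superpolynomial bound from `T1_allB`. `f` unbounded: `clt_slow`,
density `1` (S \ {0} is contained in `[1, f n]` for large `n`). -/

set_option autoImplicit false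

namespace Pool.Agent.Lib.MP_e43fce_nt_nat

open Finset Filter Topology

namespace HFin

theorem inf_le_iff {Q : ℕ → Prop} {m : ℕ} :
    sInf {k : ℕ∞ | ∃ j : ℕ, k = j ∧ Q j} ≤ (m : ℕ∞) ↔ ∃ k : ℕ, k ≤ m ∧ Q k := by
  constructor
  · intro h
    by_contra hcon
    push Not at hcon
    have h2 : ((m + 1 : ℕ) : ℕ∞) ≤ sInf {k : ℕ∞ | ∃ j : ℕ, k = j ∧ Q j} := by
      refine le_sInf ?_
      rintro k ⟨j, rfl, hj⟩
      have h3 : m < j := by
        by_contra hle
        exact hcon j (by omega) hj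
      exact_mod_cast h3
    have h4 := h2.trans h
    have h5 : m + 1 ≤ m := by exact_mod_cast h4
    omega
  · rintro ⟨k, hk, hQ⟩
    have h1 : sInf {k : ℕ∞ | ∃ j : ℕ, k = j ∧ Q j} ≤ (k : ℕ∞) := sInf_le ⟨k, rfl, hQ⟩
    refine h1.trans ?_
    exact_mod_cast hk

theorem inf_ne_top {Q : ℕ → Prop} :
    sInf {k : ℕ∞ | ∃ j : ℕ, k = j ∧ Q j} ≠ ⊤ ↔ ∃ k : ℕ, Q k := by
  constructor
  · intro h
    obtain ⟨m, hm⟩ := ENat.ne_top_iff_exists.mp h
    obtain ⟨k, _, hk⟩ := inf_le_iff.mp (le_of_eq hm.symm)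
    exact ⟨k, hk⟩
  · rintro ⟨k, hk⟩
    have : sInf {k : ℕ∞ | ∃ j : ℕ, k = j ∧ Q j} ≤ (k : ℕ∞) := inf_le_iff.mpr ⟨k, le_rfl, hk⟩
    exact ne_top_of_le_ne_top (ENat.natCast_ne_top k) this

theorem inf_real {Q : ℕ → Prop} {t : ℝ} :
    (∃ k : ℕ, sInf {k : ℕ∞ | ∃ j : ℕ, k = j ∧ Q j} = k ∧ (k : ℝ) ≤ t) ↔
      ∃ k : ℕ, (k : ℝ) ≤ t ∧ Q k := by
  constructor
  · rintro ⟨k, hk, hkt⟩
    obtain ⟨j, hj, hQ⟩ := inf_le_iff.mp (le_of_eq hk)
    refine ⟨j, ?_, hQ⟩
    have : (j : ℝ) ≤ k := by exact_mod_cast hj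
    linarith
  · rintro ⟨k, hkt, hQ⟩
    obtain ⟨m, hm⟩ := ENat.ne_top_iff_exists.mp (inf_ne_top.mpr ⟨k, hQ⟩)
    refine ⟨m, hm.symm, ?_⟩
    have h1 : sInf {k : ℕ∞ | ∃ j : ℕ, k = j ∧ Q j} ≤ (k : ℕ∞) := inf_le_iff.mpr ⟨k, le_rfl, hQ⟩
    rw [← hm] at h1
    have h2 : (m : ℝ) ≤ k := by exact_mod_cast h1
    linarith

/-- the time of the central limit theorem -/
noncomputable def tt (y : ℝ) (n : ℕ) : ℝ :=
  3 / Real.log (4 / 3) * Real.log n + y * sgm * Real.sqrt (Real.log n)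

theorem Phi_lim : Tendsto Phi atTop (𝓝 1) := by
  have h := ProbabilityTheory.tendsto_cdf_atTop (ProbabilityTheory.gaussianReal 0 1)
  refine h.congr (fun y => ?_)
  rw [ProbabilityTheory.cdf_eq_real]
  rfl

theorem tt_le (y : ℝ) : ∃ M : ℕ, ∀ n : ℕ, M ≤ n → tt y n ≤ n := by
  set c0 : ℝ := 3 / Real.log (4 / 3) with hc0
  have hc0pos : 0 < c0 := div_pos (by norm_num) (Real.log_pos (by norm_num))
  have h1 : Filter.Tendsto (fun n : ℕ => Real.log (n : ℝ) / (n : ℝ)) Filter.atTop (nhds 0) := by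
    have := Real.isLittleO_log_id_atTop.tendsto_div_nhds_zero
    exact this.comp tendsto_natCast_atTop_atTop
  have hpos : 0 < c0 + |y * sgm| := by positivity
  have h2 : ∀ᶠ n : ℕ in Filter.atTop, Real.log (n : ℝ) / (n : ℝ) < 1 / (c0 + |y * sgm|) :=
    h1.eventually (gt_mem_nhds (by positivity))
  obtain ⟨M, hM⟩ := Filter.eventually_atTop.mp h2
  refine ⟨max M 3, fun n hn => ?_⟩
  have h3 := hM n ((le_max_left _ _).trans hn)
  have hn3 : (3 : ℝ) ≤ n := by exact_mod_cast (le_max_right _ _).trans hn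
  have hn0 : (0 : ℝ) < n := by linarith
  rw [div_lt_div_iff₀ hn0 hpos] at h3
  have hlog : 1 ≤ Real.log n := by
    rw [Real.le_log_iff_exp_le hn0]
    have := Real.exp_one_lt_d9
    linarith
  have hs : Real.sqrt (Real.log n) ≤ Real.log n := by
    rw [Real.sqrt_le_left (by linarith)]
    nlinarith
  have h4 : y * sgm * Real.sqrt (Real.log n) ≤ |y * sgm| * Real.log n := by
    calc y * sgm * Real.sqrt (Real.log n) ≤ |y * sgm| * Real.sqrt (Real.log n) :=
          mul_le_mul_of_nonneg_right (le_abs_self _) (Real.sqrt_nonneg _)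
      _ ≤ _ := mul_le_mul_of_nonneg_left hs (abs_nonneg _)
  unfold tt
  rw [← hc0]
  nlinarith

/-- squeeze between the sets of the central limit theorem and a set of the same density -/
theorem squeeze_dens {A : ℝ → Set ℕ} {B T : Set ℕ} {d : ℝ} (hA : ∀ y, HasDens (A y) (d * Phi y))
    (hAB : ∀ y, ∃ M : ℕ, ∀ n, M ≤ n → n ∈ A y → n ∈ B) (hT : HasDens T d)
    (hBT : ∀ n, 0 < n → n ∈ B → n ∈ T) : HasDens B d := by
  unfold HasDens
  rw [tendsto_order]
  constructor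
  · intro a ha
    have h1 : Tendsto (fun y => d * Phi y) atTop (𝓝 (d * 1)) := Phi_lim.const_mul d
    rw [mul_one] at h1
    obtain ⟨y, hy⟩ := (h1.eventually (lt_mem_nhds ha)).exists
    obtain ⟨M, hM⟩ := hAB y
    have h2 : Tendsto (fun X : ℕ => cnt (A y) X / X - (M : ℝ) / X) atTop (𝓝 (d * Phi y - 0)) :=
      (hA y).sub (tendsto_const_div_atTop_nhds_zero_nat _)
    rw [sub_zero] at h2
    filter_upwards [h2.eventually (lt_mem_nhds hy), eventually_gt_atTop 0] with X hX hX0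
    have hXpos : (0 : ℝ) < X := by exact_mod_cast hX0
    refine lt_of_lt_of_le hX ?_
    rw [← sub_div]
    apply div_le_div_of_nonneg_right _ hXpos.le
    have h3 : cnt (A y) X ≤ cnt (B ∪ {n | n ≤ M}) X := by
      apply cnt_mono
      intro n _ _ hn
      by_cases h : M ≤ n
      · exact Or.inl (hM n h hn)
      · right
        show n ≤ M
        omega
    have h4 := cnt_union_le B {n | n ≤ M} X
    have h5 : cnt {n : ℕ | n ≤ M} X ≤ M := by
      unfold cnt
      have h6 : ({n : ℕ | n ≤ M} ∩ Set.Icc 1 X).ncard ≤ (Set.Icc 1 M).ncard :=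
        Set.ncard_le_ncard (fun n hn => ⟨hn.2.1, hn.1⟩) (Set.finite_Icc 1 M)
      have h7 : (Set.Icc 1 M).ncard = M := by
        rw [← Finset.coe_Icc, Set.ncard_coe_finset]
        simp
      rw [h7] at h6
      exact_mod_cast h6
    linarith
  · intro a ha
    filter_upwards [hT.eventually (gt_mem_nhds ha)] with X hX
    refine lt_of_le_of_lt ?_ hX
    exact div_le_div_of_nonneg_right (cnt_mono (fun n hn _ h => hBT n hn h)) (Nat.cast_nonneg _)

theorem dens_univ : HasDens Set.univ 1 := by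
  unfold HasDens
  refine Tendsto.congr' ?_ (tendsto_const_nhds (x := (1 : ℝ)))
  filter_upwards [eventually_ge_atTop 1] with X hX
  rw [cnt_univ, div_self]
  have : (1 : ℝ) ≤ X := by exact_mod_cast hX
  linarith

/-- change finitely many elements -/
theorem dens_ev {A B : Set ℕ} {d : ℝ} (hA : HasDens A d) (M : ℕ)
    (h : ∀ n, M ≤ n → 0 < n → (n ∈ A ↔ n ∈ B)) : HasDens B d := by
  refine hA.change (hasDens_bounded {n | n ≤ M} M (fun n hn => hn)) ?_ ?_
  · intro n hn hnA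
    by_cases hM : M ≤ n
    · exact Or.inl ((h n hM hn).1 hnA)
    · right
      show n ≤ M
      omega
  · intro n hn hnB
    by_cases hM : M ≤ n
    · exact Or.inl ((h n hM hn).2 hnB)
    · right
      show n ≤ M
      omega

theorem core : ∃ c : ℝ, 0 < c ∧ ∀ (S : Finset ℕ) (f : ℕ → ℕ), Slow f → ∃ d : ℝ,
    HasDens {n | ∃ k : ℕ, col^[k] n ∈ S ∨ col^[k] n ≤ f n} d ∧
    (∀ y : ℝ, HasDens {n | ∃ k : ℕ, (k : ℝ) ≤ tt y n ∧ (col^[k] n ∈ S ∨ col^[k] n ≤ f n)}
      (d * Phi y)) ∧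
    ∀ a ∈ S, 0 < a → ¬ 3 ∣ a → c / a ≤ d := by
  classical
  obtain ⟨c0, K, hc0, hhit⟩ := hitting_law
  refine ⟨min c0 1, lt_min hc0 one_pos, ?_⟩
  intro S f hf
  by_cases hb : BddAbove (Set.range f)
  · -- bounded
    obtain ⟨n0, hn0⟩ := Nat.sSup_mem (Set.range_nonempty f) hb
    have hmax : ∀ n, f n ≤ f n0 := fun n => by
      rw [hn0]
      exact le_csSup hb ⟨n, rfl⟩
    have hev : ∀ n, n0 ≤ n → f n = f n0 := fun n hn => le_antisymm (hmax n) (hf.1 hn)
    obtain ⟨δ, -, hδ, hδa, -, hclt⟩ := hhit (S ∪ Icc 1 (f n0))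
    have hiff : ∀ n, n0 ≤ n → 0 < n → ∀ k : ℕ,
        (col^[k] n ∈ S ∪ Icc 1 (f n0) ↔ (col^[k] n ∈ S ∨ col^[k] n ≤ f n)) := by
      intro n hn hn1 k
      rw [mem_union, mem_Icc, hev n hn]
      have := iter_pos hn1 k
      constructor
      · rintro (h | h)
        · exact Or.inl h
        · exact Or.inr h.2
      · rintro (h | h)
        · exact Or.inl h
        · exact Or.inr ⟨this, h⟩
    refine ⟨δ, ?_, ?_, ?_⟩
    · refine dens_ev hδ n0 ?_
      intro n hn hn1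
      show (∃ k : ℕ, _) ↔ (∃ k : ℕ, _)
      exact exists_congr (fun k => hiff n hn hn1 k)
    · intro y
      refine dens_ev (hclt y) n0 ?_
      intro n hn hn1
      show (∃ k : ℕ, _) ↔ (∃ k : ℕ, _)
      exact exists_congr (fun k => and_congr_right (fun _ => hiff n hn hn1 k))
    · intro a ha ha0 h3
      refine le_trans ?_ (hδa a (mem_union_left _ ha) ha0 h3)
      exact div_le_div_of_nonneg_right (min_le_left _ _) (Nat.cast_nonneg _)
  · -- unbounded
    have htop : Tendsto f atTop atTop := by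
      refine tendsto_atTop_atTop_of_monotone hf.1 (fun b => ?_)
      by_contra hcon
      push Not at hcon
      exact hb ⟨b, by rintro _ ⟨n, rfl⟩; exact (hcon n).le⟩
    obtain ⟨M, hM⟩ := eventually_atTop.1 (htop.eventually_ge_atTop (S.sup id))
    have hiff : ∀ n, M ≤ n → 0 < n → ∀ k : ℕ,
        (col^[k] n ≤ f n ↔ (col^[k] n ∈ S ∨ col^[k] n ≤ f n)) := by
      intro n hn _ k
      constructor
      · exact Or.inr
      · rintro (h | h)
        · exact (Finset.le_sup (f := id) h).trans (hM n hn)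
        · exact h
    have hclt : ∀ y : ℝ, HasDens {n | ∃ k : ℕ, (k : ℝ) ≤ tt y n ∧
        (col^[k] n ∈ S ∨ col^[k] n ≤ f n)} (1 * Phi y) := by
      intro y
      rw [one_mul]
      refine dens_ev (clt_slow htop hf.2 y) M ?_
      intro n hn hn1
      show (∃ k : ℕ, _) ↔ (∃ k : ℕ, _)
      exact exists_congr (fun k => and_congr_right (fun _ => hiff n hn hn1 k))
    refine ⟨1, ?_, hclt, ?_⟩
    · refine squeeze_dens hclt (fun y => ⟨0, ?_⟩) dens_univ (fun n _ _ => Set.mem_univ n)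
      rintro n _ ⟨k, _, hk⟩
      exact ⟨k, hk⟩
    · intro a _ ha0 _
      have ha1 : (1 : ℝ) ≤ a := by exact_mod_cast ha0
      rw [div_le_one (by linarith)]
      exact (min_le_right _ _).trans ha1

end HFin

open HFin in
theorem fin_passage : ∃ (c : ℝ) (δ : Finset ℕ → (ℕ → ℕ) → ℝ), 0 < c ∧
    (∀ S f, Slow f →
      HasDens {n | tau S f n ≤ n} (δ S f) ∧ HasDens {n | tau S f n = ⊤} (1 - δ S f) ∧
      (∀ y : ℝ, HasDens {n | ∃ k : ℕ, tau S f n = k ∧
        (k : ℝ) ≤ 3 / Real.log (4 / 3) * Real.log n +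
          y * ((3 * Real.log 2 / Real.log (4 / 3) - 1) * Real.sqrt (2 / Real.log (4 / 3))) *
            Real.sqrt (Real.log n)}
        (δ S f * (ProbabilityTheory.gaussianReal 0 1).real (Set.Iic y))) ∧
      (∀ a ∈ S, 0 < a → ¬ 3 ∣ a → c / a ≤ δ S f)) ∧
    (∀ B : ℕ, ∃ K : ℝ, ∀ S f, Slow f → ∀ m : ℕ, 2 ≤ f m → 1 - K / (Real.log (f m)) ^ B ≤ δ S f) ∧
    (δ {1} 0 = 1 ↔ ∀ n : ℕ, 0 < n → tau {1} 0 n ≠ ⊤) := by
  classical
  obtain ⟨c, hc, hcore⟩ := core
  choose! δ hδ using hcore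
  refine ⟨c, δ, hc, ?_, ?_, ?_⟩
  · intro S f hf
    obtain ⟨h1, h2, h3⟩ := hδ S f hf
    have hle : HasDens {n | tau S f n ≤ n} (δ S f) := by
      refine squeeze_dens h2 (fun y => ?_) h1 ?_
      · obtain ⟨M, hM⟩ := tt_le y
        refine ⟨M, ?_⟩
        rintro n hn ⟨k, hk, hH⟩
        refine inf_le_iff.mpr ⟨k, ?_, hH⟩
        exact_mod_cast hk.trans (hM n hn)
      · intro n _ hn
        obtain ⟨k, _, hk⟩ := inf_le_iff.mp hn
        exact ⟨k, hk⟩
    refine ⟨hle, ?_, ?_, h3⟩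
    · have h4 : ({n | tau S f n = ⊤} : Set ℕ) =
          {n | ∃ k : ℕ, col^[k] n ∈ S ∨ col^[k] n ≤ f n}ᶜ := by
        ext n
        show tau S f n = ⊤ ↔ ¬ (∃ k : ℕ, col^[k] n ∈ S ∨ col^[k] n ≤ f n)
        rw [← inf_ne_top]
        unfold tau
        tauto
      rw [h4]
      exact h1.compl
    · intro y
      have hs : sgm = (3 * Real.log 2 / Real.log (4 / 3) - 1) * Real.sqrt (2 / Real.log (4 / 3)) := by
        unfold sgm kap
        congr 1
        ring
      rw [← hs]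
      have h5 : ({n : ℕ | ∃ k : ℕ, tau S f n = k ∧
          (k : ℝ) ≤ 3 / Real.log (4 / 3) * Real.log n + y * sgm * Real.sqrt (Real.log n)} : Set ℕ) =
          {n | ∃ k : ℕ, (k : ℝ) ≤ tt y n ∧ (col^[k] n ∈ S ∨ col^[k] n ≤ f n)} := by
        ext n
        exact inf_real
      rw [h5]
      exact h2 y
  · intro B
    obtain ⟨C, hC, hT⟩ := T1_allB (e0 := 1) one_pos B
    refine ⟨C, ?_⟩
    intro S f hf m hm
    obtain ⟨h1, h2, h3⟩ := hδ S f hf
    have h4 : HasDens {n | n ≤ m ∨ ∃ k : ℕ, col^[k] n ∈ S ∨ col^[k] n ≤ f n} (δ S f) := by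
      refine dens_ev h1 (m + 1) ?_
      intro n hn _
      constructor
      · exact Or.inr
      · rintro (h | h)
        · omega
        · exact h
    refine HasDens.ge (S := {n | n ≤ m ∨ ∃ k : ℕ, col^[k] n ∈ S ∨ col^[k] n ≤ f n}) (X0 := 1) ?_
      (fun n _ h => h) h4
    intro X hX
    have h5 := hT (f m) X hm hX
    have h6 : (X : ℝ) - cnt {n | n ≤ m ∨ ∃ k : ℕ, col^[k] n ∈ S ∨ col^[k] n ≤ f n} X ≤
        (((Icc 1 X).filter (fun n => ∀ k : ℕ,
          (k : ℝ) ≤ (3 / Real.log (4 / 3) + 1) * Real.log X + C → f m < col^[k] n)).card : ℝ) := by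
      rw [← cnt_compl, cnt_filter' _ X]
      apply Nat.cast_le.2
      apply card_le_card
      intro n hn
      rw [mem_filter, mem_Icc] at hn ⊢
      refine ⟨hn.1, fun k _ => ?_⟩
      by_contra hcon
      push Not at hcon
      apply hn.2
      by_cases hnm : n ≤ m
      · exact Or.inl hnm
      · right
        refine ⟨k, Or.inr (hcon.trans (hf.1 ?_))⟩
        omega
    have h7 : (1 - C / (Real.log (f m)) ^ B) * X = X - C / (Real.log (f m)) ^ B * X := by ring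
    rw [h7]
    linarith
  · have hslow : Slow (0 : ℕ → ℕ) := by
      refine ⟨fun a b _ => le_rfl, ?_⟩
      simp
    obtain ⟨h1, -, -⟩ := hδ {1} 0 hslow
    obtain ⟨d, -, hd, -, -, -, hd1⟩ := fin_law
    have hR : ∀ n, 0 < n → ((∃ k : ℕ, col^[k] n ∈ ({1} : Finset ℕ) ∨ col^[k] n ≤ (0 : ℕ → ℕ) n) ↔
        tst n ≠ ⊤) := by
      intro n hn
      rw [tst_ne_top_iff]
      constructor
      · rintro ⟨k, hk | hk⟩
        · exact ⟨k, by simpa using hk⟩
        · have := iter_pos hn k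
          have h0 : col^[k] n ≤ 0 := hk
          omega
      · rintro ⟨k, hk⟩
        exact ⟨k, Or.inl (by simpa using hk)⟩
    have h2 : HasDens {n | tst n ≠ ⊤} (δ {1} 0) := by
      refine dens_ev h1 0 ?_
      intro n _ hn
      exact hR n hn
    rw [h2.unique hd, hd1]
    apply forall_congr'
    intro n
    apply forall_congr'
    intro hn
    rw [← hR n hn]
    exact inf_ne_top.symm

end Pool.Agent.Lib.MP_e43fce_nt_nat
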