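import Pool.Agent.Lib.MP_e43fce_nt_nat.LemR
import Pool.Agent.Lib.MP_e43fce_nt_nat.Defs4

/-! T1, odd numbers: Tao's theorem with natural density, rate and number of steps. -/

set_option autoImplicit false

namespace Pool.Agent.Lib.MP_e43fce_nt_nat

open Finset

theorem t1odd_unit (N0 T : ℕ) : Unit01 (pT N0 T) := by
  intro n
  unfold pT
  split_ifs <;> norm_num

theorem t1odd_zero {N0 T : ℕ} {i : ℕ} {x : ℝ} (h : Real.exp x ≤ N0) :
    DD i (pT N0 T) x = 0 := by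
  apply DD_zero
  intro n hn
  unfold pT
  rw [if_neg]
  intro hk
  have h0 := hk 0 (Nat.zero_le _)
  simp only [Function.iterate_zero, id_eq] at h0
  have : (N0 : ℝ) < n := by exact_mod_cast h0
  linarith

theorem t1odd_rpow_ge {a b : ℝ} (ha : 0 < a) (hb : 0 < b) (h : b ^ 4 * a ≤ 1) :
    b ≤ a ^ (-(1 / 4) : ℝ) := by
  have hr : 0 < a ^ (1 / 4 : ℝ) := Real.rpow_pos_of_pos ha _
  have hr4 : (a ^ (1 / 4 : ℝ)) ^ 4 = a := by
    rw [← Real.rpow_natCast, ← Real.rpow_mul ha.le]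
    norm_num
  rw [Real.rpow_neg ha.le, le_inv_comm₀ hb hr]
  have h2 : (b * a ^ (1 / 4 : ℝ)) ^ 4 ≤ 1 := by
    rw [mul_pow, hr4]
    exact h
  have h3 : b * a ^ (1 / 4 : ℝ) ≤ 1 := by
    by_contra hcon
    push Not at hcon
    have := one_lt_pow₀ hcon (n := 4) (by norm_num)
    linarith
  rw [← one_div, le_div_iff₀ hb]
  linarith

theorem t1odd_rpow_le {a b : ℝ} (ha : 0 < a) (hb : 0 < b) (h : 1 ≤ b ^ 4 * a) :
    a ^ (-(1 / 4) : ℝ) ≤ b := by
  have hr : 0 < a ^ (1 / 4 : ℝ) := Real.rpow_pos_of_pos ha _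
  have hr4 : (a ^ (1 / 4 : ℝ)) ^ 4 = a := by
    rw [← Real.rpow_natCast, ← Real.rpow_mul ha.le]
    norm_num
  rw [Real.rpow_neg ha.le, inv_le_comm₀ hr hb]
  have h2 : 1 ≤ (b * a ^ (1 / 4 : ℝ)) ^ 4 := by
    rw [mul_pow, hr4]
    exact h
  have h3 : 1 ≤ b * a ^ (1 / 4 : ℝ) := by
    by_contra hcon
    push Not at hcon
    have := pow_lt_one₀ (by positivity) hcon (n := 4) (by norm_num)
    linarith
  rw [← one_div, div_le_iff₀ hb]
  linarith

theorem t1odd_log43 : Real.log (4 / 3) = 2 * Real.log 2 - Real.log 3 := by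
  rw [Real.log_div (by norm_num) (by norm_num)]
  have : (4 : ℝ) = 2 ^ 2 := by norm_num
  rw [this, Real.log_pow]
  norm_num

theorem t1odd_c_lower : (1 : ℝ) / 4 ≤ Real.log (4 / 3) := by
  have := Real.one_sub_inv_le_log_of_pos (show (0 : ℝ) < 4 / 3 by norm_num)
  norm_num at this ⊢
  linarith

theorem t1odd_c_upper : Real.log (4 / 3) ≤ (1 : ℝ) / 3 := by
  have := Real.log_le_sub_one_of_pos (show (0 : ℝ) < 4 / 3 by norm_num)
  norm_num at this ⊢
  linarith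

theorem t1odd_i1 (K : ℕ) : ((i1 K) ^ 2) ^ 2 ≤ K := by
  unfold i1
  have h1 : (Nat.sqrt (Nat.sqrt (Nat.sqrt K))) ^ 2 ≤ Nat.sqrt (Nat.sqrt K) := Nat.sqrt_le' _
  have h2 : (Nat.sqrt (Nat.sqrt K)) ^ 2 ≤ Nat.sqrt K := Nat.sqrt_le' _
  have h3 : Nat.sqrt K ≤ K := Nat.sqrt_le_self K
  calc ((Nat.sqrt (Nat.sqrt (Nat.sqrt K))) ^ 2) ^ 2 ≤ (Nat.sqrt (Nat.sqrt K)) ^ 2 :=
        Nat.pow_le_pow_left h1 2
    _ ≤ Nat.sqrt K := h2
    _ ≤ K := h3

/-- geometry of the window: the new height -/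
theorem t1odd_geom {e x c : ℝ} {K A : ℕ} (he0 : 0 < e) (he1 : e ≤ 1 / 100) (hx : 30 ≤ x)
    (hK1 : (K : ℝ) ≤ x / 5) (hK2 : x / 5 - 1 ≤ K) (hA : |(A : ℝ) - 2 * K| ≤ e * K)
    (hc : c = Real.log (4 / 3)) :
    0.92 * x ≤ zz x K A ∧ zz x K A ≤ 0.96 * x ∧
      (c - e * Real.log 2) * K ≤ x - zz x K A := by
  have hl2 : Real.log 2 < 0.7 := by
    have := Real.log_two_lt_d9
    norm_num at this ⊢
    linarith
  have hl2' : 0 < Real.log 2 := Real.log_pos (by norm_num)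
  have hK0 : (0 : ℝ) ≤ K := Nat.cast_nonneg K
  have hz : zz x K A = x - c * K - ((A : ℝ) - 2 * K) * Real.log 2 := by
    rw [hc, t1odd_log43]
    unfold zz
    ring
  have hcl := t1odd_c_lower
  have hcu := t1odd_c_upper
  rw [← hc] at hcl hcu
  obtain ⟨hA1, hA2⟩ := abs_le.1 hA
  have heK : e * K ≤ 1 / 100 * K := mul_le_mul_of_nonneg_right he1 hK0
  have heK0 : 0 ≤ e * K := by positivity
  -- bound of the product
  have hp1 : ((A : ℝ) - 2 * K) * Real.log 2 ≤ e * K * Real.log 2 :=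
    mul_le_mul_of_nonneg_right hA2 hl2'.le
  have hp2 : -(e * K) * Real.log 2 ≤ ((A : ℝ) - 2 * K) * Real.log 2 :=
    mul_le_mul_of_nonneg_right hA1 hl2'.le
  have hp3 : e * K * Real.log 2 ≤ 0.007 * K := by
    have : e * K * Real.log 2 ≤ (1 / 100 * K) * 0.7 :=
      mul_le_mul heK hl2.le hl2'.le (by positivity)
    linarith
  have hcK1 : 1 / 4 * (K : ℝ) ≤ c * K := mul_le_mul_of_nonneg_right hcl hK0
  have hcK2 : c * K ≤ 1 / 3 * (K : ℝ) := mul_le_mul_of_nonneg_right hcu hK0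
  refine ⟨?_, ?_, ?_⟩
  · rw [hz]
    nlinarith
  · rw [hz]
    nlinarith
  · rw [hz]
    nlinarith

/-- one renewal step -/
theorem t1odd_step {e0 : ℝ} (he : 0 < e0) : ∃ C x1 : ℝ, 0 < C ∧ 1 ≤ x1 ∧ ∀ N0 : ℕ, ∀ x : ℝ,
    x1 ≤ x → ∀ i : ℕ, (i : ℝ) ^ 2 ≤ x / 10 → ∀ T : ℕ, (3 / Real.log (4 / 3) + e0) * x ≤ T →
    ∀ B : ℝ, 0 ≤ B → (∀ z : ℝ, 0.92 * x ≤ z → z ≤ 0.96 * x → ∀ j : ℕ, (j : ℝ) ^ 2 ≤ z / 10 →
      ∀ T' : ℕ, (3 / Real.log (4 / 3) + e0) * z ≤ T' → DD j (pT N0 T') z ≤ B) →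
    DD i (pT N0 T) x ≤ B + C * x ^ (-(1 / 4) : ℝ) := by
  set c := Real.log (4 / 3) with hc
  set c1 := 3 / c + e0 with hc1
  have hcl : 1 / 4 ≤ c := t1odd_c_lower
  have hcu : c ≤ 1 / 3 := t1odd_c_upper
  have hc0 : 0 < c := by linarith
  have hc1pos : 0 < c1 := by positivity
  set e := min (1 / 100) (e0 * c / (1 + c1)) with hedef
  have he0' : 0 < e := lt_min (by norm_num) (by positivity)
  have he1 : e ≤ 1 / 100 := min_le_left _ _
  have he2 : e * (1 + c1) ≤ e0 * c := by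
    have : e ≤ e0 * c / (1 + c1) := min_le_right _ _
    rwa [le_div_iff₀ (by positivity)] at this
  have hl2 : Real.log 2 ≤ 1 := by
    have := Real.log_two_lt_d9
    norm_num at this ⊢
    linarith
  have hl2' : 0 < Real.log 2 := Real.log_pos (by norm_num)
  -- the choice of e
  have hcond : 3 + e ≤ c1 * (c - e * Real.log 2) := by
    have h1 : c1 * c = 3 + e0 * c := by
      rw [hc1]
      field_simp
    have h2 : c1 * (e * Real.log 2) ≤ c1 * e := by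
      have : e * Real.log 2 ≤ e := by nlinarith
      exact mul_le_mul_of_nonneg_left this hc1pos.le
    nlinarith
  obtain ⟨C, x0, hC, hx0, hR⟩ := lemR he0' (by linarith : e ≤ 1 / 10)
  refine ⟨C, max x0 30, hC, le_trans hx0 (le_max_left _ _), ?_⟩
  intro N0 x hx i hi T hT B hB hyp
  have hx0' : x0 ≤ x := le_trans (le_max_left _ _) hx
  have hx30 : 30 ≤ x := le_trans (le_max_right _ _) hx
  set K := ⌊x / 5⌋₊ with hKdef
  have hK1 : (K : ℝ) ≤ x / 5 := Nat.floor_le (by positivity)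
  have hK2 : x / 5 - 1 ≤ K := (Nat.sub_one_lt_floor _).le
  have hKl : x / 10 ≤ K := by linarith
  have hKu : (K : ℝ) ≤ 3 * x / 10 := by linarith
  have hiK : i ^ 2 ≤ K := by
    have : ((i ^ 2 : ℕ) : ℝ) ≤ K := by
      push_cast
      linarith
    exact_mod_cast this
  have hTA : ∀ A ∈ win e K, (K : ℝ) + A ≤ c1 * (x - zz x K A) ∧ 0.92 * x ≤ zz x K A ∧
      zz x K A ≤ 0.96 * x := by
    intro A hA
    have hA' : |(A : ℝ) - 2 * K| ≤ e * K := by
      unfold win at hA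
      exact (Finset.mem_filter.1 hA).2
    obtain ⟨g1, g2, g3⟩ := t1odd_geom he0' he1 hx30 hK1 hK2 hA' hc
    refine ⟨?_, g1, g2⟩
    have hK0 : (0 : ℝ) ≤ K := Nat.cast_nonneg K
    have h1 : (K : ℝ) + A ≤ (3 + e) * K := by
      have := (abs_le.1 hA').2
      linarith
    have h2 : (3 + e) * K ≤ c1 * (c - e * Real.log 2) * K :=
      mul_le_mul_of_nonneg_right hcond hK0
    have h3 : c1 * ((c - e * Real.log 2) * K) ≤ c1 * (x - zz x K A) :=
      mul_le_mul_of_nonneg_left g3 hc1pos.le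
    linarith
  have hTle : ∀ A ∈ win e K, K + A ≤ T ∧ c1 * zz x K A ≤ ((T - K - A : ℕ) : ℝ) := by
    intro A hA
    obtain ⟨g1, g2, g3⟩ := hTA A hA
    have hz0 : 0 ≤ zz x K A := le_trans (by positivity) g2
    have h4 : (K : ℝ) + A ≤ T := by
      have : 0 ≤ c1 * zz x K A := by positivity
      nlinarith
    have h5 : K + A ≤ T := by exact_mod_cast h4
    refine ⟨h5, ?_⟩
    rw [Nat.sub_sub, Nat.cast_sub h5]
    push_cast
    nlinarith
  have hRH : RHyp e K (pT N0 T) (fun A => pT N0 (T - K - A)) := by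
    intro s n hs w hw had hnd
    have hwG := Finset.mem_filter.1 hw
    have hmem := (mem_words (3 * K) K w).1 hwG.1
    have hwin : w.sum ∈ win e K := hwG.2.1
    have hcol := nd_col hs (fun a ha => (hmem.2 a ha).1) had hnd
    rw [hmem.1] at hcol
    have hle := (hTle _ hwin).1
    simp only
    unfold pT
    by_cases hn : ∀ k ≤ T, N0 < col^[k] n
    · rw [if_pos hn, if_pos]
      intro k hk
      rw [← hcol, ← Function.iterate_add_apply]
      apply hn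
      omega
    · rw [if_neg hn]
      split_ifs <;> norm_num
  have hmain := hR x hx0' K i hKl hKu hiK (pT N0 T) (fun A => pT N0 (T - K - A))
    (t1odd_unit _ _) (fun A => t1odd_unit _ _) hRH
  refine le_trans hmain ?_
  gcongr
  calc ∑ A ∈ win e K, rho K A * DD (i1 K) (pT N0 (T - K - A)) (zz x K A)
      ≤ ∑ A ∈ win e K, rho K A * B := by
        apply Finset.sum_le_sum
        intro A hA
        apply mul_le_mul_of_nonneg_left _ (rho_nonneg K A)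
        obtain ⟨g1, g2, g3⟩ := hTA A hA
        refine hyp _ g2 g3 _ ?_ _ (hTle A hA).2
        -- depth
        have h4 : (((i1 K : ℕ) : ℝ) ^ 2) ^ 2 ≤ K := by exact_mod_cast t1odd_i1 K
        have h5 : (((i1 K : ℕ) : ℝ) ^ 2) ^ 2 ≤ x / 5 := le_trans h4 hK1
        by_contra hcon
        push Not at hcon
        have h6 : 0.092 * x < ((i1 K : ℕ) : ℝ) ^ 2 := by
          have : 0.92 * x / 10 ≤ zz x K A / 10 := by linarith
          have h7 : (0.92 : ℝ) * x / 10 = 0.092 * x := by ring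
          linarith
        have h8 : (0.092 * x) ^ 2 < (((i1 K : ℕ) : ℝ) ^ 2) ^ 2 := by
          apply pow_lt_pow_left₀ h6 (by positivity) (by norm_num)
        nlinarith
    _ = (∑ A ∈ win e K, rho K A) * B := by rw [Finset.sum_mul]
    _ ≤ 1 * B := by
        apply mul_le_mul_of_nonneg_right _ hB
        refine le_trans ?_ (rho_sum_le K (3 * K + 1))
        apply Finset.sum_le_sum_of_subset_of_nonneg
        · unfold win
          exact Finset.filter_subset _ _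
        · intro A _ _
          exact rho_nonneg K A
    _ = B := one_mul B

/-- the induction over the height -/
theorem t1odd_ind {e0 C1 x1 : ℝ} (hC1 : 0 < C1) (hx1 : 1 ≤ x1)
    (hstep : ∀ N0 : ℕ, ∀ x : ℝ,
    x1 ≤ x → ∀ i : ℕ, (i : ℝ) ^ 2 ≤ x / 10 → ∀ T : ℕ, (3 / Real.log (4 / 3) + e0) * x ≤ T →
    ∀ B : ℝ, 0 ≤ B → (∀ z : ℝ, 0.92 * x ≤ z → z ≤ 0.96 * x → ∀ j : ℕ, (j : ℝ) ^ 2 ≤ z / 10 →
      ∀ T' : ℕ, (3 / Real.log (4 / 3) + e0) * z ≤ T' → DD j (pT N0 T') z ≤ B) →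
    DD i (pT N0 T) x ≤ B + C1 * x ^ (-(1 / 4) : ℝ))
    {N0 : ℕ} (hN0 : 2 ≤ N0) (hL : x1 ≤ Real.log N0) (n : ℕ) :
    ∀ x : ℝ, 0.92 * Real.log N0 ≤ x → x * 0.96 ^ n ≤ Real.log N0 → ∀ i : ℕ,
      (i : ℝ) ^ 2 ≤ x / 10 → ∀ T : ℕ, (3 / Real.log (4 / 3) + e0) * x ≤ T →
      DD i (pT N0 T) x ≤ 100 * C1 *
        (1.03 * (Real.log N0) ^ (-(1 / 4) : ℝ) - x ^ (-(1 / 4) : ℝ)) := by
  set L := Real.log N0 with hLdef
  have hL0 : 0 < L := by linarith
  have hN0' : (0 : ℝ) < N0 := by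
    have : (2 : ℝ) ≤ N0 := by exact_mod_cast hN0
    linarith
  have hcmp : ∀ x : ℝ, 0.92 * L ≤ x → x ^ (-(1 / 4) : ℝ) ≤ 1.03 * L ^ (-(1 / 4) : ℝ) := by
    intro x hx
    have h1 : x ^ (-(1 / 4) : ℝ) ≤ (0.92 * L) ^ (-(1 / 4) : ℝ) :=
      Real.rpow_le_rpow_of_nonpos (by positivity) hx (by norm_num)
    have h2 : (0.92 * L) ^ (-(1 / 4) : ℝ) = 0.92 ^ (-(1 / 4) : ℝ) * L ^ (-(1 / 4) : ℝ) :=
      Real.mul_rpow (by norm_num) hL0.le
    have h3 : (0.92 : ℝ) ^ (-(1 / 4) : ℝ) ≤ 1.03 :=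
      t1odd_rpow_le (by norm_num) (by norm_num) (by norm_num)
    have h4 : 0 ≤ L ^ (-(1 / 4) : ℝ) := Real.rpow_nonneg hL0.le _
    calc x ^ (-(1 / 4) : ℝ) ≤ 0.92 ^ (-(1 / 4) : ℝ) * L ^ (-(1 / 4) : ℝ) := by rw [← h2]; exact h1
      _ ≤ 1.03 * L ^ (-(1 / 4) : ℝ) := mul_le_mul_of_nonneg_right h3 h4
  have hbase : ∀ x : ℝ, 0.92 * L ≤ x → x ≤ L → ∀ i T : ℕ,
      DD i (pT N0 T) x ≤ 100 * C1 *
        (1.03 * L ^ (-(1 / 4) : ℝ) - x ^ (-(1 / 4) : ℝ)) := by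
    intro x hx hxL i T
    have hex : Real.exp x ≤ N0 := by
      calc Real.exp x ≤ Real.exp L := Real.exp_le_exp.2 hxL
        _ = N0 := Real.exp_log hN0'
    rw [t1odd_zero hex]
    have := hcmp x hx
    have h5 : 0 ≤ 1.03 * L ^ (-(1 / 4) : ℝ) - x ^ (-(1 / 4) : ℝ) := by linarith
    positivity
  induction n with
  | zero =>
    intro x hx hxn i _ T _
    refine hbase x hx ?_ i T
    simpa using hxn
  | succ n ih =>
    intro x hx hxn i hi T hT
    by_cases hxL : x ≤ L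
    · exact hbase x hx hxL i T
    · push Not at hxL
      have hx0 : 0 < x := by linarith
      set B := 100 * C1 * (1.03 * L ^ (-(1 / 4) : ℝ) - (0.96 * x) ^ (-(1 / 4) : ℝ)) with hBdef
      have hB : 0 ≤ B := by
        have := hcmp (0.96 * x) (by linarith)
        have h5 : 0 ≤ 1.03 * L ^ (-(1 / 4) : ℝ) - (0.96 * x) ^ (-(1 / 4) : ℝ) := by linarith
        positivity
      have key := hstep N0 x (by linarith) i hi T hT B hB ?_
      · have h6 : (0.96 * x) ^ (-(1 / 4) : ℝ) = 0.96 ^ (-(1 / 4) : ℝ) * x ^ (-(1 / 4) : ℝ) :=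
          Real.mul_rpow (by norm_num) hx0.le
        have h7 : (1.01 : ℝ) ≤ 0.96 ^ (-(1 / 4) : ℝ) :=
          t1odd_rpow_ge (by norm_num) (by norm_num) (by norm_num)
        have h8 : 0 ≤ x ^ (-(1 / 4) : ℝ) := Real.rpow_nonneg hx0.le _
        have h9 : 1.01 * x ^ (-(1 / 4) : ℝ) ≤ (0.96 * x) ^ (-(1 / 4) : ℝ) := by
          rw [h6]
          exact mul_le_mul_of_nonneg_right h7 h8
        refine le_trans key ?_
        rw [hBdef]
        nlinarith
      · intro z hz1 hz2 j hj T' hT'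
        have hz0 : 0 < z := by nlinarith
        have h10 := ih z (by nlinarith) (by
          have h11 : z * 0.96 ^ n ≤ 0.96 * x * 0.96 ^ n :=
            mul_le_mul_of_nonneg_right hz2 (by positivity)
          have h12 : 0.96 * x * 0.96 ^ n = x * 0.96 ^ (n + 1) := by ring
          linarith) j hj T' hT'
        refine le_trans h10 ?_
        rw [hBdef]
        have h13 : (0.96 * x) ^ (-(1 / 4) : ℝ) ≤ z ^ (-(1 / 4) : ℝ) :=
          Real.rpow_le_rpow_of_nonpos hz0 hz2 (by norm_num)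
        apply mul_le_mul_of_nonneg_left _ (by positivity)
        linarith

/-- odd numbers, all heights -/
theorem T1_odd {e0 : ℝ} (he : 0 < e0) : ∃ C : ℝ, 0 < C ∧ ∀ N0 : ℕ, 2 ≤ N0 → ∀ x : ℝ, 0 ≤ x →
    ∀ T : ℕ, (3 / Real.log (4 / 3) + e0) * x ≤ T →
      DD 0 (pT N0 T) x ≤ C * (Real.log N0) ^ (-(1 / 4) : ℝ) := by
  obtain ⟨C1, x1, hC1, hx1, hstep⟩ := t1odd_step he
  have hx1p : 0 < x1 := by linarith
  refine ⟨103 * C1 + x1 ^ (1 / 4 : ℝ), by positivity, ?_⟩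
  intro N0 hN0 x hx T hT
  have hN0' : (2 : ℝ) ≤ N0 := by exact_mod_cast hN0
  have hLpos : 0 < Real.log N0 := Real.log_pos (by linarith)
  have hg : 0 < (Real.log N0) ^ (-(1 / 4) : ℝ) := Real.rpow_pos_of_pos hLpos _
  have hx1q : 0 < x1 ^ (1 / 4 : ℝ) := Real.rpow_pos_of_pos hx1p _
  by_cases hL : x1 ≤ Real.log N0
  · by_cases hxL : x < 0.92 * Real.log N0
    · have hex : Real.exp x ≤ N0 := by
        calc Real.exp x ≤ Real.exp (Real.log N0) := Real.exp_le_exp.2 (by linarith)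
          _ = N0 := Real.exp_log (by linarith)
      rw [t1odd_zero hex]
      positivity
    · push Not at hxL
      have hxpos : 0 < x := by nlinarith
      obtain ⟨n, hn⟩ := exists_pow_lt_of_lt_one (show 0 < Real.log N0 / x by positivity)
        (show (0.96 : ℝ) < 1 by norm_num)
      have hn' : x * 0.96 ^ n ≤ Real.log N0 := by
        rw [lt_div_iff₀ hxpos] at hn
        linarith
      have := t1odd_ind hC1 hx1 hstep hN0 hL n x hxL hn' 0 (by
        have h0 : 0 ≤ x / 10 := by positivity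
        simpa using h0) T hT
      have hnn : 0 ≤ x ^ (-(1 / 4) : ℝ) := Real.rpow_nonneg hxpos.le _
      calc DD 0 (pT N0 T) x ≤ 100 * C1 *
            (1.03 * (Real.log N0) ^ (-(1 / 4) : ℝ) - x ^ (-(1 / 4) : ℝ)) := this
        _ ≤ 103 * C1 * (Real.log N0) ^ (-(1 / 4) : ℝ) := by nlinarith
        _ ≤ (103 * C1 + x1 ^ (1 / 4 : ℝ)) * (Real.log N0) ^ (-(1 / 4) : ℝ) := by
            apply mul_le_mul_of_nonneg_right _ hg.le
            linarith
  · push Not at hL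
    have h1 : DD 0 (pT N0 T) x ≤ 1 := DD0_le_one (t1odd_unit _ _) x
    have h2 : x1 ^ (-(1 / 4) : ℝ) ≤ (Real.log N0) ^ (-(1 / 4) : ℝ) :=
      Real.rpow_le_rpow_of_nonpos hLpos hL.le (by norm_num)
    have h3 : x1 ^ (1 / 4 : ℝ) * x1 ^ (-(1 / 4) : ℝ) = 1 := by
      rw [← Real.rpow_add hx1p]
      norm_num
    calc DD 0 (pT N0 T) x ≤ 1 := h1
      _ = x1 ^ (1 / 4 : ℝ) * x1 ^ (-(1 / 4) : ℝ) := h3.symm
      _ ≤ x1 ^ (1 / 4 : ℝ) * (Real.log N0) ^ (-(1 / 4) : ℝ) :=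
          mul_le_mul_of_nonneg_left h2 hx1q.le
      _ ≤ (103 * C1 + x1 ^ (1 / 4 : ℝ)) * (Real.log N0) ^ (-(1 / 4) : ℝ) := by
          apply mul_le_mul_of_nonneg_right _ hg.le
          linarith [hC1]

end Pool.Agent.Lib.MP_e43fce_nt_nat
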