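import Pool.Agent.Lib.MP_e43fce_nt_nat.HDefs
import Pool.Agent.Lib.MP_e43fce_nt_nat.GF
import Pool.Agent.Lib.MP_e43fce_nt_nat.T1ODD

/-! HOdd: transfer, odd numbers. As T1ODD: for `x ≤ 2.5 log F` use `t1odd_ind` (`qF ≤ pT N T0`), for
`x ≥ 2.5 log F` the renewal step `lemR` with `RHyp` up to the forward orbits of `[1, F]`. -/

set_option autoImplicit false

namespace Pool.Agent.Lib.MP_e43fce_nt_nat

open Finset

namespace HOdd

theorem log43_ge : (3 : ℝ) / 11 ≤ Real.log (4 / 3) := by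
  have h3 : Real.log 3 < 1.1 := by
    rw [Real.log_lt_iff_lt_exp (by norm_num)]
    have h := Real.exp_one_gt_d9
    have h4 : Real.exp 1.1 = Real.exp 1 * Real.exp 0.1 := by
      rw [← Real.exp_add]
      norm_num
    rw [h4]
    have h5 := Real.add_one_le_exp (0.1 : ℝ)
    have h6 := Real.quadratic_le_exp_of_nonneg (show (0 : ℝ) ≤ 0.1 by norm_num)
    nlinarith [Real.exp_pos 1, Real.exp_pos 0.1]
  have h2 := Real.log_two_gt_d9
  rw [t1odd_log43]
  linarith

theorem small_i1 {x : ℝ} (hx : 100 ≤ x) {K : ℕ} (hK : (K : ℝ) ≤ x / 5) :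
    (3 : ℝ) ^ (i1 K) ≤ Real.exp (0.05 * x) := by
  have h4 : (((i1 K : ℕ) : ℝ) ^ 2) ^ 2 ≤ K := by exact_mod_cast t1odd_i1 K
  have h5 : ((i1 K : ℕ) : ℝ) ≤ x / 40 := by
    by_contra hcon
    push Not at hcon
    have h6 : (x / 40) ^ 2 < ((i1 K : ℕ) : ℝ) ^ 2 :=
      pow_lt_pow_left₀ hcon (by positivity) (by norm_num)
    have h7 : ((x / 40) ^ 2) ^ 2 < (((i1 K : ℕ) : ℝ) ^ 2) ^ 2 :=
      pow_lt_pow_left₀ h6 (by positivity) (by norm_num)
    have h8 : (6.25 : ℝ) ≤ (x / 40) ^ 2 := by nlinarith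
    have h9 : 6.25 * (x / 40) ^ 2 ≤ ((x / 40) ^ 2) ^ 2 := by nlinarith
    have h10 : x / 5 < 6.25 * (x / 40) ^ 2 := by nlinarith
    linarith
  have h1 : (3 : ℝ) ≤ Real.exp 2 := by
    have := Real.add_one_le_exp (2 : ℝ)
    linarith
  calc (3 : ℝ) ^ (i1 K) ≤ (Real.exp 2) ^ (i1 K) := pow_le_pow_left₀ (by norm_num) h1 _
    _ = Real.exp ((i1 K : ℕ) * 2) := by rw [← Real.exp_nat_mul]
    _ ≤ Real.exp (0.05 * x) := by
      apply Real.exp_le_exp.2
      linarith

theorem x_exp {x : ℝ} (hx : 1 ≤ x) : x * Real.exp (-(0.2 * x)) ≤ 50 * x ^ (-(1 / 4) : ℝ) := by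
  have h1 : Real.exp (-(0.2 * x)) ≤ 50 / x ^ 2 := by
    rw [Real.exp_neg]
    have h2 : x ^ 2 / 50 ≤ Real.exp (0.2 * x) := by
      have := Real.quadratic_le_exp_of_nonneg (show 0 ≤ 0.2 * x by linarith)
      nlinarith
    rw [inv_le_comm₀ (Real.exp_pos _) (by positivity), inv_div]
    exact h2
  have h2 : x * Real.exp (-(0.2 * x)) ≤ x * (50 / x ^ 2) :=
    mul_le_mul_of_nonneg_left h1 (by linarith)
  have h3 : x * (50 / x ^ 2) = 50 * x⁻¹ := by
    field_simp
  rw [h3] at h2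
  refine h2.trans ?_
  apply mul_le_mul_of_nonneg_left _ (by norm_num)
  rw [← Real.rpow_neg_one]
  exact Real.rpow_le_rpow_of_exponent_le hx (by norm_num)

/-- the forward orbits of `[1, F]` are negligible -/
theorem few {x z : ℝ} (hx : 100 ≤ x) {K F : ℕ} (hK : (K : ℝ) ≤ x / 5)
    (hF : 2.5 * Real.log F ≤ x) (hz : 0.92 * x ≤ z) :
    ((fwdA (Icc 1 F) (4 * K + 1)).card : ℝ) * (3 ^ (i1 K) / Real.exp z) ≤
      50 * x ^ (-(1 / 4) : ℝ) := by
  have hFx : (F : ℝ) ≤ Real.exp (0.4 * x) := by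
    rcases Nat.eq_zero_or_pos F with h | h
    · subst h
      simpa using (Real.exp_pos (0.4 * x)).le
    · have hF0 : (0 : ℝ) < F := by exact_mod_cast h
      rw [← Real.exp_log hF0]
      apply Real.exp_le_exp.2
      linarith
  have h1 : ((fwdA (Icc 1 F) (4 * K + 1)).card : ℝ) ≤ Real.exp (0.4 * x) * x := by
    have h := card_fwdA (Icc 1 F) (4 * K + 1)
    rw [Nat.card_Icc, Nat.add_sub_cancel] at h
    have h' : ((fwdA (Icc 1 F) (4 * K + 1)).card : ℝ) ≤ ((F * (4 * K + 1) : ℕ) : ℝ) := by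
      exact_mod_cast h
    refine h'.trans ?_
    push_cast
    apply mul_le_mul hFx _ (by positivity) (Real.exp_pos _).le
    linarith
  have h2 : (3 : ℝ) ^ (i1 K) / Real.exp z ≤ Real.exp (-(0.87 * x)) := by
    rw [div_le_iff₀ (Real.exp_pos _), ← Real.exp_add]
    refine (small_i1 hx hK).trans (Real.exp_le_exp.2 ?_)
    linarith
  have h3 : Real.exp (0.4 * x) * x * Real.exp (-(0.87 * x)) = x * Real.exp (-(0.47 * x)) := by
    have : Real.exp (-(0.47 * x)) = Real.exp (0.4 * x) * Real.exp (-(0.87 * x)) := by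
      rw [← Real.exp_add]; congr 1; ring
    rw [this]; ring
  have h4 : Real.exp (-(0.47 * x)) ≤ Real.exp (-(0.2 * x)) := Real.exp_le_exp.2 (by linarith)
  calc ((fwdA (Icc 1 F) (4 * K + 1)).card : ℝ) * (3 ^ (i1 K) / Real.exp z)
      ≤ (Real.exp (0.4 * x) * x) * Real.exp (-(0.87 * x)) :=
        mul_le_mul h1 h2 (by positivity) (by positivity)
    _ = x * Real.exp (-(0.47 * x)) := h3
    _ ≤ x * Real.exp (-(0.2 * x)) := mul_le_mul_of_nonneg_left h4 (by linarith)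
    _ ≤ _ := x_exp (by linarith)

theorem pass_step : ∃ C x1 : ℝ, 0 < C ∧ 1 ≤ x1 ∧ ∀ N F T0 : ℕ, ∀ x : ℝ, x1 ≤ x →
    2.5 * Real.log F ≤ x → ∀ i : ℕ, (i : ℝ) ^ 2 ≤ x / 10 → ∀ T : ℤ, ∀ B : ℝ, 0 ≤ B →
    (∀ z : ℝ, 0.92 * x ≤ z → z ≤ 0.96 * x → ∀ j : ℕ, (j : ℝ) ^ 2 ≤ z / 10 →
      ∀ T' : ℤ, DD j (qF N F T0 T') z ≤ B) →
    DD i (qF N F T0 T) x ≤ B + C * x ^ (-(1 / 4) : ℝ) := by
  obtain ⟨C, x0, hC, hx0, hR⟩ := lemR (e := 1 / 100) (by norm_num) (by norm_num)
  refine ⟨C + 50, max x0 100, by positivity, le_trans hx0 (le_max_left _ _), ?_⟩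
  intro N F T0 x hx hFx i hi T B hB hyp
  have hx0' : x0 ≤ x := le_trans (le_max_left _ _) hx
  have hx100 : 100 ≤ x := le_trans (le_max_right _ _) hx
  set K := ⌊x / 5⌋₊ with hKdef
  have hK1 : (K : ℝ) ≤ x / 5 := Nat.floor_le (by positivity)
  have hK2 : x / 5 - 1 ≤ K := (Nat.sub_one_lt_floor _).le
  have hKl : x / 10 ≤ K := by linarith
  have hKu : (K : ℝ) ≤ 3 * x / 10 := by linarith
  have hiK : i ^ 2 ≤ K := by
    have : ((i ^ 2 : ℕ) : ℝ) ≤ K := by
      push_cast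
      linarith
    exact_mod_cast this
  have hgeo : ∀ A ∈ win (1 / 100) K, 0.92 * x ≤ zz x K A ∧ zz x K A ≤ 0.96 * x := by
    intro A hA
    have hA' : |(A : ℝ) - 2 * K| ≤ 1 / 100 * K := by
      unfold win at hA
      exact (Finset.mem_filter.1 hA).2
    obtain ⟨g1, g2, _⟩ := t1odd_geom (c := Real.log (4 / 3)) (by norm_num) le_rfl
      (by linarith : (30 : ℝ) ≤ x) hK1 hK2 hA' rfl
    exact ⟨g1, g2⟩
  set W := fwdA (Icc 1 F) (4 * K + 1) with hW
  set q : ℕ → ℕ → ℝ := fun A s => max (qF N F T0 (T - K - A) s) (if s ∈ W then 1 else 0) with hq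
  have hqu : ∀ A, Unit01 (q A) := by
    intro A s
    have h := qF_unit N F T0 (T - K - A) s
    simp only [hq]
    split_ifs
    · exact ⟨le_max_of_le_left h.1, max_le h.2 le_rfl⟩
    · exact ⟨le_max_of_le_left h.1, max_le h.2 zero_le_one⟩
  have hRH : RHyp (1 / 100) K (qF N F T0 T) q := by
    intro s n hs w hw had hn
    obtain ⟨hcol, hle⟩ := GFaux.pass hs hw had hn
    simp only [hq]
    by_cases h1 : (∃ k : ℕ, (k : ℤ) ≤ T ∧ col^[k] n ≤ F) ∧
        ∀ k : ℕ, (k : ℤ) ≤ T + T0 → N < col^[k] n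
    · obtain ⟨⟨k, hk, hkF⟩, hall⟩ := h1
      have hT0 : (0 : ℤ) ≤ T0 := Int.natCast_nonneg _
      rcases le_total k (K + w.sum) with h3 | h3
      · have hmem : col^[k] n ∈ Icc 1 F := by
          rw [mem_Icc]
          refine ⟨?_, hkF⟩
          have := hall k (by linarith)
          omega
        have h4 : s ∈ W := GFaux.early hcol hmem h3 hle
        rw [if_pos h4]
        exact (qF_unit N F T0 T n).2.trans (le_max_right _ _)
      · have h2 : qF N F T0 (T - K - (w.sum : ℕ)) s = 1 := by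
          unfold qF
          rw [if_pos]
          refine ⟨⟨k - (K + w.sum), ?_, ?_⟩, ?_⟩
          · push_cast [Nat.cast_sub h3]
            linarith
          · rw [← hcol, ← Function.iterate_add_apply,
              show k - (K + w.sum) + (K + w.sum) = k by omega]
            exact hkF
          · intro j hj
            rw [← hcol, ← Function.iterate_add_apply]
            apply hall
            push_cast at hj ⊢
            linarith
        rw [h2]
        exact (qF_unit N F T0 T n).2.trans (le_max_left _ _)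
    · have h2 : qF N F T0 T n = 0 := by
        unfold qF
        rw [if_neg h1]
      rw [h2]
      exact le_max_of_le_left (qF_unit N F T0 _ s).1
  have hmain := hR x hx0' K i hKl hKu hiK (qF N F T0 T) q (qF_unit N F T0 T) hqu hRH
  have hx4 : 0 ≤ x ^ (-(1 / 4) : ℝ) := Real.rpow_nonneg (by linarith) _
  have hsum : ∑ A ∈ win (1 / 100) K, rho K A * DD (i1 K) (q A) (zz x K A) ≤
      B + 50 * x ^ (-(1 / 4) : ℝ) := by
    calc ∑ A ∈ win (1 / 100) K, rho K A * DD (i1 K) (q A) (zz x K A)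
        ≤ ∑ A ∈ win (1 / 100) K, rho K A * (B + 50 * x ^ (-(1 / 4) : ℝ)) := by
          apply Finset.sum_le_sum
          intro A hA
          apply mul_le_mul_of_nonneg_left _ (rho_nonneg K A)
          obtain ⟨g1, g2⟩ := hgeo A hA
          have h2 : DD (i1 K) (q A) (zz x K A) ≤
              DD (i1 K) (fun s => qF N F T0 (T - K - A) s + (if s ∈ W then 1 else 0)) (zz x K A) := by
            apply DD_mono
            intro s
            have h := qF_unit N F T0 (T - K - A) s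
            simp only [hq]
            apply max_le
            · split_ifs <;> linarith
            · linarith [h.1]
          rw [DD_add] at h2
          have h3 := DD_finset (i1 K) W (zz x K A)
          have h4 := few hx100 hK1 hFx g1
          rw [← hW] at h4
          have h5 : DD (i1 K) (qF N F T0 (T - K - A)) (zz x K A) ≤ B := by
            refine hyp _ g1 g2 _ ?_ _
            have h4 : (((i1 K : ℕ) : ℝ) ^ 2) ^ 2 ≤ K := by exact_mod_cast t1odd_i1 K
            have h5 : (((i1 K : ℕ) : ℝ) ^ 2) ^ 2 ≤ x / 5 := le_trans h4 hK1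
            by_contra hcon
            push Not at hcon
            have h6 : 0.092 * x < ((i1 K : ℕ) : ℝ) ^ 2 := by
              have : 0.92 * x / 10 ≤ zz x K A / 10 := by linarith
              have h7 : (0.92 : ℝ) * x / 10 = 0.092 * x := by ring
              linarith
            have h8 : (0.092 * x) ^ 2 < (((i1 K : ℕ) : ℝ) ^ 2) ^ 2 := by
              apply pow_lt_pow_left₀ h6 (by positivity) (by norm_num)
            nlinarith
          linarith
      _ = (∑ A ∈ win (1 / 100) K, rho K A) * (B + 50 * x ^ (-(1 / 4) : ℝ)) := by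
          rw [Finset.sum_mul]
      _ ≤ 1 * (B + 50 * x ^ (-(1 / 4) : ℝ)) := by
          apply mul_le_mul_of_nonneg_right _ (by positivity)
          refine le_trans ?_ (rho_sum_le K (3 * K + 1))
          apply Finset.sum_le_sum_of_subset_of_nonneg
          · unfold win
            exact Finset.filter_subset _ _
          · intro A _ _
            exact rho_nonneg K A
      _ = _ := one_mul _
  calc DD i (qF N F T0 T) x ≤ _ := hmain
    _ ≤ (B + 50 * x ^ (-(1 / 4) : ℝ)) + C * x ^ (-(1 / 4) : ℝ) := add_le_add hsum le_rfl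
    _ = _ := by ring

/-- the induction over the height -/
theorem pass_ind {C1 D x1 : ℝ} (hC1 : 0 < C1) (hD : 0 ≤ D) (hx1 : 1 ≤ x1) {N F T0 : ℕ}
    (hstep : ∀ x : ℝ, x1 ≤ x →
    2.5 * Real.log F ≤ x → ∀ i : ℕ, (i : ℝ) ^ 2 ≤ x / 10 → ∀ T : ℤ, ∀ B : ℝ, 0 ≤ B →
    (∀ z : ℝ, 0.92 * x ≤ z → z ≤ 0.96 * x → ∀ j : ℕ, (j : ℝ) ^ 2 ≤ z / 10 →
      ∀ T' : ℤ, DD j (qF N F T0 T') z ≤ B) →
    DD i (qF N F T0 T) x ≤ B + C1 * x ^ (-(1 / 4) : ℝ)) {L : ℝ} (hL : x1 ≤ L)
    (hLF : L = 2.5 * Real.log F)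
    (hbase : ∀ x : ℝ, 0.92 * L ≤ x → x ≤ L → ∀ i : ℕ, (i : ℝ) ^ 2 ≤ x / 10 → ∀ T : ℤ,
      DD i (qF N F T0 T) x ≤ D) (n : ℕ) :
    ∀ x : ℝ, 0.92 * L ≤ x → x * 0.96 ^ n ≤ L → ∀ i : ℕ,
      (i : ℝ) ^ 2 ≤ x / 10 → ∀ T : ℤ,
      DD i (qF N F T0 T) x ≤ D + 100 * C1 *
        (1.03 * L ^ (-(1 / 4) : ℝ) - x ^ (-(1 / 4) : ℝ)) := by
  have hL0 : 0 < L := by linarith
  have hcmp : ∀ x : ℝ, 0.92 * L ≤ x → x ^ (-(1 / 4) : ℝ) ≤ 1.03 * L ^ (-(1 / 4) : ℝ) := by
    intro x hx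
    have h1 : x ^ (-(1 / 4) : ℝ) ≤ (0.92 * L) ^ (-(1 / 4) : ℝ) :=
      Real.rpow_le_rpow_of_nonpos (by positivity) hx (by norm_num)
    have h2 : (0.92 * L) ^ (-(1 / 4) : ℝ) = 0.92 ^ (-(1 / 4) : ℝ) * L ^ (-(1 / 4) : ℝ) :=
      Real.mul_rpow (by norm_num) hL0.le
    have h3 : (0.92 : ℝ) ^ (-(1 / 4) : ℝ) ≤ 1.03 :=
      t1odd_rpow_le (by norm_num) (by norm_num) (by norm_num)
    have h4 : 0 ≤ L ^ (-(1 / 4) : ℝ) := Real.rpow_nonneg hL0.le _
    calc x ^ (-(1 / 4) : ℝ) ≤ 0.92 ^ (-(1 / 4) : ℝ) * L ^ (-(1 / 4) : ℝ) := by rw [← h2]; exact h1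
      _ ≤ 1.03 * L ^ (-(1 / 4) : ℝ) := mul_le_mul_of_nonneg_right h3 h4
  have hbase' : ∀ x : ℝ, 0.92 * L ≤ x → x ≤ L → ∀ i : ℕ, (i : ℝ) ^ 2 ≤ x / 10 → ∀ T : ℤ,
      DD i (qF N F T0 T) x ≤ D + 100 * C1 *
        (1.03 * L ^ (-(1 / 4) : ℝ) - x ^ (-(1 / 4) : ℝ)) := by
    intro x hx hxL i hi T
    have h1 := hbase x hx hxL i hi T
    have := hcmp x hx
    have h5 : 0 ≤ 1.03 * L ^ (-(1 / 4) : ℝ) - x ^ (-(1 / 4) : ℝ) := by linarith
    have h6 : 0 ≤ 100 * C1 * (1.03 * L ^ (-(1 / 4) : ℝ) - x ^ (-(1 / 4) : ℝ)) := by positivity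
    linarith
  induction n with
  | zero =>
    intro x hx hxn i hi T
    refine hbase' x hx ?_ i hi T
    simpa using hxn
  | succ n ih =>
    intro x hx hxn i hi T
    by_cases hxL : x ≤ L
    · exact hbase' x hx hxL i hi T
    · push Not at hxL
      have hx0 : 0 < x := by linarith
      set B := D + 100 * C1 * (1.03 * L ^ (-(1 / 4) : ℝ) - (0.96 * x) ^ (-(1 / 4) : ℝ)) with hBdef
      have hB : 0 ≤ B := by
        have := hcmp (0.96 * x) (by linarith)
        have h5 : 0 ≤ 1.03 * L ^ (-(1 / 4) : ℝ) - (0.96 * x) ^ (-(1 / 4) : ℝ) := by linarith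
        positivity
      have key := hstep x (by linarith) (by rw [← hLF]; exact hxL.le) i hi T B hB ?_
      · have h6 : (0.96 * x) ^ (-(1 / 4) : ℝ) = 0.96 ^ (-(1 / 4) : ℝ) * x ^ (-(1 / 4) : ℝ) :=
          Real.mul_rpow (by norm_num) hx0.le
        have h7 : (1.01 : ℝ) ≤ 0.96 ^ (-(1 / 4) : ℝ) :=
          t1odd_rpow_ge (by norm_num) (by norm_num) (by norm_num)
        have h8 : 0 ≤ x ^ (-(1 / 4) : ℝ) := Real.rpow_nonneg hx0.le _
        have h9 : 1.01 * x ^ (-(1 / 4) : ℝ) ≤ (0.96 * x) ^ (-(1 / 4) : ℝ) := by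
          rw [h6]
          exact mul_le_mul_of_nonneg_right h7 h8
        refine le_trans key ?_
        rw [hBdef]
        nlinarith
      · intro z hz1 hz2 j hj T'
        have hz0 : 0 < z := by nlinarith
        have h10 := ih z (by nlinarith) (by
          have h11 : z * 0.96 ^ n ≤ 0.96 * x * 0.96 ^ n :=
            mul_le_mul_of_nonneg_right hz2 (by positivity)
          have h12 : 0.96 * x * 0.96 ^ n = x * 0.96 ^ (n + 1) := by ring
          linarith) j hj T'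
        refine le_trans h10 ?_
        rw [hBdef]
        have h13 : (0.96 * x) ^ (-(1 / 4) : ℝ) ≤ z ^ (-(1 / 4) : ℝ) :=
          Real.rpow_le_rpow_of_nonpos hz0 hz2 (by norm_num)
        have h14 : 100 * C1 * (1.03 * L ^ (-(1 / 4) : ℝ) - z ^ (-(1 / 4) : ℝ)) ≤
            100 * C1 * (1.03 * L ^ (-(1 / 4) : ℝ) - (0.96 * x) ^ (-(1 / 4) : ℝ)) := by
          apply mul_le_mul_of_nonneg_left _ (by positivity)
          linarith
        linarith

theorem qF_le_pT {N F T0 : ℕ} {T : ℤ} (n : ℕ) : qF N F T0 T n ≤ pT N T0 n := by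
  unfold qF pT
  by_cases h : (∃ k : ℕ, (k : ℤ) ≤ T ∧ col^[k] n ≤ F) ∧
        ∀ k : ℕ, (k : ℤ) ≤ T + T0 → N < col^[k] n
  · rw [if_pos h, if_pos]
    obtain ⟨⟨k, hk, -⟩, hall⟩ := h
    intro j hj
    apply hall
    have : (0 : ℤ) ≤ k := Int.natCast_nonneg _
    have : (j : ℤ) ≤ T0 := by exact_mod_cast hj
    linarith
  · rw [if_neg h]
    split_ifs <;> norm_num

theorem qF_zero {N F T0 : ℕ} {T : ℤ} (h : F < N) (n : ℕ) : qF N F T0 T n = 0 := by
  unfold qF
  rw [if_neg]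
  rintro ⟨⟨k, hk, hkF⟩, hall⟩
  have hT0 : (0 : ℤ) ≤ T0 := Int.natCast_nonneg _
  have := hall k (by linarith)
  omega

end HOdd

open HOdd in
theorem pass_odd : ∃ C : ℝ, 0 < C ∧ ∀ N F T0 : ℕ, 2 ≤ N → 1 ≤ F → 30 * Real.log F ≤ T0 →
    ∀ x : ℝ, 0 ≤ x → ∀ T : ℤ,
      DD 0 (qF N F T0 T) x ≤ C * (Real.log N) ^ (-(1 / 4) : ℝ) := by
  obtain ⟨C1, x1, hC1, hx1, hstep1⟩ := t1odd_step (e0 := 1) one_pos
  obtain ⟨C2, x2, hC2, hx2, hstep2⟩ := pass_step
  set x3 := max x1 x2 with hx3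
  have hx31 : x1 ≤ x3 := le_max_left _ _
  have hx32 : x2 ≤ x3 := le_max_right _ _
  have hx3p : 0 < x3 := by linarith
  have hc : 3 / Real.log (4 / 3) + 1 ≤ 12 := by
    have h1 := log43_ge
    have h2 : 3 / Real.log (4 / 3) ≤ 11 := by
      rw [div_le_iff₀ (by linarith)]
      linarith
    linarith
  refine ⟨103 * C1 + 103 * C2 + x3 ^ (1 / 4 : ℝ), by positivity, ?_⟩
  intro N F T0 hN hF hT0 x hx T
  have hN' : (2 : ℝ) ≤ N := by exact_mod_cast hN
  have hLpos : 0 < Real.log N := Real.log_pos (by linarith)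
  have hg : 0 < (Real.log N) ^ (-(1 / 4) : ℝ) := Real.rpow_pos_of_pos hLpos _
  have hx3q : 0 < x3 ^ (1 / 4 : ℝ) := Real.rpow_pos_of_pos hx3p _
  rcases Nat.lt_or_ge F N with hFN | hFN
  · have : DD 0 (qF N F T0 T) x = 0 := DD_zero (fun n _ => qF_zero hFN n)
    rw [this]
    positivity
  have hFN' : Real.log N ≤ Real.log F := by
    apply Real.log_le_log (by linarith)
    exact_mod_cast hFN
  by_cases hL : x3 ≤ Real.log N
  · -- the first region
    have hfirst : ∀ y : ℝ, 0 ≤ y → y ≤ 2.5 * Real.log F → ∀ i : ℕ, (i : ℝ) ^ 2 ≤ y / 10 → ∀ T : ℤ,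
        DD i (qF N F T0 T) y ≤ 103 * C1 * (Real.log N) ^ (-(1 / 4) : ℝ) := by
      intro y hy hyF i hi T
      refine (DD_mono (fun n => qF_le_pT n) y).trans ?_
      by_cases hyL : y < 0.92 * Real.log N
      · have hex : Real.exp y ≤ N := by
          calc Real.exp y ≤ Real.exp (Real.log N) := Real.exp_le_exp.2 (by linarith)
            _ = N := Real.exp_log (by linarith)
        rw [t1odd_zero hex]
        positivity
      · push Not at hyL
        have hypos : 0 < y := by nlinarith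
        obtain ⟨n, hn⟩ := exists_pow_lt_of_lt_one (show 0 < Real.log N / y by positivity)
          (show (0.96 : ℝ) < 1 by norm_num)
        have hn' : y * 0.96 ^ n ≤ Real.log N := by
          rw [lt_div_iff₀ hypos] at hn
          linarith
        have hT : (3 / Real.log (4 / 3) + 1) * y ≤ T0 := by
          calc (3 / Real.log (4 / 3) + 1) * y ≤ 12 * y := mul_le_mul_of_nonneg_right hc hy
            _ ≤ 12 * (2.5 * Real.log F) := by linarith
            _ = 30 * Real.log F := by ring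
            _ ≤ T0 := hT0
        have h1 := t1odd_ind hC1 hx1 hstep1 hN (by linarith) n y hyL hn' i hi T0 hT
        have hnn : 0 ≤ y ^ (-(1 / 4) : ℝ) := Real.rpow_nonneg hypos.le _
        nlinarith
    by_cases hxF : x ≤ 2.5 * Real.log F
    · have h1 := hfirst x hx hxF 0 (by
        have h0 : 0 ≤ x / 10 := by positivity
        simpa using h0) T
      refine h1.trans ?_
      apply mul_le_mul_of_nonneg_right _ hg.le
      linarith
    · push Not at hxF
      set L := 2.5 * Real.log F with hLdef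
      have hL3 : x3 ≤ L := by
        rw [hLdef]; linarith
      have hLpos' : 0 < L := by linarith
      have hxpos : 0 < x := by linarith
      obtain ⟨n, hn⟩ := exists_pow_lt_of_lt_one (show 0 < L / x by positivity)
        (show (0.96 : ℝ) < 1 by norm_num)
      have hn' : x * 0.96 ^ n ≤ L := by
        rw [lt_div_iff₀ hxpos] at hn
        linarith
      have h1 := pass_ind (D := 103 * C1 * (Real.log N) ^ (-(1 / 4) : ℝ)) hC2 (by positivity) hx2
        (fun x hx hxF i hi T B hB hyp => hstep2 N F T0 x hx hxF i hi T B hB hyp)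
        (hx32.trans hL3) hLdef
        (fun y hy1 hy2 i hi T => hfirst y (by linarith) hy2 i hi T) n x (by linarith) hn' 0 (by
          have h0 : 0 ≤ x / 10 := by positivity
          simpa using h0) T
      have hnn : 0 ≤ x ^ (-(1 / 4) : ℝ) := Real.rpow_nonneg hxpos.le _
      have h2 : L ^ (-(1 / 4) : ℝ) ≤ (Real.log N) ^ (-(1 / 4) : ℝ) :=
        Real.rpow_le_rpow_of_nonpos hLpos (by rw [hLdef]; linarith) (by norm_num)
      nlinarith
  · push Not at hL
    have h1 : DD 0 (qF N F T0 T) x ≤ 1 := DD0_le_one (qF_unit N F T0 T) x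
    have h2 : x3 ^ (-(1 / 4) : ℝ) ≤ (Real.log N) ^ (-(1 / 4) : ℝ) :=
      Real.rpow_le_rpow_of_nonpos hLpos hL.le (by norm_num)
    have h3 : x3 ^ (1 / 4 : ℝ) * x3 ^ (-(1 / 4) : ℝ) = 1 := by
      rw [← Real.rpow_add hx3p]
      norm_num
    calc DD 0 (qF N F T0 T) x ≤ 1 := h1
      _ = x3 ^ (1 / 4 : ℝ) * x3 ^ (-(1 / 4) : ℝ) := h3.symm
      _ ≤ x3 ^ (1 / 4 : ℝ) * (Real.log N) ^ (-(1 / 4) : ℝ) :=
          mul_le_mul_of_nonneg_left h2 hx3q.le
      _ ≤ (103 * C1 + 103 * C2 + x3 ^ (1 / 4 : ℝ)) * (Real.log N) ^ (-(1 / 4) : ℝ) := by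
          apply mul_le_mul_of_nonneg_right _ hg.le
          linarith [hC1, hC2]

end Pool.Agent.Lib.MP_e43fce_nt_nat
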