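import Pool.Agent.Lib.MP_e43fce_nt_nat.WB
import Pool.Agent.Lib.MP_e43fce_nt_nat.FD

/-! KL3, module MIXF (helper50): mixing in L1 for functions of period `3^i` of the node.

Words `w = p ++ q` with `q` of length `2 N`, `N = n / 20`. For the `p` of a given sum `A` the Fourier
transform of the sum is a product: the `q` factor is small by `FDg`, the `p` factor is controlled by
Parseval and the injectivity of `F`. The remaining `p` are rare (Chernoff and Markov). -/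

set_option autoImplicit false

namespace Pool.Agent.Lib.MP_e43fce_nt_nat

open Finset

namespace MX


theorem ee_add (a b : ℝ) : ee (a + b) = ee a * ee b := by
  unfold ee; rw [← Complex.exp_add]; congr 1; push_cast; ring

theorem norm_ee (t : ℝ) : ‖ee t‖ = 1 := by
  unfold ee
  rw [show (2 * (Real.pi:ℂ) * (t:ℂ) * Complex.I) = ((2 * Real.pi * t : ℝ) : ℂ) * Complex.I by
    push_cast; ring]
  exact Complex.norm_exp_ofReal_mul_I _

theorem ee_int (k : ℤ) : ee (k : ℝ) = 1 := by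
  unfold ee
  rw [Complex.exp_eq_one_iff]
  exact ⟨k, by push_cast; ring⟩

theorem conj_ee (t : ℝ) : (starRingEnd ℂ) (ee t) = ee (-t) := by
  unfold ee
  rw [← Complex.exp_conj]; congr 1
  simp only [map_mul, Complex.conj_ofReal, Complex.conj_I, map_ofNat]
  push_cast; ring

theorem ee_eq_one {t : ℝ} (h : ee t = 1) : ∃ k : ℤ, t = k := by
  unfold ee at h
  rw [Complex.exp_eq_one_iff] at h
  obtain ⟨k, hk⟩ := h
  refine ⟨k, ?_⟩
  have h2 : (2 * (Real.pi : ℂ) * Complex.I) ≠ 0 := by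
    simp [Real.pi_ne_zero, Complex.I_ne_zero]
  have h3 : (t : ℂ) = (k : ℂ) := by
    have : (2 * (Real.pi : ℂ) * Complex.I) * (t : ℂ) = (2 * (Real.pi : ℂ) * Complex.I) * (k : ℂ) := by
      linear_combination hk
    exact mul_left_cancel₀ h2 this
  exact_mod_cast h3

/-- `e(a / 3^r)` -/
noncomputable def EE (r : ℕ) (a : ℤ) : ℂ := ee ((a : ℝ) / 3 ^ r)

theorem EE_add (r : ℕ) (a b : ℤ) : EE r (a + b) = EE r a * EE r b := by
  unfold EE; rw [← ee_add]; congr 1; push_cast; ring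

theorem norm_EE (r : ℕ) (a : ℤ) : ‖EE r a‖ = 1 := norm_ee _

theorem conj_EE (r : ℕ) (a : ℤ) : (starRingEnd ℂ) (EE r a) = EE r (-a) := by
  unfold EE; rw [conj_ee]; congr 1; push_cast; ring

theorem EE_mul (r : ℕ) (k : ℤ) : EE r (3 ^ r * k) = 1 := by
  unfold EE
  have h : ((3:ℝ) ^ r) ≠ 0 := by positivity
  rw [show (((3 ^ r * k : ℤ)) : ℝ) / 3 ^ r = (k : ℝ) by push_cast; field_simp]
  exact ee_int k

theorem EE_congr {r : ℕ} {a b : ℤ} (h : (3 : ℤ) ^ r ∣ a - b) : EE r a = EE r b := by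
  obtain ⟨k, hk⟩ := h
  rw [show a = b + 3 ^ r * k by rw [← hk]; ring, EE_add, EE_mul, mul_one]

theorem EE_lift (r v : ℕ) (a : ℤ) : EE (r + v) (3 ^ v * a) = EE r a := by
  unfold EE
  congr 1
  push_cast
  rw [pow_add]
  field_simp

theorem EE_eq_one {r : ℕ} {a : ℤ} (h : EE r a = 1) : (3 : ℤ) ^ r ∣ a := by
  obtain ⟨k, hk⟩ := ee_eq_one h
  have h0 : ((3:ℝ) ^ r) ≠ 0 := by positivity
  refine ⟨k, ?_⟩
  have : (a : ℝ) = 3 ^ r * k := by field_simp at hk; linarith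
  exact_mod_cast this

theorem EE_pow (r : ℕ) (a : ℤ) (k : ℕ) : EE r (k * a) = EE r a ^ k := by
  induction k with
  | zero => simp [EE, ee]
  | succ k ih => rw [pow_succ, ← ih, ← EE_add]; congr 1; push_cast; ring

/-- orthogonality -/
theorem EE_orth (r : ℕ) (a : ℤ) :
    ∑ ξ ∈ range (3 ^ r), EE r (ξ * a) = if (3 : ℤ) ^ r ∣ a then (3 : ℂ) ^ r else 0 := by
  split_ifs with h
  · have : ∀ ξ ∈ range (3 ^ r), EE r ((ξ : ℕ) * a) = 1 := by
      intro ξ _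
      rw [EE_pow, EE_congr (b := 0) (by simpa using h)]
      simp [EE, ee]
    rw [Finset.sum_congr rfl this]; simp
  · have h1 : EE r a ≠ 1 := fun h' => h (EE_eq_one h')
    have h2 : ∑ ξ ∈ range (3 ^ r), EE r (ξ * a) = ∑ ξ ∈ range (3 ^ r), EE r a ^ ξ :=
      Finset.sum_congr rfl (fun ξ _ => EE_pow r a ξ)
    rw [h2, geom_sum_eq h1, ← EE_pow]
    rw [show (((3 ^ r : ℕ) : ℤ) * a) = 3 ^ r * a by push_cast; ring, EE_mul]
    simp

/-- Parseval, general form -/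
theorem sumsq {ι : Type} (r : ℕ) (s : Finset ι) (c : ι → ℝ) (x : ι → ℤ) :
    ∑ ξ ∈ range (3 ^ r), ‖∑ a ∈ s, (c a : ℂ) * EE r (ξ * x a)‖ ^ 2
      = 3 ^ r * ∑ a ∈ s, ∑ b ∈ s, if (3 : ℤ) ^ r ∣ x a - x b then c a * c b else 0 := by
  have key : ∀ ξ : ℕ, ((‖∑ a ∈ s, (c a : ℂ) * EE r (ξ * x a)‖ ^ 2 : ℝ) : ℂ)
      = ∑ a ∈ s, ∑ b ∈ s, ((c a * c b : ℝ) : ℂ) * EE r (ξ * (x a - x b)) := by
    intro ξ
    push_cast
    rw [← Complex.mul_conj', map_sum, Finset.sum_mul_sum]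
    refine Finset.sum_congr rfl (fun a _ => Finset.sum_congr rfl (fun b _ => ?_))
    rw [map_mul, Complex.conj_ofReal, conj_EE,
      show ((ξ : ℤ) * (x a - x b)) = ξ * x a + -(ξ * x b) by ring, EE_add]
    ring
  have : ((∑ ξ ∈ range (3 ^ r), ‖∑ a ∈ s, (c a : ℂ) * EE r (ξ * x a)‖ ^ 2 : ℝ) : ℂ)
      = ((3 ^ r * ∑ a ∈ s, ∑ b ∈ s, if (3 : ℤ) ^ r ∣ x a - x b then c a * c b else 0 : ℝ) : ℂ) := by
    rw [Complex.ofReal_sum, Finset.sum_congr rfl (fun ξ _ => key ξ), Finset.sum_comm]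
    push_cast
    rw [Finset.mul_sum]
    refine Finset.sum_congr rfl (fun a _ => ?_)
    rw [Finset.sum_comm, Finset.mul_sum]
    refine Finset.sum_congr rfl (fun b _ => ?_)
    rw [← Finset.mul_sum, EE_orth]
    split_ifs
    · push_cast; ring
    · simp
  exact_mod_cast this


theorem sum_words_succ (L k : ℕ) (g : List ℕ → ℝ) :
    ∑ w ∈ words L (k + 1), g w = ∑ a ∈ Icc 1 L, ∑ w ∈ words L k, g (a :: w) := by
  rw [words, Finset.sum_image, Finset.sum_product]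
  rintro ⟨a, u⟩ _ ⟨b, v⟩ _ h
  simp only [List.cons.injEq] at h
  exact Prod.ext h.1 h.2

theorem pr_nonneg (w : List ℕ) : 0 ≤ pr w := by unfold pr; positivity

theorem wt_nonneg (w : List ℕ) : 0 ≤ wt w := by unfold wt; positivity

theorem pr_append (u v : List ℕ) : pr (u ++ v) = pr u * pr v := by
  unfold pr; rw [List.sum_append, pow_add]; field_simp

theorem wt_append (u v : List ℕ) : wt (u ++ v) = wt u * wt v := by
  unfold wt; rw [List.sum_append, List.length_append, pow_add, pow_add]; field_simp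

theorem sum_pr_pow (L k : ℕ) (θ : ℝ) :
    ∑ w ∈ words L k, pr w * θ ^ w.sum = (∑ a ∈ Icc 1 L, (θ / 2) ^ a) ^ k := by
  induction k with
  | zero => simp [words, pr]
  | succ k ih =>
    rw [sum_words_succ, pow_succ', ← ih, Finset.sum_mul_sum]
    refine Finset.sum_congr rfl (fun a _ => Finset.sum_congr rfl (fun w _ => ?_))
    unfold pr
    rw [List.sum_cons, pow_add, pow_add, div_pow]
    field_simp

theorem geom_le {x : ℝ} (h0 : 0 ≤ x) (h1 : x < 1) (L : ℕ) :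
    ∑ a ∈ Icc 1 L, x ^ a ≤ x / (1 - x) := by
  have h2 : 0 < 1 - x := by linarith
  rw [le_div_iff₀ h2]
  induction L with
  | zero => simpa using h0
  | succ L ih =>
    have : ∀ L : ℕ, (∑ a ∈ Icc 1 L, x ^ a) * (1 - x) = x - x ^ (L + 1) := by
      intro L
      induction L with
      | zero => simp
      | succ L ih => rw [Finset.sum_Icc_succ_top (by omega), add_mul, ih]; ring
    rw [this]
    have : 0 ≤ x ^ (L + 1 + 1) := by positivity
    linarith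

theorem sum_pr_le (L k : ℕ) : ∑ w ∈ words L k, pr w ≤ 1 := by
  have h := sum_pr_pow L k 1
  simp only [one_pow, mul_one] at h
  rw [h]
  have h1 : ∑ a ∈ Icc 1 L, ((1:ℝ) / 2) ^ a ≤ (1/2) / (1 - 1/2) := geom_le (by norm_num) (by norm_num) L
  have h2 : ∑ a ∈ Icc 1 L, ((1:ℝ) / 2) ^ a ≤ 1 := by norm_num at h1 ⊢; exact h1
  exact pow_le_one₀ (Finset.sum_nonneg (fun a _ => by positivity)) h2

theorem chern_up (L k : ℕ) :
    ∑ w ∈ (words L k).filter (fun w => 3 * k < w.sum), pr w ≤ (27 / 32 : ℝ) ^ k := by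
  have h1 : ∑ w ∈ (words L k).filter (fun w => 3 * k < w.sum), pr w
      ≤ ∑ w ∈ words L k, (27 / 64 : ℝ) ^ k * (pr w * (4 / 3) ^ w.sum) := by
    rw [Finset.sum_filter]
    refine Finset.sum_le_sum (fun w _ => ?_)
    have hp := pr_nonneg w
    split_ifs with h
    · have h3 : (4 / 3 : ℝ) ^ (3 * k) ≤ (4 / 3) ^ w.sum := pow_le_pow_right₀ (by norm_num) h.le
      have h4 : (27 / 64 : ℝ) ^ k * (4 / 3) ^ (3 * k) = 1 := by
        rw [pow_mul, ← mul_pow]; norm_num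
      have h5 : 1 ≤ (27 / 64 : ℝ) ^ k * (4 / 3) ^ w.sum := by
        rw [← h4]; exact mul_le_mul_of_nonneg_left h3 (by positivity)
      nlinarith
    · positivity
  refine h1.trans ?_
  rw [← Finset.mul_sum, sum_pr_pow]
  have h2 : ∑ a ∈ Icc 1 L, ((4 / 3 : ℝ) / 2) ^ a ≤ 2 := by
    have := geom_le (x := (4/3:ℝ)/2) (by norm_num) (by norm_num) L
    norm_num at this ⊢; exact this
  calc (27 / 64 : ℝ) ^ k * (∑ a ∈ Icc 1 L, ((4 / 3 : ℝ) / 2) ^ a) ^ k
      ≤ (27 / 64 : ℝ) ^ k * 2 ^ k := by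
        refine mul_le_mul_of_nonneg_left (pow_le_pow_left₀ (Finset.sum_nonneg (fun a _ => by positivity)) h2 k) (by positivity)
    _ = (27 / 32) ^ k := by rw [← mul_pow]; norm_num

/-- the lower Chernoff rate -/
noncomputable def rr : ℝ := (200 / 199 : ℝ) ^ 9 / (2 - (199 / 200) ^ 10)

theorem rr_lt : rr < 1 := by unfold rr; norm_num
theorem rr_ge : 27 / 32 ≤ rr := by unfold rr; norm_num

theorem chern_low (L k : ℕ) :
    ∑ w ∈ (words L k).filter (fun w => 10 * w.sum < 19 * k), pr w ≤ rr ^ k := by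
  have h1 : ∑ w ∈ (words L k).filter (fun w => 10 * w.sum < 19 * k), pr w
      ≤ ∑ w ∈ words L k, ((200 / 199 : ℝ) ^ 19) ^ k * (pr w * ((199 / 200) ^ 10) ^ w.sum) := by
    rw [Finset.sum_filter]
    refine Finset.sum_le_sum (fun w _ => ?_)
    have hp := pr_nonneg w
    split_ifs with h
    · have h3 : (199 / 200 : ℝ) ^ (19 * k) ≤ (199 / 200) ^ (10 * w.sum) :=
        pow_le_pow_of_le_one (by norm_num) (by norm_num) h.le
      have h4 : ((200 / 199 : ℝ) ^ 19) ^ k * (199 / 200) ^ (19 * k) = 1 := by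
        rw [← pow_mul, ← mul_pow]; norm_num
      have h5 : 1 ≤ ((200 / 199 : ℝ) ^ 19) ^ k * ((199 / 200) ^ 10) ^ w.sum := by
        rw [← h4, show ((199 / 200 : ℝ) ^ 10) ^ w.sum = (199 / 200) ^ (10 * w.sum) from
          (pow_mul _ _ _).symm]
        exact mul_le_mul_of_nonneg_left h3 (by positivity)
      nlinarith
    · positivity
  refine h1.trans ?_
  rw [← Finset.mul_sum, sum_pr_pow]
  have h2 : ∑ a ∈ Icc 1 L, (((199 / 200 : ℝ) ^ 10) / 2) ^ a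
      ≤ (199 / 200) ^ 10 / (2 - (199 / 200) ^ 10) := by
    have := geom_le (x := ((199 / 200 : ℝ) ^ 10) / 2) (by norm_num) (by norm_num) L
    refine this.trans (le_of_eq ?_)
    norm_num
  calc ((200 / 199 : ℝ) ^ 19) ^ k * (∑ a ∈ Icc 1 L, (((199 / 200 : ℝ) ^ 10) / 2) ^ a) ^ k
      ≤ ((200 / 199 : ℝ) ^ 19) ^ k * ((199 / 200) ^ 10 / (2 - (199 / 200) ^ 10)) ^ k := by
        refine mul_le_mul_of_nonneg_left (pow_le_pow_left₀ (Finset.sum_nonneg (fun a _ => by positivity)) h2 k) (by positivity)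
    _ = rr ^ k := by rw [← mul_pow]; unfold rr; norm_num


theorem two_hh (r : ℕ) : 2 * hh r = 3 ^ r + 1 := by
  unfold hh
  have h : (2 : ℤ) ∣ 3 ^ r + 1 := by
    have h1 : (3 : ℤ) ^ r % 2 = 1 := by
      have h2 : (3 : ℤ) ^ r ≡ 1 ^ r [ZMOD 2] := Int.ModEq.pow r (by decide)
      rw [one_pow] at h2
      exact h2
    omega
  omega

theorem hh_pow_dvd (r A : ℕ) (x : ℤ) : (3 : ℤ) ^ r ∣ hh r ^ A * (2 ^ A * x) - x := by
  have h : (3 : ℤ) ^ r ∣ (hh r * 2) ^ A - 1 ^ A := by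
    refine dvd_trans ?_ (sub_dvd_pow_sub_pow _ _ A)
    exact ⟨1, by rw [mul_comm, two_hh]; ring⟩
  have : hh r ^ A * (2 ^ A * x) - x = ((hh r * 2) ^ A - 1 ^ A) * x := by
    rw [mul_pow]; ring
  rw [this]; exact Dvd.dvd.mul_right h _

theorem hh_congr {r s : ℕ} (h : s ≤ r) (A : ℕ) : (3 : ℤ) ^ s ∣ hh r ^ A - hh s ^ A := by
  refine dvd_trans ?_ (sub_dvd_pow_sub_pow _ _ A)
  have h1 := two_hh r
  have h2 := two_hh s
  obtain ⟨j, rfl⟩ := Nat.exists_eq_add_of_le h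
  have h3 : (3 : ℤ) ^ s ∣ 2 * (hh (s + j) - hh s) :=
    ⟨3 ^ j - 1, by rw [mul_sub, h1, h2, pow_add]; ring⟩
  have hc : IsCoprime ((3 : ℤ) ^ s) 2 := by
    refine IsCoprime.pow_left ?_
    exact ⟨1, -1, by norm_num⟩
  exact hc.dvd_of_dvd_mul_left h3

theorem hh_not_dvd {r : ℕ} (hr : 1 ≤ r) (A : ℕ) : ¬ (3 : ℤ) ∣ hh r ^ A := by
  intro h
  have h1 := Int.prime_three.dvd_of_dvd_pow h
  have h2 := two_hh r
  have h3 : (3 : ℤ) ∣ 3 ^ r := dvd_pow_self _ (by omega)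
  omega

/-- complex version of the average -/
theorem sum_node (w : List ℕ) (s : ℕ) (g : ℤ → ℂ) (hg : Per s g) :
    ∑ m ∈ range (3 ^ (w.length + s)), (if adm m w then (wt w : ℂ) * g (nd m w) else 0)
      = 3 ^ (w.length + s) * ((pr w : ℂ) * ((∑ y ∈ range (3 ^ s), g y) / 3 ^ s)) := by
  have hre := Av_node w s (fun y => (g y).re) (fun v z => by simp only [hg v z])
  have him := Av_node w s (fun y => (g y).im) (fun v z => by simp only [hg v z])
  unfold Av at hre him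
  have h3 : ((3 : ℝ) ^ (w.length + s)) ≠ 0 := by positivity
  rw [div_eq_iff h3] at hre him
  apply Complex.ext
  · have e1 : (∑ m ∈ range (3 ^ (w.length + s)), (if adm m w then (wt w : ℂ) * g (nd m w) else 0)).re
        = ∑ m ∈ range (3 ^ (w.length + s)), (if adm m w then wt w * (g (nd m w)).re else 0) := by
      rw [Complex.re_sum]
      refine Finset.sum_congr rfl (fun m _ => ?_)
      split_ifs <;> simp
    rw [e1, hre]
    have e2 : (3 : ℂ) ^ (w.length + s) * ((pr w : ℂ) * ((∑ y ∈ range (3 ^ s), g y) / 3 ^ s))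
        = ((3 ^ (w.length + s) * (pr w / 3 ^ s) : ℝ) : ℂ) * ∑ y ∈ range (3 ^ s), g y := by
      push_cast; ring
    rw [e2, Complex.re_ofReal_mul, Complex.re_sum]
    ring
  · have e1 : (∑ m ∈ range (3 ^ (w.length + s)), (if adm m w then (wt w : ℂ) * g (nd m w) else 0)).im
        = ∑ m ∈ range (3 ^ (w.length + s)), (if adm m w then wt w * (g (nd m w)).im else 0) := by
      rw [Complex.im_sum]
      refine Finset.sum_congr rfl (fun m _ => ?_)
      split_ifs <;> simp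
    rw [e1, him]
    have e2 : (3 : ℂ) ^ (w.length + s) * ((pr w : ℂ) * ((∑ y ∈ range (3 ^ s), g y) / 3 ^ s))
        = ((3 ^ (w.length + s) * (pr w / 3 ^ s) : ℝ) : ℂ) * ∑ y ∈ range (3 ^ s), g y := by
      push_cast; ring
    rw [e2, Complex.im_ofReal_mul, Complex.im_sum]
    ring

/-- Fourier coefficient of a function modulo `3^i` -/
noncomputable def fh (i : ℕ) (f : ℤ → ℝ) (ζ : ℤ) : ℂ :=
  (∑ y ∈ range (3 ^ i), (f y : ℂ) * EE i (-(ζ * y))) / 3 ^ i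

theorem norm_fh_le (i : ℕ) (f : ℤ → ℝ) (ζ : ℤ) : ‖fh i f ζ‖ ≤ Av i (fun x => |f x|) := by
  unfold fh Av
  rw [norm_div, norm_pow]
  have : ‖(3:ℂ)‖ = 3 := by simp
  rw [this]
  refine div_le_div_of_nonneg_right ?_ (by positivity)
  refine (norm_sum_le _ _).trans (Finset.sum_le_sum (fun y _ => ?_))
  rw [norm_mul, norm_EE, mul_one, Complex.norm_real, Real.norm_eq_abs]

theorem fh_zero {i : ℕ} {f : ℤ → ℝ} (h : Av i f = 0) {ζ : ℤ} (hζ : (3 : ℤ) ^ i ∣ ζ) :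
    fh i f ζ = 0 := by
  unfold fh
  unfold Av at h
  have h3 : ((3 : ℝ) ^ i) ≠ 0 := by positivity
  rw [div_eq_zero_iff, or_iff_left h3] at h
  have : ∀ y ∈ range (3 ^ i), (f (y : ℕ) : ℂ) * EE i (-(ζ * (y : ℕ))) = ((f (y : ℕ) : ℝ) : ℂ) := by
    intro y _
    have : EE i (-(ζ * (y : ℕ))) = 1 := by
      rw [EE_congr (b := 3 ^ i * 0) (by
        rw [mul_zero, sub_zero]; exact (dvd_neg).2 (Dvd.dvd.mul_right hζ _)), EE_mul]
    rw [this, mul_one]
  rw [Finset.sum_congr rfl this, ← Complex.ofReal_sum, h]; simp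

theorem hat_word (w : List ℕ) (i : ℕ) (f : ℤ → ℝ) (hf : Per i f) (ξ : ℤ) :
    ∑ m ∈ range (3 ^ (w.length + i)),
        (((if adm m w then wt w * f (nd m w) else 0 : ℝ)) : ℂ) * EE (w.length + i) (-(ξ * m))
      = 3 ^ (w.length + i) * ((pr w : ℂ) * (EE (w.length + i) (-(ξ * (hh (w.length + i) ^ w.sum * F w)))
          * fh i f (ξ * hh (w.length + i) ^ w.sum))) := by
  set M := w.length + i with hM
  set h := hh M ^ w.sum with hh'
  have hg : Per i (fun y : ℤ => (f y : ℂ) * EE i (-(ξ * h * y))) := by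
    intro v z
    simp only
    rw [hf v z]
    congr 1
    apply EE_congr
    exact ⟨-(ξ * h * z), by ring⟩
  have key := sum_node w i _ hg
  rw [← hM] at key
  have e1 : ∀ m : ℕ, (((if adm m w then wt w * f (nd m w) else 0 : ℝ)) : ℂ) * EE M (-(ξ * m))
      = EE M (-(ξ * (h * F w))) *
        (if adm m w then (wt w : ℂ) * ((f (nd m w) : ℂ) * EE i (-(ξ * h * nd m w))) else 0) := by
    intro m
    split_ifs with ha
    · have h2 : (2 : ℤ) ^ w.sum * m = F w + 3 ^ w.length * nd m w := by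
        unfold nd
        rw [Int.mul_ediv_cancel' ha]; ring
      have h3 : EE M (-(ξ * m)) = EE M (-(ξ * (h * F w))) * EE i (-(ξ * h * nd m w)) := by
        rw [← EE_lift i w.length (-(ξ * h * nd m w)), show i + w.length = M by omega, ← EE_add]
        apply EE_congr
        have h4 := hh_pow_dvd M w.sum (m : ℤ)
        rw [h2, ← hh'] at h4
        have h5 := Dvd.dvd.mul_left h4 ξ
        rw [show -(ξ * (m : ℤ)) - (-(ξ * (h * (F w : ℤ))) + 3 ^ w.length * -(ξ * h * nd m w))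
          = ξ * (h * ((F w : ℤ) + 3 ^ w.length * nd m w) - m) by ring]
        exact h5
      rw [h3]; push_cast; ring
    · simp
  rw [Finset.sum_congr rfl (fun m _ => e1 m), ← Finset.mul_sum, key]
  unfold fh
  have e2 : ∀ y : ℕ, -(ξ * h * (y : ℤ)) = -(ξ * h * y) := fun y => rfl
  ring


/-- the second factor -/
noncomputable def S2 (M i L n2 A1 : ℕ) (f : ℕ → ℤ → ℝ) (ξ : ℕ) : ℂ :=
  ∑ q ∈ words L n2, (pr q : ℂ) * (EE (n2 + i) (-(ξ * (hh M ^ A1 * (hh M ^ q.sum * F q)))) *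
    fh i (f (A1 + q.sum)) (ξ * hh M ^ (A1 + q.sum)))

/-- the first factor -/
noncomputable def S1 (M A1 : ℕ) (CC : Finset (List ℕ)) (ξ : ℕ) : ℂ :=
  ∑ p ∈ CC, (((1 / 2 ^ A1 : ℝ)) : ℂ) * EE M (ξ * (-(hh M ^ A1 * F p)))

theorem S2_bound (B : ℕ) : ∃ C : ℝ, 0 < C ∧ ∀ N n1 i L A1 : ℕ, 1 ≤ N → 1 ≤ i → 2 ≤ L →
    ∀ f : ℕ → ℤ → ℝ, (∀ A, Av i (f A) = 0) →
      (∀ A, Av i (fun x => |f A x|) ≤ 1) → ∀ ξ : ℕ,
      ‖S2 (n1 + 2 * N + i) i L (2 * N) A1 f ξ‖ ≤ C * ((i : ℝ) / N) ^ B := by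
  obtain ⟨C, hC, H⟩ := FDg B
  refine ⟨C, hC, ?_⟩
  intro N n1 i L A1 hN hi hL f h0 h1 ξ
  set M := n1 + 2 * N + i with hM
  by_cases hξ : 3 ^ i ∣ ξ
  · have : S2 M i L (2 * N) A1 f ξ = 0 := by
      unfold S2
      refine Finset.sum_eq_zero (fun q _ => ?_)
      rw [fh_zero (h0 _) (Dvd.dvd.mul_right (by exact_mod_cast hξ) _)]
      simp
    rw [this, norm_zero]
    positivity
  · have hξ0 : ξ ≠ 0 := fun h => hξ (h ▸ dvd_zero _)
    obtain ⟨v, ξ', h3, he⟩ := Nat.exists_eq_pow_mul_and_not_dvd hξ0 3 (by norm_num)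
    have hv : v < i := by
      by_contra hv
      push Not at hv
      exact hξ (he ▸ Dvd.dvd.mul_right (pow_dvd_pow 3 hv) _)
    set g := i - v with hg
    have hη : ¬ (3 : ℤ) ∣ ((ξ' : ℤ) * hh M ^ A1) := by
      intro h
      rcases Int.prime_three.dvd_or_dvd h with h | h
      · exact h3 (by exact_mod_cast h)
      · exact hh_not_dvd (by omega) A1 h
    have key := H N g L hN (by omega) hL _ hη
      (fun a => fh i (f (A1 + a)) (ξ * hh M ^ (A1 + a)))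
      (fun a => (norm_fh_le i _ _).trans (h1 _))
    have e : S2 M i L (2 * N) A1 f ξ = ∑ q ∈ words L (2 * N), (pr q : ℂ) *
        (fh i (f (A1 + q.sum)) (ξ * hh M ^ (A1 + q.sum))) *
          ee (-(((((ξ' : ℤ) * hh M ^ A1) * hh (2 * N + g) ^ q.sum * (F q : ℤ) : ℤ)) : ℝ)
            / 3 ^ (2 * N + g)) := by
      unfold S2
      refine Finset.sum_congr rfl (fun q _ => ?_)
      have e1 : EE (2 * N + i) (-((ξ : ℤ) * (hh M ^ A1 * (hh M ^ q.sum * F q))))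
          = ee (-(((((ξ' : ℤ) * hh M ^ A1) * hh (2 * N + g) ^ q.sum * (F q : ℤ) : ℤ)) : ℝ)
            / 3 ^ (2 * N + g)) := by
        have e2 : -((ξ : ℤ) * (hh M ^ A1 * (hh M ^ q.sum * F q)))
            = 3 ^ v * (-((ξ' : ℤ) * hh M ^ A1 * (hh M ^ q.sum * F q))) := by
          rw [he]; push_cast; ring
        rw [e2, show 2 * N + i = (2 * N + g) + v by omega, EE_lift]
        have e3 : EE (2 * N + g) (-((ξ' : ℤ) * hh M ^ A1 * (hh M ^ q.sum * F q)))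
            = EE (2 * N + g) (-(((ξ' : ℤ) * hh M ^ A1) * hh (2 * N + g) ^ q.sum * (F q : ℤ))) := by
          apply EE_congr
          have h5 := hh_congr (r := M) (s := 2 * N + g) (by omega) q.sum
          have h6 := Dvd.dvd.mul_left h5 (-((ξ' : ℤ) * hh M ^ A1 * F q))
          rw [show -((ξ' : ℤ) * hh M ^ A1 * (hh M ^ q.sum * F q))
            - -(((ξ' : ℤ) * hh M ^ A1) * hh (2 * N + g) ^ q.sum * (F q : ℤ))
            = -((ξ' : ℤ) * hh M ^ A1 * F q) * (hh M ^ q.sum - hh (2 * N + g) ^ q.sum) by ring]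
          exact h6
        rw [e3]
        unfold EE
        congr 1
        push_cast
        ring
      rw [e1]; ring
    rw [e]
    refine key.trans ?_
    refine mul_le_mul_of_nonneg_left ?_ hC.le
    refine pow_le_pow_left₀ (by positivity) ?_ B
    refine div_le_div_of_nonneg_right ?_ (by positivity)
    exact_mod_cast Nat.sub_le _ _

theorem coll {M T A1 n1 : ℕ} {CC : Finset (List ℕ)}
    (hC : ∀ p ∈ CC, p.length = n1 ∧ p.sum = A1 ∧ (∀ a ∈ p, 1 ≤ a) ∧ F p ≤ T * 2 ^ A1)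
    (x : ℤ) :
    (CC.filter (fun p => (3 : ℤ) ^ M ∣ (F p : ℤ) - x)).card ≤ T * 2 ^ A1 / 3 ^ M + 1 := by
  have h := Finset.card_le_card_of_injOn (s := CC.filter (fun p => (3 : ℤ) ^ M ∣ (F p : ℤ) - x))
    (t := range (T * 2 ^ A1 / 3 ^ M + 1)) (fun p => F p / 3 ^ M) ?_ ?_
  · simpa using h
  · intro p hp
    rw [Finset.mem_coe, Finset.mem_filter] at hp
    rw [Finset.mem_coe, Finset.mem_range]
    exact Nat.lt_succ_of_le (Nat.div_le_div_right (hC p hp.1).2.2.2)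
  · intro p hp p' hp' he
    rw [Finset.mem_coe, Finset.mem_filter] at hp hp'
    simp only at he
    obtain ⟨a1, a2, a3, -⟩ := hC p hp.1
    obtain ⟨b1, b2, b3, -⟩ := hC p' hp'.1
    refine F_inj (a1.trans b1.symm) (a2.trans b2.symm) a3 b3 ?_
    have hd : (3 : ℤ) ^ M ∣ (F p : ℤ) - F p' := by
      have := dvd_sub hp.2 hp'.2
      rwa [show (F p : ℤ) - x - ((F p' : ℤ) - x) = (F p : ℤ) - F p' by ring] at this
    have hm : F p % 3 ^ M = F p' % 3 ^ M := by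
      have h1 : ((3 ^ M : ℕ) : ℤ) ∣ (F p : ℤ) - F p' := by push_cast; exact hd
      exact ((Nat.modEq_iff_dvd.2 h1).symm : F p ≡ F p' [MOD 3 ^ M])
    rw [← Nat.div_add_mod (F p) (3 ^ M), ← Nat.div_add_mod (F p') (3 ^ M), he, hm]

theorem card_le {L n1 A1 : ℕ} {CC : Finset (List ℕ)} (hs : CC ⊆ words L n1)
    (hA : ∀ p ∈ CC, p.sum = A1) : (CC.card : ℝ) ≤ 2 ^ A1 := by
  have h1 : ∑ p ∈ CC, pr p ≤ 1 :=
    (Finset.sum_le_sum_of_subset_of_nonneg hs (fun p _ _ => pr_nonneg p)).trans (sum_pr_le L n1)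
  have h2 : ∑ p ∈ CC, pr p = (CC.card : ℝ) / 2 ^ A1 := by
    rw [Finset.sum_congr rfl (fun p hp => by rw [pr, hA p hp]), Finset.sum_const, nsmul_eq_mul]
    ring
  rw [h2, div_le_one (by positivity)] at h1
  exact h1

theorem S1_sq {M T A1 n1 L : ℕ} {CC : Finset (List ℕ)} (hs : CC ⊆ words L n1)
    (hC : ∀ p ∈ CC, p.length = n1 ∧ p.sum = A1 ∧ (∀ a ∈ p, 1 ≤ a) ∧ F p ≤ T * 2 ^ A1)
    (hM : 3 ^ M ≤ 2 ^ A1) :
    ∑ ξ ∈ range (3 ^ M), ‖S1 M A1 CC ξ‖ ^ 2 ≤ T + 1 := by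
  unfold S1
  rw [sumsq]
  have h1 : ∀ p ∈ CC, ∑ b ∈ CC, (if (3 : ℤ) ^ M ∣ -(hh M ^ A1 * F p) - -(hh M ^ A1 * F b)
      then (1 / 2 ^ A1 : ℝ) * (1 / 2 ^ A1) else 0)
      ≤ (T * 2 ^ A1 / 3 ^ M + 1) * ((1 / 2 ^ A1 : ℝ) * (1 / 2 ^ A1)) := by
    intro p hp
    rw [← Finset.sum_filter, Finset.sum_const, nsmul_eq_mul]
    refine mul_le_mul_of_nonneg_right ?_ (by positivity)
    have h2 : (CC.filter (fun b => (3 : ℤ) ^ M ∣ -(hh M ^ A1 * F p) - -(hh M ^ A1 * F b)))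
        ⊆ CC.filter (fun b => (3 : ℤ) ^ M ∣ (F b : ℤ) - F p) := by
      intro b hb
      rw [Finset.mem_filter] at hb ⊢
      refine ⟨hb.1, ?_⟩
      have h3 : (3 : ℤ) ^ M ∣ hh M ^ A1 * ((F b : ℤ) - F p) := by
        rw [show hh M ^ A1 * ((F b : ℤ) - F p) = -(hh M ^ A1 * F p) - -(hh M ^ A1 * F b) by ring]
        exact hb.2
      have h4 := hh_pow_dvd M A1 ((F b : ℤ) - F p)
      have h5 := Dvd.dvd.mul_left h3 (2 ^ A1)
      have h6 := dvd_sub h5 h4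
      rwa [show (2:ℤ) ^ A1 * (hh M ^ A1 * ((F b : ℤ) - F p))
        - (hh M ^ A1 * (2 ^ A1 * ((F b : ℤ) - F p)) - ((F b : ℤ) - F p)) = (F b : ℤ) - F p by ring]
        at h6
    have h3 := (Finset.card_le_card h2).trans (coll hC (F p))
    have h4 : (((T * 2 ^ A1 / 3 ^ M + 1 : ℕ)) : ℝ) ≤ T * 2 ^ A1 / 3 ^ M + 1 := by
      push_cast
      have := @Nat.cast_div_le ℝ _ _ _ (T * 2 ^ A1) (3 ^ M)
      push_cast at this
      linarith
    exact le_trans (by exact_mod_cast h3) h4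
  have h2 := Finset.sum_le_sum h1
  rw [Finset.sum_const, nsmul_eq_mul] at h2
  have hc := card_le hs (fun p hp => (hC p hp).2.1)
  have hR : (0:ℝ) < 3 ^ M := by positivity
  have hA : (0:ℝ) < 2 ^ A1 := by positivity
  have hM' : (3:ℝ) ^ M ≤ 2 ^ A1 := by exact_mod_cast hM
  calc (3:ℝ) ^ M * ∑ a ∈ CC, ∑ b ∈ CC, (if (3 : ℤ) ^ M ∣ -(hh M ^ A1 * F a) - -(hh M ^ A1 * F b)
      then (1 / 2 ^ A1 : ℝ) * (1 / 2 ^ A1) else 0)
      ≤ 3 ^ M * ((CC.card : ℝ) * ((T * 2 ^ A1 / 3 ^ M + 1) * ((1 / 2 ^ A1 : ℝ) * (1 / 2 ^ A1)))) :=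
        mul_le_mul_of_nonneg_left h2 hR.le
    _ ≤ 3 ^ M * (2 ^ A1 * ((T * 2 ^ A1 / 3 ^ M + 1) * ((1 / 2 ^ A1 : ℝ) * (1 / 2 ^ A1)))) := by
        refine mul_le_mul_of_nonneg_left (mul_le_mul_of_nonneg_right hc (by positivity)) hR.le
    _ = T + 3 ^ M / 2 ^ A1 := by field_simp
    _ ≤ T + 1 := by
        have := (div_le_one hA).2 hM'
        linarith


/-- the term of the word `w` -/
noncomputable def tm (f : ℕ → ℤ → ℝ) (w : List ℕ) (m : ℤ) : ℝ :=
  if adm m w then wt w * f w.sum (nd m w) else 0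

/-- the part of the sum with first factor in `CC` -/
noncomputable def ZZ (CC : Finset (List ℕ)) (L n2 : ℕ) (f : ℕ → ℤ → ℝ) (m : ℤ) : ℝ :=
  ∑ p ∈ CC, ∑ q ∈ words L n2, tm f (p ++ q) m

theorem len_words {L k : ℕ} {w : List ℕ} (h : w ∈ words L k) : w.length = k :=
  ((mem_words L k w).1 h).1

theorem hat_ZZ {n1 n2 i L A1 : ℕ} {CC : Finset (List ℕ)} {f : ℕ → ℤ → ℝ}
    (hf : ∀ A, Per i (f A)) (hC : ∀ p ∈ CC, p.length = n1 ∧ p.sum = A1) (ξ : ℕ) :
    ∑ m ∈ range (3 ^ (n1 + n2 + i)), (ZZ CC L n2 f m : ℂ) * EE (n1 + n2 + i) (ξ * (-(m : ℤ)))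
      = 3 ^ (n1 + n2 + i) * (S1 (n1 + n2 + i) A1 CC ξ * S2 (n1 + n2 + i) i L n2 A1 f ξ) := by
  set M := n1 + n2 + i with hM
  have e0 : ∀ m : ℕ, (ZZ CC L n2 f m : ℂ) * EE M (ξ * (-(m : ℤ)))
      = ∑ p ∈ CC, ∑ q ∈ words L n2, (tm f (p ++ q) m : ℂ) * EE M (-(ξ * m)) := by
    intro m
    unfold ZZ
    rw [show (ξ : ℤ) * (-(m : ℤ)) = -(ξ * m) by ring]
    push_cast
    rw [Finset.sum_mul]
    refine Finset.sum_congr rfl (fun p _ => ?_)
    rw [Finset.sum_mul]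
  rw [Finset.sum_congr rfl (fun m _ => e0 m), Finset.sum_comm]
  unfold S1 S2
  rw [Finset.sum_mul_sum, Finset.mul_sum]
  refine Finset.sum_congr rfl (fun p hp => ?_)
  rw [Finset.sum_comm, Finset.mul_sum]
  refine Finset.sum_congr rfl (fun q hq => ?_)
  obtain ⟨l1, s1⟩ := hC p hp
  have l2 := len_words hq
  have hlen : (p ++ q).length + i = M := by rw [List.length_append, l1, l2]
  have key := hat_word (p ++ q) i (f (p ++ q).sum) (hf _) ξ
  rw [hlen] at key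
  unfold tm
  rw [key]
  have hsum : (p ++ q).sum = A1 + q.sum := by rw [List.sum_append, s1]
  rw [hsum, pr_append]
  have e1 : EE M (-((ξ : ℤ) * (hh M ^ (A1 + q.sum) * F (p ++ q))))
      = EE M (ξ * (-(hh M ^ A1 * F p))) * EE (n2 + i) (-(ξ * (hh M ^ A1 * (hh M ^ q.sum * F q)))) := by
    rw [← EE_lift (n2 + i) n1, show n2 + i + n1 = M by omega, ← EE_add]
    apply EE_congr
    rw [F_append, l1]
    have h1 := hh_pow_dvd M q.sum (F p)
    have h2 := Dvd.dvd.mul_left h1 (-((ξ : ℤ) * hh M ^ A1))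
    push_cast
    rw [show -((ξ : ℤ) * (hh M ^ (A1 + q.sum) * (2 ^ q.sum * (F p : ℤ) + 3 ^ n1 * (F q : ℤ))))
      - (ξ * (-(hh M ^ A1 * F p)) + 3 ^ n1 * -(ξ * (hh M ^ A1 * (hh M ^ q.sum * F q))))
      = -((ξ : ℤ) * hh M ^ A1) * (hh M ^ q.sum * (2 ^ q.sum * F p) - F p) by rw [pow_add]; ring]
    exact h2
  rw [e1]
  have e2 : (pr p : ℂ) = (((1 / 2 ^ A1 : ℝ)) : ℂ) := by rw [pr, s1]
  rw [← e2]
  push_cast
  ring

theorem L2 {n1 n2 i L A1 T : ℕ} {CC : Finset (List ℕ)} {f : ℕ → ℤ → ℝ}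
    (hf : ∀ A, Per i (f A)) (hs : CC ⊆ words L n1)
    (hC : ∀ p ∈ CC, p.length = n1 ∧ p.sum = A1 ∧ (∀ a ∈ p, 1 ≤ a) ∧ F p ≤ T * 2 ^ A1)
    (hM : 3 ^ (n1 + n2 + i) ≤ 2 ^ A1) {δ : ℝ}
    (hδ : ∀ ξ, ‖S2 (n1 + n2 + i) i L n2 A1 f ξ‖ ≤ δ) :
    ∑ m ∈ range (3 ^ (n1 + n2 + i)), ZZ CC L n2 f m ^ 2 ≤ 3 ^ (n1 + n2 + i) * (δ ^ 2 * (T + 1)) := by
  set M := n1 + n2 + i with hM'
  have hR : (0:ℝ) < 3 ^ M := by positivity
  have h1 := sumsq M (range (3 ^ M)) (fun m : ℕ => ZZ CC L n2 f m) (fun m : ℕ => -(m : ℤ))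
  have h2 : ∀ a ∈ range (3 ^ M), ∑ b ∈ range (3 ^ M), (if (3 : ℤ) ^ M ∣ -(a : ℤ) - -(b : ℤ)
      then ZZ CC L n2 f a * ZZ CC L n2 f b else 0) = ZZ CC L n2 f a ^ 2 := by
    intro a ha
    rw [Finset.sum_eq_single a]
    · simp [sq]
    · intro b hb hne
      rw [if_neg]
      intro hd
      apply hne
      rw [Finset.mem_range] at ha hb
      have h1 : ((3 ^ M : ℕ) : ℤ) ∣ (b : ℤ) - a := by
        push_cast
        rwa [show (b : ℤ) - a = -(a : ℤ) - -(b : ℤ) by ring]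
      have h2 : a ≡ b [MOD 3 ^ M] := Nat.modEq_iff_dvd.2 h1
      exact (Nat.ModEq.eq_of_lt_of_lt h2 ha hb).symm
    · intro h; exact absurd ha h
  rw [Finset.sum_congr rfl h2] at h1
  have h3 : ∀ ξ ∈ range (3 ^ M), ‖∑ a ∈ range (3 ^ M), (ZZ CC L n2 f a : ℂ) * EE M (ξ * (-(a : ℤ)))‖ ^ 2
      ≤ (3 ^ M) ^ 2 * δ ^ 2 * ‖S1 M A1 CC ξ‖ ^ 2 := by
    intro ξ _
    rw [hat_ZZ hf (fun p hp => ⟨(hC p hp).1, (hC p hp).2.1⟩), norm_mul, norm_mul, norm_pow]
    have h4 : ‖(3:ℂ)‖ = 3 := by simp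
    rw [h4]
    have h5 := hδ ξ
    have h6 : 0 ≤ ‖S2 M i L n2 A1 f ξ‖ := norm_nonneg _
    have h7 : ‖S2 M i L n2 A1 f ξ‖ ^ 2 ≤ δ ^ 2 := pow_le_pow_left₀ h6 h5 2
    calc ((3:ℝ) ^ M * (‖S1 M A1 CC ξ‖ * ‖S2 M i L n2 A1 f ξ‖)) ^ 2
        = (3 ^ M) ^ 2 * ‖S1 M A1 CC ξ‖ ^ 2 * ‖S2 M i L n2 A1 f ξ‖ ^ 2 := by ring
      _ ≤ (3 ^ M) ^ 2 * ‖S1 M A1 CC ξ‖ ^ 2 * δ ^ 2 := mul_le_mul_of_nonneg_left h7 (by positivity)
      _ = _ := by ring
  have h4 := Finset.sum_le_sum h3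
  rw [h1, ← Finset.mul_sum] at h4
  have h5 := S1_sq hs hC hM
  have h6 : (3:ℝ) ^ M * ∑ m ∈ range (3 ^ M), ZZ CC L n2 f m ^ 2
      ≤ 3 ^ M * (3 ^ M * (δ ^ 2 * (T + 1))) := by
    refine h4.trans ?_
    calc ((3:ℝ) ^ M) ^ 2 * δ ^ 2 * ∑ ξ ∈ range (3 ^ M), ‖S1 M A1 CC ξ‖ ^ 2
        ≤ ((3:ℝ) ^ M) ^ 2 * δ ^ 2 * (T + 1) := mul_le_mul_of_nonneg_left h5 (by positivity)
      _ = _ := by ring
  exact le_of_mul_le_mul_left h6 hR

theorem L1 {n1 n2 i L A1 T : ℕ} {CC : Finset (List ℕ)} {f : ℕ → ℤ → ℝ}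
    (hf : ∀ A, Per i (f A)) (hs : CC ⊆ words L n1)
    (hC : ∀ p ∈ CC, p.length = n1 ∧ p.sum = A1 ∧ (∀ a ∈ p, 1 ≤ a) ∧ F p ≤ T * 2 ^ A1)
    (hM : 3 ^ (n1 + n2 + i) ≤ 2 ^ A1) {δ : ℝ} (hδ0 : 0 ≤ δ)
    (hδ : ∀ ξ, ‖S2 (n1 + n2 + i) i L n2 A1 f ξ‖ ≤ δ) :
    Av (n1 + n2 + i) (fun m => |ZZ CC L n2 f m|) ≤ δ * Real.sqrt (T + 1) := by
  have h := L2 hf hs hC hM hδ
  set M := n1 + n2 + i with hM'
  have hR : (0:ℝ) < 3 ^ M := by positivity
  unfold Av
  rw [div_le_iff₀ hR]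
  have h1 : (∑ x ∈ range (3 ^ M), |ZZ CC L n2 f x|) ^ 2
      ≤ 3 ^ M * ∑ m ∈ range (3 ^ M), ZZ CC L n2 f m ^ 2 := by
    have := @sq_sum_le_card_mul_sum_sq ℕ ℝ _ _ _ _ (range (3 ^ M)) (fun x => |ZZ CC L n2 f x|)
    simp only [sq_abs, Finset.card_range] at this
    push_cast at this
    exact this
  have h2 : (∑ x ∈ range (3 ^ M), |ZZ CC L n2 f x|) ^ 2 ≤ (δ * Real.sqrt (T + 1) * 3 ^ M) ^ 2 := by
    refine h1.trans ?_
    rw [mul_pow, mul_pow, Real.sq_sqrt (by positivity)]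
    calc (3:ℝ) ^ M * ∑ m ∈ range (3 ^ M), ZZ CC L n2 f m ^ 2
        ≤ 3 ^ M * (3 ^ M * (δ ^ 2 * (T + 1))) := mul_le_mul_of_nonneg_left h hR.le
      _ = _ := by ring
  exact abs_le_of_sq_le_sq' h2 (by positivity) |>.2

/-- trivial bound -/
theorem triv {ι : Type} {n i : ℕ} {f : ℕ → ℤ → ℝ} (hf : ∀ A, Per i (f A))
    (h1 : ∀ A, Av i (fun x => |f A x|) ≤ 1) (s : Finset ι) (W : ι → List ℕ)
    (hs : ∀ w ∈ s, (W w).length = n) :
    Av (n + i) (fun m => |∑ w ∈ s, tm f (W w) m|) ≤ ∑ w ∈ s, pr (W w) := by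
  have h2 : Av (n + i) (fun m => |∑ w ∈ s, tm f (W w) m|)
      ≤ Av (n + i) (fun m => ∑ w ∈ s,
        (if adm m (W w) then wt (W w) * |f (W w).sum (nd m (W w))| else 0)) := by
    refine Av_mono (fun m => (Finset.abs_sum_le_sum_abs _ _).trans (Finset.sum_le_sum (fun w _ => ?_)))
    unfold tm
    split_ifs
    · rw [abs_mul, abs_of_nonneg (wt_nonneg (W w))]
    · simp
  refine h2.trans ?_
  rw [Av_sum]
  refine Finset.sum_le_sum (fun w hw => ?_)
  have hper : Per i (fun x => |f (W w).sum x|) := fun v z => by simp only [hf (W w).sum v z]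
  have h3 := Av_node (W w) i _ hper
  rw [hs w hw] at h3
  rw [h3]
  have := mul_le_mul_of_nonneg_left (h1 (W w).sum) (pr_nonneg (W w))
  linarith


theorem rr_bound (B : ℕ) : ∃ C : ℝ, 0 < C ∧ ∀ k : ℕ, (k : ℝ) ^ B * rr ^ k ≤ C := by
  have h0 : 0 ≤ rr := le_trans (by norm_num) rr_ge
  have h := tendsto_pow_const_mul_const_pow_of_lt_one B h0 rr_lt
  obtain ⟨C, hC⟩ := h.bddAbove_range
  refine ⟨max C 1, by positivity, fun k => le_max_of_le_left ?_⟩
  exact hC ⟨k, rfl⟩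

theorem pow_cond {n i n1 A : ℕ} (hn : 400 ≤ n) (hi : i ^ 2 ≤ n) (hn1 : n1 + 2 * (n / 20) = n)
    (hA : 19 * n1 ≤ 10 * A) : 3 ^ (n1 + 2 * (n / 20) + i) ≤ 2 ^ A := by
  have h1 : 20 * i ≤ n := by
    by_contra h
    push Not at h
    have : n < 20 * i := h
    have h3 : 20 * n ≤ n * n := by nlinarith
    nlinarith
  have h2 : 34 * n ≤ 20 * A := by omega
  have h3 : (3 ^ (n1 + 2 * (n / 20) + i)) ^ 20 ≤ (2 ^ A) ^ 20 := by
    calc (3 ^ (n1 + 2 * (n / 20) + i)) ^ 20 = 3 ^ ((n1 + 2 * (n / 20) + i) * 20) := by rw [pow_mul]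
      _ ≤ 3 ^ (21 * n) := Nat.pow_le_pow_right (by norm_num) (by omega)
      _ = (3 ^ 21) ^ n := by rw [pow_mul]
      _ ≤ (2 ^ 34) ^ n := Nat.pow_le_pow_left (by norm_num) n
      _ = 2 ^ (34 * n) := by rw [pow_mul]
      _ ≤ 2 ^ (A * 20) := Nat.pow_le_pow_right (by norm_num) (by omega)
      _ = (2 ^ A) ^ 20 := by rw [pow_mul]
  exact (Nat.pow_le_pow_iff_left (by norm_num)).1 h3

theorem bad_le (L k T : ℕ) (hT : 1 ≤ T) :
    ∑ p ∈ (words L k).filter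
      (fun p => ¬ (19 * k ≤ 10 * p.sum ∧ p.sum ≤ 3 * k ∧ F p ≤ T * 2 ^ p.sum)), pr p
      ≤ 2 * rr ^ k + 11 / Real.sqrt T := by
  have h1 := chern_low L k
  have h2 := chern_up L k
  have h3 := phi_markov L k T hT
  have h4 : (27 / 32 : ℝ) ^ k ≤ rr ^ k := pow_le_pow_left₀ (by norm_num) rr_ge k
  rw [Finset.sum_filter] at h1 h2 h3 ⊢
  have h5 : ∑ a ∈ words L k, (if ¬ (19 * k ≤ 10 * a.sum ∧ a.sum ≤ 3 * k ∧ F a ≤ T * 2 ^ a.sum)
      then pr a else 0) ≤ ∑ a ∈ words L k, ((if 10 * a.sum < 19 * k then pr a else 0)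
        + (if 3 * k < a.sum then pr a else 0) + (if T * 2 ^ a.sum < F a then pr a else 0)) := by
    refine Finset.sum_le_sum (fun a _ => ?_)
    have hp := pr_nonneg a
    by_cases c1 : 10 * a.sum < 19 * k
    · rw [if_pos c1]
      have : (0:ℝ) ≤ (if 3 * k < a.sum then pr a else 0) := by split_ifs <;> simp [hp]
      have : (0:ℝ) ≤ (if T * 2 ^ a.sum < F a then pr a else 0) := by split_ifs <;> simp [hp]
      split_ifs <;> linarith
    · by_cases c2 : 3 * k < a.sum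
      · rw [if_neg c1, if_pos c2]
        have : (0:ℝ) ≤ (if T * 2 ^ a.sum < F a then pr a else 0) := by split_ifs <;> simp [hp]
        split_ifs <;> linarith
      · by_cases c3 : T * 2 ^ a.sum < F a
        · rw [if_neg c1, if_neg c2, if_pos c3]
          split_ifs <;> linarith
        · rw [if_neg c1, if_neg c2, if_neg c3, if_neg]
          · simp
          · push Not
            refine ⟨by omega, by omega, by omega⟩
  rw [Finset.sum_add_distrib, Finset.sum_add_distrib] at h5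
  linarith

end MX


open MX in
/-- (MIXF) -/
theorem MIXF (B : ℕ) : ∃ C : ℝ, 0 < C ∧ ∀ n i L : ℕ, 1 ≤ i → i ^ 2 ≤ n → 2 ≤ L →
    ∀ f : ℕ → ℤ → ℝ, (∀ A, Per i (f A)) → (∀ A, Av i (f A) = 0) →
      (∀ A, Av i (fun x => |f A x|) ≤ 1) →
      Av (n + i) (fun m => |∑ w ∈ words L n, if adm m w then wt w * f w.sum (nd m w) else 0|)
        ≤ C / (n : ℝ) ^ B := by
  obtain ⟨C2, hC2, HS2⟩ := S2_bound (2 * (2 * B + 1))
  obtain ⟨Cr, hCr, Hr⟩ := rr_bound B
  refine ⟨400 ^ B + 8 * C2 * 1600 ^ (2 * B + 1) + 2 * 2 ^ B * Cr + 11, by positivity, ?_⟩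
  intro n i L hi hin hL f hf h0 h1
  have hn1 : 1 ≤ n := le_trans (by nlinarith) hin
  have hnR : (0:ℝ) < (n:ℝ) ^ B := by positivity
  rw [le_div_iff₀ hnR]
  by_cases hn : n < 400
  · have ht := triv hf h1 (words L n) (fun w => w) (fun w hw => len_words hw)
    have h2 : Av (n + i) (fun m => |∑ w ∈ words L n,
        if adm m w then wt w * f w.sum (nd m w) else 0|) ≤ 1 := ht.trans (sum_pr_le L n)
    have h3 : (n:ℝ) ^ B ≤ 400 ^ B := pow_le_pow_left₀ (by positivity) (by exact_mod_cast hn.le) B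
    have h4 : 0 ≤ 8 * C2 * 1600 ^ (2 * B + 1) + 2 * 2 ^ B * Cr + 11 := by positivity
    calc _ ≤ 1 * (n:ℝ) ^ B := mul_le_mul_of_nonneg_right h2 hnR.le
      _ ≤ _ := by linarith
  · push Not at hn
    set N := n / 20 with hN
    obtain ⟨n1, hn1e⟩ : ∃ n1, n1 + 2 * N = n := ⟨n - 2 * N, by omega⟩
    set T := n ^ (2 * B) with hT
    have hT1 : 1 ≤ T := Nat.one_le_pow _ _ (by omega)
    set P : List ℕ → Prop := fun p => 19 * n1 ≤ 10 * p.sum ∧ p.sum ≤ 3 * n1 ∧ F p ≤ T * 2 ^ p.sum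
      with hP
    set Gd := (words L n1).filter P with hGd
    set Bd := (words L n1).filter (fun p => ¬ P p) with hBd
    set I := (range (3 * n1 + 1)).filter (fun A => 19 * n1 ≤ 10 * A) with hI
    -- decomposition
    have hdec : ∀ m : ℤ, (∑ w ∈ words L n, if adm m w then wt w * f w.sum (nd m w) else 0)
        = ∑ A ∈ I, ZZ (Gd.filter (fun p => p.sum = A)) L (2 * N) f m
          + ∑ x ∈ Bd ×ˢ words L (2 * N), tm f (x.1 ++ x.2) m := by
      intro m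
      have e1 : (∑ w ∈ words L n, if adm m w then wt w * f w.sum (nd m w) else 0)
          = ∑ p ∈ words L n1, ∑ q ∈ words L (2 * N), tm f (p ++ q) m := by
        conv_lhs => rw [← hn1e]
        exact sum_words_append L n1 (2 * N) (fun w => tm f w m)
      rw [e1, ← Finset.sum_filter_add_sum_filter_not (words L n1) P, Finset.sum_product]
      congr 1
      unfold ZZ
      symm
      refine Finset.sum_fiberwise_of_maps_to (fun p hp => ?_) _
      rw [hGd, Finset.mem_filter] at hp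
      rw [hI, Finset.mem_filter, Finset.mem_range]
      exact ⟨by have := hp.2.2.1; omega, hp.2.1⟩
    have hAv : Av (n + i) (fun m => |∑ w ∈ words L n,
        if adm m w then wt w * f w.sum (nd m w) else 0|)
        ≤ ∑ A ∈ I, Av (n + i) (fun m => |ZZ (Gd.filter (fun p => p.sum = A)) L (2 * N) f m|)
          + Av (n + i) (fun m => |∑ x ∈ Bd ×ˢ words L (2 * N), tm f (x.1 ++ x.2) m|) := by
      rw [← Av_sum]
      have e2 : Av (n + i) (fun x => ∑ a ∈ I, |ZZ (Gd.filter (fun p => p.sum = a)) L (2 * N) f x|)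
          + Av (n + i) (fun m => |∑ x ∈ Bd ×ˢ words L (2 * N), tm f (x.1 ++ x.2) m|)
          = Av (n + i) (fun x => ∑ a ∈ I, |ZZ (Gd.filter (fun p => p.sum = a)) L (2 * N) f x|
            + |∑ y ∈ Bd ×ˢ words L (2 * N), tm f (y.1 ++ y.2) x|) := by
        unfold Av
        rw [← add_div, ← Finset.sum_add_distrib]
      rw [e2]
      refine Av_mono (fun m => ?_)
      rw [hdec m]
      exact (abs_add_le _ _).trans (add_le_add (Finset.abs_sum_le_sum_abs _ _) le_rfl)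
    -- bad part
    have hbad : Av (n + i) (fun m => |∑ x ∈ Bd ×ˢ words L (2 * N), tm f (x.1 ++ x.2) m|)
        ≤ 2 * rr ^ n1 + 11 / (n:ℝ) ^ B := by
      have h2 := triv (n := n) hf h1 (Bd ×ˢ words L (2 * N)) (fun x => x.1 ++ x.2) (by
        intro x hx
        rw [Finset.mem_product] at hx
        have h3 := len_words (Finset.mem_filter.1 hx.1).1
        have h4 := len_words hx.2
        simp only [List.length_append, h3, h4, hn1e])
      refine h2.trans ?_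
      rw [Finset.sum_product]
      have h3 : ∑ p ∈ Bd, ∑ q ∈ words L (2 * N), pr (p ++ q) ≤ ∑ p ∈ Bd, pr p := by
        refine Finset.sum_le_sum (fun p _ => ?_)
        simp only [pr_append]
        rw [← Finset.mul_sum]
        have := mul_le_mul_of_nonneg_left (sum_pr_le L (2 * N)) (pr_nonneg p)
        linarith
      refine h3.trans ((bad_le L n1 T hT1).trans (le_of_eq ?_))
      congr 2
      rw [hT]
      push_cast
      rw [show (n:ℝ) ^ (2 * B) = ((n:ℝ) ^ B) ^ 2 by rw [← pow_mul]; ring_nf]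
      exact Real.sqrt_sq hnR.le
    -- good part
    have hδ0 : 0 ≤ C2 * ((i:ℝ) / N) ^ (2 * (2 * B + 1)) := by positivity
    have hgood : ∀ A ∈ I, Av (n + i) (fun m => |ZZ (Gd.filter (fun p => p.sum = A)) L (2 * N) f m|)
        ≤ (C2 * ((i:ℝ) / N) ^ (2 * (2 * B + 1))) * Real.sqrt (T + 1) := by
      intro A hA
      rw [hI, Finset.mem_filter, Finset.mem_range] at hA
      have h2 := L1 (n1 := n1) (n2 := 2 * N) (i := i) (L := L) (A1 := A) (T := T)
        (CC := Gd.filter (fun p => p.sum = A)) hf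
        (fun p hp => (Finset.mem_filter.1 (Finset.mem_filter.1 hp).1).1)
        (by
          intro p hp
          rw [Finset.mem_filter, hGd, Finset.mem_filter] at hp
          have h3 := (mem_words L n1 p).1 hp.1.1
          refine ⟨h3.1, hp.2, fun a ha => (h3.2 a ha).1, ?_⟩
          have := hp.1.2.2.2
          rw [hp.2] at this
          exact this)
        (pow_cond hn hin hn1e hA.2) hδ0
        (fun ξ => HS2 N n1 i L A (by omega) hi hL f h0 h1 ξ)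
      rw [hn1e] at h2
      exact h2
    have hsum := Finset.sum_le_sum hgood
    rw [Finset.sum_const, nsmul_eq_mul] at hsum
    have hcard : (I.card : ℝ) ≤ 4 * n := by
      have : I.card ≤ 3 * n1 + 1 := by
        have := Finset.card_filter_le (range (3 * n1 + 1)) (fun A => 19 * n1 ≤ 10 * A)
        rwa [Finset.card_range] at this
      have h2 : I.card ≤ 4 * n := by omega
      exact_mod_cast h2
    have hsq : Real.sqrt (T + 1) ≤ 2 * (n:ℝ) ^ B := by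
      rw [Real.sqrt_le_left (by positivity)]
      rw [hT]
      push_cast
      have h5 : (n:ℝ) ^ (2 * B) = ((n:ℝ) ^ B) ^ 2 := by rw [← pow_mul]; ring_nf
      have h6 : (1:ℝ) ≤ (n:ℝ) ^ B := one_le_pow₀ (by exact_mod_cast hn1)
      rw [h5]; nlinarith
    have hiN : ((i:ℝ) / N) ^ (2 * (2 * B + 1)) ≤ 1600 ^ (2 * B + 1) / (n:ℝ) ^ (2 * B + 1) := by
      rw [pow_mul, ← div_pow]
      refine pow_le_pow_left₀ (by positivity) ?_ _
      have hN1 : n ≤ 40 * N := by omega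
      have hN2 : (n:ℝ) ≤ 40 * N := by exact_mod_cast hN1
      have hNp : (0:ℝ) < N := by
        have : 1 ≤ N := by omega
        exact_mod_cast this
      have hnp : (0:ℝ) < n := by exact_mod_cast hn1
      have hi2 : (i:ℝ) ^ 2 ≤ n := by exact_mod_cast hin
      rw [div_pow, div_le_div_iff₀ (by positivity) hnp]
      calc (i:ℝ) ^ 2 * n ≤ n * n := mul_le_mul_of_nonneg_right hi2 hnp.le
        _ ≤ (40 * N) * (40 * N) := mul_le_mul hN2 hN2 hnp.le (by positivity)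
        _ = 1600 * N ^ 2 := by ring
    have hmain : ∑ A ∈ I, Av (n + i) (fun m => |ZZ (Gd.filter (fun p => p.sum = A)) L (2 * N) f m|)
        ≤ 8 * C2 * 1600 ^ (2 * B + 1) / (n:ℝ) ^ B := by
      refine hsum.trans ?_
      calc (I.card : ℝ) * (C2 * ((i:ℝ) / N) ^ (2 * (2 * B + 1)) * Real.sqrt (T + 1))
          ≤ (4 * n) * (C2 * (1600 ^ (2 * B + 1) / (n:ℝ) ^ (2 * B + 1)) * (2 * (n:ℝ) ^ B)) := by
            refine mul_le_mul hcard ?_ (by positivity) (by positivity)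
            refine mul_le_mul (mul_le_mul_of_nonneg_left hiN hC2.le) hsq (by positivity) (by positivity)
        _ = 8 * C2 * 1600 ^ (2 * B + 1) / (n:ℝ) ^ B := by
            have hnp : (n:ℝ) ≠ 0 := by positivity
            rw [show 2 * B + 1 = B + B + 1 by ring, pow_add (n:ℝ), pow_add (n:ℝ)]
            field_simp
            ring
    have hrr : rr ^ n1 * (n:ℝ) ^ B ≤ 2 ^ B * Cr := by
      have h5 := Hr n1
      have h6 : (n:ℝ) ^ B ≤ (2 * n1) ^ B := by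
        refine pow_le_pow_left₀ (by positivity) ?_ B
        have : n ≤ 2 * n1 := by omega
        exact_mod_cast this
      have h7 : 0 ≤ rr := le_trans (by norm_num) rr_ge
      calc rr ^ n1 * (n:ℝ) ^ B ≤ rr ^ n1 * (2 * n1) ^ B :=
            mul_le_mul_of_nonneg_left h6 (by positivity)
        _ = 2 ^ B * ((n1:ℝ) ^ B * rr ^ n1) := by rw [mul_pow]; ring
        _ ≤ 2 ^ B * Cr := mul_le_mul_of_nonneg_left h5 (by positivity)
    have hfin := hAv.trans (add_le_add hmain hbad)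
    have h400 : (0:ℝ) ≤ 400 ^ B := by positivity
    calc _ ≤ (8 * C2 * 1600 ^ (2 * B + 1) / (n:ℝ) ^ B + (2 * rr ^ n1 + 11 / (n:ℝ) ^ B)) * (n:ℝ) ^ B :=
          mul_le_mul_of_nonneg_right hfin hnR.le
      _ = 8 * C2 * 1600 ^ (2 * B + 1) + 2 * (rr ^ n1 * (n:ℝ) ^ B) + 11 := by
          field_simp
          ring
      _ ≤ _ := by linarith

end Pool.Agent.Lib.MP_e43fce_nt_nat
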