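import Pool.Agent.Lib.MP_e43fce_nt_nat.MIXF
import Pool.Agent.Lib.MP_e43fce_nt_nat.INCg

/-! Mix: collects MIXF, INCg. -/
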