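import Pool.Agent.Lib.MP_e43fce_nt_nat.QCNT
import Pool.Agent.Lib.MP_e43fce_nt_nat.DENS

/-! QALL: equidistribution modulo odd `Q`, all integers, uniformly in `E` (relative to the density
of `E` up to `X` itself). -/

set_option autoImplicit false

namespace Pool.Agent.Lib.MP_e43fce_nt_nat

open Finset Filter Topology

/-- the indicator of `2 ^ j * z = r` modulo `Q` -/
noncomputable def fQ (Q r j : ℕ) (z : ℤ) : ℝ := if (Q : ℤ) ∣ 2 ^ j * z - r then 1 else 0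

theorem fQ_per (Q r j : ℕ) : PerQ Q (fQ Q r j) := by
  intro v z
  unfold fQ
  have h : ((Q : ℤ) ∣ 2 ^ j * (v + (Q : ℤ) * z) - r) ↔ ((Q : ℤ) ∣ 2 ^ j * v - r) := by
    have h1 : (2 : ℤ) ^ j * (v + (Q : ℤ) * z) - r = (2 ^ j * v - r) + (Q : ℤ) * (2 ^ j * z) := by
      ring
    rw [h1]
    exact (Int.dvd_add_left (Dvd.intro _ rfl))
  simp only [h]

theorem fQ_unit (Q r j : ℕ) (x : ℤ) : 0 ≤ fQ Q r j x ∧ fQ Q r j x ≤ 1 := by
  unfold fQ
  split <;> norm_num

theorem fQ_nat (Q r j m : ℕ) :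
    fQ Q r j (m : ℤ) = if (2 ^ j * m) % Q = r % Q then 1 else 0 := by
  unfold fQ
  have h : ((Q : ℤ) ∣ 2 ^ j * (m : ℤ) - r) ↔ (2 ^ j * m) % Q = r % Q := by
    have h1 : ((2 : ℤ) ^ j * (m : ℤ) - r) = ((2 ^ j * m : ℕ) : ℤ) - (r : ℤ) := by push_cast; ring
    rw [h1, ← Nat.modEq_iff_dvd]
    constructor
    · intro h; exact h.symm
    · intro h; exact h.symm
  simp only [h]

theorem fQ_av {Q : ℕ} (hQ : Q % 2 = 1) (r j : ℕ) : AvQ Q (fQ Q r j) = 1 / Q := by
  have hQ0 : 0 < Q := by omega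
  have hcop : Nat.Coprime (2 ^ j) Q := by
    apply Nat.Coprime.pow_left
    rw [Nat.coprime_two_left]
    exact Nat.odd_iff.2 hQ
  unfold AvQ
  congr 1
  simp only [fQ_nat]
  rw [Finset.sum_ite]
  simp only [sum_const_zero, add_zero, sum_const, nsmul_eq_mul, mul_one]
  have hcard : ((range Q).filter (fun x => (2 ^ j * x) % Q = r % Q)).card = 1 := by
    rw [Finset.card_eq_one]
    obtain ⟨y, hy⟩ : ∃ y : ℕ, (2 ^ j * y) % Q = 1 % Q := by
      rcases Nat.lt_or_ge 1 Q with h1 | h1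
      · obtain ⟨y, hy⟩ := Nat.exists_mul_mod_eq_one_of_coprime hcop h1
        exact ⟨y, by rw [hy.2, Nat.mod_eq_of_lt h1]⟩
      · have hQ1 : Q = 1 := by omega
        subst hQ1
        exact ⟨0, by simp⟩
    refine ⟨(y * r) % Q, ?_⟩
    ext x
    simp only [mem_filter, mem_range, mem_singleton]
    constructor
    · rintro ⟨hx, hx2⟩
      have h1 : 2 ^ j * x ≡ 2 ^ j * (y * r) [MOD Q] := by
        have h2 : 2 ^ j * (y * r) ≡ 1 * r [MOD Q] := by
          have : 2 ^ j * (y * r) = (2 ^ j * y) * r := by ring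
          rw [this]
          exact Nat.ModEq.mul_right r hy
        have h3 : 2 ^ j * x ≡ r [MOD Q] := hx2
        rw [one_mul] at h2
        exact h3.trans h2.symm
      have h4 : x ≡ y * r [MOD Q] := Nat.ModEq.cancel_left_of_coprime (by
        rw [Nat.coprime_comm] at hcop
        exact hcop) h1
      have h5 : x % Q = (y * r) % Q := h4
      rw [Nat.mod_eq_of_lt hx] at h5
      exact h5
    · intro hx
      subst hx
      refine ⟨Nat.mod_lt _ hQ0, ?_⟩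
      have h2 : 2 ^ j * (y * r) ≡ 1 * r [MOD Q] := by
        have : 2 ^ j * (y * r) = (2 ^ j * y) * r := by ring
        rw [this]
        exact Nat.ModEq.mul_right r hy
      rw [one_mul] at h2
      have h3 : 2 ^ j * ((y * r) % Q) ≡ 2 ^ j * (y * r) [MOD Q] :=
        Nat.ModEq.mul_left _ (Nat.mod_modEq _ _)
      exact h3.trans h2
  rw [hcard]
  norm_num

/-- the quantitative core: cut the powers of two at `J` -/
theorem equi_Q_core {Q : ℕ} (hQ : Q % 2 = 1) : ∃ C x0 : ℝ, 0 ≤ C ∧ 1 ≤ x0 ∧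
    ∀ E : Set ℕ, IsInv E → ∀ X : ℕ, 1 ≤ X → ∀ J : ℕ, x0 ≤ Real.log ((X : ℝ) / 2 ^ J) → ∀ r : ℕ,
      |(∑ n ∈ (Icc 1 X).filter (fun n => n % Q = r % Q), ind E n) / X
        - (1 / Q) * ((∑ n ∈ Icc 1 X, ind E n) / X)| ≤
      2 * (C * (Real.log ((X : ℝ) / 2 ^ J)) ^ (-(1 / 4) : ℝ)) + (1 / 2) ^ J * 2 := by
  obtain ⟨C, x0, hmain⟩ := equi_odd hQ
  have hQ0 : 0 < Q := by omega
  have hQR : (1 : ℝ) ≤ Q := by exact_mod_cast hQ0
  refine ⟨|C|, max x0 1, abs_nonneg C, le_max_right _ _, ?_⟩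
  intro E hE X hX1' J hlogX r
  have hXpos : (0 : ℝ) < X := by exact_mod_cast hX1'
  -- the weight
  set p : ℕ → ℝ := fun n => if n % Q = r % Q then ind E n else 0 with hp
  have hpu : Unit01 p := by
    intro n
    have := h34_ind_unit E n
    simp only [hp]
    split
    · exact this
    · norm_num
  have hsum : ∑ n ∈ (Icc 1 X).filter (fun n => n % Q = r % Q), ind E n = ∑ n ∈ Icc 1 X, p n := by
    rw [Finset.sum_filter]
  rw [hsum, mean_eq_tsum p hX1', mean_eq_tsum (ind E) hX1']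
  -- termwise comparison
  set A : ℕ → ℝ := fun j => DD 0 (fun m => p (2 ^ j * m)) (Real.log ((X : ℝ) / 2 ^ j)) with hA
  set B : ℕ → ℝ := fun j => DD 0 (fun m => ind E (2 ^ j * m)) (Real.log ((X : ℝ) / 2 ^ j)) with hB
  have hA01 : ∀ j, 0 ≤ A j ∧ A j ≤ 1 := fun j =>
    ⟨DD_nonneg (fun n => hpu _) _, DD0_le_one (fun n => hpu _) _⟩
  have hB01 : ∀ j, 0 ≤ B j ∧ B j ≤ 1 := fun j =>
    ⟨DD_nonneg (fun n => h34_ind_unit E _) _, DD0_le_one (fun n => h34_ind_unit E _) _⟩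
  have hgeo : Summable (fun j : ℕ => (1 / 2 : ℝ) ^ j) :=
    summable_geometric_of_lt_one (by norm_num) (by norm_num)
  have hsA : Summable (fun j : ℕ => (1 / 2 : ℝ) ^ j * A j) := by
    refine Summable.of_nonneg_of_le (fun j => ?_) (fun j => ?_) hgeo
    · exact mul_nonneg (by positivity) (hA01 j).1
    · have := (hA01 j).2
      have h0 : (0 : ℝ) ≤ (1 / 2) ^ j := by positivity
      nlinarith
  have hsB : Summable (fun j : ℕ => (1 / 2 : ℝ) ^ j * B j) := by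
    refine Summable.of_nonneg_of_le (fun j => ?_) (fun j => ?_) hgeo
    · exact mul_nonneg (by positivity) (hB01 j).1
    · have := (hB01 j).2
      have h0 : (0 : ℝ) ≤ (1 / 2) ^ j := by positivity
      nlinarith
  have hdiff : (∑' j : ℕ, (1 / 2 : ℝ) ^ j * A j) - (1 / Q) * (∑' j : ℕ, (1 / 2 : ℝ) ^ j * B j)
      = ∑' j : ℕ, (1 / 2 : ℝ) ^ j * (A j - (1 / Q) * B j) := by
    rw [← tsum_mul_left, ← Summable.tsum_sub hsA (hsB.mul_left _)]
    apply tsum_congr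
    intro j
    ring
  rw [hdiff]
  -- bounds
  have hQinv : (1 / (Q : ℝ)) ≤ 1 := by
    rw [div_le_one (by positivity)]; exact hQR
  have hQinv0 : 0 ≤ (1 / (Q : ℝ)) := by positivity
  have hb1 : ∀ j, |A j - (1 / Q) * B j| ≤ 1 := by
    intro j
    rw [abs_le]
    constructor
    · have h1 := (hA01 j).1
      have h2 := (hB01 j).2
      have h3 := (hB01 j).1
      nlinarith
    · have h1 := (hA01 j).2
      have h3 := (hB01 j).1
      nlinarith [mul_nonneg hQinv0 h3]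
  set T : ℝ := |C| * (Real.log ((X : ℝ) / 2 ^ J)) ^ (-(1 / 4) : ℝ) with hT
  have hxJ : (1 : ℝ) ≤ Real.log ((X : ℝ) / 2 ^ J) := le_trans (le_max_right _ _) hlogX
  have hT0 : 0 ≤ T := mul_nonneg (abs_nonneg C) (Real.rpow_nonneg (by linarith) _)
  have hb2 : ∀ j ∈ range J, |A j - (1 / Q) * B j| ≤ T := by
    intro j hj
    have hj' : j < J := mem_range.1 hj
    have hlog : Real.log ((X : ℝ) / 2 ^ J) ≤ Real.log ((X : ℝ) / 2 ^ j) := by
      apply Real.log_le_log (by positivity)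
      apply div_le_div_of_nonneg_left hXpos.le (by positivity)
      exact pow_le_pow_right₀ (by norm_num) hj'.le
    have hx0 : x0 ≤ Real.log ((X : ℝ) / 2 ^ j) := le_trans (le_trans (le_max_left _ _) hlogX) hlog
    have h1 := hmain (fQ Q r j) (fQ_per Q r j) (fQ_unit Q r j) E hE _ hx0
    have hAj : A j = (∑ n ∈ oddS (Real.exp (Real.log ((X : ℝ) / 2 ^ j))), ind E n * fQ Q r j n) /
        Real.exp (Real.log ((X : ℝ) / 2 ^ j)) := by
      simp only [hA]
      rw [DD_log (by positivity), Real.exp_log (by positivity)]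
      congr 1
      apply Finset.sum_congr rfl
      intro m hm
      have hm1 : 0 < m := by
        unfold oddS at hm
        simp only [mem_filter, mem_Icc] at hm
        exact hm.1.1
      rw [fQ_nat]
      simp only [hp]
      rw [h34_ind_congr (h34_inv_two_pow hE hm1 j)]
      split <;> simp
    have hBj : B j = DD 0 (ind E) (Real.log ((X : ℝ) / 2 ^ j)) := by
      simp only [hB]
      rw [h34_DD_ind_two_pow hE j]
    rw [fQ_av hQ, ← hAj, ← hBj] at h1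
    have hmono : (Real.log ((X : ℝ) / 2 ^ j)) ^ (-(1 / 4) : ℝ) ≤
        (Real.log ((X : ℝ) / 2 ^ J)) ^ (-(1 / 4) : ℝ) :=
      Real.rpow_le_rpow_of_nonpos (by linarith) hlog (by norm_num)
    have h0 : 0 ≤ (Real.log ((X : ℝ) / 2 ^ j)) ^ (-(1 / 4) : ℝ) :=
      Real.rpow_nonneg (by linarith) _
    refine le_trans h1 (le_trans (mul_le_mul_of_nonneg_right (le_abs_self C) h0) ?_)
    exact mul_le_mul_of_nonneg_left hmono (abs_nonneg C)
  -- final estimate
  have hsd : Summable (fun j : ℕ => (1 / 2 : ℝ) ^ j * (A j - (1 / Q) * B j)) := by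
    have : (fun j : ℕ => (1 / 2 : ℝ) ^ j * (A j - (1 / Q) * B j)) =
        fun j => (1 / 2 : ℝ) ^ j * A j - (1 / Q) * ((1 / 2 : ℝ) ^ j * B j) := by
      funext j; ring
    rw [this]
    exact hsA.sub (hsB.mul_left _)
  rw [← Summable.sum_add_tsum_nat_add J hsd]
  have hfirst : |∑ j ∈ range J, (1 / 2 : ℝ) ^ j * (A j - (1 / Q) * B j)| ≤ 2 * T := by
    refine le_trans (Finset.abs_sum_le_sum_abs _ _) ?_
    have h1 : ∑ j ∈ range J, |(1 / 2 : ℝ) ^ j * (A j - (1 / Q) * B j)| ≤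
        ∑ j ∈ range J, (1 / 2 : ℝ) ^ j * T := by
      apply Finset.sum_le_sum
      intro j hj
      rw [abs_mul, abs_of_nonneg (by positivity : (0 : ℝ) ≤ (1 / 2) ^ j)]
      exact mul_le_mul_of_nonneg_left (hb2 j hj) (by positivity)
    refine le_trans h1 ?_
    rw [← Finset.sum_mul]
    have h2 : ∑ j ∈ range J, (1 / 2 : ℝ) ^ j ≤ 2 := by
      refine le_trans (hgeo.sum_le_tsum _ (fun j _ => by positivity)) ?_
      rw [tsum_geometric_of_lt_one (by norm_num) (by norm_num)]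
      norm_num
    exact mul_le_mul_of_nonneg_right h2 hT0
  have hsecond : |∑' j : ℕ, (1 / 2 : ℝ) ^ (j + J) * (A (j + J) - (1 / Q) * B (j + J))| ≤
      (1 / 2) ^ J * 2 := by
    have hg : HasSum (fun j : ℕ => (1 / 2 : ℝ) ^ (j + J)) ((1 / 2 : ℝ) ^ J * 2) := by
      have h := (hasSum_geometric_of_lt_one (show (0 : ℝ) ≤ 1 / 2 by norm_num)
        (show (1 / 2 : ℝ) < 1 by norm_num)).mul_left ((1 / 2 : ℝ) ^ J)
      have e : (1 - 1 / 2 : ℝ)⁻¹ = 2 := by norm_num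
      rw [e] at h
      have hfun : (fun j : ℕ => (1 / 2 : ℝ) ^ (j + J)) =
          fun j : ℕ => (1 / 2 : ℝ) ^ J * (1 / 2) ^ j := by
        funext j
        rw [pow_add]; ring
      rw [hfun]
      exact h
    have h1 : ‖∑' j : ℕ, (1 / 2 : ℝ) ^ (j + J) * (A (j + J) - (1 / Q) * B (j + J))‖ ≤
        (1 / 2 : ℝ) ^ J * 2 := by
      refine tsum_of_norm_bounded hg ?_
      intro j
      rw [norm_mul, Real.norm_of_nonneg (by positivity : (0 : ℝ) ≤ (1 / 2) ^ (j + J)), Real.norm_eq_abs]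
      have := hb1 (j + J)
      have h0 : (0 : ℝ) ≤ (1 / 2) ^ (j + J) := by positivity
      nlinarith
    rw [Real.norm_eq_abs] at h1
    exact h1
  refine le_trans (abs_add_le _ _) ?_
  linarith

theorem equi_Q {Q : ℕ} (hQ : Q % 2 = 1) : ∀ ε : ℝ, 0 < ε → ∃ X0 : ℕ, ∀ E : Set ℕ, IsInv E →
    ∀ X : ℕ, X0 ≤ X → ∀ r : ℕ,
      |(∑ n ∈ (Icc 1 X).filter (fun n => n % Q = r % Q), ind E n) / X
        - (1 / Q) * ((∑ n ∈ Icc 1 X, ind E n) / X)| ≤ ε := by
  intro ε hε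
  obtain ⟨C, x0, hC0, hx01, hmain⟩ := equi_Q_core hQ
  -- choose `J`
  obtain ⟨J, hJ⟩ : ∃ J : ℕ, (1 / 2 : ℝ) ^ J * 2 < ε / 2 := by
    obtain ⟨J, hJ⟩ := exists_pow_lt_of_lt_one (show (0 : ℝ) < ε / 4 by positivity)
      (show (1 / 2 : ℝ) < 1 by norm_num)
    exact ⟨J, by linarith⟩
  -- choose the threshold for `x`
  have hlim : Tendsto (fun x : ℝ => C * x ^ (-(1 / 4) : ℝ)) atTop (𝓝 (C * 0)) :=
    Tendsto.const_mul _ (tendsto_rpow_neg_atTop (by norm_num))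
  rw [mul_zero] at hlim
  have hev : ∀ᶠ x : ℝ in atTop, C * x ^ (-(1 / 4) : ℝ) < ε / 4 :=
    hlim.eventually (gt_mem_nhds (by positivity))
  obtain ⟨x1, hx1⟩ := eventually_atTop.1 hev
  -- choose `X0`
  have hX : Tendsto (fun X : ℕ => Real.log ((X : ℝ) / 2 ^ J)) atTop atTop := by
    refine Real.tendsto_log_atTop.comp ?_
    exact tendsto_natCast_atTop_atTop.atTop_div_const (by positivity)
  obtain ⟨X1, hX1⟩ := eventually_atTop.1 (hX.eventually_ge_atTop (max x0 x1))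
  refine ⟨max X1 1, ?_⟩
  intro E hE X hXX r
  have hlogX := hX1 X (le_trans (le_max_left _ _) hXX)
  have h := hmain E hE X (le_trans (le_max_right _ _) hXX) J (le_trans (le_max_left _ _) hlogX) r
  have h2 := hx1 _ (le_trans (le_max_right _ _) hlogX)
  linarith

/-- the same with a rate -/
theorem equi_Q_rate {Q : ℕ} (hQ : Q % 2 = 1) : ∃ (C : ℝ) (X0 : ℕ), ∀ E : Set ℕ, IsInv E →
    ∀ X : ℕ, X0 ≤ X → ∀ r : ℕ,
      |(∑ n ∈ (Icc 1 X).filter (fun n => n % Q = r % Q), ind E n) / X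
        - (1 / Q) * ((∑ n ∈ Icc 1 X, ind E n) / X)| ≤ C * (Real.log X) ^ (-(1 / 4) : ℝ) := by
  obtain ⟨C, x0, hC0, hx01, hmain⟩ := equi_Q_core hQ
  refine ⟨2 * (C * (1 / 2 : ℝ) ^ (-(1 / 4) : ℝ)) + 4, ⌈Real.exp (2 * x0)⌉₊, ?_⟩
  intro E hE X hXX r
  have hXe : Real.exp (2 * x0) ≤ X := by
    have := Nat.le_ceil (Real.exp (2 * x0))
    have h2 : ((⌈Real.exp (2 * x0)⌉₊ : ℕ) : ℝ) ≤ X := by exact_mod_cast hXX
    linarith
  have hXpos : (0 : ℝ) < X := lt_of_lt_of_le (Real.exp_pos _) hXe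
  have hX1 : 1 ≤ X := by exact_mod_cast hXpos
  have hlogX : 2 * x0 ≤ Real.log X := by
    rw [Real.le_log_iff_exp_le hXpos]; exact hXe
  set J : ℕ := Nat.log 2 X / 2 with hJ
  have hJ1 : 2 ^ (2 * J) ≤ X := by
    refine le_trans (Nat.pow_le_pow_right (by norm_num) ?_) (Nat.pow_log_le_self 2 (by omega))
    omega
  have hJ2 : X < 2 ^ (2 * J + 2) := by
    refine lt_of_lt_of_le (Nat.lt_pow_succ_log_self (b := 2) (by norm_num) X) ?_
    exact Nat.pow_le_pow_right (by norm_num) (by omega)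
  have hJ1R : ((2 : ℝ) ^ J) ^ 2 ≤ X := by
    rw [← pow_mul, mul_comm J 2]
    exact_mod_cast hJ1
  have hJ2R : (X : ℝ) < 4 * ((2 : ℝ) ^ J) ^ 2 := by
    have h : (X : ℝ) < 2 ^ (2 * J + 2) := by exact_mod_cast hJ2
    have e : (2 : ℝ) ^ (2 * J + 2) = 4 * ((2 : ℝ) ^ J) ^ 2 := by
      rw [pow_add, mul_comm 2 J, pow_mul]; ring
    rw [e] at h
    exact h
  have h2J : (0 : ℝ) < 2 ^ J := by positivity
  -- lower bound for the logarithm
  have hlogJ : Real.log X / 2 ≤ Real.log ((X : ℝ) / 2 ^ J) := by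
    rw [Real.log_div hXpos.ne' h2J.ne']
    have h1 : 2 * Real.log ((2 : ℝ) ^ J) ≤ Real.log X := by
      have h := Real.log_le_log (by positivity) hJ1R
      rw [Real.log_pow ] at h
      push_cast at h
      linarith
    linarith
  have hx0J : x0 ≤ Real.log ((X : ℝ) / 2 ^ J) := by linarith
  have h := hmain E hE X hX1 J hx0J r
  have hlogpos : 0 < Real.log X := by linarith
  have hr1 : (Real.log ((X : ℝ) / 2 ^ J)) ^ (-(1 / 4) : ℝ) ≤
      (1 / 2 : ℝ) ^ (-(1 / 4) : ℝ) * (Real.log X) ^ (-(1 / 4) : ℝ) := by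
    rw [← Real.mul_rpow (by norm_num) hlogpos.le]
    exact Real.rpow_le_rpow_of_nonpos (by linarith) (by linarith) (by norm_num)
  have hr2 : (1 / 2 : ℝ) ^ J * 2 ≤ 4 * (Real.log X) ^ (-(1 / 4) : ℝ) := by
    -- `(1/2)^J < 2 / sqrt X` and `(log X)^(1/4) <= sqrt X`
    have hs : (0 : ℝ) < Real.sqrt X := Real.sqrt_pos.2 hXpos
    have hlt : Real.sqrt X < 2 * 2 ^ J := by
      rw [show (2 : ℝ) * 2 ^ J = Real.sqrt ((2 * 2 ^ J) ^ 2) from
        (Real.sqrt_sq (by positivity)).symm]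
      apply Real.sqrt_lt_sqrt hXpos.le
      nlinarith
    have hpow : (1 / 2 : ℝ) ^ J ≤ 2 / Real.sqrt X := by
      rw [one_div, inv_pow, inv_eq_one_div, div_le_div_iff₀ h2J hs]
      linarith
    have hlogle : (Real.log X) ^ ((1 / 4 : ℝ)) ≤ Real.sqrt X := by
      have h1 : Real.log X ≤ X := by
        have := Real.log_le_sub_one_of_pos hXpos
        linarith
      have hX1R : (1 : ℝ) ≤ X := by exact_mod_cast hX1
      rw [Real.sqrt_eq_rpow]
      refine le_trans (Real.rpow_le_rpow hlogpos.le h1 (by norm_num)) ?_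
      exact Real.rpow_le_rpow_of_exponent_le hX1R (by norm_num)
    have hpos4 : 0 < (Real.log X) ^ ((1 / 4 : ℝ)) := Real.rpow_pos_of_pos hlogpos _
    have hinv : 1 / Real.sqrt X ≤ (Real.log X) ^ (-(1 / 4) : ℝ) := by
      rw [Real.rpow_neg hlogpos.le, ← one_div]
      exact one_div_le_one_div_of_le hpos4 hlogle
    have h3 : (1 / 2 : ℝ) ^ J * 2 ≤ 4 * (1 / Real.sqrt X) := by
      have : 2 / Real.sqrt X = 2 * (1 / Real.sqrt X) := by ring
      rw [this] at hpow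
      linarith
    linarith
  have hr3 : C * (Real.log ((X : ℝ) / 2 ^ J)) ^ (-(1 / 4) : ℝ) ≤
      C * (1 / 2 : ℝ) ^ (-(1 / 4) : ℝ) * (Real.log X) ^ (-(1 / 4) : ℝ) := by
    rw [mul_assoc]
    exact mul_le_mul_of_nonneg_left hr1 hC0
  calc _ ≤ _ := h
    _ ≤ 2 * (C * (1 / 2 : ℝ) ^ (-(1 / 4) : ℝ) * (Real.log X) ^ (-(1 / 4) : ℝ)) +
        4 * (Real.log X) ^ (-(1 / 4) : ℝ) := by linarith
    _ = _ := by ring

end Pool.Agent.Lib.MP_e43fce_nt_nat
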