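import Pool.Agent.Lib.MP_e43fce_nt_nat.QDefs
import Pool.Agent.Lib.KQ.QFD
import Pool.Agent.Lib.MP_e43fce_nt_nat.MIXF

/-! KL3, module QMIX (helper50): mixing in L1 for functions of period `Q` of the node, `Q` odd.
Same proof as MIXF, with the modulus `Q * 3 ^ n`. -/

set_option autoImplicit false

namespace Pool.Agent.Lib.MP_e43fce_nt_nat

open Finset

namespace QM

theorem AvQ_nonneg {Q : ℕ} {f : ℤ → ℝ} (h : ∀ x, 0 ≤ f x) : 0 ≤ AvQ Q f :=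
  div_nonneg (Finset.sum_nonneg fun _ _ => h _) (by positivity)

theorem AvQ_mono {Q : ℕ} {f g : ℤ → ℝ} (h : ∀ x, f x ≤ g x) : AvQ Q f ≤ AvQ Q g :=
  div_le_div_of_nonneg_right (Finset.sum_le_sum fun _ _ => h _) (by positivity)

theorem AvQ_sum {α : Type} (Q : ℕ) (s : Finset α) (f : α → ℤ → ℝ) :
    AvQ Q (fun x => ∑ a ∈ s, f a x) = ∑ a ∈ s, AvQ Q (f a) := by
  unfold AvQ
  rw [Finset.sum_comm, Finset.sum_div]

theorem AvQ_const_mul (Q : ℕ) (c : ℝ) (f : ℤ → ℝ) : AvQ Q (fun x => c * f x) = c * AvQ Q f := by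
  unfold AvQ
  rw [← Finset.mul_sum, mul_div_assoc]

theorem AvQ_add (Q : ℕ) (f g : ℤ → ℝ) : AvQ Q (fun x => f x + g x) = AvQ Q f + AvQ Q g := by
  unfold AvQ
  rw [Finset.sum_add_distrib, add_div]

theorem PerQ_mul {α : Type} {Q : ℕ} {f : ℤ → α} (h : PerQ Q f) (R : ℕ) : PerQ (Q * R) f := by
  intro v z
  have := h v (R * z)
  rw [← this]
  congr 1
  push_cast
  ring

theorem AvQ_of_per {Q R : ℕ} (hR : 1 ≤ R) {f : ℤ → ℝ} (h : PerQ Q f) :
    AvQ (Q * R) f = AvQ Q f := by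
  unfold AvQ
  rcases Nat.eq_zero_or_pos Q with hQ | hQ
  · subst hQ; simp
  rw [wb4_range_mul Q R (fun x => f (x : ℤ))]
  have h1 : ∀ r ∈ range Q, ∑ t ∈ range R, f (((r + Q * t : ℕ)) : ℤ)
      = R * f (r : ℤ) := by
    intro r _
    have h2 : ∀ t ∈ range R, f (((r + Q * t : ℕ)) : ℤ) = f (r : ℤ) := by
      intro t _
      push_cast
      exact h _ _
    rw [Finset.sum_congr rfl h2]
    simp
  rw [Finset.sum_congr rfl h1, ← Finset.mul_sum]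
  have h3 : (R : ℝ) ≠ 0 := by positivity
  have h4 : (Q : ℝ) ≠ 0 := by positivity
  push_cast
  field_simp

/-- the sum over a period is invariant under `t -> b + 2^A t` -/
theorem kq_affine {Q : ℕ} (hQ : Q % 2 = 1) (f : ℤ → ℝ) (hf : PerQ Q f) (A : ℕ) (b : ℤ) :
    ∑ t ∈ range Q, f (b + 2 ^ A * (t : ℤ)) = ∑ t ∈ range Q, f (t : ℤ) := by
  have : NeZero Q := ⟨by rintro rfl; simp at hQ⟩
  have key : ∀ x y : ℤ, (x : ZMod Q) = (y : ZMod Q) → f x = f y := by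
    intro x y hxy
    have h1 : ((Q : ℕ) : ℤ) ∣ y - x := (ZMod.intCast_eq_intCast_iff_dvd_sub x y Q).1 hxy
    obtain ⟨z, hz⟩ := h1
    have h2 : y = x + Q * z := by linarith
    rw [h2, hf]
  have hsum : ∀ g : ℤ → ℝ, (∀ x y : ℤ, (x : ZMod Q) = (y : ZMod Q) → g x = g y) →
      ∑ t ∈ range Q, g (t : ℤ) = ∑ y : ZMod Q, g ((y.val : ℕ) : ℤ) := by
    intro g hg
    symm
    refine Finset.sum_bij (fun y _ => y.val) ?_ ?_ ?_ ?_
    · intro y _
      exact Finset.mem_range.2 (ZMod.val_lt y)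
    · intro y _ z _ h
      exact ZMod.val_injective _ h
    · intro t ht
      refine ⟨(t : ZMod Q), Finset.mem_univ _, ?_⟩
      exact ZMod.val_cast_of_lt (Finset.mem_range.1 ht)
    · intro y _
      rfl
  rw [hsum f key]
  rw [hsum (fun x => f (b + 2 ^ A * x)) (by
    intro x y hxy
    apply key
    push_cast
    rw [hxy])]
  have hu : IsUnit ((2 : ZMod Q) ^ A) := by
    apply IsUnit.pow
    have : IsUnit ((2 : ℕ) : ZMod Q) := by
      rw [ZMod.isUnit_iff_coprime]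
      rw [Nat.coprime_two_left]
      exact Nat.odd_iff.2 hQ
    simpa using this
  obtain ⟨u, hu⟩ := hu
  have hb : Function.Bijective (fun y : ZMod Q => (b : ZMod Q) + 2 ^ A * y) := by
    rw [← hu]
    exact (Equiv.addLeft (b : ZMod Q)).bijective.comp (Units.mulLeft u).bijective
  rw [← Function.Bijective.sum_comp hb (fun y : ZMod Q => f ((y.val : ℕ) : ℤ))]
  refine Finset.sum_congr rfl fun y _ => ?_
  apply key
  push_cast
  simp

/-- (EQ) for a general odd modulus -/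
theorem AvQ_node (w : List ℕ) {Q : ℕ} (hQ : Q % 2 = 1) (f : ℤ → ℝ) (hf : PerQ Q f) :
    AvQ (Q * 3 ^ w.length) (fun m => if adm m w then wt w * f (nd m w) else 0)
      = pr w * AvQ Q f := by
  unfold AvQ
  rw [mul_comm Q (3 ^ w.length), wb4_range_mul (3 ^ w.length) Q
    (fun x => if adm (x : ℤ) w then wt w * f (nd (x : ℤ) w) else 0)]
  have h1 : ∀ r ∈ range (3 ^ w.length),
      ∑ t ∈ range Q, (if adm (((r + 3 ^ w.length * t : ℕ)) : ℤ) w then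
        wt w * f (nd (((r + 3 ^ w.length * t : ℕ)) : ℤ) w) else 0)
      = if adm (r : ℤ) w then wt w * ∑ t ∈ range Q, f (t : ℤ) else 0 := by
    intro r _
    have h2 : ∀ t ∈ range Q, (if adm (((r + 3 ^ w.length * t : ℕ)) : ℤ) w then
        wt w * f (nd (((r + 3 ^ w.length * t : ℕ)) : ℤ) w) else 0)
        = if adm (r : ℤ) w then wt w * f (nd (r : ℤ) w + 2 ^ w.sum * (t : ℤ)) else 0 := by
      intro t _
      push_cast
      rw [wb4_nd_add]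
      simp only [wb4_adm_add]
    rw [Finset.sum_congr rfl h2]
    by_cases h : adm (r : ℤ) w
    · simp only [h, if_true]
      rw [← Finset.mul_sum, kq_affine hQ f hf]
    · simp [h]
  rw [Finset.sum_congr rfl h1]
  obtain ⟨r0, hr0, hr⟩ := wb4_unique w
  have h3 : ∀ r ∈ range (3 ^ w.length),
      (if adm (r : ℤ) w then wt w * ∑ t ∈ range Q, f (t : ℤ) else 0)
      = if r = r0 then wt w * ∑ t ∈ range Q, f (t : ℤ) else 0 := by
    intro r hr'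
    simp only [hr r hr']
  rw [Finset.sum_congr rfl h3, Finset.sum_ite_eq' , if_pos hr0]
  have hQ0 : (Q : ℝ) ≠ 0 := by
    have : Q ≠ 0 := by rintro rfl; simp at hQ
    exact_mod_cast this
  unfold wt pr
  push_cast
  field_simp

theorem nodeQ_per (w : List ℕ) {Q : ℕ} (f : ℤ → ℝ) (hf : PerQ Q f) :
    PerQ (Q * 3 ^ w.length) (fun m => if adm m w then wt w * f (nd m w) else 0) := by
  intro v z
  simp only
  have e : v + ((Q * 3 ^ w.length : ℕ) : ℤ) * z = v + 3 ^ w.length * ((Q : ℤ) * z) := by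
    push_cast; ring
  rw [e, wb4_nd_add]
  simp only [wb4_adm_add]
  have : f (nd v w + 2 ^ w.sum * ((Q : ℤ) * z)) = f (nd v w) := by
    rw [show nd v w + 2 ^ w.sum * ((Q : ℤ) * z) = nd v w + Q * (2 ^ w.sum * z) by ring, hf]
  rw [this]

/-- `e(a / R)` -/
noncomputable def EN (R : ℕ) (a : ℤ) : ℂ := ee ((a : ℝ) / R)

theorem EN_add (R : ℕ) (a b : ℤ) : EN R (a + b) = EN R a * EN R b := by
  unfold EN; rw [← MX.ee_add]; congr 1; push_cast; ring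

theorem norm_EN (R : ℕ) (a : ℤ) : ‖EN R a‖ = 1 := MX.norm_ee _

theorem conj_EN (R : ℕ) (a : ℤ) : (starRingEnd ℂ) (EN R a) = EN R (-a) := by
  unfold EN; rw [MX.conj_ee]; congr 1; push_cast; ring

theorem EN_zero (R : ℕ) : EN R 0 = 1 := by simp [EN, ee]

theorem EN_mul {R : ℕ} (hR : R ≠ 0) (k : ℤ) : EN R (R * k) = 1 := by
  unfold EN
  have h : (R : ℝ) ≠ 0 := by exact_mod_cast hR
  rw [show (((R * k : ℤ)) : ℝ) / R = (k : ℝ) by push_cast; field_simp]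
  exact MX.ee_int k

theorem EN_congr {R : ℕ} (hR : R ≠ 0) {a b : ℤ} (h : (R : ℤ) ∣ a - b) : EN R a = EN R b := by
  obtain ⟨k, hk⟩ := h
  rw [show a = b + R * k by rw [← hk]; ring, EN_add, EN_mul hR, mul_one]

theorem EN_lift (R : ℕ) {c : ℕ} (hc : c ≠ 0) (a : ℤ) : EN (R * c) (c * a) = EN R a := by
  unfold EN
  have h : (c : ℝ) ≠ 0 := by exact_mod_cast hc
  congr 1
  push_cast
  rcases Nat.eq_zero_or_pos R with hR | hR
  · subst hR; simp
  · have h' : (R : ℝ) ≠ 0 := by positivity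
    field_simp

theorem EN_eq_one {R : ℕ} (hR : R ≠ 0) {a : ℤ} (h : EN R a = 1) : (R : ℤ) ∣ a := by
  obtain ⟨k, hk⟩ := MX.ee_eq_one h
  have h0 : (R : ℝ) ≠ 0 := by exact_mod_cast hR
  refine ⟨k, ?_⟩
  have : (a : ℝ) = R * k := by field_simp at hk; linarith
  exact_mod_cast this

theorem EN_pow (R : ℕ) (a : ℤ) (k : ℕ) : EN R (k * a) = EN R a ^ k := by
  induction k with
  | zero => simp [EN_zero]
  | succ k ih => rw [pow_succ, ← ih, ← EN_add]; congr 1; push_cast; ring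

/-- orthogonality -/
theorem EN_orth {R : ℕ} (hR : R ≠ 0) (a : ℤ) :
    ∑ ξ ∈ range R, EN R (ξ * a) = if (R : ℤ) ∣ a then (R : ℂ) else 0 := by
  split_ifs with h
  · have : ∀ ξ ∈ range R, EN R ((ξ : ℕ) * a) = 1 := by
      intro ξ _
      rw [EN_pow, EN_congr hR (b := 0) (by simpa using h), EN_zero, one_pow]
    rw [Finset.sum_congr rfl this]; simp
  · have h1 : EN R a ≠ 1 := fun h' => h (EN_eq_one hR h')
    have h2 : ∑ ξ ∈ range R, EN R (ξ * a) = ∑ ξ ∈ range R, EN R a ^ ξ :=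
      Finset.sum_congr rfl (fun ξ _ => EN_pow R a ξ)
    rw [h2, geom_sum_eq h1, ← EN_pow, EN_mul hR]
    simp

/-- Parseval, general form -/
theorem sumsq {ι : Type} {R : ℕ} (hR : R ≠ 0) (s : Finset ι) (c : ι → ℝ) (x : ι → ℤ) :
    ∑ ξ ∈ range R, ‖∑ a ∈ s, (c a : ℂ) * EN R (ξ * x a)‖ ^ 2
      = R * ∑ a ∈ s, ∑ b ∈ s, if (R : ℤ) ∣ x a - x b then c a * c b else 0 := by
  have key : ∀ ξ : ℕ, ((‖∑ a ∈ s, (c a : ℂ) * EN R (ξ * x a)‖ ^ 2 : ℝ) : ℂ)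
      = ∑ a ∈ s, ∑ b ∈ s, ((c a * c b : ℝ) : ℂ) * EN R (ξ * (x a - x b)) := by
    intro ξ
    push_cast
    rw [← Complex.mul_conj', map_sum, Finset.sum_mul_sum]
    refine Finset.sum_congr rfl (fun a _ => Finset.sum_congr rfl (fun b _ => ?_))
    rw [map_mul, Complex.conj_ofReal, conj_EN,
      show ((ξ : ℤ) * (x a - x b)) = ξ * x a + -(ξ * x b) by ring, EN_add]
    ring
  have : ((∑ ξ ∈ range R, ‖∑ a ∈ s, (c a : ℂ) * EN R (ξ * x a)‖ ^ 2 : ℝ) : ℂ)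
      = ((R * ∑ a ∈ s, ∑ b ∈ s, if (R : ℤ) ∣ x a - x b then c a * c b else 0 : ℝ) : ℂ) := by
    rw [Complex.ofReal_sum, Finset.sum_congr rfl (fun ξ _ => key ξ), Finset.sum_comm]
    push_cast
    rw [Finset.mul_sum]
    refine Finset.sum_congr rfl (fun a _ => ?_)
    rw [Finset.sum_comm, Finset.mul_sum]
    refine Finset.sum_congr rfl (fun b _ => ?_)
    rw [← Finset.mul_sum, EN_orth hR]
    split_ifs
    · push_cast; ring
    · simp
  exact_mod_cast this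

/-- `2 * h = 1` modulo `R` gives the inverse of `2 ^ A` -/
theorem h_pow_dvd {R : ℕ} {h : ℤ} (hh : (R : ℤ) ∣ 2 * h - 1) (A : ℕ) (x : ℤ) :
    (R : ℤ) ∣ h ^ A * (2 ^ A * x) - x := by
  have h1 : (R : ℤ) ∣ (h * 2) ^ A - 1 ^ A := by
    refine dvd_trans ?_ (sub_dvd_pow_sub_pow _ _ A)
    rwa [mul_comm]
  have : h ^ A * (2 ^ A * x) - x = ((h * 2) ^ A - 1 ^ A) * x := by
    rw [mul_pow]; ring
  rw [this]; exact Dvd.dvd.mul_right h1 _

theorem h_not_dvd {Q : ℕ} {h : ℤ} (hh : (Q : ℤ) ∣ 2 * h - 1) (A : ℕ) {x : ℤ}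
    (hx : ¬ (Q : ℤ) ∣ x) : ¬ (Q : ℤ) ∣ x * h ^ A := by
  intro h'
  apply hx
  have h1 := h_pow_dvd hh A x
  have h2 : (Q : ℤ) ∣ h ^ A * (2 ^ A * x) := by
    rw [show h ^ A * (2 ^ A * x) = 2 ^ A * (x * h ^ A) by ring]
    exact Dvd.dvd.mul_left h' _
  have h3 := dvd_sub h2 h1
  rwa [show h ^ A * (2 ^ A * x) - (h ^ A * (2 ^ A * x) - x) = x by ring] at h3

/-- complex version of the average -/
theorem sum_node (w : List ℕ) {Q : ℕ} (hQ : Q % 2 = 1) (g : ℤ → ℂ) (hg : PerQ Q g) :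
    ∑ m ∈ range (Q * 3 ^ w.length), (if adm m w then (wt w : ℂ) * g (nd m w) else 0)
      = ((Q * 3 ^ w.length : ℕ) : ℂ) * ((pr w : ℂ) * ((∑ y ∈ range Q, g y) / Q)) := by
  have hre := AvQ_node w hQ (fun y => (g y).re) (fun v z => by simp only [hg v z])
  have him := AvQ_node w hQ (fun y => (g y).im) (fun v z => by simp only [hg v z])
  unfold AvQ at hre him
  have hQ0 : Q ≠ 0 := by rintro rfl; simp at hQ
  have h3 : (((Q * 3 ^ w.length : ℕ)) : ℝ) ≠ 0 := by positivity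
  rw [div_eq_iff h3] at hre him
  apply Complex.ext
  · have e1 : (∑ m ∈ range (Q * 3 ^ w.length), (if adm m w then (wt w : ℂ) * g (nd m w) else 0)).re
        = ∑ m ∈ range (Q * 3 ^ w.length), (if adm m w then wt w * (g (nd m w)).re else 0) := by
      rw [Complex.re_sum]
      refine Finset.sum_congr rfl (fun m _ => ?_)
      split_ifs <;> simp
    rw [e1, hre]
    have e2 : ((Q * 3 ^ w.length : ℕ) : ℂ) * ((pr w : ℂ) * ((∑ y ∈ range Q, g y) / Q))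
        = ((((Q * 3 ^ w.length : ℕ) : ℝ) * (pr w / Q) : ℝ) : ℂ) * ∑ y ∈ range Q, g y := by
      push_cast; ring
    rw [e2, Complex.re_ofReal_mul, Complex.re_sum]
    ring
  · have e1 : (∑ m ∈ range (Q * 3 ^ w.length), (if adm m w then (wt w : ℂ) * g (nd m w) else 0)).im
        = ∑ m ∈ range (Q * 3 ^ w.length), (if adm m w then wt w * (g (nd m w)).im else 0) := by
      rw [Complex.im_sum]
      refine Finset.sum_congr rfl (fun m _ => ?_)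
      split_ifs <;> simp
    rw [e1, him]
    have e2 : ((Q * 3 ^ w.length : ℕ) : ℂ) * ((pr w : ℂ) * ((∑ y ∈ range Q, g y) / Q))
        = ((((Q * 3 ^ w.length : ℕ) : ℝ) * (pr w / Q) : ℝ) : ℂ) * ∑ y ∈ range Q, g y := by
      push_cast; ring
    rw [e2, Complex.im_ofReal_mul, Complex.im_sum]
    ring

/-- Fourier coefficient of a function modulo `Q` -/
noncomputable def fh (Q : ℕ) (f : ℤ → ℝ) (ζ : ℤ) : ℂ :=
  (∑ y ∈ range Q, (f y : ℂ) * EN Q (-(ζ * y))) / Q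

theorem norm_fh_le (Q : ℕ) (f : ℤ → ℝ) (ζ : ℤ) : ‖fh Q f ζ‖ ≤ AvQ Q (fun x => |f x|) := by
  unfold fh AvQ
  rw [norm_div, Complex.norm_natCast]
  refine div_le_div_of_nonneg_right ?_ (by positivity)
  refine (norm_sum_le _ _).trans (Finset.sum_le_sum (fun y _ => ?_))
  rw [norm_mul, norm_EN, mul_one, Complex.norm_real, Real.norm_eq_abs]

theorem fh_zero {Q : ℕ} (hQ : Q ≠ 0) {f : ℤ → ℝ} (h : AvQ Q f = 0) {ζ : ℤ} (hζ : (Q : ℤ) ∣ ζ) :
    fh Q f ζ = 0 := by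
  unfold fh
  unfold AvQ at h
  have h3 : (Q : ℝ) ≠ 0 := by exact_mod_cast hQ
  rw [div_eq_zero_iff, or_iff_left h3] at h
  have : ∀ y ∈ range Q, (f (y : ℕ) : ℂ) * EN Q (-(ζ * (y : ℕ))) = ((f (y : ℕ) : ℝ) : ℂ) := by
    intro y _
    have : EN Q (-(ζ * (y : ℕ))) = 1 := by
      rw [EN_congr hQ (b := 0) (by
        rw [sub_zero]; exact (dvd_neg).2 (Dvd.dvd.mul_right hζ _)), EN_zero]
    rw [this, mul_one]
  rw [Finset.sum_congr rfl this, ← Complex.ofReal_sum, h]; simp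

theorem hat_word (w : List ℕ) {Q : ℕ} (hQ : Q % 2 = 1) {h : ℤ}
    (hh : ((Q * 3 ^ w.length : ℕ) : ℤ) ∣ 2 * h - 1) (f : ℤ → ℝ) (hf : PerQ Q f) (ξ : ℤ) :
    ∑ m ∈ range (Q * 3 ^ w.length),
        (((if adm m w then wt w * f (nd m w) else 0 : ℝ)) : ℂ) * EN (Q * 3 ^ w.length) (-(ξ * m))
      = ((Q * 3 ^ w.length : ℕ) : ℂ) * ((pr w : ℂ) * (EN (Q * 3 ^ w.length) (-(ξ * (h ^ w.sum * F w)))
          * fh Q f (ξ * h ^ w.sum))) := by
  have hQ0 : Q ≠ 0 := by rintro rfl; simp at hQ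
  set M := Q * 3 ^ w.length with hM
  have hM0 : M ≠ 0 := by positivity
  set k := h ^ w.sum with hk
  have hg : PerQ Q (fun y : ℤ => (f y : ℂ) * EN Q (-(ξ * k * y))) := by
    intro v z
    simp only
    rw [hf v z]
    congr 1
    apply EN_congr hQ0
    exact ⟨-(ξ * k * z), by ring⟩
  have key := sum_node w hQ _ hg
  rw [← hM] at key
  have e1 : ∀ m : ℕ, (((if adm m w then wt w * f (nd m w) else 0 : ℝ)) : ℂ) * EN M (-(ξ * m))
      = EN M (-(ξ * (k * F w))) *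
        (if adm m w then (wt w : ℂ) * ((f (nd m w) : ℂ) * EN Q (-(ξ * k * nd m w))) else 0) := by
    intro m
    split_ifs with ha
    · have h2 : (2 : ℤ) ^ w.sum * m = F w + 3 ^ w.length * nd m w := by
        unfold nd
        rw [Int.mul_ediv_cancel' ha]; ring
      have h3 : EN M (-(ξ * m)) = EN M (-(ξ * (k * F w))) * EN Q (-(ξ * k * nd m w)) := by
        have hc : (3 ^ w.length : ℕ) ≠ 0 := by positivity
        rw [← EN_lift Q hc (-(ξ * k * nd m w)), ← hM, ← EN_add]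
        apply EN_congr hM0
        have h4 := h_pow_dvd hh w.sum (m : ℤ)
        rw [h2, ← hk] at h4
        have h5 := Dvd.dvd.mul_left h4 ξ
        push_cast
        rw [show -(ξ * (m : ℤ)) - (-(ξ * (k * (F w : ℤ))) + 3 ^ w.length * -(ξ * k * nd m w))
          = ξ * (k * ((F w : ℤ) + 3 ^ w.length * nd m w) - m) by ring]
        exact h5
      rw [h3]; push_cast; ring
    · simp
  rw [Finset.sum_congr rfl (fun m _ => e1 m), ← Finset.mul_sum, key]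
  unfold fh
  ring

/-- the second factor -/
noncomputable def S2 (h : ℤ) (Q L n2 A1 : ℕ) (f : ℕ → ℤ → ℝ) (ξ : ℕ) : ℂ :=
  ∑ q ∈ words L n2, (pr q : ℂ) * (EN (Q * 3 ^ n2) (-(ξ * (h ^ A1 * (h ^ q.sum * F q)))) *
    fh Q (f (A1 + q.sum)) (ξ * h ^ (A1 + q.sum)))

/-- the first factor -/
noncomputable def S1 (h : ℤ) (R A1 : ℕ) (CC : Finset (List ℕ)) (ξ : ℕ) : ℂ :=
  ∑ p ∈ CC, (((1 / 2 ^ A1 : ℝ)) : ℂ) * EN R (ξ * (-(h ^ A1 * F p)))

theorem S2_bound (B : ℕ) : ∃ C : ℝ, 0 < C ∧ ∀ N g L Q A1 : ℕ, 1 ≤ N → 1 ≤ g → 2 ≤ L →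
    Q % 2 = 1 → Q ≤ 3 ^ g → ∀ h : ℤ, ((Q : ℤ) * 3 ^ (2 * N)) ∣ 2 * h - 1 →
    ∀ f : ℕ → ℤ → ℝ, (∀ A, AvQ Q (f A) = 0) →
      (∀ A, AvQ Q (fun x => |f A x|) ≤ 1) → ∀ ξ : ℕ,
      ‖S2 h Q L (2 * N) A1 f ξ‖ ≤ C * ((g : ℝ) / N) ^ B := by
  obtain ⟨C, hC, H⟩ := QFD B
  refine ⟨C, hC, ?_⟩
  intro N g L Q A1 hN hg hL hQ hQg h hh f h0 h1 ξ
  have hQ0 : Q ≠ 0 := by rintro rfl; simp at hQ
  by_cases hξ : (Q : ℤ) ∣ (ξ : ℤ)
  · have : S2 h Q L (2 * N) A1 f ξ = 0 := by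
      unfold S2
      refine Finset.sum_eq_zero (fun q _ => ?_)
      rw [fh_zero hQ0 (h0 _) (Dvd.dvd.mul_right hξ _)]
      simp
    rw [this, norm_zero]
    positivity
  · have hhQ : (Q : ℤ) ∣ 2 * h - 1 := dvd_trans (dvd_mul_right _ _) hh
    have hη : ¬ (Q : ℤ) ∣ ((ξ : ℤ) * h ^ A1) := h_not_dvd hhQ A1 hξ
    have key := H N g L Q hN hg hL hQ hQg h hh _ hη
      (fun a => fh Q (f (A1 + a)) (ξ * h ^ (A1 + a)))
      (fun a => (norm_fh_le Q _ _).trans (h1 _))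
    have e : S2 h Q L (2 * N) A1 f ξ = ∑ q ∈ words L (2 * N), (pr q : ℂ) *
        (fh Q (f (A1 + q.sum)) (ξ * h ^ (A1 + q.sum))) *
          ee (-(((((ξ : ℤ) * h ^ A1) * h ^ q.sum * (F q : ℤ) : ℤ)) : ℝ)
            / (Q * 3 ^ (2 * N))) := by
      unfold S2
      refine Finset.sum_congr rfl (fun q _ => ?_)
      have e1 : EN (Q * 3 ^ (2 * N)) (-((ξ : ℤ) * (h ^ A1 * (h ^ q.sum * F q))))
          = ee (-(((((ξ : ℤ) * h ^ A1) * h ^ q.sum * (F q : ℤ) : ℤ)) : ℝ)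
            / (Q * 3 ^ (2 * N))) := by
        unfold EN
        congr 1
        push_cast
        ring
      rw [e1]; ring
    rw [e]
    exact key

theorem coll {R T A1 n1 : ℕ} {CC : Finset (List ℕ)}
    (hC : ∀ p ∈ CC, p.length = n1 ∧ p.sum = A1 ∧ (∀ a ∈ p, 1 ≤ a) ∧ F p ≤ T * 2 ^ A1)
    (x : ℤ) :
    (CC.filter (fun p => (R : ℤ) ∣ (F p : ℤ) - x)).card ≤ T * 2 ^ A1 / R + 1 := by
  have h := Finset.card_le_card_of_injOn (s := CC.filter (fun p => (R : ℤ) ∣ (F p : ℤ) - x))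
    (t := range (T * 2 ^ A1 / R + 1)) (fun p => F p / R) ?_ ?_
  · simpa using h
  · intro p hp
    rw [Finset.mem_coe, Finset.mem_filter] at hp
    rw [Finset.mem_coe, Finset.mem_range]
    exact Nat.lt_succ_of_le (Nat.div_le_div_right (hC p hp.1).2.2.2)
  · intro p hp p' hp' he
    rw [Finset.mem_coe, Finset.mem_filter] at hp hp'
    simp only at he
    obtain ⟨a1, a2, a3, -⟩ := hC p hp.1
    obtain ⟨b1, b2, b3, -⟩ := hC p' hp'.1
    refine F_inj (a1.trans b1.symm) (a2.trans b2.symm) a3 b3 ?_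
    have hd : (R : ℤ) ∣ (F p : ℤ) - F p' := by
      have := dvd_sub hp.2 hp'.2
      rwa [show (F p : ℤ) - x - ((F p' : ℤ) - x) = (F p : ℤ) - F p' by ring] at this
    have hm : F p % R = F p' % R :=
      ((Nat.modEq_iff_dvd.2 hd).symm : F p ≡ F p' [MOD R])
    rw [← Nat.div_add_mod (F p) R, ← Nat.div_add_mod (F p') R, he, hm]

theorem S1_sq {R T A1 n1 L : ℕ} (hR0 : R ≠ 0) {h : ℤ} (hh : (R : ℤ) ∣ 2 * h - 1)
    {CC : Finset (List ℕ)} (hs : CC ⊆ words L n1)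
    (hC : ∀ p ∈ CC, p.length = n1 ∧ p.sum = A1 ∧ (∀ a ∈ p, 1 ≤ a) ∧ F p ≤ T * 2 ^ A1)
    (hM : R ≤ 2 ^ A1) :
    ∑ ξ ∈ range R, ‖S1 h R A1 CC ξ‖ ^ 2 ≤ T + 1 := by
  unfold S1
  rw [sumsq hR0]
  have h1 : ∀ p ∈ CC, ∑ b ∈ CC, (if (R : ℤ) ∣ -(h ^ A1 * F p) - -(h ^ A1 * F b)
      then (1 / 2 ^ A1 : ℝ) * (1 / 2 ^ A1) else 0)
      ≤ (T * 2 ^ A1 / R + 1) * ((1 / 2 ^ A1 : ℝ) * (1 / 2 ^ A1)) := by
    intro p hp
    rw [← Finset.sum_filter, Finset.sum_const, nsmul_eq_mul]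
    refine mul_le_mul_of_nonneg_right ?_ (by positivity)
    have h2 : (CC.filter (fun b => (R : ℤ) ∣ -(h ^ A1 * F p) - -(h ^ A1 * F b)))
        ⊆ CC.filter (fun b => (R : ℤ) ∣ (F b : ℤ) - F p) := by
      intro b hb
      rw [Finset.mem_filter] at hb ⊢
      refine ⟨hb.1, ?_⟩
      have h3 : (R : ℤ) ∣ h ^ A1 * ((F b : ℤ) - F p) := by
        rw [show h ^ A1 * ((F b : ℤ) - F p) = -(h ^ A1 * F p) - -(h ^ A1 * F b) by ring]
        exact hb.2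
      have h4 := h_pow_dvd hh A1 ((F b : ℤ) - F p)
      have h5 := Dvd.dvd.mul_left h3 (2 ^ A1)
      have h6 := dvd_sub h5 h4
      rwa [show (2:ℤ) ^ A1 * (h ^ A1 * ((F b : ℤ) - F p))
        - (h ^ A1 * (2 ^ A1 * ((F b : ℤ) - F p)) - ((F b : ℤ) - F p)) = (F b : ℤ) - F p by ring]
        at h6
    have h3 := (Finset.card_le_card h2).trans (coll hC (F p))
    have h4 : (((T * 2 ^ A1 / R + 1 : ℕ)) : ℝ) ≤ T * 2 ^ A1 / R + 1 := by
      push_cast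
      have := @Nat.cast_div_le ℝ _ _ _ (T * 2 ^ A1) R
      push_cast at this
      linarith
    exact le_trans (by exact_mod_cast h3) h4
  have h2 := Finset.sum_le_sum h1
  rw [Finset.sum_const, nsmul_eq_mul] at h2
  have hc := MX.card_le hs (fun p hp => (hC p hp).2.1)
  have hR : (0:ℝ) < R := by positivity
  have hA : (0:ℝ) < 2 ^ A1 := by positivity
  have hM' : (R:ℝ) ≤ 2 ^ A1 := by exact_mod_cast hM
  calc (R:ℝ) * ∑ a ∈ CC, ∑ b ∈ CC, (if (R : ℤ) ∣ -(h ^ A1 * F a) - -(h ^ A1 * F b)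
      then (1 / 2 ^ A1 : ℝ) * (1 / 2 ^ A1) else 0)
      ≤ R * ((CC.card : ℝ) * ((T * 2 ^ A1 / R + 1) * ((1 / 2 ^ A1 : ℝ) * (1 / 2 ^ A1)))) :=
        mul_le_mul_of_nonneg_left h2 hR.le
    _ ≤ R * (2 ^ A1 * ((T * 2 ^ A1 / R + 1) * ((1 / 2 ^ A1 : ℝ) * (1 / 2 ^ A1)))) := by
        refine mul_le_mul_of_nonneg_left (mul_le_mul_of_nonneg_right hc (by positivity)) hR.le
    _ = T + R / 2 ^ A1 := by field_simp
    _ ≤ T + 1 := by
        have := (div_le_one hA).2 hM'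
        linarith

theorem hat_ZZ {n1 n2 Q L A1 : ℕ} (hQ : Q % 2 = 1) {h : ℤ}
    (hh : ((Q * 3 ^ (n1 + n2) : ℕ) : ℤ) ∣ 2 * h - 1) {CC : Finset (List ℕ)} {f : ℕ → ℤ → ℝ}
    (hf : ∀ A, PerQ Q (f A)) (hC : ∀ p ∈ CC, p.length = n1 ∧ p.sum = A1) (ξ : ℕ) :
    ∑ m ∈ range (Q * 3 ^ (n1 + n2)), (MX.ZZ CC L n2 f m : ℂ) * EN (Q * 3 ^ (n1 + n2)) (ξ * (-(m : ℤ)))
      = ((Q * 3 ^ (n1 + n2) : ℕ) : ℂ) *
        (S1 h (Q * 3 ^ (n1 + n2)) A1 CC ξ * S2 h Q L n2 A1 f ξ) := by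
  have hQ0 : Q ≠ 0 := by rintro rfl; simp at hQ
  set M := Q * 3 ^ (n1 + n2) with hM
  have hM0 : M ≠ 0 := by positivity
  have e0 : ∀ m : ℕ, (MX.ZZ CC L n2 f m : ℂ) * EN M (ξ * (-(m : ℤ)))
      = ∑ p ∈ CC, ∑ q ∈ words L n2, (MX.tm f (p ++ q) m : ℂ) * EN M (-(ξ * m)) := by
    intro m
    unfold MX.ZZ
    rw [show (ξ : ℤ) * (-(m : ℤ)) = -(ξ * m) by ring]
    push_cast
    rw [Finset.sum_mul]
    refine Finset.sum_congr rfl (fun p _ => ?_)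
    rw [Finset.sum_mul]
  rw [Finset.sum_congr rfl (fun m _ => e0 m), Finset.sum_comm]
  unfold S1 S2
  rw [Finset.sum_mul_sum, Finset.mul_sum]
  refine Finset.sum_congr rfl (fun p hp => ?_)
  rw [Finset.sum_comm, Finset.mul_sum]
  refine Finset.sum_congr rfl (fun q hq => ?_)
  obtain ⟨l1, s1⟩ := hC p hp
  have l2 := MX.len_words hq
  have hlen : (p ++ q).length = n1 + n2 := by rw [List.length_append, l1, l2]
  have key := hat_word (p ++ q) hQ (by rw [hlen]; exact hh) (f (p ++ q).sum) (hf _) ξ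
  rw [hlen, ← hM] at key
  unfold MX.tm
  rw [key]
  have hsum : (p ++ q).sum = A1 + q.sum := by rw [List.sum_append, s1]
  rw [hsum, MX.pr_append]
  have e1 : EN M (-((ξ : ℤ) * (h ^ (A1 + q.sum) * F (p ++ q))))
      = EN M (ξ * (-(h ^ A1 * F p))) *
        EN (Q * 3 ^ n2) (-(ξ * (h ^ A1 * (h ^ q.sum * F q)))) := by
    have hc : (3 ^ n1 : ℕ) ≠ 0 := by positivity
    rw [← EN_lift (Q * 3 ^ n2) hc, show Q * 3 ^ n2 * 3 ^ n1 = M by rw [hM, pow_add]; ring,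
      ← EN_add]
    apply EN_congr hM0
    rw [F_append, l1]
    have h1 := h_pow_dvd hh q.sum (F p)
    have h2 := Dvd.dvd.mul_left h1 (-((ξ : ℤ) * h ^ A1))
    push_cast
    rw [show -((ξ : ℤ) * (h ^ (A1 + q.sum) * (2 ^ q.sum * (F p : ℤ) + 3 ^ n1 * (F q : ℤ))))
      - (ξ * (-(h ^ A1 * F p)) + 3 ^ n1 * -(ξ * (h ^ A1 * (h ^ q.sum * F q))))
      = -((ξ : ℤ) * h ^ A1) * (h ^ q.sum * (2 ^ q.sum * F p) - F p) by rw [pow_add]; ring]
    exact h2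
  rw [e1]
  have e2 : (pr p : ℂ) = (((1 / 2 ^ A1 : ℝ)) : ℂ) := by rw [pr, s1]
  rw [← e2]
  push_cast
  ring

theorem L2 {n1 n2 Q L A1 T : ℕ} (hQ : Q % 2 = 1) {h : ℤ}
    (hh : ((Q * 3 ^ (n1 + n2) : ℕ) : ℤ) ∣ 2 * h - 1) {CC : Finset (List ℕ)} {f : ℕ → ℤ → ℝ}
    (hf : ∀ A, PerQ Q (f A)) (hs : CC ⊆ words L n1)
    (hC : ∀ p ∈ CC, p.length = n1 ∧ p.sum = A1 ∧ (∀ a ∈ p, 1 ≤ a) ∧ F p ≤ T * 2 ^ A1)
    (hM : Q * 3 ^ (n1 + n2) ≤ 2 ^ A1) {δ : ℝ}
    (hδ : ∀ ξ, ‖S2 h Q L n2 A1 f ξ‖ ≤ δ) :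
    ∑ m ∈ range (Q * 3 ^ (n1 + n2)), MX.ZZ CC L n2 f m ^ 2
      ≤ ((Q * 3 ^ (n1 + n2) : ℕ) : ℝ) * (δ ^ 2 * (T + 1)) := by
  have hQ0 : Q ≠ 0 := by rintro rfl; simp at hQ
  set M := Q * 3 ^ (n1 + n2) with hM'
  have hM0 : M ≠ 0 := by positivity
  have hR : (0:ℝ) < M := by positivity
  have h1 := sumsq hM0 (range M) (fun m : ℕ => MX.ZZ CC L n2 f m) (fun m : ℕ => -(m : ℤ))
  have h2 : ∀ a ∈ range M, ∑ b ∈ range M, (if (M : ℤ) ∣ -(a : ℤ) - -(b : ℤ)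
      then MX.ZZ CC L n2 f a * MX.ZZ CC L n2 f b else 0) = MX.ZZ CC L n2 f a ^ 2 := by
    intro a ha
    rw [Finset.sum_eq_single a]
    · simp [sq]
    · intro b hb hne
      rw [if_neg]
      intro hd
      apply hne
      rw [Finset.mem_range] at ha hb
      have h1 : (M : ℤ) ∣ (b : ℤ) - a := by
        rwa [show (b : ℤ) - a = -(a : ℤ) - -(b : ℤ) by ring]
      have h2 : a ≡ b [MOD M] := Nat.modEq_iff_dvd.2 h1
      exact (Nat.ModEq.eq_of_lt_of_lt h2 ha hb).symm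
    · intro h; exact absurd ha h
  rw [Finset.sum_congr rfl h2] at h1
  have h3 : ∀ ξ ∈ range M, ‖∑ a ∈ range M, (MX.ZZ CC L n2 f a : ℂ) * EN M (ξ * (-(a : ℤ)))‖ ^ 2
      ≤ (M:ℝ) ^ 2 * δ ^ 2 * ‖S1 h M A1 CC ξ‖ ^ 2 := by
    intro ξ _
    rw [hat_ZZ hQ hh hf (fun p hp => ⟨(hC p hp).1, (hC p hp).2.1⟩), norm_mul, norm_mul,
      Complex.norm_natCast]
    have h5 := hδ ξ
    have h6 : 0 ≤ ‖S2 h Q L n2 A1 f ξ‖ := norm_nonneg _
    have h7 : ‖S2 h Q L n2 A1 f ξ‖ ^ 2 ≤ δ ^ 2 := pow_le_pow_left₀ h6 h5 2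
    calc ((M:ℝ) * (‖S1 h M A1 CC ξ‖ * ‖S2 h Q L n2 A1 f ξ‖)) ^ 2
        = (M:ℝ) ^ 2 * ‖S1 h M A1 CC ξ‖ ^ 2 * ‖S2 h Q L n2 A1 f ξ‖ ^ 2 := by ring
      _ ≤ (M:ℝ) ^ 2 * ‖S1 h M A1 CC ξ‖ ^ 2 * δ ^ 2 := mul_le_mul_of_nonneg_left h7 (by positivity)
      _ = _ := by ring
  have h4 := Finset.sum_le_sum h3
  rw [h1, ← Finset.mul_sum] at h4
  have h5 := S1_sq hM0 hh hs hC hM
  have h6 : (M:ℝ) * ∑ m ∈ range M, MX.ZZ CC L n2 f m ^ 2
      ≤ M * (M * (δ ^ 2 * (T + 1))) := by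
    refine h4.trans ?_
    calc (M:ℝ) ^ 2 * δ ^ 2 * ∑ ξ ∈ range M, ‖S1 h M A1 CC ξ‖ ^ 2
        ≤ (M:ℝ) ^ 2 * δ ^ 2 * (T + 1) := mul_le_mul_of_nonneg_left h5 (by positivity)
      _ = _ := by ring
  exact le_of_mul_le_mul_left h6 hR

theorem L1 {n1 n2 Q L A1 T : ℕ} (hQ : Q % 2 = 1) {h : ℤ}
    (hh : ((Q * 3 ^ (n1 + n2) : ℕ) : ℤ) ∣ 2 * h - 1) {CC : Finset (List ℕ)} {f : ℕ → ℤ → ℝ}
    (hf : ∀ A, PerQ Q (f A)) (hs : CC ⊆ words L n1)
    (hC : ∀ p ∈ CC, p.length = n1 ∧ p.sum = A1 ∧ (∀ a ∈ p, 1 ≤ a) ∧ F p ≤ T * 2 ^ A1)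
    (hM : Q * 3 ^ (n1 + n2) ≤ 2 ^ A1) {δ : ℝ} (hδ0 : 0 ≤ δ)
    (hδ : ∀ ξ, ‖S2 h Q L n2 A1 f ξ‖ ≤ δ) :
    AvQ (Q * 3 ^ (n1 + n2)) (fun m => |MX.ZZ CC L n2 f m|) ≤ δ * Real.sqrt (T + 1) := by
  have h := L2 hQ hh hf hs hC hM hδ
  have hQ0 : Q ≠ 0 := by rintro rfl; simp at hQ
  set M := Q * 3 ^ (n1 + n2) with hM'
  have hM0 : M ≠ 0 := by positivity
  have hR : (0:ℝ) < M := by positivity
  unfold AvQ
  rw [div_le_iff₀ hR]
  have h1 : (∑ x ∈ range M, |MX.ZZ CC L n2 f x|) ^ 2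
      ≤ M * ∑ m ∈ range M, MX.ZZ CC L n2 f m ^ 2 := by
    have := @sq_sum_le_card_mul_sum_sq ℕ ℝ _ _ _ _ (range M) (fun x => |MX.ZZ CC L n2 f x|)
    simp only [sq_abs, Finset.card_range] at this
    exact this
  have h2 : (∑ x ∈ range M, |MX.ZZ CC L n2 f x|) ^ 2 ≤ (δ * Real.sqrt (T + 1) * M) ^ 2 := by
    refine h1.trans ?_
    rw [mul_pow, mul_pow, Real.sq_sqrt (by positivity)]
    calc (M:ℝ) * ∑ m ∈ range M, MX.ZZ CC L n2 f m ^ 2
        ≤ M * (M * (δ ^ 2 * (T + 1))) := mul_le_mul_of_nonneg_left h hR.le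
      _ = _ := by ring
  exact abs_le_of_sq_le_sq' h2 (by positivity) |>.2

/-- trivial bound -/
theorem triv {ι : Type} {n Q : ℕ} (hQ : Q % 2 = 1) {f : ℕ → ℤ → ℝ} (hf : ∀ A, PerQ Q (f A))
    (h1 : ∀ A, AvQ Q (fun x => |f A x|) ≤ 1) (s : Finset ι) (W : ι → List ℕ)
    (hs : ∀ w ∈ s, (W w).length = n) :
    AvQ (Q * 3 ^ n) (fun m => |∑ w ∈ s, MX.tm f (W w) m|) ≤ ∑ w ∈ s, pr (W w) := by
  have h2 : AvQ (Q * 3 ^ n) (fun m => |∑ w ∈ s, MX.tm f (W w) m|)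
      ≤ AvQ (Q * 3 ^ n) (fun m => ∑ w ∈ s,
        (if adm m (W w) then wt (W w) * |f (W w).sum (nd m (W w))| else 0)) := by
    refine AvQ_mono (fun m => (Finset.abs_sum_le_sum_abs _ _).trans (Finset.sum_le_sum (fun w _ => ?_)))
    unfold MX.tm
    split_ifs
    · rw [abs_mul, abs_of_nonneg (MX.wt_nonneg (W w))]
    · simp
  refine h2.trans ?_
  rw [AvQ_sum]
  refine Finset.sum_le_sum (fun w hw => ?_)
  have hper : PerQ Q (fun x => |f (W w).sum x|) := fun v z => by simp only [hf (W w).sum v z]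
  have h3 := AvQ_node (W w) hQ _ hper
  rw [hs w hw] at h3
  rw [h3]
  have := mul_le_mul_of_nonneg_left (h1 (W w).sum) (MX.pr_nonneg (W w))
  linarith

end QM

open QM in
/-- (MIXF) for functions of odd period `Q` -/
theorem MIXQ (B : ℕ) : ∃ C : ℝ, 0 < C ∧ ∀ n g L Q : ℕ, 1 ≤ g → g ^ 2 ≤ n → 2 ≤ L →
    Q % 2 = 1 → Q ≤ 3 ^ g →
    ∀ f : ℕ → ℤ → ℝ, (∀ A, PerQ Q (f A)) → (∀ A, AvQ Q (f A) = 0) →
      (∀ A, AvQ Q (fun x => |f A x|) ≤ 1) →
      AvQ (Q * 3 ^ n)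
        (fun m => |∑ w ∈ words L n, if adm m w then wt w * f w.sum (nd m w) else 0|)
        ≤ C / (n : ℝ) ^ B := by
  obtain ⟨C2, hC2, HS2⟩ := S2_bound (2 * (2 * B + 1))
  obtain ⟨Cr, hCr, Hr⟩ := MX.rr_bound B
  refine ⟨400 ^ B + 8 * C2 * 1600 ^ (2 * B + 1) + 2 * 2 ^ B * Cr + 11, by positivity, ?_⟩
  intro n g L Q hg hgn hL hQ hQg f hf h0 h1
  have hn1 : 1 ≤ n := le_trans (by nlinarith) hgn
  have hnR : (0:ℝ) < (n:ℝ) ^ B := by positivity
  have hQ0 : Q ≠ 0 := by rintro rfl; simp at hQ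
  rw [le_div_iff₀ hnR]
  by_cases hn : n < 400
  · have ht := triv hQ hf h1 (words L n) (fun w => w) (fun w hw => MX.len_words hw)
    have h2 : AvQ (Q * 3 ^ n) (fun m => |∑ w ∈ words L n,
        if adm m w then wt w * f w.sum (nd m w) else 0|) ≤ 1 := ht.trans (MX.sum_pr_le L n)
    have h3 : (n:ℝ) ^ B ≤ 400 ^ B := pow_le_pow_left₀ (by positivity) (by exact_mod_cast hn.le) B
    have h4 : 0 ≤ 8 * C2 * 1600 ^ (2 * B + 1) + 2 * 2 ^ B * Cr + 11 := by positivity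
    calc _ ≤ 1 * (n:ℝ) ^ B := mul_le_mul_of_nonneg_right h2 hnR.le
      _ ≤ _ := by linarith
  · push Not at hn
    set N := n / 20 with hN
    obtain ⟨n1, hn1e⟩ : ∃ n1, n1 + 2 * N = n := ⟨n - 2 * N, by omega⟩
    set T := n ^ (2 * B) with hT
    have hT1 : 1 ≤ T := Nat.one_le_pow _ _ (by omega)
    set P : List ℕ → Prop := fun p => 19 * n1 ≤ 10 * p.sum ∧ p.sum ≤ 3 * n1 ∧ F p ≤ T * 2 ^ p.sum
      with hP
    set Gd := (words L n1).filter P with hGd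
    set Bd := (words L n1).filter (fun p => ¬ P p) with hBd
    set I := (range (3 * n1 + 1)).filter (fun A => 19 * n1 ≤ 10 * A) with hI
    -- the inverse of two
    set h : ℤ := ((Q * 3 ^ n : ℕ) + 1) / 2 with hh0
    have hh : ((Q * 3 ^ n : ℕ) : ℤ) ∣ 2 * h - 1 := by
      have hodd : (Q * 3 ^ n) % 2 = 1 := by
        have h3 : (3 ^ n) % 2 = 1 := Nat.odd_iff.1 (Odd.pow (by decide))
        rw [Nat.mul_mod, hQ, h3]
      have : 2 * h = (Q * 3 ^ n : ℕ) + 1 := by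
        rw [hh0]; omega
      rw [this]
      simp
    have hh1 : ((Q * 3 ^ (n1 + 2 * N) : ℕ) : ℤ) ∣ 2 * h - 1 := by rw [hn1e]; exact hh
    have hh2 : ((Q : ℤ) * 3 ^ (2 * N)) ∣ 2 * h - 1 := by
      refine dvd_trans ?_ hh
      push_cast
      exact mul_dvd_mul_left _ (pow_dvd_pow 3 (by omega))
    -- decomposition
    have hdec : ∀ m : ℤ, (∑ w ∈ words L n, if adm m w then wt w * f w.sum (nd m w) else 0)
        = ∑ A ∈ I, MX.ZZ (Gd.filter (fun p => p.sum = A)) L (2 * N) f m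
          + ∑ x ∈ Bd ×ˢ words L (2 * N), MX.tm f (x.1 ++ x.2) m := by
      intro m
      have e1 : (∑ w ∈ words L n, if adm m w then wt w * f w.sum (nd m w) else 0)
          = ∑ p ∈ words L n1, ∑ q ∈ words L (2 * N), MX.tm f (p ++ q) m := by
        conv_lhs => rw [← hn1e]
        exact sum_words_append L n1 (2 * N) (fun w => MX.tm f w m)
      rw [e1, ← Finset.sum_filter_add_sum_filter_not (words L n1) P, Finset.sum_product]
      congr 1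
      unfold MX.ZZ
      symm
      refine Finset.sum_fiberwise_of_maps_to (fun p hp => ?_) _
      rw [hGd, Finset.mem_filter] at hp
      rw [hI, Finset.mem_filter, Finset.mem_range]
      exact ⟨by have := hp.2.2.1; omega, hp.2.1⟩
    have hAv : AvQ (Q * 3 ^ n) (fun m => |∑ w ∈ words L n,
        if adm m w then wt w * f w.sum (nd m w) else 0|)
        ≤ ∑ A ∈ I, AvQ (Q * 3 ^ n)
            (fun m => |MX.ZZ (Gd.filter (fun p => p.sum = A)) L (2 * N) f m|)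
          + AvQ (Q * 3 ^ n) (fun m => |∑ x ∈ Bd ×ˢ words L (2 * N), MX.tm f (x.1 ++ x.2) m|) := by
      rw [← AvQ_sum, ← AvQ_add]
      refine AvQ_mono (fun m => ?_)
      rw [hdec m]
      exact (abs_add_le _ _).trans (add_le_add (Finset.abs_sum_le_sum_abs _ _) le_rfl)
    -- bad part
    have hbad : AvQ (Q * 3 ^ n) (fun m => |∑ x ∈ Bd ×ˢ words L (2 * N), MX.tm f (x.1 ++ x.2) m|)
        ≤ 2 * MX.rr ^ n1 + 11 / (n:ℝ) ^ B := by
      have h2 := triv (n := n) hQ hf h1 (Bd ×ˢ words L (2 * N)) (fun x => x.1 ++ x.2) (by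
        intro x hx
        rw [Finset.mem_product] at hx
        have h3 := MX.len_words (Finset.mem_filter.1 hx.1).1
        have h4 := MX.len_words hx.2
        simp only [List.length_append, h3, h4, hn1e])
      refine h2.trans ?_
      rw [Finset.sum_product]
      have h3 : ∑ p ∈ Bd, ∑ q ∈ words L (2 * N), pr (p ++ q) ≤ ∑ p ∈ Bd, pr p := by
        refine Finset.sum_le_sum (fun p _ => ?_)
        simp only [MX.pr_append]
        rw [← Finset.mul_sum]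
        have := mul_le_mul_of_nonneg_left (MX.sum_pr_le L (2 * N)) (MX.pr_nonneg p)
        linarith
      refine h3.trans ((MX.bad_le L n1 T hT1).trans (le_of_eq ?_))
      congr 2
      rw [hT]
      push_cast
      rw [show (n:ℝ) ^ (2 * B) = ((n:ℝ) ^ B) ^ 2 by rw [← pow_mul]; ring_nf]
      exact Real.sqrt_sq hnR.le
    -- good part
    have hδ0 : 0 ≤ C2 * ((g:ℝ) / N) ^ (2 * (2 * B + 1)) := by positivity
    have hgood : ∀ A ∈ I, AvQ (Q * 3 ^ n)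
        (fun m => |MX.ZZ (Gd.filter (fun p => p.sum = A)) L (2 * N) f m|)
        ≤ (C2 * ((g:ℝ) / N) ^ (2 * (2 * B + 1))) * Real.sqrt (T + 1) := by
      intro A hA
      rw [hI, Finset.mem_filter, Finset.mem_range] at hA
      have hcond : Q * 3 ^ (n1 + 2 * N) ≤ 2 ^ A := by
        refine le_trans ?_ (MX.pow_cond hn hgn hn1e hA.2)
        rw [pow_add _ (n1 + 2 * (n / 20)) g, mul_comm Q]
        exact Nat.mul_le_mul_left _ hQg
      have h2 := L1 (n1 := n1) (n2 := 2 * N) (Q := Q) (L := L) (A1 := A) (T := T)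
        hQ hh1 (CC := Gd.filter (fun p => p.sum = A)) hf
        (fun p hp => (Finset.mem_filter.1 (Finset.mem_filter.1 hp).1).1)
        (by
          intro p hp
          rw [Finset.mem_filter, hGd, Finset.mem_filter] at hp
          have h3 := (mem_words L n1 p).1 hp.1.1
          refine ⟨h3.1, hp.2, fun a ha => (h3.2 a ha).1, ?_⟩
          have := hp.1.2.2.2
          rw [hp.2] at this
          exact this)
        hcond hδ0
        (fun ξ => HS2 N g L Q A (by omega) hg hL hQ hQg h hh2 f h0 h1 ξ)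
      rw [hn1e] at h2
      exact h2
    have hsum := Finset.sum_le_sum hgood
    rw [Finset.sum_const, nsmul_eq_mul] at hsum
    have hcard : (I.card : ℝ) ≤ 4 * n := by
      have : I.card ≤ 3 * n1 + 1 := by
        have := Finset.card_filter_le (range (3 * n1 + 1)) (fun A => 19 * n1 ≤ 10 * A)
        rwa [Finset.card_range] at this
      have h2 : I.card ≤ 4 * n := by omega
      exact_mod_cast h2
    have hsq : Real.sqrt (T + 1) ≤ 2 * (n:ℝ) ^ B := by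
      rw [Real.sqrt_le_left (by positivity)]
      rw [hT]
      push_cast
      have h5 : (n:ℝ) ^ (2 * B) = ((n:ℝ) ^ B) ^ 2 := by rw [← pow_mul]; ring_nf
      have h6 : (1:ℝ) ≤ (n:ℝ) ^ B := one_le_pow₀ (by exact_mod_cast hn1)
      rw [h5]; nlinarith
    have hiN : ((g:ℝ) / N) ^ (2 * (2 * B + 1)) ≤ 1600 ^ (2 * B + 1) / (n:ℝ) ^ (2 * B + 1) := by
      rw [pow_mul, ← div_pow]
      refine pow_le_pow_left₀ (by positivity) ?_ _
      have hN1 : n ≤ 40 * N := by omega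
      have hN2 : (n:ℝ) ≤ 40 * N := by exact_mod_cast hN1
      have hNp : (0:ℝ) < N := by
        have : 1 ≤ N := by omega
        exact_mod_cast this
      have hnp : (0:ℝ) < n := by exact_mod_cast hn1
      have hi2 : (g:ℝ) ^ 2 ≤ n := by exact_mod_cast hgn
      rw [div_pow, div_le_div_iff₀ (by positivity) hnp]
      calc (g:ℝ) ^ 2 * n ≤ n * n := mul_le_mul_of_nonneg_right hi2 hnp.le
        _ ≤ (40 * N) * (40 * N) := mul_le_mul hN2 hN2 hnp.le (by positivity)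
        _ = 1600 * N ^ 2 := by ring
    have hmain : ∑ A ∈ I, AvQ (Q * 3 ^ n)
        (fun m => |MX.ZZ (Gd.filter (fun p => p.sum = A)) L (2 * N) f m|)
        ≤ 8 * C2 * 1600 ^ (2 * B + 1) / (n:ℝ) ^ B := by
      refine hsum.trans ?_
      calc (I.card : ℝ) * (C2 * ((g:ℝ) / N) ^ (2 * (2 * B + 1)) * Real.sqrt (T + 1))
          ≤ (4 * n) * (C2 * (1600 ^ (2 * B + 1) / (n:ℝ) ^ (2 * B + 1)) * (2 * (n:ℝ) ^ B)) := by
            refine mul_le_mul hcard ?_ (by positivity) (by positivity)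
            refine mul_le_mul (mul_le_mul_of_nonneg_left hiN hC2.le) hsq (by positivity) (by positivity)
        _ = 8 * C2 * 1600 ^ (2 * B + 1) / (n:ℝ) ^ B := by
            have hnp : (n:ℝ) ≠ 0 := by positivity
            rw [show 2 * B + 1 = B + B + 1 by ring, pow_add (n:ℝ), pow_add (n:ℝ)]
            field_simp
            ring
    have hrr : MX.rr ^ n1 * (n:ℝ) ^ B ≤ 2 ^ B * Cr := by
      have h5 := Hr n1
      have h6 : (n:ℝ) ^ B ≤ (2 * n1) ^ B := by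
        refine pow_le_pow_left₀ (by positivity) ?_ B
        have : n ≤ 2 * n1 := by omega
        exact_mod_cast this
      have h7 : 0 ≤ MX.rr := le_trans (by norm_num) MX.rr_ge
      calc MX.rr ^ n1 * (n:ℝ) ^ B ≤ MX.rr ^ n1 * (2 * n1) ^ B :=
            mul_le_mul_of_nonneg_left h6 (by positivity)
        _ = 2 ^ B * ((n1:ℝ) ^ B * MX.rr ^ n1) := by rw [mul_pow]; ring
        _ ≤ 2 ^ B * Cr := mul_le_mul_of_nonneg_left h5 (by positivity)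
    have hfin := hAv.trans (add_le_add hmain hbad)
    have h400 : (0:ℝ) ≤ 400 ^ B := by positivity
    calc _ ≤ (8 * C2 * 1600 ^ (2 * B + 1) / (n:ℝ) ^ B + (2 * MX.rr ^ n1 + 11 / (n:ℝ) ^ B)) * (n:ℝ) ^ B :=
          mul_le_mul_of_nonneg_right hfin hnR.le
      _ = 8 * C2 * 1600 ^ (2 * B + 1) + 2 * (MX.rr ^ n1 * (n:ℝ) ^ B) + 11 := by
          field_simp
          ring
      _ ≤ _ := by linarith

end Pool.Agent.Lib.MP_e43fce_nt_nat
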