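import Pool.Agent.Lib.MP_e43fce_nt_nat.WB1
import Pool.Agent.Lib.MP_e43fce_nt_nat.Rho
import Pool.Agent.Lib.MP_e43fce_nt_one.KSum
import Pool.Agent.Lib.MP_e43fce_nt_one.ClassToAll
import Pool.Agent.Lib.MP_e43fce_nt_one.Defs2

/-!
Section 4 of KL2: counting the nodes below `X` over a non periodic root of the good residue class.
-/

set_option autoImplicit false

open Finset Filter

namespace Pool.Agent.Lib.MP_e43fce_nt_nat

open Pool.Agent.Lib.MP_e43fce_nt_one (theta lt_theta theta_lt cstar ksum rho_lower rhoL)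

/-- the output of section 3 -/
structure Blocks (g : ℕ) (I : ℕ → ℕ) (P : ℕ → Finset (List ℕ)) (Ts q : ℕ) (r0 : ℤ)
    (gam : ℕ → ℝ) : Prop where
  q_pos : 0 < q
  I_zero : 450 ≤ I 0
  I_lt : ∀ k, I k < I (k + 1)
  I_le : ∀ k, I (k + 1) ≤ I k + I k / 50 + 1
  mem : ∀ k, ∀ w ∈ P k, w.length = I k ∧ (∀ a ∈ w, 1 ≤ a) ∧
    |(w.sum : ℝ) - 2 * I k| ≤ I k / g ∧ F w ≤ Ts * 2 ^ w.sum
  mass : ∀ k, ∀ m : ℤ, (q : ℤ) ∣ m - r0 → 1 / 2 ≤ ∑ w ∈ P k, if adm m w then wt w else 0
  tail : ∀ k, ∀ m : ℤ, ∀ K A : ℕ, I k < K → K ≤ 57 * I k / 50 →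
    (∑ p ∈ P k, if adm m p then wt p * rho (K - I k) (A - p.sum) else 0) - gam k ≤
    ∑ p ∈ P k, ∑ b ∈ (words A (K - I k)).filter (fun b => p.sum + b.sum = A),
      if adm m (p ++ b) then wt (p ++ b) else 0
  gam_lim : Tendsto (fun k => (I k : ℝ) * gam k) atTop (nhds 0)

theorem rho_nonneg' (j α : ℕ) : 0 ≤ rho j α := by
  unfold rho
  split_ifs <;> positivity

theorem rho_lower' (j α : ℕ) (hj : 1 ≤ j) (h : |(α : ℝ) - 2 * j| ≤ Real.sqrt j / 8) :
    1 / (8 * Real.sqrt j) ≤ rho j α := by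
  have hjr : (1 : ℝ) ≤ j := by exact_mod_cast hj
  have hα : α ≠ 0 := by
    rintro rfl
    have h1 : Real.sqrt j ≤ j := by
      rw [Real.sqrt_le_left (by positivity)]
      nlinarith
    have h2 := (abs_le.1 h).1
    push_cast at h2
    linarith
  have h3 := rho_lower hj h
  unfold rhoL at h3
  unfold rho
  rw [if_neg (by omega), if_neg hα]
  exact h3

/-- `F w ≤ ((3/2)^k - 1) 2^A` -/
theorem F_le_pow {w : List ℕ} (hw : ∀ a ∈ w, 1 ≤ a) :
    (F w : ℝ) ≤ ((3 / 2 : ℝ) ^ w.length - 1) * 2 ^ w.sum := by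
  induction w with
  | nil => simp [F]
  | cons a w ih =>
    have h1 := ih (fun b hb => hw b (by simp [hb]))
    have ha : 1 ≤ a := hw a (by simp)
    have h2 : (2 : ℝ) ≤ 2 ^ a := by
      calc (2 : ℝ) = 2 ^ 1 := by norm_num
        _ ≤ 2 ^ a := pow_le_pow_right₀ (by norm_num) ha
    have h3 : (1 : ℝ) ≤ (3 / 2 : ℝ) ^ w.length := one_le_pow₀ (by norm_num)
    have h4 : (0 : ℝ) < 2 ^ w.sum := by positivity
    simp only [F, List.length_cons, List.sum_cons]
    push_cast
    rw [pow_succ, pow_add]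
    have h5 : 0 ≤ ((3 / 2 : ℝ) ^ w.length * (3 / 2) - 1) * 2 ^ w.sum := by
      apply mul_nonneg _ h4.le
      linarith
    calc (2 : ℝ) ^ w.sum + 3 * (F w : ℝ)
        ≤ 2 ^ w.sum + 3 * (((3 / 2 : ℝ) ^ w.length - 1) * 2 ^ w.sum) := by linarith
      _ = 2 * (((3 / 2 : ℝ) ^ w.length * (3 / 2) - 1) * 2 ^ w.sum) := by ring
      _ ≤ 2 ^ a * (((3 / 2 : ℝ) ^ w.length * (3 / 2) - 1) * 2 ^ w.sum) :=
          mul_le_mul_of_nonneg_right h2 h5
      _ = _ := by ring

/-- the node of an admissible word over a positive root is a positive integer from which the root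
is reached -/
theorem nd_reach : ∀ (w : List ℕ) (m : ℕ), 0 < m → (∀ a ∈ w, 1 ≤ a) → adm m w →
    ∃ n : ℕ, 0 < n ∧ nd m w = n ∧ col^[w.length + w.sum] n = m ∧ (w ≠ [] → n % 2 = 1) := by
  intro w
  induction w with
  | nil =>
    intro m hm _ _
    exact ⟨m, hm, by simp [nd, F], by simp, by simp⟩
  | cons a w ih =>
    intro m hm hw had
    have ha : 1 ≤ a := hw a (by simp)
    have e : a :: w = [a] ++ w := rfl
    rw [e] at had
    obtain ⟨h1, h2⟩ := (adm_append _ _ _).1 had
    -- the first node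
    have h3 : (3 : ℤ) ∣ 2 ^ a * m - 1 := by
      have := h1
      unfold adm at this
      simpa [F] using this
    obtain ⟨t, ht⟩ : ∃ t : ℕ, 3 * t + 1 = 2 ^ a * m := by
      have h4 : (2 : ℕ) ≤ 2 ^ a * m := by
        calc 2 = 2 ^ 1 * 1 := by norm_num
          _ ≤ 2 ^ a * m := Nat.mul_le_mul (Nat.pow_le_pow_right (by norm_num) ha) hm
      obtain ⟨z, hz⟩ := h3
      refine ⟨z.toNat, ?_⟩
      have h5 : (0 : ℤ) ≤ z := by
        have : (2 : ℤ) ≤ 2 ^ a * m := by exact_mod_cast h4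
        omega
      zify
      rw [Int.toNat_of_nonneg h5]
      linarith
    have ht0 : 0 < t := by
      have h4 : (2 : ℕ) ≤ 2 ^ a * m := by
        calc 2 = 2 ^ 1 * 1 := by norm_num
          _ ≤ 2 ^ a * m := Nat.mul_le_mul (Nat.pow_le_pow_right (by norm_num) ha) hm
      omega
    have hnd1 : nd m [a] = t := by
      unfold nd
      have h5 : (2 : ℤ) ^ a * m = 3 * t + 1 := by exact_mod_cast ht.symm
      simp only [List.sum_cons, List.sum_nil, add_zero, F, List.length_cons, List.length_nil,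
        zero_add, pow_one]
      rw [h5]
      push_cast
      omega
    have hcol : col^[1 + a] t = m := by
      rw [add_comm, Function.iterate_add_apply, Function.iterate_one]
      have hodd : t % 2 = 1 := by
        have h6 : 2 ^ a * m = 2 * (2 ^ (a - 1) * m) := by
          rw [← mul_assoc, ← pow_succ']
          congr 2
          omega
        omega
      have : col t = 2 ^ a * m := by
        unfold col
        rw [if_neg (by omega), ht]
      rw [this]
      exact Pool.Agent.Lib.MP_e43fce_nt.KL.col_iter_two_pow a m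
    have htodd : t % 2 = 1 := by
      have h6 : 2 ^ a * m = 2 * (2 ^ (a - 1) * m) := by
        rw [← mul_assoc, ← pow_succ']
        congr 2
        omega
      omega
    rw [hnd1] at h2
    obtain ⟨n, n1, n2, n3, n4⟩ := ih t ht0 (fun b hb => hw b (by simp [hb])) h2
    refine ⟨n, n1, ?_, ?_, fun _ => ?_⟩
    · rw [e, nd_append had, hnd1, n2]
    · have e2 : (a :: w).length + (a :: w).sum = (1 + a) + (w.length + w.sum) := by
        simp only [List.length_cons, List.sum_cons]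
        ring
      rw [e2, Function.iterate_add_apply, n3, hcol]
    · by_cases hw0 : w = []
      · subst hw0
        have : nd (t : ℤ) [] = t := by simp [nd, F]
        rw [this] at n2
        have : n = t := by exact_mod_cast n2.symm
        rw [this]
        exact htodd
      · exact n4 hw0

/-- the equation of the node -/
theorem nd_eq {m : ℤ} {w : List ℕ} (h : adm m w) :
    3 ^ w.length * nd m w = 2 ^ w.sum * m - (F w : ℤ) := by
  unfold nd
  unfold adm at h
  exact Int.mul_ediv_cancel' h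

/-- existence of the scale -/
theorem exists_scale {I : ℕ → ℕ} (hI0 : 450 ≤ I 0) (hlt : ∀ k, I k < I (k + 1))
    (hle : ∀ k, I (k + 1) ≤ I k + I k / 50 + 1) (k0 : ℕ) {Λ : ℝ} (hΛ : 9 / 20 * (I k0 : ℝ) ≤ Λ) :
    ∃ k, k0 ≤ k ∧ 9 / 20 * (I k : ℝ) ≤ Λ ∧ Λ ≤ 23 / 50 * (I k : ℝ) := by
  have hmono : StrictMono I := strictMono_nat_of_lt_succ hlt
  have hex : ∃ k, Λ < 9 / 20 * (I k : ℝ) := by
    obtain ⟨N, hN⟩ := exists_nat_gt (20 / 9 * Λ)
    refine ⟨N, ?_⟩
    have : (N : ℝ) ≤ I N := by exact_mod_cast hmono.id_le N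
    linarith
  classical
  set k' := Nat.find hex with hk'
  have h1 : Λ < 9 / 20 * (I k' : ℝ) := Nat.find_spec hex
  have h2 : k0 < k' := by
    by_contra hcon
    have : I k' ≤ I k0 := hmono.monotone (by omega)
    have : (I k' : ℝ) ≤ I k0 := by exact_mod_cast this
    linarith
  have h3 : ¬ Λ < 9 / 20 * (I (k' - 1) : ℝ) := Nat.find_min hex (by omega)
  refine ⟨k' - 1, by omega, not_lt.1 h3, ?_⟩
  have h4 := hle (k' - 1)
  have e : k' - 1 + 1 = k' := by omega
  rw [e] at h4
  have h5 : 50 * I k' ≤ 51 * I (k' - 1) + 50 := by omega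
  have h6 : (50 : ℝ) * I k' ≤ 51 * I (k' - 1) + 50 := by exact_mod_cast h5
  have h7 : 450 ≤ I (k' - 1) := hI0.trans (hmono.monotone (Nat.zero_le _))
  have h8 : (450 : ℝ) ≤ I (k' - 1) := by exact_mod_cast h7
  linarith


/-- the exponent `A` with `2^A m ≤ X 3^K < 2^(A+1) m` -/
def AX (m X K : ℕ) : ℕ := Nat.log 2 (X * 3 ^ K / m)

theorem AX_le {m X : ℕ} (hm : 0 < m) (hX : m ≤ X) (K : ℕ) : 2 ^ AX m X K * m ≤ X * 3 ^ K := by
  unfold AX
  have h1 : X * 3 ^ K / m ≠ 0 := by
    have h2 : m ≤ X * 3 ^ K := hX.trans (Nat.le_mul_of_pos_right _ (by positivity))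
    have := Nat.div_pos h2 hm
    omega
  have h2 := Nat.pow_log_le_self 2 h1
  exact (Nat.le_div_iff_mul_le hm).1 h2

theorem lt_AX {m X : ℕ} (hm : 0 < m) (K : ℕ) : X * 3 ^ K < 2 ^ (AX m X K + 1) * m := by
  unfold AX
  have h2 := Nat.lt_pow_succ_log_self (b := 2) (by norm_num) (X * 3 ^ K / m)
  rw [← Nat.succ_eq_add_one]
  exact (Nat.div_lt_iff_lt_mul hm).1 h2

theorem AX_mono {m X K K' : ℕ} (h : K ≤ K') : AX m X K ≤ AX m X K' := by
  unfold AX
  apply Nat.log_mono_right
  apply Nat.div_le_div_right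
  exact Nat.mul_le_mul_left _ (Nat.pow_le_pow_right (by norm_num) h)

/-- logarithmic form -/
theorem AX_log {m X : ℕ} (hm : 0 < m) (hX : m ≤ X) (K : ℕ) :
    Real.log ((X : ℝ) / m) / Real.log 2 + K * theta - 1 < AX m X K ∧
      (AX m X K : ℝ) ≤ Real.log ((X : ℝ) / m) / Real.log 2 + K * theta := by
  have h2 : 0 < Real.log 2 := Real.log_pos (by norm_num)
  have hmr : (0 : ℝ) < m := by exact_mod_cast hm
  have hXr : (0 : ℝ) < X := by
    have : 0 < X := by omega
    exact_mod_cast this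
  have a1 : (2 : ℝ) ^ AX m X K * m ≤ X * 3 ^ K := by exact_mod_cast AX_le hm hX K
  have a2 : (X : ℝ) * 3 ^ K < 2 ^ (AX m X K + 1) * m := by exact_mod_cast lt_AX hm K
  have b1 := Real.log_le_log (by positivity) a1
  have b2 := Real.log_lt_log (by positivity) a2
  rw [Real.log_mul (by positivity) hmr.ne', Real.log_mul hXr.ne' (by positivity), Real.log_pow,
    Real.log_pow] at b1
  rw [Real.log_mul (by positivity) hmr.ne', Real.log_mul hXr.ne' (by positivity), Real.log_pow,
    Real.log_pow] at b2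
  push_cast at b2
  rw [Real.log_div hXr.ne' hmr.ne']
  have e : (Real.log X - Real.log m) / Real.log 2 + K * theta =
      (Real.log X - Real.log m + K * Real.log 3) / Real.log 2 := by
    unfold theta
    field_simp
  constructor
  · have : (Real.log X - Real.log m) / Real.log 2 + K * theta < AX m X K + 1 := by
      rw [e, div_lt_iff₀ h2]
      linarith
    linarith
  · rw [e, le_div_iff₀ h2]
    linarith

theorem cstar_log {x : ℝ} : cstar * x = 3 * (x / Real.log 2) / (2 - theta) := by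
  have h2 : 0 < Real.log 2 := Real.log_pos (by norm_num)
  have e : Real.log (4 / 3) = (2 - theta) * Real.log 2 := by
    unfold theta
    rw [Real.log_div (by norm_num) (by norm_num)]
    have : Real.log 4 = 2 * Real.log 2 := by
      rw [show (4 : ℝ) = 2 ^ 2 by norm_num, Real.log_pow]
      norm_num
    rw [this]
    field_simp
  have hμ : (2 : ℝ) - theta ≠ 0 := by
    have := theta_lt
    linarith
  unfold cstar
  rw [e]
  field_simp

theorem count_of_blocks {ε : ℝ} (hε : 0 < ε) {g : ℕ} (hg : 100 ≤ g) (hg2 : 100 / ε ≤ g)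
    {I : ℕ → ℕ} {P : ℕ → Finset (List ℕ)} {Ts q : ℕ} {r0 : ℤ} {gam : ℕ → ℝ}
    (hB : Blocks g I P Ts q r0 gam) : ∃ x0 : ℕ, ∀ m : ℕ, 2 * (Ts + 1) ≤ m → (q : ℤ) ∣ (m : ℤ) - r0 →
      (∀ p : ℕ, 0 < p → col^[p] m ≠ m) → ∀ X : ℕ, x0 * m ≤ X →
        1 / 256 * ((X : ℝ) / m) ≤
          ((Pool.Agent.Lib.MP_e43fce_nt.KL.CG cstar ε 4 m X).card : ℝ) := by
  classical
  have hlog2 : 0 < Real.log 2 := Real.log_pos (by norm_num)
  have hlog2' : 69 / 100 < Real.log 2 := by
    have := Real.log_two_gt_d9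
    linarith
  have hgr : (100 : ℝ) ≤ g := by exact_mod_cast hg
  have hgpos : (0 : ℝ) < g := by linarith
  set κ : ℝ := 1 / g with hκ
  have hκpos : 0 < κ := by positivity
  have hκ1 : κ ≤ 1 / 100 := by
    rw [hκ]
    exact one_div_le_one_div_of_le (by norm_num) hgr
  have hκε : κ ≤ ε / 100 := by
    rw [hκ, div_le_div_iff₀ hgpos (by norm_num)]
    rw [div_le_iff₀ hε] at hg2
    linarith
  obtain ⟨I0, hI0⟩ := ksum hκpos hκ1 rho rho_nonneg' rho_lower'
  have hmonoI : StrictMono I := strictMono_nat_of_lt_succ hB.I_lt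
  -- the threshold scale
  obtain ⟨k0, hk0⟩ : ∃ k0 : ℕ, ∀ k : ℕ, k0 ≤ k → I0 ≤ I k ∧ |(I k : ℝ) * gam k| ≤ 1 / 128 := by
    have h2 : ∀ᶠ k in atTop, |(I k : ℝ) * gam k| ≤ 1 / 128 := by
      have h3 := hB.gam_lim.abs
      rw [abs_zero] at h3
      exact (h3.eventually (gt_mem_nhds (by norm_num : (0 : ℝ) < 1 / 128))).mono (fun _ h => h.le)
    obtain ⟨N, hN⟩ := eventually_atTop.1 (h2.and (eventually_ge_atTop I0))
    exact ⟨N, fun k hk => ⟨(hN k hk).2.trans (hmonoI.id_le k), (hN k hk).1⟩⟩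
  obtain ⟨x0, hx0⟩ := exists_nat_ge (max 1 (Real.exp (max (9 / 20 * (I k0 : ℝ)) (100 / ε))))
  refine ⟨x0, fun m hm hmq hnp X hX => ?_⟩
  have hmpos : 0 < m := by omega
  have hmr : (0 : ℝ) < m := by exact_mod_cast hmpos
  have hx01 : (1 : ℝ) ≤ x0 := (le_max_left _ _).trans hx0
  have hx01' : 1 ≤ x0 := by exact_mod_cast hx01
  have hmX : m ≤ X := le_trans (Nat.le_mul_of_pos_left _ hx01') hX
  have hXpos : 0 < X := by omega
  have hXr : (0 : ℝ) < X := by exact_mod_cast hXpos
  set ℓ : ℝ := Real.log ((X : ℝ) / m) with hℓ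
  set Λ : ℝ := ℓ / Real.log 2 with hΛ
  have hℓlow : max (9 / 20 * (I k0 : ℝ)) (100 / ε) ≤ ℓ := by
    rw [hℓ, Real.le_log_iff_exp_le (by positivity)]
    refine ((le_max_right _ _).trans hx0).trans ?_
    rw [le_div_iff₀ hmr]
    exact_mod_cast hX
  have hℓ0 : 0 ≤ ℓ := le_trans (by positivity) ((le_max_right _ _).trans hℓlow)
  have hΛℓ : ℓ ≤ Λ := by
    rw [hΛ, le_div_iff₀ hlog2]
    have : Real.log 2 ≤ 1 := by
      have := Real.log_two_lt_d9
      linarith
    nlinarith
  have hℓΛ : Λ * Real.log 2 = ℓ := by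
    rw [hΛ]
    field_simp
  have hΛε : 100 / ε ≤ Λ := ((le_max_right _ _).trans hℓlow).trans hΛℓ
  have hΛε' : 100 ≤ ε * Λ := by
    rw [div_le_iff₀ hε] at hΛε
    linarith
  obtain ⟨k, hk, hk1, hk2⟩ := exists_scale hB.I_zero hB.I_lt hB.I_le k0
    (((le_max_left _ _).trans hℓlow).trans hΛℓ)
  obtain ⟨hkI0, hkg⟩ := hk0 k hk
  set Ik : ℕ := I k with hIk
  have hIk450 : 450 ≤ Ik := hB.I_zero.trans (hmonoI.monotone (Nat.zero_le _))
  have hIkr : (450 : ℝ) ≤ Ik := by exact_mod_cast hIk450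
  set W : Finset ℕ := (Icc (Ik + 1) (57 * Ik / 50)).filter
    (fun K : ℕ => |(AX m X K : ℝ) - 2 * K| ≤ 2 * κ * Ik) with hW
  have hWcard : (W.card : ℝ) ≤ Ik := by
    have h1 : W.card ≤ 57 * Ik / 50 - Ik := by
      refine (card_filter_le _ _).trans ?_
      rw [Nat.card_Icc]
      omega
    have h2 : W.card ≤ Ik := by omega
    exact_mod_cast h2
  -- the counted pairs
  set T : ℕ → Finset (List ℕ × List ℕ) := fun K =>
    (P k ×ˢ words (AX m X K) (K - Ik)).filter
      (fun pb => pb.1.sum + pb.2.sum = AX m X K ∧ adm m (pb.1 ++ pb.2)) with hT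
  have hTmem : ∀ K ∈ W, ∀ pb ∈ T K, ∃ n : ℕ, 0 < n ∧ nd m (pb.1 ++ pb.2) = n ∧
      col^[K + AX m X K] n = m ∧ n % 2 = 1 ∧ n ≤ X ∧ X ≤ 4 * n ∧
      (pb.1 ++ pb.2).length = K ∧ (pb.1 ++ pb.2).sum = AX m X K ∧ pb.1.length = Ik ∧
      (∀ a ∈ pb.1 ++ pb.2, 1 ≤ a) := by
    intro K hK pb hpb
    obtain ⟨p, b⟩ := pb
    rw [hW, mem_filter, mem_Icc] at hK
    obtain ⟨⟨hK1, hK2⟩, hK3⟩ := hK
    rw [hT, mem_filter, mem_product] at hpb
    obtain ⟨⟨hp, hb⟩, hsum, had⟩ := hpb
    simp only at hp hb hsum had ⊢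
    obtain ⟨p1, p2, p3, p4⟩ := hB.mem k p hp
    obtain ⟨b1, b2⟩ := (mem_words _ _ _).1 hb
    have hlen : (p ++ b).length = K := by
      rw [List.length_append, p1, b1]
      omega
    have hsum' : (p ++ b).sum = AX m X K := by rw [List.sum_append, hsum]
    have hpos : ∀ a ∈ p ++ b, 1 ≤ a := by
      intro a ha
      rw [List.mem_append] at ha
      rcases ha with ha | ha
      · exact p2 a ha
      · exact (b2 a ha).1
    obtain ⟨n, n1, n2, n3, n4⟩ := nd_reach (p ++ b) m hmpos hpos had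
    rw [hlen, hsum'] at n3
    have hne : p ++ b ≠ [] := by
      intro h
      rw [h] at hlen
      simp at hlen
      omega
    have heq := nd_eq had
    rw [hlen, hsum', n2] at heq
    have heqr : (3 : ℝ) ^ K * n = 2 ^ AX m X K * m - F (p ++ b) := by exact_mod_cast heq
    have a1 : (2 : ℝ) ^ AX m X K * m ≤ X * 3 ^ K := by exact_mod_cast AX_le hmpos hmX K
    have a2 : (X : ℝ) * 3 ^ K < 2 ^ (AX m X K + 1) * m := by exact_mod_cast lt_AX hmpos K
    have h3K : (0 : ℝ) < 3 ^ K := by positivity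
    have hFnn : (0 : ℝ) ≤ F (p ++ b) := Nat.cast_nonneg _
    -- bound for `F`
    have hF : (F (p ++ b) : ℝ) ≤ (Ts + 1) * 2 ^ AX m X K := by
      rw [F_append, p1]
      push_cast
      have f1 : (F p : ℝ) ≤ Ts * 2 ^ p.sum := by exact_mod_cast p4
      have f2 := F_le_pow (fun a ha => (b2 a ha).1) (w := b)
      rw [b1] at f2
      have hs : (2 : ℝ) ^ AX m X K = 2 ^ p.sum * 2 ^ b.sum := by rw [← hsum, pow_add]
      have hbs : (0 : ℝ) < 2 ^ b.sum := by positivity
      -- `3^I (3/2)^j ≤ 2^(sum p)`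
      have f3 : (3 : ℝ) ^ Ik * ((3 / 2 : ℝ) ^ (K - Ik)) ≤ 2 ^ p.sum := by
        rw [← Real.log_le_log_iff (by positivity) (by positivity),
          Real.log_mul (by positivity) (by positivity), Real.log_pow, Real.log_pow, Real.log_pow,
          Real.log_div (by norm_num) (by norm_num), Nat.cast_sub (by omega)]
        have hl3 : Real.log 3 = theta * Real.log 2 := by
          unfold theta
          field_simp
        have hθ := theta_lt
        have hK2' : (K : ℝ) * 50 ≤ 57 * Ik := by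
          have : K * 50 ≤ 57 * Ik := (Nat.le_div_iff_mul_le (by norm_num)).1 hK2
          exact_mod_cast this
        have hK1' : (Ik : ℝ) ≤ K := by
          have : Ik ≤ K := by omega
          exact_mod_cast this
        have hp3 := (abs_le.1 p3).1
        have hp3' : (Ik : ℝ) / g ≤ Ik / 100 := by
          apply div_le_div_of_nonneg_left (by positivity) (by norm_num) hgr
        have hp4 : (199 / 100 : ℝ) * Ik ≤ p.sum := by linarith
        rw [hl3]
        have g1 : (Ik : ℝ) * theta ≤ Ik * (65 / 41) :=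
          mul_le_mul_of_nonneg_left hθ.le (by linarith)
        have g2 : ((K : ℝ) - Ik) * (theta - 1) ≤ ((K : ℝ) - Ik) * (24 / 41) :=
          mul_le_mul_of_nonneg_left (by linarith) (by linarith)
        have g3 : (Ik : ℝ) * theta + ((K : ℝ) - Ik) * (theta - 1) ≤ p.sum := by linarith
        have g4 : ((Ik : ℝ) * theta + ((K : ℝ) - Ik) * (theta - 1)) * Real.log 2 ≤
            p.sum * Real.log 2 := mul_le_mul_of_nonneg_right g3 hlog2.le
        linarith
      have f4 : (3 : ℝ) ^ Ik * F b ≤ 2 ^ p.sum * 2 ^ b.sum := by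
        calc (3 : ℝ) ^ Ik * F b ≤ 3 ^ Ik * (((3 / 2 : ℝ) ^ (K - Ik) - 1) * 2 ^ b.sum) :=
              mul_le_mul_of_nonneg_left f2 (by positivity)
          _ ≤ 3 ^ Ik * ((3 / 2 : ℝ) ^ (K - Ik) * 2 ^ b.sum) := by
              apply mul_le_mul_of_nonneg_left _ (by positivity)
              apply mul_le_mul_of_nonneg_right _ hbs.le
              linarith
          _ = (3 ^ Ik * (3 / 2 : ℝ) ^ (K - Ik)) * 2 ^ b.sum := by ring
          _ ≤ 2 ^ p.sum * 2 ^ b.sum := mul_le_mul_of_nonneg_right f3 hbs.le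
      have f5 : (2 : ℝ) ^ b.sum * F p ≤ 2 ^ b.sum * (Ts * 2 ^ p.sum) :=
        mul_le_mul_of_nonneg_left f1 hbs.le
      rw [hs]
      linarith
    have hmT : 2 * ((Ts : ℝ) + 1) ≤ m := by exact_mod_cast hm
    have h2A : (0 : ℝ) < 2 ^ AX m X K := by positivity
    refine ⟨n, n1, n2, n3, n4 hne, ?_, ?_, hlen, hsum', p1, hpos⟩
    · have : (n : ℝ) ≤ X := by
        have h5 : (3 : ℝ) ^ K * n ≤ 3 ^ K * X := by linarith
        exact le_of_mul_le_mul_left h5 h3K
      exact_mod_cast this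
    · have : (X : ℝ) ≤ 4 * n := by
        have h6 : ((Ts : ℝ) + 1) * 2 ^ AX m X K ≤ m / 2 * 2 ^ AX m X K :=
          mul_le_mul_of_nonneg_right (by linarith) h2A.le
        have h5 : (3 : ℝ) ^ K * X ≤ 3 ^ K * (4 * n) := by
          rw [pow_succ] at a2
          linarith
        exact le_of_mul_le_mul_left h5 h3K
      exact_mod_cast this
  -- number of steps
  have hsteps : ∀ K ∈ W, |((K + AX m X K : ℕ) : ℝ) - cstar * ℓ| ≤ ε * ℓ := by
    intro K hK
    rw [hW, mem_filter, mem_Icc] at hK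
    obtain ⟨⟨hK1, hK2⟩, hK3⟩ := hK
    obtain ⟨c1, c2⟩ := AX_log hmpos hmX K
    rw [← hℓ, ← hΛ] at c1 c2
    rw [cstar_log, ← hΛ]
    set μ : ℝ := 2 - theta with hμ
    have hμ1 : 17 / 41 < μ := by have := theta_lt; rw [hμ]; linarith
    have hμ2 : μ < 1 := by have := lt_theta; rw [hμ]; linarith
    have hμpos : 0 < μ := by linarith
    obtain ⟨d1, d2⟩ := abs_le.1 hK3
    have hκI : κ * Ik ≤ ε / 100 * Ik := mul_le_mul_of_nonneg_right hκε (by linarith)
    have hεI : ε * Ik ≤ ε * (20 / 9 * Λ) := mul_le_mul_of_nonneg_left (by linarith) hε.le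
    set Dd : ℝ := (AX m X K : ℝ) - 2 * K with hDd
    -- `K μ = Λ - δ - D`
    have e1 : (AX m X K : ℝ) = Dd + 2 * K := by rw [hDd]; ring
    have e2 : Λ - 1 - Dd < K * μ := by
      rw [hμ]
      linarith
    have e3 : K * μ ≤ Λ - Dd := by
      rw [hμ]
      linarith
    have hεℓ : 69 / 100 * (ε * Λ) ≤ ε * ℓ := by
      rw [← hℓΛ]
      have : 0 ≤ ε * Λ := by linarith
      nlinarith
    push_cast
    rw [e1]
    have e4 : (K : ℝ) + (Dd + 2 * K) - 3 * Λ / μ = (3 * (K * μ) + Dd * μ - 3 * Λ) / μ := by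
      field_simp
      ring
    rw [e4, abs_le]
    have hDκ1 : Dd * μ ≤ 2 * κ * Ik := by
      have h1 : Dd * μ ≤ 2 * κ * Ik * μ := mul_le_mul_of_nonneg_right d2 hμpos.le
      have h2 : 2 * κ * Ik * μ ≤ 2 * κ * Ik * 1 := mul_le_mul_of_nonneg_left hμ2.le (by positivity)
      linarith
    have hDκ2 : -(2 * κ * Ik) ≤ Dd * μ := by
      have h1 : -(2 * κ * Ik) * μ ≤ Dd * μ := mul_le_mul_of_nonneg_right d1 hμpos.le
      have h2 : 2 * κ * Ik * μ ≤ 2 * κ * Ik * 1 := mul_le_mul_of_nonneg_left hμ2.le (by positivity)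
      linarith
    have hμε : 17 / 41 * (ε * ℓ) ≤ ε * ℓ * μ := by
      have h3 : 0 ≤ ε * ℓ := by positivity
      have := mul_le_mul_of_nonneg_left hμ1.le h3
      linarith
    constructor
    · rw [le_div_iff₀ hμpos]
      linarith
    · rw [div_le_iff₀ hμpos]
      linarith
  -- injection
  set Φ : (Σ _ : ℕ, List ℕ × List ℕ) → ℕ := fun y => (nd m (y.2.1 ++ y.2.2)).toNat with hΦ
  have hcardle : (W.sigma T).card ≤ (Pool.Agent.Lib.MP_e43fce_nt.KL.CG cstar ε 4 m X).card := by
    apply card_le_card_of_injOn Φ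
    · rintro ⟨K, pb⟩ hy
      have hy' := mem_coe.1 hy
      rw [mem_sigma] at hy'
      obtain ⟨hK, hpb⟩ := hy'
      simp only at hK hpb
      obtain ⟨n, n1, n2, n3, n4, n5, n6, -⟩ := hTmem K hK pb hpb
      have hval : Φ ⟨K, pb⟩ = n := by
        simp only [hΦ]
        rw [n2]
        exact Int.toNat_natCast n
      rw [mem_coe, hval]
      unfold Pool.Agent.Lib.MP_e43fce_nt.KL.CG
      rw [mem_filter, mem_Icc]
      exact ⟨⟨n1, n5⟩, n6, n4, K + AX m X K, n3, hsteps K hK⟩
    · rintro ⟨K, pb⟩ hy ⟨K', pb'⟩ hy' hyy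
      have h1 := mem_coe.1 hy
      have h1' := mem_coe.1 hy'
      rw [mem_sigma] at h1 h1'
      obtain ⟨hK, hpb⟩ := h1
      obtain ⟨hK', hpb'⟩ := h1'
      simp only at hK hpb hK' hpb'
      obtain ⟨n, n1, n2, n3, n4, n5, n6, n7, n8, n9, n10⟩ := hTmem K hK pb hpb
      obtain ⟨n', n1', n2', n3', n4', n5', n6', n7', n8', n9', n10'⟩ := hTmem K' hK' pb' hpb'
      have hnn : n = n' := by
        have : Φ ⟨K, pb⟩ = Φ ⟨K', pb'⟩ := hyy
        simp only [hΦ] at this
        rw [n2, n2', Int.toNat_natCast, Int.toNat_natCast] at this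
        exact this
      subst hnn
      have hno : ∀ K1 K2 : ℕ, K1 < K2 → col^[K1 + AX m X K1] n = m →
          col^[K2 + AX m X K2] n = m → False := by
        intro K1 K2 hlt g1 g2
        have h5 := AX_mono (m := m) (X := X) hlt.le
        apply hnp (K2 + AX m X K2 - (K1 + AX m X K1)) (by omega)
        have e : K2 + AX m X K2 = (K2 + AX m X K2 - (K1 + AX m X K1)) + (K1 + AX m X K1) := by omega
        rw [e, Function.iterate_add_apply, g1] at g2
        exact g2
      have hKK : K = K' := by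
        rcases lt_trichotomy K K' with h | h | h
        · exact (hno K K' h n3 n3').elim
        · exact h
        · exact (hno K' K h n3' n3).elim
      subst hKK
      have had : adm m (pb.1 ++ pb.2) := by
        rw [hT, mem_filter] at hpb
        exact hpb.2.2
      have had' : adm m (pb'.1 ++ pb'.2) := by
        rw [hT, mem_filter] at hpb'
        exact hpb'.2.2
      have e1 := nd_eq had
      have e2 := nd_eq had'
      rw [n7, n8, n2] at e1
      rw [n7', n8', n2'] at e2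
      have hF : F (pb.1 ++ pb.2) = F (pb'.1 ++ pb'.2) := by
        have : (F (pb.1 ++ pb.2) : ℤ) = F (pb'.1 ++ pb'.2) := by linarith
        exact_mod_cast this
      have hw := F_inj (n7.trans n7'.symm) (n8.trans n8'.symm) n10 n10' hF
      obtain ⟨w1, w2⟩ := List.append_inj hw (n9.trans n9'.symm)
      have : pb = pb' := Prod.ext w1 w2
      rw [this]
  -- lower bound for the number of pairs
  have hwt : ∀ K ∈ W, (X : ℝ) / (2 * m) * (∑ p ∈ P k,
      ∑ b ∈ (words (AX m X K) (K - Ik)).filter (fun b => p.sum + b.sum = AX m X K),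
        if adm m (p ++ b) then wt (p ++ b) else 0) ≤ ((T K).card : ℝ) := by
    intro K hK
    have e1 : (∑ p ∈ P k,
        ∑ b ∈ (words (AX m X K) (K - Ik)).filter (fun b => p.sum + b.sum = AX m X K),
          if adm m (p ++ b) then wt (p ++ b) else 0) = ∑ pb ∈ T K, wt (pb.1 ++ pb.2) := by
      rw [hT, sum_filter, sum_product]
      apply sum_congr rfl
      intro p _
      rw [sum_filter]
      apply sum_congr rfl
      intro b _
      by_cases h1 : p.sum + b.sum = AX m X K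
      · by_cases h2 : adm m (p ++ b)
        · simp [h1, h2]
        · simp [h1, h2]
      · simp [h1]
    rw [e1, mul_sum]
    calc _ ≤ ∑ _pb ∈ T K, (1 : ℝ) := by
          apply sum_le_sum
          intro pb hpb
          obtain ⟨n, -, -, -, -, -, -, n7, n8, -, -⟩ := hTmem K hK pb hpb
          unfold wt
          rw [n7, n8]
          have a2 : (X : ℝ) * 3 ^ K < 2 ^ (AX m X K + 1) * m := by exact_mod_cast lt_AX hmpos K
          rw [div_mul_div_comm, div_le_one (by positivity)]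
          rw [pow_succ] at a2
          linarith
      _ = ((T K).card : ℝ) := by simp
  have hcardsum : ((W.sigma T).card : ℝ) = ∑ K ∈ W, ((T K).card : ℝ) := by
    rw [card_sigma]
    push_cast
    rfl
  -- the main term
  have hmass := hB.mass k m hmq
  have hmain : 1 / 128 ≤ ∑ K ∈ W, ∑ p ∈ P k,
      ∑ b ∈ (words (AX m X K) (K - Ik)).filter (fun b => p.sum + b.sum = AX m X K),
        if adm m (p ++ b) then wt (p ++ b) else 0 := by
    have hstep : ∀ K ∈ W, (∑ p ∈ P k, if adm m p then wt p * rho (K - Ik) (AX m X K - p.sum) else 0)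
        - gam k ≤ ∑ p ∈ P k,
      ∑ b ∈ (words (AX m X K) (K - Ik)).filter (fun b => p.sum + b.sum = AX m X K),
        if adm m (p ++ b) then wt (p ++ b) else 0 := by
      intro K hK
      rw [hW, mem_filter, mem_Icc] at hK
      exact hB.tail k m K (AX m X K) (by omega) hK.1.2
    refine le_trans ?_ (sum_le_sum hstep)
    rw [sum_sub_distrib, sum_const, nsmul_eq_mul, sum_comm]
    have h1 : 1 / 64 ≤ ∑ p ∈ P k, ∑ K ∈ W,
        (if adm m p then wt p * rho (K - Ik) (AX m X K - p.sum) else 0) := by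
      calc (1 : ℝ) / 64 = 1 / 32 * (1 / 2) := by norm_num
        _ ≤ 1 / 32 * ∑ w ∈ P k, (if adm m w then wt w else 0) :=
            mul_le_mul_of_nonneg_left hmass (by norm_num)
        _ = ∑ w ∈ P k, (if adm m w then 1 / 32 * wt w else 0) := by
            rw [mul_sum]
            apply sum_congr rfl
            intro w _
            split_ifs <;> simp
        _ ≤ _ := by
            apply sum_le_sum
            intro p hp
            split_ifs with had
            · obtain ⟨p1, p2, p3, p4⟩ := hB.mem k p hp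
              rw [← mul_sum, mul_comm (wt p)]
              apply mul_le_mul_of_nonneg_right _ (by unfold wt; positivity)
              apply hI0 Ik hkI0 Λ hk1 hk2 p.sum _ (AX m X) (fun K => AX_log hmpos hmX K)
              rw [hκ]
              refine p3.trans (le_of_eq ?_)
              ring
            · simp
    have h2 : (W.card : ℝ) * gam k ≤ 1 / 128 := by
      calc (W.card : ℝ) * gam k ≤ W.card * |gam k| :=
            mul_le_mul_of_nonneg_left (le_abs_self _) (Nat.cast_nonneg _)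
        _ ≤ Ik * |gam k| := mul_le_mul_of_nonneg_right hWcard (abs_nonneg _)
        _ = |(Ik : ℝ) * gam k| := by rw [abs_mul, abs_of_nonneg (by linarith : (0 : ℝ) ≤ Ik)]
        _ ≤ 1 / 128 := hkg
    linarith
  have hfin : 1 / 256 * ((X : ℝ) / m) ≤ ((W.sigma T).card : ℝ) := by
    rw [hcardsum]
    refine le_trans ?_ (sum_le_sum hwt)
    rw [← mul_sum]
    calc 1 / 256 * ((X : ℝ) / m) = (X : ℝ) / (2 * m) * (1 / 128) := by ring
      _ ≤ _ := mul_le_mul_of_nonneg_left hmain (by positivity)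
  refine hfin.trans ?_
  exact_mod_cast hcardle

end Pool.Agent.Lib.MP_e43fce_nt_nat
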