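import Pool.Agent.Lib.MP_e43fce_nt_nat.LemR

/-! TS-A: Lemma R with words which are short compared with the height. -/

set_option autoImplicit false

namespace Pool.Agent.Lib.MP_e43fce_nt_nat

open Finset

/-- as `lemR`, at the height `z >= x`, with words of length about `x / 5` and error
`C x ^ (-1/4)` -/
theorem lemR2 {e : ℝ} (h0 : 0 < e) (h1 : e ≤ 1 / 10) : ∃ C x0 : ℝ, 0 < C ∧ 1 ≤ x0 ∧
    ∀ y x : ℝ, x0 ≤ y → y ≤ x → ∀ K i : ℕ, y / 10 ≤ (K : ℝ) → (K : ℝ) ≤ 3 * y / 10 → i ^ 2 ≤ K →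
    ∀ (p : ℕ → ℝ) (q : ℕ → ℕ → ℝ), Unit01 p → (∀ A, Unit01 (q A)) → RHyp e K p q →
      DD i p x ≤ ∑ A ∈ win e K, rho K A * DD (i1 K) (q A) (zz x K A)
        + C * y ^ (-(1 / 4) : ℝ) := by
  obtain ⟨Cb, hCb, hbad⟩ := bad_prob h0 h1
  obtain ⟨C3, hC3, h3⟩ := step_S3 16
  obtain ⟨C4, hC4, h4⟩ := step_S4 16
  refine ⟨5 * Cb + 1100 + 2621440 * (C3 + C4) + 56, 20, by positivity, by norm_num, ?_⟩
  intro y x hy hyx K i hK1 hK2y hi p q hp hq hR
  have hx : 20 ≤ x := hy.trans hyx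
  have hy0 : (0 : ℝ) < y := by linarith
  have hx0 : (0 : ℝ) < x := by linarith
  have hK2 : (K : ℝ) ≤ 3 * x / 10 := by linarith
  set u : ℝ := y ^ (1 / 4 : ℝ) with hu
  have hu4 : u ^ 4 = y := by
    rw [hu, ← Real.rpow_natCast, ← Real.rpow_mul hy0.le]
    norm_num
  have hu1 : 1 ≤ u := Real.one_le_rpow (by linarith) (by norm_num)
  have hu0 : 0 < u := by linarith
  have huy : y ^ (-(1 / 4) : ℝ) = 1 / u := by
    rw [Real.rpow_neg hy0.le]
    exact (one_div _).symm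
  rw [huy]
  have hKr : (2 : ℝ) ≤ K := by linarith
  have hK : 2 ≤ K := by exact_mod_cast hKr
  have hKx : (K : ℝ) ≤ y := by linarith
  have hxu : u ≤ x := by
    refine le_trans ?_ hyx
    rw [← hu4]
    calc u = u ^ 1 := (pow_one u).symm
      _ ≤ u ^ 4 := pow_le_pow_right₀ hu1 (by norm_num)
  have hxinv : 1 / x ≤ 1 / u := one_div_le_one_div_of_le hu0 hxu
  have hj8 := lemR_i1_pow K
  have hj8' := lemR_lt_i1 K
  set j := i1 K with hj
  have hj1 : 1 ≤ j := by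
    rcases Nat.eq_zero_or_pos j with h | h
    · rw [h] at hj8'
      norm_num at hj8'
      omega
    · exact h
  have hjK : j < K := by
    rcases Nat.lt_or_ge j 2 with h | h
    · omega
    · have h2 : 2 * j ≤ j ^ 8 := by
        calc 2 * j ≤ j * j := Nat.mul_le_mul_right j h
          _ = j ^ 2 := by ring
          _ ≤ j ^ 8 := Nat.pow_le_pow_right hj1 (by norm_num)
      omega
  obtain ⟨herr1, herr2⟩ := lemR_err hu1 hu4 hj1 hj8 hj8' hK hK1 hKx
  set X : ℝ := Real.exp x with hX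
  have hX0 : 0 < X := Real.exp_pos x
  have hsize := lemR_size h1 hx0.le hK2 hi
  set R : ℝ := (2 : ℝ) ^ ((2 + e) * (K : ℝ)) with hRdef
  have hR1 : 1 ≤ R := Real.one_le_rpow (by norm_num) (by positivity)
  have hG : ((Good e K).card : ℝ) ≤ R := good_card h0 h1 K
  have h3i : (1 : ℝ) ≤ 3 ^ i := one_le_pow₀ (by norm_num)
  -- the window: sizes
  have hZ : ∀ A ∈ win e K, 2 * (3 : ℝ) ^ (K + i) ≤ 3 ^ K * X / 2 ^ A := by
    intro A hA
    obtain ⟨-, hA2⟩ := lemR_win h1 hA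
    rw [le_div_iff₀ (by positivity), pow_add]
    have h5 : (2 : ℝ) ^ A ≤ R := by
      rw [hRdef, ← Real.rpow_natCast]
      exact Real.rpow_le_rpow_of_exponent_le (by norm_num) hA2
    have h6 : 2 * ((3 : ℝ) ^ i * R) ≤ X := by
      have h7 : Real.exp (0.47 * x + 3.03) * 2 ≤ X := by
        have h8 : (2 : ℝ) ≤ Real.exp 1 := by
          have := Real.exp_one_gt_d9
          linarith
        calc Real.exp (0.47 * x + 3.03) * 2 ≤ Real.exp (0.47 * x + 3.03) * Real.exp 1 :=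
              mul_le_mul_of_nonneg_left h8 (Real.exp_pos _).le
          _ = Real.exp (0.47 * x + 3.03 + 1) := (Real.exp_add _ _).symm
          _ ≤ X := Real.exp_le_exp.2 (by linarith)
      linarith
    have h7 : (3 : ℝ) ^ i * 2 ^ A ≤ 3 ^ i * R := mul_le_mul_of_nonneg_left h5 (by positivity)
    have h8 : 2 * ((3 : ℝ) ^ i * 2 ^ A) ≤ X := by linarith
    calc 2 * ((3 : ℝ) ^ K * 3 ^ i) * 2 ^ A = 3 ^ K * (2 * (3 ^ i * 2 ^ A)) := by ring
      _ ≤ 3 ^ K * X := mul_le_mul_of_nonneg_left h8 (by positivity)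
  have hZK : ∀ A ∈ win e K, 2 * (3 : ℝ) ^ K ≤ 3 ^ K * X / 2 ^ A := by
    intro A hA
    refine le_trans ?_ (hZ A hA)
    rw [pow_add]
    nlinarith [pow_pos (show (0 : ℝ) < 3 by norm_num) K]
  have hZj : ∀ A ∈ win e K, 2 * (3 : ℝ) ^ j ≤ 3 ^ K * X / 2 ^ A := by
    intro A hA
    refine le_trans ?_ (hZK A hA)
    have : (3 : ℝ) ^ j ≤ 3 ^ K := pow_le_pow_right₀ (by norm_num) hjK.le
    linarith
  have hXA : ∀ A : ℕ, (2 : ℝ) ^ A / 3 ^ K * (3 ^ K * X / 2 ^ A) = X := by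
    intro A
    field_simp
  have hcount := count_S12 h0 h1 (i := i) (show 1 ≤ K by omega) hX0 hp hq hR
  have hS5 := step_S5 hj1 hjK hX0.le (win e K) hZj hq
  have hsum : ∑ A ∈ win e K, (2 : ℝ) ^ A / 3 ^ K *
          ∑ s ∈ oddS (3 ^ K * X / 2 ^ A), q A s *
            ∑ w ∈ (words (3 * K) K).filter (fun w => w.sum = A),
              (if adm s w then wt w * MM i (nd s w) else 0) ≤
      ∑ A ∈ win e K, ((2 : ℝ) ^ A / 3 ^ K * ∑ s ∈ oddS (3 ^ K * X / 2 ^ A), q A s *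
        ∑ u ∈ words (3 * K) j, (if adm s u then wt u * rho (K - j) (A - u.sum) else 0) +
          X * (C3 / (K : ℝ) ^ 16 + C4 / (j : ℝ) ^ 16)) := by
    apply sum_le_sum
    intro A hA
    have h5 := h3 K i A hi (by omega) (3 ^ K * X / 2 ^ A) (hZ A hA) (q A) (hq A)
    have h6 := h4 K j A hj1 hjK (lemR_win h1 hA).1 (3 ^ K * X / 2 ^ A) (hZK A hA) (q A) (hq A)
    have h7 := h5.trans (add_le_add_left h6 _)
    have h8 := mul_le_mul_of_nonneg_left h7 (show (0 : ℝ) ≤ 2 ^ A / 3 ^ K by positivity)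
    refine h8.trans (le_of_eq ?_)
    have h9 := hXA A
    set Z : ℝ := 3 ^ K * X / 2 ^ A with hZdef
    set c : ℝ := (2 : ℝ) ^ A / 3 ^ K with hc
    rw [mul_add, mul_add]
    have h10 : c * (C4 * Z / (j : ℝ) ^ 16) = X * (C4 / (j : ℝ) ^ 16) := by
      rw [← h9]
      ring
    have h11 : c * (C3 * Z / (K : ℝ) ^ 16) = X * (C3 / (K : ℝ) ^ 16) := by
      rw [← h9]
      ring
    rw [h10, h11]
    ring
  rw [sum_add_distrib, sum_const, nsmul_eq_mul] at hsum
  have hcard : ((win e K).card : ℝ) ≤ 3 * K + 1 := by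
    have : (win e K).card ≤ 3 * K + 1 := by
      refine (card_filter_le _ _).trans ?_
      rw [card_range]
    exact_mod_cast this
  have herrC : ((win e K).card : ℝ) * (X * (C3 / (K : ℝ) ^ 16 + C4 / (j : ℝ) ^ 16)) ≤
      X * (2621440 * (C3 + C4) * (1 / u)) := by
    have hj0 : (0 : ℝ) < j := by exact_mod_cast hj1
    have h5 : C3 / (K : ℝ) ^ 16 ≤ C3 / (j : ℝ) ^ 16 := by
      apply div_le_div_of_nonneg_left hC3.le (by positivity)
      apply pow_le_pow_left₀ hj0.le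
      exact_mod_cast hjK.le
    calc ((win e K).card : ℝ) * (X * (C3 / (K : ℝ) ^ 16 + C4 / (j : ℝ) ^ 16))
        ≤ (3 * K + 1) * (X * (C3 / (j : ℝ) ^ 16 + C4 / (j : ℝ) ^ 16)) := by
          apply mul_le_mul hcard _ (by positivity) (by positivity)
          apply mul_le_mul_of_nonneg_left _ hX0.le
          linarith
      _ = X * ((C3 + C4) * ((3 * (K : ℝ) + 1) / (j : ℝ) ^ 16)) := by ring
      _ ≤ X * ((C3 + C4) * (2621440 * (1 / u))) := by
          apply mul_le_mul_of_nonneg_left _ hX0.le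
          apply mul_le_mul_of_nonneg_left herr2 (by positivity)
      _ = X * (2621440 * (C3 + C4) * (1 / u)) := by ring
  have herrB : 3 ^ i * (1 + ((Good e K).card : ℝ)) + ((K : ℝ) ^ 2 + 1) * (Good e K).card * 3 ^ i ≤
      X * (1100 * (1 / u)) := by
    exact lemR_B hx hu0 hxinv hX h3i hR1 (by positivity) hK2 hG hsize
  have herrA : X / 2 * (1 - ∑ w ∈ Good e K, pr w) ≤ X * (5 * Cb * (1 / u)) := by
    have h5 := hbad K (by omega)
    have h6 : Cb / K ≤ 10 * Cb * (1 / u) := by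
      calc Cb / K ≤ Cb / (y / 10) :=
            div_le_div_of_nonneg_left hCb.le (by positivity) hK1
        _ = 10 * Cb * (1 / y) := by
            field_simp
        _ ≤ 10 * Cb * (1 / u) := by
            apply mul_le_mul_of_nonneg_left _ (by positivity)
            apply one_div_le_one_div_of_le hu0
            rw [← hu4]
            calc u = u ^ 1 := (pow_one u).symm
              _ ≤ u ^ 4 := pow_le_pow_right₀ hu1 (by norm_num)
    calc X / 2 * (1 - ∑ w ∈ Good e K, pr w) ≤ X / 2 * (10 * Cb * (1 / u)) :=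
          mul_le_mul_of_nonneg_left (h5.trans h6) (by positivity)
      _ = X * (5 * Cb * (1 / u)) := by ring
  have hmain : NN i p X ≤ X * (∑ A ∈ win e K, rho K A * DD j (q A) (zz x K A)) +
      X * ((5 * Cb + 1100 + 2621440 * (C3 + C4) + 56) * (1 / u)) := by
    have h5 : ∑ A ∈ win e K, rho K A * ((2 : ℝ) ^ A / 3 ^ K * NN j (q A) (3 ^ K * X / 2 ^ A)) =
        X * (∑ A ∈ win e K, rho K A * DD j (q A) (zz x K A)) := by
      rw [mul_sum]
      apply sum_congr rfl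
      intro A _
      rw [DD, lemR_zz, ← hX]
      have h6 : (2 : ℝ) ^ A / 3 ^ K * NN j (q A) (3 ^ K * X / 2 ^ A) =
          X * (NN j (q A) (3 ^ K * X / 2 ^ A) / (3 ^ K * X / 2 ^ A)) := by
        have h7 : (3 ^ K * X / 2 ^ A : ℝ) ≠ 0 := by positivity
        rw [← mul_div_assoc, eq_div_iff h7]
        calc (2 : ℝ) ^ A / 3 ^ K * NN j (q A) (3 ^ K * X / 2 ^ A) * (3 ^ K * X / 2 ^ A) =
            ((2 : ℝ) ^ A / 3 ^ K * (3 ^ K * X / 2 ^ A)) * NN j (q A) (3 ^ K * X / 2 ^ A) := by ring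
          _ = X * NN j (q A) (3 ^ K * X / 2 ^ A) := by rw [hXA]
      rw [h6]
      ring
    have h6 : X * (8 * (j : ℝ) / Real.sqrt ((K - j : ℕ) : ℝ) + (j : ℝ) / 2 ^ j) ≤
        X * (56 * (1 / u)) := mul_le_mul_of_nonneg_left herr1 hX0.le
    rw [h5] at hS5
    exact lemR_asm hcount hsum hS5 herrA herrB herrC h6
  rw [DD, ← hX, div_le_iff₀ hX0]
  calc NN i p X ≤ _ := hmain
    _ = _ := by ring

end Pool.Agent.Lib.MP_e43fce_nt_nat
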