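import Pool.Agent.Lib.MP_e43fce_nt_nat.CLTO
import Pool.Agent.Lib.MP_e43fce_nt_nat.CLTI2

/-! TS-B: the two CLT upper bounds for abstract families. -/

set_option autoImplicit false

namespace Pool.Agent.Lib.MP_e43fce_nt_nat

open Finset Filter Topology MeasureTheory ProbabilityTheory

/-- the renewal inequality for a family `G` -/
def RecG {ι : Type*} (G : ι → ℕ → ℤ → ℝ → ℝ) : Prop :=
  ∃ C x0 : ℝ, 0 ≤ C ∧ 100 ≤ x0 ∧ ∀ ν : ι, ∀ x : ℝ, x0 ≤ x → ∀ (T : ℤ) (i : ℕ),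
    (i : ℝ) ^ 2 ≤ x / 10 →
    G ν i T x ≤ ∑ A ∈ win (1 / 10) ⌊x / 5⌋₊, rho ⌊x / 5⌋₊ A *
      G ν (i1 ⌊x / 5⌋₊) (T - ⌊x / 5⌋₊ - A) (zz x ⌊x / 5⌋₊ A) + C * x ^ (-(1 / 4) : ℝ)

namespace TSB

open CLTO

/-- general upper bound for a family -/
theorem upper_abs {ι : Type*} {l : Filter ι} {d : ℝ} (hd0 : 0 ≤ d) (hd1 : d ≤ 1)
    {G : ι → ℕ → ℤ → ℝ → ℝ} (hrec : RecG G)
    {g : ℝ → ℝ} {M L : ℝ} (hM : 0 ≤ M) (hg : TestFn g M) (hgc : Continuous g)
    (hgL : ∀ s t, |g s - g t| ≤ L * |s - t|)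
    (hbase : ∀ η : ℝ, 0 < η → ∃ x1 : ℝ, ∀ Y : ℝ, ∃ a : ℝ, ∀ᶠ ν in l, ∀ x : ℝ, x1 ≤ x → x ≤ Y →
      ∀ (T : ℤ) (i : ℕ), (i : ℝ) ^ 2 ≤ x / 10 → ∀ w : ℝ, 0 < w →
      G ν i T x ≤ (d + η) * g ((T - 3 / Real.log (4 / 3) * x + a) / w))
    (y : ℝ) {ε : ℝ} (hε : 0 < ε) : ∃ X1 : ℝ, ∀ᶠ ν in l, ∀ x : ℝ, X1 ≤ x →
      G ν 0 ⌊3 / Real.log (4 / 3) * x + y * sgm * Real.sqrt x⌋ x ≤
        d * ∫ t, g (t + y) ∂(gaussianReal 0 1) + ε := by
  have hκ := kap_pos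
  obtain ⟨C, x0, hC, hx0, hrec⟩ := hrec
  obtain ⟨D, E0, hD, hE0, hind⟩ := clt_induction2 hC
  set η := min (ε / 8) 1 with hη
  have hη0 : 0 < η := lt_min (by linarith) one_pos
  have hη1 : η ≤ 1 := min_le_right _ _
  have hη8 : η ≤ ε / 8 := min_le_left _ _
  obtain ⟨x1, hx1⟩ := hbase η hη0
  -- choice of Y
  have hlimY : Tendsto (fun Y : ℝ => D * Y ^ (-(1 / 4) : ℝ)) atTop (𝓝 (D * 0)) :=
    Tendsto.const_mul D (tendsto_rpow_neg_atTop (by norm_num))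
  rw [mul_zero] at hlimY
  obtain ⟨Y, hY1, hY2, hY3⟩ := ((hlimY.eventually_le_const (show (0 : ℝ) < ε / 8 by linarith)).and
    ((eventually_ge_atTop x0).and (eventually_ge_atTop (10 / 9 * x1)))).exists
  have hY100 : 100 ≤ Y := hx0.trans hY2
  have hind := hind Y hY100
  set E := E0 * Real.sqrt Y with hE
  obtain ⟨a, ha⟩ := hx1 Y
  set I := ∫ t, g (t + y) ∂(gaussianReal 0 1) with hI
  have hI0 : 0 ≤ I := integral_nonneg (fun t => hg.nonneg _)
  have hI1 : I ≤ 1 := by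
    have h1 : I ≤ ∫ t, (1 : ℝ) ∂(gaussianReal 0 1) := by
      apply integral_mono_of_nonneg
      · exact Filter.Eventually.of_forall (fun t => hg.nonneg _)
      · exact integrable_const _
      · exact Filter.Eventually.of_forall (fun t => hg.le_one _)
    simpa using h1
  -- the limit of U
  have hgabs : ∀ t, |g t| ≤ 1 := fun t => by
    rw [abs_of_nonneg (hg.nonneg t)]; exact hg.le_one t
  have hlim := lim_shift hgabs hgL hgc (NY_tendsto Y) (shift_tendsto Y y a)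
  have hev1 : ∀ᶠ x : ℝ in atTop, ∑' A : ℕ, rho (NY Y x) A *
      g (((A : ℝ) - 2 * (NY Y x : ℝ)) / Real.sqrt (2 * (NY Y x : ℝ)) +
        (((⌊3 / Real.log (4 / 3) * x + y * sgm * Real.sqrt x⌋ : ℤ) : ℝ) -
      3 / Real.log (4 / 3) * x + a) / (kap * Real.sqrt (2 * (NY Y x : ℝ)))) ≤ I + ε / 4 :=
    hlim.eventually_le_const (by rw [← hI]; linarith)
  -- the error term
  have hev2 : ∀ᶠ x : ℝ in atTop,
      E * (M * (1 / (kap * Real.sqrt (2 * (NY Y x : ℝ)))) ^ 2) * Real.sqrt x ≤ ε / 8 := by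
    have h1 : Tendsto (fun x : ℝ => E * M / (2 * kap ^ 2) * ((NY Y x : ℝ) / x)⁻¹ *
        (1 / Real.sqrt x)) atTop (𝓝 (E * M / (2 * kap ^ 2) * (1 / Real.log (4 / 3))⁻¹ * 0)) := by
      refine ((((NY_div_tendsto Y).inv₀ ?_).const_mul _).mul ?_)
      · have := T5.log43_lo
        have h2 : 0 < Real.log (4 / 3) := by linarith
        positivity
      · exact tendsto_const_nhds.div_atTop Real.tendsto_sqrt_atTop
    rw [mul_zero] at h1
    have h2 := h1.eventually_le_const (show (0 : ℝ) < ε / 8 by linarith)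
    filter_upwards [h2, eventually_gt_atTop 0, (NY_tendsto Y).eventually_ge_atTop 1] with x hx hx0 hN
    refine le_trans (le_of_eq ?_) hx
    have hN1 : (1 : ℝ) ≤ NY Y x := by exact_mod_cast hN
    have hN0 : (0 : ℝ) < NY Y x := by linarith
    have hs : 0 < Real.sqrt x := Real.sqrt_pos.2 hx0
    have hsx : Real.sqrt x ^ 2 = x := Real.sq_sqrt hx0.le
    have hsN : Real.sqrt (2 * (NY Y x : ℝ)) ^ 2 = 2 * (NY Y x : ℝ) := Real.sq_sqrt (by linarith)
    rw [div_pow, one_pow, mul_pow, hsN]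
    field_simp
    rw [hsx]
  obtain ⟨X1, hX1⟩ := eventually_atTop.1 (hev1.and (hev2.and ((eventually_ge_atTop Y).and
    ((NY_tendsto Y).eventually_ge_atTop 1))))
  refine ⟨X1, ?_⟩
  filter_upwards [ha] with ν ha
  intro x hx
  obtain ⟨h1, h2, hxY, hN⟩ := hX1 x hx
  have hN1 : (1 : ℝ) ≤ NY Y x := by exact_mod_cast hN
  have hsN : 0 < Real.sqrt (2 * (NY Y x : ℝ)) := Real.sqrt_pos.2 (by linarith)
  set w := kap * Real.sqrt (2 * (NY Y x : ℝ)) with hw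
  have hw0 : 0 < w := by rw [hw]; positivity
  set T : ℤ := ⌊3 / Real.log (4 / 3) * x + y * sgm * Real.sqrt x⌋ with hT
  have hφ := hg.affine (1 / w) (a / w)
  have hB : 0 ≤ M * (1 / w) ^ 2 := by positivity
  have h3 := hind (G ν) (d + η) (M * (1 / w) ^ 2)
    (fun t => g (1 / w * t + a / w)) (by linarith) (by linarith) hB hφ
    (fun x' hx' T' i hi => hrec ν x' (hY2.trans hx') T' i hi)
    (fun x' hx' hx'' T' i hi => by
      have h4 := ha x' (by linarith) hx'' T' i hi w hw0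
      refine h4.trans (le_of_eq ?_)
      congr 2
      ring) x hxY T 0 (by
        norm_num
        linarith)
  have h4 : UU kap (fun t => g (1 / w * t + a / w)) (NY Y x) ((T : ℝ) - 3 / Real.log (4 / 3) * x) =
      ∑' A : ℕ, rho (NY Y x) A *
      g (((A : ℝ) - 2 * (NY Y x : ℝ)) / Real.sqrt (2 * (NY Y x : ℝ)) +
        ((T : ℝ) - 3 / Real.log (4 / 3) * x + a) / w) := by
    unfold UU
    apply tsum_congr
    intro A
    have h5 : kap * ((A : ℝ) - 2 * (NY Y x : ℝ)) / w =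
        ((A : ℝ) - 2 * (NY Y x : ℝ)) / Real.sqrt (2 * (NY Y x : ℝ)) := by
      rw [hw, mul_div_mul_left _ _ hκ.ne']
    rw [← h5]
    congr 2
    ring_nf
  rw [h4] at h3
  set U := ∑' A : ℕ, rho (NY Y x) A *
      g (((A : ℝ) - 2 * (NY Y x : ℝ)) / Real.sqrt (2 * (NY Y x : ℝ)) +
        ((T : ℝ) - 3 / Real.log (4 / 3) * x + a) / w) with hU
  have h5 : (d + η) * U ≤ (d + η) * (I + ε / 4) := mul_le_mul_of_nonneg_left h1 (by linarith)
  have h6 : (d + η) * (I + ε / 4) ≤ d * I + η + 2 * (ε / 4) := by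
    have h7 : η * I ≤ η * 1 := mul_le_mul_of_nonneg_left hI1 hη0.le
    have h8 : (d + η) * (ε / 4) ≤ 2 * (ε / 4) := mul_le_mul_of_nonneg_right (by linarith) (by linarith)
    nlinarith
  have h7 : G ν 0 T x ≤ (d + η) * U + D * Y ^ (-(1 / 4) : ℝ) +
      E * (M * (1 / w) ^ 2) * Real.sqrt x := h3
  linarith

/-- the family minus a constant -/
theorem recG_sub {ι : Type*} {G : ι → ℕ → ℤ → ℝ → ℝ} (hrec : RecG G) {η : ℝ} (hη : 0 ≤ η) :
    RecG (fun ν i T x => G ν i T x - η) := by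
  obtain ⟨C, x0, hC, hx0, h⟩ := hrec
  refine ⟨C, x0, hC, hx0, fun ν x hx T i hi => ?_⟩
  have h1 := h ν x hx T i hi
  have h2 : ∑ A ∈ win (1 / 10) ⌊x / 5⌋₊, rho ⌊x / 5⌋₊ A *
      (G ν (i1 ⌊x / 5⌋₊) (T - ⌊x / 5⌋₊ - A) (zz x ⌊x / 5⌋₊ A) - η) =
      ∑ A ∈ win (1 / 10) ⌊x / 5⌋₊, rho ⌊x / 5⌋₊ A *
      G ν (i1 ⌊x / 5⌋₊) (T - ⌊x / 5⌋₊ - A) (zz x ⌊x / 5⌋₊ A) -
        (∑ A ∈ win (1 / 10) ⌊x / 5⌋₊, rho ⌊x / 5⌋₊ A) * η := by
    rw [Finset.sum_mul, ← Finset.sum_sub_distrib]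
    apply Finset.sum_congr rfl
    intro A _
    ring
  have h3 := CLTI.win_sum_le (1 / 10) ⌊x / 5⌋₊
  have h4 := mul_le_mul_of_nonneg_right h3 hη
  simp only
  rw [h2]
  linarith

/-- at most `d Phi(y)` -/
theorem hit_abs {ι : Type*} {l : Filter ι} {d : ℝ} (hd0 : 0 ≤ d) (hd1 : d ≤ 1)
    {G : ι → ℕ → ℤ → ℝ → ℝ} (hrec : RecG G)
    (hbase : ∀ η : ℝ, 0 < η → ∃ x1 : ℝ, ∀ Y : ℝ, ∀ᶠ ν in l, ∀ x : ℝ, x1 ≤ x → x ≤ Y →
      ∀ (T : ℤ) (i : ℕ), (i : ℝ) ^ 2 ≤ x / 10 →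
      G ν i T x ≤ d * (if 0 ≤ T then 1 else 0) + η)
    (y : ℝ) {ε : ℝ} (hε : 0 < ε) : ∃ X1 : ℝ, ∀ᶠ ν in l, ∀ x : ℝ, X1 ≤ x →
      G ν 0 ⌊3 / Real.log (4 / 3) * x + y * sgm * Real.sqrt x⌋ x ≤ d * Phi y + ε := by
  have hc1 := T5.log43_lo
  obtain ⟨M, L, hM, hL, hs, hlip, hz, ho, hmono, hcont⟩ := stp_test
  -- choice of e
  have h1 : Tendsto (fun e : ℝ => Phi (y + e)) (𝓝[>] 0) (𝓝 (Phi (y + 0))) := by
    apply Tendsto.mono_left _ nhdsWithin_le_nhds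
    exact (Phi_continuous.comp (continuous_const.add continuous_id)).tendsto 0
  rw [add_zero] at h1
  obtain ⟨e, he1, he0⟩ := ((h1.eventually_le_const (show Phi y < Phi y + ε / 3 by linarith)).and
    self_mem_nhdsWithin).exists
  have he0' : 0 < e := he0
  obtain ⟨hg, hgL⟩ := TestFn_scale he0' hL hs hlip (1 / e)
  have h2 := upper_abs (l := l) hd0 hd1 (recG_sub hrec (show 0 ≤ ε / 3 by linarith)) (by positivity) hg
    (by fun_prop) hgL
    (by
      intro η hη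
      obtain ⟨x1, hx1⟩ := hbase (ε / 3) (by linarith)
      refine ⟨x1, fun Y => ⟨3 / Real.log (4 / 3) * Y, ?_⟩⟩
      filter_upwards [hx1 Y] with ν hν
      intro x hx hxY T i hi w hw
      have h3 := hν x hx hxY T i hi
      have h4 : G ν i T x - ε / 3 ≤ d * (if 0 ≤ T then 1 else 0) := by linarith
      refine h4.trans ?_
      split_ifs with hT
      · have hT' : (0 : ℝ) ≤ T := by exact_mod_cast hT
        have h3 : 0 ≤ 3 / Real.log (4 / 3) * (Y - x) :=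
          mul_nonneg (div_nonneg (by norm_num) (by linarith)) (by linarith)
        have h4 : 0 ≤ ((T : ℝ) - 3 / Real.log (4 / 3) * x + 3 / Real.log (4 / 3) * Y) / w := by
          apply div_nonneg _ hw.le
          nlinarith
        rw [ho]
        · linarith
        · have : 0 ≤ 1 / e * (((T : ℝ) - 3 / Real.log (4 / 3) * x + 3 / Real.log (4 / 3) * Y) / w) := by
            positivity
          linarith
      · rw [mul_zero]
        exact mul_nonneg (by linarith) (hg.nonneg _))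
    y (show 0 < ε / 3 by linarith)
  have h3 := (gauss_step he0' y).1
  have h4 : ∫ t, (fun t => stp (1 / e * t + 1)) (t + y) ∂(gaussianReal 0 1) ≤ Phi y + ε / 3 := by
    refine le_trans (le_of_eq ?_) (h3.trans he1)
    congr 1
    ext t
    simp only
    congr 1
    ring
  obtain ⟨X1, hX1⟩ := h2
  refine ⟨X1, ?_⟩
  filter_upwards [hX1] with ν hν
  intro x hx
  have h5 := mul_le_mul_of_nonneg_left h4 hd0
  have h6 : d * (ε / 3) ≤ 1 * (ε / 3) := mul_le_mul_of_nonneg_right hd1 (by linarith)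
  have h7 := hν x hx
  linarith

/-- at most `d Phi(-y)` -/
theorem nohit_abs {ι : Type*} {l : Filter ι} {d : ℝ} (hd0 : 0 ≤ d) (hd1 : d ≤ 1)
    {G : ι → ℕ → ℤ → ℝ → ℝ} (hrec : RecG G)
    (hbase : ∀ η : ℝ, 0 < η → ∃ x1 : ℝ, ∀ Y : ℝ, ∃ Lm : ℤ, ∀ᶠ ν in l, ∀ x : ℝ, x1 ≤ x → x ≤ Y →
      ∀ (T : ℤ) (i : ℕ), (i : ℝ) ^ 2 ≤ x / 10 →
      G ν i T x ≤ d * (if T < Lm then 1 else 0) + η)
    (y : ℝ) {ε : ℝ} (hε : 0 < ε) : ∃ X1 : ℝ, ∀ᶠ ν in l, ∀ x : ℝ, X1 ≤ x →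
      G ν 0 ⌊3 / Real.log (4 / 3) * x + y * sgm * Real.sqrt x⌋ x ≤ d * Phi (-y) + ε := by
  obtain ⟨M, L, hM, hL, hs, hlip, hz, ho, hmono, hcont⟩ := stp_test
  -- choice of e
  have h1 : Tendsto (fun e : ℝ => Phi (-y + e)) (𝓝[>] 0) (𝓝 (Phi (-y + 0))) := by
    apply Tendsto.mono_left _ nhdsWithin_le_nhds
    exact (Phi_continuous.comp (continuous_const.add continuous_id)).tendsto 0
  rw [add_zero] at h1
  obtain ⟨e, he1, he0⟩ := ((h1.eventually_le_const (show Phi (-y) < Phi (-y) + ε / 3 by linarith)).and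
    self_mem_nhdsWithin).exists
  have he0' : 0 < e := he0
  obtain ⟨hg, hgL⟩ := TestFn_scale he0' hL hs hlip (-(1 / e))
  have h2 := upper_abs (l := l) hd0 hd1 (recG_sub hrec (show 0 ≤ ε / 3 by linarith)) (by positivity) hg
    (by fun_prop) hgL
    (by
      intro η hη
      obtain ⟨x1, hx1⟩ := hbase (ε / 3) (by linarith)
      refine ⟨x1, fun Y => ?_⟩
      obtain ⟨Lm, hLm⟩ := hx1 Y
      refine ⟨-(Lm : ℝ), ?_⟩
      filter_upwards [hLm] with ν hν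
      intro x hx hxY T i hi w hw
      have h3 := hν x hx hxY T i hi
      have h4 : G ν i T x - ε / 3 ≤ d * (if T < Lm then 1 else 0) := by linarith
      refine h4.trans ?_
      split_ifs with hT
      · have hT' : (T : ℝ) < Lm := by exact_mod_cast hT
        have hx0 : 0 ≤ x := by
          have : (0 : ℝ) ≤ (i : ℝ) ^ 2 := by positivity
          linarith
        have hc1 := T5.log43_lo
        have h3 : 0 ≤ 3 / Real.log (4 / 3) * x :=
          mul_nonneg (div_nonneg (by norm_num) (by linarith)) hx0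
        have h4 : 0 ≤ 1 / e * ((-((T : ℝ) - 3 / Real.log (4 / 3) * x + -(Lm : ℝ))) / w) := by
          apply mul_nonneg (by positivity)
          apply div_nonneg _ hw.le
          linarith
        have h5 : -(1 / e) * (((T : ℝ) - 3 / Real.log (4 / 3) * x + -(Lm : ℝ)) / w) =
            1 / e * ((-((T : ℝ) - 3 / Real.log (4 / 3) * x + -(Lm : ℝ))) / w) := by ring
        rw [ho]
        · linarith
        · rw [h5]
          linarith
      · rw [mul_zero]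
        exact mul_nonneg (by linarith) (hg.nonneg _))
    y (show 0 < ε / 3 by linarith)
  have h3 := (gauss_step he0' y).2
  have h4 : ∫ t, (fun t => stp (-(1 / e) * t + 1)) (t + y) ∂(gaussianReal 0 1) ≤
      Phi (-y) + ε / 3 := by
    refine le_trans (le_of_eq ?_) (h3.trans he1)
    congr 1
    ext t
    simp only
    congr 1
    ring
  obtain ⟨X1, hX1⟩ := h2
  refine ⟨X1, ?_⟩
  filter_upwards [hX1] with ν hν
  intro x hx
  have h5 := mul_le_mul_of_nonneg_left h4 hd0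
  have h6 : d * (ε / 3) ≤ 1 * (ε / 3) := mul_le_mul_of_nonneg_right hd1 (by linarith)
  have h7 := hν x hx
  linarith

end TSB

end Pool.Agent.Lib.MP_e43fce_nt_nat
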