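import Pool.Agent.Lib.MP_e43fce_nt_nat.TSA
import Pool.Agent.Lib.MP_e43fce_nt_nat.TSB
import Pool.Agent.Lib.MP_e43fce_nt_nat.HU
import Pool.Agent.Lib.MP_e43fce_nt_nat.HOdd

/-! TS-C: passage below `N` within `T` steps, upper bound for the odd numbers up to
`N * exp x`, uniformly in `N`. -/

set_option autoImplicit false

namespace Pool.Agent.Lib.MP_e43fce_nt_nat

open Finset Filter Topology MeasureTheory ProbabilityTheory

namespace TSC

theorem zz_add (h x : ℝ) (K A : ℕ) : zz (h + x) K A = h + zz x K A := by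
  unfold zz; ring

theorem card_le_exp (N : ℕ) : ((range (N + 1)).card : ℝ) ≤ 2 * Real.exp (Real.log N) := by
  rw [card_range]
  rcases Nat.eq_zero_or_pos N with h | h
  · subst h
    simp
  · have hN : (1 : ℝ) ≤ N := by exact_mod_cast h
    rw [Real.exp_log (by linarith)]
    push_cast
    linarith

theorem log_nonneg' (N : ℕ) : 0 ≤ Real.log (N : ℝ) := Real.log_natCast_nonneg N

/-- the forward orbits of `[0, N]` are negligible at height `log N + x` -/
theorem few2 {x z : ℝ} (hx : 100 ≤ x) {K : ℕ} (hK : (K : ℝ) ≤ x / 5) (N : ℕ)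
    (hz : 4 / 5 * x ≤ z) :
    ((fwdA (range (N + 1)) (4 * K + 1)).card : ℝ) * (3 ^ (i1 K) / Real.exp (Real.log N + z)) ≤
      100 * x ^ (-(1 / 4) : ℝ) := by
  have h1 : ((fwdA (range (N + 1)) (4 * K + 1)).card : ℝ) ≤ 2 * Real.exp (Real.log N) * x := by
    have h := card_fwdA (range (N + 1)) (4 * K + 1)
    have h' : ((fwdA (range (N + 1)) (4 * K + 1)).card : ℝ) ≤
        (((range (N + 1)).card * (4 * K + 1) : ℕ) : ℝ) := by
      exact_mod_cast h
    refine h'.trans ?_
    rw [Nat.cast_mul]
    apply mul_le_mul (card_le_exp N) _ (by positivity) (by positivity)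
    push_cast
    linarith
  have h2 : (3 : ℝ) ^ (i1 K) / Real.exp (Real.log N + z) ≤
      Real.exp (-(0.75 * x)) / Real.exp (Real.log N) := by
    rw [Real.exp_add, div_le_div_iff₀ (by positivity) (Real.exp_pos _)]
    have h3 := HOdd.small_i1 hx hK
    have h4 : (3 : ℝ) ^ (i1 K) ≤ Real.exp (-(0.75 * x)) * Real.exp z := by
      rw [← Real.exp_add]
      refine h3.trans (Real.exp_le_exp.2 ?_)
      linarith
    calc (3 : ℝ) ^ (i1 K) * Real.exp (Real.log N)
        ≤ (Real.exp (-(0.75 * x)) * Real.exp z) * Real.exp (Real.log N) :=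
          mul_le_mul_of_nonneg_right h4 (Real.exp_pos _).le
      _ = _ := by ring
  have h4 : Real.exp (-(0.75 * x)) ≤ Real.exp (-(0.2 * x)) := Real.exp_le_exp.2 (by linarith)
  calc ((fwdA (range (N + 1)) (4 * K + 1)).card : ℝ) * (3 ^ (i1 K) / Real.exp (Real.log N + z))
      ≤ (2 * Real.exp (Real.log N) * x) * (Real.exp (-(0.75 * x)) / Real.exp (Real.log N)) :=
        mul_le_mul h1 h2 (by positivity) (by positivity)
    _ = 2 * (x * Real.exp (-(0.75 * x))) := by
        have := (Real.exp_pos (Real.log N)).ne'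
        field_simp
    _ ≤ 2 * (x * Real.exp (-(0.2 * x))) := by
        have := mul_le_mul_of_nonneg_left h4 (show 0 ≤ x by linarith)
        linarith
    _ ≤ _ := by
        have := HOdd.x_exp (show 1 ≤ x by linarith)
        linarith

/-- the family -/
noncomputable def GH (N i : ℕ) (T : ℤ) (x : ℝ) : ℝ :=
  DD i (pLA (range (N + 1)) T) (Real.log N + x)

open GFaux in
theorem recGH : RecG GH := by
  obtain ⟨C, x1, hC, hx1, hR⟩ := lemR2 (e := 1 / 10) (by norm_num) le_rfl
  refine ⟨C + 100, max x1 100, by positivity, le_max_right _ _, ?_⟩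
  intro N x hx T i hi
  have hxx1 : x1 ≤ x := (le_max_left _ _).trans hx
  have hx100 : 100 ≤ x := (le_max_right _ _).trans hx
  have hL := log_nonneg' N
  obtain ⟨hK1, hK2, hiK⟩ := floor_bounds hx100 hi
  have hK3 : (⌊x / 5⌋₊ : ℝ) ≤ x / 5 := Nat.floor_le (by linarith)
  set K := ⌊x / 5⌋₊
  set S := range (N + 1) with hS
  set F := fwdA S (4 * K + 1) with hF
  have hq' : ∀ A, Unit01 (fun s => max (pLA S (T - K - (A : ℕ)) s) (if s ∈ F then 1 else 0)) := by
    intro A s
    have h := pLA_unit S (T - K - (A : ℕ)) s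
    dsimp only
    split_ifs
    · exact ⟨le_max_of_le_left h.1, max_le h.2 le_rfl⟩
    · exact ⟨le_max_of_le_left h.1, max_le h.2 zero_le_one⟩
  have hR' := hR x (Real.log N + x) hxx1 (by linarith) K i hK1 hK2 hiK (pLA S T)
    (fun A s => max (pLA S (T - K - (A : ℕ)) s) (if s ∈ F then 1 else 0)) (pLA_unit S T) hq' (by
      intro s n hs w hw had hn
      dsimp only
      obtain ⟨hcol, hle⟩ := pass hs hw had hn
      by_cases h1 : ∃ k : ℕ, (k : ℤ) ≤ T ∧ col^[k] n ∈ S
      · obtain ⟨k, hk, hk1⟩ := h1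
        rcases le_total k (K + w.sum) with h3 | h3
        · have h4 : s ∈ F := early hcol hk1 h3 hle
          rw [if_pos h4]
          exact (pLA_unit S T n).2.trans (le_max_right _ _)
        · have h2 : pLA S (T - K - (w.sum : ℕ)) s = 1 := by
            unfold pLA
            rw [if_pos]
            refine ⟨k - (K + w.sum), ?_, late hcol hk1 h3⟩
            push_cast [Nat.cast_sub h3]
            linarith
          rw [h2]
          exact (pLA_unit S T n).2.trans (le_max_left _ _)
      · have h2 : pLA S T n = 0 := by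
          unfold pLA
          rw [if_neg h1]
        rw [h2]
        exact le_max_of_le_left (pLA_unit S _ s).1)
  have hx4 : 0 ≤ x ^ (-(1 / 4) : ℝ) := Real.rpow_nonneg (by linarith) _
  have hsum : ∑ A ∈ win (1 / 10) K, rho K A *
        DD (i1 K) (fun s => max (pLA S (T - K - (A : ℕ)) s) (if s ∈ F then 1 else 0))
          (zz (Real.log N + x) K A)
      ≤ ∑ A ∈ win (1 / 10) K, rho K A * GH N (i1 K) (T - K - (A : ℕ)) (zz x K A) +
        100 * x ^ (-(1 / 4) : ℝ) := by
    have h1 : ∀ A ∈ win (1 / 10) K, rho K A *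
        DD (i1 K) (fun s => max (pLA S (T - K - (A : ℕ)) s) (if s ∈ F then 1 else 0))
          (zz (Real.log N + x) K A)
        ≤ rho K A * GH N (i1 K) (T - K - (A : ℕ)) (zz x K A) +
          rho K A * (100 * x ^ (-(1 / 4) : ℝ)) := by
      intro A hA
      rw [← mul_add]
      apply mul_le_mul_of_nonneg_left _ (rho_nonneg K A)
      rw [zz_add]
      have h2 : DD (i1 K) (fun s => max (pLA S (T - K - (A : ℕ)) s) (if s ∈ F then 1 else 0))
            (Real.log N + zz x K A)
          ≤ DD (i1 K) (fun s => pLA S (T - K - (A : ℕ)) s + (if s ∈ F then 1 else 0))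
            (Real.log N + zz x K A) := by
        apply DD_mono
        intro s
        have h := pLA_unit S (T - K - (A : ℕ)) s
        apply max_le
        · split_ifs <;> linarith
        · linarith [h.1]
      rw [DD_add] at h2
      have h3 := DD_finset (i1 K) F (Real.log N + zz x K A)
      have h4 := few2 hx100 hK3 N (h34_zz_ge hK2 hA)
      rw [← hS, ← hF] at h4
      unfold GH
      rw [← hS]
      linarith
    refine (Finset.sum_le_sum h1).trans ?_
    rw [Finset.sum_add_distrib, ← Finset.sum_mul]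
    have h5 := h34_win_sum_le K
    have h6 : (∑ A ∈ win (1 / 10) K, rho K A) * (100 * x ^ (-(1 / 4) : ℝ)) ≤
        1 * (100 * x ^ (-(1 / 4) : ℝ)) :=
      mul_le_mul_of_nonneg_right h5 (by positivity)
    linarith
  calc GH N i T x = DD i (pLA S T) (Real.log N + x) := rfl
    _ ≤ _ := hR'
    _ ≤ (∑ A ∈ win (1 / 10) K, rho K A * GH N (i1 K) (T - K - (A : ℕ)) (zz x K A) +
        100 * x ^ (-(1 / 4) : ℝ)) + C * x ^ (-(1 / 4) : ℝ) := add_le_add hsum le_rfl
    _ = _ := by ring

end TSC

open TSC in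
/-- upper bound for the passages below `N` -/
theorem ts_hit (y : ℝ) {ε : ℝ} (hε : 0 < ε) : ∃ X1 : ℝ, ∀ (N : ℕ) (x : ℝ), X1 ≤ x →
    DD 0 (pLA (range (N + 1)) ⌊3 / Real.log (4 / 3) * x + y * sgm * Real.sqrt x⌋)
      (Real.log N + x) ≤ 1 / 2 * Phi y + ε := by
  obtain ⟨X1, hX1⟩ := TSB.hit_abs (l := (⊤ : Filter ℕ)) (d := 1 / 2) (by norm_num) (by norm_num)
    recGH (by
      intro η hη
      obtain ⟨x1, hx1⟩ := baseLU hη
      refine ⟨max x1 0, fun Y => ?_⟩
      rw [eventually_top]
      intro N x hx hxY T i hi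
      have hL := log_nonneg' N
      have h1 := hx1 (range (N + 1)) (Real.log N + x)
        (by have := (le_max_left x1 0).trans hx; linarith) T i (by linarith)
      refine h1.trans ?_
      split_ifs
      · linarith
      · linarith) y hε
  exact ⟨X1, fun N x hx => eventually_top.1 hX1 N x hx⟩

end Pool.Agent.Lib.MP_e43fce_nt_nat
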