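import Pool.Agent.Lib.MP_e43fce_nt_nat.TSC

/-! TS-D: no passage below `N` within `T` steps, upper bound for the odd numbers up to
`N * exp x`, for large `N`. -/

set_option autoImplicit false

namespace Pool.Agent.Lib.MP_e43fce_nt_nat

open Finset Filter Topology MeasureTheory ProbabilityTheory

open Classical in
/-- `1` if `S` is not hit within `T` steps -/
noncomputable def nLA (S : Finset ℕ) (T : ℤ) (n : ℕ) : ℝ :=
  if ∃ k : ℕ, (k : ℤ) ≤ T ∧ col^[k] n ∈ S then 0 else 1

theorem nLA_unit (S : Finset ℕ) (T : ℤ) : Unit01 (nLA S T) := by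
  intro n
  unfold nLA
  split_ifs <;> norm_num

theorem pLA_add_nLA (S : Finset ℕ) (T : ℤ) (n : ℕ) : pLA S T n + nLA S T n = 1 := by
  unfold pLA nLA
  split_ifs <;> norm_num

namespace TSD

open TSC GFaux

/-- the family -/
noncomputable def GN (N i : ℕ) (T : ℤ) (x : ℝ) : ℝ :=
  DD i (nLA (range (N + 1)) T) (Real.log N + x)

theorem recGN : RecG GN := by
  obtain ⟨C, x1, hC, hx1, hR⟩ := lemR2 (e := 1 / 10) (by norm_num) le_rfl
  refine ⟨C, max x1 100, hC.le, le_max_right _ _, ?_⟩
  intro N x hx T i hi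
  have hxx1 : x1 ≤ x := (le_max_left _ _).trans hx
  have hx100 : 100 ≤ x := (le_max_right _ _).trans hx
  have hL := log_nonneg' N
  obtain ⟨hK1, hK2, hiK⟩ := floor_bounds hx100 hi
  set K := ⌊x / 5⌋₊
  set S := range (N + 1) with hS
  have hR' := hR x (Real.log N + x) hxx1 (by linarith) K i hK1 hK2 hiK (nLA S T)
    (fun A => nLA S (T - K - (A : ℕ))) (nLA_unit S T) (fun A => nLA_unit S _) (by
      intro s n hs w hw had hn
      obtain ⟨hcol, hle⟩ := pass hs hw had hn
      dsimp only
      by_cases h1 : ∃ k : ℕ, (k : ℤ) ≤ T - K - (w.sum : ℕ) ∧ col^[k] s ∈ S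
      · obtain ⟨k, hk, hk1⟩ := h1
        have h2 : nLA S T n = 0 := by
          unfold nLA
          rw [if_pos]
          refine ⟨k + (K + w.sum), ?_, ?_⟩
          · rw [Nat.cast_add, Nat.cast_add]
            linarith
          · rw [Function.iterate_add_apply, hcol]
            exact hk1
        rw [h2]
        exact (nLA_unit S _ s).1
      · have h2 : nLA S (T - K - (w.sum : ℕ)) s = 1 := by
          unfold nLA
          rw [if_neg h1]
        rw [h2]
        exact (nLA_unit S _ n).2)
  calc GN N i T x = DD i (nLA S T) (Real.log N + x) := rfl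
    _ ≤ _ := hR'
    _ = _ := by
      congr 1
      apply Finset.sum_congr rfl
      intro A _
      rw [zz_add]
      rfl

theorem DD_le_half {η : ℝ} (hη : 0 < η) : ∃ x1 : ℝ, ∀ (p : ℕ → ℝ) (x : ℝ), Unit01 p → x1 ≤ x →
    ∀ i : ℕ, (i : ℝ) ^ 2 ≤ x / 10 → DD i p x ≤ 1 / 2 + η := by
  have h3 : Tendsto (fun x : ℝ => Real.exp (-(0.5 * x))) atTop (𝓝 0) := by
    have h4 : Tendsto (fun x : ℝ => 0.5 * x) atTop atTop :=
      tendsto_id.const_mul_atTop (by norm_num)
    exact Real.tendsto_exp_neg_atTop_nhds_zero.comp h4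
  obtain ⟨x3, hx3⟩ := Filter.eventually_atTop.1 (h3.eventually_lt_const hη)
  refine ⟨max x3 10, fun p x hp hx i hi => ?_⟩
  have hxx3 : x3 ≤ x := (le_max_left _ _).trans hx
  have hx10 : 10 ≤ x := (le_max_right _ _).trans hx
  refine (DD_mono (fun n => (hp n).2) x).trans ?_
  have h1 := (abs_le.1 (DD_one i x (by linarith))).2
  have h2 := mm_le_one i
  have hi1 : (i : ℝ) ≤ x / 10 := by
    by_contra hcon
    push Not at hcon
    nlinarith
  have h4 : (3 : ℝ) ^ i / Real.exp x ≤ Real.exp (-(0.5 * x)) := by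
    rw [div_le_iff₀ (Real.exp_pos _), ← Real.exp_add]
    have h5 : (3 : ℝ) ≤ Real.exp 2 := by
      have := Real.add_one_le_exp (2 : ℝ)
      linarith
    calc (3 : ℝ) ^ i ≤ (Real.exp 2) ^ i := pow_le_pow_left₀ (by norm_num) h5 i
      _ = Real.exp (i * 2) := by rw [← Real.exp_nat_mul]
      _ ≤ Real.exp (-(0.5 * x) + x) := by
        apply Real.exp_le_exp.2
        linarith
  have h5 := hx3 x hxx3
  linarith

/-- heights at most `log N + Y`: all but few numbers pass below `N` in bounded time -/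
theorem base_small {η : ℝ} (hη : 0 < η) (Y : ℝ) : ∃ Lm : ℤ, ∀ᶠ N : ℕ in atTop, ∀ x : ℝ,
    0 ≤ x → x ≤ Y → ∀ (T : ℤ) (i : ℕ), (i : ℝ) ^ 2 ≤ x / 10 → Lm ≤ T → GN N i T x ≤ η := by
  obtain ⟨C, x1, hC, hx1, hR⟩ := lemR2 (e := 1 / 10) (by norm_num) le_rfl
  have hlimY : Tendsto (fun Y : ℝ => C * Y ^ (-(1 / 4) : ℝ)) atTop (𝓝 (C * 0)) :=
    Tendsto.const_mul C (tendsto_rpow_neg_atTop (by norm_num))
  rw [mul_zero] at hlimY
  obtain ⟨Z, hZ1, hZ2, hZ3, hZ4⟩ := ((hlimY.eventually_le_const hη).and
    ((eventually_ge_atTop x1).and ((eventually_ge_atTop 100).and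
      (eventually_ge_atTop (100 * Y))))).exists
  set K := ⌊Z / 5⌋₊ with hK
  have hKa : (K : ℝ) ≤ Z / 5 := Nat.floor_le (by linarith)
  have hKb : Z / 5 - 1 ≤ (K : ℝ) := by
    have := Nat.lt_floor_add_one (Z / 5)
    linarith
  refine ⟨4 * K, ?_⟩
  have hlog : Tendsto (fun N : ℕ => Real.log (N : ℝ)) atTop atTop :=
    Real.tendsto_log_atTop.comp tendsto_natCast_atTop_atTop
  filter_upwards [hlog.eventually_ge_atTop Z, eventually_ge_atTop 1] with N hN hN1
  intro x hx0 hxY T i hi hT
  have hN' : (1 : ℝ) ≤ N := by exact_mod_cast hN1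
  set S := range (N + 1) with hS
  have hiK : i ^ 2 ≤ K := by
    have h1 : ((i : ℝ)) ^ 2 ≤ K := by linarith
    exact_mod_cast h1
  classical
  set q : ℕ → ℝ := fun s => if s ∈ S then 0 else 1 with hq
  have hqu : Unit01 q := by
    intro s
    simp only [hq]
    split_ifs <;> norm_num
  have hR' := hR Z (Real.log N + x) hZ2 (by linarith) K i (by linarith) (by linarith) hiK
    (nLA S T) (fun _ => q) (nLA_unit S T) (fun _ => hqu) (by
      intro s n hs w hw had hn
      obtain ⟨hcol, hle⟩ := pass hs hw had hn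
      simp only [hq]
      split_ifs with h1
      · have h2 : nLA S T n = 0 := by
          unfold nLA
          rw [if_pos]
          refine ⟨K + w.sum, ?_, ?_⟩
          · have h3 : ((K + w.sum : ℕ) : ℤ) ≤ ((4 * K : ℕ) : ℤ) := by exact_mod_cast hle
            push_cast at h3 ⊢
            linarith
          · rw [hcol]
            exact h1
        rw [h2]
      · exact (nLA_unit S _ n).2)
  have hsum : ∑ A ∈ win (1 / 10) K, rho K A * DD (i1 K) q (zz (Real.log N + x) K A) = 0 := by
    apply Finset.sum_eq_zero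
    intro A hA
    have h1 : DD (i1 K) q (zz (Real.log N + x) K A) = 0 := by
      apply DD_zero
      intro n hn
      simp only [hq]
      rw [if_pos]
      rw [hS, mem_range, Nat.lt_succ_iff]
      have h2 : zz (Real.log N + x) K A ≤ Real.log N := by
        have hA' : |(A : ℝ) - 2 * K| ≤ 1 / 10 * K := (mem_filter.1 hA).2
        have h3 := (abs_le.1 hA').1
        have hl2 := Real.log_two_gt_d9
        have hl3 : Real.log 3 < 1.1 := by
          rw [Real.log_lt_iff_lt_exp (by norm_num)]
          have h := Real.exp_one_gt_d9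
          have h4 : Real.exp 1.1 = Real.exp 1 * Real.exp 0.1 := by
            rw [← Real.exp_add]
            norm_num
          have h5 : (1.105 : ℝ) ≤ Real.exp 0.1 := by
            have := Real.quadratic_le_exp_of_nonneg (show (0 : ℝ) ≤ 0.1 by norm_num)
            linarith
          rw [h4]
          nlinarith
        unfold zz
        have hK0 : (0 : ℝ) ≤ K := Nat.cast_nonneg K
        have h4 : 1.9 * K * 0.693 ≤ (A : ℝ) * Real.log 2 := by
          apply mul_le_mul (by linarith) (by linarith) (by norm_num) (by positivity)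
        have h5 : (K : ℝ) * Real.log 3 ≤ K * 1.1 := mul_le_mul_of_nonneg_left hl3.le hK0
        linarith
      have h3 : Real.exp (zz (Real.log N + x) K A) ≤ N := by
        refine (Real.exp_le_exp.2 h2).trans (le_of_eq ?_)
        rw [Real.exp_log (by linarith)]
      exact_mod_cast hn.trans h3
    rw [h1, mul_zero]
  rw [hsum, zero_add] at hR'
  exact hR'.trans hZ1

end TSD

open TSC TSD in
/-- upper bound for the late passages below `N` -/
theorem ts_nohit (y : ℝ) {ε : ℝ} (hε : 0 < ε) : ∃ X1 : ℝ, ∀ᶠ N : ℕ in atTop, ∀ x : ℝ, X1 ≤ x →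
    DD 0 (nLA (range (N + 1)) ⌊3 / Real.log (4 / 3) * x + y * sgm * Real.sqrt x⌋)
      (Real.log N + x) ≤ 1 / 2 * Phi (-y) + ε := by
  refine TSB.nohit_abs (l := atTop) (d := 1 / 2) (by norm_num) (by norm_num) recGN (by
      intro η hη
      obtain ⟨x1, hx1⟩ := DD_le_half hη
      refine ⟨max x1 0, fun Y => ?_⟩
      obtain ⟨Lm, hLm⟩ := base_small hη Y
      refine ⟨Lm, ?_⟩
      filter_upwards [hLm] with N hN
      intro x hx hxY T i hi
      have hL := log_nonneg' N
      have hxx1 : x1 ≤ x := (le_max_left _ _).trans hx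
      have hx0 : 0 ≤ x := (le_max_right _ _).trans hx
      split_ifs with hT
      · have h1 := hx1 (nLA (range (N + 1)) T) (Real.log N + x) (nLA_unit _ _)
          (by linarith) i (by linarith)
        have h2 : GN N i T x = DD i (nLA (range (N + 1)) T) (Real.log N + x) := rfl
        rw [h2]
        linarith
      · have h1 := hN x hx0 hxY T i hi (by omega)
        linarith) y hε

end Pool.Agent.Lib.MP_e43fce_nt_nat
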