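import Pool.Agent.Lib.MP_e43fce_nt_nat.TSD
import Pool.Agent.Lib.MP_e43fce_nt_nat.GA0

/-! TS-E: first passage below `N`, all numbers up to `X`, for `N` and `X / N` large. -/

set_option autoImplicit false

namespace Pool.Agent.Lib.MP_e43fce_nt_nat

open Finset Filter Topology MeasureTheory ProbabilityTheory

/-- both `N` and `X / N` large -/
noncomputable def FF : Filter (ℕ × ℕ) :=
  comap (fun P : ℕ × ℕ => (P.2 : ℝ) / P.1) atTop ⊓ comap Prod.fst atTop

namespace TSE

open TSC TSD CLTA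

theorem mono_T (S : Finset ℕ) {T T' : ℤ} (h : T ≤ T') (n : ℕ) : pLA S T n ≤ pLA S T' n := by
  by_cases h1 : ∃ k : ℕ, (k : ℤ) ≤ T ∧ col^[k] n ∈ S
  · have h2 : pLA S T' n = 1 := by
      unfold pLA
      rw [if_pos]
      obtain ⟨k, hk, hk1⟩ := h1
      exact ⟨k, hk.trans h, hk1⟩
    rw [h2]
    exact (pLA_unit S T n).2
  · have h2 : pLA S T n = 0 := by
      unfold pLA
      rw [if_neg h1]
    rw [h2]
    exact (pLA_unit S T' n).1

theorem anti_T (S : Finset ℕ) {T T' : ℤ} (h : T ≤ T') (n : ℕ) : nLA S T' n ≤ nLA S T n := by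
  have h1 := mono_T S h n
  have h2 := pLA_add_nLA S T n
  have h3 := pLA_add_nLA S T' n
  linarith

theorem hit_two_pow (N j : ℕ) (T : ℤ) (m : ℕ) :
    pLA (range (N + 1)) T (2 ^ j * m) ≤ pLA (range (N + 1)) T m := by
  by_cases h1 : ∃ k : ℕ, (k : ℤ) ≤ T ∧ col^[k] (2 ^ j * m) ∈ range (N + 1)
  · have h2 : pLA (range (N + 1)) T m = 1 := by
      unfold pLA
      rw [if_pos]
      obtain ⟨k, hk, hk1⟩ := h1
      rcases Nat.lt_or_ge N m with h3 | h3
      · obtain ⟨k', hk', hk2⟩ := GA.hit_subA (S := range (N + 1)) (j := j) (m := m) (k := k) (by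
          refine lt_of_le_of_lt ?_ h3
          apply Finset.sup_le
          intro a ha
          exact Nat.lt_succ_iff.1 (mem_range.1 ha)) hk1
        exact ⟨k', (by exact_mod_cast hk' : (k' : ℤ) ≤ k).trans hk, hk2⟩
      · refine ⟨0, ?_, mem_range.2 (Nat.lt_succ_iff.2 h3)⟩
        have : (0 : ℤ) ≤ k := Int.natCast_nonneg k
        push_cast
        linarith
    rw [h2]
    exact (pLA_unit _ T _).2
  · have h2 : pLA (range (N + 1)) T (2 ^ j * m) = 0 := by
      unfold pLA
      rw [if_neg h1]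
    rw [h2]
    exact (pLA_unit _ T m).1

theorem nohit_two_pow (S : Finset ℕ) (j : ℕ) (T : ℤ) (m : ℕ) :
    nLA S T (2 ^ j * m) ≤ nLA S (T - j) m := by
  by_cases h1 : ∃ k : ℕ, (k : ℤ) ≤ T - j ∧ col^[k] m ∈ S
  · have h2 : nLA S T (2 ^ j * m) = 0 := by
      unfold nLA
      rw [if_pos]
      obtain ⟨k, hk, hk1⟩ := h1
      refine ⟨k + j, by push_cast; linarith, ?_⟩
      rw [Function.iterate_add_apply]
      have h2 := h34_col_iter_lt 0 j m
      simp only [add_zero, pow_zero, one_mul] at h2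
      rw [h2]
      exact hk1
    rw [h2]
    exact (nLA_unit _ _ _).1
  · have h2 : nLA S (T - j) m = 1 := by
      unfold nLA
      rw [if_neg h1]
    rw [h2]
    exact (nLA_unit _ _ _).2

theorem FF_log : Tendsto (fun P : ℕ × ℕ => Real.log ((P.2 : ℝ) / P.1)) FF atTop :=
  Real.tendsto_log_atTop.comp (tendsto_comap.mono_left inf_le_left)

theorem FF_fst : Tendsto (fun P : ℕ × ℕ => P.1) FF atTop :=
  tendsto_comap.mono_left inf_le_right

/-- one class `n = 2^j m` -/
theorem class_j (y : ℝ) (j : ℕ) : Tendsto (fun P : ℕ × ℕ =>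
    DD 0 (fun m => pLA (range (P.1 + 1)) ⌊thr y (Real.log ((P.2 : ℝ) / P.1))⌋ (2 ^ j * m))
      (Real.log ((P.2 : ℝ) / 2 ^ j))) FF (𝓝 (1 / 2 * Phi y)) := by
  rw [Metric.tendsto_nhds]
  intro ε hε
  obtain ⟨r, hr, hr2⟩ := Metric.continuous_iff.1 Phi_continuous y (ε / 4) (by linarith)
  set η : ℝ := r / 2 with hη
  have hη0 : 0 < η := by positivity
  have hp := hr2 (y + η) (by rw [Real.dist_eq]; simp only [add_sub_cancel_left]; rw [abs_of_pos hη0]; linarith)
  have hm := hr2 (y - η) (by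
    rw [Real.dist_eq]
    have : y - η - y = -η := by ring
    rw [this, abs_neg, abs_of_pos hη0]
    linarith)
  rw [Real.dist_eq, abs_lt] at hp hm
  obtain ⟨X1, hX1⟩ := ts_hit (y + η) (show 0 < ε / 4 by linarith)
  obtain ⟨X2, hX2⟩ := ts_nohit (y - η) (show 0 < ε / 4 by linarith)
  set c0 : ℝ := 3 / Real.log (4 / 3) with hc0
  have hc0p : 0 < c0 := c0_pos
  have hl2 : 0 ≤ Real.log 2 := Real.log_nonneg (by norm_num)
  set B : ℝ := j * Real.log 2 with hB
  have hB0 : 0 ≤ B := by positivity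
  have hσ := CLTA.sgm_pos
  have hev : ∀ᶠ x : ℝ in atTop, j + 1 + (c0 + |y| * sgm) * B ≤ η * sgm * Real.sqrt x := by
    have ht : Tendsto (fun x : ℝ => η * sgm * Real.sqrt x) atTop atTop :=
      Real.tendsto_sqrt_atTop.const_mul_atTop (mul_pos hη0 hσ)
    exact ht.eventually_ge_atTop _
  have hev2 : ∀ᶠ x : ℝ in atTop, Real.exp (-x) ≤ ε / 8 :=
    Real.tendsto_exp_neg_atTop_nhds_zero.eventually_le_const (by linarith)
  -- the variable `x = log (X / N) - j log 2`
  have hx : Tendsto (fun P : ℕ × ℕ => Real.log ((P.2 : ℝ) / P.1) - B) FF atTop :=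
    tendsto_atTop_add_const_right _ _ FF_log
  filter_upwards [hx.eventually hev, hx.eventually hev2, hx.eventually_ge_atTop X1,
    hx.eventually_ge_atTop X2, hx.eventually_ge_atTop 1, FF_fst.eventually hX2,
    FF_fst.eventually_ge_atTop 1, FF_log.eventually_gt_atTop 0]
    with P h1 h2 h3 h4 h5 h6 h7 h8
  obtain ⟨N, X⟩ := P
  dsimp only at *
  have hN : (1 : ℝ) ≤ N := by exact_mod_cast h7
  have hX : (0 : ℝ) < X := by
    rcases Nat.eq_zero_or_pos X with h | h
    · exfalso
      subst h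
      simp at h8
    · exact_mod_cast h
  set L := Real.log ((X : ℝ) / N) with hL
  set x := L - B with hxdef
  have hheight : Real.log ((X : ℝ) / 2 ^ j) = Real.log N + x := by
    rw [hxdef, hL, hB, Real.log_div (by positivity) (by positivity),
      Real.log_div (by positivity) (by positivity), Real.log_pow]
    ring
  rw [hheight]
  set S := range (N + 1) with hS
  set T : ℤ := ⌊thr y L⌋ with hT
  have hnear := thr_near (y := y) (x := x) (a := L) (B := B) h5 h8.le (by
    rw [hxdef]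
    have : L - (L - B) = B := by ring
    rw [this, abs_of_nonneg hB0])
  rw [abs_le] at hnear
  have hthr : ∀ z : ℝ, thr z x = c0 * x + z * sgm * Real.sqrt x := fun z => rfl
  have hs0 : 0 ≤ Real.sqrt x := Real.sqrt_nonneg x
  have hj0 : (0 : ℝ) ≤ j := Nat.cast_nonneg j
  -- upper bound
  have hup : DD 0 (fun m => pLA S T (2 ^ j * m)) (Real.log N + x) ≤ 1 / 2 * Phi (y + η) + ε / 4 := by
    refine le_trans (DD_mono (fun m => ?_) _) (hX1 N x h3)
    refine (hit_two_pow N j T m).trans (mono_T _ ?_ m)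
    apply Int.floor_le_floor
    have h9 := hthr y
    have h10 : c0 * x + (y + η) * sgm * Real.sqrt x = c0 * x + y * sgm * Real.sqrt x +
        η * sgm * Real.sqrt x := by ring
    rw [h10]
    linarith [hnear.2]
  -- lower bound
  have hlo : DD 0 (fun m => nLA S T (2 ^ j * m)) (Real.log N + x) ≤
      1 / 2 * Phi (-(y - η)) + ε / 4 := by
    refine le_trans (DD_mono (fun m => ?_) _) (h6 x h4)
    refine (nohit_two_pow S j T m).trans (anti_T _ ?_ m)
    rw [← sub_nonneg]
    have h9 := hthr y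
    have h10 : c0 * x + (y - η) * sgm * Real.sqrt x = c0 * x + y * sgm * Real.sqrt x -
        η * sgm * Real.sqrt x := by ring
    have h11 := Int.floor_le (c0 * x + (y - η) * sgm * Real.sqrt x)
    have h12 := Int.sub_one_lt_floor (thr y L)
    have h13 : (⌊c0 * x + (y - η) * sgm * Real.sqrt x⌋ : ℝ) < ((T - j + 1 : ℤ) : ℝ) := by
      push_cast
      rw [h10] at h11
      rw [h10]
      linarith [hnear.1]
    have h14 : ⌊c0 * x + (y - η) * sgm * Real.sqrt x⌋ < T - j + 1 := by exact_mod_cast h13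
    omega
  have hone : DD 0 (fun m => pLA S T (2 ^ j * m)) (Real.log N + x) +
      DD 0 (fun m => nLA S T (2 ^ j * m)) (Real.log N + x) =
      DD 0 (fun _ => 1) (Real.log N + x) := by
    rw [← DD_add]
    congr 1
    ext m
    exact pLA_add_nLA S T _
  have hlogN : 0 ≤ Real.log (N : ℝ) := Real.log_nonneg hN
  have hD1 := DD_one 0 (Real.log N + x) (by linarith)
  have hmm : mm 0 = 1 := by unfold mm; norm_num
  rw [hmm, pow_zero, abs_le] at hD1
  have hex : 1 / Real.exp (Real.log N + x) ≤ ε / 8 := by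
    refine le_trans ?_ h2
    rw [one_div, ← Real.exp_neg]
    apply Real.exp_le_exp.2
    linarith
  have hPn := Phi_neg (y - η)
  rw [Real.dist_eq, abs_lt]
  constructor
  · linarith [hD1.1, hm.1]
  · linarith [hp.2]

end TSE

open TSE CLTA in
/-- all numbers: the two-scale central limit theorem for large `N` -/
theorem ts_joint (y : ℝ) : Tendsto (fun P : ℕ × ℕ =>
    (∑ n ∈ Icc 1 P.2, pLA (range (P.1 + 1)) ⌊thr y (Real.log ((P.2 : ℝ) / P.1))⌋ n) / P.2)
      FF (𝓝 (Phi y)) := by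
  have e : Phi y = ∑' j : ℕ, (1 / 2 : ℝ) ^ j * (1 / 2 * Phi y) := by
    rw [GA.two_mul_tsum]; ring
  have hbound : Summable (fun j : ℕ => (1 / 2 : ℝ) ^ j) :=
    summable_geometric_of_lt_one (by norm_num) (by norm_num)
  have key : Tendsto (fun P : ℕ × ℕ => ∑' j : ℕ, (1 / 2 : ℝ) ^ j *
      DD 0 (fun m => pLA (range (P.1 + 1)) ⌊thr y (Real.log ((P.2 : ℝ) / P.1))⌋ (2 ^ j * m))
      (Real.log ((P.2 : ℝ) / 2 ^ j))) FF (𝓝 (Phi y)) := by
    rw [e]
    refine tendsto_tsum_of_dominated_convergence hbound ?_ ?_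
    · intro j
      exact Tendsto.const_mul _ (class_j y j)
    · filter_upwards with P j
      rw [norm_mul, Real.norm_of_nonneg (by positivity : (0:ℝ) ≤ (1/2) ^ j)]
      have := DD0_abs_le (p := fun m => pLA (range (P.1 + 1))
        ⌊thr y (Real.log ((P.2 : ℝ) / P.1))⌋ (2 ^ j * m)) (fun n => pLA_unit _ _ _)
        (Real.log ((P.2 : ℝ) / 2 ^ j))
      have h0 : (0 : ℝ) ≤ (1 / 2) ^ j := by positivity
      nlinarith
  refine key.congr' ?_
  filter_upwards [FF_log.eventually_gt_atTop 0] with P hP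
  have hX : 1 ≤ P.2 := by
    rcases Nat.eq_zero_or_pos P.2 with h | h
    · exfalso
      rw [h] at hP
      simp at hP
    · exact h
  exact (mean_eq_tsum (fun n => pLA (range (P.1 + 1))
    ⌊thr y (Real.log ((P.2 : ℝ) / P.1))⌋ n) hX).symm

end Pool.Agent.Lib.MP_e43fce_nt_nat
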