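import Pool.Agent.Lib.MP_e43fce_nt_nat.TSE
import Pool.Agent.Lib.MP_e43fce_nt_nat.GFin

/-! TS-F: hitting a fixed finite set, all numbers up to `X`, with the time in terms of `X / q`. -/

set_option autoImplicit false

namespace Pool.Agent.Lib.MP_e43fce_nt_nat

open Finset Filter Topology MeasureTheory ProbabilityTheory

namespace TSF

open TSC TSD CLTA TSE

theorem hit_two_pow' (S : Finset ℕ) (j : ℕ) (T : ℤ) (m : ℕ) :
    pLA S T (2 ^ j * m) ≤ pLA S T m + (if m ∈ range (S.sup id + 1) then 1 else 0) := by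
  have h0 := (pLA_unit S T m).1
  by_cases hm : m ∈ range (S.sup id + 1)
  · rw [if_pos hm]
    have := (pLA_unit S T (2 ^ j * m)).2
    linarith
  · rw [if_neg hm, add_zero]
    have hm' : S.sup id < m := by
      rw [mem_range] at hm
      omega
    by_cases h1 : ∃ k : ℕ, (k : ℤ) ≤ T ∧ col^[k] (2 ^ j * m) ∈ S
    · have h2 : pLA S T m = 1 := by
        unfold pLA
        rw [if_pos]
        obtain ⟨k, hk, hk1⟩ := h1
        obtain ⟨k', hk', hk2⟩ := GA.hit_subA hm' hk1
        exact ⟨k', (by exact_mod_cast hk' : (k' : ℤ) ≤ k).trans hk, hk2⟩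
      rw [h2]
      exact (pLA_unit _ T _).2
    · have h2 : pLA S T (2 ^ j * m) = 0 := by
        unfold pLA
        rw [if_neg h1]
      rw [h2]
      exact h0

theorem hit_two_pow_ge (S : Finset ℕ) (j : ℕ) (T : ℤ) (m : ℕ) :
    pLA S (T - j) m ≤ pLA S T (2 ^ j * m) := by
  have h1 := nohit_two_pow S j T m
  have h2 := pLA_add_nLA S (T - j) m
  have h3 := pLA_add_nLA S T (2 ^ j * m)
  linarith

/-- one class `n = 2^j m` -/
theorem class_fix (S : Finset ℕ) {d : ℝ} (hd : Tendsto (DD 0 (ind (preA S))) atTop (𝓝 d))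
    {q : ℝ} (hq : 0 < q) (y : ℝ) (j : ℕ) : Tendsto (fun X : ℕ =>
    DD 0 (fun m => pLA S ⌊thr y (Real.log ((X : ℝ) / q))⌋ (2 ^ j * m))
      (Real.log ((X : ℝ) / 2 ^ j))) atTop (𝓝 (d * Phi y)) := by
  rw [Metric.tendsto_nhds]
  intro ε hε
  have hcont : Continuous (fun t : ℝ => d * Phi t) := continuous_const.mul Phi_continuous
  obtain ⟨r, hr, hr2⟩ := Metric.continuous_iff.1 hcont y (ε / 4) (by linarith)
  set η : ℝ := r / 2 with hη
  have hη0 : 0 < η := by positivity
  have hp := hr2 (y + η) (by rw [Real.dist_eq]; simp only [add_sub_cancel_left]; rw [abs_of_pos hη0]; linarith)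
  have hm := hr2 (y - η) (by
    rw [Real.dist_eq]
    have : y - η - y = -η := by ring
    rw [this, abs_neg, abs_of_pos hη0]
    linarith)
  rw [Real.dist_eq, abs_lt] at hp hm
  have hU := (clt_oddA S hd (y + η)).eventually_le_const
    (show d * Phi (y + η) < d * Phi (y + η) + ε / 4 by linarith)
  have hL := (clt_oddA S hd (y - η)).eventually_const_le
    (show d * Phi (y - η) - ε / 4 < d * Phi (y - η) by linarith)
  set c0 : ℝ := 3 / Real.log (4 / 3) with hc0
  have hc0p : 0 < c0 := c0_pos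
  have hl2 : 0 ≤ Real.log 2 := Real.log_nonneg (by norm_num)
  set B : ℝ := j * Real.log 2 + |Real.log q| with hB
  have hB0 : 0 ≤ B := by positivity
  have hσ := CLTA.sgm_pos
  have hev : ∀ᶠ x : ℝ in atTop, j + 1 + (c0 + |y| * sgm) * B ≤ η * sgm * Real.sqrt x := by
    have ht : Tendsto (fun x : ℝ => η * sgm * Real.sqrt x) atTop atTop :=
      Real.tendsto_sqrt_atTop.const_mul_atTop (mul_pos hη0 hσ)
    exact ht.eventually_ge_atTop _
  have hev2 : ∀ᶠ x : ℝ in atTop, ((range (S.sup id + 1)).card : ℝ) * (3 ^ 0 / Real.exp x) ≤ ε / 4 := by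
    have h1 : Tendsto (fun x : ℝ => Real.exp (-x)) atTop (𝓝 0) := Real.tendsto_exp_neg_atTop_nhds_zero
    have h2 := h1.const_mul ((range (S.sup id + 1)).card : ℝ)
    rw [mul_zero] at h2
    have h3 : Tendsto (fun x : ℝ => ((range (S.sup id + 1)).card : ℝ) * (3 ^ 0 / Real.exp x)) atTop
        (𝓝 0) := by
      refine h2.congr (fun x => ?_)
      rw [Real.exp_neg, pow_zero, one_div]
    exact h3.eventually_le_const (by linarith)
  -- the variable `x = log (X / 2^j)`
  have hx : Tendsto (fun X : ℕ => Real.log ((X : ℝ) / 2 ^ j)) atTop atTop := by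
    refine Real.tendsto_log_atTop.comp ?_
    exact tendsto_natCast_atTop_atTop.atTop_div_const (by positivity)
  have hx2 : Tendsto (fun X : ℕ => Real.log ((X : ℝ) / q)) atTop atTop := by
    refine Real.tendsto_log_atTop.comp ?_
    exact tendsto_natCast_atTop_atTop.atTop_div_const hq
  filter_upwards [hx.eventually hev, hx.eventually hev2, hx.eventually_ge_atTop 1,
    hx.eventually hU, hx.eventually hL, hx2.eventually_ge_atTop 0, eventually_ge_atTop 1]
    with X h1 h2 h3 h4 h5 h6 h7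
  have hX : (0 : ℝ) < X := by
    have : (1 : ℝ) ≤ X := by exact_mod_cast h7
    linarith
  set L := Real.log ((X : ℝ) / q) with hL
  set x := Real.log ((X : ℝ) / 2 ^ j) with hxdef
  have hdiff : L - x = j * Real.log 2 - Real.log q := by
    rw [hxdef, hL, Real.log_div (by positivity) (by positivity),
      Real.log_div (by positivity) (by positivity), Real.log_pow]
    ring
  set T : ℤ := ⌊thr y L⌋ with hT
  have hnear := thr_near (y := y) (x := x) (a := L) (B := B) h3 h6 (by
    rw [hdiff, hB]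
    refine (abs_sub _ _).trans ?_
    rw [abs_of_nonneg (show 0 ≤ (j : ℝ) * Real.log 2 by positivity)])
  rw [abs_le] at hnear
  have hthr : ∀ z : ℝ, thr z x = c0 * x + z * sgm * Real.sqrt x := fun z => rfl
  have hs0 : 0 ≤ Real.sqrt x := Real.sqrt_nonneg x
  have hj0 : (0 : ℝ) ≤ j := Nat.cast_nonneg j
  -- upper bound
  have hup : DD 0 (fun m => pLA S T (2 ^ j * m)) x ≤ d * Phi (y + η) + ε / 4 + ε / 4 := by
    have h8 : DD 0 (fun m => pLA S T (2 ^ j * m)) x ≤
        DD 0 (fun m => pLA S ⌊c0 * x + (y + η) * sgm * Real.sqrt x⌋ m +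
          (if m ∈ range (S.sup id + 1) then 1 else 0)) x := by
      refine DD_mono (fun m => ?_) _
      refine (hit_two_pow' S j T m).trans ?_
      have h9 : T ≤ ⌊c0 * x + (y + η) * sgm * Real.sqrt x⌋ := by
        apply Int.floor_le_floor
        have h9 := hthr y
        have h10 : c0 * x + (y + η) * sgm * Real.sqrt x = c0 * x + y * sgm * Real.sqrt x +
            η * sgm * Real.sqrt x := by ring
        rw [h10]
        linarith [hnear.2]
      have h10 := mono_T S h9 m
      linarith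
    rw [DD_add] at h8
    have h9 := DD_finset 0 (range (S.sup id + 1)) x
    linarith
  -- lower bound
  have hlo : d * Phi (y - η) - ε / 4 ≤ DD 0 (fun m => pLA S T (2 ^ j * m)) x := by
    refine h5.trans (DD_mono (fun m => ?_) _)
    refine le_trans (mono_T _ ?_ m) (hit_two_pow_ge S j T m)
    have h9 := hthr y
    have h10 : c0 * x + (y - η) * sgm * Real.sqrt x = c0 * x + y * sgm * Real.sqrt x -
        η * sgm * Real.sqrt x := by ring
    have h11 := Int.floor_le (c0 * x + (y - η) * sgm * Real.sqrt x)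
    have h12 := Int.sub_one_lt_floor (thr y L)
    have h13 : (⌊c0 * x + (y - η) * sgm * Real.sqrt x⌋ : ℝ) < ((T - j + 1 : ℤ) : ℝ) := by
      push_cast
      rw [h10] at h11
      rw [h10]
      linarith [hnear.1]
    have h14 : ⌊c0 * x + (y - η) * sgm * Real.sqrt x⌋ < T - j + 1 := by exact_mod_cast h13
    omega
  rw [Real.dist_eq, abs_lt]
  constructor
  · linarith [hm.1]
  · linarith [hp.2]

end TSF

open TSF CLTA in
/-- all numbers, fixed finite set -/
theorem ts_fixed (S : Finset ℕ) {d : ℝ} (hd : Tendsto (DD 0 (ind (preA S))) atTop (𝓝 d))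
    {q : ℝ} (hq : 0 < q) (y : ℝ) : Tendsto (fun X : ℕ =>
    (∑ n ∈ Icc 1 X, pLA S ⌊thr y (Real.log ((X : ℝ) / q))⌋ n) / X) atTop (𝓝 (2 * d * Phi y)) := by
  have e : 2 * d * Phi y = ∑' j : ℕ, (1 / 2 : ℝ) ^ j * (d * Phi y) := by
    rw [GA.two_mul_tsum]; ring
  have hbound : Summable (fun j : ℕ => (1 / 2 : ℝ) ^ j) :=
    summable_geometric_of_lt_one (by norm_num) (by norm_num)
  have key : Tendsto (fun X : ℕ => ∑' j : ℕ, (1 / 2 : ℝ) ^ j *
      DD 0 (fun m => pLA S ⌊thr y (Real.log ((X : ℝ) / q))⌋ (2 ^ j * m))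
      (Real.log ((X : ℝ) / 2 ^ j))) atTop (𝓝 (2 * d * Phi y)) := by
    rw [e]
    refine tendsto_tsum_of_dominated_convergence hbound ?_ ?_
    · intro j
      exact Tendsto.const_mul _ (class_fix S hd hq y j)
    · filter_upwards with X j
      rw [norm_mul, Real.norm_of_nonneg (by positivity : (0:ℝ) ≤ (1/2) ^ j)]
      have := DD0_abs_le (p := fun m => pLA S
        ⌊thr y (Real.log ((X : ℝ) / q))⌋ (2 ^ j * m)) (fun n => pLA_unit _ _ _)
        (Real.log ((X : ℝ) / 2 ^ j))
      have h0 : (0 : ℝ) ≤ (1 / 2) ^ j := by positivity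
      nlinarith
  refine key.congr' ?_
  filter_upwards [eventually_ge_atTop 1] with X hX
  exact (mean_eq_tsum (fun n => pLA S ⌊thr y (Real.log ((X : ℝ) / q))⌋ n) hX).symm

end Pool.Agent.Lib.MP_e43fce_nt_nat
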