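import Pool.Agent.Lib.MP_e43fce_nt_nat.CLTG
import Pool.Agent.Lib.MP_e43fce_nt_nat.HFin

/-! TS-P: pointwise convergence of distribution functions to `D * Phi` is uniform. -/

set_option autoImplicit false

namespace Pool.Agent.Lib.MP_e43fce_nt_nat

open Finset Filter Topology MeasureTheory ProbabilityTheory

theorem Phi_mono {a b : ℝ} (h : a ≤ b) : Phi a ≤ Phi b := by
  unfold Phi
  exact measureReal_mono (Set.Iic_subset_Iic.2 h)

theorem Phi_le_one' (y : ℝ) : Phi y ≤ 1 := by
  have h := Phi_neg y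
  have h2 := Phi_nonneg (-y)
  linarith

theorem polya {ι : Type*} {l : Filter ι} {F : ι → ℝ → ℝ} {H : ι → ℝ} {D : ℝ} (hD0 : 0 ≤ D)
    (hD1 : D ≤ 1) (hmono : ∀ ν y y', y ≤ y' → F ν y ≤ F ν y') (h0 : ∀ ν y, 0 ≤ F ν y)
    (hH : ∀ ν y, F ν y ≤ H ν) (hHl : Tendsto H l (𝓝 D))
    (hl : ∀ y, Tendsto (fun ν => F ν y) l (𝓝 (D * Phi y))) {ε : ℝ} (hε : 0 < ε) :
    ∀ᶠ ν in l, ∀ y, |F ν y - D * Phi y| ≤ ε := by
  -- tails
  obtain ⟨M, hM1, hM2⟩ := ((HFin.Phi_lim.eventually_const_le
    (show 1 - ε / 4 < (1 : ℝ) by linarith)).and (eventually_ge_atTop 0)).exists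
  have hM3 : Phi (-M) ≤ ε / 4 := by
    have := Phi_neg M
    linarith
  -- uniform continuity
  have huc := isCompact_Icc.uniformContinuousOn_of_continuous
    (Phi_continuous.continuousOn (s := Set.Icc (-M - 1) (M + 1)))
  rw [Metric.uniformContinuousOn_iff] at huc
  obtain ⟨δ, hδ, hδ2⟩ := huc (ε / 4) (by linarith)
  set s := min (δ / 2) 1 with hs
  have hs0 : 0 < s := lt_min (by linarith) one_pos
  have hs1 : s ≤ 1 := min_le_right _ _
  have hs2 : s < δ := (min_le_left _ _).trans_lt (by linarith)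
  set n := ⌊2 * M / s⌋₊ + 1 with hn
  have hgrid : ∀ᶠ ν in l, ∀ k ∈ range (n + 1),
      |F ν (-M + k * s) - D * Phi (-M + k * s)| ≤ ε / 4 := by
    rw [eventually_all_finset]
    intro k _
    have h1 := (hl (-M + k * s)).sub_const (D * Phi (-M + k * s))
    rw [sub_self] at h1
    have h2 := h1.abs
    rw [abs_zero] at h2
    exact h2.eventually_le_const (by linarith)
  have hMM : ∀ᶠ ν in l, |F ν M - D * Phi M| ≤ ε / 4 := by
    have h1 := (hl M).sub_const (D * Phi M)
    rw [sub_self] at h1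
    have h2 := h1.abs
    rw [abs_zero] at h2
    exact h2.eventually_le_const (by linarith)
  have hHH : ∀ᶠ ν in l, H ν ≤ D + ε / 4 := hHl.eventually_le_const (by linarith)
  filter_upwards [hgrid, hMM, hHH] with ν hg hm hh
  intro y
  rw [abs_le] at hm
  rcases lt_or_ge y (-M) with hy | hy
  · have h1 := hg 0 (mem_range.2 (by omega))
    rw [Nat.cast_zero, zero_mul, add_zero, abs_le] at h1
    have h2 := hmono ν y (-M) hy.le
    have h3 := h0 ν y
    have h4 := Phi_mono hy.le
    have h5 := Phi_nonneg y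
    have h6 : D * Phi (-M) ≤ 1 * (ε / 4) := mul_le_mul hD1 hM3 (Phi_nonneg _) zero_le_one
    have h7 : D * Phi y ≤ D * Phi (-M) := mul_le_mul_of_nonneg_left h4 hD0
    have h8 : 0 ≤ D * Phi y := mul_nonneg hD0 h5
    rw [abs_le]
    constructor <;> linarith
  · rcases le_or_gt M y with hy2 | hy2
    · have h1 := hmono ν M y hy2
      have h2 := hH ν y
      have h3 := Phi_mono hy2
      have h4 := Phi_le_one' y
      have h5 : D * (1 - ε / 4) ≤ D * Phi M := mul_le_mul_of_nonneg_left hM1 hD0
      have h6 : D * Phi M ≤ D * Phi y := mul_le_mul_of_nonneg_left h3 hD0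
      have h7 : D * Phi y ≤ D * 1 := mul_le_mul_of_nonneg_left h4 hD0
      have h8 : D * (ε / 4) ≤ 1 * (ε / 4) := mul_le_mul_of_nonneg_right hD1 (by linarith)
      rw [abs_le]
      constructor <;> nlinarith
    · set k := ⌊(y + M) / s⌋₊ with hk
      have hyM : 0 ≤ (y + M) / s := div_nonneg (by linarith) hs0.le
      have hk1 : (k : ℝ) ≤ (y + M) / s := Nat.floor_le hyM
      have hk2 : (y + M) / s < k + 1 := Nat.lt_floor_add_one _
      rw [le_div_iff₀ hs0] at hk1
      rw [div_lt_iff₀ hs0] at hk2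
      have hkn : k + 1 ≤ n := by
        rw [hn, hk]
        apply Nat.succ_le_succ
        apply Nat.floor_le_floor
        apply div_le_div_of_nonneg_right _ hs0.le
        linarith
      have h1 := hg k (mem_range.2 (by omega))
      have h2 := hg (k + 1) (mem_range.2 (by omega))
      push_cast at h2
      rw [abs_le] at h1 h2
      set a := -M + (k : ℝ) * s with ha
      set b := -M + ((k : ℝ) + 1) * s with hb
      have hab : b = a + s := by rw [ha, hb]; ring
      have hay : a ≤ y := by rw [ha]; linarith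
      have hyb : y ≤ b := by rw [hb]; linarith
      have hk0 : (0 : ℝ) ≤ k := Nat.cast_nonneg k
      have haM : -M ≤ a := by rw [ha]; nlinarith
      have h3 := hmono ν a y hay
      have h4 := hmono ν y b hyb
      have hin : ∀ z, a ≤ z → z ≤ b → z ∈ Set.Icc (-M - 1) (M + 1) := by
        intro z hz1 hz2
        constructor <;> linarith
      have h5 := hδ2 y (hin y hay hyb) a (hin a le_rfl (by linarith)) (by
        rw [Real.dist_eq, abs_lt]; constructor <;> linarith)
      have h6 := hδ2 b (hin b (by linarith) le_rfl) y (hin y hay hyb) (by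
        rw [Real.dist_eq, abs_lt]; constructor <;> linarith)
      rw [Real.dist_eq, abs_lt] at h5 h6
      have h7 : D * (Phi y - Phi a) ≤ 1 * (ε / 4) :=
        mul_le_mul hD1 h5.2.le (by linarith [Phi_mono hay]) zero_le_one
      have h8 : D * (Phi b - Phi y) ≤ 1 * (ε / 4) :=
        mul_le_mul hD1 h6.2.le (by linarith [Phi_mono hyb]) zero_le_one
      rw [abs_le]
      constructor <;> nlinarith [h1.1, h2.2]

end Pool.Agent.Lib.MP_e43fce_nt_nat
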