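import Pool.Agent.Lib.MP_e43fce_nt_nat.TSF
import Pool.Agent.Lib.MP_e43fce_nt_nat.TSP

/-! TS-G: the two-scale law, uniformly in the lower scale, the upper scale and the time. -/

set_option autoImplicit false

namespace Pool.Agent.Lib.MP_e43fce_nt_nat

open Finset Filter Topology MeasureTheory ProbabilityTheory

namespace TSG

open TSC TSD CLTA TSE TSF

/-- the set of the `n` which hit `S` within time `t` -/
def AS (S : Finset ℕ) (t : ℝ) : Set ℕ := {n | ∃ k : ℕ, (k : ℝ) ≤ t ∧ col^[k] n ∈ S}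

theorem cnt_ind (A : Set ℕ) (X : ℕ) : cnt A X = ∑ n ∈ Icc 1 X, ind A n := by
  classical
  rw [cnt_filter A X ((Icc 1 X).filter (fun n => n ∈ A)) (by
      intro n; simp only [Finset.mem_filter, Finset.mem_Icc]; tauto), Finset.card_filter]
  push_cast
  refine Finset.sum_congr rfl (fun n _ => ?_)
  unfold ind
  split_ifs <;> rfl

theorem ind_AS (S : Finset ℕ) (t : ℝ) (n : ℕ) : ind (AS S t) n = pLA S ⌊t⌋ n := by
  classical
  have h : n ∈ AS S t ↔ ∃ k : ℕ, (k : ℤ) ≤ ⌊t⌋ ∧ col^[k] n ∈ S := by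
    show (∃ k : ℕ, (k : ℝ) ≤ t ∧ col^[k] n ∈ S) ↔ _
    refine exists_congr (fun k => and_congr_left (fun _ => ?_))
    rw [Int.le_floor]
    push_cast
    rfl
  unfold ind pLA
  by_cases h1 : n ∈ AS S t
  · rw [if_pos h1, if_pos (h.1 h1)]
  · rw [if_neg h1, if_neg (fun h2 => h1 (h.2 h2))]

theorem cnt_AS (S : Finset ℕ) (t : ℝ) (X : ℕ) : cnt (AS S t) X = ∑ n ∈ Icc 1 X, pLA S ⌊t⌋ n := by
  rw [cnt_ind]
  exact Finset.sum_congr rfl (fun n _ => ind_AS S t n)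

theorem AS_sub {S : Finset ℕ} {t t' : ℝ} (h : t ≤ t') : ∀ n, n ∈ AS S t → n ∈ AS S t' := by
  rintro n ⟨k, hk, hk1⟩
  exact ⟨k, hk.trans h, hk1⟩

theorem AS_pre {S : Finset ℕ} {t : ℝ} : ∀ n, n ∈ AS S t → n ∈ preA S := by
  rintro n ⟨k, hk, hk1⟩
  exact ⟨k, hk1⟩

theorem thr_mono {y y' x : ℝ} (h : y ≤ y') : thr y x ≤ thr y' x := by
  unfold thr
  have h1 := CLTA.sgm_pos
  have h2 := Real.sqrt_nonneg x
  have h3 : y * sgm * Real.sqrt x ≤ y' * sgm * Real.sqrt x :=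
    mul_le_mul_of_nonneg_right (mul_le_mul_of_nonneg_right h h1.le) h2
  linarith

/-- from proportions to counts -/
theorem to_cnt {a b e : ℝ} {X : ℕ} (hX : 0 < X) (h : |a / X - b| ≤ e) : |a - b * X| ≤ e * X := by
  have hX' : (0 : ℝ) < X := by exact_mod_cast hX
  have h1 : a - b * X = (a / X - b) * X := by field_simp
  rw [h1, abs_mul, abs_of_pos hX']
  exact mul_le_mul_of_nonneg_right h hX'.le

/-- fixed finite set -/
theorem fixed_unif (S : Finset ℕ) {δ : ℝ} (hδ : HasDens (preA S) δ) {q : ℝ} (hq : 0 < q) {ε : ℝ}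
    (hε : 0 < ε) : ∀ᶠ X : ℕ in atTop, (∀ y : ℝ,
      |cnt (AS S (thr y (Real.log ((X : ℝ) / q)))) X / X - δ * Phi y| ≤ ε) ∧
      |cnt (preA S) X / X - δ| ≤ ε := by
  obtain ⟨d, hd, hD⟩ := preA_density S
  have hδd : δ = 2 * d := hδ.unique hD
  subst hδd
  have h0 : 0 ≤ 2 * d := ge_of_tendsto' hδ (fun X =>
    div_nonneg (cnt_nonneg _ _) (Nat.cast_nonneg _))
  have h1 : 2 * d ≤ 1 := hδ.le HFin.dens_univ (fun n _ _ => Set.mem_univ n)
  have h2 := polya (l := atTop) (F := fun (X : ℕ) (y : ℝ) =>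
    cnt (AS S (thr y (Real.log ((X : ℝ) / q)))) X / X) (H := fun X : ℕ => cnt (preA S) X / X)
    (D := 2 * d) h0 h1
    (fun X y y' h => div_le_div_of_nonneg_right
      (cnt_mono (fun n _ _ hn => AS_sub (thr_mono h) n hn)) (Nat.cast_nonneg _))
    (fun X y => div_nonneg (cnt_nonneg _ _) (Nat.cast_nonneg _))
    (fun X y => div_le_div_of_nonneg_right
      (cnt_mono (fun n _ _ hn => AS_pre n hn)) (Nat.cast_nonneg _))
    hδ (fun y => by
      have h3 := ts_fixed S hd hq y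
      refine h3.congr (fun X => ?_)
      rw [cnt_AS]) hε
  have h3 : ∀ᶠ X : ℕ in atTop, |cnt (preA S) X / X - 2 * d| ≤ ε := by
    have h4 := hδ.sub_const (2 * d)
    rw [sub_self] at h4
    have h5 := h4.abs
    rw [abs_zero] at h5
    exact h5.eventually_le_const hε
  exact h2.and h3

/-- large `N` -/
theorem joint_unif {ε : ℝ} (hε : 0 < ε) : ∀ᶠ P : ℕ × ℕ in FF, ∀ y : ℝ,
    |cnt (AS (range (P.1 + 1)) (thr y (Real.log ((P.2 : ℝ) / P.1)))) P.2 / P.2 - 1 * Phi y| ≤ ε := by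
  refine polya (l := FF) (F := fun (P : ℕ × ℕ) (y : ℝ) =>
    cnt (AS (range (P.1 + 1)) (thr y (Real.log ((P.2 : ℝ) / P.1)))) P.2 / P.2) (H := fun _ => 1)
    (D := 1) zero_le_one le_rfl
    (fun P y y' h => div_le_div_of_nonneg_right
      (cnt_mono (fun n _ _ hn => AS_sub (thr_mono h) n hn)) (Nat.cast_nonneg _))
    (fun P y => div_nonneg (cnt_nonneg _ _) (Nat.cast_nonneg _))
    (fun P y => div_le_one_of_le₀ (cnt_le _ _) (Nat.cast_nonneg _))
    tendsto_const_nhds (fun y => ?_) hε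
  have h3 := ts_joint y
  rw [one_mul]
  refine h3.congr (fun P => ?_)
  rw [cnt_AS]

theorem FF_ev {p : ℕ × ℕ → Prop} (h : ∀ᶠ P in FF, p P) : ∃ (R : ℝ) (N1 : ℕ), ∀ N X : ℕ, N1 ≤ N →
    R ≤ (X : ℝ) / N → p (N, X) := by
  unfold FF at h
  rw [eventually_inf] at h
  obtain ⟨s, hs, t, ht, hst⟩ := h
  rw [mem_comap] at hs ht
  obtain ⟨s', hs', hs2⟩ := hs
  obtain ⟨t', ht', ht2⟩ := ht
  obtain ⟨R, hR⟩ := mem_atTop_sets.1 hs'
  obtain ⟨N1, hN1⟩ := mem_atTop_sets.1 ht'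
  exact ⟨R, N1, fun N X hN hX => hst (N, X) ⟨hs2 (hR _ hX), ht2 (hN1 _ hN)⟩⟩

/-- density close to `1` for large `N` -/
theorem dens_large {ε : ℝ} (hε : 0 < ε) : ∃ N2 : ℕ, ∀ N : ℕ, N2 ≤ N → ∀ δ : ℝ,
    HasDens (preA (range (N + 1))) δ → 1 - ε ≤ δ ∧ δ ≤ 1 := by
  obtain ⟨c, K, hc, hhit⟩ := hitting_law
  have hg : Tendsto (fun N : ℕ => K * (Real.log N) ^ (-(1 / 4) : ℝ)) atTop (𝓝 (K * 0)) := by
    apply Tendsto.const_mul
    exact (tendsto_rpow_neg_atTop (by norm_num)).comp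
      (Real.tendsto_log_atTop.comp tendsto_natCast_atTop_atTop)
  rw [mul_zero] at hg
  obtain ⟨N2, hN2⟩ := eventually_atTop.1 ((hg.eventually_le_const hε).and (eventually_ge_atTop 2))
  refine ⟨N2, fun N hN δ hδ => ?_⟩
  obtain ⟨h1, h2⟩ := hN2 N hN
  obtain ⟨δ', hle, hδ', -, hrate, -⟩ := hhit (range (N + 1))
  have he : δ = δ' := hδ.unique hδ'
  subst he
  have h3 := hrate N h2 (fun m _ hm => mem_range.2 (by omega))
  exact ⟨by linarith, hle⟩

end TSG

open TSG CLTA TSE in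
/-- the two-scale law -/
theorem ts_two (S : Finset ℕ) {ε : ℝ} (hε : 0 < ε) : ∃ R : ℝ, ∀ N X : ℕ,
    R * max (N : ℝ) 1 ≤ X → ∀ δ : ℝ, HasDens (preA (S ∪ range (N + 1))) δ →
    (∀ y : ℝ, |cnt (AS (S ∪ range (N + 1)) (thr y (Real.log ((X : ℝ) / max (N : ℝ) 1)))) X -
      δ * Phi y * X| ≤ ε * X) ∧ |cnt (preA (S ∪ range (N + 1))) X - δ * X| ≤ ε * X := by
  obtain ⟨R1, N1, hJ⟩ := FF_ev (joint_unif (show 0 < ε / 4 by linarith))
  obtain ⟨N2, hN2⟩ := dens_large (show 0 < ε / 4 by linarith)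
  set N3 := max (max N1 N2) (max (S.sup id) 1) with hN3
  have hfix : ∀ N : ℕ, ∃ X0 : ℕ, ∀ X : ℕ, X0 ≤ X → ∀ δ : ℝ,
      HasDens (preA (S ∪ range (N + 1))) δ → (∀ y : ℝ,
      |cnt (AS (S ∪ range (N + 1)) (thr y (Real.log ((X : ℝ) / max (N : ℝ) 1)))) X / X - δ * Phi y| ≤ ε) ∧
      |cnt (preA (S ∪ range (N + 1))) X / X - δ| ≤ ε := by
    intro N
    obtain ⟨d, -, hD⟩ := preA_density (S ∪ range (N + 1))
    obtain ⟨X0, hX0⟩ := eventually_atTop.1 (fixed_unif _ hD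
      (show (0 : ℝ) < max (N : ℝ) 1 from lt_max_of_lt_right one_pos) hε)
    refine ⟨X0, fun X hX δ hδ => ?_⟩
    have he : δ = 2 * d := hδ.unique hD
    subst he
    exact hX0 X hX
  choose X0 hX0 using hfix
  refine ⟨max (max R1 1) ((∑ N ∈ range N3, X0 N : ℕ) : ℝ), ?_⟩
  intro N X hX δ hδ
  have hq1 : (1 : ℝ) ≤ max (N : ℝ) 1 := le_max_right _ _
  set R := max (max R1 1) ((∑ N ∈ range N3, X0 N : ℕ) : ℝ) with hR
  have hR1 : 1 ≤ R := (le_max_right _ _).trans (le_max_left _ _)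
  have hRX : R ≤ X := by nlinarith
  have hXpos : 0 < X := by
    have : (0 : ℝ) < X := by linarith
    exact_mod_cast this
  have hX' : (0 : ℝ) < X := by exact_mod_cast hXpos
  rcases Nat.lt_or_ge N N3 with hN | hN
  · have h1 : X0 N ≤ X := by
      have h2 : X0 N ≤ ∑ N ∈ range N3, X0 N :=
        Finset.single_le_sum (f := X0) (fun _ _ => Nat.zero_le _) (mem_range.2 hN)
      have h3 : ((∑ N ∈ range N3, X0 N : ℕ) : ℝ) ≤ X := (le_max_right _ _).trans hRX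
      have h4 : ∑ N ∈ range N3, X0 N ≤ X := by exact_mod_cast h3
      exact h2.trans h4
    obtain ⟨h2, h3⟩ := hX0 N X h1 δ hδ
    exact ⟨fun y => to_cnt hXpos (h2 y), to_cnt hXpos h3⟩
  · have hNN1 : N1 ≤ N := ((le_max_left _ _).trans (le_max_left _ _)).trans hN
    have hNN2 : N2 ≤ N := ((le_max_right _ _).trans (le_max_left _ _)).trans hN
    have hNS : S.sup id ≤ N := ((le_max_left _ _).trans (le_max_right _ _)).trans hN
    have hN1 : 1 ≤ N := ((le_max_right _ _).trans (le_max_right _ _)).trans hN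
    have hN1' : (1 : ℝ) ≤ N := by exact_mod_cast hN1
    have hmax : max (N : ℝ) 1 = N := max_eq_left hN1'
    have hS : S ∪ range (N + 1) = range (N + 1) := by
      apply Finset.union_eq_right.2
      intro a ha
      have h1 : a ≤ S.sup id := Finset.le_sup (f := id) ha
      exact mem_range.2 (by omega)
    rw [hS] at hδ ⊢
    rw [hmax] at hX ⊢
    have h1 : R1 ≤ (X : ℝ) / N := by
      rw [le_div_iff₀ (by linarith)]
      have h2 : R1 ≤ R := (le_max_left _ _).trans (le_max_left _ _)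
      have h3 : R1 * N ≤ R * N := mul_le_mul_of_nonneg_right h2 (by linarith)
      linarith
    have h2 := hJ N X hNN1 h1
    dsimp only at h2
    obtain ⟨h3, h4⟩ := hN2 N hNN2 δ hδ
    have hy : ∀ y : ℝ, |cnt (AS (range (N + 1)) (thr y (Real.log ((X : ℝ) / N)))) X / X -
        δ * Phi y| ≤ ε / 2 := by
      intro y
      have h5 := h2 y
      have h6 := Phi_nonneg y
      have h7 := Phi_le_one' y
      rw [one_mul, abs_le] at h5
      rw [abs_le]
      constructor <;> nlinarith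
    refine ⟨fun y => to_cnt hXpos ((hy y).trans (by linarith)), to_cnt hXpos ?_⟩
    -- a large value of `y`
    obtain ⟨y, hy1⟩ := (HFin.Phi_lim.eventually_const_le
      (show 1 - ε / 4 < (1 : ℝ) by linarith)).exists
    have h5 := hy y
    have h6 : cnt (AS (range (N + 1)) (thr y (Real.log ((X : ℝ) / N)))) X / X ≤
        cnt (preA (range (N + 1))) X / X :=
      div_le_div_of_nonneg_right (cnt_mono (fun n _ _ hn => AS_pre n hn)) hX'.le
    have h7 : cnt (preA (range (N + 1))) X / X ≤ 1 :=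
      div_le_one_of_le₀ (cnt_le _ _) hX'.le
    have h8 := Phi_le_one' y
    rw [abs_le] at h5
    rw [abs_le]
    constructor <;> nlinarith

end Pool.Agent.Lib.MP_e43fce_nt_nat
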