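import Pool.Agent.Lib.MP_e43fce_nt_nat.TSG

/-! TS-H: the law of first passage times with the two-scale law. -/

set_option autoImplicit false

namespace Pool.Agent.Lib.MP_e43fce_nt_nat

open Finset Filter Topology

theorem slow_const (N : ℕ) : Slow (fun _ => N) := by
  refine ⟨monotone_const, ?_⟩
  refine tendsto_const_nhds.div_atTop ?_
  exact Real.tendsto_sqrt_atTop.comp (Real.tendsto_log_atTop.comp tendsto_natCast_atTop_atTop)

open TSG CLTA in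
theorem fin_passage2 : ∃ (c : ℝ) (δ : Finset ℕ → (ℕ → ℕ) → ℝ), 0 < c ∧
    (∀ S f, Slow f →
      HasDens {n | tau S f n ≤ n} (δ S f) ∧ HasDens {n | tau S f n = ⊤} (1 - δ S f) ∧
      (∀ y : ℝ, HasDens {n | ∃ k : ℕ, tau S f n = k ∧
        (k : ℝ) ≤ 3 / Real.log (4 / 3) * Real.log n +
          y * ((3 * Real.log 2 / Real.log (4 / 3) - 1) * Real.sqrt (2 / Real.log (4 / 3))) *
            Real.sqrt (Real.log n)}
        (δ S f * (ProbabilityTheory.gaussianReal 0 1).real (Set.Iic y))) ∧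
      (∀ a ∈ S, 0 < a → ¬ 3 ∣ a → c / a ≤ δ S f)) ∧
    (∀ S, ∀ ε : ℝ, 0 < ε → ∃ R : ℝ, ∀ N X : ℕ, R * max (N : ℝ) 1 ≤ X →
      |cnt {n | tau S (fun _ => N) n ≠ ⊤} X - δ S (fun _ => N) * X| ≤ ε * X ∧
      ∀ y : ℝ, |cnt {n | ∃ k : ℕ, tau S (fun _ => N) n = k ∧
        (k : ℝ) ≤ 3 / Real.log (4 / 3) * Real.log (X / max (N : ℝ) 1) +
          y * ((3 * Real.log 2 / Real.log (4 / 3) - 1) * Real.sqrt (2 / Real.log (4 / 3))) *
            Real.sqrt (Real.log (X / max (N : ℝ) 1))} X -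
        δ S (fun _ => N) * (ProbabilityTheory.gaussianReal 0 1).real (Set.Iic y) * X| ≤ ε * X) ∧
    (∀ B : ℕ, ∃ K : ℝ, ∀ S f, Slow f → ∀ m : ℕ, 2 ≤ f m → 1 - K / (Real.log (f m)) ^ B ≤ δ S f) ∧
    (δ {1} 0 = 1 ↔ ∀ n : ℕ, 0 < n → tau {1} 0 n ≠ ⊤) := by
  classical
  obtain ⟨c, δ, hc, h1, h2, h3⟩ := fin_passage
  refine ⟨c, δ, hc, h1, ?_, h2, h3⟩
  intro S ε hε
  obtain ⟨R, hR⟩ := ts_two S hε
  refine ⟨R, fun N X hX => ?_⟩
  have hset : ({n | tau S (fun _ => N) n ≠ ⊤} : Set ℕ) = preA (S ∪ range (N + 1)) := by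
    ext n
    show tau S (fun _ => N) n ≠ ⊤ ↔ ∃ k : ℕ, col^[k] n ∈ S ∪ range (N + 1)
    unfold tau
    rw [HFin.inf_ne_top]
    refine exists_congr (fun k => ?_)
    rw [mem_union, mem_range, Nat.lt_succ_iff]
  have hδ : HasDens (preA (S ∪ range (N + 1))) (δ S (fun _ => N)) := by
    rw [← hset]
    have h4 := (h1 S (fun _ => N) (slow_const N)).2.1.compl
    have h5 : ({n | tau S (fun _ => N) n = ⊤} : Set ℕ)ᶜ = {n | tau S (fun _ => N) n ≠ ⊤} := by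
      ext n
      rfl
    rw [h5] at h4
    have h6 : 1 - (1 - δ S (fun _ => N)) = δ S (fun _ => N) := by ring
    rwa [h6] at h4
  obtain ⟨h4, h5⟩ := hR N X hX _ hδ
  refine ⟨?_, fun y => ?_⟩
  · rw [hset]
    exact h5
  · have hs : sgm = (3 * Real.log 2 / Real.log (4 / 3) - 1) * Real.sqrt (2 / Real.log (4 / 3)) := by
      unfold sgm kap
      congr 1
      ring
    rw [← hs]
    have h6 : ({n : ℕ | ∃ k : ℕ, tau S (fun _ => N) n = k ∧
        (k : ℝ) ≤ 3 / Real.log (4 / 3) * Real.log (X / max (N : ℝ) 1) +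
          y * sgm * Real.sqrt (Real.log (X / max (N : ℝ) 1))} : Set ℕ) =
        AS (S ∪ range (N + 1)) (thr y (Real.log ((X : ℝ) / max (N : ℝ) 1))) := by
      ext n
      show (∃ k : ℕ, tau S (fun _ => N) n = k ∧ (k : ℝ) ≤ _) ↔
        ∃ k : ℕ, (k : ℝ) ≤ _ ∧ col^[k] n ∈ S ∪ range (N + 1)
      unfold tau
      rw [HFin.inf_real]
      refine exists_congr (fun k => and_congr_right (fun _ => ?_))
      rw [mem_union, mem_range, Nat.lt_succ_iff]
    rw [h6]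
    exact h4 y

end Pool.Agent.Lib.MP_e43fce_nt_nat
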