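import Pool.Agent.Lib.MP_e43fce_nt_nat.WB1
import Pool.Agent.Lib.MP_e43fce_nt_nat.WB2
import Pool.Agent.Lib.MP_e43fce_nt_nat.WB3
import Pool.Agent.Lib.MP_e43fce_nt_nat.WB4
import Pool.Agent.Lib.MP_e43fce_nt_nat.WB5

/-! WB: collects WB1-WB5. -/
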